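import Pool.Agent.H586P.Defs

set_option autoImplicit false

namespace Pool.Agent.H586P

open Pool.Agent.H555R2.PF Pool.Agent.H555R2.PF.Fm

theorem assemble (F : List Rule) (hF : IsFrege F)
    (ded : IsFrege F → S_ded F)
    (dline : IsFrege F → S_ded F → S_dline F)
    (repl : IsFrege F → S_repl F)
    (ren : IsFrege F → S_ren F)
    (cintro : IsFrege F → S_cintro F)
    (disjT : IsFrege F → S_disjT F)
    (disjF : IsFrege F → S_disjF F)
    (decc : IsFrege F → S_disjT F → S_disjF F → S_dec F)
    (leaf : IsFrege F → S_ren F → S_repl F → S_dec F → S_leaf F)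
    (tree : S_tree F)
    (block : IsFrege F → S_leaf F → S_tree F → S_block F)
    (htsize : S_htsize) (htvars : S_htvars)
    (iter : IsFrege F → S_block F → S_htsize → S_htvars → S_iter F)
    (ht : IsFrege F → S_cintro F → S_ht F)
    (tok : IsFrege F → S_dline F → S_iter F → S_ht F → S_htsize → S_kle → S_tok F)
    (dt : IsFrege F → S_dt F)
    (evv : IsFrege F → S_ev F)
    (val : IsFrege F → S_val F)
    (leaf1 : IsFrege F → S_tok F → S_cintro F → S_repl F → S_leaf1 F)
    (leaf2 : IsFrege F → S_ev F → S_leaf2 F)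
    (zero : IsFrege F → S_dt F → S_leaf1 F → S_leaf2 F → S_val F → S_zero F)
    (flipp : S_flip F)
    (one : IsFrege F → S_zero F → S_flip F → S_cintro F → S_repl F → S_one F)
    (cstep : IsFrege F → S_ren F → S_cintro F → S_cstep F)
    (cloop : IsFrege F → S_cstep F → S_cloop F)
    (cfin : IsFrege F → S_cfin F)
    (comb : IsFrege F → S_cloop F → S_cfin F → S_comb F)
    (mainn : IsFrege F → S_zero F → S_one F → S_comb F → S_main F)
    (kle : S_kle)
    (fin : IsFrege F → S_val F → S_kle → S_main F → S_fin F) : S_fin F := by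
  have h1 := ded hF
  have h2 := dline hF h1
  have h3 := repl hF
  have h4 := ren hF
  have h5 := cintro hF
  have h6 := decc hF (disjT hF) (disjF hF)
  have h7 := leaf hF h4 h3 h6
  have h8 := block hF h7 tree
  have h9 := iter hF h8 htsize htvars
  have h10 := ht hF h5
  have h11 := tok hF h2 h9 h10 htsize kle
  have h12 := leaf1 hF h11 h5 h3
  have h13 := leaf2 hF (evv hF)
  have h14 := zero hF (dt hF) h12 h13 (val hF)
  have h15 := one hF h14 flipp h5 h3
  have h16 := cstep hF h4 h5
  have h17 := comb hF (cloop hF h16) (cfin hF)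
  exact fin hF (val hF) kle (mainn hF h14 h15 h17)

end Pool.Agent.H586P
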