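import Pool.Agent.H555R2.PF.Main

/-!
# Subexponential simulation of extended Frege by Frege + permutation: definitions and statements

The library `Pool.Agent.H555R2.PF` (helper555) is used: formulas `Fm`, `IsFrege`, `PermProof`,
`EFProof`, `psize`, `Can F Γ G m`, `schemaL`, `conjL`, `disjL`, `conj_mem`, `disj_mem`, …
-/

set_option autoImplicit false

namespace Pool.Agent.H586P

open Pool.Agent.H555R2.PF Pool.Agent.H555R2.PF.Fm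

/-- truth -/
def top (z : ℕ) : Fm := imp (var z) (var z)

/-- the constants -/
def cst (z : ℕ) (b : Bool) : Fm := if b = true then top z else neg (top z)

/-- the first `m` extension axioms, the last one first -/
def extL (q : ℕ → ℕ) (φ : ℕ → Fm) : ℕ → List Fm
  | 0 => []
  | m + 1 => iff (var (q m)) (φ m) :: extL q φ m

/-- the extension variables `q 0, …, q (k-1)` (defined by `φ 0, …, φ (k-1)`) are fresh -/
def Good (A : Fm) (k : ℕ) (q : ℕ → ℕ) (φ : ℕ → Fm) : Prop :=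
  (∀ i < k, q i ∉ A.vars) ∧ (∀ i < k, ∀ j ≤ i, q i ∉ (φ j).vars) ∧ ∀ i < k, ∀ j < i, q i ≠ q j

/-- injective below `n` -/
def InjB (f : ℕ → ℕ) (n : ℕ) : Prop := ∀ i < n, ∀ j < n, f i = f j → i = j

/-- the `t`-th bit of the number whose one-hot code is `h 0, …, h (2^r-1)` -/
def dec (z r : ℕ) (h : ℕ → ℕ) (t : ℕ) : Fm :=
  disjL z (((List.range (2 ^ r)).filter (fun β => β.testBit t)).map (fun β => var (h β)))

/-- replace the values of the extension variables `q i0, …, q (i0+t-1)` by the constants `a` -/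
def upd (z : ℕ) (q : ℕ → ℕ) (i0 : ℕ) (a : ℕ → Bool) (σ : ℕ → Fm) : ℕ → (ℕ → Fm)
  | 0 => σ
  | t + 1 => Function.update (upd z q i0 a σ t) (q (i0 + t)) (cst z (a t))

/-- `u` is true, `y 0, …, y (m-1)` are false, and `H0` -/
def tokH (z u : ℕ) (y : ℕ → ℕ) (m : ℕ) (H0 : Fm) : Fm :=
  and (and (var u) (conjL z ((List.range m).map fun β => neg (var (y β))))) H0

/-- data for the elimination of one block of `r` extension variables -/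
structure BF (z : ℕ) (A : Fm) (k : ℕ) (q : ℕ → ℕ) (φ : ℕ → Fm) (i0 r : ℕ) (σ : ℕ → Fm)
    (h : ℕ → ℕ) (u : ℕ) (y : ℕ → ℕ) (H0 : Fm) (m M : ℕ) : Prop where
  good : Good A k q φ
  zq : ∀ i < k, q i ≠ z
  le : i0 + r ≤ k
  hdec : ∀ t < r, σ (q (i0 + t)) = dec z r h t
  σz : σ z = var z
  oth : ∀ n ∈ (imp (conjL z (extL q φ (i0 + r))) A).vars, (∀ t < r, n ≠ q (i0 + t)) →
    u ∉ (σ n).vars ∧ ∀ β < 2 ^ r, h β ∉ (σ n).vars ∧ y β ∉ (σ n).vars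
  hyp : u ∉ H0.vars ∧ ∀ β < 2 ^ r, h β ∉ H0.vars ∧ y β ∉ H0.vars
  hinj : InjB h (2 ^ r)
  yinj : InjB y (2 ^ r)
  hu : ∀ β < 2 ^ r, h β ≠ u ∧ y β ≠ u
  hy : ∀ β < 2 ^ r, ∀ γ < 2 ^ r, h β ≠ y γ
  zf : z ≠ u ∧ ∀ β < 2 ^ r, z ≠ h β ∧ z ≠ y β
  m4 : 4 ≤ m
  σm : ∀ n, (σ n).size ≤ m
  M1 : (imp (conjL z (extL q φ (i0 + r))) A).size * m + (tokH z u y (2 ^ r) H0).size +
    2 * 2 ^ r + 20 ≤ M

/-- cut points of the blocks -/
def cutp (b k j : ℕ) : ℕ := min (j * b) k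

/-- the token hypotheses for the `m` blocks `j, …, j+m-1` -/
def HT (z : ℕ) (u y : ℕ → ℕ) (b k : ℕ) : ℕ → ℕ → Fm
  | 0, _ => top z
  | m + 1, j => tokH z (u j) (fun β => y (j * 2 ^ b + β))
      (2 ^ (cutp b k (j + 1) - cutp b k j)) (HT z u y b k m (j + 1))

/-- data for the elimination of all blocks -/
structure IT (z : ℕ) (A : Fm) (k : ℕ) (q : ℕ → ℕ) (φ : ℕ → Fm) (w b : ℕ) (σ : ℕ → Fm)
    (h : ℕ → ℕ → ℕ) (u y : ℕ → ℕ) (m M : ℕ) : Prop where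
  good : Good A k q φ
  zq : ∀ i < k, q i ≠ z
  b1 : 1 ≤ b
  kwb : k ≤ w * b
  hdec : ∀ i < k, σ (q i) =
    dec z (cutp b k (i / b + 1) - cutp b k (i / b)) (h (i / b)) (i % b)
  σz : σ z = var z
  oth : ∀ n ∈ (imp (conjL z (extL q φ k)) A).vars, (∀ i < k, n ≠ q i) →
    (∀ j < w, u j ∉ (σ n).vars) ∧ (∀ j β, h j β ∉ (σ n).vars) ∧
      ∀ i < w * 2 ^ b, y i ∉ (σ n).vars
  hinj : ∀ j β j' β', h j β = h j' β' → j = j' ∧ β = β'
  yinj : InjB y (w * 2 ^ b)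
  uinj : InjB u w
  hu : ∀ j < w, ∀ j' β, h j' β ≠ u j
  yu : ∀ j < w, ∀ i < w * 2 ^ b, y i ≠ u j
  hy : ∀ j β, ∀ i < w * 2 ^ b, h j β ≠ y i
  zu : ∀ j < w, z ≠ u j
  zh : ∀ j β, z ≠ h j β
  zy : ∀ i < w * 2 ^ b, z ≠ y i
  m4 : 4 ≤ m
  σm : ∀ n, (σ n).size ≤ m
  M1 : (imp (conjL z (extL q φ k)) A).size * m + (w + 1) * (9 * 2 ^ b) + 2 * 2 ^ b + 20 ≤ M

/-- `u 0, …, u (w-1)` are true -/
def oneL (u : ℕ → ℕ) (w : ℕ) : List Fm := (List.range w).map fun i => var (u i)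

/-- `y 0, …, y (m-1)` are false -/
def zeroL (y : ℕ → ℕ) (m : ℕ) : List Fm := (List.range m).map fun i => neg (var (y i))

/-- literals -/
def lit (x : ℕ × Bool) : Fm := if x.2 = true then var x.1 else neg (var x.1)

/-- Boolean evaluation -/
def ev (v : ℕ → Bool) : Fm → Bool
  | .var n => v n
  | .neg A => !ev v A
  | .and A B => ev v A && ev v B
  | .or A B => ev v A || ev v B
  | .imp A B => !ev v A || ev v B

/-- `n ↦ ¬ pₙ` or `n ↦ pₙ` -/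
def fl (s : Bool) (n : ℕ) : Fm := if s = true then neg (var n) else var n

/-- negate all variables -/
def flip (A : Fm) : Fm := A.subst (fun n => neg (var n))

/-- the blocks `B 0, …, B (m-1)` (each with `N` variables) are not all true; the last one first -/
def nallR (z : ℕ) (B : ℕ → ℕ → ℕ) (N : ℕ) : ℕ → List Fm
  | 0 => []
  | m + 1 => neg (conjL z (oneL (B m) N)) :: nallR z B N m

section Statements

variable (F : List Rule)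

/-- deduction theorem for a substituted extended Frege proof -/
def S_ded : Prop := ∃ c : ℕ, ∀ (A : Fm) (k : ℕ) (L : List Fm), EFProof F A k L →
  ∃ Ds : List Fm, Ds.length = k ∧ WFExt A Ds ∧ (∀ D ∈ Ds, D ∈ L) ∧ psize Ds ≤ psize L ∧
    ∀ (σ : ℕ → Fm) (E : Fm) (M : ℕ), E.size ≤ M → (∀ B ∈ L, (B.subst σ).size ≤ M) →
      ∀ Γ : Set Fm, (∀ D ∈ Ds, imp E (D.subst σ) ∈ Γ) →
        Can F Γ (L.map fun B => imp E (B.subst σ)) (c * M * L.length)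

/-- the line `extension axioms → A`, under a substitution -/
def S_dline : Prop := ∃ c : ℕ, ∀ (A : Fm) (k : ℕ) (L : List Fm), EFProof F A k (A :: L) →
  ∃ (q : ℕ → ℕ) (φ : ℕ → Fm), Good A k q φ ∧ (∀ i < k, iff (var (q i)) (φ i) ∈ A :: L) ∧
    psize (extL q φ k) ≤ psize (A :: L) ∧
    ∀ (z : ℕ) (σ : ℕ → Fm) (M : ℕ), 1 ≤ M → σ z = var z → (∀ n, (σ n).size ≤ M) →
      ∀ Γ : Set Fm,
        Can F Γ [(imp (conjL z (extL q φ k)) A).subst σ] (c * psize (A :: L) ^ 3 * M)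

/-- replacement of equivalents -/
def S_repl : Prop := ∃ c : ℕ, ∀ (H B : Fm) (σ τ : ℕ → Fm) (M : ℕ), H.size ≤ M →
  (B.subst σ).size ≤ M → (B.subst τ).size ≤ M → ∀ Γ : Set Fm,
    (∀ n ∈ B.vars, imp H (iff (σ n) (τ n)) ∈ Γ) →
    Can F Γ [imp H (iff (B.subst σ) (B.subst τ))] (c * M * B.size)

/-- renaming by a function which is injective on the variables -/
def S_ren : Prop := ∃ c : ℕ, ∀ (A : Fm) (f : ℕ → ℕ) (M : ℕ), A.size ≤ M →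
  Set.InjOn f (A.vars : Set ℕ) → ∀ Γ : Set Fm, A ∈ Γ → Can F Γ [A.rename f] (c * M * M)

/-- introduction of a conjunction -/
def S_cintro : Prop := ∃ c : ℕ, ∀ (z : ℕ) (U : Fm) (Ds : List Fm) (M : ℕ), U.size ≤ M →
  (conjL z Ds).size ≤ M → ∀ Γ : Set Fm, (∀ D ∈ Ds, imp U D ∈ Γ) →
    Can F Γ [imp U (conjL z Ds)] (c * M * (Ds.length + 1))

/-- a true disjunction -/
def S_disjT : Prop := ∃ c : ℕ, ∀ (z : ℕ) (H : Fm) (l : List Fm) (M : ℕ), H.size ≤ M →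
  (disjL z l).size ≤ M → ∀ X ∈ l, ∀ Γ : Set Fm, imp H X ∈ Γ →
    Can F Γ [imp H (iff (disjL z l) (top z))] (c * M * (l.length + 1))

/-- a false disjunction -/
def S_disjF : Prop := ∃ c : ℕ, ∀ (z : ℕ) (H : Fm) (l : List Fm) (M : ℕ), H.size ≤ M →
  (disjL z l).size ≤ M → ∀ Γ : Set Fm, (∀ X ∈ l, imp H (neg X) ∈ Γ) →
    Can F Γ [imp H (iff (disjL z l) (neg (top z)))] (c * M * (l.length + 1))

/-- the value of `dec` for the one-hot code with the token `u` at `α` -/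
def S_dec : Prop := ∃ c : ℕ, ∀ (z r t α u : ℕ) (y : ℕ → ℕ) (H : Fm) (M : ℕ), α < 2 ^ r →
  H.size ≤ M → 2 * 2 ^ r + 10 ≤ M → ∀ Γ : Set Fm, imp H (var u) ∈ Γ →
    (∀ β < 2 ^ r, imp H (neg (var (y β))) ∈ Γ) →
    Can F Γ [imp H (iff (dec z r (fun β => if β = α then u else y β) t) (cst z (α.testBit t)))]
      (c * M * 2 ^ r)

/-- the leaves of the tree of a block: the block has the value `a` -/
def S_leaf : Prop := ∃ c : ℕ, ∀ (z : ℕ) (A : Fm) (k : ℕ) (q : ℕ → ℕ) (φ : ℕ → Fm) (i0 r : ℕ)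
  (σ : ℕ → Fm) (h : ℕ → ℕ) (u : ℕ) (y : ℕ → ℕ) (H0 : Fm) (m M : ℕ),
  BF z A k q φ i0 r σ h u y H0 m M → ∀ (a : ℕ → Bool) (Γ : Set Fm),
    imp H0 ((imp (conjL z (extL q φ (i0 + r))) A).subst σ) ∈ Γ →
    Can F Γ [imp (tokH z u y (2 ^ r) H0)
      ((imp (conjL z (extL q φ (i0 + r))) A).subst (upd z q i0 a σ r))] (c * M * M * 2 ^ r)

/-- a binary tree of derivations -/
def S_tree : Prop := ∀ (W : ℕ → (ℕ → Bool) → Fm) (r K K' : ℕ) (Γ : Set Fm),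
  (∀ a, Can F Γ [W r a] K) →
  (∀ t < r, ∀ a, ∀ Γ' : Set Fm, W (t + 1) (Function.update a t true) ∈ Γ' →
    W (t + 1) (Function.update a t false) ∈ Γ' → Can F Γ' [W t a] K') →
  ∀ a, Can F Γ [W 0 a] (2 ^ r * (K + K'))

/-- elimination of a block -/
def S_block : Prop := ∃ c : ℕ, ∀ (z : ℕ) (A : Fm) (k : ℕ) (q : ℕ → ℕ) (φ : ℕ → Fm) (i0 r : ℕ)
  (σ : ℕ → Fm) (h : ℕ → ℕ) (u : ℕ) (y : ℕ → ℕ) (H0 : Fm) (m M : ℕ),
  BF z A k q φ i0 r σ h u y H0 m M → ∀ Γ : Set Fm,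
    imp H0 ((imp (conjL z (extL q φ (i0 + r))) A).subst σ) ∈ Γ →
    Can F Γ [imp (tokH z u y (2 ^ r) H0) ((imp (conjL z (extL q φ i0)) A).subst σ)]
      (c * M * M * 4 ^ r)

/-- elimination of all blocks -/
def S_iter : Prop := ∃ c : ℕ, ∀ (z : ℕ) (A : Fm) (k : ℕ) (q : ℕ → ℕ) (φ : ℕ → Fm) (w b : ℕ)
  (σ : ℕ → Fm) (h : ℕ → ℕ → ℕ) (u y : ℕ → ℕ) (m M : ℕ),
  IT z A k q φ w b σ h u y m M → ∀ Γ : Set Fm,
    (imp (conjL z (extL q φ k)) A).subst σ ∈ Γ →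
    Can F Γ [imp (HT z u y b k w 0) ((imp (conjL z (extL q φ 0)) A).subst σ)]
      (c * M * M * 4 ^ b * (w + 1))

/-- introduction of the token hypotheses -/
def S_ht : Prop := ∃ c : ℕ, ∀ (z : ℕ) (u y : ℕ → ℕ) (b k : ℕ) (U : Fm) (M m j : ℕ),
  U.size ≤ M → (HT z u y b k m j).size ≤ M → ∀ Γ : Set Fm,
    (∀ i, j ≤ i → i < j + m → imp U (var (u i)) ∈ Γ) →
    (∀ i < (j + m) * 2 ^ b, imp U (neg (var (y i))) ∈ Γ) →
    Can F Γ [imp U (HT z u y b k m j)] (c * M * M * (m + 1))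

/-- **token lemma** -/
def S_tok : Prop := ∃ c : ℕ, ∀ (A : Fm) (k : ℕ) (L : List Fm), EFProof F A k (A :: L) →
  ∀ (w b N₀ z : ℕ) (u y : ℕ → ℕ) (σ₀ : ℕ → Fm), 1 ≤ w → 1 ≤ b → k ≤ w * b →
  (∀ B ∈ A :: L, ∀ n ∈ B.vars, n < N₀ ∧ n ≠ z) → z < N₀ →
  (∀ i < w, u i < N₀ ∧ u i ≠ z) → InjB u w →
  (∀ i < w * 2 ^ b, N₀ ≤ y i) → InjB y (w * 2 ^ b) →
  (∀ n ∈ A.vars, (σ₀ n).size ≤ 4 ∧ ∀ v ∈ (σ₀ n).vars, v < N₀ ∧ ∀ i < w, v ≠ u i) →
  ∀ Γ : Set Fm,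
    Can F Γ [imp (conjL z (oneL u w)) (imp (conjL z (zeroL y (w * 2 ^ b))) (A.subst σ₀))]
      (c * (psize (A :: L) * w * 2 ^ b) ^ 6)

/-- decision tree: stop when `w` variables are found true -/
def S_dt : Prop := ∃ c : ℕ, ∀ (z : ℕ) (G : Fm) (V : List ℕ) (w K M : ℕ) (base : List Fm)
  (Γ : Set Fm), (conjL z base).size + G.size + 4 * V.length ≤ M →
  (∀ (P : List (ℕ × Bool)) (R : List ℕ), (P.map Prod.fst).reverse ++ R = V →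
    (P.countP (fun x => x.2) = w ∨ (R = [] ∧ P.countP (fun x => x.2) ≤ w)) →
    Can F Γ [imp (conjL z (P.map lit ++ base)) G] K) →
  Can F Γ [imp (conjL z base) G] ((K + c * M) * (V.length + 2) ^ (w + 1))

/-- evaluation under an assignment -/
def S_ev : Prop := ∃ c : ℕ, ∀ (v : ℕ → Bool) (U : Fm) (M : ℕ), U.size ≤ M → ∀ C : Fm,
  C.size ≤ M → ∀ Γ : Set Fm, (∀ n ∈ C.vars, imp U (sg (v n) (var n)) ∈ Γ) →
    Can F Γ [imp U (sg (ev v C) C)] (c * M * C.size)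

/-- extended Frege is sound -/
def S_val : Prop := ∀ (A : Fm) (k : ℕ) (L : List Fm), EFProof F A k (A :: L) → ∀ v, A.eval v

/-- leaf of the decision tree with `w` true variables -/
def S_leaf1 : Prop := ∃ c : ℕ, ∀ (A : Fm) (k : ℕ) (L : List Fm), EFProof F A k (A :: L) →
  ∀ (w b N₀ z : ℕ) (y : ℕ → ℕ) (s : Bool) (P : List (ℕ × Bool)), 1 ≤ w → 1 ≤ b → k ≤ w * b →
  (∀ B ∈ A :: L, ∀ n ∈ B.vars, n < N₀ ∧ n ≠ z) → z < N₀ →
  (∀ i < w * 2 ^ b, N₀ ≤ y i) → InjB y (w * 2 ^ b) →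
  (P.map Prod.fst).Nodup → (∀ x ∈ P, x.1 ∈ A.vars) → P.countP (fun x => x.2) = w →
  ∀ Γ : Set Fm,
    Can F Γ [imp (conjL z (P.map lit ++ [conjL z (zeroL y (w * 2 ^ b))])) (A.subst (fl s))]
      (c * (psize (A :: L) * w * 2 ^ b) ^ 6)

/-- leaf of the decision tree at which all variables are decided -/
def S_leaf2 : Prop := ∃ c : ℕ, ∀ A : Fm, (∀ v, A.eval v) → ∀ (z : ℕ) (s : Bool) (X : Fm)
  (P : List (ℕ × Bool)) (M : ℕ), (P.map Prod.fst).Nodup →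
  (∀ n ∈ A.vars, n ∈ P.map Prod.fst) → (conjL z (P.map lit ++ [X])).size + 2 * A.size ≤ M →
  ∀ Γ : Set Fm, Can F Γ [imp (conjL z (P.map lit ++ [X])) (A.subst (fl s))] (c * M ^ 3)

/-- **the world with zeros** -/
def S_zero : Prop := ∃ c : ℕ, ∀ (A : Fm) (k : ℕ) (L : List Fm), EFProof F A k (A :: L) →
  ∀ (w b N₀ z : ℕ) (y : ℕ → ℕ) (s : Bool), 1 ≤ w → 1 ≤ b → k ≤ w * b →
  (∀ B ∈ A :: L, ∀ n ∈ B.vars, n < N₀ ∧ n ≠ z) → z < N₀ →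
  (∀ i < w * 2 ^ b, N₀ ≤ y i) → InjB y (w * 2 ^ b) →
  ∀ Γ : Set Fm, Can F Γ [imp (conjL z (zeroL y (w * 2 ^ b))) (A.subst (fl s))]
    (c * (psize (A :: L) * w * 2 ^ b) ^ 6 * (A.vars.card + 2) ^ (w + 1))

/-- proofs are closed under negating all variables -/
def S_flip : Prop := ∀ (G : List Fm) (m : ℕ), Can F ∅ G m → ∀ Γ : Set Fm,
  Can F Γ (G.map flip) (2 * m)

/-- **the world with ones** -/
def S_one : Prop := ∃ c : ℕ, ∀ (A : Fm) (k : ℕ) (L : List Fm), EFProof F A k (A :: L) →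
  ∀ (w b N₀ z : ℕ) (y : ℕ → ℕ), 1 ≤ w → 1 ≤ b → k ≤ w * b →
  (∀ B ∈ A :: L, ∀ n ∈ B.vars, n < N₀ ∧ n ≠ z) → z < N₀ →
  (∀ i < w * 2 ^ b, N₀ ≤ y i) → InjB y (w * 2 ^ b) →
  ∀ Γ : Set Fm, Can F Γ [imp (conjL z (oneL y (w * 2 ^ b))) A]
    (c * (psize (A :: L) * w * 2 ^ b) ^ 6 * (A.vars.card + 2) ^ (w + 1))

/-- replace a false variable by a block which is not all true -/
def S_cstep : Prop := ∃ c : ℕ, ∀ (z y0 : ℕ) (Dn R A : Fm) (Bl : List ℕ) (M : ℕ),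
  y0 ∉ Dn.vars → y0 ∉ R.vars → y0 ∉ A.vars →
  (∀ b ∈ Bl, b ∉ Dn.vars ∧ b ∉ R.vars ∧ b ∉ A.vars) →
  (imp Dn (imp (and (neg (var y0)) R) A)).size ≤ M → (conjL z (Bl.map var)).size ≤ M →
  ∀ Γ : Set Fm, imp Dn (imp (and (neg (var y0)) R) A) ∈ Γ →
    Can F Γ [imp (and (neg (conjL z (Bl.map var))) Dn) (imp R A)]
      (c * M * M * (Bl.length + 1))

/-- all false variables are replaced -/
def S_cloop : Prop := ∃ c : ℕ, ∀ (z N₀ N : ℕ) (A : Fm) (y : ℕ → ℕ) (B : ℕ → ℕ → ℕ),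
  (∀ n ∈ A.vars, n < N₀) → z < N₀ → (∀ i < N, N₀ ≤ y i) → InjB y N →
  (∀ i < N, ∀ j < N, N₀ ≤ B i j) →
  (∀ i < N, ∀ j < N, ∀ i' < N, ∀ j' < N, B i j = B i' j' → i = i' ∧ j = j') →
  (∀ i < N, ∀ j < N, ∀ l < N, B i j ≠ y l) →
  ∀ Γ : Set Fm, imp (conjL z (zeroL y N)) A ∈ Γ →
    Can F Γ [imp (conjL z (nallR z B N N)) A] (c * (A.size + N + 1) ^ 8)

/-- the blocks are eliminated -/
def S_cfin : Prop := ∃ c : ℕ, ∀ (z N : ℕ) (A : Fm) (B : ℕ → ℕ → ℕ) (Γ : Set Fm),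
  imp (conjL z (nallR z B N N)) A ∈ Γ →
  (∀ i < N, imp (conjL z (oneL (B i) N)) A ∈ Γ) →
  Can F Γ [A] (c * (A.size + N + 1) ^ 8)

/-- **combination of the two worlds** -/
def S_comb : Prop := ∃ c : ℕ, ∀ (A : Fm) (N K N₀ z : ℕ), (∀ n ∈ A.vars, n < N₀) → z < N₀ →
  (∀ y : ℕ → ℕ, (∀ i < N, N₀ ≤ y i) → InjB y N →
    Can F ∅ [imp (conjL z (zeroL y N)) A] K ∧ Can F ∅ [imp (conjL z (oneL y N)) A] K) →
  Can F ∅ [A] ((N + 1) * K + c * (A.size + N + 1) ^ 8)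

/-- the trade-off -/
def S_main : Prop := ∃ c : ℕ, ∀ (A : Fm) (k : ℕ) (L : List Fm), EFProof F A k (A :: L) →
  ∀ w b : ℕ, 1 ≤ w → 1 ≤ b → k ≤ w * b → ∃ L' : List Fm, PermProof F (A :: L') ∧
    psize (A :: L') ≤ c * (psize (A :: L) * w * 2 ^ b) ^ 8 * (A.vars.card + 2) ^ (w + 1)

end Statements

/-- the sizes of the token hypotheses -/
def S_htsize : Prop := ∀ (z : ℕ) (u y : ℕ → ℕ) (b k m j : ℕ),
  (HT z u y b k m j).size ≤ m * (9 * 2 ^ b) + 3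

/-- the variables of the token hypotheses -/
def S_htvars : Prop := ∀ (z : ℕ) (u y : ℕ → ℕ) (b k m j n : ℕ), n ∈ (HT z u y b k m j).vars →
  n = z ∨ (∃ i, j ≤ i ∧ i < j + m ∧ n = u i) ∨
    ∃ i, j * 2 ^ b ≤ i ∧ i < (j + m) * 2 ^ b ∧ n = y i

/-- the number of extension steps is at most the size -/
def S_kle : Prop := ∀ (F : List Rule) (A : Fm) (k : ℕ) (L : List Fm), EFProof F A k L →
  k ≤ psize L

/-- **final statement** -/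
def S_fin (F : List Rule) : Prop := ∃ C : ℕ, ∀ (A : Fm) (k : ℕ) (L : List Fm),
  EFProof F A k (A :: L) →
  (∀ w b : ℕ, 1 ≤ w → 1 ≤ b → k ≤ w * b → ∃ L' : List Fm, PermProof F (A :: L') ∧
    psize (A :: L') ≤ (psize (A :: L) * 2 ^ b * (A.vars.card + 2) ^ w) ^ C) ∧
  (∃ L' : List Fm, PermProof F (A :: L') ∧ psize (A :: L') ≤
    psize (A :: L) ^ C * 2 ^ (C * Nat.sqrt (k * Nat.log 2 (A.vars.card + 2)))) ∧
  ∃ L' : List Fm, PermProof F (A :: L') ∧ psize (A :: L') ≤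
    2 ^ (C * Nat.sqrt (psize (A :: L) * Nat.log 2 (psize (A :: L))))

end Pool.Agent.H586P
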