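import Pool.Agent.H586P.Defs

/-!
# Frege + permutation as a meet of two dual systems whose join is extended Frege:
definitions and statements
-/

set_option autoImplicit false

namespace Pool.Agent.H586P

open Pool.Agent.H555R2.PF Pool.Agent.H555R2.PF.Fm

/-- `p ∧ ψ` (`s = false`) or `p ∨ ψ` (`s = true`) -/
def mixv (s : Bool) (p : ℕ) (ψ : Fm) : Fm := if s = true then or (var p) ψ else and (var p) ψ

/-- from `B'` infer the result of substituting `p ∧ ψ` (`s = false`), respectively `p ∨ ψ`
(`s = true`), for the variable `p` in `B'` -/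
def MonoStep (s : Bool) (L : List Fm) (B : Fm) : Prop :=
  ∃ B' ∈ L, ∃ (p : ℕ) (ψ : Fm), B = B'.subst (Function.update var p (mixv s p ψ))

/-- Proofs in Frege + permutation + the rules `MonoStep s` for `s ∈ S`; the head of the list is
the last line. -/
inductive MonoProof (F : List Rule) (S : Set Bool) : List Fm → Prop
  | nil : MonoProof F S []
  | rule {L : List Fm} {B : Fm} : MonoProof F S L → FregeStep F L B → MonoProof F S (B :: L)
  | perm {L : List Fm} {B : Fm} : MonoProof F S L → PermStep L B → MonoProof F S (B :: L)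
  | mono {s : Bool} {L : List Fm} {B : Fm} : s ∈ S → MonoProof F S L → MonoStep s L B →
      MonoProof F S (B :: L)

/-- `y 0, …, y (m-1)` have the value `s`; the last one first -/
def litR (s : Bool) (y : ℕ → ℕ) : ℕ → List Fm
  | 0 => []
  | m + 1 => lit (y m, s) :: litR s y m

/-- `y 0, …, y (N-1)` have the value `s` -/
def litF (s : Bool) (y : ℕ → ℕ) (N : ℕ) : List Fm := (List.range N).map fun i => lit (y i, s)

section Statements

variable (F : List Rule)

/-- simulation of the monotone substitutions under the hypothesis that enough new variables have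
the value `s` -/
def S_msim : Prop := ∃ c : ℕ, ∀ (s : Bool) (L : List Fm), MonoProof F {s} L →
  ∀ (N₀ z : ℕ) (y : ℕ → ℕ), (∀ B ∈ L, ∀ n ∈ B.vars, n < N₀ ∧ n ≠ z) → z < N₀ →
  (∀ i < L.length, N₀ ≤ y i) → InjB y L.length → ∀ Γ : Set Fm,
    Can F Γ (L.map (imp (conjL z (litR s y L.length)))) (c * (psize L + 1) ^ 4)

/-- reordering of the hypotheses -/
def S_lconv : Prop := ∃ c : ℕ, ∀ (s : Bool) (z : ℕ) (y : ℕ → ℕ) (m N : ℕ), m ≤ N →
  ∀ Γ : Set Fm, Can F Γ [imp (conjL z (litF s y N)) (conjL z (litR s y m))] (c * (N + 1) ^ 4)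

/-- duality -/
def S_fworld : Prop := ∃ c : ℕ, ∀ (s : Bool) (z : ℕ) (A : Fm) (y : ℕ → ℕ) (N K : ℕ),
  Can F ∅ [imp (conjL z (litF s y N)) (flip A)] K → ∀ Γ : Set Fm,
    Can F Γ [imp (conjL z (litF (!s) y N)) A] (2 * K + c * (A.size + N + 1) ^ 4)

/-- an extended Frege proof with all variables of the formula negated -/
def S_efflip : Prop := ∀ (A : Fm) (k : ℕ) (L : List Fm), EFProof F A k (A :: L) →
  ∃ L' : List Fm, EFProof F (flip A) k (flip A :: L') ∧
    psize (flip A :: L') ≤ 2 * psize (A :: L)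

/-- **meet** -/
def S_meet : Prop := ∃ c : ℕ, ∀ (A : Fm) (L₁ L₂ : List Fm), MonoProof F {false} (A :: L₁) →
  MonoProof F {true} (A :: L₂) → ∃ L' : List Fm, PermProof F (A :: L') ∧
    psize (A :: L') ≤ c * (psize (A :: L₁) + psize (A :: L₂)) ^ 12

/-- Frege + permutation simulates extended Frege as soon as one of the two systems does -/
def S_equiv : Prop := ∀ s : Bool,
  (∃ c : ℕ, ∀ (A : Fm) (k : ℕ) (L : List Fm), EFProof F A k (A :: L) →
    ∃ L' : List Fm, MonoProof F {s} (A :: L') ∧ psize (A :: L') ≤ c * psize (A :: L) ^ c) →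
  ∃ c : ℕ, ∀ (A : Fm) (k : ℕ) (L : List Fm), EFProof F A k (A :: L) →
    ∃ L' : List Fm, PermProof F (A :: L') ∧ psize (A :: L') ≤ c * psize (A :: L) ^ c

/-- **join** -/
def S_join : Prop := ∃ c : ℕ, ∀ (A : Fm) (k : ℕ) (L : List Fm), EFProof F A k (A :: L) →
  ∃ L' : List Fm, MonoProof F Set.univ (A :: L') ∧ psize (A :: L') ≤ c * psize (A :: L) ^ 4

end Statements

/-- assembly -/
theorem assemble2 (F : List Rule) (hF : IsFrege F)
    (ren : S_ren F) (repl : S_repl F) (cintro : S_cintro F) (flipp : S_flip F)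
    (comb : S_comb F) (dline : S_dline F)
    (msim : IsFrege F → S_ren F → S_repl F → S_msim F)
    (lconv : IsFrege F → S_cintro F → S_lconv F)
    (fworld : IsFrege F → S_flip F → S_cintro F → S_repl F → S_fworld F)
    (efflip : S_efflip F)
    (meet : IsFrege F → S_msim F → S_lconv F → S_comb F → S_meet F)
    (equiv : IsFrege F → S_msim F → S_lconv F → S_fworld F → S_efflip F → S_comb F → S_equiv F)
    (join : IsFrege F → S_dline F → S_join F) : S_meet F ∧ S_equiv F ∧ S_join F := by
  have h1 := msim hF ren repl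
  have h2 := lconv hF cintro
  have h3 := fworld hF flipp cintro repl
  exact ⟨meet hF h1 h2 comb, equiv hF h1 h2 h3 efflip comb, join hF dline⟩

end Pool.Agent.H586P
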