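import Pool.Agent.H586P.Defs

/-!
# Frege-only version of the library

Copy (by a script) of parts of `Pool.Agent.H555R2.PF` and of `T_repl`, `T_cintro`, `T_disjT`,
`T_disjF`, `T_ev`, with proofs in `F` alone (no permutation rule) instead of `FProof`.
-/

set_option autoImplicit false

namespace Pool.Agent.H586P.FO

open Pool.Agent.H555R2.PF Pool.Agent.H555R2.PF.Fm

/-- Proofs in the Frege system `F`. -/
inductive FProof (F : List Rule) : List Fm → Prop
  | nil : FProof F []
  | rule {L : List Fm} {B : Fm} : FProof F L → FregeStep F L B → FProof F (B :: L)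

/-! ### extending proofs -/

/-- From every proof containing the formulas of `Γ` one can go on to a proof containing the
formulas of `G`, adding at most `m` symbols. -/
def Can (F : List Rule) (Γ : Set Fm) (G : List Fm) (m : ℕ) : Prop :=
  ∀ L, FProof F L → (∀ A ∈ Γ, A ∈ L) →
    ∃ D, FProof F (D ++ L) ∧ (∀ B ∈ G, B ∈ D ++ L) ∧ psize D ≤ m

namespace Can

variable {F : List Rule} {Γ Γ' : Set Fm} {G G' : List Fm} {m m' : ℕ}

theorem mono (h : Can F Γ G m) (hΓ : Γ ⊆ Γ') (hm : m ≤ m') : Can F Γ' G m' := by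
  intro L hL hΓL
  obtain ⟨D, h1, h2, h3⟩ := h L hL fun A hA => hΓL A (hΓ hA)
  exact ⟨D, h1, h2, h3.trans hm⟩

theorem sub (h : Can F Γ G m) (hG : ∀ B ∈ G', B ∈ G) : Can F Γ G' m := by
  intro L hL hΓL
  obtain ⟨D, h1, h2, h3⟩ := h L hL hΓL
  exact ⟨D, h1, fun B hB => h2 B (hG B hB), h3⟩

theorem nil : Can F Γ [] 0 := fun L hL _ => ⟨[], hL, by simp, by simp [psize]⟩

theorem hyp {B : Fm} (h : B ∈ Γ) : Can F Γ [B] 0 := fun L hL hΓ =>
  ⟨[], hL, by simpa using hΓ B h, by simp [psize]⟩

/-- cut -/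
theorem cut (h : Can F Γ G m) (h' : Can F (Γ ∪ {B | B ∈ G}) G' m') : Can F Γ G' (m + m') := by
  intro L hL hΓL
  obtain ⟨D, h1, h2, h3⟩ := h L hL hΓL
  obtain ⟨D', h1', h2', h3'⟩ := h' (D ++ L) h1 (by
    rintro A (hA | hA)
    · exact List.mem_append_right _ (hΓL A hA)
    · exact h2 A hA)
  refine ⟨D' ++ D, by rwa [List.append_assoc], ?_, ?_⟩
  · intro B hB
    rw [List.append_assoc]
    exact h2' B hB
  · rw [psize_append]; omega

theorem append (h : Can F Γ G m) (h' : Can F Γ G' m') : Can F Γ (G ++ G') (m + m') := by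
  intro L hL hΓL
  obtain ⟨D, h1, h2, h3⟩ := h L hL hΓL
  obtain ⟨D', h1', h2', h3'⟩ := h' (D ++ L) h1 fun A hA => List.mem_append_right _ (hΓL A hA)
  refine ⟨D' ++ D, by rwa [List.append_assoc], ?_, ?_⟩
  · intro B hB
    rw [List.append_assoc]
    rcases List.mem_append.1 hB with hB | hB
    · exact List.mem_append_right _ (h2 B hB)
    · exact h2' B hB
  · rw [psize_append]; omega

/-- a family of goals -/
theorem many {ι : Type} (f : ι → Fm) (k : ℕ) : ∀ (l : List ι), (∀ i ∈ l, Can F Γ [f i] k) →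
    Can F Γ (l.map f) (l.length * k) := by
  intro l
  induction l with
  | nil => intro _; simpa using (nil : Can F Γ [] 0)
  | cons i l ih =>
    intro h
    have h1 := h i (by simp)
    have h2 := ih fun j hj => h j (by simp [hj])
    refine ((h1.append h2).sub (by simp)).mono subset_rfl ?_
    simp only [List.length_cons]
    nlinarith

end Can

/-- instances of a derivation -/
theorem derivation_inst {F : List Rule} {Γ₀ : List Fm} {Lf : List Fm}
    (hd : Derivation F Γ₀ Lf) {σ : ℕ → Fm} {M : ℕ} (hM : 1 ≤ M) (hσ : ∀ n, (σ n).size ≤ M)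
    {Γ : Set Fm} (hΓ : ∀ A ∈ Γ₀, A.subst σ ∈ Γ) :
    Can F Γ (Lf.map (Fm.subst σ)) (psize Lf * M) := by
  induction hd with
  | nil => simpa using (Can.nil : Can F Γ [] 0).mono subset_rfl (Nat.zero_le _)
  | @hyp L B hd hB ih =>
    have h1 : Can F Γ [B.subst σ] 0 := Can.hyp (hΓ B hB)
    refine ((h1.append ih).sub (by simp)).mono subset_rfl ?_
    rw [psize_cons]
    nlinarith [Nat.zero_le (B.size * M)]
  | @rule L B hd hB ih =>
    obtain ⟨r, hr, τ, h1, h2⟩ := hB
    intro L' hL' hΓL'
    obtain ⟨D, h3, h4, h5⟩ := ih L' hL' hΓL'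
    have h6 : FregeStep F (D ++ L') (B.subst σ) := by
      refine ⟨r, hr, fun n => (τ n).subst σ, by rw [h1, Fm.subst_subst], ?_⟩
      intro p hp
      rw [← Fm.subst_subst]
      exact h4 _ (List.mem_map.2 ⟨_, h2 p hp, rfl⟩)
    refine ⟨B.subst σ :: D, FProof.rule h3 h6, ?_, ?_⟩
    · intro C hC
      simp only [List.map_cons, List.mem_cons] at hC
      rcases hC with rfl | hC
      · simp
      · exact List.mem_cons_of_mem _ (h4 C hC)
    · rw [psize_cons, psize_cons]
      have := Fm.size_subst_le (σ := σ) hM (A := B) (fun n _ => hσ n)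
      nlinarith

/-- derived schematic rules -/
theorem schema {F : List Rule} (hF : IsFrege F) (Γ₀ : List Fm) (B₀ : Fm) (h : Entails Γ₀ B₀) :
    ∃ c : ℕ, ∀ (σ : ℕ → Fm) (M : ℕ), 1 ≤ M → (∀ n, (σ n).size ≤ M) → ∀ Γ : Set Fm,
      (∀ A ∈ Γ₀, A.subst σ ∈ Γ) → Can F Γ [B₀.subst σ] (c * M) := by
  obtain ⟨L, hL⟩ := hF.2 Γ₀ B₀ h
  refine ⟨psize (B₀ :: L), fun σ M hM hσ Γ hΓ => ?_⟩
  exact (derivation_inst hL hM hσ hΓ).sub (by simp)

variable {F : List Rule}

theorem schemaL (hF : IsFrege F) (Γ₀ : List Fm) (B₀ : Fm) (h : Entails Γ₀ B₀) :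
    ∃ c : ℕ, ∀ (l : List Fm) (M : ℕ), 1 ≤ M → (∀ X ∈ l, X.size ≤ M) → ∀ Γ : Set Fm,
      (∀ A ∈ Γ₀, A.subst (asg l) ∈ Γ) → Can F Γ [B₀.subst (asg l)] (c * M) := by
  obtain ⟨c, hc⟩ := schema hF Γ₀ B₀ h
  exact ⟨c, fun l M hM hl Γ hΓ => hc (asg l) M hM (asg_size hM hl) Γ hΓ⟩

/-- a member of a conjunction -/
theorem conj_mem (hF : IsFrege F) : ∃ c : ℕ, ∀ (z : ℕ) (Ds : List Fm) (M : ℕ), 1 ≤ M →
    (conjL z Ds).size ≤ M → ∀ D ∈ Ds, ∀ Γ : Set Fm,
      Can F Γ [imp (conjL z Ds) D] (c * M * Ds.length) := by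
  obtain ⟨c₁, h₁⟩ := schemaL hF [] (imp (and (var 0) (var 1)) (var 0)) (by
    intro v _; simp [eval]; tauto)
  obtain ⟨c₂, h₂⟩ := schemaL hF [imp (var 1) (var 2)] (imp (and (var 0) (var 1)) (var 2)) (by
    intro v h; simp [eval] at h ⊢; tauto)
  refine ⟨c₁ + c₂, fun z Ds M hM => ?_⟩
  induction Ds with
  | nil => intro _ D hD; simp at hD
  | cons D Ds ih =>
    intro hs C hC Γ
    have hs' : D.size ≤ M ∧ (conjL z Ds).size ≤ M := by
      simp only [conjL, size] at hs; omega
    rcases List.mem_cons.1 hC with rfl | hC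
    · refine (h₁ [C, conjL z Ds] M hM ?_ Γ (by simp)).mono subset_rfl ?_
      · intro X hX; simp at hX; rcases hX with rfl | rfl; exacts [hs'.1, hs'.2]
      · simp only [List.length_cons]
        calc c₁ * M ≤ (c₁ + c₂) * M := Nat.mul_le_mul_right _ (by omega)
          _ ≤ (c₁ + c₂) * M * (Ds.length + 1) := Nat.le_mul_of_pos_right _ (Nat.succ_pos _)
    · have h3 := ih hs'.2 C hC Γ
      have hCs : C.size ≤ M := by
        have := size_le_psize hC
        have h4 := hs'.2
        rw [conjL_size] at h4; omega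
      have h5 := h₂ [D, conjL z Ds, C] M hM (by
        intro X hX; simp at hX; rcases hX with rfl | rfl | rfl
        exacts [hs'.1, hs'.2, hCs]) (Γ ∪ {B | B ∈ [imp (conjL z Ds) C]}) (by
          intro A hA
          simp only [List.mem_singleton] at hA
          subst hA
          right; simp [subst, asg])
      refine (h3.cut h5).mono subset_rfl ?_
      simp only [List.length_cons]; nlinarith

theorem disj_elim (hF : IsFrege F) : ∃ c : ℕ, ∀ (z : ℕ) (W G : Fm) (lits : List Fm) (M : ℕ),
    1 ≤ M → W.size ≤ M → G.size ≤ M → (disjL z lits).size ≤ M → ∀ Γ : Set Fm,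
      (∀ l ∈ lits, imp W (imp l G) ∈ Γ) →
      Can F Γ [imp W (imp (disjL z lits) G)] (c * M * (lits.length + 1)) := by
  obtain ⟨c₁, h₁⟩ := schemaL hF [] (imp (var 0) (imp (neg (imp (var 1) (var 1))) (var 2))) (by
    intro v _; simp [eval])
  obtain ⟨c₂, h₂⟩ := schemaL hF [imp (var 0) (imp (var 1) (var 3)),
    imp (var 0) (imp (var 2) (var 3))] (imp (var 0) (imp (or (var 1) (var 2)) (var 3))) (by
    intro v h; simp [eval] at h ⊢; tauto)
  refine ⟨c₁ + c₂, fun z W G lits M hM hW hG => ?_⟩
  induction lits with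
  | nil =>
    intro _ Γ _
    refine (h₁ [W, var z, G] M hM ?_ Γ (by simp)).mono subset_rfl ?_
    · intro X hX; simp at hX
      rcases hX with rfl | rfl | rfl
      exacts [hW, by simpa [size] using hM, hG]
    · simp only [List.length_nil, zero_add, mul_one]
      exact Nat.mul_le_mul_right _ (by omega)
  | cons l ls ih =>
    intro hs Γ hΓ
    have hs' : l.size ≤ M ∧ (disjL z ls).size ≤ M := by
      simp only [disjL, size] at hs; omega
    have h3 := ih hs'.2 Γ (fun l' hl' => hΓ l' (by simp [hl']))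
    have h5 := h₂ [W, l, disjL z ls, G] M hM (by
      intro X hX; simp at hX; rcases hX with rfl | rfl | rfl | rfl
      exacts [hW, hs'.1, hs'.2, hG]) (Γ ∪ {B | B ∈ [imp W (imp (disjL z ls) G)]}) (by
        intro A hA
        simp only [List.mem_cons, List.not_mem_nil, or_false] at hA
        rcases hA with rfl | rfl
        · left; exact hΓ l (by simp)
        · right; simp [subst, asg])
    refine (h3.cut h5).mono subset_rfl ?_
    simp only [List.length_cons]; nlinarith

theorem disj_mem (hF : IsFrege F) : ∃ c : ℕ, ∀ (z : ℕ) (lits : List Fm) (M : ℕ), 1 ≤ M →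
    (disjL z lits).size ≤ M → ∀ l ∈ lits, ∀ Γ : Set Fm,
      Can F Γ [imp (neg (disjL z lits)) (neg l)] (c * M * lits.length) := by
  obtain ⟨c₁, h₁⟩ := schemaL hF [] (imp (neg (or (var 0) (var 1))) (neg (var 0))) (by
    intro v _; simp [eval]; tauto)
  obtain ⟨c₂, h₂⟩ := schemaL hF [imp (neg (var 1)) (neg (var 2))]
    (imp (neg (or (var 0) (var 1))) (neg (var 2))) (by
    intro v h; simp [eval] at h ⊢; tauto)
  refine ⟨c₁ + c₂, fun z lits M hM => ?_⟩
  induction lits with
  | nil => intro _ D hD; simp at hD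
  | cons l ls ih =>
    intro hs C hC Γ
    have hs' : l.size ≤ M ∧ (disjL z ls).size ≤ M := by
      simp only [disjL, size] at hs; omega
    rcases List.mem_cons.1 hC with rfl | hC
    · refine (h₁ [C, disjL z ls] M hM ?_ Γ (by simp)).mono subset_rfl ?_
      · intro X hX; simp at hX; rcases hX with rfl | rfl; exacts [hs'.1, hs'.2]
      · simp only [List.length_cons]
        calc c₁ * M ≤ (c₁ + c₂) * M := Nat.mul_le_mul_right _ (by omega)
          _ ≤ (c₁ + c₂) * M * (ls.length + 1) := Nat.le_mul_of_pos_right _ (Nat.succ_pos _)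
    · have h3 := ih hs'.2 C hC Γ
      have hCs : C.size ≤ M := by
        have := size_le_psize hC
        have h4 := hs'.2
        rw [disjL_size] at h4; omega
      have h5 := h₂ [l, disjL z ls, C] M hM (by
        intro X hX; simp at hX; rcases hX with rfl | rfl | rfl
        exacts [hs'.1, hs'.2, hCs]) (Γ ∪ {B | B ∈ [imp (neg (disjL z ls)) (neg C)]}) (by
          intro A hA
          simp only [List.mem_singleton] at hA
          subst hA
          right; simp [subst, asg])
      refine (h3.cut h5).mono subset_rfl ?_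
      simp only [List.length_cons]; nlinarith

section Statements

variable (F : List Rule)

/-- replacement of equivalents -/
def S_repl : Prop := ∃ c : ℕ, ∀ (H B : Fm) (σ τ : ℕ → Fm) (M : ℕ), H.size ≤ M →
  (B.subst σ).size ≤ M → (B.subst τ).size ≤ M → ∀ Γ : Set Fm,
    (∀ n ∈ B.vars, imp H (iff (σ n) (τ n)) ∈ Γ) →
    Can F Γ [imp H (iff (B.subst σ) (B.subst τ))] (c * M * B.size)

/-- introduction of a conjunction -/
def S_cintro : Prop := ∃ c : ℕ, ∀ (z : ℕ) (U : Fm) (Ds : List Fm) (M : ℕ), U.size ≤ M →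
  (conjL z Ds).size ≤ M → ∀ Γ : Set Fm, (∀ D ∈ Ds, imp U D ∈ Γ) →
    Can F Γ [imp U (conjL z Ds)] (c * M * (Ds.length + 1))

/-- a true disjunction -/
def S_disjT : Prop := ∃ c : ℕ, ∀ (z : ℕ) (H : Fm) (l : List Fm) (M : ℕ), H.size ≤ M →
  (disjL z l).size ≤ M → ∀ X ∈ l, ∀ Γ : Set Fm, imp H X ∈ Γ →
    Can F Γ [imp H (iff (disjL z l) (top z))] (c * M * (l.length + 1))

/-- a false disjunction -/
def S_disjF : Prop := ∃ c : ℕ, ∀ (z : ℕ) (H : Fm) (l : List Fm) (M : ℕ), H.size ≤ M →
  (disjL z l).size ≤ M → ∀ Γ : Set Fm, (∀ X ∈ l, imp H (neg X) ∈ Γ) →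
    Can F Γ [imp H (iff (disjL z l) (neg (top z)))] (c * M * (l.length + 1))

/-- evaluation under an assignment -/
def S_ev : Prop := ∃ c : ℕ, ∀ (v : ℕ → Bool) (U : Fm) (M : ℕ), U.size ≤ M → ∀ C : Fm,
  C.size ≤ M → ∀ Γ : Set Fm, (∀ n ∈ C.vars, imp U (sg (v n) (var n)) ∈ Γ) →
    Can F Γ [imp U (sg (ev v C) C)] (c * M * C.size)

end Statements


theorem t_repl (F : List Rule) (hF : IsFrege F) : S_repl F := by
  obtain ⟨c₁, h₁⟩ := schemaL hF [imp (var 0) (iff (var 1) (var 2))]
    (imp (var 0) (iff (neg (var 1)) (neg (var 2)))) (by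
    intro v h; simp [eval, iff] at h ⊢; tauto)
  obtain ⟨c₂, h₂⟩ := schemaL hF [imp (var 0) (iff (var 1) (var 2)), imp (var 0) (iff (var 3) (var 4))]
    (imp (var 0) (iff (and (var 1) (var 3)) (and (var 2) (var 4)))) (by
    intro v h; simp [eval, iff] at h ⊢; tauto)
  obtain ⟨c₃, h₃⟩ := schemaL hF [imp (var 0) (iff (var 1) (var 2)), imp (var 0) (iff (var 3) (var 4))]
    (imp (var 0) (iff (or (var 1) (var 3)) (or (var 2) (var 4)))) (by
    intro v h; simp [eval, iff] at h ⊢; tauto)
  obtain ⟨c₄, h₄⟩ := schemaL hF [imp (var 0) (iff (var 1) (var 2)), imp (var 0) (iff (var 3) (var 4))]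
    (imp (var 0) (iff (imp (var 1) (var 3)) (imp (var 2) (var 4)))) (by
    intro v h; simp [eval, iff] at h ⊢; tauto)
  refine ⟨c₁ + c₂ + c₃ + c₄, fun H B σ τ M hH => ?_⟩
  have hM : 1 ≤ M := (size_pos H).trans hH
  induction B with
  | var n =>
    intro _ _ Γ hΓ
    exact (Can.hyp (hΓ n (by simp [vars]))).mono subset_rfl (Nat.zero_le _)
  | neg A ih =>
    intro hs ht Γ hΓ
    simp only [subst, size] at hs ht
    have r := ih (by omega) (by omega) Γ hΓ
    have s := h₁ [H, A.subst σ, A.subst τ] M hM (by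
      intro X hX; simp at hX; rcases hX with rfl | rfl | rfl
      exacts [hH, by omega, by omega]) (Γ ∪ {Y | Y ∈ [imp H (iff (A.subst σ) (A.subst τ))]}) (by
      intro Y hY; simp only [List.mem_singleton] at hY; subst hY
      right; simp [subst, asg, iff])
    refine ((r.cut s).sub (by
      intro Y hY
      simpa [subst, asg, iff] using hY)).mono subset_rfl ?_
    simp only [size]
    nlinarith [Nat.zero_le (c₂ * M), Nat.zero_le (c₃ * M), Nat.zero_le (c₄ * M)]
  | and A B iA iB =>
    intro hs ht Γ hΓ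
    simp only [subst, size] at hs ht
    have rA := iA (by omega) (by omega) Γ (fun n hn => hΓ n (by simp [vars, hn]))
    have rB := iB (by omega) (by omega) Γ (fun n hn => hΓ n (by simp [vars, hn]))
    have s := h₂ [H, A.subst σ, A.subst τ, B.subst σ, B.subst τ] M hM (by
      intro X hX; simp at hX; rcases hX with rfl | rfl | rfl | rfl | rfl
      exacts [hH, by omega, by omega, by omega, by omega])
      (Γ ∪ {Y | Y ∈ [imp H (iff (A.subst σ) (A.subst τ))] ++
        [imp H (iff (B.subst σ) (B.subst τ))]}) (by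
      intro Y hY; simp only [List.mem_cons, List.not_mem_nil, or_false] at hY
      rcases hY with rfl | rfl <;> right <;> simp [subst, asg, iff])
    refine (((rA.append rB).cut s).sub (by
      intro Y hY
      simpa [subst, asg, iff] using hY)).mono subset_rfl ?_
    simp only [size]
    nlinarith [Nat.zero_le (c₁ * M), Nat.zero_le (c₃ * M), Nat.zero_le (c₄ * M)]
  | or A B iA iB =>
    intro hs ht Γ hΓ
    simp only [subst, size] at hs ht
    have rA := iA (by omega) (by omega) Γ (fun n hn => hΓ n (by simp [vars, hn]))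
    have rB := iB (by omega) (by omega) Γ (fun n hn => hΓ n (by simp [vars, hn]))
    have s := h₃ [H, A.subst σ, A.subst τ, B.subst σ, B.subst τ] M hM (by
      intro X hX; simp at hX; rcases hX with rfl | rfl | rfl | rfl | rfl
      exacts [hH, by omega, by omega, by omega, by omega])
      (Γ ∪ {Y | Y ∈ [imp H (iff (A.subst σ) (A.subst τ))] ++
        [imp H (iff (B.subst σ) (B.subst τ))]}) (by
      intro Y hY; simp only [List.mem_cons, List.not_mem_nil, or_false] at hY
      rcases hY with rfl | rfl <;> right <;> simp [subst, asg, iff])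
    refine (((rA.append rB).cut s).sub (by
      intro Y hY
      simpa [subst, asg, iff] using hY)).mono subset_rfl ?_
    simp only [size]
    nlinarith [Nat.zero_le (c₁ * M), Nat.zero_le (c₂ * M), Nat.zero_le (c₄ * M)]
  | imp A B iA iB =>
    intro hs ht Γ hΓ
    simp only [subst, size] at hs ht
    have rA := iA (by omega) (by omega) Γ (fun n hn => hΓ n (by simp [vars, hn]))
    have rB := iB (by omega) (by omega) Γ (fun n hn => hΓ n (by simp [vars, hn]))
    have s := h₄ [H, A.subst σ, A.subst τ, B.subst σ, B.subst τ] M hM (by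
      intro X hX; simp at hX; rcases hX with rfl | rfl | rfl | rfl | rfl
      exacts [hH, by omega, by omega, by omega, by omega])
      (Γ ∪ {Y | Y ∈ [imp H (iff (A.subst σ) (A.subst τ))] ++
        [imp H (iff (B.subst σ) (B.subst τ))]}) (by
      intro Y hY; simp only [List.mem_cons, List.not_mem_nil, or_false] at hY
      rcases hY with rfl | rfl <;> right <;> simp [subst, asg, iff])
    refine (((rA.append rB).cut s).sub (by
      intro Y hY
      simpa [subst, asg, iff] using hY)).mono subset_rfl ?_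
    simp only [size]
    nlinarith [Nat.zero_le (c₁ * M), Nat.zero_le (c₂ * M), Nat.zero_le (c₃ * M)]


theorem t_cintro (F : List Rule) (hF : IsFrege F) : S_cintro F := by
  obtain ⟨c₁, h₁⟩ := schemaL hF [] (imp (var 0) (imp (var 1) (var 1))) (by
    intro v h; simp [eval])
  obtain ⟨c₂, h₂⟩ := schemaL hF [imp (var 0) (var 1), imp (var 0) (var 2)]
    (imp (var 0) (and (var 1) (var 2))) (by
    intro v h; simp [eval] at h ⊢; tauto)
  refine ⟨c₁ + c₂, fun z U Ds M hU => ?_⟩
  have hM : 1 ≤ M := (size_pos U).trans hU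
  induction Ds with
  | nil =>
    intro hs Γ _
    refine ((h₁ [U, var z] M hM ?_ Γ (by simp)).sub ?_).mono subset_rfl ?_
    · intro Y hY; simp at hY; rcases hY with rfl | rfl
      exacts [hU, hM]
    · intro B hB
      simpa [subst, asg, conjL] using hB
    · simp only [List.length_nil]
      nlinarith [Nat.zero_le (c₂ * M)]
  | cons D Ds ih =>
    intro hs Γ hΓ
    have hs' : D.size ≤ M ∧ (conjL z Ds).size ≤ M := by
      simp only [conjL, size] at hs; omega
    have h4 := ih hs'.2 Γ (fun X hX => hΓ X (by simp [hX]))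
    have h5 := h₂ [U, D, conjL z Ds] M hM (by
      intro Y hY; simp at hY; rcases hY with rfl | rfl | rfl
      exacts [hU, hs'.1, hs'.2]) (Γ ∪ {B | B ∈ [imp U (conjL z Ds)]}) (by
        intro A hA
        simp only [List.mem_cons, List.not_mem_nil, or_false] at hA
        rcases hA with rfl | rfl
        · left
          simpa [subst, asg] using hΓ D (by simp)
        · right; simp [subst, asg])
    refine ((h4.cut h5).sub ?_).mono subset_rfl ?_
    · intro B hB
      simpa [subst, asg, conjL] using hB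
    · simp only [List.length_cons]; nlinarith [Nat.zero_le (c₁ * M)]


theorem t_disjT (F : List Rule) (hF : IsFrege F) : S_disjT F := by
  obtain ⟨c₁, h₁⟩ := schemaL hF [imp (var 0) (var 1)] (imp (var 0) (or (var 1) (var 2))) (by
    intro v h; simp [eval] at h ⊢; tauto)
  obtain ⟨c₂, h₂⟩ := schemaL hF [imp (var 0) (var 2)] (imp (var 0) (or (var 1) (var 2))) (by
    intro v h; simp [eval] at h ⊢; tauto)
  obtain ⟨c₃, h₃⟩ := schemaL hF [imp (var 0) (var 1)]
    (imp (var 0) (iff (var 1) (imp (var 2) (var 2)))) (by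
    intro v h; simp [eval, iff] at h ⊢; tauto)
  have key : ∀ (z : ℕ) (H : Fm) (l : List Fm) (M : ℕ), H.size ≤ M → (disjL z l).size ≤ M →
      ∀ X ∈ l, ∀ Γ : Set Fm, imp H X ∈ Γ → Can F Γ [imp H (disjL z l)] ((c₁ + c₂) * M * l.length) := by
    intro z H l M hH
    have hM : 1 ≤ M := (size_pos H).trans hH
    induction l with
    | nil => intro _ X hX; simp at hX
    | cons D l ih =>
      intro hs X hX Γ hΓ
      have hs' : D.size ≤ M ∧ (disjL z l).size ≤ M := by
        simp only [disjL, size] at hs; omega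
      rcases List.mem_cons.1 hX with rfl | hX
      · refine (h₁ [H, X, disjL z l] M hM ?_ Γ ?_).mono subset_rfl ?_
        · intro Y hY; simp at hY; rcases hY with rfl | rfl | rfl
          exacts [hH, hs'.1, hs'.2]
        · intro A hA
          simp only [List.mem_singleton] at hA
          subst hA
          simpa [subst, asg] using hΓ
        · simp only [List.length_cons]
          calc c₁ * M ≤ (c₁ + c₂) * M := Nat.mul_le_mul_right _ (by omega)
            _ ≤ (c₁ + c₂) * M * (l.length + 1) := Nat.le_mul_of_pos_right _ (Nat.succ_pos _)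
      · have h4 := ih hs'.2 X hX Γ hΓ
        have h5 := h₂ [H, D, disjL z l] M hM (by
          intro Y hY; simp at hY; rcases hY with rfl | rfl | rfl
          exacts [hH, hs'.1, hs'.2]) (Γ ∪ {B | B ∈ [imp H (disjL z l)]}) (by
            intro A hA
            simp only [List.mem_singleton] at hA
            subst hA
            right; simp [subst, asg])
        refine (h4.cut h5).mono subset_rfl ?_
        simp only [List.length_cons]; nlinarith
  refine ⟨c₁ + c₂ + c₃, fun z H l M hH hs X hX Γ hΓ => ?_⟩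
  have hM : 1 ≤ M := (size_pos H).trans hH
  have h4 := key z H l M hH hs X hX Γ hΓ
  have h5 := h₃ [H, disjL z l, var z] M hM (by
    intro Y hY; simp at hY; rcases hY with rfl | rfl | rfl
    exacts [hH, hs, hM]) (Γ ∪ {B | B ∈ [imp H (disjL z l)]}) (by
      intro A hA
      simp only [List.mem_singleton] at hA
      subst hA
      right; simp [subst, asg])
  refine ((h4.cut h5).sub ?_).mono subset_rfl ?_
  · intro B hB
    simpa [subst, asg, iff, top] using hB
  · nlinarith [Nat.zero_le (c₃ * M * l.length), Nat.zero_le (c₁ * M), Nat.zero_le (c₂ * M)]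


theorem t_disjF (F : List Rule) (hF : IsFrege F) : S_disjF F := by
  obtain ⟨c₁, h₁⟩ := schemaL hF [] (imp (var 0) (neg (neg (imp (var 1) (var 1))))) (by
    intro v h; simp [eval])
  obtain ⟨c₂, h₂⟩ := schemaL hF [imp (var 0) (neg (var 1)), imp (var 0) (neg (var 2))]
    (imp (var 0) (neg (or (var 1) (var 2)))) (by
    intro v h; simp [eval] at h ⊢; tauto)
  obtain ⟨c₃, h₃⟩ := schemaL hF [imp (var 0) (neg (var 1))]
    (imp (var 0) (iff (var 1) (neg (imp (var 2) (var 2))))) (by
    intro v h; simp [eval, iff] at h ⊢; tauto)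
  have key : ∀ (z : ℕ) (H : Fm) (l : List Fm) (M : ℕ), H.size ≤ M → (disjL z l).size ≤ M →
      ∀ Γ : Set Fm, (∀ X ∈ l, imp H (neg X) ∈ Γ) →
        Can F Γ [imp H (neg (disjL z l))] ((c₁ + c₂) * M * (l.length + 1)) := by
    intro z H l M hH
    have hM : 1 ≤ M := (size_pos H).trans hH
    induction l with
    | nil =>
      intro hs Γ _
      refine ((h₁ [H, var z] M hM ?_ Γ (by simp)).sub ?_).mono subset_rfl ?_
      · intro Y hY; simp at hY; rcases hY with rfl | rfl
        exacts [hH, hM]
      · intro B hB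
        simpa [subst, asg, disjL] using hB
      · simp only [List.length_nil]
        nlinarith [Nat.zero_le (c₂ * M)]
    | cons D l ih =>
      intro hs Γ hΓ
      have hs' : D.size ≤ M ∧ (disjL z l).size ≤ M := by
        simp only [disjL, size] at hs; omega
      have h4 := ih hs'.2 Γ (fun X hX => hΓ X (by simp [hX]))
      have h5 := h₂ [H, D, disjL z l] M hM (by
        intro Y hY; simp at hY; rcases hY with rfl | rfl | rfl
        exacts [hH, hs'.1, hs'.2]) (Γ ∪ {B | B ∈ [imp H (neg (disjL z l))]}) (by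
          intro A hA
          simp only [List.mem_cons, List.not_mem_nil, or_false] at hA
          rcases hA with rfl | rfl
          · left
            simpa [subst, asg] using hΓ D (by simp)
          · right; simp [subst, asg])
      refine (h4.cut h5).mono subset_rfl ?_
      simp only [List.length_cons]; nlinarith [Nat.zero_le (c₁ * M)]
  refine ⟨c₁ + c₂ + c₃, fun z H l M hH hs Γ hΓ => ?_⟩
  have hM : 1 ≤ M := (size_pos H).trans hH
  have h4 := key z H l M hH hs Γ hΓ
  have h5 := h₃ [H, disjL z l, var z] M hM (by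
    intro Y hY; simp at hY; rcases hY with rfl | rfl | rfl
    exacts [hH, hs, hM]) (Γ ∪ {B | B ∈ [imp H (neg (disjL z l))]}) (by
      intro A hA
      simp only [List.mem_singleton] at hA
      subst hA
      right; simp [subst, asg])
  refine ((h4.cut h5).sub ?_).mono subset_rfl ?_
  · intro B hB
    simpa [subst, asg, iff, top] using hB
  · nlinarith [Nat.zero_le (c₃ * M * l.length), Nat.zero_le (c₁ * M), Nat.zero_le (c₂ * M)]


theorem t_ev (F : List Rule) (hF : IsFrege F) : S_ev F := by
  have h1 : ∀ b : Bool, ∃ c : ℕ, ∀ (l : List Fm) (M : ℕ), 1 ≤ M → (∀ X ∈ l, X.size ≤ M) →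
      ∀ Γ : Set Fm, (∀ A ∈ [imp (var 0) (sg b (var 1))], A.subst (asg l) ∈ Γ) →
        Can F Γ [(imp (var 0) (sg (!b) (neg (var 1)))).subst (asg l)] (c * M) := fun b =>
    schemaL hF _ _ (by intro v h; cases b <;> simp [sg, eval] at h ⊢ <;> tauto)
  have h2 : ∀ b b' : Bool, ∃ c : ℕ, ∀ (l : List Fm) (M : ℕ), 1 ≤ M → (∀ X ∈ l, X.size ≤ M) →
      ∀ Γ : Set Fm, (∀ A ∈ [imp (var 0) (sg b (var 1)), imp (var 0) (sg b' (var 2))],
        A.subst (asg l) ∈ Γ) →
        Can F Γ [(imp (var 0) (sg (b && b') (and (var 1) (var 2)))).subst (asg l)] (c * M) :=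
    fun b b' => schemaL hF _ _ (by
      intro v h; cases b <;> cases b' <;> simp [sg, eval] at h ⊢ <;> tauto)
  have h3 : ∀ b b' : Bool, ∃ c : ℕ, ∀ (l : List Fm) (M : ℕ), 1 ≤ M → (∀ X ∈ l, X.size ≤ M) →
      ∀ Γ : Set Fm, (∀ A ∈ [imp (var 0) (sg b (var 1)), imp (var 0) (sg b' (var 2))],
        A.subst (asg l) ∈ Γ) →
        Can F Γ [(imp (var 0) (sg (b || b') (or (var 1) (var 2)))).subst (asg l)] (c * M) :=
    fun b b' => schemaL hF _ _ (by
      intro v h; cases b <;> cases b' <;> simp [sg, eval] at h ⊢ <;> tauto)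
  have h4 : ∀ b b' : Bool, ∃ c : ℕ, ∀ (l : List Fm) (M : ℕ), 1 ≤ M → (∀ X ∈ l, X.size ≤ M) →
      ∀ Γ : Set Fm, (∀ A ∈ [imp (var 0) (sg b (var 1)), imp (var 0) (sg b' (var 2))],
        A.subst (asg l) ∈ Γ) →
        Can F Γ [(imp (var 0) (sg (!b || b') (imp (var 1) (var 2)))).subst (asg l)] (c * M) :=
    fun b b' => schemaL hF _ _ (by
      intro v h; cases b <;> cases b' <;> simp [sg, eval] at h ⊢ <;> tauto)
  choose c₁ h₁ using h1
  choose c₂ h₂ using h2
  choose c₃ h₃ using h3
  choose c₄ h₄ using h4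
  have hsum : ∃ c : ℕ, (∀ b, c₁ b ≤ c) ∧ (∀ b b', c₂ b b' ≤ c) ∧ (∀ b b', c₃ b b' ≤ c) ∧
      (∀ b b', c₄ b b' ≤ c) := by
    refine ⟨∑ b, c₁ b + ∑ b, ∑ b', c₂ b b' + ∑ b, ∑ b', c₃ b b' + ∑ b, ∑ b', c₄ b b',
      ?_, ?_, ?_, ?_⟩ <;> simp only [Fintype.sum_bool]
    · intro b; cases b <;> omega
    · intro b b'; cases b <;> cases b' <;> omega
    · intro b b'; cases b <;> cases b' <;> omega
    · intro b b'; cases b <;> cases b' <;> omega
  obtain ⟨c, hc1, hc2, hc3, hc4⟩ := hsum
  refine ⟨c, fun v U M hU C => ?_⟩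
  have hM : 1 ≤ M := (size_pos U).trans hU
  induction C with
  | var n =>
    intro _ Γ hΓ
    exact (Can.hyp (hΓ n (by simp [vars]))).mono subset_rfl (Nat.zero_le _)
  | neg C ih =>
    intro hs Γ hΓ
    simp only [size] at hs
    have r := ih (by omega) Γ hΓ
    have s := h₁ (ev v C) [U, C] M hM (by
      intro X hX; simp at hX; rcases hX with rfl | rfl
      exacts [hU, by omega]) (Γ ∪ {Y | Y ∈ [imp U (sg (ev v C) C)]}) (by
      intro Y hY; simp only [List.mem_singleton] at hY; subst hY
      right; simp [subst, asg, sg_subst])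
    refine ((r.cut s).sub (by simp [subst, asg, sg_subst, ev])).mono subset_rfl ?_
    simp only [size]
    have := Nat.mul_le_mul_right M (hc1 (ev v C))
    nlinarith
  | and A B iA iB =>
    intro hs Γ hΓ
    simp only [size] at hs
    have rA := iA (by omega) Γ (fun n hn => hΓ n (by simp [vars, hn]))
    have rB := iB (by omega) Γ (fun n hn => hΓ n (by simp [vars, hn]))
    have s := h₂ (ev v A) (ev v B) [U, A, B] M hM (by
      intro X hX; simp at hX; rcases hX with rfl | rfl | rfl
      exacts [hU, by omega, by omega])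
      (Γ ∪ {Y | Y ∈ [imp U (sg (ev v A) A)] ++ [imp U (sg (ev v B) B)]}) (by
      intro Y hY; simp only [List.mem_cons, List.not_mem_nil, or_false] at hY
      rcases hY with rfl | rfl <;> right <;> simp [subst, asg, sg_subst])
    refine (((rA.append rB).cut s).sub (by simp [subst, asg, sg_subst, ev])).mono subset_rfl ?_
    simp only [size]
    have := Nat.mul_le_mul_right M (hc2 (ev v A) (ev v B))
    nlinarith
  | or A B iA iB =>
    intro hs Γ hΓ
    simp only [size] at hs
    have rA := iA (by omega) Γ (fun n hn => hΓ n (by simp [vars, hn]))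
    have rB := iB (by omega) Γ (fun n hn => hΓ n (by simp [vars, hn]))
    have s := h₃ (ev v A) (ev v B) [U, A, B] M hM (by
      intro X hX; simp at hX; rcases hX with rfl | rfl | rfl
      exacts [hU, by omega, by omega])
      (Γ ∪ {Y | Y ∈ [imp U (sg (ev v A) A)] ++ [imp U (sg (ev v B) B)]}) (by
      intro Y hY; simp only [List.mem_cons, List.not_mem_nil, or_false] at hY
      rcases hY with rfl | rfl <;> right <;> simp [subst, asg, sg_subst])
    refine (((rA.append rB).cut s).sub (by simp [subst, asg, sg_subst, ev])).mono subset_rfl ?_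
    simp only [size]
    have := Nat.mul_le_mul_right M (hc3 (ev v A) (ev v B))
    nlinarith
  | imp A B iA iB =>
    intro hs Γ hΓ
    simp only [size] at hs
    have rA := iA (by omega) Γ (fun n hn => hΓ n (by simp [vars, hn]))
    have rB := iB (by omega) Γ (fun n hn => hΓ n (by simp [vars, hn]))
    have s := h₄ (ev v A) (ev v B) [U, A, B] M hM (by
      intro X hX; simp at hX; rcases hX with rfl | rfl | rfl
      exacts [hU, by omega, by omega])
      (Γ ∪ {Y | Y ∈ [imp U (sg (ev v A) A)] ++ [imp U (sg (ev v B) B)]}) (by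
      intro Y hY; simp only [List.mem_cons, List.not_mem_nil, or_false] at hY
      rcases hY with rfl | rfl <;> right <;> simp [subst, asg, sg_subst])
    refine (((rA.append rB).cut s).sub (by simp [subst, asg, sg_subst, ev])).mono subset_rfl ?_
    simp only [size]
    have := Nat.mul_le_mul_right M (hc4 (ev v A) (ev v B))
    nlinarith



end Pool.Agent.H586P.FO
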