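import Pool.Agent.H586P.Defs2
import Pool.Agent.H586P.FO

/-!
# Frege + permutation versus substitution Frege with linearly many variables:
definitions and statements
-/

set_option autoImplicit false

namespace Pool.Agent.H586P

open Pool.Agent.H555R2.PF Pool.Agent.H555R2.PF.Fm

/-- Substitution Frege proofs all of whose lines have their variables in `W`; the head of the
list is the last line. -/
inductive SubProof (F : List Rule) (W : Finset ℕ) : List Fm → Prop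
  | nil : SubProof F W []
  | rule {L : List Fm} {B : Fm} : SubProof F W L → FregeStep F L B → B.vars ⊆ W →
      SubProof F W (B :: L)
  | sub {L : List Fm} {B : Fm} : SubProof F W L → (∃ A ∈ L, ∃ σ : ℕ → Fm, B = A.subst σ) →
      B.vars ⊆ W → SubProof F W (B :: L)

/-- Frege + permutation polynomially simulates extended Frege. -/
def PSim (F : List Rule) : Prop :=
  ∃ c : ℕ, ∀ (A : Fm) (k : ℕ) (L : List Fm), EFProof F A k (A :: L) →
    ∃ L' : List Fm, PermProof F (A :: L') ∧ psize (A :: L') ≤ c * psize (A :: L) ^ c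

/-- Frege + permutation + the monotone substitutions in `S` polynomially simulates extended
Frege. -/
def MSim (F : List Rule) (S : Set Bool) : Prop :=
  ∃ c : ℕ, ∀ (A : Fm) (k : ℕ) (L : List Fm), EFProof F A k (A :: L) →
    ∃ L' : List Fm, MonoProof F S (A :: L') ∧ psize (A :: L') ≤ c * psize (A :: L) ^ c

/-- Substitution Frege with linearly many variables polynomially simulates extended Frege. -/
def LSim (F : List Rule) : Prop :=
  ∃ c : ℕ, ∀ (A : Fm) (k : ℕ) (L : List Fm), EFProof F A k (A :: L) →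
    ∃ (W : Finset ℕ) (L' : List Fm),
      W.card ≤ c * (A.vars.card + Nat.log 2 (psize (A :: L))) ∧ SubProof F W (A :: L') ∧
      psize (A :: L') ≤ c * psize (A :: L) ^ c

/-- From every substitution Frege proof (variables in `W`) containing `Γ` one can go on to one
containing `G`, adding at most `m` symbols. -/
def CanS (F : List Rule) (W : Finset ℕ) (Γ : Set Fm) (G : List Fm) (m : ℕ) : Prop :=
  ∀ L, SubProof F W L → (∀ A ∈ Γ, A ∈ L) →
    ∃ D, SubProof F W (D ++ L) ∧ (∀ B ∈ G, B ∈ D ++ L) ∧ psize D ≤ m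

/-- closed provability in `F` alone, with at most `m` symbols -/
def FC (F : List Rule) (G : Fm) (m : ℕ) : Prop := FO.Can F ∅ [G] m

/-- the formulas `τ 0, …, τ (β-1)` are the binary digits of `a` -/
def eqc (z β : ℕ) (τ : ℕ → Fm) (a : ℕ) : Fm :=
  conjL z ((List.range β).map fun i => if a.testBit i = true then τ i else neg (τ i))

/-- `a` is one of the `w` numbers coded by `τ 0, …, τ (w-1)` -/
def posF (z w β : ℕ) (τ : ℕ → ℕ → Fm) (a : ℕ) : Fm :=
  disjL z ((List.range w).map fun l => eqc z β (τ l) a)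

/-- digit `i` of `ρ x`, where the digits of `x` are the variables `t 0, …, t (β-1)` -/
def rhoF (z β : ℕ) (ρ : ℕ → ℕ) (t : ℕ → ℕ) (i : ℕ) : Fm :=
  disjL z (((List.range (2 ^ β)).filter (fun x => (ρ x).testBit i)).map
    fun x => eqc z β (fun e => var (t e)) x)

/-- the substitution describing the assignments with at most `w` true variables -/
def del (z w β : ℕ) (t : ℕ → ℕ → ℕ) (code : ℕ → ℕ) (v : ℕ) : Fm :=
  posF z w β (fun l i => var (t l i)) (code v)

/-- an enumeration of the variables of `A` -/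
structure Enum (A : Fm) (n : ℕ) (idx vv : ℕ → ℕ) : Prop where
  h1 : ∀ m ∈ A.vars, idx m < n ∧ vv (idx m) = m
  h2 : ∀ q < n, vv q ∈ A.vars ∧ idx (vv q) = q

/-- data for the sparse assignments -/
structure Spr (z w β : ℕ) (t : ℕ → ℕ → ℕ) (X : Finset ℕ) (code : ℕ → ℕ) (W : Finset ℕ) :
    Prop where
  tz : ∀ l i, t l i ≠ z
  tinj : ∀ l i l' i', t l i = t l' i' → l = l' ∧ i = i'
  cinj : Set.InjOn code (X : Set ℕ)
  clt : ∀ v ∈ X, code v < 2 ^ β
  zW : z ∈ W
  tW : ∀ l < w, ∀ i < β, t l i ∈ W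

/-- Substitution Frege proofs with single substitutions. -/
inductive Sub1Proof (F : List Rule) (W : Finset ℕ) : List Fm → Prop
  | nil : Sub1Proof F W []
  | rule {L : List Fm} {B : Fm} : Sub1Proof F W L → FregeStep F L B → B.vars ⊆ W →
      Sub1Proof F W (B :: L)
  | sub {L : List Fm} {B : Fm} : Sub1Proof F W L →
      (∃ A ∈ L, ∃ (p : ℕ) (ψ : Fm), B = A.subst (Function.update var p ψ)) →
      B.vars ⊆ W → Sub1Proof F W (B :: L)

/-- exactly one of `g 0, …, g (2^b-1)` is true -/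
def OH (z b : ℕ) (g : ℕ → ℕ) : Fm :=
  and (disjL z ((List.range (2 ^ b)).map fun α => var (g α)))
    (conjL z ((List.range (2 ^ b)).flatMap fun α =>
      ((List.range (2 ^ b)).filter fun β => β ≠ α).map
        fun β => neg (and (var (g α)) (var (g β)))))

/-- all `m` blocks are one-hot -/
def Wd (z b : ℕ) (g : ℕ → ℕ → ℕ) (m : ℕ) : Fm :=
  conjL z ((List.range m).map fun j => OH z b (g j))

/-- a layout of the variables in `W` in `m` blocks of `b` bits -/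
structure Lay (z b m : ℕ) (g : ℕ → ℕ → ℕ) (W : Finset ℕ) (blk bit : ℕ → ℕ) : Prop where
  b1 : 1 ≤ b
  blt : ∀ x ∈ W, blk x < m ∧ bit x < b
  inj : ∀ x ∈ W, ∀ x' ∈ W, blk x = blk x' → bit x = bit x' → x = x'
  ginj : ∀ j α j' α', g j α = g j' α' → j = j' ∧ α = α'
  gz : ∀ j α, g j α ≠ z

/-- decoding -/
def dlay (z b : ℕ) (g : ℕ → ℕ → ℕ) (blk bit : ℕ → ℕ) (x : ℕ) : Fm :=
  dec z b (g (blk x)) (bit x)

/-- the variables of the blocks -/
def gv (N j α : ℕ) : ℕ := N + 1 + 3 * Nat.pair j α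

/-- the spare true variables -/
def uv (N j : ℕ) : ℕ := N + 2 + 3 * j

/-- the false variables -/
def yv (N j : ℕ) : ℕ := N + 3 + 3 * j

/-- `q` is one of the `2 i` positions coded by the blocks `0, …, i-1` -/
def DD (N b ℓ i q : ℕ) : Fm :=
  disjL N ((List.range (2 * i)).map fun l =>
    eqc N ℓ (fun e => dec N b (gv N (l / 2)) (l % 2 * ℓ + e)) q)

/-- `A`, with the first `r` variables moved into the blocks -/
def TR (N b ℓ : ℕ) (A : Fm) (idx : ℕ → ℕ) (r i : ℕ) : Fm :=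
  A.subst fun m => if idx m < r then DD N b ℓ i (idx m) else or (var m) (DD N b ℓ i (idx m))

/-- the world: `i` blocks, `i` spare true variables, `Y` false variables -/
def HE (N b i Y : ℕ) : Fm :=
  and (Wd N b (gv N) i) (and (conjL N (oneL (uv N) i)) (conjL N (zeroL (yv N) Y)))

/-- number of false variables -/
def Yr (n b r : ℕ) : ℕ := n * 2 ^ b + (n - r) * 2 ^ b

/-- the statement for `r`, `i` -/
def EE (N b ℓ : ℕ) (A : Fm) (idx : ℕ → ℕ) (n r i : ℕ) : Fm :=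
  imp (HE N b i (Yr n b r)) (TR N b ℓ A idx r i)

/-- `A` with the variables in `S` true and the others given by `2 i` positions, which are coded
by the variables `0, …, 2 i ℓ - 1` -/
def AiS (ℓ : ℕ) (A : Fm) (idx : ℕ → ℕ) (i : ℕ) (S : Finset ℕ) : Fm :=
  A.subst fun m => if m ∈ S then top 0 else
    disjL 0 ((List.range (2 * i)).map fun l => eqc 0 ℓ (fun e => var (l * ℓ + e)) (idx m))

section Statements

variable (F : List Rule)

/-- truth tables (in `F` alone) -/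
def S_tt : Prop := ∃ c : ℕ, ∀ C : Fm, (∀ v, C.eval v) → FC F C (c * C.size ^ 4 * 2 ^ C.vars.card)

/-- replacement (in `F` alone) -/
def S_frepl : Prop := ∃ c : ℕ, ∀ (B : Fm) (σ τ : ℕ → Fm) (K M : ℕ), (B.subst σ).size ≤ M →
  (B.subst τ).size ≤ M → (∀ n ∈ B.vars, FC F (iff (σ n) (τ n)) K) →
  FC F (iff (B.subst σ) (B.subst τ)) (B.size * K + c * M * (B.size + 1))

/-- transfer of Frege proofs to substitution Frege with few variables -/
def S_fsub : Prop := ∃ c : ℕ, ∀ (W : Finset ℕ) (X Y : Fm) (K : ℕ), X.vars ⊆ W → Y.vars ⊆ W →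
  FC F (imp X Y) K → ∀ Γ : Set Fm, X ∈ Γ → CanS F W Γ [Y] (K + c * (X.size + Y.size))

/-- moving the positions by `ρ` -/
def S_dperm : Prop := ∃ c : ℕ, ∀ (z w β a b' : ℕ) (t : ℕ → ℕ → ℕ) (ρ : ℕ → ℕ),
  (∀ l i, t l i ≠ z) → (∀ l i i', t l i = t l i' → i = i') → a < 2 ^ β → b' < 2 ^ β →
  (∀ x < 2 ^ β, ρ x < 2 ^ β) → (∀ x < 2 ^ β, (ρ x = a ↔ x = b')) →
  FC F (iff (posF z w β (fun l i => rhoF z β ρ (t l) i) a)
    (posF z w β (fun l i => var (t l i)) b')) (c * (w + 2 ^ β) ^ 20)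

/-- a permutation step in the sparse world -/
def S_dstep : Prop := ∃ c : ℕ, ∀ (z w β : ℕ) (t : ℕ → ℕ → ℕ) (X : Finset ℕ) (code : ℕ → ℕ)
  (W : Finset ℕ), Spr z w β t X code W → ∀ (A : Fm) (π : Equiv.Perm ℕ), A.vars ⊆ X →
  (∀ n, n ∉ A.vars → π n = n) → ∀ Γ : Set Fm, A.subst (del z w β t code) ∈ Γ →
  CanS F W Γ [(A.rename π).subst (del z w β t code)] (c * (A.size + w + 2 ^ β) ^ 30)

/-- a Frege + permutation proof in the sparse world -/
def S_dloop : Prop := ∃ c : ℕ, ∀ (z w β : ℕ) (t : ℕ → ℕ → ℕ) (X : Finset ℕ) (code : ℕ → ℕ)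
  (W : Finset ℕ), Spr z w β t X code W → ∀ L : List Fm, PermProof F L → (∀ B ∈ L, B.vars ⊆ X) →
  ∀ Γ : Set Fm, CanS F W Γ (L.map fun B => B.subst (del z w β t code))
    (c * (psize L + w + 2 ^ β) ^ 32)

/-- the last step -/
def S_dfin : Prop := ∃ c : ℕ, ∀ (z w β b n N₀ : ℕ) (t : ℕ → ℕ → ℕ) (X : Finset ℕ)
  (code : ℕ → ℕ) (W : Finset ℕ), Spr z w β t X code W → ∀ (A : Fm) (idx vv : ℕ → ℕ),
  Enum A n idx vv → 1 ≤ b → b ≤ β → n ≤ w * b → w * 2 ^ b ≤ 2 ^ β → z ∉ A.vars →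
  (∀ l i, t l i ∉ A.vars) → A.vars ⊆ W → (∀ j < w * 2 ^ b, code (N₀ + j) = j) →
  ∀ Γ : Set Fm,
    (A.subst (fun m => dec z b (fun α => N₀ + (idx m / b * 2 ^ b + α)) (idx m % b))).subst
      (del z w β t code) ∈ Γ →
    CanS F W Γ [A] (c * (A.size + w + 2 ^ β) ^ 30)

/-- extended Frege proofs are closed under substitution -/
def S_efsub : Prop := ∀ (A : Fm) (k : ℕ) (L : List Fm), EFProof F A k (A :: L) →
  ∀ (σ : ℕ → Fm) (m : ℕ), 1 ≤ m → (∀ n ∈ A.vars, (σ n).size ≤ m) →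
  ∃ L' : List Fm, EFProof F (A.subst σ) k (A.subst σ :: L') ∧
    psize (A.subst σ :: L') ≤ m * psize (A :: L)

/-- **first direction** -/
def S_lin : Prop := PSim F → LSim F

/-- simultaneous substitutions by single ones -/
def S_ss : Prop := ∀ (W : Finset ℕ) (f : ℕ → ℕ) (L : List Fm), Set.InjOn f (W : Set ℕ) →
  Disjoint (W.image f) W → SubProof F W L →
  ∃ L' : List Fm, Sub1Proof F (W ∪ W.image f) L' ∧ (∀ B ∈ L, B ∈ L') ∧
    psize L' ≤ 4 * psize L ^ 3

/-- one-hot: the other variables are false -/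
def S_ohuse : Prop := ∃ c : ℕ, ∀ (z b : ℕ) (g : ℕ → ℕ) (H : Fm) (M α β : ℕ), H.size ≤ M →
  (OH z b g).size ≤ M → α < 2 ^ b → β < 2 ^ b → β ≠ α → ∀ Γ : Set Fm,
  imp H (OH z b g) ∈ Γ → imp H (var (g α)) ∈ Γ →
  Can F Γ [imp H (neg (var (g β)))] (c * M * M)

/-- one-hot: case distinction -/
def S_ohcase : Prop := ∃ c : ℕ, ∀ (z b : ℕ) (g : ℕ → ℕ) (H G : Fm) (M : ℕ), H.size ≤ M →
  G.size ≤ M → (OH z b g).size ≤ M → ∀ Γ : Set Fm, imp H (OH z b g) ∈ Γ →
  (∀ α < 2 ^ b, imp (and H (var (g α))) G ∈ Γ) → Can F Γ [imp H G] (c * M * (2 ^ b + 1))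

/-- one-hot: introduction -/
def S_ohintro : Prop := ∃ c : ℕ, ∀ (z b : ℕ) (g : ℕ → ℕ) (H : Fm) (M α : ℕ), H.size ≤ M →
  (OH z b g).size ≤ M → α < 2 ^ b → ∀ Γ : Set Fm, imp H (var (g α)) ∈ Γ →
  (∀ β < 2 ^ b, β ≠ α → imp H (neg (var (g β))) ∈ Γ) →
  Can F Γ [imp H (OH z b g)] (c * M * M)

/-- value of a decoded bit -/
def S_deval : Prop := ∃ c : ℕ, ∀ (z b r α : ℕ) (g : ℕ → ℕ) (H : Fm) (M : ℕ), α < 2 ^ b →
  H.size ≤ M → 2 * 2 ^ b + 10 ≤ M → ∀ Γ : Set Fm, imp H (var (g α)) ∈ Γ →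
  (∀ β < 2 ^ b, β ≠ α → imp H (neg (var (g β))) ∈ Γ) →
  Can F Γ [imp H (iff (dec z b g r) (cst z (α.testBit r)))] (c * M * 2 ^ b)

/-- value of a comparison -/
def S_eqeval : Prop := ∃ c : ℕ, ∀ (z ℓ a q : ℕ) (τ : ℕ → Fm) (H : Fm) (M : ℕ), a < 2 ^ ℓ →
  q < 2 ^ ℓ → H.size ≤ M → (eqc z ℓ τ q).size + 10 ≤ M → ∀ Γ : Set Fm,
  (∀ e < ℓ, imp H (iff (τ e) (cst z (a.testBit e))) ∈ Γ) →
  Can F Γ [imp H (iff (eqc z ℓ τ q) (cst z (decide (a = q))))] (c * M * (ℓ + 1))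

/-- a substituted conjunction / disjunction -/
def S_cdsub : Prop := ∃ c : ℕ, ∀ (z z' : ℕ) (δ : ℕ → Fm) (l : List Fm) (H : Fm) (M : ℕ),
  H.size ≤ M → ((conjL z' l).subst δ).size + (disjL z (l.map fun X => X.subst δ)).size +
    (δ z').size ≤ M → ∀ Γ : Set Fm,
  Can F Γ [imp H (iff ((conjL z' l).subst δ) (conjL z (l.map fun X => X.subst δ))),
    imp H (iff ((disjL z' l).subst δ) (disjL z (l.map fun X => X.subst δ)))]
    (c * M * (l.length + 1))

/-- a single substitution in the one-hot world -/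
def S_wstep : Prop := ∃ c : ℕ, ∀ (z b m : ℕ) (g : ℕ → ℕ → ℕ) (W : Finset ℕ)
  (blk bit : ℕ → ℕ), Lay z b m g W blk bit → ∀ (A : Fm) (p : ℕ) (ψ : Fm), A.vars ⊆ W →
  (A.subst (Function.update var p ψ)).vars ⊆ W → ∀ Γ : Set Fm,
  imp (Wd z b g m) (A.subst (dlay z b g blk bit)) ∈ Γ →
  Can F Γ [imp (Wd z b g m)
    ((A.subst (Function.update var p ψ)).subst (dlay z b g blk bit))]
    (c * (A.size + (A.subst (Function.update var p ψ)).size + m + 2 ^ b) ^ 20)

/-- substitution Frege in the one-hot world -/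
def S_wsim : Prop := ∃ c : ℕ, ∀ (z b m : ℕ) (g : ℕ → ℕ → ℕ) (W : Finset ℕ)
  (blk bit : ℕ → ℕ), Lay z b m g W blk bit → ∀ L : List Fm, Sub1Proof F W L → ∀ Γ : Set Fm,
  Can F Γ (L.map fun B => imp (Wd z b g m) (B.subst (dlay z b g blk bit)))
    (c * (psize L + m + 2 ^ b) ^ 22)

/-- all variables from `r` on are decided, `i ≥ 1` -/
def S_basel : Prop := ∃ c : ℕ, ∀ (N b ℓ n r i : ℕ) (A : Fm) (idx vv : ℕ → ℕ)
  (W₀ : Finset ℕ) (L : List Fm) (P : List (ℕ × Bool)), Enum A n idx vv →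
  (∀ m ∈ A.vars, m < N) → n ≤ 2 ^ ℓ → 1 ≤ ℓ → 2 * ℓ ≤ b → 1 ≤ i → i ≤ n → r ≤ n →
  SubProof F W₀ L → AiS ℓ A idx i (A.vars.filter fun m => (m, true) ∈ P) ∈ L →
  2 * W₀.card ≤ i * b → (P.map Prod.fst).reverse = (List.range' r (n - r)).map vv →
  ∀ Γ : Set Fm, Can F Γ [imp (conjL N (P.map lit ++ [HE N b i (Yr n b r)]))
    (TR N b ℓ A idx r i)] (c * (psize L + A.size + n + 2 ^ b) ^ c)

/-- all variables from `r` on are decided, `i = 0` -/
def S_base0 : Prop := ∃ c : ℕ, ∀ (N b ℓ n r : ℕ) (A : Fm) (idx vv : ℕ → ℕ)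
  (P : List (ℕ × Bool)), Enum A n idx vv → (∀ m ∈ A.vars, m < N) → (∀ v, A.eval v) →
  r ≤ n → (P.map Prod.fst).reverse = (List.range' r (n - r)).map vv →
  ∀ Γ : Set Fm, Can F Γ [imp (conjL N (P.map lit ++ [HE N b 0 (Yr n b r)]))
    (TR N b ℓ A idx r 0)] (c * (A.size + n + 2 ^ b) ^ c)

/-- two true variables are moved into a new block -/
def S_move : Prop := ∃ c : ℕ, ∀ (N b ℓ n r r' i : ℕ) (A : Fm) (idx vv : ℕ → ℕ)
  (P : List (ℕ × Bool)), Enum A n idx vv → (∀ m ∈ A.vars, m < N) → n ≤ 2 ^ ℓ →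
  2 * ℓ ≤ b → r < r' → r' ≤ n →
  (P.map Prod.fst).reverse = (List.range' r (r' - r)).map vv →
  P.countP (fun x => x.2) = 2 → ∀ Γ : Set Fm, EE N b ℓ A idx n r' (i + 1) ∈ Γ →
  Can F Γ [imp (conjL N (P.map lit ++ [HE N b i (Yr n b r)])) (TR N b ℓ A idx r i)]
    (c * (A.size + n + i + 2 ^ b) ^ c)

/-- the recursion -/
def S_erec : Prop := ∃ c : ℕ, ∀ (N b ℓ n K : ℕ) (A : Fm) (idx vv : ℕ → ℕ),
  Enum A n idx vv → (∀ m ∈ A.vars, m < N) → (∀ v, A.eval v) → n ≤ 2 ^ ℓ → 1 ≤ ℓ →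
  2 * ℓ ≤ b →
  (∀ i, 1 ≤ i → i ≤ n → ∀ S : Finset ℕ, ∃ (W₀ : Finset ℕ) (L : List Fm), SubProof F W₀ L ∧
    AiS ℓ A idx i S ∈ L ∧ 2 * W₀.card ≤ i * b ∧ psize L ≤ K) →
  ∀ Γ : Set Fm, Can F Γ [EE N b ℓ A idx n 0 0] (c * (K + A.size + n + 2 ^ b) ^ c)

/-- the world with zeros -/
def S_efin : Prop := ∃ c : ℕ, ∀ (N b ℓ n : ℕ) (A : Fm) (idx vv y : ℕ → ℕ),
  Enum A n idx vv → (∀ m ∈ A.vars, m < N) →
  (∀ i < Yr n b 0, N + 1 ≤ y i) → InjB y (Yr n b 0) → ∀ Γ : Set Fm,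
  EE N b ℓ A idx n 0 0 ∈ Γ →
  Can F Γ [imp (conjL N (zeroL y (Yr n b 0))) A] (c * (A.size + Yr n b 0 + 1) ^ c)

/-- **second direction** -/
def S_back : Prop := LSim F → PSim F

end Statements

/-- extension of a partial coding -/
def S_code : Prop := ∀ (X : Finset ℕ) (N₀ m M : ℕ), (∀ j < m, N₀ + j ∈ X) → X.card ≤ M →
  ∃ code : ℕ → ℕ, Set.InjOn code (X : Set ℕ) ∧ (∀ v ∈ X, code v < M) ∧
    ∀ j < m, code (N₀ + j) = j

/-- an enumeration of the variables exists -/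
def S_enum : Prop := ∀ A : Fm, ∃ idx vv : ℕ → ℕ, Enum A A.vars.card idx vv

/-- assembly -/
theorem assemble3 (F : List Rule) (hF : IsFrege F)
    (ren : S_ren F) (repl : S_repl F) (cintro : S_cintro F) (disjT : S_disjT F)
    (disjF : S_disjF F) (dt : S_dt F) (evv : S_ev F) (val : S_val F)
    (fworld : S_fworld F) (efflip : S_efflip F) (comb : S_comb F)
    (tt : IsFrege F → S_tt F)
    (frepl : IsFrege F → S_frepl F)
    (fsub : IsFrege F → S_fsub F)
    (dperm : IsFrege F → S_tt F → S_frepl F → S_dperm F)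
    (dstep : IsFrege F → S_frepl F → S_fsub F → S_dperm F → S_dstep F)
    (dloop : IsFrege F → S_dstep F → S_dloop F)
    (dfin : IsFrege F → S_tt F → S_frepl F → S_fsub F → S_dfin F)
    (efsub : S_efsub F)
    (code : S_code) (enum : S_enum)
    (lin : IsFrege F → S_efsub F → S_dloop F → S_dfin F → S_code → S_enum → S_val F → S_lin F)
    (ss : S_ss F)
    (ohuse : IsFrege F → S_ohuse F)
    (ohcase : IsFrege F → S_ohcase F)
    (ohintro : IsFrege F → S_ohintro F)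
    (deval : IsFrege F → S_disjT F → S_disjF F → S_deval F)
    (eqeval : IsFrege F → S_eqeval F)
    (cdsub : IsFrege F → S_cdsub F)
    (wstep : IsFrege F → S_ren F → S_repl F → S_cintro F → S_ohuse F → S_ohcase F →
      S_ohintro F → S_deval F → S_wstep F)
    (wsim : IsFrege F → S_wstep F → S_wsim F)
    (basel : IsFrege F → S_ren F → S_repl F → S_cintro F → S_cdsub F → S_ohintro F →
      S_ss F → S_wsim F → S_basel F)
    (base0 : IsFrege F → S_ev F → S_base0 F)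
    (move : IsFrege F → S_ren F → S_repl F → S_cintro F → S_ohintro F → S_deval F →
      S_eqeval F → S_move F)
    (erec : IsFrege F → S_dt F → S_basel F → S_base0 F → S_move F → S_erec F)
    (efin : IsFrege F → S_ren F → S_repl F → S_cintro F → S_efin F)
    (back : IsFrege F → S_efsub F → S_enum → S_val F → S_erec F → S_efin F → S_fworld F →
      S_efflip F → S_comb F → S_back F) : PSim F ↔ LSim F := by
  have h1 := tt hF
  have h2 := frepl hF
  have h3 := fsub hF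
  have h4 := dstep hF h2 h3 (dperm hF h1 h2)
  have h5 := lin hF efsub (dloop hF h4) (dfin hF h1 h2 h3) code enum val
  have h6 := ohuse hF
  have h7 := ohcase hF
  have h8 := ohintro hF
  have h9 := deval hF disjT disjF
  have h10 := wsim hF (wstep hF ren repl cintro h6 h7 h8 h9)
  have h11 := basel hF ren repl cintro (cdsub hF) h8 ss h10
  have h12 := base0 hF evv
  have h13 := move hF ren repl cintro h8 h9 (eqeval hF)
  have h14 := erec hF dt h11 h12 h13
  have h15 := efin hF ren repl cintro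
  exact ⟨h5, back hF efsub enum val h14 h15 fworld efflip comb⟩

end Pool.Agent.H586P
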