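import Pool.Agent.H586P.Defs

set_option autoImplicit false

namespace Pool.Agent.H586P.T_dline

open Pool.Agent.H586P Pool.Agent.H555R2.PF Pool.Agent.H555R2.PF.Fm

theorem extL_congr {q q' : ℕ → ℕ} {φ φ' : ℕ → Fm} : ∀ {m : ℕ},
    (∀ i < m, q i = q' i ∧ φ i = φ' i) → extL q φ m = extL q' φ' m := by
  intro m
  induction m with
  | zero => intro _; rfl
  | succ m ih =>
    intro h
    simp only [extL]
    rw [ih fun i hi => h i (by omega), (h m (by omega)).1, (h m (by omega)).2]

theorem mem_extL (q : ℕ → ℕ) (φ : ℕ → Fm) : ∀ {m i : ℕ}, i < m →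
    iff (var (q i)) (φ i) ∈ extL q φ m := by
  intro m
  induction m with
  | zero => intro i hi; omega
  | succ m ih =>
    intro i hi
    simp only [extL]
    rcases Nat.lt_succ_iff_lt_or_eq.1 hi with h | h
    · exact List.mem_cons_of_mem _ (ih h)
    · subst h; simp

theorem length_extL (q : ℕ → ℕ) (φ : ℕ → Fm) (m : ℕ) : (extL q φ m).length = m := by
  induction m with
  | zero => rfl
  | succ m ih => simp [extL, ih]

theorem of_wf {A : Fm} : ∀ {Ds : List Fm}, WFExt A Ds → ∃ (q : ℕ → ℕ) (φ : ℕ → Fm),
    extL q φ Ds.length = Ds ∧ Good A Ds.length q φ := by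
  intro Ds
  induction Ds with
  | nil =>
    intro _
    exact ⟨fun _ => 0, fun _ => var 0, rfl, fun i hi => absurd hi (by simp),
      fun i hi => absurd hi (by simp), fun i hi => absurd hi (by simp)⟩
  | cons D Ds ih =>
    rintro ⟨⟨q', φ', hD, g1, g2, g3⟩, hw⟩
    obtain ⟨q, φ, e, a1, a2, a3⟩ := ih hw
    set m := Ds.length with hm
    have hmem : ∀ i < m, iff (var (q i)) (φ i) ∈ Ds := by
      intro i hi
      have := mem_extL q φ hi
      rwa [e] at this
    have hq : ∀ i, i < m → Function.update q m q' i = q i := fun i hi =>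
      Function.update_of_ne (by omega) _ _
    have hφ : ∀ i, i < m → Function.update φ m φ' i = φ i := fun i hi =>
      Function.update_of_ne (by omega) _ _
    have hlen : (D :: Ds).length = m + 1 := by simp [hm]
    refine ⟨Function.update q m q', Function.update φ m φ', ?_, ?_⟩
    · rw [hlen]
      simp only [extL, Function.update_self]
      rw [extL_congr (q' := q) (φ' := φ) (fun i hi => ⟨hq i hi, hφ i hi⟩), e, hD]
    · rw [hlen]
      refine ⟨?_, ?_, ?_⟩
      · intro i hi
        rcases Nat.lt_succ_iff_lt_or_eq.1 hi with h | h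
        · rw [hq i h]; exact a1 i h
        · subst h; rw [Function.update_self]; exact g2
      · intro i hi j hj
        rcases Nat.lt_succ_iff_lt_or_eq.1 hi with h | h
        · rw [hq i h, hφ j (by omega)]; exact a2 i h j hj
        · rw [h, Function.update_self]
          rcases Nat.lt_or_ge j m with h' | h'
          · rw [hφ j h']
            have := g3 _ (hmem j h')
            intro hc
            apply this
            simp [iff, vars, hc]
          · have : j = m := by omega
            rw [this, Function.update_self]; exact g1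
      · intro i hi j hj
        rcases Nat.lt_succ_iff_lt_or_eq.1 hi with h | h
        · rw [hq i h, hq j (by omega)]; exact a3 i h j hj
        · rw [h, Function.update_self, hq j (by omega)]
          have := g3 _ (hmem j (by omega))
          intro hc
          apply this
          simp [iff, vars, hc]

theorem conjL_subst {z : ℕ} {σ : ℕ → Fm} (hz : σ z = var z) (Ds : List Fm) :
    (conjL z Ds).subst σ = conjL z (Ds.map (fun D => D.subst σ)) := by
  induction Ds with
  | nil => simp [conjL, subst, hz]
  | cons D Ds ih => simp only [conjL, subst, List.map_cons, ih]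

theorem t_dline (F : List Rule) (hF : IsFrege F) (h1 : S_ded F) : S_dline F := by
  obtain ⟨c₁, hc₁⟩ := conj_mem hF
  obtain ⟨c₂, hc₂⟩ := h1
  refine ⟨5 * (c₁ + c₂), ?_⟩
  intro A k L hL
  obtain ⟨Ds, hk, hw, hmemL, hps, hded⟩ := hc₂ A k (A :: L) hL
  obtain ⟨q, φ, he, hG⟩ := of_wf hw
  rw [hk] at he hG
  refine ⟨q, φ, hG, ?_, by rw [he]; exact hps, ?_⟩
  · intro i hi
    apply hmemL
    rw [← he]
    exact mem_extL q φ hi
  intro z σ M hM hz hσ Γ
  rw [he]
  set s := psize (A :: L) with hs
  have hs1 : 1 ≤ s := by rw [hs, psize_cons]; have := Fm.size_pos A; omega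
  have hks : k ≤ s := by rw [← hk]; exact (length_le_psize Ds).trans hps
  have hLs : (A :: L).length ≤ s := length_le_psize _
  have hcs : (conjL z Ds).size ≤ 5 * s := by rw [conjL_size, hk]; omega
  set E := (conjL z Ds).subst σ with hE
  have hE' : E = conjL z (Ds.map (fun D => D.subst σ)) := conjL_subst hz Ds
  have hEs : E.size ≤ 5 * s * M := by
    refine (size_subst_le hM (fun n _ => hσ n)).trans ?_
    exact Nat.mul_le_mul_right _ hcs
  have hM' : 1 ≤ 5 * s * M := Nat.mul_pos (by omega) hM
  have hBs : ∀ B ∈ A :: L, (B.subst σ).size ≤ 5 * s * M := by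
    intro B hB
    refine (size_subst_le hM (fun n _ => hσ n)).trans ?_
    refine Nat.mul_le_mul_right _ ?_
    have := size_le_psize hB
    omega
  have p1 : Can F Γ (Ds.map (fun D => imp E (D.subst σ))) (k * (c₁ * (5 * s * M) * k)) := by
    have := Can.many (F := F) (Γ := Γ) (fun D : Fm => imp E (D.subst σ))
      (c₁ * (5 * s * M) * k) Ds (by
        intro D hD
        have h2 := hc₁ z (Ds.map (fun D => D.subst σ)) (5 * s * M) hM' (by rw [← hE']; exact hEs)
          (D.subst σ) (List.mem_map.2 ⟨D, hD, rfl⟩) Γ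
        rw [← hE', List.length_map, hk] at h2
        exact h2)
    rwa [hk] at this
  have p2 := hded σ E (5 * s * M) hEs hBs
    (Γ ∪ {B | B ∈ Ds.map (fun D => imp E (D.subst σ))}) (by
      intro D hD
      exact Or.inr (List.mem_map.2 ⟨D, hD, rfl⟩))
  refine ((p1.cut p2).sub ?_).mono subset_rfl ?_
  · intro B hB
    simp only [List.mem_singleton] at hB
    subst hB
    simp only [List.map_cons, List.mem_cons]
    left
    rfl
  · have e1 : k * (c₁ * (5 * s * M) * k) ≤ 5 * c₁ * s ^ 3 * M := by
      calc k * (c₁ * (5 * s * M) * k) = 5 * c₁ * (k * k * s) * M := by ring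
        _ ≤ 5 * c₁ * (s * s * s) * M := by gcongr
        _ = 5 * c₁ * s ^ 3 * M := by ring
    have e2 : c₂ * (5 * s * M) * (A :: L).length ≤ 5 * c₂ * s ^ 3 * M := by
      calc c₂ * (5 * s * M) * (A :: L).length ≤ c₂ * (5 * s * M) * s := by gcongr
        _ = 5 * c₂ * (1 * s * s) * M := by ring
        _ ≤ 5 * c₂ * (s * s * s) * M := by gcongr
        _ = 5 * c₂ * s ^ 3 * M := by ring
    calc _ ≤ 5 * c₁ * s ^ 3 * M + 5 * c₂ * s ^ 3 * M := Nat.add_le_add e1 e2
      _ = 5 * (c₁ + c₂) * s ^ 3 * M := by ring

end Pool.Agent.H586P.T_dline
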