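import Pool.Agent.H586P.FO
import Pool.Agent.H586P.T_dline

/-!
# Frege-only version of the library, continued: the deduction theorem

Copy (by a script) of `rule_ded`, `T_ded.t_ded`, `T_dline.t_dline` for proofs in `F` alone.
-/

set_option autoImplicit false

namespace Pool.Agent.H586P.FO

open Pool.Agent.H555R2.PF Pool.Agent.H555R2.PF.Fm Pool.Agent.H586P.T_dline

variable {F : List Rule}

theorem rule_ded (hF : IsFrege F) (r : Rule) (hr : r ∈ F) : ∃ c : ℕ, ∀ (E : Fm) (σ : ℕ → Fm)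
    (M : ℕ), 1 ≤ M → E.size ≤ M → (∀ n ∈ r.rv, (σ n).size ≤ M) → ∀ Γ : Set Fm,
      (∀ p ∈ r.prem, imp E (p.subst σ) ∈ Γ) → Can F Γ [imp E (r.concl.subst σ)] (c * M) := by
  obtain ⟨R, hR⟩ := Infinite.exists_notMem_finset r.rv
  obtain ⟨c, hc⟩ := schema hF (r.prem.map (imp (var R))) (imp (var R) r.concl) (by
    intro v h
    simp only [eval]
    intro hv
    apply hF.1 r hr v
    intro p hp
    have := h (imp (var R) p) (List.mem_map.2 ⟨p, hp, rfl⟩)
    exact this hv)
  refine ⟨c, fun E σ M hM hE hσ Γ hΓ => ?_⟩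
  let σ' : ℕ → Fm := fun n => if n = R then E else if n ∈ r.rv then σ n else var 0
  have hσ' : ∀ n, (σ' n).size ≤ M := by
    intro n
    simp only [σ']
    split_ifs with h1 h2
    · exact hE
    · exact hσ n h2
    · simpa [size] using hM
  have hsub : ∀ A : Fm, A.vars ⊆ r.rv → A.subst σ' = A.subst σ := by
    intro A hA
    apply subst_congr
    intro n hn
    have h1 : n ∈ r.rv := hA hn
    have h2 : n ≠ R := fun h => hR (h ▸ h1)
    simp [σ', h1, h2]
  have hRR : (var R).subst σ' = E := by simp [subst, σ']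
  have h1 := hc σ' M hM hσ' Γ (by
    intro A hA
    obtain ⟨p, hp, rfl⟩ := List.mem_map.1 hA
    simp only [subst]
    rw [show σ' R = E from hRR, hsub p (by
      intro n hn
      simp only [Rule.rv, Finset.mem_union, Finset.mem_biUnion, List.mem_toFinset]
      exact Or.inr ⟨p, hp, hn⟩)]
    exact hΓ p hp)
  simp only [subst] at h1
  rw [show σ' R = E from hRR, hsub r.concl (by
    intro n hn; simp only [Rule.rv, Finset.mem_union]; exact Or.inl hn)] at h1
  exact h1

section Statements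

variable (F : List Rule)

/-- deduction theorem for a substituted extended Frege proof -/
def S_ded : Prop := ∃ c : ℕ, ∀ (A : Fm) (k : ℕ) (L : List Fm), EFProof F A k L →
  ∃ Ds : List Fm, Ds.length = k ∧ WFExt A Ds ∧ (∀ D ∈ Ds, D ∈ L) ∧ psize Ds ≤ psize L ∧
    ∀ (σ : ℕ → Fm) (E : Fm) (M : ℕ), E.size ≤ M → (∀ B ∈ L, (B.subst σ).size ≤ M) →
      ∀ Γ : Set Fm, (∀ D ∈ Ds, imp E (D.subst σ) ∈ Γ) →
        Can F Γ (L.map fun B => imp E (B.subst σ)) (c * M * L.length)

/-- the line `extension axioms → A`, under a substitution -/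
def S_dline : Prop := ∃ c : ℕ, ∀ (A : Fm) (k : ℕ) (L : List Fm), EFProof F A k (A :: L) →
  ∃ (q : ℕ → ℕ) (φ : ℕ → Fm), Good A k q φ ∧ (∀ i < k, iff (var (q i)) (φ i) ∈ A :: L) ∧
    psize (extL q φ k) ≤ psize (A :: L) ∧
    ∀ (z : ℕ) (σ : ℕ → Fm) (M : ℕ), 1 ≤ M → σ z = var z → (∀ n, (σ n).size ≤ M) →
      ∀ Γ : Set Fm,
        Can F Γ [(imp (conjL z (extL q φ k)) A).subst σ] (c * psize (A :: L) ^ 3 * M)

end Statements

theorem t_ded (F : List Rule) (hF : IsFrege F) : S_ded F := by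
  obtain ⟨c, hc⟩ := uniform (fun (r : Rule) c => r ∈ F → ∀ (E : Fm) (σ : ℕ → Fm)
    (M : ℕ), 1 ≤ M → E.size ≤ M → (∀ n ∈ r.rv, (σ n).size ≤ M) → ∀ Γ : Set Fm,
      (∀ p ∈ r.prem, imp E (p.subst σ) ∈ Γ) → Can F Γ [imp E (r.concl.subst σ)] (c * M))
    (by
      intro r c c' hcc h hr E σ M h1 h2 h3 Γ h4
      exact (h hr E σ M h1 h2 h3 Γ h4).mono subset_rfl (Nat.mul_le_mul_right _ hcc)) F (by
      intro r hr
      obtain ⟨c, hc⟩ := rule_ded hF r hr
      exact ⟨c, fun _ => hc⟩)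
  refine ⟨c, fun A k L hL => ?_⟩
  induction hL with
  | nil =>
    refine ⟨[], rfl, trivial, by simp, by simp, ?_⟩
    intro ρ E M _ _ Γ _
    simpa using (Can.nil : Can F Γ [] 0)
  | @rule k L B hL hB ih =>
    obtain ⟨Ds, h1, h2, h3, h3', h4⟩ := ih
    refine ⟨Ds, h1, h2, fun D hD => List.mem_cons_of_mem _ (h3 D hD), by
      rw [psize_cons]; omega, ?_⟩
    intro ρ E M hE hsz Γ hΓ
    have hM : 1 ≤ M := (size_pos E).trans hE
    have h5 := h4 ρ E M hE (fun B hB => hsz B (List.mem_cons_of_mem _ hB)) Γ hΓ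
    obtain ⟨r, hr, σ₀, hB1, hB2⟩ := hB
    set σ : ℕ → Fm := fun n => (σ₀ n).subst ρ with hσ
    have hB1' : B.subst ρ = r.concl.subst σ := by rw [hB1, subst_subst]
    have hp' : ∀ p : Fm, (p.subst σ₀).subst ρ = p.subst σ := fun p => by rw [subst_subst]
    have h6 := hc r hr hr E σ M hM hE (by
      intro n hn
      simp only [Rule.rv, Finset.mem_union, Finset.mem_biUnion, List.mem_toFinset] at hn
      rcases hn with hn | ⟨p, hp, hn⟩
      · refine (size_le_subst hn).trans ?_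
        rw [← hB1']; exact hsz B (by simp)
      · refine (size_le_subst hn).trans ?_
        rw [← hp']
        exact hsz _ (List.mem_cons_of_mem _ (hB2 p hp)))
      (Γ ∪ {B | B ∈ L.map (fun B => imp E (B.subst ρ))}) (by
      intro p hp
      right
      exact List.mem_map.2 ⟨_, hB2 p hp, by rw [hp']⟩)
    rw [← hB1'] at h6
    intro L' hL' hΓL'
    obtain ⟨D, g1, g2, g3⟩ := h5 L' hL' hΓL'
    obtain ⟨D', g1', g2', g3'⟩ := h6 (D ++ L') g1 (by
      rintro C (hC | hC)
      · exact List.mem_append_right _ (hΓL' C hC)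
      · exact g2 C hC)
    refine ⟨D' ++ D, by rwa [List.append_assoc], ?_, ?_⟩
    · intro C hC
      rw [List.append_assoc]
      simp only [List.map_cons, List.mem_cons] at hC
      rcases hC with rfl | hC
      · exact g2' _ (by simp)
      · exact List.mem_append_right _ (g2 C hC)
    · rw [psize_append, List.length_cons]; nlinarith
  | @ext k L q φ hL hq1 hq2 hq3 ih =>
    obtain ⟨Ds, h1, h2, h3, h3', h4⟩ := ih
    refine ⟨iff (var q) φ :: Ds, by simp [h1], ⟨⟨q, φ, rfl, hq1, hq3, fun C hC => hq2 C (h3 C hC)⟩,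
      h2⟩, ?_, ?_, ?_⟩
    · intro D hD
      rcases List.mem_cons.1 hD with rfl | hD
      · simp
      · exact List.mem_cons_of_mem _ (h3 D hD)
    · rw [psize_cons, psize_cons]; omega
    · intro ρ E M hE hsz Γ hΓ
      have h5 := h4 ρ E M hE (fun B hB => hsz B (List.mem_cons_of_mem _ hB)) Γ
        (fun D hD => hΓ D (List.mem_cons_of_mem _ hD))
      have h6 : Can F Γ [imp E ((iff (var q) φ).subst ρ)] 0 := Can.hyp (hΓ _ (by simp))
      refine ((h6.append h5).sub (by simp)).mono subset_rfl ?_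
      rw [List.length_cons]; nlinarith


theorem t_dline (F : List Rule) (hF : IsFrege F) (h1 : S_ded F) : S_dline F := by
  obtain ⟨c₁, hc₁⟩ := conj_mem hF
  obtain ⟨c₂, hc₂⟩ := h1
  refine ⟨5 * (c₁ + c₂), ?_⟩
  intro A k L hL
  obtain ⟨Ds, hk, hw, hmemL, hps, hded⟩ := hc₂ A k (A :: L) hL
  obtain ⟨q, φ, he, hG⟩ := of_wf hw
  rw [hk] at he hG
  refine ⟨q, φ, hG, ?_, by rw [he]; exact hps, ?_⟩
  · intro i hi
    apply hmemL
    rw [← he]
    exact mem_extL q φ hi
  intro z σ M hM hz hσ Γ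
  rw [he]
  set s := psize (A :: L) with hs
  have hs1 : 1 ≤ s := by rw [hs, psize_cons]; have := Fm.size_pos A; omega
  have hks : k ≤ s := by rw [← hk]; exact (length_le_psize Ds).trans hps
  have hLs : (A :: L).length ≤ s := length_le_psize _
  have hcs : (conjL z Ds).size ≤ 5 * s := by rw [conjL_size, hk]; omega
  set E := (conjL z Ds).subst σ with hE
  have hE' : E = conjL z (Ds.map (fun D => D.subst σ)) := conjL_subst hz Ds
  have hEs : E.size ≤ 5 * s * M := by
    refine (size_subst_le hM (fun n _ => hσ n)).trans ?_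
    exact Nat.mul_le_mul_right _ hcs
  have hM' : 1 ≤ 5 * s * M := Nat.mul_pos (by omega) hM
  have hBs : ∀ B ∈ A :: L, (B.subst σ).size ≤ 5 * s * M := by
    intro B hB
    refine (size_subst_le hM (fun n _ => hσ n)).trans ?_
    refine Nat.mul_le_mul_right _ ?_
    have := size_le_psize hB
    omega
  have p1 : Can F Γ (Ds.map (fun D => imp E (D.subst σ))) (k * (c₁ * (5 * s * M) * k)) := by
    have := Can.many (F := F) (Γ := Γ) (fun D : Fm => imp E (D.subst σ))
      (c₁ * (5 * s * M) * k) Ds (by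
        intro D hD
        have h2 := hc₁ z (Ds.map (fun D => D.subst σ)) (5 * s * M) hM' (by rw [← hE']; exact hEs)
          (D.subst σ) (List.mem_map.2 ⟨D, hD, rfl⟩) Γ
        rw [← hE', List.length_map, hk] at h2
        exact h2)
    rwa [hk] at this
  have p2 := hded σ E (5 * s * M) hEs hBs
    (Γ ∪ {B | B ∈ Ds.map (fun D => imp E (D.subst σ))}) (by
      intro D hD
      exact Or.inr (List.mem_map.2 ⟨D, hD, rfl⟩))
  refine ((p1.cut p2).sub ?_).mono subset_rfl ?_
  · intro B hB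
    simp only [List.mem_singleton] at hB
    subst hB
    simp only [List.map_cons, List.mem_cons]
    left
    rfl
  · have e1 : k * (c₁ * (5 * s * M) * k) ≤ 5 * c₁ * s ^ 3 * M := by
      calc k * (c₁ * (5 * s * M) * k) = 5 * c₁ * (k * k * s) * M := by ring
        _ ≤ 5 * c₁ * (s * s * s) * M := by gcongr
        _ = 5 * c₁ * s ^ 3 * M := by ring
    have e2 : c₂ * (5 * s * M) * (A :: L).length ≤ 5 * c₂ * s ^ 3 * M := by
      calc c₂ * (5 * s * M) * (A :: L).length ≤ c₂ * (5 * s * M) * s := by gcongr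
        _ = 5 * c₂ * (1 * s * s) * M := by ring
        _ ≤ 5 * c₂ * (s * s * s) * M := by gcongr
        _ = 5 * c₂ * s ^ 3 * M := by ring
    calc _ ≤ 5 * c₁ * s ^ 3 * M + 5 * c₂ * s ^ 3 * M := Nat.add_le_add e1 e2
      _ = 5 * (c₁ + c₂) * s ^ 3 * M := by ring


end Pool.Agent.H586P.FO
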