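import Pool.Agent.H586P.Defs

set_option autoImplicit false

namespace Pool.Agent.H586P.T_block

open Pool.Agent.H586P Pool.Agent.H555R2.PF Pool.Agent.H555R2.PF.Fm

private theorem upd_congr (z : ℕ) (q : ℕ → ℕ) (i0 : ℕ) (a a' : ℕ → Bool) (σ : ℕ → Fm) :
    ∀ t : ℕ, (∀ s < t, a s = a' s) → upd z q i0 a σ t = upd z q i0 a' σ t := by
  intro t
  induction t with
  | zero => intro _; rfl
  | succ t ih =>
    intro h
    simp only [upd]
    rw [ih (fun s hs => h s (by omega)), h t (by omega)]

private theorem cst_size (z : ℕ) (v : Bool) : (cst z v).size ≤ 4 := by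
  cases v <;> simp [cst, top, size]

private theorem upd_size {z : ℕ} {q : ℕ → ℕ} {i0 : ℕ} {a : ℕ → Bool} {σ : ℕ → Fm} {m : ℕ}
    (h4 : 4 ≤ m) (h : ∀ n, (σ n).size ≤ m) : ∀ t n, (upd z q i0 a σ t n).size ≤ m := by
  intro t
  induction t with
  | zero => exact h
  | succ t ih =>
    intro n
    simp only [upd, Function.update_apply]
    split_ifs
    · exact (cst_size z _).trans h4
    · exact ih n

private theorem ext_size (z : ℕ) (q : ℕ → ℕ) (φ : ℕ → Fm) (s : ℕ) :
    ∀ s', s ≤ s' → (conjL z (extL q φ s)).size ≤ (conjL z (extL q φ s')).size := by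
  intro s' h
  induction s', h using Nat.le_induction with
  | base => exact le_rfl
  | succ k _ ih => simp only [extL, conjL, size]; omega

private theorem ext_vars {z : ℕ} {q : ℕ → ℕ} {φ : ℕ → Fm} {n : ℕ} : ∀ {s : ℕ},
    n ∈ (conjL z (extL q φ s)).vars → n = z ∨ ∃ i < s, n = q i ∨ n ∈ (φ i).vars := by
  intro s
  induction s with
  | zero => intro h; left; simpa [extL, conjL, vars] using h
  | succ s ih =>
    intro h
    simp only [extL, conjL, iff, vars, Finset.mem_union, Finset.mem_singleton] at h
    rcases h with ((h | h) | (h | h)) | h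
    · exact Or.inr ⟨s, by omega, Or.inl h⟩
    · exact Or.inr ⟨s, by omega, Or.inr h⟩
    · exact Or.inr ⟨s, by omega, Or.inr h⟩
    · exact Or.inr ⟨s, by omega, Or.inl h⟩
    · rcases ih h with h | ⟨i, hi, h⟩
      · exact Or.inl h
      · exact Or.inr ⟨i, by omega, h⟩

private theorem subst_update {τ : ℕ → Fm} {x : ℕ} {X : Fm} {B : Fm} (h : x ∉ B.vars) :
    B.subst (Function.update τ x X) = B.subst τ := by
  apply subst_congr
  intro n hn
  rw [Function.update_apply, if_neg]
  rintro rfl
  exact h hn

theorem t_block (F : List Rule) (hF : IsFrege F) (h1 : S_leaf F) (h2 : S_tree F) :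
    S_block F := by
  obtain ⟨c₁, hc₁⟩ := h1
  obtain ⟨c₂, hc₂⟩ := schemaL hF
    [imp (var 0) (imp (and (iff (imp (var 4) (var 4)) (var 1)) (var 2)) (var 3)),
      imp (var 0) (imp (and (iff (neg (imp (var 4) (var 4))) (var 1)) (var 2)) (var 3))]
    (imp (var 0) (imp (var 2) (var 3))) (by
    intro v h; simp [eval, iff] at h ⊢; tauto)
  refine ⟨c₁ + c₂, ?_⟩
  intro z A k q φ i0 r σ h u y H0 m M hBF Γ hΓ
  have hm1 : 1 ≤ m := by have := hBF.m4; omega
  have hM : 1 ≤ M := by have := hBF.M1; omega
  set H : Fm := tokH z u y (2 ^ r) H0 with hH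
  let W : ℕ → (ℕ → Bool) → Fm := fun t a =>
    imp H ((imp (conjL z (extL q φ (i0 + t))) A).subst (upd z q i0 a σ t))
  have hbig : (imp (conjL z (extL q φ (i0 + r))) A).size * m + H.size ≤ M := by
    have := hBF.M1; rw [← hH] at this; omega
  have key := h2 W r (c₁ * M * M * 2 ^ r) (c₂ * M) Γ ?_ ?_ (fun _ => false)
  · refine (key.sub ?_).mono subset_rfl ?_
    · intro B hB
      simp only [List.mem_singleton] at hB ⊢
      rw [hB]
      rfl
    · have e4 : (4 : ℕ) ^ r = 2 ^ r * 2 ^ r := by
        rw [← mul_pow]; norm_num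
      rw [e4]
      have p : 1 ≤ 2 ^ r := Nat.one_le_two_pow
      have q1 : 2 ^ r * (c₂ * M) ≤ c₂ * M * M * (2 ^ r * 2 ^ r) := by
        calc 2 ^ r * (c₂ * M) = (c₂ * M * 1) * (2 ^ r * 1) := by ring
          _ ≤ (c₂ * M * M) * (2 ^ r * 2 ^ r) :=
            Nat.mul_le_mul (Nat.mul_le_mul_left _ hM) (Nat.mul_le_mul_left _ p)
      nlinarith
  · intro a
    exact hc₁ z A k q φ i0 r σ h u y H0 m M hBF a Γ hΓ
  · intro t ht a Γ' ht1 ht2
    have hik : i0 + t < k := by have := hBF.le; omega
    set τ : ℕ → Fm := upd z q i0 a σ t with hτ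
    have hcond : ∀ v : Bool, W (t + 1) (Function.update a t v) =
        imp H (imp (and (iff (cst z v) ((φ (i0 + t)).subst τ))
          ((conjL z (extL q φ (i0 + t))).subst τ)) (A.subst τ)) := by
      intro v
      have e1 : upd z q i0 (Function.update a t v) σ (t + 1) =
          Function.update τ (q (i0 + t)) (cst z v) := by
        simp only [upd, Function.update_self]
        rw [upd_congr z q i0 (Function.update a t v) a σ t (fun s hs => by
          rw [Function.update_of_ne (by omega)])]
      have n1 : q (i0 + t) ∉ (φ (i0 + t)).vars := hBF.good.2.1 _ hik _ le_rfl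
      have n2 : q (i0 + t) ∉ A.vars := hBF.good.1 _ hik
      have n3 : q (i0 + t) ∉ (conjL z (extL q φ (i0 + t))).vars := by
        intro hn
        rcases ext_vars hn with hn | ⟨i, hi, hn | hn⟩
        · exact hBF.zq _ hik hn
        · exact hBF.good.2.2 _ hik _ hi hn
        · exact hBF.good.2.1 _ hik _ (by omega) hn
      change imp H ((imp (conjL z (extL q φ (i0 + (t + 1)))) A).subst
        (upd z q i0 (Function.update a t v) σ (t + 1))) = _
      rw [e1]
      have e2 : extL q φ (i0 + (t + 1)) =
          iff (var (q (i0 + t))) (φ (i0 + t)) :: extL q φ (i0 + t) := rfl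
      rw [e2]
      simp only [conjL, iff, subst]
      rw [subst_update n1, subst_update n2, subst_update n3, Function.update_self]
    rw [hcond true] at ht1
    rw [hcond false] at ht2
    have hsz : (conjL z (extL q φ (i0 + t))).size + (φ (i0 + t)).size + A.size ≤
        (imp (conjL z (extL q φ (i0 + r))) A).size := by
      have := ext_size z q φ (i0 + t + 1) (i0 + r) (by omega)
      simp only [extL, conjL, iff, size] at this ⊢
      omega
    have hτm : ∀ n, (τ n).size ≤ m := upd_size hBF.m4 hBF.σm t
    have s1 := size_subst_le (σ := τ) hm1 (A := φ (i0 + t)) (fun n _ => hτm n)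
    have s2 := size_subst_le (σ := τ) hm1 (A := conjL z (extL q φ (i0 + t))) (fun n _ => hτm n)
    have s3 := size_subst_le (σ := τ) hm1 (A := A) (fun n _ => hτm n)
    have hall : ((conjL z (extL q φ (i0 + t))).size + (φ (i0 + t)).size + A.size) * m + H.size
        ≤ M := by
      have := Nat.mul_le_mul_right m hsz
      omega
    have hall' : (conjL z (extL q φ (i0 + t))).size * m + (φ (i0 + t)).size * m + A.size * m +
        H.size ≤ M := by
      rw [add_mul, add_mul] at hall; exact hall
    have fin := hc₂ [H, (φ (i0 + t)).subst τ, (conjL z (extL q φ (i0 + t))).subst τ, A.subst τ,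
      var z] M hM (by
        intro Y hY
        simp at hY
        rcases hY with rfl | rfl | rfl | rfl | rfl
        · omega
        · omega
        · omega
        · omega
        · simpa [size] using hM) Γ' (by
        intro Y hY
        simp only [List.mem_cons, List.not_mem_nil, or_false] at hY
        rcases hY with rfl | rfl
        · simpa [subst, asg, iff, cst, top] using ht1
        · simpa [subst, asg, iff, cst, top] using ht2)
    exact fin
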