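import Pool.Agent.H586P.Defs

set_option autoImplicit false

namespace Pool.Agent.H586P.T_cfin

open Pool.Agent.H586P Pool.Agent.H555R2.PF Pool.Agent.H555R2.PF.Fm

theorem size_oneL (z : ℕ) (u : ℕ → ℕ) (N : ℕ) : (conjL z (oneL u N)).size = 2 * N + 3 := by
  have e : oneL u N = ((List.range N).map u).map var := by
    rw [oneL, List.map_map]; rfl
  rw [conjL_size, e, psize_var]
  simp only [List.length_map, List.length_range]
  ring

theorem size_nallR (z : ℕ) (B : ℕ → ℕ → ℕ) (N m : ℕ) :
    (conjL z (nallR z B N m)).size = m * (2 * N + 5) + 3 := by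
  induction m with
  | zero => simp [nallR, conjL, size]
  | succ m ih =>
    simp only [nallR, conjL, size, size_oneL, ih]
    ring

theorem t_cfin (F : List Rule) (hF : IsFrege F) : S_cfin F := by
  obtain ⟨c₁, h₁⟩ := schemaL hF [imp (and (neg (var 0)) (var 1)) (var 2), imp (var 0) (var 2)]
    (imp (var 1) (var 2)) (by
    intro v h; simp [eval] at h ⊢; tauto)
  obtain ⟨c₂, h₂⟩ := schemaL hF [imp (imp (var 0) (var 0)) (var 1)] (var 1) (by
    intro v h; simp [eval] at h ⊢; tauto)
  refine ⟨20 * (c₁ + c₂), fun z N A B Γ h0 hC => ?_⟩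
  set Q := A.size + N + 1 with hQ
  set M := 20 * Q ^ 2 with hMdef
  have hQ1 : 1 ≤ Q := by omega
  have hQ2 : Q ≤ Q ^ 2 := by nlinarith
  have hM : 1 ≤ M := by omega
  have hAM : A.size ≤ M := by omega
  have hCM : 2 * N + 3 ≤ M := by omega
  have hDM : ∀ m ≤ N, (conjL z (nallR z B N m)).size ≤ M := by
    intro m hm
    rw [size_nallR]
    have : m * (2 * N + 5) ≤ N * (2 * N + 5) := Nat.mul_le_mul_right _ hm
    nlinarith [Nat.zero_le N]
  have key : ∀ d ≤ N, Can F Γ [imp (conjL z (nallR z B N (N - d))) A] (c₁ * M * d) := by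
    intro d
    induction d with
    | zero =>
      intro _
      exact (Can.hyp h0).mono subset_rfl (Nat.zero_le _)
    | succ d ih =>
      intro hd
      have h4 := ih (by omega)
      have e : N - d = (N - (d + 1)) + 1 := by omega
      rw [e] at h4
      have h5 := h₁ [conjL z (oneL (B (N - (d + 1))) N), conjL z (nallR z B N (N - (d + 1))), A] M
        hM (by
          intro Y hY; simp at hY; rcases hY with rfl | rfl | rfl
          · rw [size_oneL]; exact hCM
          · exact hDM _ (by omega)
          · exact hAM)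
        (Γ ∪ {Y | Y ∈ [imp (conjL z (nallR z B N ((N - (d + 1)) + 1))) A]}) (by
          intro Y hY
          simp only [List.mem_cons, List.not_mem_nil, or_false] at hY
          rcases hY with rfl | rfl
          · right
            simp [subst, asg, nallR, conjL]
          · left
            simpa [subst, asg] using hC (N - (d + 1)) (by omega))
      refine ((h4.cut h5).sub ?_).mono subset_rfl ?_
      · intro Y hY
        simpa [subst, asg] using hY
      · have : c₁ * M * (d + 1) = c₁ * M * d + c₁ * M := by ring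
        omega
  have h6 := key N le_rfl
  rw [Nat.sub_self] at h6
  have h7 := h₂ [var z, A] M hM (by
    intro Y hY; simp at hY; rcases hY with rfl | rfl
    · exact hM
    · exact hAM) (Γ ∪ {Y | Y ∈ [imp (conjL z (nallR z B N 0)) A]}) (by
      intro Y hY
      simp only [List.mem_cons, List.not_mem_nil, or_false] at hY
      subst hY
      right
      simp [subst, asg, nallR, conjL])
  refine ((h6.cut h7).sub ?_).mono subset_rfl ?_
  · intro Y hY
    simpa [subst, asg] using hY
  · have hQ3 : Q ^ 2 * Q ≤ Q ^ 8 := by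
      calc Q ^ 2 * Q = Q ^ 3 := by ring
        _ ≤ Q ^ 8 := Nat.pow_le_pow_right hQ1 (by norm_num)
    have hN : N ≤ Q := by omega
    calc c₁ * M * N + c₂ * M ≤ c₁ * M * Q + c₂ * M * Q :=
          Nat.add_le_add (Nat.mul_le_mul_left _ hN) (Nat.le_mul_of_pos_right _ hQ1)
      _ = 20 * (c₁ + c₂) * (Q ^ 2 * Q) := by rw [hMdef]; ring
      _ ≤ 20 * (c₁ + c₂) * Q ^ 8 := Nat.mul_le_mul_left _ hQ3

end Pool.Agent.H586P.T_cfin
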