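import Pool.Agent.H586P.Defs

set_option autoImplicit false

namespace Pool.Agent.H586P.T_cintro

open Pool.Agent.H586P Pool.Agent.H555R2.PF Pool.Agent.H555R2.PF.Fm

theorem t_cintro (F : List Rule) (hF : IsFrege F) : S_cintro F := by
  obtain ⟨c₁, h₁⟩ := schemaL hF [] (imp (var 0) (imp (var 1) (var 1))) (by
    intro v h; simp [eval])
  obtain ⟨c₂, h₂⟩ := schemaL hF [imp (var 0) (var 1), imp (var 0) (var 2)]
    (imp (var 0) (and (var 1) (var 2))) (by
    intro v h; simp [eval] at h ⊢; tauto)
  refine ⟨c₁ + c₂, fun z U Ds M hU => ?_⟩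
  have hM : 1 ≤ M := (size_pos U).trans hU
  induction Ds with
  | nil =>
    intro hs Γ _
    refine ((h₁ [U, var z] M hM ?_ Γ (by simp)).sub ?_).mono subset_rfl ?_
    · intro Y hY; simp at hY; rcases hY with rfl | rfl
      exacts [hU, hM]
    · intro B hB
      simpa [subst, asg, conjL] using hB
    · simp only [List.length_nil]
      nlinarith [Nat.zero_le (c₂ * M)]
  | cons D Ds ih =>
    intro hs Γ hΓ
    have hs' : D.size ≤ M ∧ (conjL z Ds).size ≤ M := by
      simp only [conjL, size] at hs; omega
    have h4 := ih hs'.2 Γ (fun X hX => hΓ X (by simp [hX]))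
    have h5 := h₂ [U, D, conjL z Ds] M hM (by
      intro Y hY; simp at hY; rcases hY with rfl | rfl | rfl
      exacts [hU, hs'.1, hs'.2]) (Γ ∪ {B | B ∈ [imp U (conjL z Ds)]}) (by
        intro A hA
        simp only [List.mem_cons, List.not_mem_nil, or_false] at hA
        rcases hA with rfl | rfl
        · left
          simpa [subst, asg] using hΓ D (by simp)
        · right; simp [subst, asg])
    refine ((h4.cut h5).sub ?_).mono subset_rfl ?_
    · intro B hB
      simpa [subst, asg, conjL] using hB
    · simp only [List.length_cons]; nlinarith [Nat.zero_le (c₁ * M)]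

end Pool.Agent.H586P.T_cintro
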