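import Pool.Agent.H586P.Defs

set_option autoImplicit false

namespace Pool.Agent.H586P.T_cloop

open Pool.Agent.H586P Pool.Agent.H555R2.PF Pool.Agent.H555R2.PF.Fm

/-- the zeros of `y j, …, y (j+m-1)` -/
def Z (y : ℕ → ℕ) (j m : ℕ) : List Fm := (List.range m).map fun i => neg (var (y (j + i)))

theorem Z_succ (y : ℕ → ℕ) (j m : ℕ) : Z y j (m + 1) = neg (var (y j)) :: Z y (j + 1) m := by
  unfold Z
  rw [List.range_succ_eq_map, List.map_cons, List.map_map]
  congr 1
  apply List.map_congr_left
  intro i _
  simp only [Function.comp, Nat.succ_eq_add_one]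
  congr 3
  omega

theorem Z_zero (y : ℕ → ℕ) (m : ℕ) : Z y 0 m = zeroL y m := by
  simp [Z, zeroL]

theorem Z_length (y : ℕ → ℕ) (j m : ℕ) : (Z y j m).length = m := by simp [Z]

theorem Z_psize (y : ℕ → ℕ) (j m : ℕ) : psize (Z y j m) = 2 * m := by
  induction m generalizing j with
  | zero => simp [Z, psize]
  | succ m ih => rw [Z_succ, psize_cons, ih]; simp only [size]; omega

theorem Z_size (z : ℕ) (y : ℕ → ℕ) (j m : ℕ) : (conjL z (Z y j m)).size = 3 * m + 3 := by
  rw [conjL_size, Z_psize, Z_length]; omega

theorem Z_vars {z : ℕ} {y : ℕ → ℕ} {j m n : ℕ} (h : n ∈ (conjL z (Z y j m)).vars) :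
    n = z ∨ ∃ i < m, n = y (j + i) := by
  rcases conjL_vars h with h | ⟨D, hD, h⟩
  · exact Or.inl h
  · unfold Z at hD
    obtain ⟨i, hi, rfl⟩ := List.mem_map.1 hD
    simp only [vars, Finset.mem_singleton] at h
    exact Or.inr ⟨i, List.mem_range.1 hi, h⟩

theorem one_psize (u : ℕ → ℕ) (w : ℕ) : psize (oneL u w) = w := by
  unfold oneL psize
  rw [List.map_map]
  simp [Function.comp_def, size]

theorem one_size (z : ℕ) (u : ℕ → ℕ) (w : ℕ) : (conjL z (oneL u w)).size = 2 * w + 3 := by
  rw [conjL_size, one_psize]; simp [oneL]; omega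

theorem nall_length (z : ℕ) (B : ℕ → ℕ → ℕ) (N m : ℕ) : (nallR z B N m).length = m := by
  induction m with
  | zero => rfl
  | succ m ih => simp [nallR, ih]

theorem nall_psize (z : ℕ) (B : ℕ → ℕ → ℕ) (N m : ℕ) :
    psize (nallR z B N m) = m * (2 * N + 4) := by
  induction m with
  | zero => simp [nallR, psize]
  | succ m ih => rw [nallR, psize_cons, ih]; simp only [size, one_size]; ring

theorem nall_size (z : ℕ) (B : ℕ → ℕ → ℕ) (N m : ℕ) :
    (conjL z (nallR z B N m)).size = m * (2 * N + 5) + 3 := by
  rw [conjL_size, nall_psize, nall_length]; ring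

theorem one_vars {z : ℕ} {u : ℕ → ℕ} {w n : ℕ} (h : n ∈ (conjL z (oneL u w)).vars) :
    n = z ∨ ∃ i < w, n = u i := by
  rcases conjL_vars h with h | ⟨D, hD, h⟩
  · exact Or.inl h
  · unfold oneL at hD
    obtain ⟨i, hi, rfl⟩ := List.mem_map.1 hD
    simp only [vars, Finset.mem_singleton] at h
    exact Or.inr ⟨i, List.mem_range.1 hi, h⟩

theorem nall_vars {z : ℕ} {B : ℕ → ℕ → ℕ} {N m n : ℕ} (h : n ∈ (conjL z (nallR z B N m)).vars) :
    n = z ∨ ∃ i < m, ∃ j < N, n = B i j := by
  induction m with
  | zero => left; simpa [nallR, conjL, vars] using h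
  | succ m ih =>
    simp only [nallR, conjL, vars, Finset.mem_union] at h
    rcases h with h | h
    · rcases one_vars h with h | ⟨i, hi, h⟩
      · exact Or.inl h
      · exact Or.inr ⟨m, by omega, i, hi, h⟩
    · rcases ih h with h | ⟨i, hi, j, hj, h⟩
      · exact Or.inl h
      · exact Or.inr ⟨i, by omega, j, hj, h⟩

theorem t_cloop (F : List Rule) (hF : IsFrege F) (h1 : S_cstep F) : S_cloop F := by
  obtain ⟨c, hc⟩ := h1
  obtain ⟨c₁, h₁⟩ := schemaL hF [var 0] (imp (imp (var 1) (var 1)) (var 0)) (by
    intro v h; simp [eval] at h ⊢; tauto)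
  obtain ⟨c₂, h₂⟩ := schemaL hF [imp (var 0) (imp (imp (var 1) (var 1)) (var 2))]
    (imp (var 0) (var 2)) (by
    intro v h; simp [eval] at h ⊢; tauto)
  refine ⟨10 * c₁ + 10 * c₂ + 100 * c, ?_⟩
  intro z N₀ N A y B hA hz hy hyi hB hBi hBy Γ hΓ
  set S := A.size + N + 1 with hS
  have hApos := Fm.size_pos A
  have hS2 : 2 ≤ S := by omega
  obtain ⟨M, hMdef⟩ : ∃ M, M = 10 * (S * S) := ⟨_, rfl⟩
  have hNS : N ≤ S := by omega
  have hM1 : 1 ≤ M := by nlinarith
  have hy' : ∀ j < N, ∀ i < N, y i = y j → i = j := fun j hj i hi h => hyi i hi j hj h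
  -- sizes
  have hNN : N * N ≤ S * S := Nat.mul_le_mul hNS hNS
  have hSS : 2 * S ≤ S * S := Nat.mul_le_mul_right S hS2
  have hstate : ∀ j m, j + m ≤ N →
      (imp (conjL z (nallR z B N j)) (imp (conjL z (Z y j m)) A)).size ≤ M := by
    intro j m hjm
    simp only [size, nall_size, Z_size]
    have : j * (2 * N + 5) ≤ N * (2 * N + 5) := Nat.mul_le_mul_right _ (by omega)
    nlinarith
  have key : ∀ j, j ≤ N → Can F Γ [imp (conjL z (nallR z B N j))
      (imp (conjL z (Z y j (N - j))) A)] (c₁ * M + j * (c * M * M * (N + 1))) := by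
    intro j
    induction j with
    | zero =>
      intro _
      have := h₁ [imp (conjL z (zeroL y N)) A, var z] M hM1 (by
        intro X hX
        simp only [List.mem_cons, List.not_mem_nil, or_false] at hX
        rcases hX with rfl | rfl
        · have := hstate 0 N (by omega)
          rw [Z_zero] at this
          simp only [size] at this ⊢
          omega
        · simpa [size] using hM1) Γ (by
        intro X hX
        simp only [List.mem_singleton] at hX
        subst hX
        simpa [subst, asg] using hΓ)
      refine (this.sub ?_).mono subset_rfl (by omega)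
      intro X hX
      simp only [List.mem_singleton] at hX
      subst hX
      simp [subst, asg, nallR, conjL, Z_zero]
    | succ j ih =>
      intro hj
      have ih' := ih (by omega)
      have hNj : N - j = (N - (j + 1)) + 1 := by omega
      set m := N - (j + 1) with hm
      rw [hNj, Z_succ] at ih'
      simp only [conjL] at ih'
      have st := hc z (y j) (conjL z (nallR z B N j)) (conjL z (Z y (j + 1) m)) A
        ((List.range N).map (B j)) M (by
          intro h
          rcases nall_vars h with h | ⟨i, hi, l, hl, h⟩
          · have := hy j (by omega); omega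
          · exact hBy i (by omega) l hl j (by omega) h.symm) (by
          intro h
          rcases Z_vars h with h | ⟨i, hi, h⟩
          · have := hy j (by omega); omega
          · have := hyi _ (by omega) _ (by omega) h
            omega) (by
          intro h
          have h3 := hA _ h
          have h4 := hy j (by omega)
          omega) (by
          intro b hb
          obtain ⟨l, hl, rfl⟩ := List.mem_map.1 hb
          have hl' := List.mem_range.1 hl
          have hBj := hB j (by omega) l hl'
          refine ⟨?_, ?_, ?_⟩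
          · intro h
            rcases nall_vars h with h | ⟨i, hi, l', hl'', h⟩
            · omega
            · have := hBi j (by omega) l hl' i (by omega) l' hl'' h
              omega
          · intro h
            rcases Z_vars h with h | ⟨i, hi, h⟩
            · omega
            · exact hBy j (by omega) l hl' _ (by omega) h
          · intro h
            have h3 := hA _ h
            omega) (by
          have := hstate j (m + 1) (by omega)
          rw [Z_succ] at this
          simpa only [conjL] using this) (by
          have e : ((List.range N).map (B j)).map var = oneL (B j) N := by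
            simp [oneL, List.map_map, Function.comp_def]
          rw [e, one_size]
          nlinarith) (Γ ∪ {X | X ∈ [imp (conjL z (nallR z B N j))
            (imp (and (neg (var (y j))) (conjL z (Z y (j + 1) m))) A)]}) (by
          right; simp)
      have e : ((List.range N).map (B j)).map var = oneL (B j) N := by
        simp [oneL, List.map_map, Function.comp_def]
      rw [e] at st
      have st2 := ih'.cut st
      refine (st2.sub ?_).mono subset_rfl ?_
      · intro X hX
        simp only [List.mem_singleton] at hX
        subst hX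
        simp [nallR, conjL]
      · simp only [List.length_map, List.length_range]
        have : (j + 1) * (c * M * M * (N + 1)) = j * (c * M * M * (N + 1)) +
          c * M * M * (N + 1) := by ring
        omega
  have hN := key N le_rfl
  rw [Nat.sub_self] at hN
  have e0 : conjL z (Z y N 0) = imp (var z) (var z) := by simp [Z, conjL]
  rw [e0] at hN
  have fin := h₂ [conjL z (nallR z B N N), var z, A] M hM1 (by
    intro X hX
    simp only [List.mem_cons, List.not_mem_nil, or_false] at hX
    have h0 := hstate N 0 (by omega)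
    simp only [size] at h0
    rcases hX with rfl | rfl | rfl
    · omega
    · simpa [size] using hM1
    · omega) (Γ ∪ {X | X ∈ [imp (conjL z (nallR z B N N)) (imp (imp (var z) (var z)) A)]}) (by
    intro X hX
    simp only [List.mem_singleton] at hX
    subst hX
    right
    simp [subst, asg])
  have all := hN.cut fin
  refine (all.sub ?_).mono subset_rfl ?_
  · intro X hX
    simp only [List.mem_singleton] at hX
    subst hX
    simp [subst, asg]
  · have hS1 : 1 ≤ S := by omega
    have p2 : S * S ≤ S ^ 8 := by
      calc S * S = S ^ 2 := by ring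
        _ ≤ S ^ 8 := Nat.pow_le_pow_right hS1 (by norm_num)
    have hMM : M ≤ 10 * S ^ 8 := by rw [hMdef]; omega
    have hstep : N * (c * M * M * (N + 1)) ≤ 100 * c * S ^ 8 := by
      have a1 : N * (c * M * M * (N + 1)) ≤ S * (c * M * M * S) := by
        apply Nat.mul_le_mul hNS
        apply Nat.mul_le_mul_left
        omega
      have a2 : S * (c * M * M * S) = 100 * c * S ^ 6 := by rw [hMdef]; ring
      have a3 : S ^ 6 ≤ S ^ 8 := Nat.pow_le_pow_right hS1 (by norm_num)
      calc _ ≤ _ := a1
        _ = _ := a2
        _ ≤ _ := Nat.mul_le_mul_left _ a3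
    have b1 : c₁ * M ≤ 10 * c₁ * S ^ 8 := by
      calc c₁ * M ≤ c₁ * (10 * S ^ 8) := Nat.mul_le_mul_left _ hMM
        _ = _ := by ring
    have b2 : c₂ * M ≤ 10 * c₂ * S ^ 8 := by
      calc c₂ * M ≤ c₂ * (10 * S ^ 8) := Nat.mul_le_mul_left _ hMM
        _ = _ := by ring
    calc c₁ * M + N * (c * M * M * (N + 1)) + c₂ * M
        ≤ 10 * c₁ * S ^ 8 + 100 * c * S ^ 8 + 10 * c₂ * S ^ 8 := by omega
      _ = (10 * c₁ + 10 * c₂ + 100 * c) * S ^ 8 := by ring

end Pool.Agent.H586P.T_cloop
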