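import Pool.Agent.H586P.Defs

/-! Task comb (helper196): combination of the two worlds. -/

set_option autoImplicit false

namespace Pool.Agent.H586P.T_comb

open Pool.Agent.H586P Pool.Agent.H555R2.PF Pool.Agent.H555R2.PF.Fm

theorem t_comb (F : List Rule) (hF : IsFrege F) (h1 : S_cloop F) (h2 : S_cfin F) :
    S_comb F := by
  obtain ⟨c1, h1⟩ := h1
  obtain ⟨c2, h2⟩ := h2
  refine ⟨c1 + c2, fun A N K N₀ z hA hz hy => ?_⟩
  set y : ℕ → ℕ := fun i => N₀ + i with hyd
  set B : ℕ → ℕ → ℕ := fun i j => N₀ + N + Nat.pair i j with hB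
  have hy1 : ∀ i < N, N₀ ≤ y i := fun i _ => Nat.le_add_right _ _
  have hy2 : InjB y N := fun i _ j _ h => by simpa [hyd] using h
  have hB1 : ∀ i < N, ∀ j < N, N₀ ≤ B i j := fun i _ j _ => by simp only [hB]; omega
  have hB2 : ∀ i < N, ∀ j < N, ∀ i' < N, ∀ j' < N, B i j = B i' j' → i = i' ∧ j = j' := by
    intro i _ j _ i' _ j' _ h
    have h3 : Nat.pair i j = Nat.pair i' j' := by simpa [hB] using h
    exact Nat.pair_eq_pair.1 h3
  have hB3 : ∀ i < N, ∀ j < N, ∀ l < N, B i j ≠ y l := by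
    intro i _ j _ l hl h
    simp only [hB, hyd] at h
    omega
  have g0 := (hy y hy1 hy2).1
  have g1 : ∀ i ∈ List.range N, Can F ∅ [imp (conjL z (oneL (B i) N)) A] K := by
    intro i hi
    rw [List.mem_range] at hi
    exact (hy (B i) (fun j hj => hB1 i hi j hj) (fun j hj j' hj' h =>
      (hB2 i hi j hj i hi j' hj' h).2)).2
  have g2 := Can.many (fun i => imp (conjL z (oneL (B i) N)) A) K (List.range N) g1
  rw [List.length_range] at g2
  have g3 := g0.append g2
  set Γ1 : Set Fm := ∅ ∪ {X | X ∈ [imp (conjL z (zeroL y N)) A] ++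
    (List.range N).map (fun i => imp (conjL z (oneL (B i) N)) A)} with hΓ1
  have m0 : imp (conjL z (zeroL y N)) A ∈ Γ1 := Or.inr (by simp)
  have m1 : ∀ i < N, imp (conjL z (oneL (B i) N)) A ∈ Γ1 := fun i hi => Or.inr (by
    apply List.mem_append_right
    exact List.mem_map.2 ⟨i, List.mem_range.2 hi, rfl⟩)
  have g4 := h1 z N₀ N A y B hA hz hy1 hy2 hB1 hB2 hB3 Γ1 m0
  have g5 := h2 z N A B (Γ1 ∪ {X | X ∈ [imp (conjL z (nallR z B N N)) A]}) (Or.inr (by simp))
    (fun i hi => Or.inl (m1 i hi))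
  have g6 := g3.cut (g4.cut g5)
  refine g6.mono (Set.Subset.refl _) (le_of_eq ?_)
  ring

end Pool.Agent.H586P.T_comb
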