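import Pool.Agent.H586P.Defs

set_option autoImplicit false

namespace Pool.Agent.H586P.T_cstep

open Pool.Agent.H586P Pool.Agent.H555R2.PF Pool.Agent.H555R2.PF.Fm

theorem t_cstep (F : List Rule) (hF : IsFrege F) (h1 : S_ren F) (h2 : S_cintro F) :
    S_cstep F := by
  obtain ⟨c₁, h₁⟩ := h1
  obtain ⟨c₂, h₂⟩ := schemaL hF [imp (var 0) (imp (and (neg (var 1)) (var 2)) (var 3))]
    (imp (neg (imp (var 0) (imp (var 2) (var 3)))) (var 1)) (by
    intro v h; simp [eval] at h ⊢; tauto)
  obtain ⟨c₃, h₃⟩ := h2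
  obtain ⟨c₄, h₄⟩ := schemaL hF [imp (neg (imp (var 0) (imp (var 1) (var 2)))) (var 3)]
    (imp (and (neg (var 3)) (var 0)) (imp (var 1) (var 2))) (by
    intro v h; simp [eval] at h ⊢; tauto)
  refine ⟨c₁ + c₂ + c₃ + c₄, fun z y0 Dn R A Bl M hyD hyR hyA hBl hX hC Γ hΓ => ?_⟩
  have hM : 1 ≤ M := (size_pos _).trans hX
  have hX' := hX
  simp only [size] at hX'
  have hDM : Dn.size ≤ M := by omega
  have hRM : R.size ≤ M := by omega
  have hAM : A.size ≤ M := by omega
  set U := neg (imp Dn (imp R A)) with hU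
  have hUM : U.size ≤ M := by
    rw [hU]; simp only [size]; omega
  -- all the formulas `U → b`
  have step : ∀ b ∈ Bl, Can F Γ [imp U (var b)] (c₁ * M * M + c₂ * M) := by
    intro b hb
    obtain ⟨hbD, hbR, hbA⟩ := hBl b hb
    let f : ℕ → ℕ := fun n => if n = y0 then b else n
    have hfD : Dn.rename f = Dn := rename_eq_self fun n hn => if_neg fun h : n = y0 => hyD (h ▸ hn)
    have hfR : R.rename f = R := rename_eq_self fun n hn => if_neg fun h : n = y0 => hyR (h ▸ hn)
    have hfA : A.rename f = A := rename_eq_self fun n hn => if_neg fun h : n = y0 => hyA (h ▸ hn)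
    have hfX : (imp Dn (imp (and (neg (var y0)) R) A)).rename f =
        imp Dn (imp (and (neg (var b)) R) A) := by
      have e1 : (imp Dn (imp (and (neg (var y0)) R) A)).rename f =
          imp (Dn.rename f) (imp (and (neg (var (f y0))) (R.rename f)) (A.rename f)) := rfl
      rw [e1, hfD, hfR, hfA]
      have : f y0 = b := if_pos rfl
      rw [this]
    have hmem : ∀ n ∈ (imp Dn (imp (and (neg (var y0)) R) A)).vars, n ≠ y0 → n ≠ b := by
      intro n hn hne hnb
      subst hnb
      simp only [vars, Finset.mem_union, Finset.mem_singleton] at hn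
      rcases hn with hn | (hn | hn) | hn
      · exact hbD hn
      · exact hne hn
      · exact hbR hn
      · exact hbA hn
    have hinj : Set.InjOn f ((imp Dn (imp (and (neg (var y0)) R) A)).vars : Set ℕ) := by
      intro n hn m hm hnm
      have hn' := hmem n (Finset.mem_coe.1 hn)
      have hm' := hmem m (Finset.mem_coe.1 hm)
      simp only [f] at hnm
      by_cases h3 : n = y0
      · by_cases h4 : m = y0
        · rw [h3, h4]
        · rw [if_pos h3, if_neg h4] at hnm
          exact absurd hnm.symm (hm' h4)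
      · by_cases h4 : m = y0
        · rw [if_neg h3, if_pos h4] at hnm
          exact absurd hnm (hn' h3)
        · rw [if_neg h3, if_neg h4] at hnm
          exact hnm
    have s1 := h₁ _ f M hX hinj Γ hΓ
    rw [hfX] at s1
    have s2 := h₂ [Dn, var b, R, A] M hM (by
      intro Y hY; simp at hY; rcases hY with rfl | rfl | rfl | rfl
      exacts [hDM, hM, hRM, hAM])
      (Γ ∪ {Y | Y ∈ [imp Dn (imp (and (neg (var b)) R) A)]}) (by
      intro Y hY
      simp only [List.mem_cons, List.not_mem_nil, or_false] at hY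
      subst hY
      right; simp [subst, asg])
    refine (s1.cut s2).sub ?_
    intro Y hY
    simpa [subst, asg, hU] using hY
  have s3 : Can F Γ (Bl.map fun b => imp U (var b)) (Bl.length * (c₁ * M * M + c₂ * M)) :=
    Can.many _ _ _ step
  have s4 := h₃ z U (Bl.map var) M hUM hC (Γ ∪ {Y | Y ∈ Bl.map fun b => imp U (var b)}) (by
    intro D hD
    obtain ⟨b, hb, rfl⟩ := List.mem_map.1 hD
    right
    exact List.mem_map.2 ⟨b, hb, rfl⟩)
  have s34 := s3.cut s4
  have s5 := h₄ [Dn, R, A, conjL z (Bl.map var)] M hM (by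
    intro Y hY; simp at hY; rcases hY with rfl | rfl | rfl | rfl
    exacts [hDM, hRM, hAM, hC])
    (Γ ∪ {Y | Y ∈ [imp U (conjL z (Bl.map var))]}) (by
    intro Y hY
    simp only [List.mem_cons, List.not_mem_nil, or_false] at hY
    subst hY
    right; simp [subst, asg, hU])
  refine ((s34.cut s5).sub ?_).mono subset_rfl ?_
  · intro Y hY
    simpa [subst, asg] using hY
  · rw [List.length_map]
    set l := Bl.length
    have hMM : M ≤ M * M := Nat.le_mul_of_pos_right _ (by omega)
    have e1 : c₂ * M ≤ c₂ * (M * M) := Nat.mul_le_mul_left _ hMM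
    have e2 : l * (c₁ * M * M + c₂ * M) ≤ (c₁ + c₂) * (M * M) * (l + 1) := by
      calc l * (c₁ * M * M + c₂ * M) ≤ (l + 1) * (c₁ * (M * M) + c₂ * (M * M)) := by
            refine Nat.mul_le_mul (by omega) ?_
            have : c₁ * M * M = c₁ * (M * M) := by ring
            omega
        _ = (c₁ + c₂) * (M * M) * (l + 1) := by ring
    have e3 : c₃ * M * (l + 1) ≤ c₃ * (M * M) * (l + 1) :=
      Nat.mul_le_mul_right _ (Nat.mul_le_mul_left _ hMM)
    have e4 : c₄ * M ≤ c₄ * (M * M) * (l + 1) :=
      (Nat.mul_le_mul_left _ hMM).trans (Nat.le_mul_of_pos_right _ (by omega))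
    calc _ ≤ (c₁ + c₂) * (M * M) * (l + 1) + c₃ * (M * M) * (l + 1) + c₄ * (M * M) * (l + 1) :=
          Nat.add_le_add (Nat.add_le_add e2 e3) e4
      _ = _ := by ring

end Pool.Agent.H586P.T_cstep
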