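import Pool.Agent.H586P.Defs

set_option autoImplicit false

namespace Pool.Agent.H586P.T_dec

open Pool.Agent.H586P Pool.Agent.H555R2.PF Pool.Agent.H555R2.PF.Fm

theorem t_dec (F : List Rule) (hF : IsFrege F) (h1 : S_disjT F) (h2 : S_disjF F) : S_dec F := by
  obtain ⟨c₁, h₁⟩ := h1
  obtain ⟨c₂, h₂⟩ := h2
  refine ⟨2 * (c₁ + c₂), fun z r t α u y H M hα hH hM Γ hu hy => ?_⟩
  set l : List Fm := ((List.range (2 ^ r)).filter (fun β => β.testBit t)).map
    (fun β => var (if β = α then u else y β)) with hl
  have hlen : l.length ≤ 2 ^ r := by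
    rw [hl, List.length_map]
    exact (List.length_filter_le _ _).trans (by rw [List.length_range])
  have hps : psize l = l.length := by
    have e : l = (((List.range (2 ^ r)).filter (fun β => β.testBit t)).map
      (fun β => if β = α then u else y β)).map var := by
      rw [hl, List.map_map]
      rfl
    have e2 := psize_var (((List.range (2 ^ r)).filter (fun β => β.testBit t)).map
      (fun β => if β = α then u else y β))
    rw [← e] at e2
    rw [e2, hl, List.length_map, List.length_map]
  have hsz : (disjL z l).size ≤ M := by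
    rw [disjL_size, hps]; omega
  have h2r : 1 ≤ 2 ^ r := Nat.one_le_two_pow
  have hb : l.length + 1 ≤ 2 * 2 ^ r := by omega
  cases hb' : α.testBit t with
  | true =>
    have hX : var u ∈ l := by
      rw [hl, List.mem_map]
      refine ⟨α, ?_, by rw [if_pos rfl]⟩
      rw [List.mem_filter, List.mem_range]
      exact ⟨hα, hb'⟩
    refine (h₁ z H l M hH hsz (var u) hX Γ hu).mono subset_rfl ?_
    calc c₁ * M * (l.length + 1) ≤ (c₁ + c₂) * M * (2 * 2 ^ r) :=
          Nat.mul_le_mul (Nat.mul_le_mul_right _ (by omega)) hb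
      _ = 2 * (c₁ + c₂) * M * 2 ^ r := by ring
  | false =>
    refine (h₂ z H l M hH hsz Γ ?_).mono subset_rfl ?_
    · intro X hX
      rw [hl, List.mem_map] at hX
      obtain ⟨β, hβ, rfl⟩ := hX
      rw [List.mem_filter, List.mem_range] at hβ
      have hne : β ≠ α := by
        rintro rfl
        rw [hb'] at hβ
        exact absurd hβ.2 (by simp)
      rw [if_neg hne]
      exact hy β hβ.1
    · calc c₂ * M * (l.length + 1) ≤ (c₁ + c₂) * M * (2 * 2 ^ r) :=
            Nat.mul_le_mul (Nat.mul_le_mul_right _ (by omega)) hb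
        _ = 2 * (c₁ + c₂) * M * 2 ^ r := by ring

end Pool.Agent.H586P.T_dec
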