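import Pool.Agent.H586P.Defs

set_option autoImplicit false

namespace Pool.Agent.H586P.T_ded

open Pool.Agent.H586P Pool.Agent.H555R2.PF Pool.Agent.H555R2.PF.Fm

theorem t_ded (F : List Rule) (hF : IsFrege F) : S_ded F := by
  obtain ⟨c, hc⟩ := uniform (fun (r : Rule) c => r ∈ F → ∀ (E : Fm) (σ : ℕ → Fm)
    (M : ℕ), 1 ≤ M → E.size ≤ M → (∀ n ∈ r.rv, (σ n).size ≤ M) → ∀ Γ : Set Fm,
      (∀ p ∈ r.prem, imp E (p.subst σ) ∈ Γ) → Can F Γ [imp E (r.concl.subst σ)] (c * M))
    (by
      intro r c c' hcc h hr E σ M h1 h2 h3 Γ h4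
      exact (h hr E σ M h1 h2 h3 Γ h4).mono subset_rfl (Nat.mul_le_mul_right _ hcc)) F (by
      intro r hr
      obtain ⟨c, hc⟩ := rule_ded hF r hr
      exact ⟨c, fun _ => hc⟩)
  refine ⟨c, fun A k L hL => ?_⟩
  induction hL with
  | nil =>
    refine ⟨[], rfl, trivial, by simp, by simp, ?_⟩
    intro ρ E M _ _ Γ _
    simpa using (Can.nil : Can F Γ [] 0)
  | @rule k L B hL hB ih =>
    obtain ⟨Ds, h1, h2, h3, h3', h4⟩ := ih
    refine ⟨Ds, h1, h2, fun D hD => List.mem_cons_of_mem _ (h3 D hD), by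
      rw [psize_cons]; omega, ?_⟩
    intro ρ E M hE hsz Γ hΓ
    have hM : 1 ≤ M := (size_pos E).trans hE
    have h5 := h4 ρ E M hE (fun B hB => hsz B (List.mem_cons_of_mem _ hB)) Γ hΓ
    obtain ⟨r, hr, σ₀, hB1, hB2⟩ := hB
    set σ : ℕ → Fm := fun n => (σ₀ n).subst ρ with hσ
    have hB1' : B.subst ρ = r.concl.subst σ := by rw [hB1, subst_subst]
    have hp' : ∀ p : Fm, (p.subst σ₀).subst ρ = p.subst σ := fun p => by rw [subst_subst]
    have h6 := hc r hr hr E σ M hM hE (by
      intro n hn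
      simp only [Rule.rv, Finset.mem_union, Finset.mem_biUnion, List.mem_toFinset] at hn
      rcases hn with hn | ⟨p, hp, hn⟩
      · refine (size_le_subst hn).trans ?_
        rw [← hB1']; exact hsz B (by simp)
      · refine (size_le_subst hn).trans ?_
        rw [← hp']
        exact hsz _ (List.mem_cons_of_mem _ (hB2 p hp)))
      (Γ ∪ {B | B ∈ L.map (fun B => imp E (B.subst ρ))}) (by
      intro p hp
      right
      exact List.mem_map.2 ⟨_, hB2 p hp, by rw [hp']⟩)
    rw [← hB1'] at h6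
    intro L' hL' hΓL'
    obtain ⟨D, g1, g2, g3⟩ := h5 L' hL' hΓL'
    obtain ⟨D', g1', g2', g3'⟩ := h6 (D ++ L') g1 (by
      rintro C (hC | hC)
      · exact List.mem_append_right _ (hΓL' C hC)
      · exact g2 C hC)
    refine ⟨D' ++ D, by rwa [List.append_assoc], ?_, ?_⟩
    · intro C hC
      rw [List.append_assoc]
      simp only [List.map_cons, List.mem_cons] at hC
      rcases hC with rfl | hC
      · exact g2' _ (by simp)
      · exact List.mem_append_right _ (g2 C hC)
    · rw [psize_append, List.length_cons]; nlinarith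
  | @ext k L q φ hL hq1 hq2 hq3 ih =>
    obtain ⟨Ds, h1, h2, h3, h3', h4⟩ := ih
    refine ⟨iff (var q) φ :: Ds, by simp [h1], ⟨⟨q, φ, rfl, hq1, hq3, fun C hC => hq2 C (h3 C hC)⟩,
      h2⟩, ?_, ?_, ?_⟩
    · intro D hD
      rcases List.mem_cons.1 hD with rfl | hD
      · simp
      · exact List.mem_cons_of_mem _ (h3 D hD)
    · rw [psize_cons, psize_cons]; omega
    · intro ρ E M hE hsz Γ hΓ
      have h5 := h4 ρ E M hE (fun B hB => hsz B (List.mem_cons_of_mem _ hB)) Γ
        (fun D hD => hΓ D (List.mem_cons_of_mem _ hD))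
      have h6 : Can F Γ [imp E ((iff (var q) φ).subst ρ)] 0 := Can.hyp (hΓ _ (by simp))
      refine ((h6.append h5).sub (by simp)).mono subset_rfl ?_
      rw [List.length_cons]; nlinarith


end Pool.Agent.H586P.T_ded
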