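import Pool.Agent.H586P.Defs

set_option autoImplicit false

namespace Pool.Agent.H586P.T_disjF

open Pool.Agent.H586P Pool.Agent.H555R2.PF Pool.Agent.H555R2.PF.Fm

theorem t_disjF (F : List Rule) (hF : IsFrege F) : S_disjF F := by
  obtain ⟨c₁, h₁⟩ := schemaL hF [] (imp (var 0) (neg (neg (imp (var 1) (var 1))))) (by
    intro v h; simp [eval])
  obtain ⟨c₂, h₂⟩ := schemaL hF [imp (var 0) (neg (var 1)), imp (var 0) (neg (var 2))]
    (imp (var 0) (neg (or (var 1) (var 2)))) (by
    intro v h; simp [eval] at h ⊢; tauto)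
  obtain ⟨c₃, h₃⟩ := schemaL hF [imp (var 0) (neg (var 1))]
    (imp (var 0) (iff (var 1) (neg (imp (var 2) (var 2))))) (by
    intro v h; simp [eval, iff] at h ⊢; tauto)
  have key : ∀ (z : ℕ) (H : Fm) (l : List Fm) (M : ℕ), H.size ≤ M → (disjL z l).size ≤ M →
      ∀ Γ : Set Fm, (∀ X ∈ l, imp H (neg X) ∈ Γ) →
        Can F Γ [imp H (neg (disjL z l))] ((c₁ + c₂) * M * (l.length + 1)) := by
    intro z H l M hH
    have hM : 1 ≤ M := (size_pos H).trans hH
    induction l with
    | nil =>
      intro hs Γ _
      refine ((h₁ [H, var z] M hM ?_ Γ (by simp)).sub ?_).mono subset_rfl ?_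
      · intro Y hY; simp at hY; rcases hY with rfl | rfl
        exacts [hH, hM]
      · intro B hB
        simpa [subst, asg, disjL] using hB
      · simp only [List.length_nil]
        nlinarith [Nat.zero_le (c₂ * M)]
    | cons D l ih =>
      intro hs Γ hΓ
      have hs' : D.size ≤ M ∧ (disjL z l).size ≤ M := by
        simp only [disjL, size] at hs; omega
      have h4 := ih hs'.2 Γ (fun X hX => hΓ X (by simp [hX]))
      have h5 := h₂ [H, D, disjL z l] M hM (by
        intro Y hY; simp at hY; rcases hY with rfl | rfl | rfl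
        exacts [hH, hs'.1, hs'.2]) (Γ ∪ {B | B ∈ [imp H (neg (disjL z l))]}) (by
          intro A hA
          simp only [List.mem_cons, List.not_mem_nil, or_false] at hA
          rcases hA with rfl | rfl
          · left
            simpa [subst, asg] using hΓ D (by simp)
          · right; simp [subst, asg])
      refine (h4.cut h5).mono subset_rfl ?_
      simp only [List.length_cons]; nlinarith [Nat.zero_le (c₁ * M)]
  refine ⟨c₁ + c₂ + c₃, fun z H l M hH hs Γ hΓ => ?_⟩
  have hM : 1 ≤ M := (size_pos H).trans hH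
  have h4 := key z H l M hH hs Γ hΓ
  have h5 := h₃ [H, disjL z l, var z] M hM (by
    intro Y hY; simp at hY; rcases hY with rfl | rfl | rfl
    exacts [hH, hs, hM]) (Γ ∪ {B | B ∈ [imp H (neg (disjL z l))]}) (by
      intro A hA
      simp only [List.mem_singleton] at hA
      subst hA
      right; simp [subst, asg])
  refine ((h4.cut h5).sub ?_).mono subset_rfl ?_
  · intro B hB
    simpa [subst, asg, iff, top] using hB
  · nlinarith [Nat.zero_le (c₃ * M * l.length), Nat.zero_le (c₁ * M), Nat.zero_le (c₂ * M)]

end Pool.Agent.H586P.T_disjF
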