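import Pool.Agent.H586P.Defs

set_option autoImplicit false

namespace Pool.Agent.H586P.T_disjT

open Pool.Agent.H586P Pool.Agent.H555R2.PF Pool.Agent.H555R2.PF.Fm

theorem t_disjT (F : List Rule) (hF : IsFrege F) : S_disjT F := by
  obtain ⟨c₁, h₁⟩ := schemaL hF [imp (var 0) (var 1)] (imp (var 0) (or (var 1) (var 2))) (by
    intro v h; simp [eval] at h ⊢; tauto)
  obtain ⟨c₂, h₂⟩ := schemaL hF [imp (var 0) (var 2)] (imp (var 0) (or (var 1) (var 2))) (by
    intro v h; simp [eval] at h ⊢; tauto)
  obtain ⟨c₃, h₃⟩ := schemaL hF [imp (var 0) (var 1)]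
    (imp (var 0) (iff (var 1) (imp (var 2) (var 2)))) (by
    intro v h; simp [eval, iff] at h ⊢; tauto)
  have key : ∀ (z : ℕ) (H : Fm) (l : List Fm) (M : ℕ), H.size ≤ M → (disjL z l).size ≤ M →
      ∀ X ∈ l, ∀ Γ : Set Fm, imp H X ∈ Γ → Can F Γ [imp H (disjL z l)] ((c₁ + c₂) * M * l.length) := by
    intro z H l M hH
    have hM : 1 ≤ M := (size_pos H).trans hH
    induction l with
    | nil => intro _ X hX; simp at hX
    | cons D l ih =>
      intro hs X hX Γ hΓ
      have hs' : D.size ≤ M ∧ (disjL z l).size ≤ M := by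
        simp only [disjL, size] at hs; omega
      rcases List.mem_cons.1 hX with rfl | hX
      · refine (h₁ [H, X, disjL z l] M hM ?_ Γ ?_).mono subset_rfl ?_
        · intro Y hY; simp at hY; rcases hY with rfl | rfl | rfl
          exacts [hH, hs'.1, hs'.2]
        · intro A hA
          simp only [List.mem_singleton] at hA
          subst hA
          simpa [subst, asg] using hΓ
        · simp only [List.length_cons]
          calc c₁ * M ≤ (c₁ + c₂) * M := Nat.mul_le_mul_right _ (by omega)
            _ ≤ (c₁ + c₂) * M * (l.length + 1) := Nat.le_mul_of_pos_right _ (Nat.succ_pos _)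
      · have h4 := ih hs'.2 X hX Γ hΓ
        have h5 := h₂ [H, D, disjL z l] M hM (by
          intro Y hY; simp at hY; rcases hY with rfl | rfl | rfl
          exacts [hH, hs'.1, hs'.2]) (Γ ∪ {B | B ∈ [imp H (disjL z l)]}) (by
            intro A hA
            simp only [List.mem_singleton] at hA
            subst hA
            right; simp [subst, asg])
        refine (h4.cut h5).mono subset_rfl ?_
        simp only [List.length_cons]; nlinarith
  refine ⟨c₁ + c₂ + c₃, fun z H l M hH hs X hX Γ hΓ => ?_⟩
  have hM : 1 ≤ M := (size_pos H).trans hH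
  have h4 := key z H l M hH hs X hX Γ hΓ
  have h5 := h₃ [H, disjL z l, var z] M hM (by
    intro Y hY; simp at hY; rcases hY with rfl | rfl | rfl
    exacts [hH, hs, hM]) (Γ ∪ {B | B ∈ [imp H (disjL z l)]}) (by
      intro A hA
      simp only [List.mem_singleton] at hA
      subst hA
      right; simp [subst, asg])
  refine ((h4.cut h5).sub ?_).mono subset_rfl ?_
  · intro B hB
    simpa [subst, asg, iff, top] using hB
  · nlinarith [Nat.zero_le (c₃ * M * l.length), Nat.zero_le (c₁ * M), Nat.zero_le (c₂ * M)]

end Pool.Agent.H586P.T_disjT
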