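import Pool.Agent.H586P.Defs

set_option autoImplicit false

namespace Pool.Agent.H586P.T_dt

open Pool.Agent.H586P Pool.Agent.H555R2.PF Pool.Agent.H555R2.PF.Fm

theorem arith (m j : ℕ) : (m + 2) ^ (j + 1) + (m + 2) ^ (j + 2) + 1 ≤ (m + 3) ^ (j + 2) := by
  have h1 : (m + 2) ^ (j + 1) < (m + 3) ^ (j + 1) :=
    Nat.pow_lt_pow_left (by omega) (by omega)
  have h2 : (m + 3) ^ (j + 2) = (m + 3) ^ (j + 1) * (m + 2) + (m + 3) ^ (j + 1) := by ring
  have h3 : (m + 2) ^ (j + 2) = (m + 2) ^ (j + 1) * (m + 2) := by ring
  have h4 : (m + 2) ^ (j + 1) * (m + 2) ≤ (m + 3) ^ (j + 1) * (m + 2) :=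
    Nat.mul_le_mul_right _ h1.le
  omega

theorem lit_size (x : ℕ × Bool) : (lit x).size ≤ 2 := by
  unfold lit
  split_ifs <;> simp [size]

theorem psize_lit (P : List (ℕ × Bool)) : psize (P.map lit) ≤ 2 * P.length := by
  induction P with
  | nil => simp [psize]
  | cons x P ih =>
    rw [List.map_cons, psize_cons, List.length_cons]
    have := lit_size x
    omega

theorem t_dt (F : List Rule) (hF : IsFrege F) : S_dt F := by
  obtain ⟨c, hc⟩ := schemaL hF [imp (and (var 0) (var 1)) (var 2),
    imp (and (neg (var 0)) (var 1)) (var 2)] (imp (var 1) (var 2)) (by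
      intro v h; simp [eval] at h ⊢; tauto)
  refine ⟨c, fun z G V w K M base Γ hM hleaf => ?_⟩
  have key : ∀ (R : List ℕ) (P : List (ℕ × Bool)), (P.map Prod.fst).reverse ++ R = V →
      P.countP (fun x => x.2) ≤ w →
      Can F Γ [imp (conjL z (P.map lit ++ base)) G]
        ((K + c * M) * (R.length + 2) ^ (w - P.countP (fun x => x.2) + 1)) := by
    intro R
    induction R with
    | nil =>
      intro P hP hw
      refine (hleaf P [] hP (Or.inr ⟨rfl, hw⟩)).mono subset_rfl ?_
      calc K ≤ K + c * M := Nat.le_add_right _ _
        _ ≤ _ := Nat.le_mul_of_pos_right _ (by positivity)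
    | cons r R1 ih =>
      intro P hP hw
      rcases Nat.lt_or_ge (P.countP (fun x => x.2)) w with hlt | hge
      · have hP1 : (((r, true) :: P).map Prod.fst).reverse ++ R1 = V := by
          rw [← hP]; simp
        have hP2 : (((r, false) :: P).map Prod.fst).reverse ++ R1 = V := by
          rw [← hP]; simp
        have c1 : ((r, true) :: P).countP (fun x => x.2) = P.countP (fun x => x.2) + 1 := by
          simp
        have c2 : ((r, false) :: P).countP (fun x => x.2) = P.countP (fun x => x.2) := by
          simp
        have i1 := ih ((r, true) :: P) hP1 (by rw [c1]; omega)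
        have i2 := ih ((r, false) :: P) hP2 (by rw [c2]; omega)
        rw [c1] at i1
        rw [c2] at i2
        have hlen : P.length ≤ V.length := by
          have := congrArg List.length hP
          simp at this
          omega
        have hs : (conjL z (P.map lit ++ base)).size ≤ M := by
          rw [conjL_size, psize_append, List.length_append, List.length_map]
          rw [conjL_size] at hM
          have := psize_lit P
          omega
        have hGs : G.size ≤ M := by omega
        have hM1 : 1 ≤ M := le_trans (Fm.size_pos G) hGs
        have e1 : ((r, true) :: P).map lit ++ base = var r :: (P.map lit ++ base) := by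
          simp [lit]
        have e2 : ((r, false) :: P).map lit ++ base = neg (var r) :: (P.map lit ++ base) := by
          simp [lit]
        rw [e1] at i1
        rw [e2] at i2
        have i3 := i1.append i2
        have h5 := hc [var r, conjL z (P.map lit ++ base), G] M hM1 (by
          intro X hX; simp at hX; rcases hX with rfl | rfl | rfl
          · simpa [size] using hM1
          · exact hs
          · exact hGs) (Γ ∪ {B | B ∈ [imp (conjL z (var r :: (P.map lit ++ base))) G] ++
              [imp (conjL z (neg (var r) :: (P.map lit ++ base))) G]}) (by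
            intro A hA
            simp only [List.mem_cons, List.not_mem_nil, or_false] at hA
            rcases hA with rfl | rfl
            · right; simp [subst, asg, conjL]
            · right; simp [subst, asg, conjL])
        refine ((i3.cut h5).sub (by simp [subst, asg])).mono subset_rfl ?_
        obtain ⟨j, hj⟩ : ∃ j, w - P.countP (fun x => x.2) = j + 1 :=
          ⟨w - P.countP (fun x => x.2) - 1, by omega⟩
        have hj1 : w - (P.countP (fun x => x.2) + 1) + 1 = j + 1 := by omega
        rw [hj1, hj, List.length_cons]
        have ha := arith R1.length j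
        calc (K + c * M) * (R1.length + 2) ^ (j + 1) +
              (K + c * M) * (R1.length + 2) ^ (j + 1 + 1) + c * M
            ≤ (K + c * M) * (R1.length + 2) ^ (j + 1) +
              (K + c * M) * (R1.length + 2) ^ (j + 1 + 1) + (K + c * M) * 1 := by
              rw [mul_one]; omega
          _ = (K + c * M) * ((R1.length + 2) ^ (j + 1) + (R1.length + 2) ^ (j + 2) + 1) := by
              ring
          _ ≤ (K + c * M) * (R1.length + 3) ^ (j + 2) := Nat.mul_le_mul_left _ ha
          _ = (K + c * M) * (R1.length + 1 + 2) ^ (j + 1 + 1) := by
              rw [show R1.length + 1 + 2 = R1.length + 3 by omega]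
      · have hEq : P.countP (fun x => x.2) = w := le_antisymm hw hge
        refine (hleaf P (r :: R1) hP (Or.inl hEq)).mono subset_rfl ?_
        calc K ≤ K + c * M := Nat.le_add_right _ _
          _ ≤ _ := Nat.le_mul_of_pos_right _ (by positivity)
  have h := key V [] (by simp) (by simp)
  simpa using h

end Pool.Agent.H586P.T_dt
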