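import Pool.Agent.H586P.Defs

set_option autoImplicit false

namespace Pool.Agent.H586P.T_ev

open Pool.Agent.H586P Pool.Agent.H555R2.PF Pool.Agent.H555R2.PF.Fm

theorem t_ev (F : List Rule) (hF : IsFrege F) : S_ev F := by
  have h1 : ∀ b : Bool, ∃ c : ℕ, ∀ (l : List Fm) (M : ℕ), 1 ≤ M → (∀ X ∈ l, X.size ≤ M) →
      ∀ Γ : Set Fm, (∀ A ∈ [imp (var 0) (sg b (var 1))], A.subst (asg l) ∈ Γ) →
        Can F Γ [(imp (var 0) (sg (!b) (neg (var 1)))).subst (asg l)] (c * M) := fun b =>
    schemaL hF _ _ (by intro v h; cases b <;> simp [sg, eval] at h ⊢ <;> tauto)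
  have h2 : ∀ b b' : Bool, ∃ c : ℕ, ∀ (l : List Fm) (M : ℕ), 1 ≤ M → (∀ X ∈ l, X.size ≤ M) →
      ∀ Γ : Set Fm, (∀ A ∈ [imp (var 0) (sg b (var 1)), imp (var 0) (sg b' (var 2))],
        A.subst (asg l) ∈ Γ) →
        Can F Γ [(imp (var 0) (sg (b && b') (and (var 1) (var 2)))).subst (asg l)] (c * M) :=
    fun b b' => schemaL hF _ _ (by
      intro v h; cases b <;> cases b' <;> simp [sg, eval] at h ⊢ <;> tauto)
  have h3 : ∀ b b' : Bool, ∃ c : ℕ, ∀ (l : List Fm) (M : ℕ), 1 ≤ M → (∀ X ∈ l, X.size ≤ M) →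
      ∀ Γ : Set Fm, (∀ A ∈ [imp (var 0) (sg b (var 1)), imp (var 0) (sg b' (var 2))],
        A.subst (asg l) ∈ Γ) →
        Can F Γ [(imp (var 0) (sg (b || b') (or (var 1) (var 2)))).subst (asg l)] (c * M) :=
    fun b b' => schemaL hF _ _ (by
      intro v h; cases b <;> cases b' <;> simp [sg, eval] at h ⊢ <;> tauto)
  have h4 : ∀ b b' : Bool, ∃ c : ℕ, ∀ (l : List Fm) (M : ℕ), 1 ≤ M → (∀ X ∈ l, X.size ≤ M) →
      ∀ Γ : Set Fm, (∀ A ∈ [imp (var 0) (sg b (var 1)), imp (var 0) (sg b' (var 2))],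
        A.subst (asg l) ∈ Γ) →
        Can F Γ [(imp (var 0) (sg (!b || b') (imp (var 1) (var 2)))).subst (asg l)] (c * M) :=
    fun b b' => schemaL hF _ _ (by
      intro v h; cases b <;> cases b' <;> simp [sg, eval] at h ⊢ <;> tauto)
  choose c₁ h₁ using h1
  choose c₂ h₂ using h2
  choose c₃ h₃ using h3
  choose c₄ h₄ using h4
  have hsum : ∃ c : ℕ, (∀ b, c₁ b ≤ c) ∧ (∀ b b', c₂ b b' ≤ c) ∧ (∀ b b', c₃ b b' ≤ c) ∧
      (∀ b b', c₄ b b' ≤ c) := by
    refine ⟨∑ b, c₁ b + ∑ b, ∑ b', c₂ b b' + ∑ b, ∑ b', c₃ b b' + ∑ b, ∑ b', c₄ b b',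
      ?_, ?_, ?_, ?_⟩ <;> simp only [Fintype.sum_bool]
    · intro b; cases b <;> omega
    · intro b b'; cases b <;> cases b' <;> omega
    · intro b b'; cases b <;> cases b' <;> omega
    · intro b b'; cases b <;> cases b' <;> omega
  obtain ⟨c, hc1, hc2, hc3, hc4⟩ := hsum
  refine ⟨c, fun v U M hU C => ?_⟩
  have hM : 1 ≤ M := (size_pos U).trans hU
  induction C with
  | var n =>
    intro _ Γ hΓ
    exact (Can.hyp (hΓ n (by simp [vars]))).mono subset_rfl (Nat.zero_le _)
  | neg C ih =>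
    intro hs Γ hΓ
    simp only [size] at hs
    have r := ih (by omega) Γ hΓ
    have s := h₁ (ev v C) [U, C] M hM (by
      intro X hX; simp at hX; rcases hX with rfl | rfl
      exacts [hU, by omega]) (Γ ∪ {Y | Y ∈ [imp U (sg (ev v C) C)]}) (by
      intro Y hY; simp only [List.mem_singleton] at hY; subst hY
      right; simp [subst, asg, sg_subst])
    refine ((r.cut s).sub (by simp [subst, asg, sg_subst, ev])).mono subset_rfl ?_
    simp only [size]
    have := Nat.mul_le_mul_right M (hc1 (ev v C))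
    nlinarith
  | and A B iA iB =>
    intro hs Γ hΓ
    simp only [size] at hs
    have rA := iA (by omega) Γ (fun n hn => hΓ n (by simp [vars, hn]))
    have rB := iB (by omega) Γ (fun n hn => hΓ n (by simp [vars, hn]))
    have s := h₂ (ev v A) (ev v B) [U, A, B] M hM (by
      intro X hX; simp at hX; rcases hX with rfl | rfl | rfl
      exacts [hU, by omega, by omega])
      (Γ ∪ {Y | Y ∈ [imp U (sg (ev v A) A)] ++ [imp U (sg (ev v B) B)]}) (by
      intro Y hY; simp only [List.mem_cons, List.not_mem_nil, or_false] at hY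
      rcases hY with rfl | rfl <;> right <;> simp [subst, asg, sg_subst])
    refine (((rA.append rB).cut s).sub (by simp [subst, asg, sg_subst, ev])).mono subset_rfl ?_
    simp only [size]
    have := Nat.mul_le_mul_right M (hc2 (ev v A) (ev v B))
    nlinarith
  | or A B iA iB =>
    intro hs Γ hΓ
    simp only [size] at hs
    have rA := iA (by omega) Γ (fun n hn => hΓ n (by simp [vars, hn]))
    have rB := iB (by omega) Γ (fun n hn => hΓ n (by simp [vars, hn]))
    have s := h₃ (ev v A) (ev v B) [U, A, B] M hM (by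
      intro X hX; simp at hX; rcases hX with rfl | rfl | rfl
      exacts [hU, by omega, by omega])
      (Γ ∪ {Y | Y ∈ [imp U (sg (ev v A) A)] ++ [imp U (sg (ev v B) B)]}) (by
      intro Y hY; simp only [List.mem_cons, List.not_mem_nil, or_false] at hY
      rcases hY with rfl | rfl <;> right <;> simp [subst, asg, sg_subst])
    refine (((rA.append rB).cut s).sub (by simp [subst, asg, sg_subst, ev])).mono subset_rfl ?_
    simp only [size]
    have := Nat.mul_le_mul_right M (hc3 (ev v A) (ev v B))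
    nlinarith
  | imp A B iA iB =>
    intro hs Γ hΓ
    simp only [size] at hs
    have rA := iA (by omega) Γ (fun n hn => hΓ n (by simp [vars, hn]))
    have rB := iB (by omega) Γ (fun n hn => hΓ n (by simp [vars, hn]))
    have s := h₄ (ev v A) (ev v B) [U, A, B] M hM (by
      intro X hX; simp at hX; rcases hX with rfl | rfl | rfl
      exacts [hU, by omega, by omega])
      (Γ ∪ {Y | Y ∈ [imp U (sg (ev v A) A)] ++ [imp U (sg (ev v B) B)]}) (by
      intro Y hY; simp only [List.mem_cons, List.not_mem_nil, or_false] at hY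
      rcases hY with rfl | rfl <;> right <;> simp [subst, asg, sg_subst])
    refine (((rA.append rB).cut s).sub (by simp [subst, asg, sg_subst, ev])).mono subset_rfl ?_
    simp only [size]
    have := Nat.mul_le_mul_right M (hc4 (ev v A) (ev v B))
    nlinarith


end Pool.Agent.H586P.T_ev
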