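import Pool.Agent.H586P.Defs

set_option autoImplicit false

namespace Pool.Agent.H586P.T_fin

open Pool.Agent.H586P Pool.Agent.H555R2.PF Pool.Agent.H555R2.PF.Fm

theorem two_le_size_of_valid {A : Fm} (h : ∀ v, A.eval v) : 2 ≤ A.size := by
  cases A with
  | var n =>
    exfalso
    exact h (fun _ => False)
  | neg A =>
    have := size_pos A
    simp only [size]; omega
  | and A B =>
    have := size_pos A
    simp only [size]; omega
  | or A B =>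
    have := size_pos A
    simp only [size]; omega
  | imp A B =>
    have := size_pos A
    simp only [size]; omega

theorem arith1 (c s w b n : ℕ) (hs : 2 ≤ s) (hn : 2 ≤ n) (hw : 1 ≤ w) (C : ℕ)
    (hC : c + 10 ≤ C) :
    c * (s * w * 2 ^ b) ^ 8 * n ^ (w + 1) ≤ (s * 2 ^ b * n ^ w) ^ C := by
  have hb1 : 1 ≤ 2 ^ b := Nat.one_le_two_pow
  have hnw : 1 ≤ n ^ w := Nat.one_le_pow _ _ (by omega)
  have hwn : w ≤ n ^ w := le_trans (Nat.lt_two_pow_self).le (Nat.pow_le_pow_left hn w)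
  have hnn : n ≤ n ^ w := Nat.le_self_pow (by omega) n
  set X : ℕ := s * 2 ^ b * n ^ w with hX
  have hsX : s ≤ X := by
    calc s = s * 1 * 1 := by ring
      _ ≤ s * 2 ^ b * n ^ w := Nat.mul_le_mul (Nat.mul_le_mul_left _ hb1) hnw
  have hX2 : 2 ≤ X := le_trans hs hsX
  have h1 : c ≤ X ^ c := le_trans (Nat.lt_two_pow_self).le (Nat.pow_le_pow_left hX2 c)
  have h2 : s * w * 2 ^ b ≤ X := by
    calc s * w * 2 ^ b = s * 2 ^ b * w := by ring
      _ ≤ s * 2 ^ b * n ^ w := Nat.mul_le_mul_left _ hwn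
  have h3 : n ^ w ≤ X := by
    calc n ^ w = 1 * 1 * n ^ w := by ring
      _ ≤ s * 2 ^ b * n ^ w := Nat.mul_le_mul_right _ (Nat.mul_le_mul (by omega) hb1)
  have h4 : n ^ (w + 1) ≤ X ^ 2 := by
    calc n ^ (w + 1) = n ^ w * n := by ring
      _ ≤ X * X := Nat.mul_le_mul h3 (le_trans hnn h3)
      _ = X ^ 2 := by ring
  calc c * (s * w * 2 ^ b) ^ 8 * n ^ (w + 1) ≤ X ^ c * X ^ 8 * X ^ 2 :=
        Nat.mul_le_mul (Nat.mul_le_mul h1 (Nat.pow_le_pow_left h2 8)) h4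
    _ = X ^ (c + 10) := by ring
    _ ≤ X ^ C := Nat.pow_le_pow_right (by omega) hC

theorem arith2 (c s k n : ℕ) (hs : 2 ≤ s) (hn : 2 ≤ n) (hns : n ≤ s ^ 2) (hk : k ≤ s) :
    c * (s * (k / (Nat.sqrt (k * Nat.log 2 n) + 1) + 1) *
        2 ^ (Nat.sqrt (k * Nat.log 2 n) + 1)) ^ 8 *
        n ^ ((k / (Nat.sqrt (k * Nat.log 2 n) + 1) + 1) + 1) ≤
      s ^ (c + 42) * 2 ^ (10 * Nat.sqrt (k * Nat.log 2 n)) := by
  set l := Nat.log 2 n with hl
  set q := Nat.sqrt (k * l) with hq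
  set w0 := k / (q + 1) with hw0
  have hl1 : 1 ≤ l := by
    rw [hl]
    exact Nat.log_pos (by norm_num) hn
  have hn1 : n ≤ 2 ^ (l + 1) := (Nat.lt_pow_succ_log_self (by norm_num) n).le
  have hn2 : 2 ^ l ≤ n := Nat.pow_log_le_self 2 (by omega)
  have hkl : k * l < (q + 1) * (q + 1) := Nat.lt_succ_sqrt _
  have hw1 : w0 * (q + 1) ≤ k := Nat.div_mul_le_self k (q + 1)
  have hw2 : w0 * l < q + 1 := by
    by_contra hcon
    push Not at hcon
    have h1 : (q + 1) * (q + 1) ≤ (w0 * l) * (q + 1) := Nat.mul_le_mul_right _ hcon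
    have h2 : (w0 * l) * (q + 1) ≤ k * l := by
      calc (w0 * l) * (q + 1) = (w0 * (q + 1)) * l := by ring
        _ ≤ k * l := Nat.mul_le_mul_right _ hw1
    omega
  have hw3 : w0 ≤ k := Nat.div_le_self _ _
  have hw4 : w0 ≤ w0 * l := Nat.le_mul_of_pos_right _ (by omega)
  have hs0 : 1 ≤ s := by omega
  -- w ≤ s ^ 2
  have hw5 : w0 + 1 ≤ s ^ 2 := by nlinarith
  have hexp : (l + 1) * (w0 + 1 + 1) ≤ 2 * (q + 1) + 4 * l := by
    nlinarith
  have hnw : n ^ (w0 + 1 + 1) ≤ 2 ^ (2 * (q + 1)) * (s ^ 2) ^ 4 := by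
    calc n ^ (w0 + 1 + 1) ≤ (2 ^ (l + 1)) ^ (w0 + 1 + 1) := Nat.pow_le_pow_left hn1 _
      _ = 2 ^ ((l + 1) * (w0 + 1 + 1)) := by rw [← pow_mul]
      _ ≤ 2 ^ (2 * (q + 1) + 4 * l) := Nat.pow_le_pow_right (by norm_num) hexp
      _ = 2 ^ (2 * (q + 1)) * (2 ^ l) ^ 4 := by
        rw [pow_add, ← pow_mul, mul_comm 4 l]
      _ ≤ 2 ^ (2 * (q + 1)) * (s ^ 2) ^ 4 :=
        Nat.mul_le_mul_left _ (Nat.pow_le_pow_left (le_trans hn2 hns) 4)
  have hc : c ≤ s ^ c := le_trans (Nat.lt_two_pow_self).le (Nat.pow_le_pow_left hs c)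
  have h8 : (s * (w0 + 1) * 2 ^ (q + 1)) ^ 8 ≤ (s ^ 3 * 2 ^ (q + 1)) ^ 8 := by
    apply Nat.pow_le_pow_left
    apply Nat.mul_le_mul_right
    calc s * (w0 + 1) ≤ s * s ^ 2 := Nat.mul_le_mul_left _ hw5
      _ = s ^ 3 := by ring
  have h10 : 2 ^ 10 ≤ s ^ 10 := Nat.pow_le_pow_left hs 10
  calc c * (s * (w0 + 1) * 2 ^ (q + 1)) ^ 8 * n ^ (w0 + 1 + 1)
      ≤ s ^ c * (s ^ 3 * 2 ^ (q + 1)) ^ 8 * (2 ^ (2 * (q + 1)) * (s ^ 2) ^ 4) :=
        Nat.mul_le_mul (Nat.mul_le_mul hc h8) hnw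
    _ = s ^ (c + 32) * 2 ^ (10 * q) * 2 ^ 10 := by
        rw [mul_pow, ← pow_mul, ← pow_mul, ← pow_mul]
        rw [show 10 * q = 8 * q + 2 * q by ring, pow_add s c 32, pow_add 2 (8 * q) (2 * q)]
        rw [show (q + 1) * 8 = 8 * q + 8 by ring, show 2 * (q + 1) = 2 * q + 2 by ring, pow_add,
          pow_add]
        ring
    _ ≤ s ^ (c + 32) * 2 ^ (10 * q) * s ^ 10 := Nat.mul_le_mul_left _ h10
    _ = s ^ (c + 42) * 2 ^ (10 * q) := by
        rw [show c + 42 = (c + 32) + 10 by ring, pow_add s (c + 32) 10]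
        ring

theorem arith3 (c s k n : ℕ) (hs : 2 ≤ s) (hn : 2 ≤ n) (hns : n ≤ s ^ 2) (hk : k ≤ s) :
    s ^ (c + 42) * 2 ^ (10 * Nat.sqrt (k * Nat.log 2 n)) ≤
      2 ^ ((2 * c + 114) * Nat.sqrt (s * Nat.log 2 s)) := by
  set l := Nat.log 2 n with hl
  set lam := Nat.log 2 s with hlam
  set r := Nat.sqrt (s * lam) with hr
  have hlam1 : 1 ≤ lam := Nat.log_pos (by norm_num) hs
  have hs1 : s < 2 ^ (lam + 1) := Nat.lt_pow_succ_log_self (by norm_num) s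
  have hlams : lam ≤ s := Nat.log_le_self 2 s
  have hlr : lam ≤ r := by
    rw [hr, Nat.le_sqrt]
    exact Nat.mul_le_mul_right _ hlams
  have hl2 : l ≤ 3 * lam := by
    have h1 : n < 2 ^ (2 * lam + 2) := by
      calc n ≤ s ^ 2 := hns
        _ < (2 ^ (lam + 1)) ^ 2 := Nat.pow_lt_pow_left hs1 (by norm_num)
        _ = 2 ^ (2 * lam + 2) := by rw [← pow_mul]; congr 1; ring
    have h2 : l < 2 * lam + 2 := by
      rw [hl]
      exact Nat.log_lt_of_lt_pow (by omega) h1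
    omega
  have hr1 : 1 ≤ r := le_trans hlam1 hlr
  have hq : Nat.sqrt (k * l) ≤ 3 * r := by
    have h1 : k * l ≤ s * (3 * lam) := Nat.mul_le_mul hk hl2
    have h2 : s * lam < (r + 1) * (r + 1) := Nat.lt_succ_sqrt _
    have h3 : Nat.sqrt (k * l) < 2 * (r + 1) := by
      rw [Nat.sqrt_lt]
      nlinarith
    omega
  have h1 : s ^ (c + 42) ≤ 2 ^ ((2 * r) * (c + 42)) := by
    rw [pow_mul]
    apply Nat.pow_le_pow_left
    calc s ≤ 2 ^ (lam + 1) := hs1.le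
      _ ≤ 2 ^ (2 * r) := Nat.pow_le_pow_right (by norm_num) (by omega)
  have h2 : 2 ^ (10 * Nat.sqrt (k * l)) ≤ 2 ^ (30 * r) :=
    Nat.pow_le_pow_right (by norm_num) (by omega)
  calc s ^ (c + 42) * 2 ^ (10 * Nat.sqrt (k * l))
      ≤ 2 ^ ((2 * r) * (c + 42)) * 2 ^ (30 * r) := Nat.mul_le_mul h1 h2
    _ = 2 ^ ((2 * c + 114) * r) := by
        rw [← pow_add]
        congr 1
        ring

theorem t_fin (F : List Rule) (hF : IsFrege F) (h1 : S_val F) (h2 : S_kle) (h3 : S_main F) :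
    S_fin F := by
  obtain ⟨c, hc⟩ := h3
  refine ⟨2 * c + 114, ?_⟩
  intro A k L hE
  have hval : ∀ v, A.eval v := h1 A k L hE
  have hA2 : 2 ≤ A.size := two_le_size_of_valid hval
  have hAs : A.size ≤ psize (A :: L) := size_le_psize (List.mem_cons_self)
  have hs : 2 ≤ psize (A :: L) := le_trans hA2 hAs
  have hk : k ≤ psize (A :: L) := h2 F A k (A :: L) hE
  have hn : 2 ≤ A.vars.card + 2 := by omega
  have hns : A.vars.card + 2 ≤ psize (A :: L) ^ 2 := by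
    have := vars_card_le A
    nlinarith
  -- part 2
  obtain ⟨L2, hL2, hp2⟩ := hc A k L hE
    (k / (Nat.sqrt (k * Nat.log 2 (A.vars.card + 2)) + 1) + 1)
    (Nat.sqrt (k * Nat.log 2 (A.vars.card + 2)) + 1) (Nat.le_add_left 1 _) (Nat.le_add_left 1 _) (by
      have h := Nat.div_add_mod k (Nat.sqrt (k * Nat.log 2 (A.vars.card + 2)) + 1)
      have h' := Nat.mod_lt k (Nat.succ_pos (Nat.sqrt (k * Nat.log 2 (A.vars.card + 2))))
      rw [add_mul, one_mul, mul_comm (k / _)]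
      simp only [Nat.succ_eq_add_one] at h'
      omega)
  have hp2' := le_trans hp2 (arith2 c (psize (A :: L)) k (A.vars.card + 2) hs hn hns hk)
  refine ⟨?_, ⟨L2, hL2, le_trans hp2' ?_⟩, ⟨L2, hL2, le_trans hp2'
    (arith3 c (psize (A :: L)) k (A.vars.card + 2) hs hn hns hk)⟩⟩
  · intro w b hw hb hkwb
    obtain ⟨L', hL', hp⟩ := hc A k L hE w b hw hb hkwb
    exact ⟨L', hL', le_trans hp (arith1 c _ w b _ hs hn hw _ (by omega))⟩
  · apply Nat.mul_le_mul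
    · exact Nat.pow_le_pow_right (by omega) (by omega)
    · exact Nat.pow_le_pow_right (by norm_num) (Nat.mul_le_mul_right _ (by omega))

end Pool.Agent.H586P.T_fin
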