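import Pool.Agent.H586P.Defs

set_option autoImplicit false

namespace Pool.Agent.H586P.T_flip

open Pool.Agent.H586P Pool.Agent.H555R2.PF Pool.Agent.H555R2.PF.Fm

theorem vars_flip (A : Fm) : (flip A).vars = A.vars := by
  unfold flip
  induction A with
  | var n => rfl
  | neg A ih => simp only [subst, vars, ih]
  | and A B iA iB => simp only [subst, vars, iA, iB]
  | or A B iA iB => simp only [subst, vars, iA, iB]
  | imp A B iA iB => simp only [subst, vars, iA, iB]

theorem flip_rename (f : ℕ → ℕ) (A : Fm) : flip (A.rename f) = (flip A).rename f := by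
  unfold flip rename
  rw [subst_subst, subst_subst]
  rfl

theorem step_flip {F : List Rule} {L : List Fm} {B : Fm} (h : FregeStep F L B) :
    FregeStep F (L.map flip) (flip B) := by
  obtain ⟨r, hr, σ, h1, h2⟩ := h
  refine ⟨r, hr, fun n => (σ n).subst (fun n => neg (var n)), ?_, ?_⟩
  · rw [h1, flip, subst_subst]
  · intro p hp
    rw [← subst_subst]
    exact List.mem_map.2 ⟨_, h2 p hp, rfl⟩

theorem proof_flip {F : List Rule} {L : List Fm} (h : PermProof F L) :
    PermProof F (L.map flip) := by
  induction h with
  | nil => exact PermProof.nil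
  | @rule L B hL hB ih => exact PermProof.rule ih (step_flip hB)
  | @perm L B hL hB ih =>
    obtain ⟨A, hA, π, hπ, h2⟩ := hB
    refine PermProof.perm ih ⟨flip A, List.mem_map.2 ⟨A, hA, rfl⟩, π, ?_, ?_⟩
    · intro n hn
      rw [vars_flip] at hn
      exact hπ n hn
    · rw [h2, flip_rename]

theorem weaken {F : List Rule} {D L : List Fm} (h : PermProof F D) (hL : PermProof F L) :
    PermProof F (D ++ L) := by
  induction h with
  | nil => exact hL
  | @rule D B hD hB ih =>
    exact PermProof.rule ih (hB.mono fun C hC => List.mem_append_left _ hC)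
  | @perm D B hD hB ih =>
    obtain ⟨A, hA, π, hπ, h2⟩ := hB
    exact PermProof.perm ih ⟨A, List.mem_append_left _ hA, π, hπ, h2⟩

theorem psize_flip (L : List Fm) : psize (L.map flip) ≤ 2 * psize L := by
  induction L with
  | nil => simp [psize]
  | cons A L ih =>
    rw [List.map_cons, psize_cons, psize_cons]
    have h : (flip A).size ≤ A.size * 2 :=
      size_subst_le (by norm_num) (fun n _ => by simp [size])
    omega

theorem t_flip (F : List Rule) : S_flip F := by
  intro G m h Γ L hL _
  obtain ⟨D, h1, h2, h3⟩ := h [] PermProof.nil (by simp)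
  rw [List.append_nil] at h1 h2
  refine ⟨D.map flip, weaken (proof_flip h1) hL, ?_, ?_⟩
  · intro B hB
    obtain ⟨C, hC, rfl⟩ := List.mem_map.1 hB
    exact List.mem_append_left _ (List.mem_map.2 ⟨C, h2 C hC, rfl⟩)
  · exact (psize_flip D).trans (Nat.mul_le_mul_left _ h3)

end Pool.Agent.H586P.T_flip
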