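import Pool.Agent.H586P.Defs

set_option autoImplicit false

namespace Pool.Agent.H586P.T_ht

open Pool.Agent.H586P Pool.Agent.H555R2.PF Pool.Agent.H555R2.PF.Fm

theorem cutp_sub (b k j : ℕ) : cutp b k (j + 1) - cutp b k j ≤ b := by
  unfold cutp
  have : (j + 1) * b = j * b + b := by ring
  rw [this]
  omega

theorem length_le_conjL (z : ℕ) (Ds : List Fm) : Ds.length ≤ (conjL z Ds).size := by
  induction Ds with
  | nil => simp
  | cons D Ds ih =>
    have := Fm.size_pos D
    simp only [List.length_cons, conjL, size]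
    omega

theorem t_ht (F : List Rule) (hF : IsFrege F) (h1 : S_cintro F) : S_ht F := by
  obtain ⟨c₁, h₁⟩ := h1
  obtain ⟨c₂, h₂⟩ := schemaL hF [] (imp (var 0) (imp (var 1) (var 1))) (by
    intro v _; simp [eval])
  obtain ⟨c₃, h₃⟩ := schemaL hF [imp (var 0) (var 1), imp (var 0) (var 2), imp (var 0) (var 3)]
    (imp (var 0) (and (and (var 1) (var 2)) (var 3))) (by
    intro v h; simp [eval] at h ⊢; tauto)
  refine ⟨2 * c₁ + c₂ + c₃, fun z u y b k U M m => ?_⟩
  induction m with
  | zero =>
    intro j hU _ Γ _ _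
    have hM : 1 ≤ M := (Fm.size_pos U).trans hU
    refine (h₂ [U, var z] M hM ?_ Γ (by simp)).mono subset_rfl ?_
    · intro X hX; simp at hX
      rcases hX with rfl | rfl
      exacts [hU, by simpa [size] using hM]
    · nlinarith [Nat.mul_le_mul hM hM, Nat.zero_le (c₂ * M), Nat.mul_le_mul_left (c₂ * M) hM,
        Nat.zero_le ((2 * c₁ + c₃) * M * M)]
  | succ m ih =>
    intro j hU hs Γ hu hy
    have hM : 1 ≤ M := (Fm.size_pos U).trans hU
    have hs0 : (HT z u y b k m (j + 1)).size ≤ M ∧
        (conjL z ((List.range (2 ^ (cutp b k (j + 1) - cutp b k j))).map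
          fun β => neg (var (y (j * 2 ^ b + β))))).size ≤ M := by
      simp only [HT, tokH, size] at hs
      omega
    have s1 := ih (j + 1) hU hs0.1 Γ (fun i h1 h2 => hu i (by omega) (by omega))
      (fun i hi => hy i (by
        have : j + 1 + m = j + (m + 1) := by ring
        rwa [this] at hi))
    have s2 := h₁ z U ((List.range (2 ^ (cutp b k (j + 1) - cutp b k j))).map
          fun β => neg (var (y (j * 2 ^ b + β)))) M hU hs0.2 Γ (by
        intro D hD
        simp only [List.mem_map, List.mem_range] at hD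
        obtain ⟨β, hβ, rfl⟩ := hD
        apply hy
        have e1 : (2:ℕ) ^ (cutp b k (j + 1) - cutp b k j) ≤ 2 ^ b :=
          Nat.pow_le_pow_right (by norm_num) (cutp_sub b k j)
        have e2 : (j + (m + 1)) * 2 ^ b = j * 2 ^ b + 2 ^ b + m * 2 ^ b := by ring
        rw [e2]
        have : 0 ≤ m * 2 ^ b := Nat.zero_le _
        omega)
    have s3 : Can F Γ [imp U (var (u j))] 0 := Can.hyp (hu j le_rfl (by omega))
    have s4 := h₃ [U, var (u j), conjL z ((List.range (2 ^ (cutp b k (j + 1) - cutp b k j))).map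
          fun β => neg (var (y (j * 2 ^ b + β)))), HT z u y b k m (j + 1)] M hM (by
        intro X hX; simp at hX
        rcases hX with rfl | rfl | rfl | rfl
        exacts [hU, by simpa [size] using hM, hs0.2, hs0.1])
      (Γ ∪ {B | B ∈ [imp U (var (u j))] ++ ([imp U (conjL z
        ((List.range (2 ^ (cutp b k (j + 1) - cutp b k j))).map
          fun β => neg (var (y (j * 2 ^ b + β)))))] ++ [imp U (HT z u y b k m (j + 1))])}) (by
        intro A hA
        right
        simp only [List.mem_cons, List.not_mem_nil, or_false] at hA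
        rcases hA with rfl | rfl | rfl <;> simp [subst, asg])
    have s5 := (s3.append (s2.append s1)).cut s4
    refine (s5.sub (by simp [subst, asg, HT, tokH])).mono subset_rfl ?_
    have hl := (length_le_conjL z ((List.range (2 ^ (cutp b k (j + 1) - cutp b k j))).map
          fun β => neg (var (y (j * 2 ^ b + β))))).trans hs0.2
    set l := ((List.range (2 ^ (cutp b k (j + 1) - cutp b k j))).map
          fun β => neg (var (y (j * 2 ^ b + β)))).length
    have e1 : c₁ * M * (l + 1) ≤ 2 * c₁ * M * M := by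
      have : l + 1 ≤ 2 * M := by omega
      calc c₁ * M * (l + 1) ≤ c₁ * M * (2 * M) := Nat.mul_le_mul_left _ this
        _ = 2 * c₁ * M * M := by ring
    have e2 : c₃ * M ≤ c₃ * M * M := Nat.le_mul_of_pos_right _ (by omega)
    have e3 : (2 * c₁ + c₂ + c₃) * M * M * (m + 1 + 1) =
      (2 * c₁ + c₂ + c₃) * M * M * (m + 1) + (2 * c₁ * M * M + c₂ * M * M + c₃ * M * M) := by ring
    rw [e3]
    omega

end Pool.Agent.H586P.T_ht
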