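import Pool.Agent.H586P.Defs

set_option autoImplicit false

namespace Pool.Agent.H586P.T_htpure

open Pool.Agent.H586P Pool.Agent.H555R2.PF Pool.Agent.H555R2.PF.Fm

theorem tokH_size (z u : ℕ) (y : ℕ → ℕ) (m : ℕ) (H0 : Fm) :
    (tokH z u y m H0).size = 3 * m + 6 + H0.size := by
  have e : (List.range m).map (fun β => neg (var (y β))) =
      ((List.range m).map y).map (fun b => neg (var b)) := by
    rw [List.map_map]; rfl
  simp only [tokH, size, conjL_size]
  rw [e, psize_negvar]
  simp only [List.length_map, List.length_range]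
  ring

theorem cutp_le (b k j : ℕ) : cutp b k (j + 1) - cutp b k j ≤ b := by
  unfold cutp
  have : (j + 1) * b = j * b + b := by ring
  rw [this]
  omega

theorem t_htsize : S_htsize := by
  intro z u y b k m
  induction m with
  | zero =>
    intro j
    simp [HT, top, size]
  | succ m ih =>
    intro j
    rw [HT, tokH_size]
    have h1 := ih (j + 1)
    have h2 : 2 ^ (cutp b k (j + 1) - cutp b k j) ≤ 2 ^ b :=
      Nat.pow_le_pow_right (by norm_num) (cutp_le b k j)
    have h3 : 1 ≤ 2 ^ b := Nat.one_le_two_pow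
    have h4 : (m + 1) * (9 * 2 ^ b) = m * (9 * 2 ^ b) + 9 * 2 ^ b := by ring
    omega

theorem t_htvars : S_htvars := by
  intro z u y b k m
  induction m with
  | zero =>
    intro j n hn
    left
    simpa [HT, top, vars] using hn
  | succ m ih =>
    intro j n hn
    simp only [HT, tokH, vars, Finset.mem_union, Finset.mem_singleton] at hn
    rcases hn with (hn | hn) | hn
    · exact Or.inr (Or.inl ⟨j, le_rfl, by omega, hn⟩)
    · rcases conjL_vars hn with h | ⟨D, hD, h⟩
      · exact Or.inl h
      · obtain ⟨β, hβ, rfl⟩ := List.mem_map.1 hD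
        rw [List.mem_range] at hβ
        simp only [vars, Finset.mem_singleton] at h
        have h2 : 2 ^ (cutp b k (j + 1) - cutp b k j) ≤ 2 ^ b :=
          Nat.pow_le_pow_right (by norm_num) (cutp_le b k j)
        refine Or.inr (Or.inr ⟨j * 2 ^ b + β, by omega, ?_, h⟩)
        have h5 : (j + (m + 1)) * 2 ^ b = j * 2 ^ b + 2 ^ b + m * 2 ^ b := by ring
        rw [h5]
        have := Nat.zero_le (m * 2 ^ b)
        omega
    · rcases ih (j + 1) n hn with h | ⟨i, h1, h2, h3⟩ | ⟨i, h1, h2, h3⟩
      · exact Or.inl h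
      · exact Or.inr (Or.inl ⟨i, by omega, by omega, h3⟩)
      · refine Or.inr (Or.inr ⟨i, ?_, ?_, h3⟩)
        · have : j * 2 ^ b ≤ (j + 1) * 2 ^ b := Nat.mul_le_mul_right _ (by omega)
          omega
        · have : (j + 1 + m) * 2 ^ b = (j + (m + 1)) * 2 ^ b := by ring
          omega

end Pool.Agent.H586P.T_htpure
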