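import Pool.Agent.H586P.Defs

/-! Task iter (helper196): elimination of all blocks. -/

set_option autoImplicit false

namespace Pool.Agent.H586P.T_iter

open Pool.Agent.H586P Pool.Agent.H555R2.PF Pool.Agent.H555R2.PF.Fm

theorem mem_extL {q : ℕ → ℕ} {φ : ℕ → Fm} {m : ℕ} {D : Fm} :
    D ∈ extL q φ m ↔ ∃ i < m, D = iff (var (q i)) (φ i) := by
  induction m with
  | zero => simp [extL]
  | succ m ih =>
    simp only [extL, List.mem_cons, ih]
    constructor
    · rintro (h | ⟨i, hi, h⟩)
      · exact ⟨m, by omega, h⟩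
      · exact ⟨i, by omega, h⟩
    · rintro ⟨i, hi, h⟩
      by_cases him : i = m
      · left; rw [h, him]
      · right; exact ⟨i, by omega, h⟩

theorem mem_conjL {z n : ℕ} {Ds : List Fm} (h : n = z ∨ ∃ D ∈ Ds, n ∈ D.vars) :
    n ∈ (conjL z Ds).vars := by
  induction Ds with
  | nil => simpa [conjL, vars] using h
  | cons D Ds ih =>
    simp only [conjL, vars, Finset.mem_union]
    rcases h with h | ⟨D', hD', h⟩
    · exact Or.inr (ih (Or.inl h))
    · rcases List.mem_cons.1 hD' with rfl | hD'
      · exact Or.inl h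
      · exact Or.inr (ih (Or.inr ⟨D', hD', h⟩))

theorem vars_mono {z : ℕ} {A : Fm} {q : ℕ → ℕ} {φ : ℕ → Fm} {i k n : ℕ} (hik : i ≤ k)
    (h : n ∈ (imp (conjL z (extL q φ i)) A).vars) : n ∈ (imp (conjL z (extL q φ k)) A).vars := by
  simp only [vars, Finset.mem_union] at h ⊢
  rcases h with h | h
  · left
    apply mem_conjL
    rcases conjL_vars h with h | ⟨D, hD, h⟩
    · exact Or.inl h
    · obtain ⟨i', hi', rfl⟩ := mem_extL.1 hD
      exact Or.inr ⟨_, mem_extL.2 ⟨i', by omega, rfl⟩, h⟩
  · exact Or.inr h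

theorem size_mono {z : ℕ} {A : Fm} {q : ℕ → ℕ} {φ : ℕ → Fm} {i k : ℕ} (hik : i ≤ k) :
    (imp (conjL z (extL q φ i)) A).size ≤ (imp (conjL z (extL q φ k)) A).size := by
  have key : ∀ d, (conjL z (extL q φ i)).size ≤ (conjL z (extL q φ (i + d))).size := by
    intro d
    induction d with
    | zero => exact le_rfl
    | succ d ih =>
      have h1 : (conjL z (extL q φ (i + (d + 1)))).size =
          (iff (var (q (i + d))) (φ (i + d))).size + (conjL z (extL q φ (i + d))).size + 1 := rfl
      omega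
  have h := key (k - i)
  rw [Nat.add_sub_cancel' hik] at h
  simp only [size]
  omega

/-- `q i` does not occur in the first `i' ≤ i` axioms -/
theorem fresh {z : ℕ} {A : Fm} {k : ℕ} {q : ℕ → ℕ} {φ : ℕ → Fm} (hg : Good A k q φ)
    (hzq : ∀ i < k, q i ≠ z) {i i' : ℕ} (hi : i < k) (hii : i' ≤ i)
    (h : q i ∈ (imp (conjL z (extL q φ i')) A).vars) : False := by
  simp only [vars, Finset.mem_union] at h
  rcases h with h | h
  · rcases conjL_vars h with h | ⟨D, hD, h⟩
    · exact hzq i hi h
    · obtain ⟨l, hl, rfl⟩ := mem_extL.1 hD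
      simp only [iff, vars, Finset.mem_union, Finset.mem_singleton] at h
      have h1 := hg.2.1 i hi l (by omega)
      have h2 := hg.2.2 i hi l (by omega)
      tauto
  · exact hg.1 i hi h

theorem dec_vars {z r t n : ℕ} {h : ℕ → ℕ} (hn : n ∈ (dec z r h t).vars) :
    n = z ∨ ∃ β, n = h β := by
  unfold dec at hn
  rcases disjL_vars hn with h1 | ⟨D, hD, h1⟩
  · exact Or.inl h1
  · rw [List.mem_map] at hD
    obtain ⟨β, _, rfl⟩ := hD
    simp only [vars, Finset.mem_singleton] at h1
    exact Or.inr ⟨β, h1⟩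

theorem bf (h2 : S_htsize) (h3 : S_htvars) {z : ℕ} {A : Fm} {k : ℕ} {q : ℕ → ℕ} {φ : ℕ → Fm}
    {w b : ℕ} {σ : ℕ → Fm} {h : ℕ → ℕ → ℕ} {u y : ℕ → ℕ} {m M : ℕ}
    (H : IT z A k q φ w b σ h u y m M) (m1 j : ℕ) (hj : j + 1 + m1 = w) :
    BF z A k q φ (cutp b k j) (cutp b k (j + 1) - cutp b k j) σ (h j) (u j)
      (fun β => y (j * 2 ^ b + β)) (HT z u y b k m1 (j + 1)) m M := by
  have hjw : j < w := by omega
  have hcm : cutp b k j ≤ cutp b k (j + 1) := by
    unfold cutp
    have : j * b ≤ (j + 1) * b := Nat.mul_le_mul_right _ (by omega)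
    omega
  have hck : cutp b k (j + 1) ≤ k := by unfold cutp; omega
  have hcj : cutp b k j ≤ j * b := by unfold cutp; omega
  set r := cutp b k (j + 1) - cutp b k j with hr
  have hsum : cutp b k j + r = cutp b k (j + 1) := by omega
  have hrb : r ≤ b := by
    rw [hr]
    unfold cutp
    have : (j + 1) * b = j * b + b := by ring
    omega
  have h2r : 2 ^ r ≤ 2 ^ b := Nat.pow_le_pow_right (by norm_num) hrb
  have hidx : ∀ β < 2 ^ r, j * 2 ^ b + β < (j + 1) * 2 ^ b := by
    intro β hβ
    have : (j + 1) * 2 ^ b = j * 2 ^ b + 2 ^ b := by ring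
    omega
  have hidw : (j + 1) * 2 ^ b ≤ w * 2 ^ b := Nat.mul_le_mul_right _ (by omega)
  have hyid : ∀ β < 2 ^ r, j * 2 ^ b + β < w * 2 ^ b := fun β hβ => (hidx β hβ).trans_le hidw
  refine
    { good := H.good
      zq := H.zq
      le := by omega
      hdec := ?_
      σz := H.σz
      oth := ?_
      hyp := ?_
      hinj := fun i _ i' _ hh => (H.hinj j i j i' hh).2
      yinj := ?_
      hu := fun β hβ => ⟨H.hu j hjw j β, H.yu j hjw _ (hyid β hβ)⟩
      hy := fun β _ γ hγ => H.hy j β _ (hyid γ hγ)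
      zf := ⟨H.zu j hjw, fun β hβ => ⟨H.zh j β, H.zy _ (hyid β hβ)⟩⟩
      m4 := H.m4
      σm := H.σm
      M1 := ?_ }
  · intro t ht
    have hlt : cutp b k j < cutp b k (j + 1) := by omega
    have hjb : cutp b k j = j * b := by
      unfold cutp at hlt ⊢
      omega
    have hb1 := H.b1
    have e1 : (cutp b k j + t) / b = j := by
      rw [hjb, Nat.mul_comm, Nat.mul_add_div (by omega), Nat.div_eq_of_lt (by omega), Nat.add_zero]
    have e2 : (cutp b k j + t) % b = t := by
      rw [hjb, Nat.mul_comm, Nat.mul_add_mod, Nat.mod_eq_of_lt (by omega)]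
    have := H.hdec (cutp b k j + t) (by omega)
    rw [e1, e2] at this
    exact this
  · intro n hn hnq
    rw [hsum] at hn
    by_cases hq : ∃ i < k, n = q i
    · obtain ⟨i, hi, rfl⟩ := hq
      by_cases h4 : i < cutp b k j
      · have hij : i / b ≠ j := by
          have : i / b < j := by
            rw [Nat.div_lt_iff_lt_mul (by have := H.b1; omega)]
            omega
          omega
        have hv : ∀ n' ∈ (σ (q i)).vars, n' = z ∨ ∃ β, n' = h (i / b) β := by
          intro n' hn'
          rw [H.hdec i hi] at hn'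
          exact dec_vars hn'
        refine ⟨fun hh => ?_, fun β hβ => ⟨fun hh => ?_, fun hh => ?_⟩⟩
        · rcases hv _ hh with h5 | ⟨β', h5⟩
          · exact H.zu j hjw h5.symm
          · exact H.hu j hjw _ _ h5.symm
        · rcases hv _ hh with h5 | ⟨β', h5⟩
          · exact H.zh j β h5.symm
          · exact hij (H.hinj _ _ _ _ h5).1.symm
        · rcases hv _ hh with h5 | ⟨β', h5⟩
          · exact H.zy _ (hyid β hβ) h5.symm
          · exact H.hy _ _ _ (hyid β hβ) h5.symm
      · by_cases h5 : i < cutp b k (j + 1)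
        · exfalso
          apply hnq (i - cutp b k j) (by omega)
          congr 1
          omega
        · exact (fresh H.good H.zq hi (by omega) hn).elim
    · push Not at hq
      obtain ⟨o1, o2, o3⟩ := H.oth n (vars_mono hck hn) hq
      exact ⟨o1 j hjw, fun β hβ => ⟨o2 j β, o3 _ (hyid β hβ)⟩⟩
  · have hv := h3 z u y b k m1 (j + 1)
    refine ⟨fun hh => ?_, fun β hβ => ⟨fun hh => ?_, fun hh => ?_⟩⟩
    · rcases hv _ hh with h5 | ⟨i, i1, i2, h5⟩ | ⟨i, i1, i2, h5⟩
      · exact H.zu j hjw h5.symm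
      · have := H.uinj j hjw i (by omega) h5
        omega
      · rw [hj] at i2
        exact H.yu j hjw i i2 h5.symm
    · rcases hv _ hh with h5 | ⟨i, i1, i2, h5⟩ | ⟨i, i1, i2, h5⟩
      · exact H.zh j β h5.symm
      · exact H.hu i (by omega) _ _ h5
      · rw [hj] at i2
        exact H.hy _ _ i i2 h5
    · rcases hv _ hh with h5 | ⟨i, i1, i2, h5⟩ | ⟨i, i1, i2, h5⟩
      · exact H.zy _ (hyid β hβ) h5.symm
      · exact H.yu i (by omega) _ (hyid β hβ) h5
      · rw [hj] at i2
        have h6 := H.yinj _ (hyid β hβ) i i2 h5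
        have h7 := hidx β hβ
        omega
  · intro i hi i' hi' hh
    have := H.yinj _ (hyid i hi) _ (hyid i' hi') hh
    omega
  · have s1 := size_mono (z := z) (A := A) (q := q) (φ := φ) hck
    have s2 := h2 z u y b k (m1 + 1) j
    have s3 : HT z u y b k (m1 + 1) j = tokH z (u j) (fun β => y (j * 2 ^ b + β)) (2 ^ r)
        (HT z u y b k m1 (j + 1)) := rfl
    rw [s3] at s2
    have s4 := H.M1
    have s5 := Nat.mul_le_mul_right m s1
    have s6 : (m1 + 1) * (9 * 2 ^ b) + 9 * 2 ^ b ≤ (w + 1) * (9 * 2 ^ b) := by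
      calc (m1 + 1) * (9 * 2 ^ b) + 9 * 2 ^ b = (m1 + 1 + 1) * (9 * 2 ^ b) := by ring
        _ ≤ (w + 1) * (9 * 2 ^ b) := Nat.mul_le_mul_right _ (by omega)
    have s7 : 1 ≤ 2 ^ b := Nat.one_le_two_pow
    rw [hsum]
    omega

theorem t_iter (F : List Rule) (hF : IsFrege F) (h1 : S_block F) (h2 : S_htsize)
    (h3 : S_htvars) : S_iter F := by
  obtain ⟨c0, h0⟩ := schemaL hF [var 0] (imp (imp (var 1) (var 1)) (var 0)) (by
    intro v h; simp [eval] at h ⊢; tauto)
  obtain ⟨c1, h1⟩ := h1
  refine ⟨c0 + c1, ?_⟩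
  intro z A k q φ w b σ h u y m M H Γ hΓ
  have hM : 1 ≤ M := by have := H.M1; omega
  have hTk : ((imp (conjL z (extL q φ k)) A).subst σ).size ≤ M := by
    have s1 := size_subst_le (σ := σ) (M := m) (by have := H.m4; omega)
      (A := imp (conjL z (extL q φ k)) A) (fun n _ => H.σm n)
    have s2 := H.M1
    omega
  have key : ∀ m1, m1 ≤ w → Can F Γ [imp (HT z u y b k m1 (w - m1))
      ((imp (conjL z (extL q φ (cutp b k (w - m1)))) A).subst σ)]
      (c0 * M + m1 * (c1 * M * M * 4 ^ b)) := by
    intro m1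
    induction m1 with
    | zero =>
      intro _
      have e1 : cutp b k (w - 0) = k := by
        unfold cutp
        have := H.kwb
        simp only [Nat.sub_zero]
        omega
      rw [e1]
      have g := h0 [(imp (conjL z (extL q φ k)) A).subst σ, var z] M hM (by
        intro X hX
        simp only [List.mem_cons, List.not_mem_nil, or_false] at hX
        rcases hX with rfl | rfl
        · exact hTk
        · simpa [size] using hM) Γ (by
        intro Y hY
        simp only [List.mem_singleton] at hY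
        subst hY
        exact hΓ)
      exact (g.sub (by
        intro B hB
        simp only [List.mem_singleton] at hB
        subst hB
        simp [HT, top, subst, asg])).mono (Set.Subset.refl _) (by omega)
    | succ m1 ih =>
      intro hm
      have g := ih (by omega)
      set j := w - (m1 + 1) with hj
      have hj1 : w - m1 = j + 1 := by omega
      rw [hj1] at g
      have hcm : cutp b k j ≤ cutp b k (j + 1) := by
        unfold cutp
        have : j * b ≤ (j + 1) * b := Nat.mul_le_mul_right _ (by omega)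
        omega
      have hsum : cutp b k j + (cutp b k (j + 1) - cutp b k j) = cutp b k (j + 1) := by omega
      have g2 := h1 z A k q φ (cutp b k j) (cutp b k (j + 1) - cutp b k j) σ (h j) (u j)
        (fun β => y (j * 2 ^ b + β)) (HT z u y b k m1 (j + 1)) m M
        (bf h2 h3 H m1 j (by omega))
        (Γ ∪ {B | B ∈ [imp (HT z u y b k m1 (j + 1))
          ((imp (conjL z (extL q φ (cutp b k (j + 1)))) A).subst σ)]}) (by
          rw [hsum]
          exact Or.inr (by simp))
      have g3 := g.cut g2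
      have hrb : cutp b k (j + 1) - cutp b k j ≤ b := by
        unfold cutp
        have : (j + 1) * b = j * b + b := by ring
        omega
      have h4r : 4 ^ (cutp b k (j + 1) - cutp b k j) ≤ 4 ^ b :=
        Nat.pow_le_pow_right (by norm_num) hrb
      refine g3.mono (Set.Subset.refl _) ?_
      have h5 : c1 * M * M * 4 ^ (cutp b k (j + 1) - cutp b k j) ≤ c1 * M * M * 4 ^ b :=
        Nat.mul_le_mul_left _ h4r
      have h6 : (m1 + 1) * (c1 * M * M * 4 ^ b) = m1 * (c1 * M * M * 4 ^ b) + c1 * M * M * 4 ^ b := by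
        ring
      omega
  have g := key w le_rfl
  rw [Nat.sub_self] at g
  have e0 : cutp b k 0 = 0 := by unfold cutp; omega
  rw [e0] at g
  refine g.mono (Set.Subset.refl _) ?_
  have h4 : 1 ≤ 4 ^ b := Nat.one_le_pow _ _ (by norm_num)
  have h5 : c0 * M ≤ c0 * M * M * 4 ^ b := by
    calc c0 * M = c0 * M * 1 * 1 := by ring
      _ ≤ c0 * M * M * 4 ^ b := by gcongr
  calc c0 * M + w * (c1 * M * M * 4 ^ b)
      ≤ c0 * M * M * 4 ^ b + w * (c1 * M * M * 4 ^ b) := by omega
    _ ≤ c0 * M * M * 4 ^ b * (w + 1) + c1 * M * M * 4 ^ b * (w + 1) := by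
        apply Nat.add_le_add
        · exact Nat.le_mul_of_pos_right _ (by omega)
        · rw [Nat.mul_comm w]
          exact Nat.mul_le_mul_left _ (by omega)
    _ = (c0 + c1) * M * M * 4 ^ b * (w + 1) := by ring

end Pool.Agent.H586P.T_iter
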