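import Pool.Agent.H586P.Defs

set_option autoImplicit false

namespace Pool.Agent.H586P.T_leaf

open Pool.Agent.H586P Pool.Agent.H555R2.PF Pool.Agent.H555R2.PF.Fm

theorem leaf_vars_subst {σ : ℕ → Fm} {n : ℕ} : ∀ {A : Fm}, n ∈ (A.subst σ).vars →
    ∃ m ∈ A.vars, n ∈ (σ m).vars := by
  intro A
  induction A with
  | var m => intro h; exact ⟨m, by simp [vars], h⟩
  | neg A ih => intro h; exact ih h
  | and A B iA iB =>
    intro h
    simp only [subst, vars, Finset.mem_union] at h
    rcases h with h | h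
    · obtain ⟨m, hm, hn⟩ := iA h; exact ⟨m, by simp [vars, hm], hn⟩
    · obtain ⟨m, hm, hn⟩ := iB h; exact ⟨m, by simp [vars, hm], hn⟩
  | or A B iA iB =>
    intro h
    simp only [subst, vars, Finset.mem_union] at h
    rcases h with h | h
    · obtain ⟨m, hm, hn⟩ := iA h; exact ⟨m, by simp [vars, hm], hn⟩
    · obtain ⟨m, hm, hn⟩ := iB h; exact ⟨m, by simp [vars, hm], hn⟩
  | imp A B iA iB =>
    intro h
    simp only [subst, vars, Finset.mem_union] at h
    rcases h with h | h
    · obtain ⟨m, hm, hn⟩ := iA h; exact ⟨m, by simp [vars, hm], hn⟩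
    · obtain ⟨m, hm, hn⟩ := iB h; exact ⟨m, by simp [vars, hm], hn⟩

theorem leaf_bits (r : ℕ) (a : ℕ → Bool) : ∃ α < 2 ^ r, ∀ t < r, α.testBit t = a t := by
  refine ⟨Nat.ofBits (fun i : Fin r => a i), Nat.ofBits_lt_two_pow _, fun t ht => ?_⟩
  rw [Nat.testBit_ofBits_lt _ _ ht]

theorem leaf_disj_rename (z : ℕ) (f : ℕ → ℕ) (hz : f z = z) : ∀ l : List Fm,
    (disjL z l).rename f = disjL z (l.map (fun A => A.rename f)) := by
  intro l
  induction l with
  | nil => simp [disjL, rename, subst, hz]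
  | cons D l ih =>
    simp only [disjL, List.map_cons]
    rw [← ih]
    rfl

theorem leaf_dec_vars {z r : ℕ} {h : ℕ → ℕ} {t n : ℕ} (hn : n ∈ (dec z r h t).vars) :
    n = z ∨ ∃ β < 2 ^ r, n = h β := by
  rcases disjL_vars hn with h1 | ⟨D, hD, h1⟩
  · exact Or.inl h1
  · obtain ⟨β, hβ, rfl⟩ := List.mem_map.1 hD
    simp only [List.mem_filter, List.mem_range] at hβ
    simp only [vars, Finset.mem_singleton] at h1
    exact Or.inr ⟨β, hβ.1, h1⟩

theorem leaf_dec_rename {z r : ℕ} {h g : ℕ → ℕ} (t : ℕ) (f : ℕ → ℕ) (hz : f z = z)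
    (hf : ∀ β < 2 ^ r, f (h β) = g β) : (dec z r h t).rename f = dec z r g t := by
  unfold dec
  rw [leaf_disj_rename z f hz, List.map_map]
  congr 1
  apply List.map_congr_left
  intro β hβ
  simp only [List.mem_filter, List.mem_range] at hβ
  simp only [Function.comp, rename, subst, hf β hβ.1]

theorem leaf_upd_ne {z : ℕ} {q : ℕ → ℕ} {i0 : ℕ} {a : ℕ → Bool} {σ : ℕ → Fm} {n : ℕ} :
    ∀ r : ℕ, (∀ t < r, n ≠ q (i0 + t)) → upd z q i0 a σ r n = σ n := by
  intro r
  induction r with
  | zero => intro _; rfl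
  | succ r ih =>
    intro h
    simp only [upd]
    rw [Function.update_of_ne (h r (Nat.lt_succ_self r)), ih fun t ht => h t (by omega)]

theorem leaf_upd_eq {z : ℕ} {q : ℕ → ℕ} {i0 : ℕ} {a : ℕ → Bool} {σ : ℕ → Fm} :
    ∀ r : ℕ, (∀ s < r, ∀ t < s, q (i0 + s) ≠ q (i0 + t)) → ∀ t < r,
      upd z q i0 a σ r (q (i0 + t)) = cst z (a t) := by
  intro r
  induction r with
  | zero => intro _ t ht; omega
  | succ r ih =>
    intro h t ht
    simp only [upd]
    rcases Nat.lt_or_ge t r with h1 | h1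
    · rw [Function.update_of_ne (fun e => h r (Nat.lt_succ_self r) t h1 e.symm)]
      exact ih (fun s hs => h s (by omega)) t h1
    · have : t = r := by omega
      subst this
      rw [Function.update_self]

theorem leaf_upd_size {z : ℕ} {q : ℕ → ℕ} {i0 : ℕ} {a : ℕ → Bool} {σ : ℕ → Fm} {m : ℕ}
    (h4 : 4 ≤ m) (hσ : ∀ n, (σ n).size ≤ m) : ∀ (r n : ℕ), (upd z q i0 a σ r n).size ≤ m := by
  intro r
  induction r with
  | zero => exact hσ
  | succ r ih =>
    intro n
    simp only [upd]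
    by_cases hn : n = q (i0 + r)
    · subst hn
      rw [Function.update_self]
      unfold cst top
      split_ifs <;> simp only [size] <;> omega
    · rw [Function.update_of_ne hn]
      exact ih n

open Classical in
/-- the renaming -/
noncomputable def leafF (r α u : ℕ) (h y : ℕ → ℕ) (n : ℕ) : ℕ :=
  if hn : ∃ β, β < 2 ^ r ∧ h β = n then (if hn.choose = α then u else y hn.choose) else n

theorem leafF_h {r α u : ℕ} {h y : ℕ → ℕ} (hinj : InjB h (2 ^ r)) {β : ℕ} (hβ : β < 2 ^ r) :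
    leafF r α u h y (h β) = if β = α then u else y β := by
  have hn : ∃ γ, γ < 2 ^ r ∧ h γ = h β := ⟨β, hβ, rfl⟩
  have h1 := hn.choose_spec
  have h2 : hn.choose = β := hinj _ h1.1 _ hβ h1.2
  unfold leafF
  rw [dif_pos hn, h2]

theorem leafF_ne {r α u : ℕ} {h y : ℕ → ℕ} {n : ℕ} (hn : ∀ β < 2 ^ r, h β ≠ n) :
    leafF r α u h y n = n := by
  unfold leafF
  rw [dif_neg]
  rintro ⟨β, h1, h2⟩
  exact hn β h1 h2

theorem t_leaf (F : List Rule) (hF : IsFrege F) (h1 : S_ren F) (h2 : S_repl F) (h3 : S_dec F) :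
    S_leaf F := by
  obtain ⟨c₁, k₁⟩ := h1
  obtain ⟨c₂, k₂⟩ := h2
  obtain ⟨c₃, k₃⟩ := h3
  obtain ⟨c₄, k₄⟩ := schemaL hF [] (imp (and (and (var 0) (var 1)) (var 2)) (var 0)) (by
    intro v _; simp [eval]; tauto)
  obtain ⟨c₅, k₅⟩ := schemaL hF [imp (var 1) (var 3)]
    (imp (and (and (var 0) (var 1)) (var 2)) (var 3)) (by
    intro v h; simp [eval] at h ⊢; tauto)
  obtain ⟨c₆, k₆⟩ := conj_mem hF
  obtain ⟨c₇, k₇⟩ := schemaL hF [] (imp (var 0) (iff (var 1) (var 1))) (by
    intro v _; simp [eval, Fm.iff])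
  obtain ⟨c₈, k₈⟩ := schemaL hF [imp (var 1) (var 2), imp (and (var 0) (var 1))
    (iff (var 2) (var 3))] (imp (and (var 0) (var 1)) (var 3)) (by
    intro v h; simp [eval, Fm.iff] at h ⊢; tauto)
  refine ⟨c₁ + c₂ + c₃ + c₄ + c₅ + c₆ + c₇ + c₈, ?_⟩
  intro z A k q φ i0 r σ h u y H0 m M hB a Γ hΓ
  obtain ⟨α, hα, hαa⟩ := leaf_bits r a
  set B : Fm := imp (conjL z (extL q φ (i0 + r))) A with hBdef
  set f : ℕ → ℕ := leafF r α u h y with hfdef
  set H : Fm := tokH z u y (2 ^ r) H0 with hHdef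
  set υ : ℕ → Fm := upd z q i0 a σ r with hυdef
  have hm1 : 1 ≤ m := by have := hB.m4; omega
  have hM1 := hB.M1
  rw [← hBdef, ← hHdef] at hM1
  have hHs : H.size = H0.size + (conjL z ((List.range (2 ^ r)).map fun β => neg (var (y β)))).size
      + 3 := by
    simp only [hHdef, tokH, size]; omega
  have hconj := conjL_size z ((List.range (2 ^ r)).map fun β => neg (var (y β)))
  have hB1 : B.size ≤ B.size * m := Nat.le_mul_of_pos_right _ hm1
  have hM : 1 ≤ M := by omega
  have h2r : 2 ^ r ≤ M := by omega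
  have h2rp : 1 ≤ 2 ^ r := Nat.one_le_two_pow
  have hBσ : (B.subst σ).size ≤ B.size * m := size_subst_le hm1 fun n _ => hB.σm n
  have hBυ : (B.subst υ).size ≤ B.size * m :=
    size_subst_le hm1 fun n _ => leaf_upd_size hB.m4 hB.σm r n
  -- step 1: renaming
  have hvars : ∀ n ∈ (imp H0 (B.subst σ)).vars,
      (∃ β < 2 ^ r, n = h β) ∨ (n ≠ u ∧ ∀ β < 2 ^ r, h β ≠ n ∧ n ≠ y β) := by
    intro n hn
    simp only [vars, Finset.mem_union] at hn
    rcases hn with hn | hn
    · right
      refine ⟨fun e => hB.hyp.1 (e ▸ hn), fun β hβ => ⟨fun e => (hB.hyp.2 β hβ).1 (e ▸ hn),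
        fun e => (hB.hyp.2 β hβ).2 (e ▸ hn)⟩⟩
    · obtain ⟨n', hn', hnn⟩ := leaf_vars_subst hn
      by_cases hq : ∀ t < r, n' ≠ q (i0 + t)
      · right
        have := hB.oth n' hn' hq
        refine ⟨fun e => this.1 (e ▸ hnn), fun β hβ => ⟨fun e => (this.2 β hβ).1 (e ▸ hnn),
          fun e => (this.2 β hβ).2 (e ▸ hnn)⟩⟩
      · push Not at hq
        obtain ⟨t, ht, rfl⟩ := hq
        rw [hB.hdec t ht] at hnn
        rcases leaf_dec_vars hnn with rfl | hβ
        · right
          refine ⟨hB.zf.1, fun β hβ => ⟨fun e => (hB.zf.2 β hβ).1 e.symm, (hB.zf.2 β hβ).2⟩⟩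
        · exact Or.inl hβ
  have hinj : Set.InjOn f ((imp H0 (B.subst σ)).vars : Set ℕ) := by
    intro n hn n' hn' hff
    rcases hvars n hn with ⟨β, hβ, rfl⟩ | hn1
    · rcases hvars n' hn' with ⟨γ, hγ, rfl⟩ | hn1'
      · rw [hfdef, leafF_h hB.hinj hβ, leafF_h hB.hinj hγ] at hff
        split_ifs at hff with e1 e2 e2
        · rw [e1, e2]
        · exact absurd hff.symm (hB.hu γ hγ).2
        · exact absurd hff (hB.hu β hβ).2
        · rw [hB.yinj β hβ γ hγ hff]
      · rw [hfdef, leafF_h hB.hinj hβ, leafF_ne fun γ hγ => (hn1'.2 γ hγ).1] at hff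
        split_ifs at hff with e1
        · exact absurd hff.symm hn1'.1
        · exact absurd hff.symm (hn1'.2 β hβ).2
    · rcases hvars n' hn' with ⟨γ, hγ, rfl⟩ | hn1'
      · rw [hfdef, leafF_h hB.hinj hγ, leafF_ne fun γ hγ => (hn1.2 γ hγ).1] at hff
        split_ifs at hff with e1
        · exact absurd hff hn1.1
        · exact absurd hff (hn1.2 γ hγ).2
      · rw [hfdef, leafF_ne fun γ hγ => (hn1'.2 γ hγ).1,
          leafF_ne fun γ hγ => (hn1.2 γ hγ).1] at hff
        exact hff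
  have s1 := k₁ (imp H0 (B.subst σ)) f M (by simp only [size]; omega) hinj Γ hΓ
  set τ : ℕ → Fm := fun n => (σ n).rename f with hτdef
  have hH0f : H0.rename f = H0 := rename_eq_self fun n hn =>
    leafF_ne fun β hβ e => (hB.hyp.2 β hβ).1 (e ▸ hn)
  have e1 : (imp H0 (B.subst σ)).rename f = imp H0 (B.subst τ) := by
    have : (imp H0 (B.subst σ)).rename f = imp (H0.rename f) ((B.subst σ).rename f) := rfl
    rw [this, hH0f]
    congr 1
    unfold rename
    rw [subst_subst]
    rfl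
  rw [e1] at s1
  have hBτ : (B.subst τ).size ≤ B.size * m :=
    size_subst_le hm1 fun n _ => by
      simp only [hτdef]
      rw [size_rename]
      exact hB.σm n
  -- step 2: the token hypotheses
  set T : Fm := and (var u) (conjL z ((List.range (2 ^ r)).map fun β => neg (var (y β)))) with hTdef
  have hHT : H = and T H0 := rfl
  have hTs : T.size ≤ M ∧ H0.size ≤ M := by
    simp only [hTdef, size]; omega
  have s2 : Can F Γ [imp H (var u)] (c₄ * M) := by
    have := k₄ [var u, conjL z ((List.range (2 ^ r)).map fun β => neg (var (y β))), H0] M hM (by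
      intro X hX; simp only [List.mem_cons, List.not_mem_nil, or_false] at hX
      rcases hX with rfl | rfl | rfl
      · simp only [size]; omega
      · omega
      · omega) Γ (by simp)
    exact this.sub (by simp [subst, asg, hHT, hTdef])
  have s3 : ∀ β ∈ List.range (2 ^ r), Can F Γ [imp H (neg (var (y β)))]
      (c₆ * M * 2 ^ r + c₅ * M) := by
    intro β hβ
    have t1 := k₆ z ((List.range (2 ^ r)).map fun β => neg (var (y β))) M hM (by omega)
      (neg (var (y β))) (List.mem_map.2 ⟨β, hβ, rfl⟩) Γ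
    have t2 := k₅ [var u, conjL z ((List.range (2 ^ r)).map fun β => neg (var (y β))), H0,
      neg (var (y β))] M hM (by
      intro X hX; simp only [List.mem_cons, List.not_mem_nil, or_false] at hX
      rcases hX with rfl | rfl | rfl | rfl
      · simp only [size]; omega
      · omega
      · omega
      · simp only [size]; omega) (Γ ∪ {Y | Y ∈ [imp (conjL z ((List.range (2 ^ r)).map
        fun β => neg (var (y β)))) (neg (var (y β)))]}) (by
      intro Y hY; simp only [List.mem_singleton] at hY; subst hY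
      right; simp [subst, asg])
    refine ((t1.cut t2).sub (by simp [subst, asg, hHT, hTdef])).mono subset_rfl ?_
    simp
  have s3' := Can.many (F := F) (Γ := Γ) (fun β => imp H (neg (var (y β)))) _ _ s3
  have s23 := s2.append s3'
  -- step 3: the values
  have s4 : ∀ n ∈ B.vars.toList, Can F (Γ ∪ {Y | Y ∈ [imp H (var u)] ++
      (List.range (2 ^ r)).map (fun β => imp H (neg (var (y β))))})
      [imp H (iff (τ n) (υ n))] (c₃ * M * 2 ^ r + c₇ * M) := by
    intro n hn
    have hn1 : n ∈ B.vars := Finset.mem_toList.1 hn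
    by_cases hq : ∀ t < r, n ≠ q (i0 + t)
    · have hτn : τ n = σ n := by
        have := hB.oth n hn1 hq
        exact rename_eq_self fun n' hn' =>
          leafF_ne fun β hβ e => (this.2 β hβ).1 (e ▸ hn')
      have hυn : υ n = σ n := leaf_upd_ne r hq
      have hle : (σ n).size ≤ M := by
        have h5 := hB.σm n
        have h6 : m ≤ B.size * m := Nat.le_mul_of_pos_left _ (size_pos B)
        omega
      have t := k₇ [H, σ n] M hM (by
        intro X hX; simp only [List.mem_cons, List.not_mem_nil, or_false] at hX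
        rcases hX with rfl | rfl
        · omega
        · exact hle) (Γ ∪ {Y | Y ∈ [imp H (var u)] ++
          (List.range (2 ^ r)).map (fun β => imp H (neg (var (y β))))}) (by simp)
      rw [hτn, hυn]
      refine (t.sub (by simp [subst, asg, Fm.iff])).mono subset_rfl ?_
      exact Nat.le_add_left _ _
    · push Not at hq
      obtain ⟨t, ht, rfl⟩ := hq
      have hυn : υ (q (i0 + t)) = cst z (a t) := by
        refine leaf_upd_eq r ?_ t ht
        intro s hs t' ht'
        exact hB.good.2.2 (i0 + s) (by have := hB.le; omega) (i0 + t') (by omega)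
      have hτn : τ (q (i0 + t)) = dec z r (fun β => if β = α then u else y β) t := by
        simp only [hτdef]
        rw [hB.hdec t ht]
        exact leaf_dec_rename t f (leafF_ne fun β hβ e => (hB.zf.2 β hβ).1 e.symm)
          fun β hβ => leafF_h hB.hinj hβ
      rw [hτn, hυn, ← hαa t ht]
      refine (k₃ z r t α u y H M hα (by omega) (by omega) _ (by right; simp) ?_).mono subset_rfl
        (Nat.le_add_right _ _)
      intro β hβ
      right
      simp only [Set.mem_ofPred_eq, List.mem_append, List.mem_map, List.mem_range]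
      exact Or.inr ⟨β, hβ, rfl⟩
  have s4' := Can.many (fun n => imp H (iff (τ n) (υ n))) _ _ s4
  -- step 4: replacement
  have s5 := k₂ H B τ υ M (by omega) (by omega) (by omega)
    ((Γ ∪ {Y | Y ∈ [imp H (var u)] ++
      (List.range (2 ^ r)).map (fun β => imp H (neg (var (y β))))}) ∪
      {Y | Y ∈ B.vars.toList.map (fun n => imp H (iff (τ n) (υ n)))}) (by
    intro n hn
    right
    exact List.mem_map.2 ⟨n, Finset.mem_toList.2 hn, rfl⟩)
  have s6 := s23.cut (s4'.cut s5)
  have s7 := s1.append s6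
  have s8 := k₈ [T, H0, B.subst τ, B.subst υ] M hM (by
    intro X hX; simp only [List.mem_cons, List.not_mem_nil, or_false] at hX
    rcases hX with rfl | rfl | rfl | rfl
    · exact hTs.1
    · exact hTs.2
    · omega
    · omega) (Γ ∪ {Y | Y ∈ [imp H0 (B.subst τ)] ++ [imp H (iff (B.subst τ) (B.subst υ))]}) (by
    intro Y hY; simp only [List.mem_cons, List.not_mem_nil, or_false] at hY
    rcases hY with rfl | rfl
    · right; simp [subst, asg]
    · right; simp [subst, asg, hHT, Fm.iff])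
  refine ((s7.cut s8).sub (by simp [subst, asg, hHT])).mono subset_rfl ?_
  have hcard : B.vars.toList.length ≤ M := by
    rw [Finset.length_toList]
    have := vars_card_le B
    omega
  have hBM : B.size ≤ M := by omega
  have hMM : M ≤ M * M := Nat.le_mul_of_pos_left _ hM
  have hMMr : M * M ≤ M * M * 2 ^ r := Nat.le_mul_of_pos_right _ h2rp
  simp only [List.length_range]
  have q1 : c₁ * M * M ≤ c₁ * (M * M * 2 ^ r) := by
    rw [mul_assoc]; exact Nat.mul_le_mul_left _ hMMr
  have q2 : c₄ * M ≤ c₄ * (M * M * 2 ^ r) := Nat.mul_le_mul_left _ (hMM.trans hMMr)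
  have q3 : 2 ^ r * (c₆ * M * 2 ^ r + c₅ * M) ≤ (c₆ + c₅) * (M * M * 2 ^ r) := by
    have : c₆ * M * 2 ^ r + c₅ * M ≤ (c₆ + c₅) * (M * M) := by
      have u1 : c₆ * M * 2 ^ r ≤ c₆ * (M * M) := by
        rw [mul_assoc]; exact Nat.mul_le_mul_left _ (Nat.mul_le_mul_left _ h2r)
      have u2 : c₅ * M ≤ c₅ * (M * M) := Nat.mul_le_mul_left _ hMM
      nlinarith
    calc 2 ^ r * (c₆ * M * 2 ^ r + c₅ * M) ≤ 2 ^ r * ((c₆ + c₅) * (M * M)) :=
          Nat.mul_le_mul_left _ this
      _ = (c₆ + c₅) * (M * M * 2 ^ r) := by ring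
  have q4 : B.vars.toList.length * (c₃ * M * 2 ^ r + c₇ * M) ≤ (c₃ + c₇) * (M * M * 2 ^ r) := by
    have : c₃ * M * 2 ^ r + c₇ * M ≤ (c₃ + c₇) * (M * 2 ^ r) := by
      have u2 : c₇ * M ≤ c₇ * (M * 2 ^ r) :=
        Nat.mul_le_mul_left _ (Nat.le_mul_of_pos_right _ h2rp)
      nlinarith
    calc B.vars.toList.length * (c₃ * M * 2 ^ r + c₇ * M)
        ≤ M * ((c₃ + c₇) * (M * 2 ^ r)) := Nat.mul_le_mul hcard this
      _ = (c₃ + c₇) * (M * M * 2 ^ r) := by ring
  have q5 : c₂ * M * B.size ≤ c₂ * (M * M * 2 ^ r) := by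
    calc c₂ * M * B.size ≤ c₂ * M * M := Nat.mul_le_mul_left _ hBM
      _ = c₂ * (M * M) := by ring
      _ ≤ c₂ * (M * M * 2 ^ r) := Nat.mul_le_mul_left _ hMMr
  have q6 : c₈ * M ≤ c₈ * (M * M * 2 ^ r) := Nat.mul_le_mul_left _ (hMM.trans hMMr)
  have q7 : (c₁ + c₂ + c₃ + c₄ + c₅ + c₆ + c₇ + c₈) * M * M * 2 ^ r =
      c₁ * (M * M * 2 ^ r) + c₂ * (M * M * 2 ^ r) + (c₃ + c₇) * (M * M * 2 ^ r) +
      c₄ * (M * M * 2 ^ r) + (c₆ + c₅) * (M * M * 2 ^ r) + c₈ * (M * M * 2 ^ r) := by ring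
  rw [q7]
  omega

end Pool.Agent.H586P.T_leaf
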