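import Pool.Agent.H586P.Defs

set_option autoImplicit false

namespace Pool.Agent.H586P.T_leaf1

open Pool.Agent.H586P Pool.Agent.H555R2.PF Pool.Agent.H555R2.PF.Fm

theorem psize_lit (P : List (ℕ × Bool)) : psize (P.map lit) ≤ 2 * P.length := by
  induction P with
  | nil => simp [psize]
  | cons x P ih =>
    rw [List.map_cons, psize_cons, List.length_cons]
    have : (lit x).size ≤ 2 := by unfold lit; split_ifs <;> simp [size]
    omega

theorem psize_zeroL (y : ℕ → ℕ) (m : ℕ) : psize (zeroL y m) = 2 * m := by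
  have h := psize_negvar ((List.range m).map y)
  rw [List.map_map, List.length_map, List.length_range] at h
  exact h

theorem psize_oneL (u : ℕ → ℕ) (m : ℕ) : psize (oneL u m) = m := by
  have h := psize_var ((List.range m).map u)
  rw [List.map_map, List.length_map, List.length_range] at h
  exact h

theorem t_leaf1 (F : List Rule) (hF : IsFrege F) (h1 : S_tok F) (h2 : S_cintro F)
    (h3 : S_repl F) : S_leaf1 F := by
  obtain ⟨c₁, h₁⟩ := h1
  obtain ⟨c₂, h₂⟩ := conj_mem hF
  obtain ⟨c₃, h₃⟩ := h2
  -- top <-> var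
  obtain ⟨c₄, h₄⟩ := schemaL hF [imp (var 0) (var 1)]
    (imp (var 0) (iff (imp (var 2) (var 2)) (var 1))) (by
    intro v h; simp [eval, Fm.iff] at h ⊢; tauto)
  obtain ⟨c₄', h₄'⟩ := schemaL hF [imp (var 0) (var 1)]
    (imp (var 0) (iff (neg (imp (var 2) (var 2))) (neg (var 1)))) (by
    intro v h; simp [eval, Fm.iff] at h ⊢; tauto)
  obtain ⟨c₄'', h₄''⟩ := schemaL hF [] (imp (var 0) (iff (var 1) (var 1))) (by
    intro v h; simp [eval, Fm.iff])
  obtain ⟨c₅, h₅⟩ := h3
  obtain ⟨c₆, h₆⟩ := schemaL hF [imp (var 0) (var 1), imp (var 1) (imp (var 2) (var 3)),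
    imp (var 0) (var 2), imp (var 0) (iff (var 3) (var 4))] (imp (var 0) (var 4)) (by
    intro v h; simp [eval, Fm.iff] at h ⊢; tauto)
  refine ⟨c₁ + 80 * c₂ + 40 * c₃ + 20 * (c₄ + c₄' + c₄'') + 20 * c₅ + 20 * c₆, ?_⟩
  intro A k L hEF w b N₀ z y s P hw hb hk hvars hz hy hyi hnd hPA hcnt Γ
  classical
  set p := psize (A :: L) with hp
  set T := p * w * 2 ^ b with hT
  set Z := conjL z (zeroL y (w * 2 ^ b)) with hZ
  set Ds := P.map lit ++ [Z] with hDs
  set U := conjL z Ds with hU
  set S := (P.filter (fun x => x.2)).map Prod.fst with hS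
  set u : ℕ → ℕ := fun i => S.getD i 0 with hu
  set O := conjL z (oneL u w) with hO
  set σ₀ : ℕ → Fm := fun n => if n ∈ S then (if s = true then neg (top z) else top z)
    else fl s n with hσ₀
  have hSnd : S.Nodup := by
    have : S.Sublist (P.map Prod.fst) := List.filter_sublist.map _
    exact this.nodup hnd
  have hSlen : S.length = w := by
    rw [hS, List.length_map, ← hcnt, List.countP_eq_length_filter]
  have hSA : ∀ n ∈ S, n ∈ A.vars := by
    intro n hn
    rw [hS, List.mem_map] at hn
    obtain ⟨x, hx, rfl⟩ := hn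
    exact hPA x (List.mem_filter.1 hx).1
  have huS : ∀ i < w, u i ∈ S := by
    intro i hi
    have hi' : i < S.length := by rw [hSlen]; exact hi
    simp only [hu]
    rw [List.getD_eq_getElem _ _ hi']
    exact List.getElem_mem _
  have huinj : InjB u w := by
    intro i hi j hj hij
    have hi' : i < S.length := by rw [hSlen]; exact hi
    have hj' : j < S.length := by rw [hSlen]; exact hj
    simp only [hu] at hij
    rw [List.getD_eq_getElem _ _ hi', List.getD_eq_getElem _ _ hj'] at hij
    exact (hSnd.getElem_inj_iff).1 hij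
  have hA0 := hvars A (by simp)
  -- sizes
  have hp1 : 1 ≤ p := by
    rw [hp, psize_cons]; have := Fm.size_pos A; omega
  have hAp : A.size ≤ p := by rw [hp, psize_cons]; omega
  have h2b : 1 ≤ 2 ^ b := Nat.one_le_two_pow
  have hw2 : 1 ≤ w * 2 ^ b := Nat.mul_pos hw h2b
  have hTp : p ≤ T := by
    rw [hT, mul_assoc]; exact Nat.le_mul_of_pos_right _ hw2
  have hTw : w * 2 ^ b ≤ T := by
    rw [hT, mul_assoc]; exact Nat.le_mul_of_pos_left _ hp1
  have hww : w ≤ w * 2 ^ b := Nat.le_mul_of_pos_right _ h2b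
  have hT1 : 1 ≤ T := hp1.trans hTp
  have hPlen : P.length ≤ p := by
    have h7 : (P.map Prod.fst).toFinset ⊆ A.vars := by
      intro n hn
      rw [List.mem_toFinset, List.mem_map] at hn
      obtain ⟨x, hx, rfl⟩ := hn
      exact hPA x hx
    have h8 := Finset.card_le_card h7
    rw [List.toFinset_card_of_nodup hnd, List.length_map] at h8
    exact h8.trans ((vars_card_le A).trans hAp)
  have hZs : Z.size = 3 * (w * 2 ^ b) + 3 := by
    rw [hZ, conjL_size, psize_zeroL]
    simp only [zeroL, List.length_map, List.length_range]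
    omega
  have hDlen : Ds.length ≤ 2 * T := by
    rw [hDs, List.length_append, List.length_map, List.length_singleton]; omega
  have hUs : U.size ≤ 20 * T := by
    rw [hU, conjL_size, hDs, psize_append, List.length_append, List.length_map,
      List.length_singleton]
    have h7 := psize_lit P
    have h8 : psize [Z] = Z.size := by simp [psize]
    rw [h8, hZs]; omega
  have hOs : O.size ≤ 20 * T := by
    rw [hO, conjL_size, psize_oneL]
    simp only [oneL, List.length_map, List.length_range]
    omega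
  have hM : 1 ≤ 20 * T := by omega
  have hσs : ∀ n, (σ₀ n).size ≤ 4 := by
    intro n
    simp only [hσ₀, fl, top]
    split_ifs <;> simp [size]
  have hfls : ∀ n, (fl s n).size ≤ 4 := by
    intro n
    simp only [fl]
    split_ifs <;> simp [size]
  have hA1s : (A.subst σ₀).size ≤ 20 * T := by
    have := size_subst_le (σ := σ₀) (M := 4) (by omega) (A := A) (fun n _ => hσs n)
    omega
  have hA2s : (A.subst (fl s)).size ≤ 20 * T := by
    have := size_subst_le (σ := fl s) (M := 4) (by omega) (A := A) (fun n _ => hfls n)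
    omega
  -- the token lemma
  have s1 := h₁ A k L hEF w b N₀ z u y σ₀ hw hb hk hvars hz
    (fun i hi => hA0 _ (hSA _ (huS i hi))) huinj hy hyi (by
      intro n hn
      refine ⟨hσs n, ?_⟩
      intro v hv
      simp only [hσ₀] at hv
      split_ifs at hv with h7 h8
      · simp only [top, vars, Finset.mem_union, Finset.mem_singleton, or_self] at hv
        subst hv
        exact ⟨hz, fun i hi h => (hA0 _ (hSA _ (huS i hi))).2 h.symm⟩
      · simp only [top, vars, Finset.mem_union, Finset.mem_singleton, or_self] at hv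
        subst hv
        exact ⟨hz, fun i hi h => (hA0 _ (hSA _ (huS i hi))).2 h.symm⟩
      · have hv' : v = n := by
          unfold fl at hv
          split_ifs at hv <;> simpa [vars] using hv
        subst hv'
        exact ⟨(hA0 _ hn).1, fun i hi h => h7 (h ▸ huS i hi)⟩) Γ
  -- members of U
  have s2 := Can.many (F := F) (Γ := Γ) (fun D => imp U D) (c₂ * (20 * T) * Ds.length) Ds
    (fun D hD => h₂ z Ds (20 * T) hM hUs D hD Γ)
  have memU : ∀ D ∈ Ds, imp U D ∈ Ds.map (fun D => imp U D) := fun D hD =>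
    List.mem_map.2 ⟨D, hD, rfl⟩
  have hvarS : ∀ n ∈ S, var n ∈ Ds := by
    intro n hn
    rw [hS, List.mem_map] at hn
    obtain ⟨x, hx, rfl⟩ := hn
    obtain ⟨hx1, hx2⟩ := List.mem_filter.1 hx
    rw [hDs]
    refine List.mem_append_left _ (List.mem_map.2 ⟨x, hx1, ?_⟩)
    simp [lit, hx2]
  -- O
  have s3 := h₃ z U (oneL u w) (20 * T) hUs hOs (Γ ∪ {B | B ∈ Ds.map (fun D => imp U D)}) (by
    intro D hD
    simp only [oneL, List.mem_map, List.mem_range] at hD
    obtain ⟨i, hi, rfl⟩ := hD
    right
    exact memU _ (hvarS _ (huS i hi)))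
  -- equivalences
  have s4 := Can.many (F := F) (Γ := Γ ∪ {B | B ∈ Ds.map (fun D => imp U D)})
    (fun n => imp U (iff (σ₀ n) (fl s n))) ((c₄ + c₄' + c₄'') * (20 * T)) A.vars.toList (by
    intro n hn
    rw [Finset.mem_toList] at hn
    by_cases h7 : n ∈ S
    · by_cases h8 : s = true
      · have := h₄' [U, var n, var z] (20 * T) hM (by
          intro X hX; simp at hX
          rcases hX with rfl | rfl | rfl
          exacts [hUs, by simpa [size] using hM, by simpa [size] using hM])
          (Γ ∪ {B | B ∈ Ds.map (fun D => imp U D)}) (by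
          intro X hX
          simp only [List.mem_singleton] at hX
          subst hX
          right
          exact memU _ (hvarS n h7))
        refine (this.sub ?_).mono subset_rfl ?_
        · intro B hB
          simp only [List.mem_singleton] at hB ⊢
          rw [hB]
          simp [hσ₀, h7, h8, fl, top, subst, asg, Fm.iff]
        · exact Nat.mul_le_mul_right _ (by omega)
      · have := h₄ [U, var n, var z] (20 * T) hM (by
          intro X hX; simp at hX
          rcases hX with rfl | rfl | rfl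
          exacts [hUs, by simpa [size] using hM, by simpa [size] using hM])
          (Γ ∪ {B | B ∈ Ds.map (fun D => imp U D)}) (by
          intro X hX
          simp only [List.mem_singleton] at hX
          subst hX
          right
          exact memU _ (hvarS n h7))
        refine (this.sub ?_).mono subset_rfl ?_
        · intro B hB
          simp only [List.mem_singleton] at hB ⊢
          rw [hB]
          simp [hσ₀, h7, h8, fl, top, subst, asg, Fm.iff]
        · exact Nat.mul_le_mul_right _ (by omega)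
    · have := h₄'' [U, fl s n] (20 * T) hM (by
        intro X hX; simp at hX
        rcases hX with rfl | rfl
        exacts [hUs, by have := hfls n; omega])
        (Γ ∪ {B | B ∈ Ds.map (fun D => imp U D)}) (by simp)
      refine (this.sub ?_).mono subset_rfl ?_
      · intro B hB
        simp only [List.mem_singleton] at hB ⊢
        rw [hB]
        simp [hσ₀, h7, subst, asg, Fm.iff]
      · exact Nat.mul_le_mul_right _ (by omega))
  -- replacement
  have s5 := h₅ U A σ₀ (fl s) (20 * T) hUs hA1s hA2s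
    ((Γ ∪ {B | B ∈ Ds.map (fun D => imp U D)}) ∪
      {B | B ∈ A.vars.toList.map (fun n => imp U (iff (σ₀ n) (fl s n)))}) (by
    intro n hn
    right
    exact List.mem_map.2 ⟨n, by simpa using hn, rfl⟩)
  have s6 := s2.cut ((Can.hyp (F := F) (Γ := Γ ∪ {B | B ∈ Ds.map (fun D => imp U D)})
    (B := imp U Z) (Or.inr (memU Z (by simp [hDs])))).append (s3.append (s4.cut s5)))
  have s7 := s1.append s6
  have s8 := h₆ [U, O, Z, A.subst σ₀, A.subst (fl s)] (20 * T) hM (by
      intro X hX; simp at hX
      rcases hX with rfl | rfl | rfl | rfl | rfl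
      exacts [hUs, hOs, by omega, hA1s, hA2s])
    (Γ ∪ {B | B ∈ [imp O (imp Z (A.subst σ₀))] ++ ([imp U Z] ++ ([imp U O] ++
      [imp U (iff (A.subst σ₀) (A.subst (fl s)))]))}) (by
      intro X hX
      simp only [List.mem_cons, List.not_mem_nil, or_false] at hX
      rcases hX with rfl | rfl | rfl | rfl
      · right; simp [subst, asg]
      · right; simp [subst, asg]
      · right; simp [subst, asg]
      · right; simp [subst, asg, Fm.iff])
  refine ((s7.cut s8).sub (by simp [subst, asg])).mono subset_rfl ?_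
  -- arithmetic
  have hcard : A.vars.toList.length ≤ T := by
    rw [Finset.length_toList]
    exact (vars_card_le A).trans (hAp.trans hTp)
  have holen : (oneL u w).length + 1 ≤ 2 * T := by
    simp only [oneL, List.length_map, List.length_range]; omega
  have hAT : A.size ≤ T := hAp.trans hTp
  have hT2 : T ^ 2 ≤ T ^ 6 := Nat.pow_le_pow_right hT1 (by omega)
  have hT3 : T ^ 3 ≤ T ^ 6 := Nat.pow_le_pow_right hT1 (by omega)
  have hT11 : T ^ 1 ≤ T ^ 6 := Nat.pow_le_pow_right hT1 (by omega)
  have e1 : Ds.length * (c₂ * (20 * T) * Ds.length) ≤ 80 * c₂ * T ^ 6 := by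
    calc Ds.length * (c₂ * (20 * T) * Ds.length)
        ≤ (2 * T) * (c₂ * (20 * T) * (2 * T)) :=
          Nat.mul_le_mul hDlen (Nat.mul_le_mul_left _ hDlen)
      _ = 80 * c₂ * T ^ 3 := by ring
      _ ≤ 80 * c₂ * T ^ 6 := Nat.mul_le_mul_left _ hT3
  have e2 : c₃ * (20 * T) * ((oneL u w).length + 1) ≤ 40 * c₃ * T ^ 6 := by
    calc c₃ * (20 * T) * ((oneL u w).length + 1) ≤ c₃ * (20 * T) * (2 * T) :=
          Nat.mul_le_mul_left _ holen
      _ = 40 * c₃ * T ^ 2 := by ring
      _ ≤ 40 * c₃ * T ^ 6 := Nat.mul_le_mul_left _ hT2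
  have e3 : A.vars.toList.length * ((c₄ + c₄' + c₄'') * (20 * T)) ≤
      20 * (c₄ + c₄' + c₄'') * T ^ 6 := by
    calc A.vars.toList.length * ((c₄ + c₄' + c₄'') * (20 * T))
        ≤ T * ((c₄ + c₄' + c₄'') * (20 * T)) := Nat.mul_le_mul_right _ hcard
      _ = 20 * (c₄ + c₄' + c₄'') * T ^ 2 := by ring
      _ ≤ _ := Nat.mul_le_mul_left _ hT2
  have e4 : c₅ * (20 * T) * A.size ≤ 20 * c₅ * T ^ 6 := by
    calc c₅ * (20 * T) * A.size ≤ c₅ * (20 * T) * T := Nat.mul_le_mul_left _ hAT
      _ = 20 * c₅ * T ^ 2 := by ring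
      _ ≤ _ := Nat.mul_le_mul_left _ hT2
  have e5 : c₆ * (20 * T) ≤ 20 * c₆ * T ^ 6 := by
    calc c₆ * (20 * T) = 20 * c₆ * T ^ 1 := by ring
      _ ≤ _ := Nat.mul_le_mul_left _ hT11
  have e6 : (c₁ + 80 * c₂ + 40 * c₃ + 20 * (c₄ + c₄' + c₄'') + 20 * c₅ + 20 * c₆) * T ^ 6 =
      c₁ * T ^ 6 + 80 * c₂ * T ^ 6 + 40 * c₃ * T ^ 6 + 20 * (c₄ + c₄' + c₄'') * T ^ 6 +
        20 * c₅ * T ^ 6 + 20 * c₆ * T ^ 6 := by ring
  rw [e6]
  show c₁ * T ^ 6 + (Ds.length * (c₂ * (20 * T) * Ds.length) +
    (0 + (c₃ * (20 * T) * ((oneL u w).length + 1) +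
      (A.vars.toList.length * ((c₄ + c₄' + c₄'') * (20 * T)) + c₅ * (20 * T) * A.size)))) +
      c₆ * (20 * T) ≤ _
  omega

end Pool.Agent.H586P.T_leaf1
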