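import Pool.Agent.H586P.Defs

set_option autoImplicit false

namespace Pool.Agent.H586P.T_leaf2

open Pool.Agent.H586P Pool.Agent.H555R2.PF Pool.Agent.H555R2.PF.Fm

theorem ev_iff (v : ℕ → Bool) (C : Fm) : ev v C = true ↔ C.eval (fun n => v n = true) := by
  induction C with
  | var n => rfl
  | neg A ih => simp only [ev, eval, ← ih, Bool.not_eq_true', Bool.not_eq_true]
  | and A B iA iB => simp only [ev, eval, ← iA, ← iB, Bool.and_eq_true]
  | or A B iA iB => simp only [ev, eval, ← iA, ← iB, Bool.or_eq_true]
  | imp A B iA iB =>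
    simp only [ev, eval, ← iA, ← iB, Bool.or_eq_true, Bool.not_eq_true']
    cases ev v A <;> simp

theorem vars_fl (s : Bool) (A : Fm) : (A.subst (fl s)).vars = A.vars := by
  induction A with
  | var n => cases s <;> rfl
  | neg A ih => simp only [subst, vars, ih]
  | and A B iA iB => simp only [subst, vars, iA, iB]
  | or A B iA iB => simp only [subst, vars, iA, iB]
  | imp A B iA iB => simp only [subst, vars, iA, iB]

theorem t_leaf2 (F : List Rule) (hF : IsFrege F) (h1 : S_ev F) : S_leaf2 F := by
  classical
  obtain ⟨c₁, h₁⟩ := conj_mem hF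
  obtain ⟨c₂, h₂⟩ := h1
  refine ⟨c₁ + c₂, fun A hA z s X P M hP hV hsz Γ => ?_⟩
  set U := conjL z (P.map lit ++ [X]) with hU
  have hUM : U.size ≤ M := by omega
  have hM : 1 ≤ M := (size_pos U).trans hUM
  let v : ℕ → Bool := fun n => decide ((n, true) ∈ P)
  set C := A.subst (fl s) with hC
  have hCv : C.vars = A.vars := vars_fl s A
  have hCs : C.size ≤ M := by
    have : C.size ≤ A.size * 2 := size_subst_le (by norm_num) (fun n _ => by
      cases s <;> simp [fl, size])
    omega
  have hlen : (P.map lit ++ [X]).length ≤ M := by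
    have := conjL_size z (P.map lit ++ [X])
    rw [← hU] at this
    omega
  have hlit : ∀ n ∈ C.vars, sg (v n) (var n) ∈ P.map lit ++ [X] := by
    intro n hn
    rw [hCv] at hn
    obtain ⟨⟨n', b⟩, hb, hnn⟩ := List.mem_map.1 (hV n hn)
    simp only at hnn
    subst hnn
    refine List.mem_append_left _ (List.mem_map.2 ⟨(n', b), hb, ?_⟩)
    cases b with
    | true =>
      have : v n' = true := decide_eq_true hb
      rw [this]
      simp [lit, sg]
    | false =>
      have h3 : (n', true) ∉ P := by
        intro h4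
        have := List.inj_on_of_nodup_map hP hb h4 rfl
        simp at this
      have : v n' = false := decide_eq_false h3
      rw [this]
      simp [lit, sg]
  have step1 : Can F Γ (C.vars.toList.map (fun n => imp U (sg (v n) (var n))))
      (C.vars.toList.length * (c₁ * M * M)) := by
    refine Can.many _ _ _ fun n hn => ?_
    refine (h₁ z _ M hM hUM _ (hlit n (Finset.mem_toList.1 hn)) Γ).mono subset_rfl ?_
    exact Nat.mul_le_mul_left _ hlen
  have step2 := h₂ v U M hUM C hCs
    (Γ ∪ {B | B ∈ C.vars.toList.map (fun n => imp U (sg (v n) (var n)))}) (by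
      intro n hn
      right
      exact List.mem_map.2 ⟨n, Finset.mem_toList.2 hn, rfl⟩)
  have hval : ev v C = true := by
    rw [ev_iff, hC, eval_subst]
    exact hA _
  refine ((step1.cut step2).sub ?_).mono subset_rfl ?_
  · intro B hB
    rw [hval]
    simpa [sg] using hB
  · rw [Finset.length_toList]
    have h5 : C.vars.card ≤ M := (vars_card_le C).trans hCs
    have h6 : C.vars.card * (c₁ * M * M) ≤ c₁ * M ^ 3 := by
      calc C.vars.card * (c₁ * M * M) ≤ M * (c₁ * M * M) := Nat.mul_le_mul_right _ h5
        _ = c₁ * M ^ 3 := by ring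
    have h7 : c₂ * M * C.size ≤ c₂ * M ^ 3 := by
      calc c₂ * M * C.size ≤ c₂ * M * (M * M) :=
            Nat.mul_le_mul_left _ (hCs.trans (Nat.le_mul_of_pos_right _ (by omega)))
        _ = c₂ * M ^ 3 := by ring
    calc _ ≤ c₁ * M ^ 3 + c₂ * M ^ 3 := Nat.add_le_add h6 h7
      _ = _ := by ring

end Pool.Agent.H586P.T_leaf2
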