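import Pool.Agent.H586P.Defs

set_option autoImplicit false

namespace Pool.Agent.H586P.T_main

open Pool.Agent.H586P Pool.Agent.H555R2.PF Pool.Agent.H555R2.PF.Fm

theorem t_main (F : List Rule) (_hF : IsFrege F) (h1 : S_zero F) (h2 : S_one F)
    (h3 : S_comb F) : S_main F := by
  obtain ⟨c₁, g₁⟩ := h1
  obtain ⟨c₂, g₂⟩ := h2
  obtain ⟨c₃, g₃⟩ := h3
  refine ⟨2 * (c₁ + c₂) + 6561 * c₃, fun A k L hL w b hw hb hk => ?_⟩
  set s := psize (A :: L) with hs
  set N := w * 2 ^ b with hN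
  set n := A.vars.card with hn
  set V : Finset ℕ := (A :: L).toFinset.biUnion Fm.vars with hV
  set z := V.sup id + 1 with hz
  have hvar : ∀ B ∈ A :: L, ∀ v ∈ B.vars, v < z := by
    intro B hB v hv
    have : v ∈ V := by
      rw [hV, Finset.mem_biUnion]
      exact ⟨B, List.mem_toFinset.2 hB, hv⟩
    have := Finset.le_sup (f := id) this
    simp only [id] at this
    omega
  have hvar' : ∀ B ∈ A :: L, ∀ v ∈ B.vars, v < z + 1 ∧ v ≠ z := by
    intro B hB v hv
    have := hvar B hB v hv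
    omega
  set Q := s * w * 2 ^ b with hQ
  have hQN : Q = s * N := by rw [hQ, hN]; ring
  have hs1 : 1 ≤ s := (size_pos A).trans (size_le_psize (by simp))
  have hsA : A.size ≤ s := size_le_psize (by simp)
  have hN1 : 1 ≤ N := by
    have : 1 ≤ 2 ^ b := Nat.one_le_two_pow
    rw [hN]; exact Nat.mul_pos hw this
  have hsubst : A.subst (fl false) = A := by
    have : (fl false) = var := by funext i; simp [fl]
    rw [this, subst_var]
  set E := (n + 2) ^ (w + 1) with hE
  have hE1 : 1 ≤ E := Nat.one_le_pow _ _ (by omega)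
  set K := (c₁ + c₂) * Q ^ 6 * E with hK
  have hmain : Can F ∅ [A] ((N + 1) * K + c₃ * (A.size + N + 1) ^ 8) := by
    refine g₃ A N K (z + 1) z (fun v hv => (hvar' A (by simp) v hv).1) (by omega) ?_
    intro y hy hinj
    constructor
    · have := g₁ A k L hL w b (z + 1) z y false hw hb hk hvar' (by omega) hy hinj ∅
      rw [hsubst] at this
      refine this.mono subset_rfl ?_
      rw [hK]
      gcongr
      omega
    · have := g₂ A k L hL w b (z + 1) z y hw hb hk hvar' (by omega) hy hinj ∅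
      refine this.mono subset_rfl ?_
      rw [hK]
      gcongr
      omega
  obtain ⟨D, e1, e2, e3⟩ := hmain [] PermProof.nil (by simp)
  rw [List.append_nil] at e1 e2
  obtain ⟨L', f1, f2⟩ := permProof_cut e1 (e2 A (by simp))
  refine ⟨L', f1, f2.trans (e3.trans ?_)⟩
  have hNQ : N ≤ Q := by rw [hQN]; exact Nat.le_mul_of_pos_left N hs1
  have hsQ : s ≤ Q := by rw [hQN]; exact Nat.le_mul_of_pos_right s hN1
  have hQ1 : 1 ≤ Q := hs1.trans hsQ
  have b1 : (N + 1) * K ≤ 2 * (c₁ + c₂) * Q ^ 8 * E := by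
    calc (N + 1) * K ≤ (2 * Q) * K := Nat.mul_le_mul_right _ (by omega)
      _ = 2 * (c₁ + c₂) * Q ^ 7 * E := by rw [hK]; ring
      _ ≤ 2 * (c₁ + c₂) * Q ^ 8 * E := by
          gcongr
          norm_num
  have b2 : c₃ * (A.size + N + 1) ^ 8 ≤ 6561 * c₃ * Q ^ 8 * E := by
    calc c₃ * (A.size + N + 1) ^ 8 ≤ c₃ * (3 * Q) ^ 8 := by
          gcongr
          omega
      _ = 6561 * c₃ * Q ^ 8 * 1 := by ring
      _ ≤ 6561 * c₃ * Q ^ 8 * E := Nat.mul_le_mul_left _ hE1
  calc (N + 1) * K + c₃ * (A.size + N + 1) ^ 8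
      ≤ 2 * (c₁ + c₂) * Q ^ 8 * E + 6561 * c₃ * Q ^ 8 * E := Nat.add_le_add b1 b2
    _ = (2 * (c₁ + c₂) + 6561 * c₃) * Q ^ 8 * E := by ring

end Pool.Agent.H586P.T_main
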