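import Pool.Agent.H586P.Defs

/-! Task one (helper196): the world with ones. -/

set_option autoImplicit false

namespace Pool.Agent.H586P.T_one

open Pool.Agent.H586P Pool.Agent.H555R2.PF Pool.Agent.H555R2.PF.Fm

variable {F : List Rule}

theorem flipconj (hF : IsFrege F) : ∃ c : ℕ, ∀ (z : ℕ) (E : Fm) (l : List ℕ) (M : ℕ), 1 ≤ M →
    E.size ≤ M → (flip (conjL z (l.map fun i => neg (var i)))).size ≤ M → ∀ Γ : Set Fm,
    (∀ i ∈ l, imp E (var i) ∈ Γ) →
    Can F Γ [imp E (flip (conjL z (l.map fun i => neg (var i))))] (c * M * (l.length + 1)) := by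
  obtain ⟨c₁, h₁⟩ := schemaL hF [] (imp (var 0) (imp (neg (var 1)) (neg (var 1)))) (by
    intro v _; simp [eval])
  obtain ⟨c₂, h₂⟩ := schemaL hF [imp (var 0) (var 1), imp (var 0) (var 2)]
    (imp (var 0) (and (neg (neg (var 1))) (var 2))) (by
    intro v h; simp [eval] at h ⊢; tauto)
  refine ⟨c₁ + c₂, fun z E l M hM hE => ?_⟩
  induction l with
  | nil =>
    intro _ Γ _
    refine ((h₁ [E, var z] M hM ?_ Γ (by simp)).sub ?_).mono subset_rfl ?_
    · intro X hX; simp at hX
      rcases hX with rfl | rfl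
      exacts [hE, by simpa [size] using hM]
    · intro B hB
      simp only [List.mem_singleton] at hB
      subst hB
      simp [flip, conjL, subst, asg]
    · simp only [List.length_nil, zero_add, mul_one]
      exact Nat.mul_le_mul_right _ (by omega)
  | cons i l ih =>
    intro hs Γ hΓ
    have hs' : (flip (conjL z (l.map fun i => neg (var i)))).size ≤ M := by
      simp only [List.map_cons, conjL, flip, subst, size] at hs ⊢
      omega
    have h3 := ih hs' Γ (fun i' hi' => hΓ i' (by simp [hi']))
    have h5 := h₂ [E, var i, flip (conjL z (l.map fun i => neg (var i)))] M hM (by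
      intro X hX; simp at hX; rcases hX with rfl | rfl | rfl
      exacts [hE, by simpa [size] using hM, hs'])
      (Γ ∪ {B | B ∈ [imp E (flip (conjL z (l.map fun i => neg (var i))))]}) (by
        intro A hA
        simp only [List.mem_cons, List.not_mem_nil, or_false] at hA
        rcases hA with rfl | rfl
        · left; exact hΓ i (by simp)
        · right; simp [subst, asg])
    refine ((h3.cut h5).sub ?_).mono subset_rfl ?_
    · intro B hB
      simp only [List.mem_singleton] at hB
      subst hB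
      simp [flip, conjL, subst, asg]
    · simp only [List.length_cons]; nlinarith

theorem psize_oneL (y : ℕ → ℕ) (N : ℕ) : psize (oneL y N) = N := by
  unfold psize oneL
  rw [List.map_map]
  have : ((fun A : Fm => A.size) ∘ fun i => var (y i)) = fun _ => 1 := by
    funext i; simp [size]
  show ((List.range N).map ((fun A : Fm => A.size) ∘ fun i => var (y i))).sum = N
  rw [this]
  simp

theorem flip_size (z : ℕ) (l : List ℕ) :
    (flip (conjL z (l.map fun i => neg (var i)))).size = 4 * l.length + 5 := by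
  induction l with
  | nil => simp [flip, conjL, subst, size]
  | cons i l ih =>
    simp only [flip, List.map_cons, conjL, subst, size, List.length_cons] at ih ⊢
    omega

theorem t_one (F : List Rule) (hF : IsFrege F) (h1 : S_zero F) (h2 : S_flip F)
    (h3 : S_cintro F) (h4 : S_repl F) : S_one F := by
  obtain ⟨c0, h1⟩ := h1
  obtain ⟨c1, hmem⟩ := conj_mem hF
  obtain ⟨c2, hfc⟩ := flipconj hF
  obtain ⟨c3, hnn⟩ := schemaL hF [] (imp (var 0) (iff (neg (neg (var 1))) (var 1))) (by
    intro v _; simp [eval, iff])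
  obtain ⟨c4, h4⟩ := h4
  obtain ⟨c5, hfin⟩ := schemaL hF [imp (var 0) (var 1), imp (var 1) (var 2),
    imp (var 0) (iff (var 2) (var 3))] (imp (var 0) (var 3)) (by
    intro v h; simp [eval, iff] at h ⊢; tauto)
  refine ⟨2 * c0 + 20 * c1 + 40 * c2 + 20 * c3 + 20 * c4 + 20 * c5, ?_⟩
  intro A k L hEF w b N₀ z y hw hb hkwb hvar hz hy hyinj Γ
  set N := w * 2 ^ b with hN
  set P := psize (A :: L) * w * 2 ^ b with hP
  set V := (A.vars.card + 2) ^ (w + 1) with hV
  have hps : A.size ≤ psize (A :: L) := size_le_psize (by simp)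
  have hA1 := Fm.size_pos A
  have hN1 : 1 ≤ N := by
    rw [hN]; exact Nat.mul_pos hw (Nat.pow_pos (by norm_num))
  have hPN : P = psize (A :: L) * N := by rw [hP, hN]; ring
  have hAP : A.size ≤ P := by
    rw [hPN]; exact hps.trans (Nat.le_mul_of_pos_right _ hN1)
  have hNP : N ≤ P := by
    rw [hPN]; exact Nat.le_mul_of_pos_left _ (by omega)
  have hP1 : 1 ≤ P := by omega
  have hV1 : 1 ≤ V := Nat.one_le_pow _ _ (by omega)
  set E := conjL z (oneL y N) with hE
  set nn : ℕ → Fm := fun n => neg (neg (var n)) with hnnd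
  set l := (List.range N).map y with hl
  have hll : l.length = N := by rw [hl]; simp
  have hzero : zeroL y N = l.map fun i => neg (var i) := by
    rw [hl, List.map_map]; rfl
  set X := flip (conjL z (l.map fun i => neg (var i))) with hX
  have hEs : E.size ≤ 20 * P := by
    rw [hE, conjL_size, psize_oneL]
    simp only [oneL, List.length_map, List.length_range]
    omega
  have hXs : X.size ≤ 20 * P := by
    rw [hX, flip_size, hll]; omega
  have hAs : A.size ≤ 20 * P := by omega
  have hnns : (A.subst nn).size ≤ 20 * P := by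
    have := size_subst_le (σ := nn) (M := 3) (by norm_num) (A := A)
      (fun n _ => by simp [hnnd, size])
    omega
  have hM1 : 1 ≤ 20 * P := by omega
  -- 1: the flipped line
  have g1 : Can F Γ [imp X (A.subst nn)] (2 * (c0 * P ^ 6 * V)) := by
    have g0 := h1 A k L hEF w b N₀ z y true hw hb hkwb hvar hz hy hyinj ∅
    have g := h2 _ _ g0 Γ
    have e1 : flip (A.subst (fl true)) = A.subst nn := by
      unfold flip
      rw [subst_subst]
      apply subst_congr
      intro n _
      simp [fl, hnnd, subst]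
    have e2 : [imp (conjL z (zeroL y N)) (A.subst (fl true))].map flip =
        [imp X (A.subst nn)] := by
      rw [← e1, hX, ← hzero]
      rfl
    rw [← hN, e2] at g
    exact g
  -- 2: the literals
  have e : (oneL y N).length = N := by simp [oneL]
  have g2 : Can F Γ ((oneL y N).map (fun D => imp E D)) (N * (c1 * (20 * P) * N)) := by
    have := Can.many (F := F) (Γ := Γ) (fun D => imp E D) (c1 * (20 * P) * N) (oneL y N) (by
      intro D hD
      have := hmem z (oneL y N) (20 * P) hM1 hEs D hD Γ
      rw [e] at this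
      exact this)
    rw [e] at this
    exact this
  set Γ1 : Set Fm := Γ ∪ {B | B ∈ (oneL y N).map (fun D => imp E D)} with hΓ1
  have g3 := hfc z E l (20 * P) hM1 hEs hXs Γ1 (by
    intro i hi
    right
    rw [hl, List.mem_map] at hi
    obtain ⟨i', hi', rfl⟩ := hi
    exact List.mem_map.2 ⟨var (y i'), List.mem_map.2 ⟨i', hi', rfl⟩, rfl⟩)
  rw [hll] at g3
  have g23 := g2.cut g3
  -- 3: the equivalences
  have g4 : Can F Γ (A.vars.toList.map (fun n => imp E (iff (nn n) (var n))))
      (A.vars.card * (c3 * (20 * P))) := by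
    have := Can.many (F := F) (Γ := Γ) (fun n => imp E (iff (nn n) (var n))) (c3 * (20 * P))
      A.vars.toList (by
      intro n _
      have := hnn [E, var n] (20 * P) hM1 (by
        intro Y hY; simp at hY
        rcases hY with rfl | rfl
        exacts [hEs, by simpa [size] using hM1]) Γ (by simp)
      refine this.sub ?_
      intro B hB
      simp only [List.mem_singleton] at hB
      subst hB
      simp [hnnd, iff, subst, asg])
    rw [Finset.length_toList] at this
    exact this
  set Γ2 : Set Fm := Γ ∪ {B | B ∈ A.vars.toList.map (fun n => imp E (iff (nn n) (var n)))}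
    with hΓ2
  have g5 := h4 E A nn var (20 * P) hEs hnns (by rw [subst_var]; exact hAs) Γ2 (by
    intro n hn
    right
    exact List.mem_map.2 ⟨n, Finset.mem_toList.2 hn, rfl⟩)
  rw [subst_var] at g5
  have g45 := g4.cut g5
  -- assembly
  have g6 := (g23.append g1).append g45
  have g7 := hfin [E, X, A.subst nn, A] (20 * P) hM1 (by
    intro Y hY; simp at hY
    rcases hY with rfl | rfl | rfl | rfl
    exacts [hEs, hXs, hnns, hAs])
    (Γ ∪ {B | B ∈ ([imp E X] ++ [imp X (A.subst nn)]) ++
      [imp E (iff (A.subst nn) A)]}) (by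
      intro Y hY
      simp only [List.mem_cons, List.not_mem_nil, or_false] at hY
      right
      rcases hY with rfl | rfl | rfl <;> simp [iff, subst, asg])
  have g8 := (g6.cut g7).sub (G' := [imp E A]) (by
    intro B hB
    simp only [List.mem_singleton] at hB
    subst hB
    simp [subst, asg])
  refine g8.mono subset_rfl ?_
  have hcard : A.vars.card ≤ P := (vars_card_le A).trans hAP
  have p2 : P ^ 2 ≤ P ^ 6 := Nat.pow_le_pow_right hP1 (by norm_num)
  have p3 : P ^ 3 ≤ P ^ 6 := Nat.pow_le_pow_right hP1 (by norm_num)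
  have p1 : P ≤ P ^ 6 := by
    calc P = P ^ 1 := (pow_one P).symm
      _ ≤ P ^ 6 := Nat.pow_le_pow_right hP1 (by norm_num)
  have q1 : N * (c1 * (20 * P) * N) ≤ 20 * c1 * P ^ 6 := by
    calc N * (c1 * (20 * P) * N) ≤ P * (c1 * (20 * P) * P) := by gcongr
      _ = 20 * c1 * P ^ 3 := by ring
      _ ≤ _ := Nat.mul_le_mul_left _ p3
  have q2 : c2 * (20 * P) * (N + 1) ≤ 40 * c2 * P ^ 6 := by
    calc c2 * (20 * P) * (N + 1) ≤ c2 * (20 * P) * (2 * P) := by gcongr; omega
      _ = 40 * c2 * P ^ 2 := by ring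
      _ ≤ _ := Nat.mul_le_mul_left _ p2
  have q3 : A.vars.card * (c3 * (20 * P)) ≤ 20 * c3 * P ^ 6 := by
    calc A.vars.card * (c3 * (20 * P)) ≤ P * (c3 * (20 * P)) := by gcongr
      _ = 20 * c3 * P ^ 2 := by ring
      _ ≤ _ := Nat.mul_le_mul_left _ p2
  have q4 : c4 * (20 * P) * A.size ≤ 20 * c4 * P ^ 6 := by
    calc c4 * (20 * P) * A.size ≤ c4 * (20 * P) * P := by gcongr
      _ = 20 * c4 * P ^ 2 := by ring
      _ ≤ _ := Nat.mul_le_mul_left _ p2
  have q5 : c5 * (20 * P) ≤ 20 * c5 * P ^ 6 := by
    calc c5 * (20 * P) = 20 * c5 * P := by ring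
      _ ≤ _ := Nat.mul_le_mul_left _ p1
  have q6 : (20 * c1 + 40 * c2 + 20 * c3 + 20 * c4 + 20 * c5) * P ^ 6 ≤
      (20 * c1 + 40 * c2 + 20 * c3 + 20 * c4 + 20 * c5) * P ^ 6 * V :=
    Nat.le_mul_of_pos_right _ hV1
  calc _ ≤ 20 * c1 * P ^ 6 + 40 * c2 * P ^ 6 + 2 * (c0 * P ^ 6 * V) +
        (20 * c3 * P ^ 6 + 20 * c4 * P ^ 6) + 20 * c5 * P ^ 6 := by omega
    _ = 2 * (c0 * P ^ 6 * V) + (20 * c1 + 40 * c2 + 20 * c3 + 20 * c4 + 20 * c5) * P ^ 6 := by
        ring
    _ ≤ 2 * (c0 * P ^ 6 * V) +
        (20 * c1 + 40 * c2 + 20 * c3 + 20 * c4 + 20 * c5) * P ^ 6 * V := by omega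
    _ = _ := by ring

end Pool.Agent.H586P.T_one
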