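import Pool.Agent.H586P.Defs

/-!
# Renaming by a function which is injective on the variables
-/

set_option autoImplicit false

namespace Pool.Agent.H586P.T_ren

open Pool.Agent.H586P Pool.Agent.H555R2.PF Pool.Agent.H555R2.PF.Fm

/-- the dummy formula -/
def dum (z : ℕ) (W : List ℕ) : Fm := conjL z (W.map fun v => imp (var v) (var v))

theorem dum_size (z : ℕ) (W : List ℕ) : (dum z W).size = 4 * W.length + 3 := by
  induction W with
  | nil => simp [dum, conjL, size]
  | cons v W ih =>
    have : (dum z (v :: W)).size = 3 + (dum z W).size + 1 := rfl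
    rw [this, ih, List.length_cons]
    omega

theorem dum_vars (z : ℕ) (W : List ℕ) : ∀ v ∈ W, v ∈ (dum z W).vars := by
  induction W with
  | nil => intro v hv; simp at hv
  | cons w W ih =>
    intro v hv
    have e : (dum z (w :: W)).vars = ({w} ∪ {w}) ∪ (dum z W).vars := rfl
    rw [e, Finset.mem_union]
    rcases List.mem_cons.1 hv with rfl | hv
    · left; simp
    · right; exact ih v hv

theorem dum_can (F : List Rule) (hF : IsFrege F) : ∃ c : ℕ, ∀ (z : ℕ) (W : List ℕ) (M : ℕ),
    (dum z W).size ≤ M → ∀ Γ : Set Fm, Can F Γ [dum z W] (c * M * (W.length + 1)) := by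
  obtain ⟨c₁, h₁⟩ := schemaL hF [] (imp (var 0) (var 0)) (by
    intro v _; simp [eval])
  obtain ⟨c₂, h₂⟩ := schemaL hF [var 1] (and (imp (var 0) (var 0)) (var 1)) (by
    intro v h; simp [eval] at h ⊢; tauto)
  refine ⟨c₁ + c₂, fun z W M => ?_⟩
  induction W with
  | nil =>
    intro hM Γ
    have hM1 : 1 ≤ M := (size_pos _).trans hM
    have h := h₁ [var z] M hM1 (by
      intro X hX
      rw [List.mem_singleton] at hX
      subst hX
      exact hM1) Γ (by simp)
    refine (h.sub ?_).mono subset_rfl ?_
    · intro B hB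
      exact hB
    · simp only [List.length_nil]
      nlinarith [Nat.zero_le (c₂ * M)]
  | cons v W ih =>
    intro hM Γ
    have hM1 : 1 ≤ M := (size_pos _).trans hM
    have hs : (dum z (v :: W)).size = 3 + (dum z W).size + 1 := rfl
    have hW : (dum z W).size ≤ M := by omega
    have i1 := ih hW Γ
    refine (i1.cut (G' := [dum z (v :: W)]) (m' := c₂ * M) ?_).mono subset_rfl ?_
    · have h := h₂ [var v, dum z W] M hM1 (by
        intro X hX
        simp only [List.mem_cons, List.not_mem_nil, or_false] at hX
        rcases hX with rfl | rfl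
        · exact hM1
        · exact hW) (Γ ∪ {B | B ∈ [dum z W]}) (by
        intro A hA
        rw [List.mem_singleton] at hA
        subst hA
        right
        show dum z W ∈ [dum z W]
        simp)
      exact h
    · simp only [List.length_cons]
      nlinarith [Nat.zero_le (c₁ * M)]

theorem perm_ext (f : ℕ → ℕ) (S T : Finset ℕ) (hS : S ⊆ T) (hf : S.image f ⊆ T)
    (hinj : Set.InjOn f (S : Set ℕ)) :
    ∃ π : Equiv.Perm ℕ, (∀ n, n ∉ T → π n = n) ∧ ∀ n ∈ S, π n = f n := by
  classical
  have h := Finset.exists_equiv_extend_of_card_eq (α := {x // x ∈ T}) (β := ℕ) (t := T)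
    (by simp) (s := Finset.univ.filter fun x : {x // x ∈ T} => (x : ℕ) ∈ S)
    (f := fun x => f x) (by
      intro y hy
      rw [Finset.mem_image] at hy
      obtain ⟨x, hx, rfl⟩ := hy
      rw [Finset.mem_filter] at hx
      exact hf (Finset.mem_image_of_mem _ hx.2)) (by
      intro x hx y hy hxy
      have hx' : (x : ℕ) ∈ S := by
        have := Finset.mem_coe.1 hx
        rw [Finset.mem_filter] at this
        exact this.2
      have hy' : (y : ℕ) ∈ S := by
        have := Finset.mem_coe.1 hy
        rw [Finset.mem_filter] at this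
        exact this.2
      exact Subtype.ext (hinj hx' hy' hxy))
  obtain ⟨g, hg⟩ := h
  refine ⟨Equiv.Perm.ofSubtype (p := fun x => x ∈ T) g, ?_, ?_⟩
  · intro n hn
    exact Equiv.Perm.ofSubtype_apply_of_not_mem g hn
  · intro n hn
    have h1 := Equiv.Perm.ofSubtype_apply_of_mem (p := fun x => x ∈ T) g (hS hn)
    rw [h1]
    exact hg ⟨n, hS hn⟩ (by rw [Finset.mem_filter]; exact ⟨Finset.mem_univ _, hn⟩)

theorem t_ren (F : List Rule) (hF : IsFrege F) : S_ren F := by
  classical
  obtain ⟨c₁, h₁⟩ := dum_can F hF
  obtain ⟨c₂, h₂⟩ := schemaL hF [var 0, var 1] (and (var 0) (var 1)) (by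
    intro v h; simp [eval] at h ⊢; tauto)
  obtain ⟨c₃, h₃⟩ := schemaL hF [and (var 0) (var 1)] (var 0) (by
    intro v h; simp [eval] at h ⊢; tauto)
  refine ⟨14 * c₁ + 7 * c₂ + 7 * c₃ + 9, fun A f M hA hinj Γ hΓ => ?_⟩
  have hM1 : 1 ≤ M := (size_pos _).trans hA
  obtain ⟨z, hz⟩ := vars_nonempty A
  set W : List ℕ := (A.vars.image f).toList with hW
  have hWl : W.length ≤ M := by
    rw [hW, Finset.length_toList]
    exact (Finset.card_image_le.trans (vars_card_le A)).trans hA
  have hE : (dum z W).size ≤ 7 * M := by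
    rw [dum_size]
    omega
  have hA7 : A.size ≤ 7 * M := by omega
  have h71 : 1 ≤ 7 * M := by omega
  -- the permutation
  obtain ⟨π, hπ1, hπ2⟩ := perm_ext f A.vars (A.vars ∪ A.vars.image f) Finset.subset_union_left
    Finset.subset_union_right hinj
  have hren : A.rename π = A.rename f := by
    unfold rename
    exact subst_congr fun n hn => by rw [hπ2 n hn]
  have hvars : ∀ n, n ∉ (and A (dum z W)).vars → π n = n := by
    intro n hn
    apply hπ1
    intro h
    apply hn
    have e : (and A (dum z W)).vars = A.vars ∪ (dum z W).vars := rfl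
    rw [e, Finset.mem_union]
    rcases Finset.mem_union.1 h with h | h
    · exact Or.inl h
    · exact Or.inr (dum_vars z W n (by rw [hW, Finset.mem_toList]; exact h))
  -- the derivation
  have s1 := h₁ z W (7 * M) hE Γ
  refine (s1.cut (G' := [A.rename f]) (m' := (7 * c₂ + 7 * c₃ + 9) * M) ?_).mono subset_rfl ?_
  · set Γ1 : Set Fm := Γ ∪ {B | B ∈ [dum z W]}
    have s2 : Can F Γ1 [and A (dum z W)] (c₂ * (7 * M)) :=
      h₂ [A, dum z W] (7 * M) h71 (by
        intro X hX
        simp only [List.mem_cons, List.not_mem_nil, or_false] at hX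
        rcases hX with rfl | rfl
        · exact hA7
        · exact hE) Γ1 (by
        intro B hB
        simp only [List.mem_cons, List.not_mem_nil, or_false] at hB
        rcases hB with rfl | rfl
        · exact Or.inl hΓ
        · right
          show dum z W ∈ [dum z W]
          simp)
    refine (s2.cut (G' := [A.rename f]) (m' := 9 * M + c₃ * (7 * M)) ?_).mono subset_rfl ?_
    · set Γ2 : Set Fm := Γ1 ∪ {B | B ∈ [and A (dum z W)]}
      have s3 : Can F Γ2 [(and A (dum z W)).rename π] (and A (dum z W)).size :=
        Can.perm (Or.inr (by show and A (dum z W) ∈ [and A (dum z W)]; simp)) π hvars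
      have hX : (and A (dum z W)).size ≤ 9 * M := by
        have : (and A (dum z W)).size = A.size + (dum z W).size + 1 := rfl
        omega
      refine (s3.cut (G' := [A.rename f]) (m' := c₃ * (7 * M)) ?_).mono subset_rfl (by omega)
      have s4 := h₃ [A.rename π, (dum z W).rename π] (7 * M) h71 (by
        intro X hX
        simp only [List.mem_cons, List.not_mem_nil, or_false] at hX
        rcases hX with rfl | rfl
        · rw [size_rename]; exact hA7
        · rw [size_rename]; exact hE) (Γ2 ∪ {B | B ∈ [(and A (dum z W)).rename π]}) (by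
        intro B hB
        rw [List.mem_singleton] at hB
        subst hB
        right
        show and (A.rename π) ((dum z W).rename π) ∈ [(and A (dum z W)).rename π]
        rw [List.mem_singleton]
        rfl)
      rw [← hren]
      exact s4
    · nlinarith
  · have h5 : (W.length + 1) ≤ 2 * M := by omega
    have h6 : c₁ * (7 * M) * (W.length + 1) ≤ c₁ * (7 * M) * (2 * M) := Nat.mul_le_mul_left _ h5
    have h7 : (7 * c₂ + 7 * c₃ + 9) * M ≤ (7 * c₂ + 7 * c₃ + 9) * M * M := by
      nlinarith [Nat.zero_le ((7 * c₂ + 7 * c₃ + 9) * M)]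
    nlinarith

end Pool.Agent.H586P.T_ren
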