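import Pool.Agent.H586P.Defs

set_option autoImplicit false

namespace Pool.Agent.H586P.T_repl

open Pool.Agent.H586P Pool.Agent.H555R2.PF Pool.Agent.H555R2.PF.Fm

theorem t_repl (F : List Rule) (hF : IsFrege F) : S_repl F := by
  obtain ⟨c₁, h₁⟩ := schemaL hF [imp (var 0) (iff (var 1) (var 2))]
    (imp (var 0) (iff (neg (var 1)) (neg (var 2)))) (by
    intro v h; simp [eval, iff] at h ⊢; tauto)
  obtain ⟨c₂, h₂⟩ := schemaL hF [imp (var 0) (iff (var 1) (var 2)), imp (var 0) (iff (var 3) (var 4))]
    (imp (var 0) (iff (and (var 1) (var 3)) (and (var 2) (var 4)))) (by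
    intro v h; simp [eval, iff] at h ⊢; tauto)
  obtain ⟨c₃, h₃⟩ := schemaL hF [imp (var 0) (iff (var 1) (var 2)), imp (var 0) (iff (var 3) (var 4))]
    (imp (var 0) (iff (or (var 1) (var 3)) (or (var 2) (var 4)))) (by
    intro v h; simp [eval, iff] at h ⊢; tauto)
  obtain ⟨c₄, h₄⟩ := schemaL hF [imp (var 0) (iff (var 1) (var 2)), imp (var 0) (iff (var 3) (var 4))]
    (imp (var 0) (iff (imp (var 1) (var 3)) (imp (var 2) (var 4)))) (by
    intro v h; simp [eval, iff] at h ⊢; tauto)
  refine ⟨c₁ + c₂ + c₃ + c₄, fun H B σ τ M hH => ?_⟩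
  have hM : 1 ≤ M := (size_pos H).trans hH
  induction B with
  | var n =>
    intro _ _ Γ hΓ
    exact (Can.hyp (hΓ n (by simp [vars]))).mono subset_rfl (Nat.zero_le _)
  | neg A ih =>
    intro hs ht Γ hΓ
    simp only [subst, size] at hs ht
    have r := ih (by omega) (by omega) Γ hΓ
    have s := h₁ [H, A.subst σ, A.subst τ] M hM (by
      intro X hX; simp at hX; rcases hX with rfl | rfl | rfl
      exacts [hH, by omega, by omega]) (Γ ∪ {Y | Y ∈ [imp H (iff (A.subst σ) (A.subst τ))]}) (by
      intro Y hY; simp only [List.mem_singleton] at hY; subst hY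
      right; simp [subst, asg, iff])
    refine ((r.cut s).sub (by
      intro Y hY
      simpa [subst, asg, iff] using hY)).mono subset_rfl ?_
    simp only [size]
    nlinarith [Nat.zero_le (c₂ * M), Nat.zero_le (c₃ * M), Nat.zero_le (c₄ * M)]
  | and A B iA iB =>
    intro hs ht Γ hΓ
    simp only [subst, size] at hs ht
    have rA := iA (by omega) (by omega) Γ (fun n hn => hΓ n (by simp [vars, hn]))
    have rB := iB (by omega) (by omega) Γ (fun n hn => hΓ n (by simp [vars, hn]))
    have s := h₂ [H, A.subst σ, A.subst τ, B.subst σ, B.subst τ] M hM (by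
      intro X hX; simp at hX; rcases hX with rfl | rfl | rfl | rfl | rfl
      exacts [hH, by omega, by omega, by omega, by omega])
      (Γ ∪ {Y | Y ∈ [imp H (iff (A.subst σ) (A.subst τ))] ++
        [imp H (iff (B.subst σ) (B.subst τ))]}) (by
      intro Y hY; simp only [List.mem_cons, List.not_mem_nil, or_false] at hY
      rcases hY with rfl | rfl <;> right <;> simp [subst, asg, iff])
    refine (((rA.append rB).cut s).sub (by
      intro Y hY
      simpa [subst, asg, iff] using hY)).mono subset_rfl ?_
    simp only [size]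
    nlinarith [Nat.zero_le (c₁ * M), Nat.zero_le (c₃ * M), Nat.zero_le (c₄ * M)]
  | or A B iA iB =>
    intro hs ht Γ hΓ
    simp only [subst, size] at hs ht
    have rA := iA (by omega) (by omega) Γ (fun n hn => hΓ n (by simp [vars, hn]))
    have rB := iB (by omega) (by omega) Γ (fun n hn => hΓ n (by simp [vars, hn]))
    have s := h₃ [H, A.subst σ, A.subst τ, B.subst σ, B.subst τ] M hM (by
      intro X hX; simp at hX; rcases hX with rfl | rfl | rfl | rfl | rfl
      exacts [hH, by omega, by omega, by omega, by omega])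
      (Γ ∪ {Y | Y ∈ [imp H (iff (A.subst σ) (A.subst τ))] ++
        [imp H (iff (B.subst σ) (B.subst τ))]}) (by
      intro Y hY; simp only [List.mem_cons, List.not_mem_nil, or_false] at hY
      rcases hY with rfl | rfl <;> right <;> simp [subst, asg, iff])
    refine (((rA.append rB).cut s).sub (by
      intro Y hY
      simpa [subst, asg, iff] using hY)).mono subset_rfl ?_
    simp only [size]
    nlinarith [Nat.zero_le (c₁ * M), Nat.zero_le (c₂ * M), Nat.zero_le (c₄ * M)]
  | imp A B iA iB =>
    intro hs ht Γ hΓ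
    simp only [subst, size] at hs ht
    have rA := iA (by omega) (by omega) Γ (fun n hn => hΓ n (by simp [vars, hn]))
    have rB := iB (by omega) (by omega) Γ (fun n hn => hΓ n (by simp [vars, hn]))
    have s := h₄ [H, A.subst σ, A.subst τ, B.subst σ, B.subst τ] M hM (by
      intro X hX; simp at hX; rcases hX with rfl | rfl | rfl | rfl | rfl
      exacts [hH, by omega, by omega, by omega, by omega])
      (Γ ∪ {Y | Y ∈ [imp H (iff (A.subst σ) (A.subst τ))] ++
        [imp H (iff (B.subst σ) (B.subst τ))]}) (by
      intro Y hY; simp only [List.mem_cons, List.not_mem_nil, or_false] at hY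
      rcases hY with rfl | rfl <;> right <;> simp [subst, asg, iff])
    refine (((rA.append rB).cut s).sub (by
      intro Y hY
      simpa [subst, asg, iff] using hY)).mono subset_rfl ?_
    simp only [size]
    nlinarith [Nat.zero_le (c₁ * M), Nat.zero_le (c₂ * M), Nat.zero_le (c₃ * M)]

end Pool.Agent.H586P.T_repl
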