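import Pool.Agent.H586P.Defs

/-! Task tree (helper196): a binary tree of derivations. -/

set_option autoImplicit false

namespace Pool.Agent.H586P.T_tree

open Pool.Agent.H586P Pool.Agent.H555R2.PF Pool.Agent.H555R2.PF.Fm

theorem t_tree (F : List Rule) : S_tree F := by
  intro W r K K' Γ hleaf hstep a
  have key : ∀ d : ℕ, d ≤ r → ∃ m : ℕ, m + K' ≤ 2 ^ d * (K + K') ∧
      ∀ a, Can F Γ [W (r - d) a] m := by
    intro d
    induction d with
    | zero =>
      intro _
      exact ⟨K, by simp, fun a => by simpa using hleaf a⟩
    | succ d ih =>
      intro hd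
      obtain ⟨m, hm, hc⟩ := ih (by omega)
      refine ⟨m + m + K', ?_, fun a => ?_⟩
      · rw [pow_succ]
        nlinarith
      · have ht : r - (d + 1) + 1 = r - d := by omega
        have h1 := hc (Function.update a (r - (d + 1)) true)
        have h2 := hc (Function.update a (r - (d + 1)) false)
        refine (h1.append h2).cut ?_
        apply hstep (r - (d + 1)) (by omega) a
        · rw [ht]
          exact Or.inr (by simp)
        · rw [ht]
          exact Or.inr (by simp)
  obtain ⟨m, hm, hc⟩ := key r le_rfl
  have h := hc a
  rw [Nat.sub_self] at h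
  exact h.mono (Set.Subset.refl _) (by omega)

end Pool.Agent.H586P.T_tree
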