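import Pool.Agent.H586P.Defs

set_option autoImplicit false

namespace Pool.Agent.H586P.T_val

open Pool.Agent.H586P Pool.Agent.H555R2.PF Pool.Agent.H555R2.PF.Fm

theorem ef_sat {F : List Rule} (hF : IsFrege F) {A : Fm} {k : ℕ} {L : List Fm}
    (h : EFProof F A k L) (v : ℕ → Prop) :
    ∃ v' : ℕ → Prop, (∀ n ∈ A.vars, v' n ↔ v n) ∧ ∀ B ∈ L, B.eval v' := by
  classical
  induction h with
  | nil => exact ⟨v, fun _ _ => Iff.rfl, by simp⟩
  | @rule k L B hL hB ih =>
    obtain ⟨v', h1, h2⟩ := ih
    refine ⟨v', h1, ?_⟩
    intro C hC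
    rcases List.mem_cons.1 hC with rfl | hC
    · obtain ⟨r, hr, σ, e1, e2⟩ := hB
      rw [e1, eval_subst]
      apply hF.1 r hr
      intro p hp
      rw [← eval_subst]
      exact h2 _ (e2 p hp)
    · exact h2 C hC
  | @ext k L q φ hL h1 h3 h2 ih =>
    obtain ⟨v', h5, h6⟩ := ih
    refine ⟨Function.update v' q (φ.eval v'), ?_, ?_⟩
    · intro n hn
      rw [Function.update_of_ne (fun h : n = q => h2 (h ▸ hn))]
      exact h5 n hn
    · intro C hC
      rcases List.mem_cons.1 hC with rfl | hC
      · have : φ.eval (Function.update v' q (φ.eval v')) ↔ φ.eval v' := by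
          apply eval_congr
          intro n hn
          rw [Function.update_of_ne (fun h : n = q => h1 (h ▸ hn))]
        simp only [Fm.iff, eval, Function.update_self]
        rw [this]
        exact ⟨id, id⟩
      · have : C.eval (Function.update v' q (φ.eval v')) ↔ C.eval v' := by
          apply eval_congr
          intro n hn
          rw [Function.update_of_ne (fun h : n = q => h3 C hC (h ▸ hn))]
        rw [this]
        exact h6 C hC

theorem t_val (F : List Rule) (hF : IsFrege F) : S_val F := by
  intro A k L hL v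
  obtain ⟨v', h1, h2⟩ := ef_sat hF hL v
  exact (eval_congr h1).1 (h2 A (by simp))

theorem t_kle : S_kle := by
  intro F A k L hL
  induction hL with
  | nil => simp
  | @rule k L B hL hB ih => rw [psize_cons]; omega
  | @ext k L q φ hL h1 h2 h3 ih =>
    rw [psize_cons]
    have := size_pos (iff (var q) φ)
    omega

end Pool.Agent.H586P.T_val
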