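import Pool.Agent.H586P.Defs

/-! Task zero (helper196): the world with zeros. -/

set_option autoImplicit false

namespace Pool.Agent.H586P.T_zero

open Pool.Agent.H586P Pool.Agent.H555R2.PF Pool.Agent.H555R2.PF.Fm

theorem psize_zeroL (y : ℕ → ℕ) (N : ℕ) : psize (zeroL y N) = 2 * N := by
  unfold psize zeroL
  rw [List.map_map]
  have : ((fun A : Fm => A.size) ∘ fun i => neg (var (y i))) = fun _ => 2 := by
    funext i; simp [size]
  show ((List.range N).map ((fun A : Fm => A.size) ∘ fun i => neg (var (y i)))).sum = 2 * N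
  rw [this]
  simp
  omega

theorem psize_lit (P : List (ℕ × Bool)) : psize (P.map lit) ≤ 2 * P.length := by
  induction P with
  | nil => simp [psize]
  | cons x P ih =>
    rw [List.map_cons, psize_cons, List.length_cons]
    have : (lit x).size ≤ 2 := by
      unfold lit
      split_ifs <;> simp [size]
    omega

theorem t_zero (F : List Rule) (hF : IsFrege F) (h1 : S_dt F) (h2 : S_leaf1 F)
    (h3 : S_leaf2 F) (h4 : S_val F) : S_zero F := by
  obtain ⟨c0, h1⟩ := h1
  obtain ⟨c1, h2⟩ := h2
  obtain ⟨c2, h3⟩ := h3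
  obtain ⟨c4, h5⟩ := schemaL hF [imp (and (var 0) (imp (var 1) (var 1))) (var 2)]
    (imp (var 0) (var 2)) (by
    intro v h; simp [eval] at h ⊢; tauto)
  refine ⟨c1 + 64000 * c2 + 40 * c0 + 40 * c4, ?_⟩
  intro A k L hEF w b N₀ z y s hw hb hkwb hvar hz hy hyinj Γ
  set N := w * 2 ^ b with hN
  set Q := psize (A :: L) * w * 2 ^ b with hQ
  have hps : A.size ≤ psize (A :: L) := size_le_psize (by simp)
  have hA1 := Fm.size_pos A
  have hN1 : 1 ≤ N := by
    rw [hN]; exact Nat.mul_pos hw (Nat.pow_pos (by norm_num))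
  have hQN : Q = psize (A :: L) * N := by rw [hQ, hN]; ring
  have hAQ : A.size ≤ Q := by
    rw [hQN]; exact hps.trans (Nat.le_mul_of_pos_right _ hN1)
  have hNQ : N ≤ Q := by
    rw [hQN]; exact Nat.le_mul_of_pos_left _ (by omega)
  have hQ1 : 1 ≤ Q := by omega
  set X := conjL z (zeroL y N) with hX
  set G := A.subst (fl s) with hG
  have hXs : X.size = 3 * N + 3 := by
    rw [hX, conjL_size, psize_zeroL]
    simp only [zeroL, List.length_map, List.length_range]
    omega
  have hGs : G.size ≤ 2 * A.size := by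
    have := size_subst_le (σ := fl s) (M := 2) (by norm_num) (A := A)
      (fun n _ => by unfold fl; split_ifs <;> simp [size])
    rw [hG]; omega
  have hVl : A.vars.toList.length = A.vars.card := Finset.length_toList _
  have hcard := vars_card_le A
  have hXc : (conjL z [X]).size = X.size + 4 := by
    simp [conjL, size]
  have hval := h4 A k L hEF
  have g := h1 z G A.vars.toList w (c1 * Q ^ 6 + c2 * (40 * Q) ^ 3) (40 * Q) [X] Γ (by
    rw [hXc, hXs, hVl]; omega) (by
    intro P R hPR hcnt
    have hnd : (P.map Prod.fst).Nodup := by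
      have : ((P.map Prod.fst).reverse ++ R).Nodup := by
        rw [hPR]; exact Finset.nodup_toList _
      exact List.nodup_reverse.1 this.of_append_left
    have hmem : ∀ x ∈ P, x.1 ∈ A.vars := by
      intro x hx
      rw [← Finset.mem_toList, ← hPR]
      exact List.mem_append_left _ (List.mem_reverse.2 (List.mem_map.2 ⟨x, hx, rfl⟩))
    have hlen : P.length ≤ A.vars.card := by
      rw [← hVl, ← hPR]
      simp
    rcases hcnt with hc | ⟨hR, _⟩
    · exact (h2 A k L hEF w b N₀ z y s P hw hb hkwb hvar hz hy hyinj hnd hmem hc Γ).mono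
        subset_rfl (by rw [← hQ]; exact Nat.le_add_right _ _)
    · have hall : ∀ n ∈ A.vars, n ∈ P.map Prod.fst := by
        intro n hn
        rw [← Finset.mem_toList, ← hPR, hR, List.append_nil, List.mem_reverse] at hn
        exact hn
      refine (h3 A hval z s X P (40 * Q) hnd hall ?_ Γ).mono subset_rfl (by omega)
      rw [conjL_size, psize_append, psize_cons]
      have := psize_lit P
      simp only [psize, List.map_nil, List.sum_nil, List.length_append, List.length_map,
        List.length_cons, List.length_nil] at this ⊢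
      omega)
  have g2 := h5 [X, var z, G] (40 * Q) (by omega) (by
    intro Y hY; simp at hY
    rcases hY with rfl | rfl | rfl
    · omega
    · simp [size]; omega
    · omega) (Γ ∪ {B | B ∈ [imp (conjL z [X]) G]}) (by
    intro Y hY
    simp only [List.mem_singleton] at hY
    subst hY
    right
    simp [conjL, subst, asg])
  have g3 := (g.cut g2).sub (G' := [imp X G]) (by
    intro B hB
    simp only [List.mem_singleton] at hB
    subst hB
    simp [subst, asg])
  refine g3.mono subset_rfl ?_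
  rw [hVl]
  set V := (A.vars.card + 2) ^ (w + 1) with hV
  have hV1 : 1 ≤ V := Nat.one_le_pow _ _ (by omega)
  have p3 : Q ^ 3 ≤ Q ^ 6 := Nat.pow_le_pow_right hQ1 (by norm_num)
  have p1 : Q ≤ Q ^ 6 := by
    calc Q = Q ^ 1 := (pow_one Q).symm
      _ ≤ Q ^ 6 := Nat.pow_le_pow_right hQ1 (by norm_num)
  have q1 : c2 * (40 * Q) ^ 3 ≤ 64000 * c2 * Q ^ 6 := by
    calc c2 * (40 * Q) ^ 3 = 64000 * c2 * Q ^ 3 := by ring
      _ ≤ _ := Nat.mul_le_mul_left _ p3
  have q2 : c0 * (40 * Q) ≤ 40 * c0 * Q ^ 6 := by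
    calc c0 * (40 * Q) = 40 * c0 * Q := by ring
      _ ≤ _ := Nat.mul_le_mul_left _ p1
  have q3 : c4 * (40 * Q) ≤ 40 * c4 * Q ^ 6 * V := by
    calc c4 * (40 * Q) = 40 * c4 * Q := by ring
      _ ≤ 40 * c4 * Q ^ 6 := Nat.mul_le_mul_left _ p1
      _ ≤ _ := Nat.le_mul_of_pos_right _ hV1
  calc (c1 * Q ^ 6 + c2 * (40 * Q) ^ 3 + c0 * (40 * Q)) * V + c4 * (40 * Q)
      ≤ (c1 * Q ^ 6 + 64000 * c2 * Q ^ 6 + 40 * c0 * Q ^ 6) * V + 40 * c4 * Q ^ 6 * V := by
        gcongr
    _ = _ := by ring

end Pool.Agent.H586P.T_zero
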