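import Pool.Agent.H586P.Asm
import Pool.Agent.H586P.T_ded
import Pool.Agent.H586P.T_dline
import Pool.Agent.H586P.T_repl
import Pool.Agent.H586P.T_ren
import Pool.Agent.H586P.T_cintro
import Pool.Agent.H586P.T_disjT
import Pool.Agent.H586P.T_disjF
import Pool.Agent.H586P.T_dec
import Pool.Agent.H586P.T_leaf
import Pool.Agent.H586P.T_tree
import Pool.Agent.H586P.T_block
import Pool.Agent.H586P.T_htpure
import Pool.Agent.H586P.T_iter
import Pool.Agent.H586P.T_ht
import Pool.Agent.H586P.T_tok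
import Pool.Agent.H586P.T_dt
import Pool.Agent.H586P.T_ev
import Pool.Agent.H586P.T_val
import Pool.Agent.H586P.T_leaf1
import Pool.Agent.H586P.T_leaf2
import Pool.Agent.H586P.T_zero
import Pool.Agent.H586P.T_flip
import Pool.Agent.H586P.T_one
import Pool.Agent.H586P.T_cstep
import Pool.Agent.H586P.T_cloop
import Pool.Agent.H586P.T_cfin
import Pool.Agent.H586P.T_comb
import Pool.Agent.H586P.T_main
import Pool.Agent.H586P.T_fin

set_option autoImplicit false

namespace Pool.Agent.H586P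

open Pool.Agent.H555R2.PF Pool.Agent.H555R2.PF.Fm

theorem final (F : List Rule) (hF : IsFrege F) : S_fin F :=
  assemble F hF (T_ded.t_ded F) (T_dline.t_dline F) (T_repl.t_repl F) (T_ren.t_ren F)
    (T_cintro.t_cintro F) (T_disjT.t_disjT F) (T_disjF.t_disjF F) (T_dec.t_dec F)
    (T_leaf.t_leaf F) (T_tree.t_tree F) (T_block.t_block F) T_htpure.t_htsize T_htpure.t_htvars
    (T_iter.t_iter F) (T_ht.t_ht F) (T_tok.t_tok F) (T_dt.t_dt F) (T_ev.t_ev F) (T_val.t_val F)
    (T_leaf1.t_leaf1 F) (T_leaf2.t_leaf2 F) (T_zero.t_zero F) (T_flip.t_flip F) (T_one.t_one F)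
    (T_cstep.t_cstep F) (T_cloop.t_cloop F) (T_cfin.t_cfin F) (T_comb.t_comb F)
    (T_main.t_main F) T_val.t_kle (T_fin.t_fin F)

end Pool.Agent.H586P
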