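import Pool.Agent.H586P.Defs2

set_option autoImplicit false

namespace Pool.Agent.H586P.T_efflip

open Pool.Agent.H586P Pool.Agent.H555R2.PF Pool.Agent.H555R2.PF.Fm

/-- negate the variables of `A` -/
def sA (A : Fm) (n : ℕ) : Fm := if n ∈ A.vars then neg (var n) else var n

theorem vars_sA (A : Fm) (n : ℕ) : (sA A n).vars = {n} := by
  unfold sA; split_ifs <;> simp [vars]

theorem size_sA (A : Fm) (n : ℕ) : (sA A n).size ≤ 2 := by
  unfold sA; split_ifs <;> simp [size]

theorem vars_subst {σ : ℕ → Fm} (hσ : ∀ n, (σ n).vars = {n}) (B : Fm) :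
    (B.subst σ).vars = B.vars := by
  induction B with
  | var n => simp only [subst, vars, hσ]
  | neg B ih => simp only [subst, vars, ih]
  | and B C iB iC => simp only [subst, vars, iB, iC]
  | or B C iB iC => simp only [subst, vars, iB, iC]
  | imp B C iB iC => simp only [subst, vars, iB, iC]

theorem flip_eq (A : Fm) : A.subst (sA A) = flip A := by
  unfold flip
  apply subst_congr
  intro n hn
  simp [sA, hn]

theorem flip_vars (A : Fm) : (flip A).vars = A.vars := by
  unfold flip
  exact vars_subst (fun n => by simp [vars]) A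

theorem ef {F : List Rule} {A : Fm} {k : ℕ} {L : List Fm} (h : EFProof F A k L) :
    EFProof F (flip A) k (L.map (Fm.subst (sA A))) := by
  induction h with
  | nil => exact EFProof.nil
  | @rule k L B h hB ih =>
    obtain ⟨r, hr, τ, h1, h2⟩ := hB
    refine EFProof.rule ih ⟨r, hr, fun n => (τ n).subst (sA A), ?_, ?_⟩
    · rw [h1, subst_subst]
    · intro p hp
      rw [← subst_subst]
      exact List.mem_map.2 ⟨_, h2 p hp, rfl⟩
  | @ext k L q φ h hq1 hq2 hq3 ih =>
    have e : (iff (var q) φ).subst (sA A) = iff (var q) (φ.subst (sA A)) := by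
      simp only [iff, subst, sA, hq3, if_false]
    simp only [List.map_cons]
    rw [e]
    refine EFProof.ext ih ?_ ?_ ?_
    · rwa [vars_subst (vars_sA A)]
    · intro C hC
      obtain ⟨D, hD, rfl⟩ := List.mem_map.1 hC
      rw [vars_subst (vars_sA A)]
      exact hq2 D hD
    · rwa [flip_vars]

theorem psize_map (A : Fm) (L : List Fm) :
    psize (L.map (Fm.subst (sA A))) ≤ 2 * psize L := by
  induction L with
  | nil => simp [psize]
  | cons B L ih =>
    simp only [List.map_cons, psize_cons]
    have := size_subst_le (σ := sA A) (M := 2) (by norm_num) (A := B) (fun n _ => size_sA A n)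
    omega

theorem t_efflip (F : List Rule) : S_efflip F := by
  intro A k L h
  refine ⟨L.map (Fm.subst (sA A)), ?_, ?_⟩
  · have := ef h
    rwa [List.map_cons, flip_eq] at this
  · have := psize_map A (A :: L)
    rwa [List.map_cons, flip_eq] at this

end Pool.Agent.H586P.T_efflip
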