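import Pool.Agent.H586P.Defs2

set_option autoImplicit false

namespace Pool.Agent.H586P.T_equiv

open Pool.Agent.H586P Pool.Agent.H555R2.PF Pool.Agent.H555R2.PF.Fm

theorem exists_bound (L : List Fm) : ∃ z : ℕ, ∀ B ∈ L, ∀ n ∈ B.vars, n < z := by
  induction L with
  | nil => exact ⟨0, by simp⟩
  | cons A L ih =>
    obtain ⟨z, hz⟩ := ih
    refine ⟨z + A.vars.sup id + 1, ?_⟩
    intro B hB n hn
    rcases List.mem_cons.1 hB with rfl | hB
    · have := Finset.le_sup (f := id) hn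
      simp only [id] at this
      omega
    · have := hz B hB n hn
      omega

theorem litF_false (y : ℕ → ℕ) (N : ℕ) : litF false y N = zeroL y N := by
  simp [litF, zeroL, lit]

theorem litF_true (y : ℕ → ℕ) (N : ℕ) : litF true y N = oneL y N := by
  simp [litF, oneL, lit]

theorem lit_size (x : ℕ × Bool) : (lit x).size ≤ 2 := by
  unfold lit; split <;> simp [size]

theorem litF_size (z : ℕ) (s : Bool) (y : ℕ → ℕ) (N : ℕ) :
    (conjL z (litF s y N)).size ≤ 3 * N + 3 := by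
  have h1 : psize (litF s y N) ≤ 2 * N := by
    unfold litF
    induction N with
    | zero => simp [psize]
    | succ N ih =>
      rw [List.range_succ, List.map_append, psize_append]
      have : psize (List.map (fun i => lit (y i, s)) [N]) ≤ 2 := by
        simp only [List.map_cons, List.map_nil, psize, List.sum_cons, List.sum_nil, add_zero]
        exact lit_size _
      omega
  rw [conjL_size]
  have h2 : (litF s y N).length = N := by simp [litF]
  omega

theorem litR_size (z : ℕ) (s : Bool) (y : ℕ → ℕ) (N : ℕ) :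
    (conjL z (litR s y N)).size ≤ 3 * N + 3 := by
  induction N with
  | zero => simp [litR, conjL, size]
  | succ N ih =>
    simp only [litR, conjL, size]
    have := lit_size (y N, s)
    omega

/-- one world -/
theorem world (F : List Rule) (hF : IsFrege F) (h1 : S_msim F) (h2 : S_lconv F) :
    ∃ c : ℕ, ∀ (s : Bool) (B : Fm) (L : List Fm), MonoProof F {s} (B :: L) →
      ∀ (N₀ z N T : ℕ) (y : ℕ → ℕ), (∀ C ∈ B :: L, ∀ n ∈ C.vars, n < N₀ ∧ n ≠ z) → z < N₀ →
      (∀ i < N, N₀ ≤ y i) → InjB y N → (B :: L).length ≤ N → N ≤ T → psize (B :: L) ≤ T →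
      ∀ Γ : Set Fm, Can F Γ [imp (conjL z (litF s y N)) B] (c * (T + 1) ^ 4) := by
  obtain ⟨c₁, hc₁⟩ := h1
  obtain ⟨c₂, hc₂⟩ := h2
  obtain ⟨c₃, hc₃⟩ := schemaL hF [imp (var 0) (var 1), imp (var 1) (var 2)]
    (imp (var 0) (var 2)) (by
    intro v h; simp [eval] at h ⊢; tauto)
  refine ⟨c₁ + c₂ + 3 * c₃, ?_⟩
  intro s B L hL N₀ z N T y hvars hz hy hyi hlen hNT hPT Γ
  have s1 := hc₁ s (B :: L) hL N₀ z y hvars hz (fun i hi => hy i (by omega))
    (fun i hi j hj h => hyi i (by omega) j (by omega) h) Γ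
  have s2 := hc₂ s z y (B :: L).length N hlen Γ
  have s12 := s1.append s2
  have hB : B.size ≤ T := (size_le_psize (L := B :: L) (by simp)).trans hPT
  have s3 := hc₃ [conjL z (litF s y N), conjL z (litR s y (B :: L).length), B] (3 * T + 3)
    (by omega) (by
      intro X hX
      simp only [List.mem_cons, List.not_mem_nil, or_false] at hX
      rcases hX with rfl | rfl | rfl
      · exact (litF_size _ _ _ _).trans (by omega)
      · exact (litR_size _ _ _ _).trans (by omega)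
      · omega) (Γ ∪ {X | X ∈ (B :: L).map (imp (conjL z (litR s y (B :: L).length))) ++
        [imp (conjL z (litF s y N)) (conjL z (litR s y (B :: L).length))]}) (by
      intro X hX
      simp only [List.mem_cons, List.not_mem_nil, or_false] at hX
      rcases hX with rfl | rfl
      · right; simp [subst, asg]
      · right; simp [subst, asg])
  refine ((s12.cut s3).sub ?_).mono subset_rfl ?_
  · intro X hX
    simp only [List.mem_singleton] at hX
    subst hX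
    simp [subst, asg]
  · have e1 : (psize (B :: L) + 1) ^ 4 ≤ (T + 1) ^ 4 := Nat.pow_le_pow_left (by omega) 4
    have e2 : (N + 1) ^ 4 ≤ (T + 1) ^ 4 := Nat.pow_le_pow_left (by omega) 4
    have e3 : T + 1 ≤ (T + 1) ^ 4 := Nat.le_self_pow (by norm_num) _
    have f1 : c₁ * (psize (B :: L) + 1) ^ 4 ≤ c₁ * (T + 1) ^ 4 := Nat.mul_le_mul_left _ e1
    have f2 : c₂ * (N + 1) ^ 4 ≤ c₂ * (T + 1) ^ 4 := Nat.mul_le_mul_left _ e2
    have f3 : c₃ * (3 * T + 3) ≤ 3 * c₃ * (T + 1) ^ 4 := by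
      calc c₃ * (3 * T + 3) = 3 * c₃ * (T + 1) := by ring
        _ ≤ _ := Nat.mul_le_mul_left _ e3
    calc _ ≤ c₁ * (T + 1) ^ 4 + c₂ * (T + 1) ^ 4 + 3 * c₃ * (T + 1) ^ 4 := by omega
      _ = _ := by ring

theorem t_equiv (F : List Rule) (hF : IsFrege F) (h1 : S_msim F) (h2 : S_lconv F)
    (h3 : S_fworld F) (h4 : S_efflip F) (h5 : S_comb F) : S_equiv F := by
  obtain ⟨c₁, hc₁⟩ := world F hF h1 h2
  obtain ⟨c₃, hc₃⟩ := h3
  obtain ⟨c₄, hc₄⟩ := h5
  intro s hs
  obtain ⟨c₀, hc₀⟩ := hs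
  set D := c₀ + c₀ * 2 ^ c₀ + 1 with hD
  refine ⟨(2 * c₁ + 16 * c₃ + 256 * c₄) * D ^ 8 + 8 * c₀, ?_⟩
  intro A k L hL
  obtain ⟨L₁, hL₁, hp₁⟩ := hc₀ A k L hL
  obtain ⟨L', hL', hp'⟩ := h4 A k L hL
  obtain ⟨L₂, hL₂, hp₂⟩ := hc₀ (flip A) k L' hL'
  obtain ⟨z, hz⟩ := exists_bound ((A :: L₁) ++ (flip A :: L₂))
  set P := psize (A :: L) with hP
  have hPpos : 1 ≤ P := by
    have : A.size ≤ P := size_le_psize (by simp)
    have := size_pos A
    omega
  obtain ⟨T, hT⟩ : ∃ T, T = psize (A :: L₁) + psize (flip A :: L₂) := ⟨_, rfl⟩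
  obtain ⟨N, hN⟩ : ∃ N, N = max (A :: L₁).length (flip A :: L₂).length := ⟨_, rfl⟩
  have hNT : N ≤ T := by
    have := length_le_psize (A :: L₁)
    have := length_le_psize (flip A :: L₂)
    omega
  have hAT : A.size ≤ T := by
    have : A.size ≤ psize (A :: L₁) := size_le_psize (by simp)
    omega
  obtain ⟨K, hK⟩ : ∃ K, K = 2 * (c₁ * (T + 1) ^ 4) + c₃ * (A.size + N + 1) ^ 4 := ⟨_, rfl⟩
  have main := hc₄ A N K (z + 1) z (fun n hn => by
    have := hz A (by simp) n hn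
    omega) (by omega) (by
    intro y hy hyi
    have w1 := hc₁ s A L₁ hL₁ (z + 1) z N T y (by
      intro C hC n hn
      have := hz C (by simp only [List.mem_append]; exact Or.inl hC) n hn
      omega) (by omega) hy hyi (by omega) hNT (by omega) ∅
    have w2 := hc₁ s (flip A) L₂ hL₂ (z + 1) z N T y (by
      intro C hC n hn
      have := hz C (by simp only [List.mem_append]; exact Or.inr hC) n hn
      omega) (by omega) hy hyi (by omega) hNT (by omega) ∅
    have w3 := hc₃ s z A y N _ w2 ∅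
    have w1' := w1.mono (m' := K) subset_rfl (by rw [hK]; omega)
    have w3' := w3.mono (m' := K) subset_rfl (by rw [hK])
    cases s with
    | false =>
      rw [litF_false] at w1'
      rw [Bool.not_false, litF_true] at w3'
      exact ⟨w1', w3'⟩
    | true =>
      rw [litF_true] at w1'
      rw [Bool.not_true, litF_false] at w3'
      exact ⟨w3', w1'⟩)
  obtain ⟨D', hD1, hD2, hD3⟩ := main [] PermProof.nil (by simp)
  obtain ⟨L'', hL'', hp''⟩ := permProof_cut hD1 (hD2 A (by simp))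
  refine ⟨L'', hL'', hp''.trans ?_⟩
  rw [List.append_nil]
  refine hD3.trans ?_
  have hT1 : T + 1 ≤ D * P ^ c₀ := by
    have hPc : 1 ≤ P ^ c₀ := Nat.one_le_pow _ _ hPpos
    have q2 : c₀ * psize (flip A :: L') ^ c₀ ≤ c₀ * 2 ^ c₀ * P ^ c₀ := by
      have : psize (flip A :: L') ^ c₀ ≤ (2 * P) ^ c₀ := Nat.pow_le_pow_left hp' _
      calc _ ≤ c₀ * (2 * P) ^ c₀ := Nat.mul_le_mul_left _ this
        _ = _ := by rw [mul_pow]; ring
    calc T + 1 ≤ c₀ * P ^ c₀ + c₀ * 2 ^ c₀ * P ^ c₀ + P ^ c₀ := by omega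
      _ = D * P ^ c₀ := by rw [hD]; ring
  have hbig : (N + 1) * K + c₄ * (A.size + N + 1) ^ 8 ≤
      (2 * c₁ + 16 * c₃ + 256 * c₄) * (T + 1) ^ 8 := by
    have g1 : (A.size + N + 1) ^ 4 ≤ 16 * (T + 1) ^ 4 := by
      calc _ ≤ (2 * (T + 1)) ^ 4 := Nat.pow_le_pow_left (by omega) 4
        _ = _ := by ring
    have g2 : (A.size + N + 1) ^ 8 ≤ 256 * (T + 1) ^ 8 := by
      calc _ ≤ (2 * (T + 1)) ^ 8 := Nat.pow_le_pow_left (by omega) 8
        _ = _ := by ring
    have g3 : K ≤ (2 * c₁ + 16 * c₃) * (T + 1) ^ 4 := by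
      rw [hK]
      calc _ ≤ 2 * (c₁ * (T + 1) ^ 4) + c₃ * (16 * (T + 1) ^ 4) :=
            Nat.add_le_add_left (Nat.mul_le_mul_left _ g1) _
        _ = _ := by ring
    have g4 : (N + 1) * K ≤ (2 * c₁ + 16 * c₃) * (T + 1) ^ 8 := by
      calc (N + 1) * K ≤ (T + 1) * ((2 * c₁ + 16 * c₃) * (T + 1) ^ 4) :=
            Nat.mul_le_mul (by omega) g3
        _ = (2 * c₁ + 16 * c₃) * (T + 1) ^ 5 := by ring
        _ ≤ _ := Nat.mul_le_mul_left _ (Nat.pow_le_pow_right (by omega) (by norm_num))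
    calc _ ≤ (2 * c₁ + 16 * c₃) * (T + 1) ^ 8 + c₄ * (256 * (T + 1) ^ 8) :=
          Nat.add_le_add g4 (Nat.mul_le_mul_left _ g2)
      _ = _ := by ring
  refine hbig.trans ?_
  have h8 : (T + 1) ^ 8 ≤ D ^ 8 * P ^ (8 * c₀) := by
    calc _ ≤ (D * P ^ c₀) ^ 8 := Nat.pow_le_pow_left hT1 8
      _ = D ^ 8 * P ^ (8 * c₀) := by rw [mul_pow, ← pow_mul, mul_comm c₀ 8]
  calc (2 * c₁ + 16 * c₃ + 256 * c₄) * (T + 1) ^ 8
      ≤ (2 * c₁ + 16 * c₃ + 256 * c₄) * (D ^ 8 * P ^ (8 * c₀)) := Nat.mul_le_mul_left _ h8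
    _ = (2 * c₁ + 16 * c₃ + 256 * c₄) * D ^ 8 * P ^ (8 * c₀) := by ring
    _ ≤ ((2 * c₁ + 16 * c₃ + 256 * c₄) * D ^ 8 + 8 * c₀) *
        P ^ ((2 * c₁ + 16 * c₃ + 256 * c₄) * D ^ 8 + 8 * c₀) :=
      Nat.mul_le_mul (Nat.le_add_right _ _) (Nat.pow_le_pow_right hPpos (Nat.le_add_left _ _))

end Pool.Agent.H586P.T_equiv
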