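import Pool.Agent.H586P.Defs2

set_option autoImplicit false

namespace Pool.Agent.H586P.T_fworld

open Pool.Agent.H586P Pool.Agent.H555R2.PF Pool.Agent.H555R2.PF.Fm

theorem psize_litF (s : Bool) (y : ℕ → ℕ) (N : ℕ) : psize (litF s y N) ≤ 2 * N := by
  unfold litF
  induction N with
  | zero => simp [psize]
  | succ N ih =>
    rw [List.range_succ, List.map_append, psize_append]
    have : psize ([N].map fun i => lit (y i, s)) ≤ 2 := by
      simp only [List.map_cons, List.map_nil, psize, List.sum_cons, List.sum_nil]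
      unfold lit; split_ifs <;> simp [size]
    omega

theorem litF_length (s : Bool) (y : ℕ → ℕ) (N : ℕ) : (litF s y N).length = N := by
  simp [litF]

/-- introduction of a flipped conjunction -/
theorem fc (F : List Rule) (hF : IsFrege F) : ∃ c : ℕ, ∀ (z : ℕ) (U : Fm) (M : ℕ), 1 ≤ M →
    U.size ≤ M → ∀ Ds : List Fm, (flip (conjL z Ds)).size ≤ M → ∀ Γ : Set Fm,
    (∀ D ∈ Ds, imp U (flip D) ∈ Γ) →
    Can F Γ [imp U (flip (conjL z Ds))] (c * M * (Ds.length + 1)) := by
  obtain ⟨c₁, h₁⟩ := schemaL hF [] (imp (var 0) (imp (neg (var 1)) (neg (var 1)))) (by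
    intro v _; simp [eval])
  obtain ⟨c₂, h₂⟩ := schemaL hF [imp (var 0) (var 1), imp (var 0) (var 2)]
    (imp (var 0) (and (var 1) (var 2))) (by
    intro v h; simp [eval] at h ⊢; tauto)
  refine ⟨c₁ + c₂, fun z U M hM hU Ds => ?_⟩
  induction Ds with
  | nil =>
    intro _ Γ _
    refine ((h₁ [U, var z] M hM ?_ Γ (by simp)).sub ?_).mono subset_rfl ?_
    · intro X hX; simp at hX
      rcases hX with rfl | rfl
      exacts [hU, by simpa [size] using hM]
    · intro B hB
      simp only [List.mem_singleton] at hB ⊢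
      rw [hB]
      simp [flip, conjL, subst, asg]
    · simp only [List.length_nil, zero_add, mul_one]
      exact Nat.mul_le_mul_right _ (by omega)
  | cons D Ds ih =>
    intro hs Γ hΓ
    have hs' : (flip D).size ≤ M ∧ (flip (conjL z Ds)).size ≤ M := by
      simp only [flip, conjL, subst, size] at hs ⊢; omega
    have h3 := ih hs'.2 Γ (fun D' hD' => hΓ D' (by simp [hD']))
    have h5 := h₂ [U, flip D, flip (conjL z Ds)] M hM (by
      intro X hX; simp at hX; rcases hX with rfl | rfl | rfl
      exacts [hU, hs'.1, hs'.2]) (Γ ∪ {B | B ∈ [imp U (flip (conjL z Ds))]}) (by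
        intro A hA
        simp only [List.mem_cons, List.not_mem_nil, or_false] at hA
        rcases hA with rfl | rfl
        · left; simpa [subst, asg] using hΓ D (by simp)
        · right; simp [subst, asg])
    refine ((h3.cut h5).sub ?_).mono subset_rfl ?_
    · intro B hB
      simp only [List.mem_singleton] at hB ⊢
      rw [hB]
      simp [flip, conjL, subst, asg]
    · simp only [List.length_cons]; nlinarith

theorem t_fworld (F : List Rule) (hF : IsFrege F) (h1 : S_flip F) (h2 : S_cintro F)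
    (h3 : S_repl F) : S_fworld F := by
  have _ := h2
  obtain ⟨c₂, h₂⟩ := conj_mem hF
  obtain ⟨c₃, h₃⟩ := schemaL hF [imp (var 0) (var 1)] (imp (var 0) (neg (neg (var 1)))) (by
    intro v h; simp [eval] at h ⊢; tauto)
  obtain ⟨c₄, h₄⟩ := fc F hF
  obtain ⟨c₅, h₅⟩ := schemaL hF [] (imp (var 0) (iff (neg (neg (var 1))) (var 1))) (by
    intro v h; simp [eval, Fm.iff])
  obtain ⟨c₆, h₆⟩ := h3
  obtain ⟨c₇, h₇⟩ := schemaL hF [imp (var 0) (var 1), imp (var 1) (var 2),
    imp (var 0) (iff (var 2) (var 3))] (imp (var 0) (var 3)) (by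
    intro v h; simp [eval, Fm.iff] at h ⊢; tauto)
  refine ⟨6 * c₂ + 6 * c₃ + 6 * c₄ + 6 * c₅ + 6 * c₆ + 6 * c₇, ?_⟩
  intro s z A y N K hK Γ
  set T := A.size + N + 1 with hT
  set U := conjL z (litF (!s) y N) with hU
  set Q := flip (conjL z (litF s y N)) with hQ
  have hT1 : 1 ≤ T := by omega
  have hUs : U.size ≤ 6 * T := by
    rw [hU, conjL_size, litF_length]
    have := psize_litF (!s) y N
    omega
  have hQs : Q.size ≤ 6 * T := by
    have h8 := size_subst_le (σ := fun n => neg (var n)) (M := 2) (by omega)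
      (A := conjL z (litF s y N)) (fun n _ => by simp [size])
    have h9 : Q = (conjL z (litF s y N)).subst (fun n => neg (var n)) := rfl
    rw [h9]
    rw [conjL_size, litF_length] at h8
    have := psize_litF s y N
    omega
  have hM : 1 ≤ 6 * T := by omega
  have hff : flip (flip A) = A.subst (fun n => neg (neg (var n))) := by
    unfold flip
    rw [subst_subst]
    rfl
  have hffs : (flip (flip A)).size ≤ 6 * T := by
    rw [hff]
    have h8 := size_subst_le (σ := fun n => neg (neg (var n))) (M := 3) (by omega)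
      (A := A) (fun n _ => by simp [size])
    omega
  have s1 : Can F Γ [imp Q (flip (flip A))] (2 * K) :=
    (h1 _ _ hK Γ).sub (by simp [flip, subst, hQ])
  -- the hypotheses
  have s2 := Can.many (F := F) (Γ := Γ) (fun i => imp U (flip (lit (y i, s))))
    (c₂ * (6 * T) * N + c₃ * (6 * T)) (List.range N) (by
    intro i hi
    have m1 := h₂ z (litF (!s) y N) (6 * T) hM hUs (lit (y i, !s))
      (List.mem_map.2 ⟨i, hi, rfl⟩) Γ
    rw [litF_length] at m1
    cases s with
    | true =>
      refine (m1.sub ?_).mono subset_rfl (by omega)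
      intro B hB
      simp only [List.mem_singleton] at hB ⊢
      rw [hB]
      simp [lit, flip, subst, hU]
    | false =>
      have m2 := h₃ [U, var (y i)] (6 * T) hM (by
        intro X hX; simp at hX
        rcases hX with rfl | rfl
        exacts [hUs, by simpa [size] using hM])
        (Γ ∪ {B | B ∈ [imp (conjL z (litF (!false) y N)) (lit (y i, !false))]}) (by
        intro X hX
        simp only [List.mem_singleton] at hX
        subst hX
        right
        simp [subst, asg, lit, hU])
      refine ((m1.cut m2).sub ?_)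
      intro B hB
      simp only [List.mem_singleton] at hB ⊢
      rw [hB]
      simp [lit, flip, subst, asg, hU])
  have s3 := h₄ z U (6 * T) hM hUs (litF s y N) hQs
    (Γ ∪ {B | B ∈ (List.range N).map (fun i => imp U (flip (lit (y i, s))))}) (by
    intro D hD
    obtain ⟨i, hi, rfl⟩ := List.mem_map.1 hD
    right
    exact List.mem_map.2 ⟨i, hi, rfl⟩)
  -- equivalences
  have s4 := Can.many (F := F) (Γ := Γ)
    (fun n => imp U (iff (neg (neg (var n))) (var n))) (c₅ * (6 * T)) A.vars.toList (by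
    intro n hn
    have := h₅ [U, var n] (6 * T) hM (by
      intro X hX; simp at hX
      rcases hX with rfl | rfl
      exacts [hUs, by simpa [size] using hM]) Γ (by simp)
    refine this.sub ?_
    intro B hB
    simp only [List.mem_singleton] at hB ⊢
    rw [hB]
    simp [subst, asg, Fm.iff])
  have s5 := h₆ U A (fun n => neg (neg (var n))) var (6 * T) hUs (by rw [← hff]; exact hffs)
    (by rw [subst_var]; omega)
    (Γ ∪ {B | B ∈ A.vars.toList.map (fun n => imp U (iff (neg (neg (var n))) (var n)))}) (by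
    intro n hn
    right
    exact List.mem_map.2 ⟨n, by simpa using hn, rfl⟩)
  have s7 := s1.append ((s2.cut s3).append (s4.cut s5))
  have s8 := h₇ [U, Q, flip (flip A), A] (6 * T) hM (by
      intro X hX; simp at hX
      rcases hX with rfl | rfl | rfl | rfl
      exacts [hUs, hQs, hffs, by omega])
    (Γ ∪ {B | B ∈ [imp Q (flip (flip A))] ++ ([imp U Q] ++
      [imp U (iff (A.subst fun n => neg (neg (var n))) (A.subst var))])}) (by
      intro X hX
      simp only [List.mem_cons, List.not_mem_nil, or_false] at hX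
      rcases hX with rfl | rfl | rfl
      · right; simp [subst, asg]
      · right; simp [subst, asg]
      · right; simp [subst, asg, Fm.iff, hff, subst_var])
  refine ((s7.cut s8).sub (by simp [subst, asg])).mono subset_rfl ?_
  -- arithmetic
  have hcard : A.vars.toList.length ≤ T := by
    rw [Finset.length_toList]
    exact (vars_card_le A).trans (by omega)
  have hAT : A.size ≤ T := by omega
  have hN1 : N + 1 ≤ T := by omega
  have hN : N ≤ T := by omega
  have hT2 : T ^ 2 ≤ T ^ 4 := Nat.pow_le_pow_right hT1 (by omega)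
  have hT3 : T ^ 3 ≤ T ^ 4 := Nat.pow_le_pow_right hT1 (by omega)
  have hT11 : T ^ 1 ≤ T ^ 4 := Nat.pow_le_pow_right hT1 (by omega)
  have e1 : N * (c₂ * (6 * T) * N + c₃ * (6 * T)) ≤ 6 * c₂ * T ^ 4 + 6 * c₃ * T ^ 4 := by
    calc N * (c₂ * (6 * T) * N + c₃ * (6 * T))
        ≤ T * (c₂ * (6 * T) * T + c₃ * (6 * T)) :=
          Nat.mul_le_mul hN (Nat.add_le_add_right (Nat.mul_le_mul_left _ hN) _)
      _ = 6 * c₂ * T ^ 3 + 6 * c₃ * T ^ 2 := by ring
      _ ≤ _ := Nat.add_le_add (Nat.mul_le_mul_left _ hT3) (Nat.mul_le_mul_left _ hT2)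
  have e2 : c₄ * (6 * T) * (N + 1) ≤ 6 * c₄ * T ^ 4 := by
    calc c₄ * (6 * T) * (N + 1) ≤ c₄ * (6 * T) * T := Nat.mul_le_mul_left _ hN1
      _ = 6 * c₄ * T ^ 2 := by ring
      _ ≤ _ := Nat.mul_le_mul_left _ hT2
  have e3 : A.vars.toList.length * (c₅ * (6 * T)) ≤ 6 * c₅ * T ^ 4 := by
    calc A.vars.toList.length * (c₅ * (6 * T)) ≤ T * (c₅ * (6 * T)) :=
          Nat.mul_le_mul_right _ hcard
      _ = 6 * c₅ * T ^ 2 := by ring
      _ ≤ _ := Nat.mul_le_mul_left _ hT2
  have e4 : c₆ * (6 * T) * A.size ≤ 6 * c₆ * T ^ 4 := by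
    calc c₆ * (6 * T) * A.size ≤ c₆ * (6 * T) * T := Nat.mul_le_mul_left _ hAT
      _ = 6 * c₆ * T ^ 2 := by ring
      _ ≤ _ := Nat.mul_le_mul_left _ hT2
  have e5 : c₇ * (6 * T) ≤ 6 * c₇ * T ^ 4 := by
    calc c₇ * (6 * T) = 6 * c₇ * T ^ 1 := by ring
      _ ≤ _ := Nat.mul_le_mul_left _ hT11
  have e6 : (6 * c₂ + 6 * c₃ + 6 * c₄ + 6 * c₅ + 6 * c₆ + 6 * c₇) * T ^ 4 =
      6 * c₂ * T ^ 4 + 6 * c₃ * T ^ 4 + 6 * c₄ * T ^ 4 + 6 * c₅ * T ^ 4 +
        6 * c₆ * T ^ 4 + 6 * c₇ * T ^ 4 := by ring
  rw [e6]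
  have e7 : (List.range N).length = N := List.length_range
  have e8 : (litF s y N).length = N := litF_length s y N
  rw [e7, e8]
  omega

end Pool.Agent.H586P.T_fworld
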