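import Pool.Agent.H586P.Defs2

/-!
# Extended Frege is simulated by Frege + permutation + both monotone substitution rules
-/

set_option autoImplicit false

namespace Pool.Agent.H586P.T_join

open Pool.Agent.H586P Pool.Agent.H555R2.PF Pool.Agent.H555R2.PF.Fm

variable {F : List Rule}

/-- as `Can`, for proofs with both monotone substitution rules -/
def MC (F : List Rule) (Γ : Set Fm) (G : List Fm) (m : ℕ) : Prop :=
  ∀ L, MonoProof F Set.univ L → (∀ A ∈ Γ, A ∈ L) →
    ∃ D, MonoProof F Set.univ (D ++ L) ∧ (∀ B ∈ G, B ∈ D ++ L) ∧ psize D ≤ m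

namespace MC

variable {Γ Γ' : Set Fm} {G G' : List Fm} {m m' : ℕ}

theorem mono (h : MC F Γ G m) (hΓ : Γ ⊆ Γ') (hm : m ≤ m') : MC F Γ' G m' := by
  intro L hL hΓL
  obtain ⟨D, h1, h2, h3⟩ := h L hL fun A hA => hΓL A (hΓ hA)
  exact ⟨D, h1, h2, h3.trans hm⟩

theorem sub (h : MC F Γ G m) (hG : ∀ B ∈ G', B ∈ G) : MC F Γ G' m := by
  intro L hL hΓL
  obtain ⟨D, h1, h2, h3⟩ := h L hL hΓL
  exact ⟨D, h1, fun B hB => h2 B (hG B hB), h3⟩

theorem nil : MC F Γ [] 0 := fun L hL _ => ⟨[], hL, by simp, by simp [psize]⟩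

theorem hyp {B : Fm} (h : B ∈ Γ) : MC F Γ [B] 0 := fun L hL hΓ =>
  ⟨[], hL, by simpa using hΓ B h, by simp [psize]⟩

theorem cut (h : MC F Γ G m) (h' : MC F (Γ ∪ {B | B ∈ G}) G' m') : MC F Γ G' (m + m') := by
  intro L hL hΓL
  obtain ⟨D, h1, h2, h3⟩ := h L hL hΓL
  obtain ⟨D', h1', h2', h3'⟩ := h' (D ++ L) h1 (by
    rintro A (hA | hA)
    · exact List.mem_append_right _ (hΓL A hA)
    · exact h2 A hA)
  refine ⟨D' ++ D, by rwa [List.append_assoc], ?_, ?_⟩
  · intro B hB
    rw [List.append_assoc]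
    exact h2' B hB
  · rw [psize_append]; omega

theorem append (h : MC F Γ G m) (h' : MC F Γ G' m') : MC F Γ (G ++ G') (m + m') := by
  intro L hL hΓL
  obtain ⟨D, h1, h2, h3⟩ := h L hL hΓL
  obtain ⟨D', h1', h2', h3'⟩ := h' (D ++ L) h1 fun A hA => List.mem_append_right _ (hΓL A hA)
  refine ⟨D' ++ D, by rwa [List.append_assoc], ?_, ?_⟩
  · intro B hB
    rw [List.append_assoc]
    rcases List.mem_append.1 hB with hB | hB
    · exact List.mem_append_right _ (h2 B hB)
    · exact h2' B hB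
  · rw [psize_append]; omega

/-- one application of a monotone substitution -/
theorem mstep (s : Bool) {B : Fm} (hB : B ∈ Γ) (p : ℕ) (ψ : Fm) :
    MC F Γ [B.subst (Function.update var p (mixv s p ψ))]
      (B.subst (Function.update var p (mixv s p ψ))).size := by
  intro L hL hΓL
  refine ⟨[B.subst (Function.update var p (mixv s p ψ))],
    MonoProof.mono (s := s) (Set.mem_univ s) hL ⟨B, hΓL B hB, p, ψ, rfl⟩, by simp, ?_⟩
  simp [psize]

end MC

theorem derivation_inst' {Γ₀ : List Fm} {Lf : List Fm}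
    (hd : Derivation F Γ₀ Lf) {σ : ℕ → Fm} {M : ℕ} (hM : 1 ≤ M) (hσ : ∀ n, (σ n).size ≤ M)
    {Γ : Set Fm} (hΓ : ∀ A ∈ Γ₀, A.subst σ ∈ Γ) :
    MC F Γ (Lf.map (Fm.subst σ)) (psize Lf * M) := by
  induction hd with
  | nil => simpa using (MC.nil : MC F Γ [] 0).mono subset_rfl (Nat.zero_le _)
  | @hyp L B hd hB ih =>
    have h1 : MC F Γ [B.subst σ] 0 := MC.hyp (hΓ B hB)
    refine ((h1.append ih).sub (by simp)).mono subset_rfl ?_
    rw [psize_cons]
    nlinarith [Nat.zero_le (B.size * M)]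
  | @rule L B hd hB ih =>
    obtain ⟨r, hr, τ, h1, h2⟩ := hB
    intro L' hL' hΓL'
    obtain ⟨D, h3, h4, h5⟩ := ih L' hL' hΓL'
    have h6 : FregeStep F (D ++ L') (B.subst σ) := by
      refine ⟨r, hr, fun n => (τ n).subst σ, by rw [h1, Fm.subst_subst], ?_⟩
      intro p hp
      rw [← Fm.subst_subst]
      exact h4 _ (List.mem_map.2 ⟨_, h2 p hp, rfl⟩)
    refine ⟨B.subst σ :: D, MonoProof.rule h3 h6, ?_, ?_⟩
    · intro C hC
      simp only [List.map_cons, List.mem_cons] at hC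
      rcases hC with rfl | hC
      · simp
      · exact List.mem_cons_of_mem _ (h4 C hC)
    · rw [psize_cons, psize_cons]
      have := Fm.size_subst_le (σ := σ) hM (A := B) (fun n _ => hσ n)
      nlinarith

theorem schemaM (hF : IsFrege F) (Γ₀ : List Fm) (B₀ : Fm) (h : Entails Γ₀ B₀) :
    ∃ c : ℕ, ∀ (l : List Fm) (M : ℕ), 1 ≤ M → (∀ X ∈ l, X.size ≤ M) → ∀ Γ : Set Fm,
      (∀ A ∈ Γ₀, A.subst (asg l) ∈ Γ) → MC F Γ [B₀.subst (asg l)] (c * M) := by
  obtain ⟨L, hL⟩ := hF.2 Γ₀ B₀ h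
  refine ⟨psize (B₀ :: L), fun l M hM hl Γ hΓ => ?_⟩
  exact (derivation_inst' hL hM (asg_size hM hl) hΓ).sub (by simp)

theorem of_perm {L : List Fm} (h : PermProof F L) : MonoProof F Set.univ L := by
  induction h with
  | nil => exact MonoProof.nil
  | rule _ h ih => exact MonoProof.rule ih h
  | perm _ h ih => exact MonoProof.perm ih h

theorem mono_cut {L : List Fm} (h : MonoProof F Set.univ L) {B : Fm} (hB : B ∈ L) :
    ∃ L', MonoProof F Set.univ (B :: L') ∧ psize (B :: L') ≤ psize L := by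
  induction h with
  | nil => simp at hB
  | @rule L C hL hC ih =>
    rcases List.mem_cons.1 hB with rfl | hB
    · exact ⟨L, MonoProof.rule hL hC, le_rfl⟩
    · obtain ⟨L', h1, h2⟩ := ih hB
      exact ⟨L', h1, by rw [psize_cons C]; omega⟩
  | @perm L C hL hC ih =>
    rcases List.mem_cons.1 hB with rfl | hB
    · exact ⟨L, MonoProof.perm hL hC, le_rfl⟩
    · obtain ⟨L', h1, h2⟩ := ih hB
      exact ⟨L', h1, by rw [psize_cons C]; omega⟩
  | @mono s L C hs hL hC ih =>
    rcases List.mem_cons.1 hB with rfl | hB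
    · exact ⟨L, MonoProof.mono hs hL hC, le_rfl⟩
    · obtain ⟨L', h1, h2⟩ := ih hB
      exact ⟨L', h1, by rw [psize_cons C]; omega⟩

/-- elimination of one extension variable -/
theorem step (hF : IsFrege F) : ∃ c : ℕ, ∀ (e : ℕ) (ψ E A : Fm) (M : ℕ), e ∉ ψ.vars →
    e ∉ E.vars → e ∉ A.vars → (imp (and (iff (var e) ψ) E) A).size ≤ M →
    ∀ Γ : Set Fm, imp (and (iff (var e) ψ) E) A ∈ Γ → MC F Γ [imp E A] (c * M) := by
  obtain ⟨c, hc⟩ := schemaM hF [imp (and (iff (and (or (var 0) (var 1)) (var 1)) (var 1))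
    (var 2)) (var 3)] (imp (var 2) (var 3)) (by
    intro v h; simp [eval, iff] at h ⊢; tauto)
  refine ⟨c + 20, ?_⟩
  intro e ψ E A M h1 h2 h3 hM Γ hΓ
  have fix : ∀ (C Z : Fm), e ∉ C.vars → C.subst (Function.update var e Z) = C := by
    intro C Z hC
    rw [subst_congr (τ := var) (fun n hn => ?_), subst_var]
    rw [Function.update_of_ne (by rintro rfl; exact hC hn)]
  have hsz : (imp (and (iff (var e) ψ) E) A).size = 2 * ψ.size + E.size + A.size + 7 := by
    simp only [iff, size]; omega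
  have hpos := Fm.size_pos ψ
  have s1 := MC.mstep (F := F) false hΓ e ψ
  have e1 : (imp (and (iff (var e) ψ) E) A).subst (Function.update var e (mixv false e ψ)) =
      imp (and (iff (and (var e) ψ) ψ) E) A := by
    simp only [iff, subst, fix ψ _ h1, fix E _ h2, fix A _ h3, Function.update_self]
    simp [mixv]
  rw [e1] at s1
  have s2 := MC.mstep (F := F) (Γ := Γ ∪ {B | B ∈ [imp (and (iff (and (var e) ψ) ψ) E) A]})
    (B := imp (and (iff (and (var e) ψ) ψ) E) A) true (Or.inr (by simp)) e ψ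
  have e2 : (imp (and (iff (and (var e) ψ) ψ) E) A).subst
      (Function.update var e (mixv true e ψ)) =
      imp (and (iff (and (or (var e) ψ) ψ) ψ) E) A := by
    simp only [iff, subst, fix ψ _ h1, fix E _ h2, fix A _ h3, Function.update_self]
    simp [mixv]
  rw [e2] at s2
  have s3 := s1.cut s2
  have s4 := hc [var e, ψ, E, A] M (by omega) (by
    intro Y hY; simp at hY
    rcases hY with rfl | rfl | rfl | rfl
    · simp only [size]; omega
    · omega
    · omega
    · omega) (Γ ∪ {B | B ∈ [imp (and (iff (and (or (var e) ψ) ψ) ψ) E) A]}) (by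
      intro Y hY
      simp only [List.mem_singleton] at hY
      subst hY
      right; simp [iff, subst, asg])
  have e3 : (imp (var 2) (var 3)).subst (asg [var e, ψ, E, A]) = imp E A := by
    simp [subst, asg]
  rw [e3] at s4
  refine (s3.cut s4).mono subset_rfl ?_
  have t1 : (imp (and (iff (and (var e) ψ) ψ) E) A).size = 4 * ψ.size + E.size + A.size + 9 := by
    simp only [iff, size]; omega
  have t2 : (imp (and (iff (and (or (var e) ψ) ψ) ψ) E) A).size =
      6 * ψ.size + E.size + A.size + 11 := by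
    simp only [iff, size]; omega
  rw [t1, t2]
  rw [hsz] at hM
  nlinarith

theorem extL_length (q : ℕ → ℕ) (φ : ℕ → Fm) (m : ℕ) : (extL q φ m).length = m := by
  induction m with
  | zero => rfl
  | succ m ih => simp [extL, ih]

theorem extL_mono (q : ℕ → ℕ) (φ : ℕ → Fm) {m k : ℕ} (h : m ≤ k) :
    psize (extL q φ m) ≤ psize (extL q φ k) := by
  induction k with
  | zero => simp at h; subst h; exact le_rfl
  | succ k ih =>
    rcases Nat.lt_or_ge m (k + 1) with h1 | h1
    · have := ih (by omega)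
      simp only [extL, psize_cons]
      omega
    · have : m = k + 1 := by omega
      subst this
      exact le_rfl

theorem extL_mem {q : ℕ → ℕ} {φ : ℕ → Fm} {m : ℕ} {D : Fm} (h : D ∈ extL q φ m) :
    ∃ j < m, D = iff (var (q j)) (φ j) := by
  induction m with
  | zero => simp [extL] at h
  | succ m ih =>
    simp only [extL, List.mem_cons] at h
    rcases h with h | h
    · exact ⟨m, by omega, h⟩
    · obtain ⟨j, hj, h⟩ := ih h
      exact ⟨j, by omega, h⟩

/-- elimination of all extension variables -/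
theorem loop (hF : IsFrege F) : ∃ c : ℕ, ∀ (A : Fm) (k : ℕ) (q : ℕ → ℕ) (φ : ℕ → Fm) (z M : ℕ),
    Good A k q φ → (∀ i < k, q i ≠ z) → (imp (conjL z (extL q φ k)) A).size ≤ M →
    ∀ m ≤ k, ∀ Γ : Set Fm, imp (conjL z (extL q φ m)) A ∈ Γ →
      MC F Γ [imp (conjL z []) A] (m * (c * M)) := by
  obtain ⟨c, hc⟩ := step hF
  refine ⟨c, fun A k q φ z M hg hz hM m => ?_⟩
  induction m with
  | zero =>
    intro _ Γ hΓ
    exact (MC.hyp hΓ).mono subset_rfl (Nat.zero_le _)
  | succ m ih =>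
    intro hm Γ hΓ
    have hE : q m ∉ (conjL z (extL q φ m)).vars := by
      intro h
      rcases conjL_vars h with h | ⟨D, hD, h⟩
      · exact hz m (by omega) h
      · obtain ⟨j, hj, rfl⟩ := extL_mem hD
        simp only [iff, vars, Finset.mem_union, Finset.mem_singleton] at h
        have n1 := hg.2.2 m (by omega) j hj
        have n2 := hg.2.1 m (by omega) j hj.le
        tauto
    have s1 := hc (q m) (φ m) (conjL z (extL q φ m)) A M (hg.2.1 m (by omega) m le_rfl) hE
      (hg.1 m (by omega)) (by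
        refine le_trans ?_ hM
        have h1 := extL_mono q φ hm
        have h2 : (imp (and (iff (var (q m)) (φ m)) (conjL z (extL q φ m))) A).size =
            (imp (conjL z (extL q φ (m + 1))) A).size := rfl
        rw [h2]
        simp only [size, conjL_size, extL_length]
        omega) Γ hΓ
    have s2 := ih (by omega) (Γ ∪ {B | B ∈ [imp (conjL z (extL q φ m)) A]})
      (Or.inr (by simp))
    refine (s1.cut s2).mono subset_rfl ?_
    nlinarith

/-- **join** -/
theorem t_join (F : List Rule) (hF : IsFrege F) (h1 : S_dline F) : S_join F := by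
  obtain ⟨c₁, h₁⟩ := h1
  obtain ⟨c₂, h₂⟩ := loop hF
  obtain ⟨c₃, h₃⟩ := schemaM hF [imp (imp (var 0) (var 0)) (var 1)] (var 1) (by
    intro v h; simp [eval] at h ⊢; tauto)
  refine ⟨c₁ + 7 * c₂ + 7 * c₃, fun A k L hL => ?_⟩
  obtain ⟨q, φ, hg, hmem, hsz, hcan⟩ := h₁ A k L hL
  obtain ⟨z, hz⟩ := Fm.vars_nonempty A
  have hzq : ∀ i < k, q i ≠ z := fun i hi h => hg.1 i hi (h ▸ hz)
  have s0 := hcan z var 1 le_rfl rfl (fun n => by simp [size]) ∅
  rw [subst_var, mul_one] at s0
  obtain ⟨D, hD1, hD2, hD3⟩ := s0 [] PermProof.nil (by simp)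
  rw [List.append_nil] at hD1 hD2
  set s := psize (A :: L) with hs
  have hs1 : A.size ≤ s := by rw [hs, psize_cons]; omega
  have hA1 := Fm.size_pos A
  have hk : k ≤ s := by
    have h5 := length_le_psize (extL q φ k)
    rw [extL_length] at h5
    omega
  have hM : (imp (conjL z (extL q φ k)) A).size ≤ 7 * s := by
    simp only [size, conjL_size, extL_length]
    omega
  have m1 := h₂ A k q φ z (7 * s) hg hzq hM k le_rfl {B | B ∈ D} (hD2 _ (by simp))
  have m2 := h₃ [var z, A] (7 * s) (by omega) (by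
    intro Y hY; simp at hY
    rcases hY with rfl | rfl
    · simp only [size]; omega
    · omega) ({B | B ∈ D} ∪ {B | B ∈ [imp (conjL z []) A]}) (by
      intro Y hY
      simp only [List.mem_singleton] at hY
      subst hY
      right; simp [subst, asg, conjL])
  have e1 : (var 1).subst (asg [var z, A]) = A := by simp [subst, asg]
  rw [e1] at m2
  obtain ⟨D', hD1', hD2', hD3'⟩ := (m1.cut m2) D (of_perm hD1) (fun B hB => hB)
  obtain ⟨L', hL1, hL2⟩ := mono_cut hD1' (hD2' A (by simp))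
  refine ⟨L', hL1, hL2.trans ?_⟩
  rw [psize_append]
  have hs2 : 1 ≤ s := by omega
  have p1 : s ^ 3 ≤ s ^ 4 := Nat.pow_le_pow_right hs2 (by norm_num)
  have p2 : s * s ≤ s ^ 4 := by
    calc s * s = s ^ 2 := by ring
      _ ≤ s ^ 4 := Nat.pow_le_pow_right hs2 (by norm_num)
  have p3 : s ≤ s ^ 4 := by
    calc s = s ^ 1 := by ring
      _ ≤ s ^ 4 := Nat.pow_le_pow_right hs2 (by norm_num)
  calc psize D' + psize D ≤ (k * (c₂ * (7 * s)) + c₃ * (7 * s)) + c₁ * s ^ 3 :=
        Nat.add_le_add hD3' hD3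
    _ ≤ (s * (c₂ * (7 * s)) + c₃ * (7 * s)) + c₁ * s ^ 3 := by gcongr
    _ = 7 * c₂ * (s * s) + 7 * c₃ * s + c₁ * s ^ 3 := by ring
    _ ≤ 7 * c₂ * s ^ 4 + 7 * c₃ * s ^ 4 + c₁ * s ^ 4 := by gcongr
    _ = (c₁ + 7 * c₂ + 7 * c₃) * s ^ 4 := by ring

end Pool.Agent.H586P.T_join
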