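import Pool.Agent.H586P.Defs2

set_option autoImplicit false

namespace Pool.Agent.H586P.T_lconv

open Pool.Agent.H586P Pool.Agent.H555R2.PF Pool.Agent.H555R2.PF.Fm

private theorem lit_size (x : ℕ × Bool) : (lit x).size ≤ 2 := by
  unfold lit
  split_ifs <;> simp [size]

private theorem psize_le {L : List Fm} (h : ∀ B ∈ L, B.size ≤ 2) : psize L ≤ 2 * L.length := by
  induction L with
  | nil => simp [psize]
  | cons B L ih =>
    rw [psize_cons]
    have h1 := h B (by simp)
    have h2 := ih fun C hC => h C (by simp [hC])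
    simp only [List.length_cons]
    omega

private theorem litR_len (s : Bool) (y : ℕ → ℕ) : ∀ m, (litR s y m).length = m := by
  intro m
  induction m with
  | zero => rfl
  | succ m ih => simp [litR, ih]

private theorem mem_litR {s : Bool} {y : ℕ → ℕ} {D : Fm} : ∀ {m : ℕ}, D ∈ litR s y m →
    ∃ i < m, D = lit (y i, s) := by
  intro m
  induction m with
  | zero => intro h; simp [litR] at h
  | succ m ih =>
    intro h
    simp only [litR, List.mem_cons] at h
    rcases h with h | h
    · exact ⟨m, by omega, h⟩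
    · obtain ⟨i, hi, h⟩ := ih h
      exact ⟨i, by omega, h⟩

theorem t_lconv (F : List Rule) (hF : IsFrege F) (h1 : S_cintro F) : S_lconv F := by
  obtain ⟨c₁, hc₁⟩ := conj_mem hF
  obtain ⟨c₂, hc₂⟩ := h1
  refine ⟨3 * (c₁ + c₂), ?_⟩
  intro s z y m N hm Γ
  set U : Fm := conjL z (litF s y N) with hU
  have hlF : (litF s y N).length = N := by simp [litF]
  have sU : U.size ≤ 3 * (N + 1) := by
    rw [hU, conjL_size, hlF]
    have : psize (litF s y N) ≤ 2 * (litF s y N).length := psize_le (by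
      intro B hB
      simp only [litF, List.mem_map] at hB
      obtain ⟨i, _, rfl⟩ := hB
      exact lit_size _)
    rw [hlF] at this
    omega
  have sV : (conjL z (litR s y m)).size ≤ 3 * (N + 1) := by
    rw [conjL_size, litR_len]
    have : psize (litR s y m) ≤ 2 * (litR s y m).length := psize_le (by
      intro B hB
      obtain ⟨i, _, rfl⟩ := mem_litR hB
      exact lit_size _)
    rw [litR_len] at this
    omega
  have hM : 1 ≤ 3 * (N + 1) := by omega
  have a1 := Can.many (F := F) (Γ := Γ) (fun i => imp U (lit (y i, s)))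
    (c₁ * (3 * (N + 1)) * N) (List.range m) (by
      intro i hi
      have hi' : i < N := lt_of_lt_of_le (List.mem_range.1 hi) hm
      have := hc₁ z (litF s y N) (3 * (N + 1)) hM sU (lit (y i, s))
        (List.mem_map.2 ⟨i, List.mem_range.2 hi', rfl⟩) Γ
      rw [hlF] at this
      exact this)
  have a2 := hc₂ z U (litR s y m) (3 * (N + 1)) sU sV
    (Γ ∪ {B | B ∈ (List.range m).map (fun i => imp U (lit (y i, s)))}) (by
      intro D hD
      obtain ⟨i, hi, rfl⟩ := mem_litR hD
      right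
      exact List.mem_map.2 ⟨i, List.mem_range.2 hi, rfl⟩)
  refine (a1.cut a2).mono subset_rfl ?_
  rw [List.length_range, litR_len]
  have e1 : m * (c₁ * (3 * (N + 1)) * N) ≤ (N + 1) * (c₁ * (3 * (N + 1)) * (N + 1)) :=
    Nat.mul_le_mul (by omega) (Nat.mul_le_mul_left _ (by omega))
  have e2 : c₂ * (3 * (N + 1)) * (m + 1) ≤ c₂ * (3 * (N + 1)) * (N + 1) :=
    Nat.mul_le_mul_left _ (by omega)
  have e3 : (N + 1) ^ 2 ≤ (N + 1) ^ 4 := Nat.pow_le_pow_right (by omega) (by omega)
  have e4 : (N + 1) ^ 3 ≤ (N + 1) ^ 4 := Nat.pow_le_pow_right (by omega) (by omega)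
  calc m * (c₁ * (3 * (N + 1)) * N) + c₂ * (3 * (N + 1)) * (m + 1)
      ≤ 3 * c₁ * (N + 1) ^ 3 + 3 * c₂ * (N + 1) ^ 2 := by
        calc _ ≤ (N + 1) * (c₁ * (3 * (N + 1)) * (N + 1)) + c₂ * (3 * (N + 1)) * (N + 1) :=
              Nat.add_le_add e1 e2
          _ = _ := by ring
    _ ≤ 3 * c₁ * (N + 1) ^ 4 + 3 * c₂ * (N + 1) ^ 4 :=
        Nat.add_le_add (Nat.mul_le_mul_left _ e4) (Nat.mul_le_mul_left _ e3)
    _ = 3 * (c₁ + c₂) * (N + 1) ^ 4 := by ring

end Pool.Agent.H586P.T_lconv
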