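import Pool.Agent.H586P.Defs2

/-! Task meet (helper196): Frege + permutation is the meet of the two dual systems. -/

set_option autoImplicit false

namespace Pool.Agent.H586P.T_meet

open Pool.Agent.H586P Pool.Agent.H555R2.PF Pool.Agent.H555R2.PF.Fm

variable {F : List Rule}

theorem lit_size (x : ℕ × Bool) : (lit x).size ≤ 2 := by
  unfold lit
  split_ifs <;> simp [size]

theorem psize_litR (s : Bool) (y : ℕ → ℕ) (m : ℕ) : psize (litR s y m) ≤ 2 * m := by
  induction m with
  | zero => simp [litR, psize]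
  | succ m ih =>
    rw [litR, psize_cons]
    have := lit_size (y m, s)
    omega

theorem length_litR (s : Bool) (y : ℕ → ℕ) (m : ℕ) : (litR s y m).length = m := by
  induction m with
  | zero => rfl
  | succ m ih => rw [litR, List.length_cons, ih]

theorem psize_litF (s : Bool) (y : ℕ → ℕ) (N : ℕ) : psize (litF s y N) ≤ 2 * N := by
  unfold litF
  induction N with
  | zero => simp [psize]
  | succ m ih =>
    rw [List.range_succ, List.map_append, psize_append]
    have := lit_size (y m, s)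
    have h2 : psize (List.map (fun i => lit (y i, s)) [m]) = (lit (y m, s)).size := by
      simp [psize]
    omega

theorem length_litF (s : Bool) (y : ℕ → ℕ) (m : ℕ) : (litF s y m).length = m := by
  simp [litF]

/-- one world -/
theorem world (hF : IsFrege F) (h1 : S_msim F) (h2 : S_lconv F) : ∃ c : ℕ, ∀ (s : Bool) (A : Fm)
    (L : List Fm) (N S N₀ z : ℕ) (y : ℕ → ℕ), MonoProof F {s} (A :: L) →
    (∀ B ∈ A :: L, ∀ n ∈ B.vars, n < N₀ ∧ n ≠ z) → z < N₀ → (A :: L).length ≤ N → N ≤ S →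
    psize (A :: L) ≤ S → (∀ i < N, N₀ ≤ y i) → InjB y N → ∀ Γ : Set Fm,
      Can F Γ [imp (conjL z (litF s y N)) A] (c * S ^ 4) := by
  obtain ⟨c1, h1⟩ := h1
  obtain ⟨c2, h2⟩ := h2
  obtain ⟨c3, h3⟩ := schemaL hF [imp (var 0) (var 1), imp (var 1) (var 2)]
    (imp (var 0) (var 2)) (by
    intro v h; simp [eval] at h ⊢; tauto)
  refine ⟨16 * c1 + 16 * c2 + 6 * c3, ?_⟩
  intro s A L N S N₀ z y hL hv hz hN hNS hS hy hinj Γ
  have hA : A.size ≤ S := (size_le_psize (List.mem_cons_self (a := A) (l := L))).trans hS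
  have hN1 : 1 ≤ N := by
    rw [List.length_cons] at hN
    omega
  set Zr := conjL z (litR s y (A :: L).length) with hZr
  set Zf := conjL z (litF s y N) with hZf
  have hZrs : Zr.size ≤ 6 * S := by
    rw [hZr, conjL_size, length_litR]
    have := psize_litR s y (A :: L).length
    omega
  have hZfs : Zf.size ≤ 6 * S := by
    rw [hZf, conjL_size, length_litF]
    have := psize_litF s y N
    omega
  have k1 : Can F Γ [imp Zr A] (c1 * (psize (A :: L) + 1) ^ 4) :=
    (h1 s (A :: L) hL N₀ z y hv hz (fun i hi => hy i (by omega))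
      (fun i hi j hj => hinj i (by omega) j (by omega)) Γ).sub (by
      intro B hB
      simp only [List.mem_singleton] at hB
      subst hB
      simp [hZr])
  have k2 : Can F Γ [imp Zf Zr] (c2 * (N + 1) ^ 4) := h2 s z y (A :: L).length N hN Γ
  have k3 := ((k2.append k1).cut ((h3 [Zf, Zr, A] (6 * S) (by omega) (by
    intro Y hY; simp at hY
    rcases hY with rfl | rfl | rfl <;> omega) _ (by
    intro Y hY
    right
    simp at hY
    rcases hY with rfl | rfl <;> simp [subst, asg])).sub (G' := [imp Zf A]) (by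
      intro Y hY
      simp only [List.mem_singleton] at hY
      subst hY
      simp [subst, asg])))
  refine k3.mono subset_rfl ?_
  have e1 : (psize (A :: L) + 1) ^ 4 ≤ 16 * S ^ 4 := by
    calc (psize (A :: L) + 1) ^ 4 ≤ (2 * S) ^ 4 := Nat.pow_le_pow_left (by omega) 4
      _ = 16 * S ^ 4 := by ring
  have e2 : (N + 1) ^ 4 ≤ 16 * S ^ 4 := by
    calc (N + 1) ^ 4 ≤ (2 * S) ^ 4 := Nat.pow_le_pow_left (by omega) 4
      _ = 16 * S ^ 4 := by ring
  have e3 : S ≤ S ^ 4 := Nat.le_self_pow (by norm_num) S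
  calc c2 * (N + 1) ^ 4 + c1 * (psize (A :: L) + 1) ^ 4 + c3 * (6 * S)
      ≤ c2 * (16 * S ^ 4) + c1 * (16 * S ^ 4) + c3 * (6 * S ^ 4) := by gcongr
    _ = (16 * c1 + 16 * c2 + 6 * c3) * S ^ 4 := by ring

/-- an upper bound for all variables -/
theorem exists_bd (L : List Fm) : ∃ z : ℕ, ∀ B ∈ L, ∀ n ∈ B.vars, n < z := by
  refine ⟨(L.toFinset.biUnion Fm.vars).sup id + 1, ?_⟩
  intro B hB n hn
  have : id n ≤ (L.toFinset.biUnion Fm.vars).sup id :=
    Finset.le_sup (Finset.mem_biUnion.2 ⟨B, List.mem_toFinset.2 hB, hn⟩)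
  simp only [id] at this
  omega

theorem t_meet (F : List Rule) (hF : IsFrege F) (h1 : S_msim F) (h2 : S_lconv F)
    (h3 : S_comb F) : S_meet F := by
  obtain ⟨c, hw⟩ := world hF h1 h2
  obtain ⟨c', hc⟩ := h3
  refine ⟨2 * c + 6561 * c', ?_⟩
  intro A L₁ L₂ hL₁ hL₂
  set S := psize (A :: L₁) + psize (A :: L₂) with hS
  obtain ⟨z, hz⟩ := exists_bd ((A :: L₁) ++ (A :: L₂))
  set N := max (A :: L₁).length (A :: L₂).length with hN
  have l1 := length_le_psize (A :: L₁)
  have l2 := length_le_psize (A :: L₂)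
  have hNS : N ≤ S := by omega
  have hA : A.size ≤ S := by
    have := size_le_psize (List.mem_cons_self (a := A) (l := L₁))
    omega
  have hA1 := Fm.size_pos A
  have key := hc A N (c * S ^ 4) (z + 1) z (fun n hn =>
    (hz A (by simp) n hn).trans (Nat.lt_succ_self z)) (Nat.lt_succ_self z) (by
    intro y hy hinj
    have w1 := hw false A L₁ N S (z + 1) z y hL₁ (fun B hB n hn => by
      have := hz B (List.mem_append_left _ hB) n hn
      omega) (Nat.lt_succ_self z) (le_max_left _ _) hNS (by omega) hy hinj ∅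
    have w2 := hw true A L₂ N S (z + 1) z y hL₂ (fun B hB n hn => by
      have := hz B (List.mem_append_right _ hB) n hn
      omega) (Nat.lt_succ_self z) (le_max_right _ _) hNS (by omega) hy hinj ∅
    have e1 : litF false y N = zeroL y N := by simp [litF, zeroL, lit]
    have e2 : litF true y N = oneL y N := by simp [litF, oneL, lit]
    rw [e1] at w1
    rw [e2] at w2
    exact ⟨w1, w2⟩)
  obtain ⟨D, d1, d2, d3⟩ := key [] PermProof.nil (by simp)
  obtain ⟨L', e1, e2⟩ := permProof_cut d1 (d2 A (by simp))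
  refine ⟨L', e1, e2.trans ?_⟩
  rw [List.append_nil]
  refine d3.trans ?_
  have hS1 : 1 ≤ S := by omega
  have p1 : (N + 1) * (c * S ^ 4) ≤ 2 * c * S ^ 12 := by
    calc (N + 1) * (c * S ^ 4) ≤ (2 * S) * (c * S ^ 4) := Nat.mul_le_mul_right _ (by omega)
      _ = 2 * c * S ^ 5 := by ring
      _ ≤ 2 * c * S ^ 12 := Nat.mul_le_mul_left _ (Nat.pow_le_pow_right hS1 (by norm_num))
  have p2 : c' * (A.size + N + 1) ^ 8 ≤ 6561 * c' * S ^ 12 := by
    calc c' * (A.size + N + 1) ^ 8 ≤ c' * (3 * S) ^ 8 :=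
          Nat.mul_le_mul_left _ (Nat.pow_le_pow_left (by omega) 8)
      _ = 6561 * c' * S ^ 8 := by ring
      _ ≤ 6561 * c' * S ^ 12 := Nat.mul_le_mul_left _ (Nat.pow_le_pow_right hS1 (by norm_num))
  calc _ ≤ 2 * c * S ^ 12 + 6561 * c' * S ^ 12 := by omega
    _ = (2 * c + 6561 * c') * S ^ 12 := by ring

end Pool.Agent.H586P.T_meet
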