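import Pool.Agent.H586P.Defs2

/-! Task msim (helper196): simulation of monotone substitutions in a world with fresh constants. -/

set_option autoImplicit false

namespace Pool.Agent.H586P.T_msim

open Pool.Agent.H586P Pool.Agent.H555R2.PF Pool.Agent.H555R2.PF.Fm

variable {F : List Rule}

theorem psize_litR (s : Bool) (y : ℕ → ℕ) (m : ℕ) : psize (litR s y m) ≤ 2 * m := by
  induction m with
  | zero => simp [litR, psize]
  | succ m ih =>
    rw [litR, psize_cons]
    have : (lit (y m, s)).size ≤ 2 := by
      unfold lit
      split_ifs <;> simp [size]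
    omega

theorem length_litR (s : Bool) (y : ℕ → ℕ) (m : ℕ) : (litR s y m).length = m := by
  induction m with
  | zero => rfl
  | succ m ih => rw [litR, List.length_cons, ih]

theorem mem_litR {s : Bool} {y : ℕ → ℕ} {m : ℕ} {D : Fm} (h : D ∈ litR s y m) :
    ∃ i < m, D = lit (y i, s) := by
  induction m with
  | zero => simp [litR] at h
  | succ m ih =>
    rw [litR] at h
    rcases List.mem_cons.1 h with h | h
    · exact ⟨m, by omega, h⟩
    · obtain ⟨i, hi, h⟩ := ih h
      exact ⟨i, by omega, h⟩

theorem Z_vars {s : Bool} {y : ℕ → ℕ} {z m n : ℕ} (h : n ∈ (conjL z (litR s y m)).vars) :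
    n = z ∨ ∃ i < m, n = y i := by
  rcases conjL_vars h with h | ⟨D, hD, h⟩
  · exact Or.inl h
  · obtain ⟨i, hi, rfl⟩ := mem_litR hD
    right
    refine ⟨i, hi, ?_⟩
    unfold lit at h
    split_ifs at h <;> simpa [vars] using h

theorem upd_eq (p q : ℕ) : (Function.update var p (var q) : ℕ → Fm) =
    fun n => var (Function.update id p q n) := by
  funext n
  by_cases h : n = p
  · subst h; simp
  · simp [Function.update_of_ne h]

theorem mono_core (hF : IsFrege F) (h2 : S_repl F) : ∃ c : ℕ, ∀ (E0 Z κ κ' B' χ : Fm)
    (p q : ℕ) (M : ℕ), 1 ≤ M → (and (and E0 Z) κ).size ≤ M → (and (and E0 Z) κ').size ≤ M →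
    B'.size ≤ M → (B'.subst (Function.update var p χ)).size ≤ M → ∀ Γ : Set Fm,
    imp (and (and E0 Z) κ) (iff χ (var p)) ∈ Γ →
    imp (and (and E0 Z) κ') (iff (var q) χ) ∈ Γ → or κ κ' ∈ Γ → imp Z B' ∈ Γ →
    imp Z (B'.subst (Function.update var p (var q))) ∈ Γ →
    Can F Γ [imp (and E0 Z) (B'.subst (Function.update var p χ))] (c * M * M) := by
  obtain ⟨c1, r1⟩ := h2
  obtain ⟨c2, r2⟩ := schemaL hF [] (imp (var 0) (iff (var 1) (var 1))) (by
    intro v _; simp [eval, iff])
  obtain ⟨c3, r3⟩ := schemaL hF [imp (var 1) (var 3),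
    imp (and (and (var 0) (var 1)) (var 2)) (iff (var 5) (var 3)), imp (var 1) (var 4),
    imp (and (and (var 0) (var 1)) (var 6)) (iff (var 4) (var 5)), or (var 2) (var 6)]
    (imp (and (var 0) (var 1)) (var 5)) (by
    intro v h; simp [eval, iff] at h ⊢; tauto)
  refine ⟨2 * c1 + 2 * c2 + c3, ?_⟩
  intro E0 Z κ κ' B' χ p q M hM hs1 hs2 hs3 hs4 Γ g1 g2 g3 g4 g5
  have hq : (B'.subst (Function.update var p (var q))).size ≤ M := by
    rw [upd_eq]
    have := size_rename (Function.update id p q) B'
    unfold rename at this
    omega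
  have hmany : ∀ H : Fm, H.size ≤ M → ∀ Γ : Set Fm,
      Can F Γ (B'.vars.toList.map (fun n => imp H (iff (var n) (var n)))) (c2 * M * M) := by
    intro H hH Γ
    have := Can.many (F := F) (Γ := Γ) (fun n => imp H (iff (var n) (var n))) (c2 * M)
      B'.vars.toList (by
      intro n _
      refine (r2 [H, var n] M hM (by
        intro Y hY; simp at hY
        rcases hY with rfl | rfl
        exacts [hH, by simpa [size] using hM]) Γ (by simp)).sub ?_
      intro B hB
      simp only [List.mem_singleton] at hB
      subst hB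
      simp [iff, subst, asg])
    rw [Finset.length_toList] at this
    refine this.mono subset_rfl ?_
    have h3 := (vars_card_le B').trans hs3
    calc B'.vars.card * (c2 * M) ≤ M * (c2 * M) := Nat.mul_le_mul_right _ h3
      _ = c2 * M * M := by ring
  set H1 := and (and E0 Z) κ with hH1
  set H2 := and (and E0 Z) κ' with hH2
  set B := B'.subst (Function.update var p χ) with hB
  set B'' := B'.subst (Function.update var p (var q)) with hB''
  -- first replacement
  have k1 := (hmany H1 hs1 Γ).cut (r1 H1 B' (Function.update var p χ) var M hs1 hs4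
    (by rw [subst_var]; exact hs3)
    (Γ ∪ {B | B ∈ B'.vars.toList.map (fun n => imp H1 (iff (var n) (var n)))}) (by
      intro n hn
      by_cases h : n = p
      · subst h
        left
        simpa using g1
      · right
        rw [Function.update_of_ne h]
        exact List.mem_map.2 ⟨n, Finset.mem_toList.2 hn, rfl⟩))
  rw [subst_var] at k1
  have k2 := (hmany H2 hs2 Γ).cut (r1 H2 B' (Function.update var p (var q))
    (Function.update var p χ) M hs2 hq hs4
    (Γ ∪ {B | B ∈ B'.vars.toList.map (fun n => imp H2 (iff (var n) (var n)))}) (by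
      intro n hn
      by_cases h : n = p
      · subst h
        left
        simpa using g2
      · right
        rw [Function.update_of_ne h, Function.update_of_ne h]
        exact List.mem_map.2 ⟨n, Finset.mem_toList.2 hn, rfl⟩))
  have hsz : E0.size ≤ M ∧ Z.size ≤ M ∧ κ.size ≤ M ∧ κ'.size ≤ M := by
    simp only [hH1, hH2, size] at hs1 hs2
    omega
  have k3 := r3 [E0, Z, κ, B', B'', B, κ'] M hM (by
    intro Y hY; simp at hY
    rcases hY with rfl | rfl | rfl | rfl | rfl | rfl | rfl
    exacts [hsz.1, hsz.2.1, hsz.2.2.1, hs3, hq, hs4, hsz.2.2.2])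
    (Γ ∪ {Y | Y ∈ [imp H1 (iff B B')] ++ [imp H2 (iff B'' B)]}) (by
    intro Y hY
    simp only [List.mem_cons, List.not_mem_nil, or_false] at hY
    rcases hY with rfl | rfl | rfl | rfl | rfl
    · left; simpa [subst, asg] using g4
    · right; simp [hH1, iff, subst, asg]
    · left; simpa [subst, asg] using g5
    · right; simp [hH2, iff, subst, asg]
    · left; simpa [subst, asg] using g3)
  have k4 := ((k1.append k2).cut k3).sub (G' := [imp (and E0 Z) B]) (by
    intro Y hY
    simp only [List.mem_singleton] at hY
    subst hY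
    simp [subst, asg])
  refine k4.mono subset_rfl ?_
  have q1 : c1 * M * B'.size ≤ c1 * M * M := Nat.mul_le_mul_left _ hs3
  have q2 : c3 * M ≤ c3 * M * M := Nat.le_mul_of_pos_right _ (by omega)
  calc _ ≤ c2 * M * M + c1 * M * M + (c2 * M * M + c1 * M * M) + c3 * M * M := by omega
    _ = _ := by ring

/-- one substitution -/
theorem mono_step (hF : IsFrege F) (h1 : S_ren F) (h2 : S_repl F) : ∃ c : ℕ,
    ∀ (s : Bool) (z m N₀ : ℕ) (y : ℕ → ℕ) (B' ψ : Fm) (p : ℕ) (M : ℕ), 1 ≤ M →
    (∀ n ∈ B'.vars, n < N₀ ∧ n ≠ z) → z < N₀ → (∀ i < m + 1, N₀ ≤ y i) → InjB y (m + 1) →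
    (conjL z (litR s y (m + 1))).size + ψ.size + B'.size + 10 ≤ M →
    (B'.subst (Function.update var p (mixv s p ψ))).size ≤ M → p ∈ B'.vars →
    ∀ Γ : Set Fm, imp (conjL z (litR s y m)) B' ∈ Γ →
    Can F Γ [imp (conjL z (litR s y (m + 1)))
      (B'.subst (Function.update var p (mixv s p ψ)))] (c * M * M) := by
  obtain ⟨c1, hren⟩ := h1
  obtain ⟨c2, hcore⟩ := mono_core hF h2
  obtain ⟨c3, a1⟩ := schemaL hF [] (imp (and (var 0) (var 1)) (iff (and (var 2) (var 1)) (var 2)))
    (by intro v _; simp [eval, iff]; tauto)
  obtain ⟨c4, a2⟩ := schemaL hF [] (imp (and (and (neg (var 0)) (var 1)) (neg (var 2)))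
    (iff (var 0) (and (var 3) (var 2)))) (by intro v _; simp [eval, iff]; tauto)
  obtain ⟨c5, a3⟩ := schemaL hF [] (or (var 0) (neg (var 0))) (by
    intro v _; simp [eval]; tauto)
  obtain ⟨c6, b1⟩ := schemaL hF [] (imp (and (var 0) (neg (var 1)))
    (iff (or (var 2) (var 1)) (var 2))) (by intro v _; simp [eval, iff]; tauto)
  obtain ⟨c7, b2⟩ := schemaL hF [] (imp (and (and (var 0) (var 1)) (var 2))
    (iff (var 0) (or (var 3) (var 2)))) (by intro v _; simp [eval, iff]; tauto)
  obtain ⟨c8, b3⟩ := schemaL hF [] (or (neg (var 0)) (var 0)) (by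
    intro v _; simp [eval]; tauto)
  refine ⟨c1 + c2 + c3 + c4 + c5 + c6 + c7 + c8, ?_⟩
  intro s z m N₀ y B' ψ p M hM hvar hz hy hinj hs1 hs2 hp Γ hΓ
  have hpN := hvar p hp
  set Z := conjL z (litR s y m) with hZ
  have hZs : (conjL z (litR s y (m + 1))) = and (lit (y m, s)) Z := rfl
  rw [hZs] at hs1 ⊢
  have hsz : Z.size + B'.size + ψ.size + 11 ≤ M := by
    simp only [size] at hs1
    have := Fm.size_pos (lit (y m, s))
    omega
  -- renaming
  have k1 : Can F Γ [imp Z (B'.subst (Function.update var p (var (y m))))] (c1 * M * M) := by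
    have hZv : ∀ n ∈ Z.vars, n ≠ p ∧ n ≠ y m := by
      intro n hn
      rcases Z_vars hn with h | ⟨i, hi, h⟩
      · subst h
        exact ⟨hpN.2.symm, fun h => by have := hy m (by omega); omega⟩
      · subst h
        have := hy i (by omega)
        exact ⟨by omega, fun h => by have := hinj i (by omega) m (by omega) h; omega⟩
    have hBv : ∀ n ∈ B'.vars, n ≠ y m := by
      intro n hn h
      have := (hvar n hn).1
      have := hy m (by omega)
      omega
    have := hren (imp Z B') (Function.update id p (y m)) M (by simp only [size]; omega) (by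
      have hv : ∀ n ∈ (imp Z B').vars, n ≠ y m := by
        intro n hn
        simp only [vars, Finset.mem_union] at hn
        rcases hn with hn | hn
        · exact (hZv n hn).2
        · exact hBv n hn
      intro n hn n' hn' h
      rw [Finset.mem_coe] at hn hn'
      by_cases e1 : n = p
      · by_cases e2 : n' = p
        · rw [e1, e2]
        · rw [e1, Function.update_self, Function.update_of_ne e2] at h
          exact absurd h.symm (hv n' hn')
      · by_cases e2 : n' = p
        · rw [e2, Function.update_self, Function.update_of_ne e1] at h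
          exact absurd h (hv n hn)
        · rw [Function.update_of_ne e1, Function.update_of_ne e2] at h
          exact h) Γ hΓ
    have e1 : (imp Z B').rename (Function.update id p (y m)) =
        imp Z (B'.subst (Function.update var p (var (y m)))) := by
      have e2 : Z.rename (Function.update id p (y m)) = Z := rename_eq_self fun n hn =>
        Function.update_of_ne (hZv n hn).1 _ _
      have e3 : B'.rename (Function.update id p (y m)) =
          B'.subst (Function.update var p (var (y m))) := by
        rw [upd_eq]; rfl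
      rw [← e3]
      nth_rewrite 2 [← e2]
      rfl
    rw [e1] at this
    exact this
  cases s with
  | false =>
    have el : lit (y m, false) = neg (var (y m)) := rfl
    have em : mixv false p ψ = and (var p) ψ := rfl
    rw [el] at hs1 ⊢
    rw [em] at hs2 ⊢
    have g1 := (a1 [and (neg (var (y m))) Z, ψ, var p] M hM (by
      intro Y hY; simp at hY
      rcases hY with rfl | rfl | rfl <;> simp only [size] at hs1 ⊢ <;> omega) Γ (by simp)).sub
      (G' := [imp (and (and (neg (var (y m))) Z) ψ) (iff (and (var p) ψ) (var p))]) (by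
        intro Y hY
        simp only [List.mem_singleton] at hY
        subst hY
        simp [iff, subst, asg])
    have g2 := (a2 [var (y m), Z, ψ, var p] M hM (by
      intro Y hY; simp at hY
      rcases hY with rfl | rfl | rfl | rfl <;> simp only [size] at hs1 ⊢ <;> omega) Γ (by simp)).sub
      (G' := [imp (and (and (neg (var (y m))) Z) (neg ψ)) (iff (var (y m)) (and (var p) ψ))]) (by
        intro Y hY
        simp only [List.mem_singleton] at hY
        subst hY
        simp [iff, subst, asg])
    have g3 := (a3 [ψ] M hM (by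
      intro Y hY; simp at hY
      rcases hY with rfl; omega) Γ (by simp)).sub
      (G' := [or ψ (neg ψ)]) (by
        intro Y hY
        simp only [List.mem_singleton] at hY
        subst hY
        simp [subst, asg])
    have g4 := ((g1.append g2).append (g3.append k1)).cut (hcore (neg (var (y m))) Z ψ (neg ψ) B'
      (and (var p) ψ) p (y m) M hM (by simp only [size] at hs1 ⊢; omega)
      (by simp only [size] at hs1 ⊢; omega) (by omega) hs2 _ (Or.inr (by simp))
      (Or.inr (by simp)) (Or.inr (by simp)) (Or.inl hΓ) (Or.inr (by simp)))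
    refine g4.mono subset_rfl ?_
    have q : ∀ c : ℕ, c * M ≤ c * M * M := fun c => Nat.le_mul_of_pos_right _ (by omega)
    have q3 := q c3
    have q4 := q c4
    have q5 := q c5
    calc _ ≤ c3 * M * M + c4 * M * M + (c5 * M * M + c1 * M * M) + c2 * M * M := by omega
      _ = (c1 + c2 + c3 + c4 + c5) * M * M := by ring
      _ ≤ _ := Nat.mul_le_mul_right _ (Nat.mul_le_mul_right _ (by omega))
  | true =>
    have el : lit (y m, true) = var (y m) := rfl
    have em : mixv true p ψ = or (var p) ψ := rfl
    rw [el] at hs1 ⊢
    rw [em] at hs2 ⊢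
    have g1 := (b1 [and (var (y m)) Z, ψ, var p] M hM (by
      intro Y hY; simp at hY
      rcases hY with rfl | rfl | rfl <;> simp only [size] at hs1 ⊢ <;> omega) Γ (by simp)).sub
      (G' := [imp (and (and (var (y m)) Z) (neg ψ)) (iff (or (var p) ψ) (var p))]) (by
        intro Y hY
        simp only [List.mem_singleton] at hY
        subst hY
        simp [iff, subst, asg])
    have g2 := (b2 [var (y m), Z, ψ, var p] M hM (by
      intro Y hY; simp at hY
      rcases hY with rfl | rfl | rfl | rfl <;> simp only [size] at hs1 ⊢ <;> omega) Γ (by simp)).sub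
      (G' := [imp (and (and (var (y m)) Z) ψ) (iff (var (y m)) (or (var p) ψ))]) (by
        intro Y hY
        simp only [List.mem_singleton] at hY
        subst hY
        simp [iff, subst, asg])
    have g3 := (b3 [ψ] M hM (by
      intro Y hY; simp at hY
      rcases hY with rfl; omega) Γ (by simp)).sub
      (G' := [or (neg ψ) ψ]) (by
        intro Y hY
        simp only [List.mem_singleton] at hY
        subst hY
        simp [subst, asg])
    have g4 := ((g1.append g2).append (g3.append k1)).cut (hcore (var (y m)) Z (neg ψ) ψ B'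
      (or (var p) ψ) p (y m) M hM (by simp only [size] at hs1 ⊢; omega)
      (by simp only [size] at hs1 ⊢; omega) (by omega) hs2 _ (Or.inr (by simp))
      (Or.inr (by simp)) (Or.inr (by simp)) (Or.inl hΓ) (Or.inr (by simp)))
    refine g4.mono subset_rfl ?_
    have q : ∀ c : ℕ, c * M ≤ c * M * M := fun c => Nat.le_mul_of_pos_right _ (by omega)
    have q6 := q c6
    have q7 := q c7
    have q8 := q c8
    calc _ ≤ c6 * M * M + c7 * M * M + (c8 * M * M + c1 * M * M) + c2 * M * M := by omega
      _ = (c1 + c2 + c6 + c7 + c8) * M * M := by ring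
      _ ≤ _ := Nat.mul_le_mul_right _ (Nat.mul_le_mul_right _ (by omega))

theorem account (C k ce P b len : ℕ) (hb : 1 ≤ b) (hlen : len ≤ P)
    (hC : 900 * (2 * ce + k) ≤ C) :
    C * (P + 1) ^ 4 + (2 * (len * (ce * (30 * (b + P + 1)))) +
      k * (30 * (b + P + 1)) * (30 * (b + P + 1))) ≤ C * (b + P + 1) ^ 4 := by
  set S := b + P + 1 with hS
  have h1 : 2 * (len * (ce * (30 * S))) + k * (30 * S) * (30 * S) ≤ C * S ^ 3 := by
    have h2 : len ≤ S := by omega
    have h3 : 1 ≤ S := by omega
    calc 2 * (len * (ce * (30 * S))) + k * (30 * S) * (30 * S)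
        ≤ 2 * (S * (ce * (30 * S))) + k * (30 * S) * (30 * S) := by gcongr
      _ = (60 * ce + 900 * k) * S ^ 2 := by ring
      _ ≤ C * S ^ 2 := Nat.mul_le_mul_right _ (by omega)
      _ ≤ C * S ^ 3 := Nat.mul_le_mul_left _ (Nat.pow_le_pow_right h3 (by norm_num))
  have h4 : (P + 1) ^ 4 + S ^ 3 ≤ S ^ 4 := by
    have h5 : (P + 1) ^ 3 ≤ S ^ 3 := Nat.pow_le_pow_left (by omega) 3
    calc (P + 1) ^ 4 + S ^ 3 = (P + 1) * (P + 1) ^ 3 + S ^ 3 := by ring
      _ ≤ (P + 1) * S ^ 3 + S ^ 3 := Nat.add_le_add_right (Nat.mul_le_mul_left _ h5) _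
      _ = (P + 2) * S ^ 3 := by ring
      _ ≤ S * S ^ 3 := Nat.mul_le_mul_right _ (by omega)
      _ = S ^ 4 := by ring
  calc _ ≤ C * (P + 1) ^ 4 + C * S ^ 3 := by omega
    _ = C * ((P + 1) ^ 4 + S ^ 3) := by ring
    _ ≤ _ := Nat.mul_le_mul_left _ h4

theorem glue (ce : ℕ) (he : ∀ (l : List Fm) (M : ℕ), 1 ≤ M → (∀ X ∈ l, X.size ≤ M) →
    ∀ Γ : Set Fm, (∀ A ∈ [imp (var 1) (var 2)], A.subst (asg l) ∈ Γ) →
      Can F Γ [(imp (and (var 0) (var 1)) (var 2)).subst (asg l)] (ce * M))
    (s : Bool) (z : ℕ) (y : ℕ → ℕ) (L : List Fm) (B : Fm) (K1 K3 M : ℕ) (Γ : Set Fm)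
    (hM : (conjL z (litR s y (L.length + 1))).size + psize L ≤ M)
    (h : Can F Γ (L.map (imp (conjL z (litR s y L.length)))) K1)
    (hB : ∀ Γ' : Set Fm, (∀ A ∈ L, imp (conjL z (litR s y L.length)) A ∈ Γ') →
      (∀ A ∈ L, imp (conjL z (litR s y (L.length + 1))) A ∈ Γ') →
      Can F Γ' [imp (conjL z (litR s y (L.length + 1))) B] K3) :
    Can F Γ ((B :: L).map (imp (conjL z (litR s y (L.length + 1)))))
      (K1 + (2 * (L.length * (ce * M)) + K3)) := by
  set Z := conjL z (litR s y L.length) with hZ
  have hZ' : conjL z (litR s y (L.length + 1)) = and (lit (y L.length, s)) Z := rfl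
  rw [hZ'] at hM hB ⊢
  simp only [size] at hM
  have h6 : Can F (Γ ∪ {X | X ∈ L.map (imp Z)}) (L.map (imp (and (lit (y L.length, s)) Z)))
      (L.length * (ce * M)) := by
    apply Can.many
    intro A hA
    have hAs := size_le_psize hA
    have := he [lit (y L.length, s), Z, A] M (by omega) (by
      intro Y hY; simp at hY
      rcases hY with rfl | rfl | rfl <;> omega) (Γ ∪ {X | X ∈ L.map (imp Z)}) (by
      intro Y hY
      simp only [List.mem_singleton] at hY
      subst hY
      right
      exact List.mem_map.2 ⟨A, hA, by simp [subst, asg]⟩)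
    refine this.sub ?_
    intro Y hY
    simp only [List.mem_singleton] at hY
    subst hY
    simp [subst, asg]
  have h7 := hB ((Γ ∪ {X | X ∈ L.map (imp Z)}) ∪
    {X | X ∈ L.map (imp (and (lit (y L.length, s)) Z))})
    (fun A hA => Or.inl (Or.inr (List.mem_map.2 ⟨A, hA, rfl⟩)))
    (fun A hA => Or.inr (List.mem_map.2 ⟨A, hA, rfl⟩))
  have h8 := h.cut ((h6.cut h7).append h6)
  refine (h8.sub ?_).mono subset_rfl (by omega)
  intro X hX
  simpa using hX

theorem t_msim (F : List Rule) (hF : IsFrege F) (h1 : S_ren F) (h2 : S_repl F) : S_msim F := by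
  obtain ⟨cm, hm⟩ := mono_step hF h1 h2
  obtain ⟨ce, he⟩ := schemaL hF [imp (var 1) (var 2)] (imp (and (var 0) (var 1)) (var 2)) (by
    intro v h; simp [eval] at h ⊢; tauto)
  obtain ⟨cr, hr⟩ := uniform (fun (r : Rule) c => r ∈ F → ∀ (E : Fm) (σ : ℕ → Fm)
    (M : ℕ), 1 ≤ M → E.size ≤ M → (∀ n ∈ r.rv, (σ n).size ≤ M) → ∀ Γ : Set Fm,
      (∀ p ∈ r.prem, imp E (p.subst σ) ∈ Γ) → Can F Γ [imp E (r.concl.subst σ)] (c * M))
    (by
      intro r c c' hcc h hr E σ M h1 h2 h3 Γ h4
      exact (h hr E σ M h1 h2 h3 Γ h4).mono subset_rfl (Nat.mul_le_mul_right _ hcc)) F (by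
      intro r hr
      obtain ⟨c, hc⟩ := rule_ded hF r hr
      exact ⟨c, fun _ => hc⟩)
  set k : ℕ := cr + 1 + ce + cm with hk
  refine ⟨900 * (2 * ce + k), ?_⟩
  intro s L hL
  induction hL with
  | nil =>
    intro N₀ z y _ _ _ _ Γ
    simpa using (Can.nil : Can F Γ [] 0).mono subset_rfl (Nat.zero_le _)
  | @rule L B hL hB ih =>
    intro N₀ z y hvar hz hy hinj Γ
    obtain ⟨r, hrF, σ, hB1, hB2⟩ := hB
    have hB1s := Fm.size_pos B
    have hlen := length_le_psize L
    have hps : psize (B :: L) = B.size + psize L := psize_cons _ _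
    rw [List.length_cons] at hy hinj ⊢
    have ih' := ih N₀ z y (fun A hA => hvar A (List.mem_cons_of_mem _ hA)) hz
      (fun i hi => hy i (by omega)) (fun i hi i' hi' => hinj i (by omega) i' (by omega)) Γ
    have hZs : (conjL z (litR s y (L.length + 1))).size + psize L ≤
        30 * (B.size + psize L + 1) := by
      rw [conjL_size, length_litR]
      have := psize_litR s y (L.length + 1)
      omega
    have g := glue ce he s z y L B _ (k * (30 * (B.size + psize L + 1)) *
      (30 * (B.size + psize L + 1))) (30 * (B.size + psize L + 1)) Γ hZs ih' (by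
      intro Γ' hΓ1 hΓ2
      have := hr r hrF hrF (conjL z (litR s y (L.length + 1))) σ
        (30 * (B.size + psize L + 1)) (by omega) (by omega) (by
        intro n hn
        simp only [Rule.rv, Finset.mem_union, Finset.mem_biUnion, List.mem_toFinset] at hn
        rcases hn with hn | ⟨p, hp, hn⟩
        · have := size_le_subst (σ := σ) hn
          rw [← hB1] at this
          omega
        · have h3 := size_le_subst (σ := σ) hn
          have h4 := size_le_psize (hB2 p hp)
          omega) Γ' (fun p hp => hΓ2 _ (hB2 p hp))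
      rw [← hB1] at this
      refine this.mono subset_rfl ?_
      calc cr * (30 * (B.size + psize L + 1)) ≤ k * (30 * (B.size + psize L + 1)) :=
            Nat.mul_le_mul_right _ (by omega)
        _ ≤ _ := Nat.le_mul_of_pos_right _ (by omega))
    refine g.mono subset_rfl ?_
    rw [hps]
    exact account _ k ce (psize L) B.size L.length hB1s hlen le_rfl
  | @perm L B hL hB ih =>
    intro N₀ z y hvar hz hy hinj Γ
    obtain ⟨A, hA, π, hπ, hBA⟩ := hB
    have hB1s := Fm.size_pos B
    have hlen := length_le_psize L
    have hps : psize (B :: L) = B.size + psize L := psize_cons _ _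
    rw [List.length_cons] at hy hinj ⊢
    have ih' := ih N₀ z y (fun A hA => hvar A (List.mem_cons_of_mem _ hA)) hz
      (fun i hi => hy i (by omega)) (fun i hi i' hi' => hinj i (by omega) i' (by omega)) Γ
    have hZs : (conjL z (litR s y (L.length + 1))).size + psize L ≤
        30 * (B.size + psize L + 1) := by
      rw [conjL_size, length_litR]
      have := psize_litR s y (L.length + 1)
      omega
    have hZs' : (conjL z (litR s y (L.length + 1))) =
      and (lit (y L.length, s)) (conjL z (litR s y L.length)) := rfl
    have hAs := size_le_psize hA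
    have hsz : (lit (y L.length, s)).size + (conjL z (litR s y L.length)).size + psize L + 1 ≤
        30 * (B.size + psize L + 1) := by
      rw [hZs'] at hZs
      simp only [size] at hZs
      omega
    have g := glue ce he s z y L B _ (k * (30 * (B.size + psize L + 1)) *
      (30 * (B.size + psize L + 1))) (30 * (B.size + psize L + 1)) Γ hZs ih' (by
      intro Γ' hΓ1 hΓ2
      have k1 := Can.perm (F := F) (hΓ1 A hA) π (by
        intro n hn
        apply hπ
        intro h
        apply hn
        simp only [vars, Finset.mem_union]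
        exact Or.inr h)
      have e1 : (imp (conjL z (litR s y L.length)) A).rename π =
          imp (conjL z (litR s y L.length)) B := by
        have e2 : (conjL z (litR s y L.length)).rename π = conjL z (litR s y L.length) := by
          apply rename_eq_self
          intro n hn
          apply hπ
          intro hnA
          have h3 := hvar A (List.mem_cons_of_mem _ hA) n hnA
          rcases Z_vars hn with h | ⟨i, hi, h⟩
          · exact h3.2 h
          · have := hy i (by omega)
            omega
        rw [hBA]
        nth_rewrite 2 [← e2]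
        rfl
      rw [e1] at k1
      have k2 := he [lit (y L.length, s), conjL z (litR s y L.length), B]
        (30 * (B.size + psize L + 1)) (by omega) (by
        intro Y hY; simp at hY
        rcases hY with rfl | rfl | rfl <;> omega)
        (Γ' ∪ {X | X ∈ [imp (conjL z (litR s y L.length)) B]}) (by
        intro Y hY
        simp only [List.mem_singleton] at hY
        subst hY
        right
        simp [subst, asg])
      refine ((k1.cut k2).sub ?_).mono subset_rfl ?_
      · intro Y hY
        simp only [List.mem_singleton] at hY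
        subst hY
        rw [hZs']
        simp [subst, asg]
      · have h3 : (imp (conjL z (litR s y L.length)) A).size ≤
            1 * (30 * (B.size + psize L + 1)) := by
          simp only [size]; omega
        calc _ ≤ 1 * (30 * (B.size + psize L + 1)) + ce * (30 * (B.size + psize L + 1)) := by
              omega
          _ = (1 + ce) * (30 * (B.size + psize L + 1)) := by ring
          _ ≤ k * (30 * (B.size + psize L + 1)) := Nat.mul_le_mul_right _ (by omega)
          _ ≤ _ := Nat.le_mul_of_pos_right _ (by omega))
    refine g.mono subset_rfl ?_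
    rw [hps]
    exact account _ k ce (psize L) B.size L.length hB1s hlen le_rfl
  | @mono s' L B hs' hL hB ih =>
    intro N₀ z y hvar hz hy hinj Γ
    rw [Set.mem_singleton_iff] at hs'
    subst hs'
    obtain ⟨B', hB', p, ψ, hBB⟩ := hB
    have hB1s := Fm.size_pos B
    have hlen := length_le_psize L
    have hps : psize (B :: L) = B.size + psize L := psize_cons _ _
    rw [List.length_cons] at hy hinj ⊢
    have ih' := ih N₀ z y (fun A hA => hvar A (List.mem_cons_of_mem _ hA)) hz
      (fun i hi => hy i (by omega)) (fun i hi i' hi' => hinj i (by omega) i' (by omega)) Γ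
    have hZs : (conjL z (litR s' y (L.length + 1))).size + psize L ≤
        30 * (B.size + psize L + 1) := by
      rw [conjL_size, length_litR]
      have := psize_litR s' y (L.length + 1)
      omega
    have hZs2 : (conjL z (litR s' y (L.length + 1))).size ≤ 3 * (psize L + 1) + 3 := by
      rw [conjL_size, length_litR]
      have := psize_litR s' y (L.length + 1)
      omega
    have hZs' : (conjL z (litR s' y (L.length + 1))) =
      and (lit (y L.length, s')) (conjL z (litR s' y L.length)) := rfl
    have hB's := size_le_psize hB'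
    have hsz : (lit (y L.length, s')).size + (conjL z (litR s' y L.length)).size + psize L + 1 ≤
        30 * (B.size + psize L + 1) := by
      rw [hZs'] at hZs
      simp only [size] at hZs
      omega
    have g := glue ce he s' z y L B _ (k * (30 * (B.size + psize L + 1)) *
      (30 * (B.size + psize L + 1))) (30 * (B.size + psize L + 1)) Γ hZs ih' (by
      intro Γ' hΓ1 hΓ2
      by_cases hp : p ∈ B'.vars
      · have hψ : ψ.size ≤ B.size := by
          have h3 := size_le_subst (σ := Function.update var p (mixv s' p ψ)) hp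
          rw [← hBB, Function.update_self] at h3
          have h4 : ψ.size ≤ (mixv s' p ψ).size := by
            unfold mixv
            split_ifs <;> simp only [size] <;> omega
          omega
        have := hm s' z L.length N₀ y B' ψ p (30 * (B.size + psize L + 1)) (by omega)
          (hvar B' (List.mem_cons_of_mem _ hB')) hz hy hinj (by omega) (by rw [← hBB]; omega)
          hp Γ' (hΓ1 B' hB')
        rw [← hBB] at this
        exact this.mono subset_rfl (Nat.mul_le_mul_right _ (Nat.mul_le_mul_right _ (by omega)))
      · have hBeq : B = B' := by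
          rw [hBB]
          rw [subst_congr (τ := var) (fun n hn => Function.update_of_ne (fun h => by
            rw [h] at hn; exact hp hn) _ _), subst_var]
        have := hΓ2 B' hB'
        rw [← hBeq] at this
        exact (Can.hyp this).mono subset_rfl (Nat.zero_le _))
    refine g.mono subset_rfl ?_
    rw [hps]
    exact account _ k ce (psize L) B.size L.length hB1s hlen le_rfl

end Pool.Agent.H586P.T_msim
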