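import Pool.Agent.H586P.Final
import Pool.Agent.H586P.Defs2
import Pool.Agent.H586P.T_msim
import Pool.Agent.H586P.T_lconv
import Pool.Agent.H586P.T_fworld
import Pool.Agent.H586P.T_efflip
import Pool.Agent.H586P.T_meet
import Pool.Agent.H586P.T_equiv
import Pool.Agent.H586P.T_join

set_option autoImplicit false

namespace Pool.Agent.H586P

open Pool.Agent.H555R2.PF Pool.Agent.H555R2.PF.Fm

theorem s_comb (F : List Rule) (hF : IsFrege F) : S_comb F :=
  T_comb.t_comb F hF
    (T_cloop.t_cloop F hF (T_cstep.t_cstep F hF (T_ren.t_ren F hF) (T_cintro.t_cintro F hF)))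
    (T_cfin.t_cfin F hF)

theorem s_fworld (F : List Rule) (hF : IsFrege F) : S_fworld F :=
  T_fworld.t_fworld F hF (T_flip.t_flip F) (T_cintro.t_cintro F hF) (T_repl.t_repl F hF)

theorem final2 (F : List Rule) (hF : IsFrege F) : S_meet F ∧ S_equiv F ∧ S_join F :=
  assemble2 F hF (T_ren.t_ren F hF) (T_repl.t_repl F hF) (T_cintro.t_cintro F hF)
    (T_flip.t_flip F) (s_comb F hF)
    (T_dline.t_dline F hF (T_ded.t_ded F hF)) (T_msim.t_msim F) (T_lconv.t_lconv F)
    (T_fworld.t_fworld F) (T_efflip.t_efflip F) (T_meet.t_meet F) (T_equiv.t_equiv F)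
    (T_join.t_join F)

end Pool.Agent.H586P
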