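import Pool.Agent.H586P.Defs3

/-! Task back (helper296): substitution Frege with linearly many variables to Frege + permutation. -/

set_option autoImplicit false

namespace Pool.Agent.H586P.T_back

open Pool.Agent.H586P Pool.Agent.H555R2.PF Pool.Agent.H555R2.PF.Fm

theorem mem_vars_subst {σ : ℕ → Fm} {v : ℕ} : ∀ {A : Fm}, v ∈ (A.subst σ).vars →
    ∃ m ∈ A.vars, v ∈ (σ m).vars := by
  intro A
  induction A with
  | var n => intro h; exact ⟨n, by simp [vars], h⟩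
  | neg A ih => intro h; exact ih h
  | and A B iA iB =>
    intro h
    simp only [subst, vars, Finset.mem_union] at h ⊢
    rcases h with h | h
    · obtain ⟨m, hm, hv⟩ := iA h; exact ⟨m, Or.inl hm, hv⟩
    · obtain ⟨m, hm, hv⟩ := iB h; exact ⟨m, Or.inr hm, hv⟩
  | or A B iA iB =>
    intro h
    simp only [subst, vars, Finset.mem_union] at h ⊢
    rcases h with h | h
    · obtain ⟨m, hm, hv⟩ := iA h; exact ⟨m, Or.inl hm, hv⟩
    · obtain ⟨m, hm, hv⟩ := iB h; exact ⟨m, Or.inr hm, hv⟩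
  | imp A B iA iB =>
    intro h
    simp only [subst, vars, Finset.mem_union] at h ⊢
    rcases h with h | h
    · obtain ⟨m, hm, hv⟩ := iA h; exact ⟨m, Or.inl hm, hv⟩
    · obtain ⟨m, hm, hv⟩ := iB h; exact ⟨m, Or.inr hm, hv⟩

theorem psize_le_mul {B : ℕ} : ∀ {Ds : List Fm}, (∀ D ∈ Ds, D.size ≤ B) → psize Ds ≤ Ds.length * B := by
  intro Ds
  induction Ds with
  | nil => intro _; simp [psize]
  | cons D Ds ih =>
    intro h
    have h1 := h D (by simp)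
    have h2 := ih (fun D' hD' => h D' (by simp [hD']))
    rw [psize_cons, List.length_cons]
    nlinarith

theorem eqc_size (ℓ a j : ℕ) : (eqc 0 ℓ (fun e => var (j * ℓ + e)) a).size ≤ 3 * ℓ + 3 := by
  unfold eqc
  rw [conjL_size]
  have h := psize_le_mul (B := 2) (Ds := (List.range ℓ).map fun i =>
    if a.testBit i = true then (fun e => var (j * ℓ + e)) i else
      neg ((fun e => var (j * ℓ + e)) i)) (by
    intro D hD
    obtain ⟨i, _, rfl⟩ := List.mem_map.1 hD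
    split_ifs <;> simp [size])
  rw [List.length_map, List.length_range] at h ⊢
  omega

/-- the substitution in `AiS` -/
def sAi (ℓ : ℕ) (idx : ℕ → ℕ) (i : ℕ) (S : Finset ℕ) (m : ℕ) : Fm :=
  if m ∈ S then top 0 else
    disjL 0 ((List.range (2 * i)).map fun l => eqc 0 ℓ (fun e => var (l * ℓ + e)) (idx m))

theorem AiS_eq (ℓ : ℕ) (A : Fm) (idx : ℕ → ℕ) (i : ℕ) (S : Finset ℕ) :
    AiS ℓ A idx i S = A.subst (sAi ℓ idx i S) := rfl

theorem sAi_size (ℓ : ℕ) (idx : ℕ → ℕ) (i : ℕ) (S : Finset ℕ) (m : ℕ) :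
    (sAi ℓ idx i S m).size ≤ 2 * i * (3 * ℓ + 4) + 4 := by
  unfold sAi
  split_ifs
  · simp [top, size]
  · rw [disjL_size]
    have h := psize_le_mul (B := 3 * ℓ + 3) (Ds := (List.range (2 * i)).map fun l =>
      eqc 0 ℓ (fun e => var (l * ℓ + e)) (idx m)) (by
      intro D hD
      obtain ⟨j, _, rfl⟩ := List.mem_map.1 hD
      exact eqc_size _ _ _)
    rw [List.length_map, List.length_range] at h ⊢
    nlinarith

theorem sAi_vars (ℓ : ℕ) (idx : ℕ → ℕ) (i : ℕ) (S : Finset ℕ) (m : ℕ) (hi : 1 ≤ i) (hℓ : 1 ≤ ℓ)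
    {v : ℕ} (hv : v ∈ (sAi ℓ idx i S m).vars) : v < 2 * i * ℓ := by
  have h0 : 0 < 2 * i * ℓ := by positivity
  unfold sAi at hv
  split_ifs at hv
  · simp only [top, vars, Finset.union_idempotent, Finset.mem_singleton] at hv
    omega
  · rcases disjL_vars hv with h | ⟨D, hD, h⟩
    · omega
    · obtain ⟨j, hj, rfl⟩ := List.mem_map.1 hD
      rw [List.mem_range] at hj
      unfold eqc at h
      rcases conjL_vars h with h | ⟨D, hD, h⟩
      · omega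
      · obtain ⟨e, he, rfl⟩ := List.mem_map.1 hD
        rw [List.mem_range] at he
        have : v = j * ℓ + e := by
          dsimp only at h
          split_ifs at h <;> simpa [vars] using h
        have h2 : (j + 1) * ℓ ≤ 2 * i * ℓ := Nat.mul_le_mul_right _ (by omega)
        nlinarith

theorem AiS_card (ℓ : ℕ) (A : Fm) (idx : ℕ → ℕ) (i : ℕ) (S : Finset ℕ) (hi : 1 ≤ i) (hℓ : 1 ≤ ℓ) :
    (AiS ℓ A idx i S).vars.card ≤ 2 * i * ℓ := by
  have : (AiS ℓ A idx i S).vars ⊆ Finset.range (2 * i * ℓ) := by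
    intro v hv
    rw [AiS_eq] at hv
    obtain ⟨m, _, hm⟩ := mem_vars_subst hv
    exact Finset.mem_range.2 (sAi_vars ℓ idx i S m hi hℓ hm)
  simpa using Finset.card_le_card this

/-- one world -/
theorem world (F : List Rule) (h1 : S_efsub F) (h2 : S_enum) (h3 : S_val F) (h4 : S_erec F)
    (h5 : S_efin F) (hL : LSim F) : ∃ c e K₀ : ℕ, ∀ (A : Fm) (k : ℕ) (L : List Fm),
    EFProof F A k (A :: L) → ∀ T : ℕ, psize (A :: L) ≤ T → ∀ N : ℕ, (∀ m ∈ A.vars, m < N) →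
    ∀ y : ℕ → ℕ,
    (∀ i < Yr A.vars.card (K₀ * (Nat.log 2 T + 1)) 0, N + 1 ≤ y i) →
    InjB y (Yr A.vars.card (K₀ * (Nat.log 2 T + 1)) 0) → ∀ Γ : Set Fm,
    Can F Γ [imp (conjL N (zeroL y (Yr A.vars.card (K₀ * (Nat.log 2 T + 1)) 0))) A]
      (c * (2 * T) ^ e) := by
  obtain ⟨c₀, hc₀⟩ := hL
  obtain ⟨c₁, hc₁⟩ := h4
  obtain ⟨c₂, hc₂⟩ := h5
  obtain ⟨K₀, hK₀⟩ : ∃ K₀, K₀ = 20 * c₀ + 2 := ⟨_, rfl⟩
  refine ⟨c₁ + c₂, (6 * c₀ + K₀ + 3) * c₁ + (K₀ + 3) * c₂, K₀, ?_⟩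
  intro A k L hEF T hT N hN y hy hyi Γ
  obtain ⟨ℓ, hℓ⟩ : ∃ ℓ, ℓ = Nat.log 2 T + 1 := ⟨_, rfl⟩
  rw [← hℓ] at hy hyi ⊢
  obtain ⟨b, hb⟩ : ∃ b, b = K₀ * ℓ := ⟨_, rfl⟩
  rw [← hb] at hy hyi ⊢
  obtain ⟨n, hn⟩ : ∃ n, n = A.vars.card := ⟨_, rfl⟩
  rw [← hn] at hy hyi ⊢
  have hAs : A.size ≤ T := (size_le_psize (L := A :: L) (by simp)).trans hT
  have hnA : n ≤ A.size := by rw [hn]; exact vars_card_le A
  have hT1 : 1 ≤ T := (size_pos A).trans hAs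
  have hℓ1 : 1 ≤ ℓ := by omega
  have hTℓ : T < 2 ^ ℓ := by rw [hℓ]; exact Nat.lt_pow_succ_log_self (by norm_num) _
  have hℓT : ℓ ≤ T := by
    rw [hℓ]
    have := Nat.log_lt_self 2 (x := T) (by omega)
    omega
  have h2ℓ : 2 ^ ℓ ≤ 2 * T := by
    rw [hℓ, pow_succ]
    have := Nat.pow_log_le_self 2 (x := T) (by omega)
    omega
  obtain ⟨idx, vv, hen⟩ := h2 A
  rw [← hn] at hen
  have hval := h3 A k L hEF
  obtain ⟨X, hX⟩ : ∃ X, X = 2 * T := ⟨_, rfl⟩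
  have hX2 : 2 ≤ X := by omega
  have hX1 : 1 ≤ X := by omega
  -- the recursion
  have hrec := hc₁ N b ℓ n (X ^ (6 * c₀)) A idx vv hen hN hval (by omega) hℓ1 (by
    rw [hb, hK₀]; nlinarith [Nat.zero_le (c₀ * ℓ)]) (by
    intro i hi1 hin S
    obtain ⟨m, hm⟩ : ∃ m, m = 2 * i * (3 * ℓ + 4) + 4 := ⟨_, rfl⟩
    obtain ⟨L', hL', hp'⟩ := h1 A k L hEF (sAi ℓ idx i S) m (by omega) (fun v _ => by
      rw [hm]; exact sAi_size _ _ _ _ _)
    rw [← AiS_eq] at hL' hp'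
    have hms : m * psize (A :: L) ≤ 18 * T ^ 3 := by
      have hi2 : i ≤ T := by omega
      have e1 : m ≤ 2 * T * (3 * T + 4) + 4 := by
        rw [hm]
        have : 2 * i * (3 * ℓ + 4) ≤ 2 * T * (3 * T + 4) := Nat.mul_le_mul (by omega) (by omega)
        omega
      have e2 : 2 * T * (3 * T + 4) + 4 ≤ 18 * T ^ 2 := by nlinarith
      calc m * psize (A :: L) ≤ (18 * T ^ 2) * T := Nat.mul_le_mul (e1.trans e2) hT
        _ = 18 * T ^ 3 := by ring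
    obtain ⟨W₀, L'', hW, hSub, hp''⟩ := hc₀ _ k L' hL'
    refine ⟨W₀, AiS ℓ A idx i S :: L'', hSub, by simp, ?_, ?_⟩
    · have hlog : Nat.log 2 (psize (AiS ℓ A idx i S :: L')) ≤ 5 + 3 * ℓ := by
        have : psize (AiS ℓ A idx i S :: L') < 2 ^ (5 + 3 * ℓ) := by
          have e3 : 18 * T ^ 3 ≤ 18 * (2 ^ ℓ) ^ 3 :=
            Nat.mul_le_mul_left _ (Nat.pow_le_pow_left hTℓ.le 3)
          have e4 : 18 * (2 ^ ℓ) ^ 3 < 2 ^ (5 + 3 * ℓ) := by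
            rw [pow_add, mul_comm 3 ℓ, pow_mul]
            have : 0 < (2 ^ ℓ) ^ 3 := by positivity
            omega
          omega
        exact (Nat.log_lt_of_lt_pow (by
          have := size_pos (AiS ℓ A idx i S)
          rw [psize_cons]; omega) this).le
      have hcard := AiS_card ℓ A idx i S hi1 hℓ1
      have e5 : W₀.card ≤ c₀ * (10 * (i * ℓ)) := by
        refine hW.trans (Nat.mul_le_mul_left _ ?_)
        have e6 : ℓ ≤ i * ℓ := Nat.le_mul_of_pos_left _ (by omega)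
        have e7 : 2 * i * ℓ = 2 * (i * ℓ) := by ring
        omega
      calc 2 * W₀.card ≤ 2 * (c₀ * (10 * (i * ℓ))) := Nat.mul_le_mul_left _ e5
        _ = i * (20 * c₀ * ℓ) := by ring
        _ ≤ i * b := Nat.mul_le_mul_left _ (by rw [hb, hK₀]; exact Nat.mul_le_mul_right _ (by omega))
    · have e8 : psize (AiS ℓ A idx i S :: L') ≤ X ^ 5 := by
        have e9 : 18 * T ^ 3 ≤ X ^ 5 := by
          rw [hX]
          have : 1 ≤ T ^ 2 := Nat.one_le_pow _ _ hT1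
          calc 18 * T ^ 3 ≤ 32 * (T ^ 3 * T ^ 2) := by nlinarith [Nat.zero_le (T ^ 3)]
            _ = (2 * T) ^ 5 := by ring
        exact (hp'.trans hms).trans e9
      have e10 : c₀ ≤ X ^ c₀ := (Nat.lt_two_pow_self).le.trans (Nat.pow_le_pow_left hX2 _)
      calc _ ≤ c₀ * psize (AiS ℓ A idx i S :: L') ^ c₀ := hp''
        _ ≤ X ^ c₀ * (X ^ 5) ^ c₀ := Nat.mul_le_mul e10 (Nat.pow_le_pow_left e8 _)
        _ = X ^ (6 * c₀) := by rw [← pow_mul, ← pow_add]; congr 1; ring) Γ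
  -- the world with zeros
  have hfin := hc₂ N b ℓ n A idx vv y hen hN hy hyi (Γ ∪ {B | B ∈ [EE N b ℓ A idx n 0 0]})
    (Or.inr (by simp))
  refine (hrec.cut hfin).mono subset_rfl ?_
  have h2b : 2 ^ b ≤ X ^ K₀ := by
    rw [hb, mul_comm, pow_mul, hX]
    exact Nat.pow_le_pow_left h2ℓ _
  have hnT : n ≤ T := hnA.trans hAs
  have hE1 : X ^ (6 * c₀) + A.size + n + 2 ^ b ≤ X ^ (6 * c₀ + K₀ + 3) := by
    have g1 : X ^ (6 * c₀) ≤ X ^ (6 * c₀ + K₀ + 1) := Nat.pow_le_pow_right hX1 (by omega)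
    have g2 : X ≤ X ^ (6 * c₀ + K₀ + 1) := Nat.le_self_pow (by omega) _
    have g3 : X ^ K₀ ≤ X ^ (6 * c₀ + K₀ + 1) := Nat.pow_le_pow_right hX1 (by omega)
    have g4 : A.size + n ≤ X := by omega
    have g5 : X ^ (6 * c₀ + K₀ + 3) = X ^ (6 * c₀ + K₀ + 1) * X ^ 2 := by rw [← pow_add]
    have g6 : 3 ≤ X ^ 2 := by nlinarith
    have g7 : X ^ (6 * c₀ + K₀ + 1) * 3 ≤ X ^ (6 * c₀ + K₀ + 1) * X ^ 2 := Nat.mul_le_mul_left _ g6
    omega
  have hY : A.size + Yr n b 0 + 1 ≤ X ^ (K₀ + 3) := by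
    have g0 : Yr n b 0 = 2 * (n * 2 ^ b) := by
      unfold Yr; rw [Nat.sub_zero]; ring
    have g1 : n * 2 ^ b ≤ T * X ^ K₀ := Nat.mul_le_mul hnT h2b
    have g2 : 2 * (T * X ^ K₀) = X ^ (K₀ + 1) := by rw [pow_succ, hX]; ring
    have g3 : X ≤ X ^ (K₀ + 1) := Nat.le_self_pow (by omega) _
    have g5 : X ^ (K₀ + 3) = X ^ (K₀ + 1) * X ^ 2 := by rw [← pow_add]
    have g6 : 3 ≤ X ^ 2 := by nlinarith
    have g7 : X ^ (K₀ + 1) * 3 ≤ X ^ (K₀ + 1) * X ^ 2 := Nat.mul_le_mul_left _ g6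
    omega
  have f1 : c₁ * (X ^ (6 * c₀) + A.size + n + 2 ^ b) ^ c₁ ≤ c₁ * X ^ ((6 * c₀ + K₀ + 3) * c₁ + (K₀ + 3) * c₂) := by
    apply Nat.mul_le_mul_left
    calc _ ≤ (X ^ (6 * c₀ + K₀ + 3)) ^ c₁ := Nat.pow_le_pow_left hE1 _
      _ = X ^ ((6 * c₀ + K₀ + 3) * c₁) := by rw [← pow_mul]
      _ ≤ _ := Nat.pow_le_pow_right hX1 (by omega)
  have f2 : c₂ * (A.size + Yr n b 0 + 1) ^ c₂ ≤ c₂ * X ^ ((6 * c₀ + K₀ + 3) * c₁ + (K₀ + 3) * c₂) := by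
    apply Nat.mul_le_mul_left
    calc _ ≤ (X ^ (K₀ + 3)) ^ c₂ := Nat.pow_le_pow_left hY _
      _ = X ^ ((K₀ + 3) * c₂) := by rw [← pow_mul]
      _ ≤ _ := Nat.pow_le_pow_right hX1 (by omega)
  rw [← hX]
  calc _ ≤ c₁ * X ^ ((6 * c₀ + K₀ + 3) * c₁ + (K₀ + 3) * c₂) +
        c₂ * X ^ ((6 * c₀ + K₀ + 3) * c₁ + (K₀ + 3) * c₂) := Nat.add_le_add f1 f2
    _ = _ := by ring

theorem exists_bd (A : Fm) : ∃ N : ℕ, ∀ n ∈ A.vars, n < N := by
  refine ⟨A.vars.sup id + 1, fun n hn => ?_⟩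
  have := Finset.le_sup (f := id) hn
  simp only [id] at this
  omega

theorem flip_vars (A : Fm) : (flip A).vars = A.vars := by
  unfold flip
  induction A with
  | var n => simp [subst, vars]
  | neg B ih => simp only [subst, vars, ih]
  | and B C iB iC => simp only [subst, vars, iB, iC]
  | or B C iB iC => simp only [subst, vars, iB, iC]
  | imp B C iB iC => simp only [subst, vars, iB, iC]

theorem litF_false (y : ℕ → ℕ) (N : ℕ) : litF false y N = zeroL y N := by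
  simp [litF, zeroL, lit]

theorem litF_true (y : ℕ → ℕ) (N : ℕ) : litF true y N = oneL y N := by
  simp [litF, oneL, lit]

/-- task back -/
theorem t_back (F : List Rule) (hF : IsFrege F) (h1 : S_efsub F) (h2 : S_enum) (h3 : S_val F)
    (h4 : S_erec F) (h5 : S_efin F) (h6 : S_fworld F) (h7 : S_efflip F) (h8 : S_comb F) :
    S_back F := by
  have _ := hF
  intro hL
  obtain ⟨c, e, K₀, hw⟩ := world F h1 h2 h3 h4 h5 hL
  obtain ⟨c₃, hc₃⟩ := h6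
  obtain ⟨c₄, hc₄⟩ := h8
  obtain ⟨E, hE⟩ : ∃ E, E = e + 12 * (K₀ + 3) := ⟨_, rfl⟩
  obtain ⟨C, hC⟩ : ∃ C, C = 2 * c + c₃ + c₄ := ⟨_, rfl⟩
  refine ⟨C * 4 ^ E + E, ?_⟩
  intro A k L hEF
  obtain ⟨s, hs⟩ : ∃ s, s = psize (A :: L) := ⟨_, rfl⟩
  obtain ⟨T, hT⟩ : ∃ T, T = 2 * s := ⟨_, rfl⟩
  obtain ⟨X, hX⟩ : ∃ X, X = 2 * T := ⟨_, rfl⟩
  have hAs : A.size ≤ s := by rw [hs]; exact size_le_psize (by simp)
  have hs1 : 1 ≤ s := (size_pos A).trans hAs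
  obtain ⟨L', hL', hp'⟩ := h7 A k L hEF
  obtain ⟨N, hN⟩ := exists_bd A
  obtain ⟨Y, hY⟩ : ∃ Y, Y = Yr A.vars.card (K₀ * (Nat.log 2 T + 1)) 0 := ⟨_, rfl⟩
  have hw1 := hw A k L hEF T (by omega) N hN
  have hw2 := hw (flip A) k L' hL' T (by omega) N (by rw [flip_vars]; exact hN)
  rw [flip_vars, ← hY] at hw2
  rw [← hY, ← hX] at hw1
  rw [← hX] at hw2
  have hX1 : 1 ≤ X := by omega
  have hnA := vars_card_le A
  have hAY : A.size + Y + 1 ≤ X ^ (K₀ + 3) := by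
    have g0 : Y = 2 * (A.vars.card * 2 ^ (K₀ * (Nat.log 2 T + 1))) := by
      rw [hY]; unfold Yr; rw [Nat.sub_zero]; ring
    have h2ℓ : 2 ^ (Nat.log 2 T + 1) ≤ X := by
      rw [pow_succ, hX]
      have := Nat.pow_log_le_self 2 (x := T) (by omega)
      omega
    have h2b : 2 ^ (K₀ * (Nat.log 2 T + 1)) ≤ X ^ K₀ := by
      rw [mul_comm, pow_mul]
      exact Nat.pow_le_pow_left h2ℓ _
    have g1 : A.vars.card * 2 ^ (K₀ * (Nat.log 2 T + 1)) ≤ T * X ^ K₀ :=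
      Nat.mul_le_mul (by omega) h2b
    have g2 : 2 * (T * X ^ K₀) = X ^ (K₀ + 1) := by rw [pow_succ, hX]; ring
    have g3 : X ≤ X ^ (K₀ + 1) := Nat.le_self_pow (by omega) _
    have g5 : X ^ (K₀ + 3) = X ^ (K₀ + 1) * X ^ 2 := by rw [← pow_add]
    have g6 : 3 ≤ X ^ 2 := by nlinarith
    have g7 : X ^ (K₀ + 1) * 3 ≤ X ^ (K₀ + 1) * X ^ 2 := Nat.mul_le_mul_left _ g6
    omega
  obtain ⟨K, hK⟩ : ∃ K, K = 2 * (c * X ^ e) + c₃ * (A.size + Y + 1) ^ 4 := ⟨_, rfl⟩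
  have main := hc₄ A Y K (N + 1) N (fun n hn => by have := hN n hn; omega) (by omega) (by
    intro y hy hyi
    have w1 := hw1 y hy hyi ∅
    have w2 := hw2 y hy hyi ∅
    rw [← litF_false] at w2
    have w3 := hc₃ false N A y Y _ w2 ∅
    rw [Bool.not_false, litF_true] at w3
    exact ⟨w1.mono subset_rfl (by rw [hK]; omega), w3.mono subset_rfl (by rw [hK])⟩)
  obtain ⟨D', hD1, hD2, hD3⟩ := main [] PermProof.nil (by simp)
  obtain ⟨L'', hL'', hp''⟩ := permProof_cut hD1 (hD2 A (by simp))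
  refine ⟨L'', hL'', hp''.trans ?_⟩
  rw [List.append_nil, ← hs]
  refine hD3.trans ?_
  have hYX : Y + 1 ≤ X ^ (K₀ + 3) := by omega
  have a4 : (A.size + Y + 1) ^ 4 ≤ X ^ (4 * (K₀ + 3)) := by
    calc _ ≤ (X ^ (K₀ + 3)) ^ 4 := Nat.pow_le_pow_left hAY _
      _ = _ := by rw [← pow_mul]; congr 1; ring
  have a8 : (A.size + Y + 1) ^ 8 ≤ X ^ E := by
    calc _ ≤ (X ^ (K₀ + 3)) ^ 8 := Nat.pow_le_pow_left hAY _
      _ = X ^ (8 * (K₀ + 3)) := by rw [← pow_mul]; congr 1; ring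
      _ ≤ _ := Nat.pow_le_pow_right hX1 (by omega)
  have b1 : (Y + 1) * (2 * (c * X ^ e)) ≤ 2 * c * X ^ E := by
    calc _ ≤ X ^ (K₀ + 3) * (2 * (c * X ^ e)) := Nat.mul_le_mul_right _ hYX
      _ = 2 * c * X ^ (K₀ + 3 + e) := by rw [pow_add]; ring
      _ ≤ _ := Nat.mul_le_mul_left _ (Nat.pow_le_pow_right hX1 (by omega))
  have b2 : (Y + 1) * (c₃ * (A.size + Y + 1) ^ 4) ≤ c₃ * X ^ E := by
    calc _ ≤ X ^ (K₀ + 3) * (c₃ * X ^ (4 * (K₀ + 3))) :=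
          Nat.mul_le_mul hYX (Nat.mul_le_mul_left _ a4)
      _ = c₃ * X ^ (K₀ + 3 + 4 * (K₀ + 3)) := by rw [pow_add X (K₀ + 3)]; ring
      _ ≤ _ := Nat.mul_le_mul_left _ (Nat.pow_le_pow_right hX1 (by omega))
  have b3 : (Y + 1) * K + c₄ * (A.size + Y + 1) ^ 8 ≤ C * X ^ E := by
    calc _ = (Y + 1) * (2 * (c * X ^ e)) + (Y + 1) * (c₃ * (A.size + Y + 1) ^ 4) +
          c₄ * (A.size + Y + 1) ^ 8 := by rw [hK]; ring
      _ ≤ 2 * c * X ^ E + c₃ * X ^ E + c₄ * X ^ E :=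
          Nat.add_le_add (Nat.add_le_add b1 b2) (Nat.mul_le_mul_left _ a8)
      _ = C * X ^ E := by rw [hC]; ring
  refine b3.trans ?_
  have hXs : X = 4 * s := by omega
  calc C * X ^ E = C * 4 ^ E * s ^ E := by rw [hXs, mul_pow]; ring
    _ ≤ (C * 4 ^ E + E) * s ^ (C * 4 ^ E + E) :=
      Nat.mul_le_mul (Nat.le_add_right _ _) (Nat.pow_le_pow_right hs1 (Nat.le_add_left _ _))

end Pool.Agent.H586P.T_back
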