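import Pool.Agent.H586P.Defs3

set_option autoImplicit false

namespace Pool.Agent.H586P.T_base0

open Pool.Agent.H586P Pool.Agent.H555R2.PF Pool.Agent.H555R2.PF.Fm

theorem t_evs (F : List Rule) (hF : IsFrege F) : ∃ c : ℕ, ∀ (v : ℕ → Bool) (σ : ℕ → Fm) (U : Fm)
    (M : ℕ), U.size ≤ M → ∀ C : Fm, (C.subst σ).size ≤ M → ∀ Γ : Set Fm,
      (∀ n ∈ C.vars, imp U (sg (v n) (σ n)) ∈ Γ) →
      Can F Γ [imp U (sg (ev v C) (C.subst σ))] (c * M * C.size) := by
  have h1 : ∀ b : Bool, ∃ c : ℕ, ∀ (l : List Fm) (M : ℕ), 1 ≤ M → (∀ X ∈ l, X.size ≤ M) →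
      ∀ Γ : Set Fm, (∀ A ∈ [imp (var 0) (sg b (var 1))], A.subst (asg l) ∈ Γ) →
        Can F Γ [(imp (var 0) (sg (!b) (neg (var 1)))).subst (asg l)] (c * M) := fun b =>
    schemaL hF _ _ (by intro v h; cases b <;> simp [sg, eval] at h ⊢ <;> tauto)
  have h2 : ∀ b b' : Bool, ∃ c : ℕ, ∀ (l : List Fm) (M : ℕ), 1 ≤ M → (∀ X ∈ l, X.size ≤ M) →
      ∀ Γ : Set Fm, (∀ A ∈ [imp (var 0) (sg b (var 1)), imp (var 0) (sg b' (var 2))],
        A.subst (asg l) ∈ Γ) →
        Can F Γ [(imp (var 0) (sg (b && b') (and (var 1) (var 2)))).subst (asg l)] (c * M) :=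
    fun b b' => schemaL hF _ _ (by
      intro v h; cases b <;> cases b' <;> simp [sg, eval] at h ⊢ <;> tauto)
  have h3 : ∀ b b' : Bool, ∃ c : ℕ, ∀ (l : List Fm) (M : ℕ), 1 ≤ M → (∀ X ∈ l, X.size ≤ M) →
      ∀ Γ : Set Fm, (∀ A ∈ [imp (var 0) (sg b (var 1)), imp (var 0) (sg b' (var 2))],
        A.subst (asg l) ∈ Γ) →
        Can F Γ [(imp (var 0) (sg (b || b') (or (var 1) (var 2)))).subst (asg l)] (c * M) :=
    fun b b' => schemaL hF _ _ (by
      intro v h; cases b <;> cases b' <;> simp [sg, eval] at h ⊢ <;> tauto)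
  have h4 : ∀ b b' : Bool, ∃ c : ℕ, ∀ (l : List Fm) (M : ℕ), 1 ≤ M → (∀ X ∈ l, X.size ≤ M) →
      ∀ Γ : Set Fm, (∀ A ∈ [imp (var 0) (sg b (var 1)), imp (var 0) (sg b' (var 2))],
        A.subst (asg l) ∈ Γ) →
        Can F Γ [(imp (var 0) (sg (!b || b') (imp (var 1) (var 2)))).subst (asg l)] (c * M) :=
    fun b b' => schemaL hF _ _ (by
      intro v h; cases b <;> cases b' <;> simp [sg, eval] at h ⊢ <;> tauto)
  choose c₁ h₁ using h1
  choose c₂ h₂ using h2
  choose c₃ h₃ using h3
  choose c₄ h₄ using h4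
  have hsum : ∃ c : ℕ, (∀ b, c₁ b ≤ c) ∧ (∀ b b', c₂ b b' ≤ c) ∧ (∀ b b', c₃ b b' ≤ c) ∧
      (∀ b b', c₄ b b' ≤ c) := by
    refine ⟨∑ b, c₁ b + ∑ b, ∑ b', c₂ b b' + ∑ b, ∑ b', c₃ b b' + ∑ b, ∑ b', c₄ b b',
      ?_, ?_, ?_, ?_⟩ <;> simp only [Fintype.sum_bool]
    · intro b; cases b <;> omega
    · intro b b'; cases b <;> cases b' <;> omega
    · intro b b'; cases b <;> cases b' <;> omega
    · intro b b'; cases b <;> cases b' <;> omega
  obtain ⟨c, hc1, hc2, hc3, hc4⟩ := hsum
  refine ⟨c, fun v σ U M hU C => ?_⟩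
  have hM : 1 ≤ M := (size_pos U).trans hU
  induction C with
  | var n =>
    intro _ Γ hΓ
    exact (Can.hyp (hΓ n (by simp [vars]))).mono subset_rfl (Nat.zero_le _)
  | neg C ih =>
    intro hs Γ hΓ
    simp only [subst, size] at hs
    have r := ih (by omega) Γ hΓ
    have s := h₁ (ev v C) [U, C.subst σ] M hM (by
      intro X hX; simp at hX; rcases hX with rfl | rfl
      exacts [hU, by omega]) (Γ ∪ {Y | Y ∈ [imp U (sg (ev v C) (C.subst σ))]}) (by
      intro Y hY; simp only [List.mem_singleton] at hY; subst hY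
      right; simp [subst, asg, sg_subst])
    refine ((r.cut s).sub (by simp [subst, asg, sg_subst, ev])).mono subset_rfl ?_
    simp only [size]
    have := Nat.mul_le_mul_right M (hc1 (ev v C))
    nlinarith
  | and A B iA iB =>
    intro hs Γ hΓ
    simp only [subst, size] at hs
    have rA := iA (by omega) Γ (fun n hn => hΓ n (by simp [vars, hn]))
    have rB := iB (by omega) Γ (fun n hn => hΓ n (by simp [vars, hn]))
    have s := h₂ (ev v A) (ev v B) [U, A.subst σ, B.subst σ] M hM (by
      intro X hX; simp at hX; rcases hX with rfl | rfl | rfl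
      exacts [hU, by omega, by omega])
      (Γ ∪ {Y | Y ∈ [imp U (sg (ev v A) (A.subst σ))] ++ [imp U (sg (ev v B) (B.subst σ))]}) (by
      intro Y hY; simp only [List.mem_cons, List.not_mem_nil, or_false] at hY
      rcases hY with rfl | rfl <;> right <;> simp [subst, asg, sg_subst])
    refine (((rA.append rB).cut s).sub (by simp [subst, asg, sg_subst, ev])).mono subset_rfl ?_
    simp only [size]
    have := Nat.mul_le_mul_right M (hc2 (ev v A) (ev v B))
    nlinarith
  | or A B iA iB =>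
    intro hs Γ hΓ
    simp only [subst, size] at hs
    have rA := iA (by omega) Γ (fun n hn => hΓ n (by simp [vars, hn]))
    have rB := iB (by omega) Γ (fun n hn => hΓ n (by simp [vars, hn]))
    have s := h₃ (ev v A) (ev v B) [U, A.subst σ, B.subst σ] M hM (by
      intro X hX; simp at hX; rcases hX with rfl | rfl | rfl
      exacts [hU, by omega, by omega])
      (Γ ∪ {Y | Y ∈ [imp U (sg (ev v A) (A.subst σ))] ++ [imp U (sg (ev v B) (B.subst σ))]}) (by
      intro Y hY; simp only [List.mem_cons, List.not_mem_nil, or_false] at hY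
      rcases hY with rfl | rfl <;> right <;> simp [subst, asg, sg_subst])
    refine (((rA.append rB).cut s).sub (by simp [subst, asg, sg_subst, ev])).mono subset_rfl ?_
    simp only [size]
    have := Nat.mul_le_mul_right M (hc3 (ev v A) (ev v B))
    nlinarith
  | imp A B iA iB =>
    intro hs Γ hΓ
    simp only [subst, size] at hs
    have rA := iA (by omega) Γ (fun n hn => hΓ n (by simp [vars, hn]))
    have rB := iB (by omega) Γ (fun n hn => hΓ n (by simp [vars, hn]))
    have s := h₄ (ev v A) (ev v B) [U, A.subst σ, B.subst σ] M hM (by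
      intro X hX; simp at hX; rcases hX with rfl | rfl | rfl
      exacts [hU, by omega, by omega])
      (Γ ∪ {Y | Y ∈ [imp U (sg (ev v A) (A.subst σ))] ++ [imp U (sg (ev v B) (B.subst σ))]}) (by
      intro Y hY; simp only [List.mem_cons, List.not_mem_nil, or_false] at hY
      rcases hY with rfl | rfl <;> right <;> simp [subst, asg, sg_subst])
    refine (((rA.append rB).cut s).sub (by simp [subst, asg, sg_subst, ev])).mono subset_rfl ?_
    simp only [size]
    have := Nat.mul_le_mul_right M (hc4 (ev v A) (ev v B))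
    nlinarith

theorem ev_true {v : ℕ → Bool} : ∀ C : Fm, C.eval (fun n => v n = true) ↔ ev v C = true := by
  intro C
  induction C with
  | var n => simp [eval, ev]
  | neg A ih => simp [eval, ev, ih]
  | and A B iA iB => simp [eval, ev, iA, iB]
  | or A B iA iB => simp [eval, ev, iA, iB]
  | imp A B iA iB =>
    simp only [eval, ev, iA, iB]
    cases ev v A <;> cases ev v B <;> simp

theorem psize_le {l : List Fm} {K : ℕ} (h : ∀ X ∈ l, X.size ≤ K) : psize l ≤ l.length * K := by
  induction l with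
  | nil => simp [psize]
  | cons X l ih =>
    rw [psize_cons, List.length_cons]
    have h1 := h X (by simp)
    have h2 := ih fun Y hY => h Y (by simp [hY])
    nlinarith

theorem HE0_size (N b Y : ℕ) : (HE N b 0 Y).size ≤ 3 * Y + 11 := by
  unfold HE Wd oneL zeroL
  simp only [size, conjL_size, List.range_zero, List.map_nil, List.length_nil, List.length_map,
    List.length_range]
  have h : psize ((List.range Y).map fun i => neg (var (yv N i))) ≤ Y * 2 := by
    have := psize_le (l := (List.range Y).map fun i => neg (var (yv N i))) (K := 2) (by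
      intro X hX
      obtain ⟨i, _, rfl⟩ := List.mem_map.1 hX
      simp [size])
    simpa using this
  have h0 : psize [] = 0 := rfl
  omega

theorem mem_P {n r : ℕ} {vv : ℕ → ℕ} {P : List (ℕ × Bool)}
    (hP : (P.map Prod.fst).reverse = (List.range' r (n - r)).map vv) {q : ℕ} (h1 : r ≤ q)
    (h2 : q < n) : ∃ b, (vv q, b) ∈ P := by
  have h3 : vv q ∈ (P.map Prod.fst).reverse := by
    rw [hP]
    exact List.mem_map.2 ⟨q, by rw [List.mem_range'_1]; omega, rfl⟩
  rw [List.mem_reverse, List.mem_map] at h3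
  obtain ⟨⟨x, y⟩, h4, h5⟩ := h3
  simp only at h5
  subst h5
  exact ⟨y, h4⟩

theorem arith (ce cm c1 c2 c3 S M a n k : ℕ) (hn : n + 1 ≤ S) (ha : a ≤ S) (hM : M = 30 * S ^ 2)
    (hk : k ≤ a) (hS : 1 ≤ S) :
    k * (cm * M * (n + 1) + (c1 + c2 + c3) * M) + ce * M * a ≤
      (30 * (ce + cm + c1 + c2 + c3) + 4) * S ^ (30 * (ce + cm + c1 + c2 + c3) + 4) := by
  have h4 : S ^ 4 ≤ S ^ (30 * (ce + cm + c1 + c2 + c3) + 4) := Nat.pow_le_pow_right hS (by omega)
  have h3 : S ^ 3 ≤ S ^ 4 := Nat.pow_le_pow_right hS (by omega)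
  have e1 : cm * M * (n + 1) ≤ 30 * cm * S ^ 3 := by
    rw [hM]
    calc cm * (30 * S ^ 2) * (n + 1) ≤ cm * (30 * S ^ 2) * S := Nat.mul_le_mul_left _ hn
      _ = 30 * cm * S ^ 3 := by ring
  have e2 : (c1 + c2 + c3) * M ≤ 30 * (c1 + c2 + c3) * S ^ 3 := by
    rw [hM]
    calc (c1 + c2 + c3) * (30 * S ^ 2) = 30 * (c1 + c2 + c3) * S ^ 2 := by ring
      _ ≤ 30 * (c1 + c2 + c3) * S ^ 3 := Nat.mul_le_mul_left _ (Nat.pow_le_pow_right hS (by omega))
  have e3 : k * (cm * M * (n + 1) + (c1 + c2 + c3) * M) ≤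
      S * (30 * cm * S ^ 3 + 30 * (c1 + c2 + c3) * S ^ 3) :=
    Nat.mul_le_mul (hk.trans ha) (Nat.add_le_add e1 e2)
  have e4 : ce * M * a ≤ 30 * ce * S ^ 3 := by
    rw [hM]
    calc ce * (30 * S ^ 2) * a ≤ ce * (30 * S ^ 2) * S := Nat.mul_le_mul_left _ ha
      _ = 30 * ce * S ^ 3 := by ring
  have e5 : S * (30 * cm * S ^ 3 + 30 * (c1 + c2 + c3) * S ^ 3) =
      30 * (cm + c1 + c2 + c3) * S ^ 4 := by ring
  have e6 : 30 * ce * S ^ 3 ≤ 30 * ce * S ^ 4 := Nat.mul_le_mul_left _ h3
  calc k * (cm * M * (n + 1) + (c1 + c2 + c3) * M) + ce * M * a ≤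
      30 * (cm + c1 + c2 + c3) * S ^ 4 + 30 * ce * S ^ 4 := by omega
    _ ≤ (30 * (ce + cm + c1 + c2 + c3) + 4) * S ^ 4 := by nlinarith [Nat.zero_le (S ^ 4)]
    _ ≤ _ := Nat.mul_le_mul_left _ h4

theorem t_base0 (F : List Rule) (hF : IsFrege F) (h1 : S_ev F) : S_base0 F := by
  obtain ⟨ce, he⟩ := t_evs F hF
  obtain ⟨cm, hm⟩ := conj_mem hF
  obtain ⟨c1, h1⟩ := schemaL hF [imp (var 0) (var 1)] (imp (var 0) (or (var 1) (var 2))) (by
    intro v h; simp [eval] at h ⊢; tauto)
  obtain ⟨c2, h2⟩ := schemaL hF [imp (var 0) (neg (var 1))]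
    (imp (var 0) (neg (or (var 1) (neg (imp (var 2) (var 2)))))) (by
    intro v h; simp [eval] at h ⊢; tauto)
  obtain ⟨c3, h3⟩ := schemaL hF [] (imp (var 0) (neg (neg (imp (var 1) (var 1))))) (by
    intro v h; simp [eval])
  refine ⟨30 * (ce + cm + c1 + c2 + c3) + 4, ?_⟩
  intro N b ℓ n r A idx vv P hE hN hval hr hP Γ
  set Y := Yr n b r with hY
  set Ds := P.map lit ++ [HE N b 0 Y] with hDs
  set U := conjL N Ds with hU
  have hb : 1 ≤ 2 ^ b := Nat.one_le_two_pow
  have hA1 := size_pos A
  obtain ⟨S, hS⟩ : ∃ S, S = A.size + n + 2 ^ b := ⟨_, rfl⟩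
  obtain ⟨M, hM⟩ : ∃ M, M = 30 * S ^ 2 := ⟨_, rfl⟩
  have hPl : P.length = n - r := by
    have := congrArg List.length hP
    simpa using this
  have hDl : Ds.length = n - r + 1 := by
    rw [hDs]; simp [hPl]
  have hYle : Y ≤ 2 * (n * 2 ^ b) := by
    rw [hY]; unfold Yr
    have : (n - r) * 2 ^ b ≤ n * 2 ^ b := Nat.mul_le_mul_right _ (by omega)
    omega
  have hnb : n * 2 ^ b ≤ S ^ 2 := by
    rw [pow_two]; exact Nat.mul_le_mul (by omega) (by omega)
  have hSS : S ≤ S ^ 2 := Nat.le_self_pow (by norm_num) S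
  have hS2 : 2 ≤ S := by omega
  have hUs : U.size ≤ M := by
    rw [hU, conjL_size, hDl]
    have e1 : psize (P.map lit) ≤ (n - r) * 2 := by
      have := psize_le (l := P.map lit) (K := 2) (by
        intro X hX
        obtain ⟨x, _, rfl⟩ := List.mem_map.1 hX
        unfold lit
        split_ifs <;> simp [size])
      simpa [hPl] using this
    have e2 : psize Ds ≤ (n - r) * 2 + (3 * Y + 11) := by
      rw [hDs, psize_append]
      have := HE0_size N b Y
      simp only [psize_cons]
      have h0 : psize [] = 0 := rfl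
      omega
    rw [hM]
    omega
  have hM1 : 1 ≤ M := (size_pos U).trans hUs
  set σ : ℕ → Fm := fun m => if idx m < r then DD N b ℓ 0 (idx m)
    else or (var m) (DD N b ℓ 0 (idx m)) with hσ
  have hDD : ∀ q, DD N b ℓ 0 q = neg (imp (var N) (var N)) := by
    intro q; simp [DD, disjL]
  have hσs : ∀ m, (σ m).size ≤ 6 := by
    intro m
    simp only [hσ, hDD]
    split_ifs <;> simp [size]
  have hAs : (A.subst σ).size ≤ M := by
    refine (size_subst_le (M := 6) (by norm_num) fun m _ => hσs m).trans ?_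
    rw [hM]; omega
  let v : ℕ → Bool := fun m => decide (r ≤ idx m ∧ (m, true) ∈ P)
  have hlits : ∀ m ∈ A.vars, Can F Γ [imp U (sg (v m) (σ m))]
      (cm * M * (n + 1) + (c1 + c2 + c3) * M) := by
    intro m hm'
    obtain ⟨hq1, hq2⟩ := hE.h1 m hm'
    have hvarM : ∀ k : ℕ, (var k).size ≤ M := fun k => by simpa [size] using hM1
    have hmem : ∀ D ∈ Ds, ∀ Γ : Set Fm, Can F Γ [imp U D] (cm * M * (n + 1)) := by
      intro D hD Γ
      refine (hm N Ds M hM1 hUs D hD Γ).mono subset_rfl ?_
      exact Nat.mul_le_mul_left _ (by omega)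
    by_cases hlt : idx m < r
    · have hv : v m = false := by
        simp only [v, decide_eq_false_iff_not]; omega
      have hs : σ m = neg (imp (var N) (var N)) := by
        simp only [hσ, if_pos hlt, hDD]
      rw [hv, hs]
      refine (((h3 [U, var N] M hM1 (by
        intro X hX; simp at hX; rcases hX with rfl | rfl
        exacts [hUs, hvarM _]) Γ (by simp)).sub (by simp [subst, asg, sg])).mono subset_rfl ?_)
      nlinarith [Nat.zero_le (cm * M * (n + 1)), Nat.zero_le (c1 * M), Nat.zero_le (c2 * M)]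
    · have hle : r ≤ idx m := by omega
      have hs : σ m = or (var m) (neg (imp (var N) (var N))) := by
        simp only [hσ, if_neg hlt, hDD]
      by_cases hT : (m, true) ∈ P
      · have hv : v m = true := by
          simp only [v, decide_eq_true_eq]; exact ⟨hle, hT⟩
        have g1 := hmem (var m) (by
          rw [hDs]; apply List.mem_append_left
          exact List.mem_map.2 ⟨_, hT, by simp [lit]⟩) Γ
        have g2 := h1 [U, var m, neg (imp (var N) (var N))] M hM1 (by
          intro X hX; simp at hX; rcases hX with rfl | rfl | rfl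
          · exact hUs
          · exact hvarM _
          · simp only [size]; rw [hM]; nlinarith) (Γ ∪ {B | B ∈ [imp U (var m)]}) (by
          intro X hX; simp only [List.mem_singleton] at hX; subst hX
          right; simp [subst, asg])
        rw [hv, hs]
        refine ((g1.cut g2).sub (by simp [subst, asg, sg])).mono subset_rfl ?_
        nlinarith [Nat.zero_le (c3 * M), Nat.zero_le (c2 * M)]
      · have hv : v m = false := by
          simp only [v, decide_eq_false_iff_not]; tauto
        obtain ⟨bb, hbb⟩ := mem_P hP hle hq1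
        rw [hq2] at hbb
        have hbf : bb = false := by
          cases bb
          · rfl
          · exact absurd hbb hT
        subst hbf
        have g1 := hmem (neg (var m)) (by
          rw [hDs]; apply List.mem_append_left
          exact List.mem_map.2 ⟨_, hbb, by simp [lit]⟩) Γ
        have g2 := h2 [U, var m, var N] M hM1 (by
          intro X hX; simp at hX; rcases hX with rfl | rfl | rfl
          · exact hUs
          · exact hvarM _
          · exact hvarM _) (Γ ∪ {B | B ∈ [imp U (neg (var m))]}) (by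
          intro X hX; simp only [List.mem_singleton] at hX; subst hX
          right; simp [subst, asg])
        rw [hv, hs]
        refine ((g1.cut g2).sub (by simp [subst, asg, sg])).mono subset_rfl ?_
        nlinarith [Nat.zero_le (c3 * M), Nat.zero_le (c1 * M)]
  have hmany := Can.many (F := F) (Γ := Γ) (fun m => imp U (sg (v m) (σ m)))
    (cm * M * (n + 1) + (c1 + c2 + c3) * M) A.vars.toList (by
      intro m hm'
      exact hlits m (Finset.mem_toList.1 hm'))
  have hfin := he v σ U M hUs A hAs (Γ ∪ {B | B ∈ A.vars.toList.map fun m =>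
    imp U (sg (v m) (σ m))}) (by
      intro m hm'
      right
      exact List.mem_map.2 ⟨m, Finset.mem_toList.2 hm', rfl⟩)
  have hevA : ev v A = true := (ev_true A).1 (hval _)
  rw [hevA] at hfin
  refine ((hmany.cut hfin).sub ?_).mono subset_rfl ?_
  · intro B hB
    simpa [sg, TR] using hB
  · rw [Finset.length_toList, ← hS]
    exact arith ce cm c1 c2 c3 S M A.size n _ (by omega) (by omega) hM (vars_card_le A) (by omega)

end Pool.Agent.H586P.T_base0
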