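import Pool.Agent.H586P.Defs3

set_option autoImplicit false

namespace Pool.Agent.H586P.T_basel

open Pool.Agent.H586P Pool.Agent.H555R2.PF Pool.Agent.H555R2.PF.Fm

/-! ### sizes and variables -/

theorem psize_le {l : List Fm} {K : ℕ} (h : ∀ X ∈ l, X.size ≤ K) : psize l ≤ l.length * K := by
  induction l with
  | nil => simp [psize]
  | cons X l ih =>
    rw [psize_cons, List.length_cons]
    have h1 := h X (by simp)
    have h2 := ih fun Y hY => h Y (by simp [hY])
    nlinarith

theorem len_flatMap_le {α : Type} (f : α → List Fm) (K : ℕ) (l : List α)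
    (h : ∀ a ∈ l, (f a).length ≤ K) : (l.flatMap f).length ≤ l.length * K := by
  induction l with
  | nil => simp
  | cons a l ih =>
    rw [List.flatMap_cons, List.length_append, List.length_cons]
    have h1 := h a (by simp)
    have h2 := ih fun b hb => h b (by simp [hb])
    nlinarith

theorem vars_subst {σ : ℕ → Fm} {n : ℕ} : ∀ {A : Fm}, n ∈ (A.subst σ).vars →
    ∃ m ∈ A.vars, n ∈ (σ m).vars := by
  intro A
  induction A with
  | var m => intro h; exact ⟨m, by simp [vars], h⟩
  | neg A ih => intro h; exact ih h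
  | and A B iA iB =>
    intro h
    simp only [subst, vars, Finset.mem_union] at h
    rcases h with h | h
    · obtain ⟨m, hm, h⟩ := iA h
      exact ⟨m, by simp [vars, hm], h⟩
    · obtain ⟨m, hm, h⟩ := iB h
      exact ⟨m, by simp [vars, hm], h⟩
  | or A B iA iB =>
    intro h
    simp only [subst, vars, Finset.mem_union] at h
    rcases h with h | h
    · obtain ⟨m, hm, h⟩ := iA h
      exact ⟨m, by simp [vars, hm], h⟩
    · obtain ⟨m, hm, h⟩ := iB h
      exact ⟨m, by simp [vars, hm], h⟩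
  | imp A B iA iB =>
    intro h
    simp only [subst, vars, Finset.mem_union] at h
    rcases h with h | h
    · obtain ⟨m, hm, h⟩ := iA h
      exact ⟨m, by simp [vars, hm], h⟩
    · obtain ⟨m, hm, h⟩ := iB h
      exact ⟨m, by simp [vars, hm], h⟩

theorem OH_size (z b : ℕ) (g : ℕ → ℕ) {S : ℕ} (hS : 1 ≤ S) (hb : 2 ^ b ≤ S) :
    (OH z b g).size ≤ 15 * S ^ 2 := by
  unfold OH
  simp only [size, conjL_size, disjL_size, List.length_map, List.length_range]
  have h1 : psize ((List.range (2 ^ b)).map fun α => var (g α)) ≤ 2 ^ b * 1 := by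
    have := psize_le (l := (List.range (2 ^ b)).map fun α => var (g α)) (K := 1) (by
      intro X hX
      obtain ⟨i, _, rfl⟩ := List.mem_map.1 hX
      simp [size])
    simpa using this
  have h2 := psize_le (l := (List.range (2 ^ b)).flatMap fun α =>
      ((List.range (2 ^ b)).filter fun β => β ≠ α).map
        fun β => neg (and (var (g α)) (var (g β)))) (K := 4) (by
      intro X hX
      obtain ⟨a, _, hX⟩ := List.mem_flatMap.1 hX
      obtain ⟨i, _, rfl⟩ := List.mem_map.1 hX
      simp [size])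
  have h3 := len_flatMap_le (fun α => ((List.range (2 ^ b)).filter fun β => β ≠ α).map
        fun β => neg (and (var (g α)) (var (g β)))) (2 ^ b) (List.range (2 ^ b)) (by
      intro a _
      rw [List.length_map]
      refine (List.length_filter_le _ _).trans ?_
      rw [List.length_range])
  rw [List.length_range] at h3
  have h4 : 2 ^ b * 2 ^ b ≤ S ^ 2 := by rw [pow_two S]; exact Nat.mul_le_mul hb hb
  have h5 : S ≤ S ^ 2 := Nat.le_self_pow (by norm_num) S
  omega

theorem Wd_size (z b m : ℕ) (g : ℕ → ℕ → ℕ) {S : ℕ} (hS : 1 ≤ S) (hb : 2 ^ b ≤ S)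
    (hm : m ≤ 2 * S) : (Wd z b g m).size ≤ 35 * S ^ 3 := by
  unfold Wd
  simp only [conjL_size, List.length_map, List.length_range]
  have h1 : psize ((List.range m).map fun j => OH z b (g j)) ≤ m * (15 * S ^ 2) := by
    have := psize_le (l := (List.range m).map fun j => OH z b (g j)) (K := 15 * S ^ 2) (by
      intro X hX
      obtain ⟨i, _, rfl⟩ := List.mem_map.1 hX
      exact OH_size z b (g i) hS hb)
    simpa using this
  have h2 : m * (15 * S ^ 2) ≤ 2 * S * (15 * S ^ 2) := Nat.mul_le_mul_right _ hm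
  have h3 : 2 * S * (15 * S ^ 2) = 30 * S ^ 3 := by ring
  have h4 : S ≤ S ^ 3 := Nat.le_self_pow (by norm_num) S
  omega

theorem dec_size (z b : ℕ) (h : ℕ → ℕ) (t : ℕ) {S : ℕ} (hS : 1 ≤ S) (hb : 2 ^ b ≤ S) :
    (dec z b h t).size ≤ 6 * S := by
  unfold dec
  rw [disjL_size]
  have h1 := psize_le (l := ((List.range (2 ^ b)).filter (fun β => β.testBit t)).map
    (fun β => var (h β))) (K := 1) (by
      intro X hX
      obtain ⟨i, _, rfl⟩ := List.mem_map.1 hX
      simp [size])
  have h2 : ((List.range (2 ^ b)).filter (fun β => β.testBit t)).length ≤ 2 ^ b := by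
    refine (List.length_filter_le _ _).trans ?_
    rw [List.length_range]
  simp only [List.length_map] at h1 ⊢
  omega

theorem dec_vars {z b : ℕ} {h : ℕ → ℕ} {t n : ℕ} (hn : n ∈ (dec z b h t).vars) :
    n = z ∨ ∃ β < 2 ^ b, n = h β := by
  unfold dec at hn
  rcases disjL_vars hn with hn | ⟨D, hD, hn⟩
  · exact Or.inl hn
  · obtain ⟨β, hβ, rfl⟩ := List.mem_map.1 hD
    rw [List.mem_filter, List.mem_range] at hβ
    right
    exact ⟨β, hβ.1, by simpa [vars] using hn⟩

/-- a comparison of the `l`-th position with `q` -/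
theorem eqc_size (z ℓ : ℕ) (τ : ℕ → Fm) (q : ℕ) {K : ℕ} (h : ∀ e < ℓ, (τ e).size ≤ K) :
    (eqc z ℓ τ q).size ≤ ℓ * (K + 1) + ℓ + 3 := by
  unfold eqc
  rw [conjL_size]
  have h1 := psize_le (l := (List.range ℓ).map fun i =>
    if q.testBit i = true then τ i else neg (τ i)) (K := K + 1) (by
      intro X hX
      obtain ⟨i, hi, rfl⟩ := List.mem_map.1 hX
      have := h i (List.mem_range.1 hi)
      split_ifs
      · omega
      · simp only [size]; omega)
  simp only [List.length_map, List.length_range] at h1 ⊢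
  omega

theorem disjmap_size (z m : ℕ) (f : ℕ → Fm) {K : ℕ} (h : ∀ l < m, (f l).size ≤ K) :
    (disjL z ((List.range m).map f)).size ≤ m * K + m + 4 := by
  rw [disjL_size]
  have h1 := psize_le (l := (List.range m).map f) (K := K) (by
      intro X hX
      obtain ⟨i, hi, rfl⟩ := List.mem_map.1 hX
      exact h i (List.mem_range.1 hi))
  simp only [List.length_map, List.length_range] at h1 ⊢
  omega

theorem conjmap_size (z m : ℕ) (f : ℕ → Fm) {K : ℕ} (h : ∀ l < m, (f l).size ≤ K) :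
    (conjL z ((List.range m).map f)).size ≤ m * K + m + 3 := by
  rw [conjL_size]
  have h1 := psize_le (l := (List.range m).map f) (K := K) (by
      intro X hX
      obtain ⟨i, hi, rfl⟩ := List.mem_map.1 hX
      exact h i (List.mem_range.1 hi))
  simp only [List.length_map, List.length_range] at h1 ⊢
  omega

/-- the hypothesis -/
def UU (N b n r i : ℕ) (P : List (ℕ × Bool)) : Fm :=
  conjL N (P.map lit ++ [HE N b i (Yr n b r)])

/-- the context -/
structure Ctx (b ℓ n r i S : ℕ) (P : List (ℕ × Bool)) : Prop where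
  hS : 1 ≤ S
  hb : 2 ^ b ≤ S
  hn : n + 1 ≤ S
  hi : i ≤ n
  i1 : 1 ≤ i
  l1 : 1 ≤ ℓ
  hl : 2 * ℓ ≤ b
  hr : r ≤ n
  hP : P.length = n - r

theorem Yr_le {b ℓ n r i S : ℕ} {P : List (ℕ × Bool)} (h : Ctx b ℓ n r i S P) :
    Yr n b r ≤ 2 * S ^ 2 := by
  unfold Yr
  have h1 : n * 2 ^ b ≤ S * S := Nat.mul_le_mul (by have := h.hn; omega) h.hb
  have h2 : (n - r) * 2 ^ b ≤ S * S := Nat.mul_le_mul (by have := h.hn; omega) h.hb
  nlinarith

theorem HE_size {b ℓ n r i S : ℕ} {P : List (ℕ × Bool)} (h : Ctx b ℓ n r i S P) (N : ℕ) :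
    (HE N b i (Yr n b r)).size ≤ 51 * S ^ 3 := by
  unfold HE oneL zeroL
  have h1 := Wd_size N b i (gv N) h.hS h.hb (by have := h.hn; have := h.hi; omega)
  have h2 := conjmap_size N i (fun j => var (uv N j)) (K := 1) (by intro l _; simp [size])
  have h3 := conjmap_size N (Yr n b r) (fun j => neg (var (yv N j))) (K := 2)
    (by intro l _; simp [size])
  have h4 := Yr_le h
  have h5 : S ≤ S ^ 3 := Nat.le_self_pow (by norm_num) S
  have h6 : S ^ 2 ≤ S ^ 3 := Nat.pow_le_pow_right h.hS (by norm_num)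
  have h7 := h.hn
  have h8 := h.hi
  have h9 := h.hS
  simp only [size]
  omega

theorem UU_size {b ℓ n r i S : ℕ} {P : List (ℕ × Bool)} (h : Ctx b ℓ n r i S P) (N : ℕ) :
    (UU N b n r i P).size ≤ 400 * S ^ 4 := by
  unfold UU
  rw [conjL_size, psize_append, psize_cons]
  have h1 := HE_size h N
  have h2 := psize_le (l := P.map lit) (K := 2) (by
    intro X hX
    obtain ⟨x, _, rfl⟩ := List.mem_map.1 hX
    unfold lit
    split_ifs <;> simp [size])
  have h5 : S ≤ S ^ 4 := Nat.le_self_pow (by norm_num) S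
  have h6 : S ^ 3 ≤ S ^ 4 := Nat.pow_le_pow_right h.hS (by norm_num)
  have h7 := h.hn
  have h8 := h.hP
  have h9 := h.hS
  have h0 : psize [] = 0 := rfl
  simp only [List.length_map, List.length_append, List.length_cons, List.length_nil] at h2 ⊢
  omega

/-! ### projections of the hypothesis -/

theorem proj (F : List Rule) (hF : IsFrege F) : ∃ c : ℕ, ∀ (N b ℓ n r i S : ℕ)
    (P : List (ℕ × Bool)), Ctx b ℓ n r i S P → ∀ D : Fm, (D ∈ P.map lit ∨
      (∃ j < i, D = OH N b (gv N j)) ∨ (∃ j < i, D = var (uv N j)) ∨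
      (∃ k < Yr n b r, D = neg (var (yv N k)))) → ∀ Γ : Set Fm,
    Can F Γ [imp (UU N b n r i P) D] (c * S ^ 6) := by
  obtain ⟨cm, hm⟩ := conj_mem hF
  obtain ⟨p1, q1⟩ := schemaL hF [imp (var 0) (and (var 1) (and (var 2) (var 3)))]
    (imp (var 0) (var 1)) (by intro v h; simp [eval] at h ⊢; tauto)
  obtain ⟨p2, q2⟩ := schemaL hF [imp (var 0) (and (var 1) (and (var 2) (var 3)))]
    (imp (var 0) (var 2)) (by intro v h; simp [eval] at h ⊢; tauto)
  obtain ⟨p3, q3⟩ := schemaL hF [imp (var 0) (and (var 1) (and (var 2) (var 3)))]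
    (imp (var 0) (var 3)) (by intro v h; simp [eval] at h ⊢; tauto)
  obtain ⟨ch, qh⟩ := schemaL hF [imp (var 0) (var 1), imp (var 1) (var 2)]
    (imp (var 0) (var 2)) (by intro v h; simp [eval] at h ⊢; tauto)
  refine ⟨400 * (3 * cm + p1 + p2 + p3 + ch), ?_⟩
  intro N b ℓ n r i S P h D hD Γ
  obtain ⟨M, hM⟩ : ∃ M, M = 400 * S ^ 4 := ⟨_, rfl⟩
  have hU : (UU N b n r i P).size ≤ M := by rw [hM]; exact UU_size h N
  have hM1 : 1 ≤ M := (size_pos _).trans hU
  have hHE : (HE N b i (Yr n b r)).size ≤ M := by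
    have := HE_size h N
    have h6 : S ^ 3 ≤ S ^ 4 := Nat.pow_le_pow_right h.hS (by norm_num)
    rw [hM]; omega
  have hS := h.hS
  have s5 : S ^ 5 ≤ S ^ 6 := Nat.pow_le_pow_right h.hS (by norm_num)
  have s4 : S ^ 4 ≤ S ^ 6 := Nat.pow_le_pow_right h.hS (by norm_num)
  have eMS : M * S = 400 * S ^ 5 := by rw [hM]; ring
  have eMS2 : M * (2 * S ^ 2) = 800 * S ^ 6 := by rw [hM]; ring
  have hlen : (P.map lit ++ [HE N b i (Yr n b r)]).length ≤ S := by
    have := h.hP; have := h.hn
    simp only [List.length_append, List.length_map, List.length_cons, List.length_nil]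
    omega
  have hmem : ∀ D ∈ P.map lit ++ [HE N b i (Yr n b r)],
      Can F Γ [imp (UU N b n r i P) D] (cm * (M * S)) := by
    intro D hD
    refine (hm N _ M hM1 hU D hD Γ).mono subset_rfl ?_
    rw [← mul_assoc]
    exact Nat.mul_le_mul_left _ hlen
  rcases hD with hD | hD
  · refine (hmem D (List.mem_append_left _ hD)).mono subset_rfl ?_
    rw [eMS]
    nlinarith [Nat.zero_le (cm * S ^ 6), Nat.zero_le ((p1 + p2 + p3 + ch) * S ^ 6),
      Nat.mul_le_mul_left cm s5]
  · -- the parts of HE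
    have hH := hmem (HE N b i (Yr n b r)) (by simp)
    have hX1 : (Wd N b (gv N) i).size ≤ M := by
      unfold HE at hHE; simp only [size] at hHE; omega
    have hX2 : (conjL N (oneL (uv N) i)).size ≤ M := by
      unfold HE at hHE; simp only [size] at hHE; omega
    have hX3 : (conjL N (zeroL (yv N) (Yr n b r))).size ≤ M := by
      unfold HE at hHE; simp only [size] at hHE; omega
    have hl : ∀ X ∈ [UU N b n r i P, Wd N b (gv N) i, conjL N (oneL (uv N) i),
        conjL N (zeroL (yv N) (Yr n b r))], X.size ≤ M := by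
      intro X hX; simp at hX; rcases hX with rfl | rfl | rfl | rfl
      exacts [hU, hX1, hX2, hX3]
    have hg : ∀ A ∈ [imp (var 0) (and (var 1) (and (var 2) (var 3)))],
        A.subst (asg [UU N b n r i P, Wd N b (gv N) i, conjL N (oneL (uv N) i),
          conjL N (zeroL (yv N) (Yr n b r))]) ∈
        Γ ∪ {B | B ∈ [imp (UU N b n r i P) (HE N b i (Yr n b r))]} := by
      intro A hA; simp only [List.mem_singleton] at hA; subst hA
      right; simp [subst, asg, HE]
    have g1 := (hH.cut (q1 _ M hM1 hl _ hg)).sub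
      (G' := [imp (UU N b n r i P) (Wd N b (gv N) i)]) (by simp [subst, asg])
    have g2 := (hH.cut (q2 _ M hM1 hl _ hg)).sub
      (G' := [imp (UU N b n r i P) (conjL N (oneL (uv N) i))]) (by simp [subst, asg])
    have g3 := (hH.cut (q3 _ M hM1 hl _ hg)).sub
      (G' := [imp (UU N b n r i P) (conjL N (zeroL (yv N) (Yr n b r)))]) (by simp [subst, asg])
    -- members
    have fin : ∀ (Ds : List Fm) (K : ℕ), (conjL N Ds).size ≤ M → Ds.length ≤ 2 * S ^ 2 → D ∈ Ds →
        Can F Γ [imp (UU N b n r i P) (conjL N Ds)] K →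
        Can F Γ [imp (UU N b n r i P) D] (K + (cm * (800 * S ^ 6) + ch * M)) := by
      intro Ds K hDs hlenD hDm hK
      have hDsz : D.size ≤ M := by
        have := size_le_psize hDm
        rw [conjL_size] at hDs; omega
      have g4 := hm N Ds M hM1 hDs D hDm (Γ ∪ {B | B ∈ [imp (UU N b n r i P) (conjL N Ds)]})
      have g5 := qh [UU N b n r i P, conjL N Ds, D] M hM1 (by
        intro X hX; simp at hX; rcases hX with rfl | rfl | rfl
        exacts [hU, hDs, hDsz]) ((Γ ∪ {B | B ∈ [imp (UU N b n r i P) (conjL N Ds)]}) ∪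
          {B | B ∈ [imp (conjL N Ds) D]}) (by
        intro A hA
        simp only [List.mem_cons, List.not_mem_nil, or_false] at hA
        rcases hA with rfl | rfl
        · left; right; simp [subst, asg]
        · right; simp [subst, asg])
      refine ((hK.cut (g4.cut g5)).sub (by simp [subst, asg])).mono subset_rfl ?_
      have e1 : cm * M * Ds.length ≤ cm * (800 * S ^ 6) := by
        rw [mul_assoc, ← eMS2]
        exact Nat.mul_le_mul_left _ (Nat.mul_le_mul_left _ hlenD)
      omega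
    have hsS : S ≤ S ^ 2 := Nat.le_self_pow (by norm_num) S
    have hiS : i ≤ S := by have := h.hi; have := h.hn; omega
    rcases hD with ⟨j, hj, rfl⟩ | ⟨j, hj, rfl⟩ | ⟨k, hk, rfl⟩
    · have := fin ((List.range i).map fun j => OH N b (gv N j)) _ hX1 (by
        simp only [List.length_map, List.length_range]; omega)
        (List.mem_map.2 ⟨j, List.mem_range.2 hj, rfl⟩) g1
      refine this.mono subset_rfl ?_
      rw [eMS, hM]
      nlinarith [Nat.mul_le_mul_left cm s5, Nat.mul_le_mul_left p1 s4, Nat.mul_le_mul_left ch s4,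
        Nat.zero_le ((p2 + p3) * S ^ 6)]
    · have := fin (oneL (uv N) i) _ hX2 (by
        simp only [oneL, List.length_map, List.length_range]; omega)
        (List.mem_map.2 ⟨j, List.mem_range.2 hj, rfl⟩) g2
      refine this.mono subset_rfl ?_
      rw [eMS, hM]
      nlinarith [Nat.mul_le_mul_left cm s5, Nat.mul_le_mul_left p2 s4, Nat.mul_le_mul_left ch s4,
        Nat.zero_le ((p1 + p3) * S ^ 6)]
    · have := fin (zeroL (yv N) (Yr n b r)) _ hX3 (by
        have := Yr_le h
        simp only [zeroL, List.length_map, List.length_range]; omega)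
        (List.mem_map.2 ⟨k, List.mem_range.2 hk, rfl⟩) g3
      refine this.mono subset_rfl ?_
      rw [eMS, hM]
      nlinarith [Nat.mul_le_mul_left cm s5, Nat.mul_le_mul_left p3 s4, Nat.mul_le_mul_left ch s4,
        Nat.zero_le ((p1 + p2) * S ^ 6)]

/-! ### renaming of the blocks `i, …, 2 i - 1` -/

/-- the renaming -/
def rn (N b i x : ℕ) : ℕ :=
  if x = gv N (Nat.unpair ((x - (N + 1)) / 3)).1 (Nat.unpair ((x - (N + 1)) / 3)).2 ∧
      i ≤ (Nat.unpair ((x - (N + 1)) / 3)).1 ∧ (Nat.unpair ((x - (N + 1)) / 3)).1 < 2 * i ∧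
      (Nat.unpair ((x - (N + 1)) / 3)).2 < 2 ^ b then
    (if (Nat.unpair ((x - (N + 1)) / 3)).2 = 0 then uv N ((Nat.unpair ((x - (N + 1)) / 3)).1 - i)
      else yv N (((Nat.unpair ((x - (N + 1)) / 3)).1 - i) * 2 ^ b +
        (Nat.unpair ((x - (N + 1)) / 3)).2))
  else x

theorem rn_gv (N b i j α : ℕ) : rn N b i (gv N j α) =
    if i ≤ j ∧ j < 2 * i ∧ α < 2 ^ b then
      (if α = 0 then uv N (j - i) else yv N ((j - i) * 2 ^ b + α)) else gv N j α := by
  have h1 : (gv N j α - (N + 1)) / 3 = Nat.pair j α := by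
    unfold gv; omega
  unfold rn
  rw [h1, Nat.unpair_pair]
  simp

theorem rn_N (N b i : ℕ) : rn N b i N = N := by
  unfold rn
  rw [if_neg]
  rintro ⟨h, -⟩
  unfold gv at h
  omega

/-- the renamed block variables -/
def gp (N b i j α : ℕ) : ℕ := rn N b i (gv N j α)

theorem gp_lt {N b i j : ℕ} (hj : j < i) : gp N b i j = gv N j := by
  funext α
  unfold gp
  rw [rn_gv, if_neg]
  omega

theorem gp_zero {N b i j : ℕ} (hj : i ≤ j) (hj2 : j < 2 * i) : gp N b i j 0 = uv N (j - i) := by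
  unfold gp
  rw [rn_gv, if_pos ⟨hj, hj2, Nat.pow_pos (by norm_num)⟩, if_pos rfl]

theorem gp_pos {N b i j α : ℕ} (hj : i ≤ j) (hj2 : j < 2 * i) (hα : α < 2 ^ b) (h0 : α ≠ 0) :
    gp N b i j α = yv N ((j - i) * 2 ^ b + α) := by
  unfold gp
  rw [rn_gv, if_pos ⟨hj, hj2, hα⟩, if_neg h0]

theorem gv_inj {N j α j' α' : ℕ} (h : gv N j α = gv N j' α') : j = j' ∧ α = α' := by
  have h1 : Nat.pair j α = Nat.pair j' α' := by unfold gv at h; omega
  exact Nat.pair_eq_pair.1 h1

theorem rn_inj (N b i : ℕ) {x y : ℕ} (hx : x = N ∨ ∃ j < 2 * i, ∃ α < 2 ^ b, x = gv N j α)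
    (hy : y = N ∨ ∃ j < 2 * i, ∃ α < 2 ^ b, y = gv N j α) (h : rn N b i x = rn N b i y) :
    x = y := by
  rcases hx with rfl | ⟨j, hj, α, hα, rfl⟩
  · rcases hy with rfl | ⟨j', hj', α', hα', rfl⟩
    · rfl
    · exfalso
      rw [rn_N, rn_gv] at h
      unfold gv uv yv at h
      split_ifs at h <;> omega
  · rcases hy with rfl | ⟨j', hj', α', hα', rfl⟩
    · exfalso
      rw [rn_N, rn_gv] at h
      unfold gv uv yv at h
      split_ifs at h <;> omega
    · have hlow : ∀ {j α : ℕ}, ¬ i ≤ j → rn N b i (gv N j α) = gv N j α := by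
        intro j α hj
        rw [rn_gv, if_neg (fun h => hj h.1)]
      have hz : ∀ {j α : ℕ}, i ≤ j → j < 2 * i → α < 2 ^ b → α = 0 →
          rn N b i (gv N j α) = uv N (j - i) := by
        intro j α h1 h2 h3 h4
        rw [rn_gv, if_pos ⟨h1, h2, h3⟩, if_pos h4]
      have hp : ∀ {j α : ℕ}, i ≤ j → j < 2 * i → α < 2 ^ b → α ≠ 0 →
          rn N b i (gv N j α) = yv N ((j - i) * 2 ^ b + α) := by
        intro j α h1 h2 h3 h4
        rw [rn_gv, if_pos ⟨h1, h2, h3⟩, if_neg h4]
      by_cases h1 : i ≤ j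
      · by_cases h2 : i ≤ j'
        · by_cases h3 : α = 0
          · by_cases h4 : α' = 0
            · rw [hz h1 hj hα h3, hz h2 hj' hα' h4] at h
              have h5 : j = j' := by unfold uv at h; omega
              rw [h5, h3, h4]
            · rw [hz h1 hj hα h3, hp h2 hj' hα' h4] at h
              unfold uv yv at h
              omega
          · by_cases h4 : α' = 0
            · rw [hp h1 hj hα h3, hz h2 hj' hα' h4] at h
              unfold uv yv at h
              omega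
            · rw [hp h1 hj hα h3, hp h2 hj' hα' h4] at h
              have h5 : (j - i) * 2 ^ b + α = (j' - i) * 2 ^ b + α' := by unfold yv at h; omega
              have h6 : α = α' := by
                have := congrArg (· % 2 ^ b) h5
                simpa [Nat.mul_add_mod_self_right, Nat.mod_eq_of_lt hα, Nat.mod_eq_of_lt hα'] using this
              subst h6
              have h7 : (j - i) * 2 ^ b = (j' - i) * 2 ^ b := by omega
              have h8 : j - i = j' - i := Nat.eq_of_mul_eq_mul_right (Nat.pow_pos (by norm_num)) h7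
              have h9 : j = j' := by omega
              rw [h9]
        · exfalso
          rw [hlow h2] at h
          by_cases h3 : α = 0
          · rw [hz h1 hj hα h3] at h
            unfold uv gv at h; omega
          · rw [hp h1 hj hα h3] at h
            unfold yv gv at h; omega
      · by_cases h2 : i ≤ j'
        · exfalso
          rw [hlow h1] at h
          by_cases h3 : α' = 0
          · rw [hz h2 hj' hα' h3] at h
            unfold uv gv at h; omega
          · rw [hp h2 hj' hα' h3] at h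
            unfold yv gv at h; omega
        · rw [hlow h1, hlow h2] at h
          exact h

theorem conjL_rename (z : ℕ) (f : ℕ → ℕ) (l : List Fm) :
    (conjL z l).rename f = conjL (f z) (l.map fun X => X.rename f) := by
  induction l with
  | nil => rfl
  | cons X l ih =>
    show and (X.rename f) ((conjL z l).rename f) = and (X.rename f) _
    rw [ih]

theorem disjL_rename (z : ℕ) (f : ℕ → ℕ) (l : List Fm) :
    (disjL z l).rename f = disjL (f z) (l.map fun X => X.rename f) := by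
  induction l with
  | nil => rfl
  | cons X l ih =>
    show or (X.rename f) ((disjL z l).rename f) = or (X.rename f) _
    rw [ih]

theorem OH_rename (z b : ℕ) (g : ℕ → ℕ) (f : ℕ → ℕ) :
    (OH z b g).rename f = OH (f z) b (fun α => f (g α)) := by
  unfold OH
  show and (Fm.rename f (disjL _ _)) (Fm.rename f (conjL _ _)) = _
  rw [conjL_rename, disjL_rename, List.map_map, List.map_flatMap]
  congr 2
  apply List.flatMap_congr
  intro α _
  rw [List.map_map]
  rfl

theorem Wd_rename (z b m : ℕ) (g : ℕ → ℕ → ℕ) (f : ℕ → ℕ) :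
    (Wd z b g m).rename f = Wd (f z) b (fun j α => f (g j α)) m := by
  unfold Wd
  rw [conjL_rename, List.map_map]
  congr 1
  apply List.map_congr_left
  intro j _
  exact OH_rename z b (g j) f

theorem OH_vars {z b : ℕ} {g : ℕ → ℕ} {n : ℕ} (h : n ∈ (OH z b g).vars) :
    n = z ∨ ∃ α < 2 ^ b, n = g α := by
  unfold OH at h
  simp only [vars, Finset.mem_union] at h
  rcases h with h | h
  · rcases disjL_vars h with h | ⟨D, hD, h⟩
    · exact Or.inl h
    · obtain ⟨α, hα, rfl⟩ := List.mem_map.1 hD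
      right
      exact ⟨α, List.mem_range.1 hα, by simpa [vars] using h⟩
  · rcases conjL_vars h with h | ⟨D, hD, h⟩
    · exact Or.inl h
    · obtain ⟨α, hα, hD⟩ := List.mem_flatMap.1 hD
      obtain ⟨β, hβ, rfl⟩ := List.mem_map.1 hD
      rw [List.mem_filter] at hβ
      simp only [vars, Finset.mem_union, Finset.mem_singleton] at h
      right
      rcases h with h | h
      · exact ⟨α, List.mem_range.1 hα, h⟩
      · exact ⟨β, List.mem_range.1 hβ.1, h⟩

theorem Wd_vars {z b m : ℕ} {g : ℕ → ℕ → ℕ} {n : ℕ} (h : n ∈ (Wd z b g m).vars) :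
    n = z ∨ ∃ j < m, ∃ α < 2 ^ b, n = g j α := by
  unfold Wd at h
  rcases conjL_vars h with h | ⟨D, hD, h⟩
  · exact Or.inl h
  · obtain ⟨j, hj, rfl⟩ := List.mem_map.1 hD
    rcases OH_vars h with h | ⟨α, hα, h⟩
    · exact Or.inl h
    · right
      exact ⟨j, List.mem_range.1 hj, α, hα, h⟩

/-! ### the renamed world is implied -/

theorem wd (F : List Rule) (hF : IsFrege F) (h3 : S_cintro F) (h5 : S_ohintro F) :
    ∃ c : ℕ, ∀ (N b ℓ n r i S : ℕ) (P : List (ℕ × Bool)), Ctx b ℓ n r i S P → ∀ Γ : Set Fm,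
    Can F Γ [imp (UU N b n r i P) (Wd N b (gp N b i) (2 * i))] (c * S ^ 9) := by
  obtain ⟨cp, hp⟩ := proj F hF
  obtain ⟨cc, hc⟩ := h3
  obtain ⟨co, ho⟩ := h5
  refine ⟨2 * (cp + 160000 * co) + 1200 * cc, ?_⟩
  intro N b ℓ n r i S P h Γ
  obtain ⟨M, hM⟩ : ∃ M, M = 400 * S ^ 4 := ⟨_, rfl⟩
  have hU : (UU N b n r i P).size ≤ M := by rw [hM]; exact UU_size h N
  have hS := h.hS
  have hiS : i ≤ S := by have := h.hi; have := h.hn; omega
  have s68 : S ^ 6 ≤ S ^ 8 := Nat.pow_le_pow_right h.hS (by norm_num)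
  have s78 : S ^ 7 ≤ S ^ 8 := Nat.pow_le_pow_right h.hS (by norm_num)
  have s24 : S ^ 2 ≤ S ^ 4 := Nat.pow_le_pow_right h.hS (by norm_num)
  have s34 : S ^ 3 ≤ S ^ 4 := Nat.pow_le_pow_right h.hS (by norm_num)
  have s59 : S ^ 5 ≤ S ^ 9 := Nat.pow_le_pow_right h.hS (by norm_num)
  have hOH : ∀ j, (OH N b (gp N b i j)).size ≤ M := by
    intro j
    have := OH_size N b (gp N b i j) h.hS h.hb
    rw [hM]; omega
  have hj : ∀ j ∈ List.range (2 * i), Can F Γ [imp (UU N b n r i P) (OH N b (gp N b i j))]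
      ((cp + 160000 * co) * S ^ 8) := by
    intro j hj
    rw [List.mem_range] at hj
    by_cases hji : j < i
    · rw [gp_lt hji]
      refine (hp N b ℓ n r i S P h _ (Or.inr (Or.inl ⟨j, hji, rfl⟩)) Γ).mono subset_rfl ?_
      nlinarith [Nat.mul_le_mul_left cp s68, Nat.zero_le (co * S ^ 8)]
    · have hji' : i ≤ j := by omega
      have hmany := Can.many (F := F) (Γ := Γ) (fun β => imp (UU N b n r i P)
        (if β = 0 then var (uv N (j - i)) else neg (var (yv N ((j - i) * 2 ^ b + β)))))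
        (cp * S ^ 6) (List.range (2 ^ b)) (by
          intro β hβ
          rw [List.mem_range] at hβ
          refine hp N b ℓ n r i S P h _ ?_ Γ
          right; right
          by_cases h0 : β = 0
          · left
            rw [if_pos h0]
            exact ⟨j - i, by omega, rfl⟩
          · right
            rw [if_neg h0]
            refine ⟨(j - i) * 2 ^ b + β, ?_, rfl⟩
            unfold Yr
            have e1 : (j - i + 1) * 2 ^ b ≤ n * 2 ^ b :=
              Nat.mul_le_mul_right _ (by have := h.hi; omega)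
            have e2 : (j - i + 1) * 2 ^ b = (j - i) * 2 ^ b + 2 ^ b := by ring
            omega)
      have hoh := ho N b (gp N b i j) (UU N b n r i P) M 0 hU (hOH j) (Nat.pow_pos (by norm_num))
        (Γ ∪ {B | B ∈ (List.range (2 ^ b)).map fun β => imp (UU N b n r i P)
          (if β = 0 then var (uv N (j - i)) else neg (var (yv N ((j - i) * 2 ^ b + β))))})
        (by
          right
          rw [gp_zero hji' hj]
          exact List.mem_map.2 ⟨0, List.mem_range.2 (Nat.pow_pos (by norm_num)), by simp⟩)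
        (by
          intro β hβ h0
          right
          rw [gp_pos hji' hj hβ h0]
          exact List.mem_map.2 ⟨β, List.mem_range.2 hβ, by simp [h0]⟩)
      refine (hmany.cut hoh).mono subset_rfl ?_
      rw [List.length_range]
      have e3 : 2 ^ b * (cp * S ^ 6) ≤ cp * S ^ 7 := by
        calc 2 ^ b * (cp * S ^ 6) ≤ S * (cp * S ^ 6) := Nat.mul_le_mul_right _ h.hb
          _ = cp * S ^ 7 := by ring
      have e4 : co * M * M = 160000 * co * S ^ 8 := by rw [hM]; ring
      rw [e4]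
      nlinarith [Nat.mul_le_mul_left cp s78]
  have hmany := Can.many (F := F) (Γ := Γ) (fun j => imp (UU N b n r i P)
    (OH N b (gp N b i j))) ((cp + 160000 * co) * S ^ 8) (List.range (2 * i)) hj
  have hWs : (Wd N b (gp N b i) (2 * i)).size ≤ M := by
    have := Wd_size N b (2 * i) (gp N b i) h.hS h.hb (by omega)
    rw [hM]; omega
  have hfin := hc N (UU N b n r i P) ((List.range (2 * i)).map fun j => OH N b (gp N b i j)) M hU
    hWs (Γ ∪ {B | B ∈ (List.range (2 * i)).map fun j => imp (UU N b n r i P)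
      (OH N b (gp N b i j))}) (by
      intro D hD
      obtain ⟨j, hj, rfl⟩ := List.mem_map.1 hD
      right
      exact List.mem_map.2 ⟨j, hj, rfl⟩)
  refine ((hmany.cut hfin).sub (by intro B hB; simpa [Wd] using hB)).mono subset_rfl ?_
  simp only [List.length_map, List.length_range]
  have e5 : 2 * i * ((cp + 160000 * co) * S ^ 8) ≤ 2 * (cp + 160000 * co) * S ^ 9 := by
    calc 2 * i * ((cp + 160000 * co) * S ^ 8) ≤ 2 * S * ((cp + 160000 * co) * S ^ 8) :=
          Nat.mul_le_mul_right _ (by omega)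
      _ = 2 * (cp + 160000 * co) * S ^ 9 := by ring
  have e6 : cc * M * (2 * i + 1) ≤ 1200 * cc * S ^ 5 := by
    calc cc * M * (2 * i + 1) ≤ cc * M * (3 * S) := Nat.mul_le_mul_left _ (by omega)
      _ = 1200 * cc * S ^ 5 := by rw [hM]; ring
  have e7 : 1200 * cc * S ^ 5 ≤ 1200 * cc * S ^ 9 := Nat.mul_le_mul_left _ s59
  have e8 : (2 * (cp + 160000 * co) + 1200 * cc) * S ^ 9 =
      2 * (cp + 160000 * co) * S ^ 9 + 1200 * cc * S ^ 9 := by ring
  rw [e8]
  omega

/-! ### the layout -/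

theorem AiS_vars {ℓ i : ℕ} {A : Fm} {idx : ℕ → ℕ} {S' : Finset ℕ} {n : ℕ} (hi : 1 ≤ i)
    (hl : 1 ≤ ℓ) (h : n ∈ (AiS ℓ A idx i S').vars) : n < 2 * i * ℓ := by
  have hpos : 0 < 2 * i * ℓ := Nat.mul_pos (by omega) (by omega)
  unfold AiS at h
  obtain ⟨m, _, h⟩ := vars_subst h
  split_ifs at h
  · simp [top, vars] at h
    omega
  · rcases disjL_vars h with h | ⟨D, hD, h⟩
    · omega
    · obtain ⟨l, hl', rfl⟩ := List.mem_map.1 hD
      rw [List.mem_range] at hl'
      unfold eqc at h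
      rcases conjL_vars h with h | ⟨E, hE, h⟩
      · omega
      · obtain ⟨e, he, rfl⟩ := List.mem_map.1 hE
        rw [List.mem_range] at he
        have h1 : n = l * ℓ + e := by
          split_ifs at h <;> simpa [vars] using h
        have h2 : (l + 1) * ℓ ≤ 2 * i * ℓ := Nat.mul_le_mul_right _ hl'
        have h3 : (l + 1) * ℓ = l * ℓ + ℓ := by ring
        omega

/-- numbering of `W` -/
noncomputable def kk (W : Finset ℕ) (x : ℕ) : ℕ :=
  if h : x ∈ W then (W.equivFin ⟨x, h⟩ : ℕ) else 0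

/-- the block of `x` -/
noncomputable def lblk (ℓ b i : ℕ) (W : Finset ℕ) (x : ℕ) : ℕ :=
  if x < 2 * i * ℓ then x / ℓ / 2 else i + kk W x / b

/-- the bit of `x` -/
noncomputable def lbit (ℓ b i : ℕ) (W : Finset ℕ) (x : ℕ) : ℕ :=
  if x < 2 * i * ℓ then x / ℓ % 2 * ℓ + x % ℓ else kk W x % b

theorem kk_lt {W : Finset ℕ} {x : ℕ} (h : x ∈ W) : kk W x < W.card := by
  unfold kk
  rw [dif_pos h]
  exact (W.equivFin ⟨x, h⟩).2

theorem kk_inj {W : Finset ℕ} {x y : ℕ} (hx : x ∈ W) (hy : y ∈ W) (h : kk W x = kk W y) :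
    x = y := by
  unfold kk at h
  rw [dif_pos hx, dif_pos hy] at h
  have := W.equivFin.injective (Fin.ext h)
  simpa using this

theorem div_lt' {x ℓ m : ℕ} (h : x < m * ℓ) : x / ℓ < m :=
  Nat.div_lt_of_lt_mul (by rwa [mul_comm] at h)

theorem lay (N b ℓ i : ℕ) (W : Finset ℕ) (l1 : 1 ≤ ℓ) (hl : 2 * ℓ ≤ b) (hW : W.card ≤ i * b) :
    Lay N b (2 * i) (gv N) W (lblk ℓ b i W) (lbit ℓ b i W) := by
  refine ⟨by omega, ?_, ?_, fun j α j' α' h => gv_inj h, ?_⟩
  · intro x hx
    unfold lblk lbit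
    by_cases h : x < 2 * i * ℓ
    · rw [if_pos h, if_pos h]
      have h1 : x / ℓ < 2 * i := div_lt' h
      have h2 : x % ℓ < ℓ := Nat.mod_lt _ l1
      have h3 : x / ℓ % 2 * ℓ ≤ 1 * ℓ := Nat.mul_le_mul_right _ (by omega)
      constructor
      · omega
      · omega
    · rw [if_neg h, if_neg h]
      have h1 := kk_lt hx
      have h2 : kk W x / b < i := div_lt' (by omega)
      exact ⟨by omega, Nat.mod_lt _ (by omega)⟩
  · intro x hx x' hx' h1 h2
    by_cases h : x < 2 * i * ℓ
    · have h3 : x / ℓ < 2 * i := div_lt' h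
      by_cases h' : x' < 2 * i * ℓ
      · simp only [lblk, lbit, if_pos h, if_pos h'] at h1 h2
        have e1 : x % ℓ = x' % ℓ := by
          have := congrArg (· % ℓ) h2
          simpa [Nat.mul_add_mod_self_right, Nat.mod_mod] using this
        have e2 : x / ℓ % 2 = x' / ℓ % 2 := by
          rw [e1] at h2
          exact Nat.eq_of_mul_eq_mul_right l1 (by omega)
        have e3 : x / ℓ = x' / ℓ := by omega
        rw [← Nat.div_add_mod x ℓ, ← Nat.div_add_mod x' ℓ, e1, e3]
      · exfalso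
        simp only [lblk, if_pos h, if_neg h'] at h1
        have h9 : i ≤ i + kk W x' / b := Nat.le_add_right _ _
        have h8 : x / ℓ / 2 < i := by omega
        omega
    · by_cases h' : x' < 2 * i * ℓ
      · exfalso
        have h3 : x' / ℓ < 2 * i := div_lt' h'
        simp only [lblk, if_neg h, if_pos h'] at h1
        have h9 : i ≤ i + kk W x / b := Nat.le_add_right _ _
        have h8 : x' / ℓ / 2 < i := by omega
        omega
      · simp only [lblk, lbit, if_neg h, if_neg h'] at h1 h2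
        apply kk_inj hx hx'
        have e1 : kk W x / b = kk W x' / b := by omega
        rw [← Nat.div_add_mod (kk W x) b, ← Nat.div_add_mod (kk W x') b, h2, e1]
  · intro j α h
    unfold gv at h
    omega

theorem lpos {ℓ b i : ℕ} {W : Finset ℕ} {l e : ℕ} (hl : l < 2 * i) (he : e < ℓ) :
    lblk ℓ b i W (l * ℓ + e) = l / 2 ∧ lbit ℓ b i W (l * ℓ + e) = l % 2 * ℓ + e := by
  have h : l * ℓ + e < 2 * i * ℓ := by
    have h2 : (l + 1) * ℓ ≤ 2 * i * ℓ := Nat.mul_le_mul_right _ hl
    have h3 : (l + 1) * ℓ = l * ℓ + ℓ := by ring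
    omega
  have h1 : (l * ℓ + e) / ℓ = l := by
    rw [mul_comm, Nat.mul_add_div (by omega), Nat.div_eq_of_lt he, add_zero]
  have h2 : (l * ℓ + e) % ℓ = e := by
    rw [Nat.mul_add_mod_self_right, Nat.mod_eq_of_lt he]
  unfold lblk lbit
  rw [if_pos h, if_pos h, h1, h2]
  exact ⟨rfl, rfl⟩

/-! ### the proof in the one-hot world -/

theorem world (F : List Rule) (h1 : S_ren F) (h6 : S_ss F) (h7 : S_wsim F) :
    ∃ c : ℕ, ∀ (N b ℓ n r i S : ℕ) (P : List (ℕ × Bool)), Ctx b ℓ n r i S P →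
    ∀ (A : Fm) (idx : ℕ → ℕ) (S' W₀ : Finset ℕ) (L : List Fm), SubProof F W₀ L →
    AiS ℓ A idx i S' ∈ L → 2 * W₀.card ≤ i * b → psize L ≤ S →
    ∃ W : Finset ℕ, ∀ Γ : Set Fm,
    Can F Γ [imp (Wd N b (gp N b i) (2 * i)) ((AiS ℓ A idx i S').subst
      (dlay N b (gv N) (lblk ℓ b i W) (lbit ℓ b i W)))] (c * S ^ 66) := by
  obtain ⟨cr, hr⟩ := h1
  obtain ⟨cw, hw⟩ := h7
  refine ⟨cw * 7 ^ 22 + 1764 * cr, ?_⟩
  intro N b ℓ n r i S P h A idx S' W₀ L hL hB hW hLS
  obtain ⟨T, hT⟩ : ∃ T, ∀ x ∈ W₀, x < T :=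
    ⟨W₀.sup id + 1, fun x hx => Nat.lt_succ_of_le (Finset.le_sup (f := id) hx)⟩
  obtain ⟨L', hL', hsub, hps⟩ := h6 W₀ (fun x => x + T) L
    (fun x _ y _ hxy => by simpa using hxy) (by
      rw [Finset.disjoint_left]
      intro a ha ha'
      obtain ⟨x, hx, rfl⟩ := Finset.mem_image.1 ha
      have := hT _ ha'
      omega) hL
  obtain ⟨W, hWdef⟩ : ∃ W, W = W₀ ∪ W₀.image (fun x => x + T) := ⟨_, rfl⟩
  rw [← hWdef] at hL'
  have hWc : W.card ≤ i * b := by
    have e1 := Finset.card_union_le W₀ (W₀.image (fun x => x + T))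
    have e2 := Finset.card_image_le (s := W₀) (f := fun x => x + T)
    rw [hWdef]; omega
  refine ⟨W, fun Γ => ?_⟩
  have hlay := lay N b ℓ i W h.l1 h.hl hWc
  obtain ⟨δ, hδ⟩ : ∃ δ, δ = dlay N b (gv N) (lblk ℓ b i W) (lbit ℓ b i W) := ⟨_, rfl⟩
  rw [← hδ]
  obtain ⟨B0, hB0⟩ : ∃ B0, B0 = AiS ℓ A idx i S' := ⟨_, rfl⟩
  rw [← hB0] at hB ⊢
  have g1 := hw N b (2 * i) (gv N) W _ _ hlay L' hL' Γ
  rw [← hδ] at g1
  have g2 : Can F Γ [imp (Wd N b (gv N) (2 * i)) (B0.subst δ)]
      (cw * (psize L' + 2 * i + 2 ^ b) ^ 22) := g1.sub (by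
    intro X hX
    simp only [List.mem_singleton] at hX
    subst hX
    exact List.mem_map.2 ⟨B0, hsub _ hB, rfl⟩)
  have hv1 : ∀ x ∈ (B0.subst δ).vars, x = N ∨ ∃ j < i, ∃ α < 2 ^ b, x = gv N j α := by
    intro x hx
    obtain ⟨m, hm, hx⟩ := vars_subst hx
    rw [hB0] at hm
    have hm' := AiS_vars h.i1 h.l1 hm
    rw [hδ] at hx
    unfold dlay at hx
    rcases dec_vars hx with hx | ⟨β, hβ, hx⟩
    · exact Or.inl hx
    · right
      refine ⟨lblk ℓ b i W m, ?_, β, hβ, hx⟩
      unfold lblk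
      rw [if_pos hm']
      have : m / ℓ < 2 * i := div_lt' hm'
      omega
  have hv2 : ∀ x ∈ (imp (Wd N b (gv N) (2 * i)) (B0.subst δ)).vars,
      x = N ∨ ∃ j < 2 * i, ∃ α < 2 ^ b, x = gv N j α := by
    intro x hx
    simp only [vars, Finset.mem_union] at hx
    rcases hx with hx | hx
    · exact Wd_vars hx
    · rcases hv1 x hx with hx | ⟨j, hj, hx⟩
      · exact Or.inl hx
      · exact Or.inr ⟨j, by omega, hx⟩
  have hsize : (imp (Wd N b (gv N) (2 * i)) (B0.subst δ)).size ≤ 42 * S ^ 3 := by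
    have e1 := Wd_size N b (2 * i) (gv N) h.hS h.hb (by have := h.hi; have := h.hn; omega)
    have e2 : (B0.subst δ).size ≤ B0.size * (6 * S) := by
      apply size_subst_le (M := 6 * S) (by have := h.hS; omega)
      intro m _
      rw [hδ]
      exact dec_size _ _ _ _ h.hS h.hb
    have e3 : B0.size ≤ S := (size_le_psize hB).trans hLS
    have e4 : B0.size * (6 * S) ≤ S * (6 * S) := Nat.mul_le_mul_right _ e3
    have e5 : S * (6 * S) = 6 * S ^ 2 := by ring
    have e6 : S ^ 2 ≤ S ^ 3 := Nat.pow_le_pow_right h.hS (by norm_num)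
    have e7 : 1 ≤ S ^ 3 := Nat.one_le_pow _ _ h.hS
    simp only [size]
    omega
  have g3 := hr (imp (Wd N b (gv N) (2 * i)) (B0.subst δ)) (rn N b i) (42 * S ^ 3) hsize (by
    intro x hx y hy hxy
    exact rn_inj N b i (hv2 x hx) (hv2 y hy) hxy)
    (Γ ∪ {B | B ∈ [imp (Wd N b (gv N) (2 * i)) (B0.subst δ)]}) (by right; simp)
  have g4 : (imp (Wd N b (gv N) (2 * i)) (B0.subst δ)).rename (rn N b i) =
      imp (Wd N b (gp N b i) (2 * i)) (B0.subst δ) := by
    show imp ((Wd N b (gv N) (2 * i)).rename (rn N b i)) ((B0.subst δ).rename (rn N b i)) = _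
    rw [Wd_rename, rn_N, rename_eq_self (A := B0.subst δ) (by
      intro x hx
      rcases hv1 x hx with rfl | ⟨j, hj, α, hα, rfl⟩
      · exact rn_N _ b i
      · rw [rn_gv, if_neg]; omega)]
    rfl
  rw [g4] at g3
  refine (g2.cut g3).mono subset_rfl ?_
  have e1 : psize L' + 2 * i + 2 ^ b ≤ 7 * S ^ 3 := by
    have h1 : psize L ^ 3 ≤ S ^ 3 := Nat.pow_le_pow_left hLS 3
    have h2 : S ≤ S ^ 3 := Nat.le_self_pow (by norm_num) S
    have h3 := h.hi
    have h4 := h.hn
    have h5 := h.hb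
    omega
  have e2 : (psize L' + 2 * i + 2 ^ b) ^ 22 ≤ 7 ^ 22 * S ^ 66 := by
    calc (psize L' + 2 * i + 2 ^ b) ^ 22 ≤ (7 * S ^ 3) ^ 22 := Nat.pow_le_pow_left e1 22
      _ = 7 ^ 22 * S ^ 66 := by rw [mul_pow, ← pow_mul]
  have e3 : cw * (psize L' + 2 * i + 2 ^ b) ^ 22 ≤ cw * (7 ^ 22 * S ^ 66) :=
    Nat.mul_le_mul_left _ e2
  have e4 : cr * (42 * S ^ 3) * (42 * S ^ 3) = 1764 * cr * S ^ 6 := by ring
  have e5 : 1764 * cr * S ^ 6 ≤ 1764 * cr * S ^ 66 :=
    Nat.mul_le_mul_left _ (Nat.pow_le_pow_right h.hS (by norm_num))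
  have e6 : (cw * 7 ^ 22 + 1764 * cr) * S ^ 66 = cw * (7 ^ 22 * S ^ 66) + 1764 * cr * S ^ 66 := by
    rw [add_mul, mul_assoc]
  rw [e6, e4]
  exact Nat.add_le_add e3 e5

/-! ### the positions -/

theorem disjL_subst' (z Z : ℕ) (σ : ℕ → Fm) (h : σ Z = var z) (l : List Fm) :
    (disjL Z l).subst σ = disjL z (l.map fun X => X.subst σ) := by
  induction l with
  | nil =>
    show neg (imp (σ Z) (σ Z)) = _
    rw [h]; rfl
  | cons X l ih =>
    show or (X.subst σ) ((disjL Z l).subst σ) = or (X.subst σ) _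
    rw [ih]

theorem disj_congr (F : List Rule) (hF : IsFrege F) (h2 : S_repl F) : ∃ c : ℕ, ∀ (z k : ℕ)
    (U : Fm) (f g : ℕ → Fm) (M : ℕ), U.size ≤ M → (disjL z ((List.range k).map f)).size ≤ M →
    (disjL z ((List.range k).map g)).size ≤ M → ∀ Γ : Set Fm,
    (∀ l < k, imp U (iff (f l) (g l)) ∈ Γ) →
    Can F Γ [imp U (iff (disjL z ((List.range k).map f)) (disjL z ((List.range k).map g)))]
      (c * M * (k + 1)) := by
  obtain ⟨cr, hr⟩ := h2
  obtain ⟨c1, h1⟩ := schemaL hF [] (imp (var 0) (iff (var 1) (var 1))) (by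
    intro v _; simp [eval, iff])
  refine ⟨4 * cr + c1, ?_⟩
  intro z k U f g M hU hf hg Γ hΓ
  have hM : 1 ≤ M := (size_pos U).trans hU
  have key : ∀ f : ℕ → Fm, (disjL k ((List.range k).map var)).subst
      (fun x => if x = k then var z else f x) = disjL z ((List.range k).map f) := by
    intro f
    rw [disjL_subst' z k _ (by simp), List.map_map]
    congr 1
    apply List.map_congr_left
    intro l hl
    rw [List.mem_range] at hl
    show (if l = k then var z else f l) = f l
    rw [if_neg (by omega)]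
  have g0 : Can F Γ [imp U (iff (var z) (var z))] (c1 * M) :=
    (h1 [U, var z] M hM (by
      intro X hX; simp at hX; rcases hX with rfl | rfl
      exacts [hU, by simpa [size] using hM]) Γ (by simp)).sub (by simp [subst, asg, iff])
  have g1 := hr U (disjL k ((List.range k).map var)) (fun x => if x = k then var z else f x)
    (fun x => if x = k then var z else g x) M hU (by rw [key]; exact hf) (by rw [key]; exact hg)
    (Γ ∪ {B | B ∈ [imp U (iff (var z) (var z))]}) (by
      intro x hx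
      show imp U (iff (if x = k then var z else f x) (if x = k then var z else g x)) ∈ _
      rcases disjL_vars hx with hx | ⟨D, hD, hx⟩
      · right
        rw [if_pos hx, if_pos hx]
        simp
      · obtain ⟨l, hl, rfl⟩ := List.mem_map.1 hD
        rw [List.mem_range] at hl
        have hxl : x = l := by simpa [vars] using hx
        left
        rw [hxl, if_neg (by omega), if_neg (by omega)]
        exact hΓ l hl)
  rw [key, key] at g1
  refine (g0.cut g1).mono subset_rfl ?_
  have e1 : (disjL k ((List.range k).map var)).size ≤ 4 * (k + 1) := by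
    have := disjmap_size k k var (K := 1) (by intro l _; simp [size])
    omega
  have e2 : cr * M * (disjL k ((List.range k).map var)).size ≤ cr * M * (4 * (k + 1)) :=
    Nat.mul_le_mul_left _ e1
  have e3 : cr * M * (4 * (k + 1)) = 4 * cr * M * (k + 1) := by ring
  have e4 : c1 * M ≤ c1 * M * (k + 1) := Nat.le_mul_of_pos_right _ (by omega)
  have e5 : (4 * cr + c1) * M * (k + 1) = 4 * cr * M * (k + 1) + c1 * M * (k + 1) := by ring
  omega

theorem ℓ_le {b ℓ n r i S : ℕ} {P : List (ℕ × Bool)} (h : Ctx b ℓ n r i S P) : ℓ + 1 ≤ S := by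
  have h1 : b < 2 ^ b := Nat.lt_two_pow_self
  have h2 := h.hb
  have h3 := h.hl
  have h4 := h.l1
  omega

theorem DD_size {b ℓ n r i S : ℕ} {P : List (ℕ × Bool)} (h : Ctx b ℓ n r i S P) (N q : ℕ) :
    (DD N b ℓ i q).size ≤ 26 * S ^ 3 := by
  have hl := ℓ_le h
  have hi : i + 1 ≤ S := by have := h.hi; have := h.hn; omega
  have e0 : ∀ l < 2 * i, (eqc N ℓ (fun e => dec N b (gv N (l / 2)) (l % 2 * ℓ + e)) q).size ≤
      10 * S ^ 2 := by
    intro l _
    have := eqc_size N ℓ (fun e => dec N b (gv N (l / 2)) (l % 2 * ℓ + e)) q (K := 6 * S) (by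
      intro e _
      exact dec_size _ _ _ _ h.hS h.hb)
    have e1 : ℓ * (6 * S + 1) + ℓ + 3 ≤ 10 * S ^ 2 := by nlinarith
    omega
  have := disjmap_size N (2 * i) (fun l => eqc N ℓ (fun e =>
    dec N b (gv N (l / 2)) (l % 2 * ℓ + e)) q) e0
  unfold DD
  have e2 : 2 * i * (10 * S ^ 2) ≤ 2 * S * (10 * S ^ 2) := Nat.mul_le_mul_right _ (by omega)
  have e3 : 2 * S * (10 * S ^ 2) = 20 * S ^ 3 := by ring
  have e4 : S ≤ S ^ 3 := Nat.le_self_pow (by norm_num) S
  have := h.hS
  omega

theorem equ (F : List Rule) (hF : IsFrege F) (h2 : S_repl F) (h4 : S_cdsub F) :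
    ∃ c : ℕ, ∀ (N b ℓ n r i S : ℕ) (P : List (ℕ × Bool)), Ctx b ℓ n r i S P →
    ∀ (W : Finset ℕ) (q : ℕ) (Γ : Set Fm),
    Can F Γ [imp (UU N b n r i P) (iff ((disjL 0 ((List.range (2 * i)).map fun l =>
      eqc 0 ℓ (fun e => var (l * ℓ + e)) q)).subst
        (dlay N b (gv N) (lblk ℓ b i W) (lbit ℓ b i W))) (DD N b ℓ i q))] (c * S ^ 6) := by
  obtain ⟨cc, hc⟩ := h4
  obtain ⟨cd, hd⟩ := disj_congr F hF h2
  obtain ⟨c1, h1⟩ := schemaL hF [imp (var 0) (iff (var 1) (var 2)),
    imp (var 0) (iff (var 2) (var 3))] (imp (var 0) (iff (var 1) (var 3))) (by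
    intro v h; simp [eval, iff] at h ⊢; tauto)
  refine ⟨800 * cc + 800 * cd + 800 * cc + 400 * c1, ?_⟩
  intro N b ℓ n r i S P h W q Γ
  obtain ⟨M, hM⟩ : ∃ M, M = 400 * S ^ 4 := ⟨_, rfl⟩
  have hU : (UU N b n r i P).size ≤ M := by rw [hM]; exact UU_size h N
  obtain ⟨δ, hδ⟩ : ∃ δ, δ = dlay N b (gv N) (lblk ℓ b i W) (lbit ℓ b i W) := ⟨_, rfl⟩
  rw [← hδ]
  have hδs : ∀ x, (δ x).size ≤ 6 * S := by
    intro x; rw [hδ]; exact dec_size _ _ _ _ h.hS h.hb
  have hl := ℓ_le h
  have hi : i + 1 ≤ S := by have := h.hi; have := h.hn; omega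
  have hS := h.hS
  obtain ⟨f0, hf0⟩ : ∃ f0 : ℕ → Fm, f0 = fun l => eqc 0 ℓ (fun e => var (l * ℓ + e)) q :=
    ⟨_, rfl⟩
  obtain ⟨g0, hg0⟩ : ∃ g0 : ℕ → Fm, g0 = fun l => eqc N ℓ (fun e =>
    dec N b (gv N (l / 2)) (l % 2 * ℓ + e)) q := ⟨_, rfl⟩
  have hDD : DD N b ℓ i q = disjL N ((List.range (2 * i)).map g0) := by rw [hg0]; rfl
  rw [hDD]
  have hf0' : (fun l => eqc 0 ℓ (fun e => var (l * ℓ + e)) q) = f0 := hf0.symm
  rw [hf0']
  -- sizes
  have s1 : ∀ l, (f0 l).size ≤ 3 * S := by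
    intro l
    rw [hf0]
    have := eqc_size 0 ℓ (fun e => var (l * ℓ + e)) q (K := 1) (by intro e _; simp [size])
    simp only
    omega
  have s2 : ∀ l, ((f0 l).subst δ).size ≤ 18 * S ^ 2 := by
    intro l
    have e1 := size_subst_le (σ := δ) (M := 6 * S) (by omega) (A := f0 l) fun x _ => hδs x
    have e2 : (f0 l).size * (6 * S) ≤ 3 * S * (6 * S) := Nat.mul_le_mul_right _ (s1 l)
    have e3 : 3 * S * (6 * S) = 18 * S ^ 2 := by ring
    omega
  have s3 : ∀ l < 2 * i, (g0 l).size ≤ 10 * S ^ 2 := by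
    intro l _
    rw [hg0]
    have := eqc_size N ℓ (fun e => dec N b (gv N (l / 2)) (l % 2 * ℓ + e)) q (K := 6 * S) (by
      intro e _
      exact dec_size _ _ _ _ h.hS h.hb)
    have e1 : ℓ * (6 * S + 1) + ℓ + 3 ≤ 10 * S ^ 2 := by nlinarith
    simp only
    omega
  have p12 : S ≤ S ^ 2 := Nat.le_self_pow (by norm_num) S
  have p23 : S ^ 2 ≤ S ^ 3 := Nat.pow_le_pow_right h.hS (by norm_num)
  have p34 : S ^ 3 ≤ S ^ 4 := Nat.pow_le_pow_right h.hS (by norm_num)
  have s4 : (disjL N ((List.range (2 * i)).map fun l => (f0 l).subst δ)).size ≤ 42 * S ^ 3 := by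
    have := disjmap_size N (2 * i) (fun l => (f0 l).subst δ) (K := 18 * S ^ 2) fun l _ => s2 l
    have e2 : 2 * i * (18 * S ^ 2) ≤ 2 * S * (18 * S ^ 2) := Nat.mul_le_mul_right _ (by omega)
    have e3 : 2 * S * (18 * S ^ 2) = 36 * S ^ 3 := by ring
    omega
  have s5 : (disjL N ((List.range (2 * i)).map g0)).size ≤ 26 * S ^ 3 := by
    have := DD_size h N q
    rwa [hDD] at this
  have s6 : ((disjL 0 ((List.range (2 * i)).map f0)).subst δ).size ≤ 72 * S ^ 3 := by
    have e0 : (disjL 0 ((List.range (2 * i)).map f0)).size ≤ 12 * S ^ 2 := by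
      have := disjmap_size 0 (2 * i) f0 (K := 3 * S) fun l _ => s1 l
      have e2 : 2 * i * (3 * S) ≤ 2 * S * (3 * S) := Nat.mul_le_mul_right _ (by omega)
      have e3 : 2 * S * (3 * S) = 6 * S ^ 2 := by ring
      omega
    have e1 := size_subst_le (σ := δ) (M := 6 * S) (by omega)
      (A := disjL 0 ((List.range (2 * i)).map f0)) fun x _ => hδs x
    have e2 : (disjL 0 ((List.range (2 * i)).map f0)).size * (6 * S) ≤ 12 * S ^ 2 * (6 * S) :=
      Nat.mul_le_mul_right _ e0
    have e3 : 12 * S ^ 2 * (6 * S) = 72 * S ^ 3 := by ring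
    omega
  -- the conjunctions
  have hconj : ∀ l ∈ List.range (2 * i), Can F Γ [imp (UU N b n r i P)
      (iff ((f0 l).subst δ) (g0 l))] (400 * cc * S ^ 5) := by
    intro l hl2
    rw [List.mem_range] at hl2
    have hmap : ((List.range ℓ).map fun e => if q.testBit e = true then var (l * ℓ + e) else
        neg (var (l * ℓ + e))).map (fun X => X.subst δ) = (List.range ℓ).map fun e =>
        if q.testBit e = true then dec N b (gv N (l / 2)) (l % 2 * ℓ + e) else
        neg (dec N b (gv N (l / 2)) (l % 2 * ℓ + e)) := by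
      rw [List.map_map]
      apply List.map_congr_left
      intro e he
      rw [List.mem_range] at he
      have e1 : δ (l * ℓ + e) = dec N b (gv N (l / 2)) (l % 2 * ℓ + e) := by
        rw [hδ]; unfold dlay
        rw [(lpos hl2 he).1, (lpos hl2 he).2]
      show (if q.testBit e = true then var (l * ℓ + e) else neg (var (l * ℓ + e))).subst δ = _
      split_ifs
      · exact e1
      · show neg (δ (l * ℓ + e)) = _
        rw [e1]
    have e0 := s2 l
    rw [hf0] at e0
    simp only [eqc] at e0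
    have hls : (disjL N (((List.range ℓ).map fun e => if q.testBit e = true then
        var (l * ℓ + e) else neg (var (l * ℓ + e))).map fun X => X.subst δ)).size ≤
        11 * S ^ 2 := by
      rw [hmap]
      have := s3 l hl2
      rw [hg0] at this
      simp only [eqc, conjL_size] at this
      rw [disjL_size]
      omega
    have g1 := (hc N 0 δ ((List.range ℓ).map fun e => if q.testBit e = true then
      var (l * ℓ + e) else neg (var (l * ℓ + e))) (UU N b n r i P) M hU (by
        have := hδs 0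
        rw [hM]
        omega) Γ)
    rw [hmap] at g1
    refine (g1.sub (G' := [imp (UU N b n r i P) (iff ((f0 l).subst δ) (g0 l))]) (by
      intro X hX
      simp only [List.mem_singleton] at hX
      subst hX
      rw [hf0, hg0]
      simp only [eqc]
      exact List.mem_cons_self)).mono subset_rfl ?_
    simp only [List.length_map, List.length_range]
    calc cc * M * (ℓ + 1) ≤ cc * M * S := Nat.mul_le_mul_left _ hl
      _ = 400 * cc * S ^ 5 := by rw [hM]; ring
  have g1 := Can.many (F := F) (Γ := Γ) (fun l => imp (UU N b n r i P)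
    (iff ((f0 l).subst δ) (g0 l))) (400 * cc * S ^ 5) (List.range (2 * i)) hconj
  have g2 := hd N (2 * i) (UU N b n r i P) (fun l => (f0 l).subst δ) g0 M hU
    (by rw [hM]; omega) (by rw [hM]; omega)
    (Γ ∪ {B | B ∈ (List.range (2 * i)).map fun l => imp (UU N b n r i P)
      (iff ((f0 l).subst δ) (g0 l))}) (by
      intro l hl
      right
      exact List.mem_map.2 ⟨l, List.mem_range.2 hl, rfl⟩)
  have g3 := hc N 0 δ ((List.range (2 * i)).map f0) (UU N b n r i P) M hU (by
    have e1 := hδs 0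
    rw [List.map_map]
    have hcs : ((conjL 0 ((List.range (2 * i)).map f0)).subst δ).size ≤ 72 * S ^ 3 := by
      have e0 : (conjL 0 ((List.range (2 * i)).map f0)).size ≤ 12 * S ^ 2 := by
        have := conjmap_size 0 (2 * i) f0 (K := 3 * S) fun l _ => s1 l
        have e2 : 2 * i * (3 * S) ≤ 2 * S * (3 * S) := Nat.mul_le_mul_right _ (by omega)
        have e3 : 2 * S * (3 * S) = 6 * S ^ 2 := by ring
        omega
      have e1 := size_subst_le (σ := δ) (M := 6 * S) (by omega)
        (A := conjL 0 ((List.range (2 * i)).map f0)) fun x _ => hδs x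
      have e2 : (conjL 0 ((List.range (2 * i)).map f0)).size * (6 * S) ≤
        12 * S ^ 2 * (6 * S) := Nat.mul_le_mul_right _ e0
      have e3 : 12 * S ^ 2 * (6 * S) = 72 * S ^ 3 := by ring
      omega
    have s4' : (disjL N (List.map ((fun X => X.subst δ) ∘ f0) (List.range (2 * i)))).size ≤
      42 * S ^ 3 := s4
    rw [hM]
    omega) Γ
  rw [List.map_map] at g3
  have g3' : Can F Γ [imp (UU N b n r i P) (iff ((disjL 0 ((List.range (2 * i)).map f0)).subst δ)
      (disjL N ((List.range (2 * i)).map fun l => (f0 l).subst δ)))] (cc * M * (2 * i + 1)) := by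
    refine (g3.sub (by
      intro X hX
      simp only [List.mem_singleton] at hX
      subst hX
      exact List.mem_cons_of_mem _ List.mem_cons_self)).mono subset_rfl ?_
    simp
  have hM1 : 1 ≤ M := (size_pos _).trans hU
  have g4 := h1 [UU N b n r i P, (disjL 0 ((List.range (2 * i)).map f0)).subst δ,
    disjL N ((List.range (2 * i)).map fun l => (f0 l).subst δ),
    disjL N ((List.range (2 * i)).map g0)] M hM1 (by
      intro X hX; simp only [List.mem_cons, List.not_mem_nil, or_false] at hX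
      rcases hX with rfl | rfl | rfl | rfl
      · exact hU
      · rw [hM]; omega
      · rw [hM]; omega
      · rw [hM]; omega)
    (Γ ∪ {B | B ∈ [imp (UU N b n r i P) (iff ((disjL 0 ((List.range (2 * i)).map f0)).subst δ)
      (disjL N ((List.range (2 * i)).map fun l => (f0 l).subst δ)))] ++
      [imp (UU N b n r i P) (iff (disjL N ((List.range (2 * i)).map fun l => (f0 l).subst δ))
        (disjL N ((List.range (2 * i)).map g0)))]}) (by
      intro X hX
      simp only [List.mem_cons, List.not_mem_nil, or_false] at hX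
      rcases hX with rfl | rfl <;> right <;> simp [subst, asg, iff])
  refine (((g3'.append (g1.cut g2)).cut g4).sub (by simp [subst, asg, iff])).mono subset_rfl ?_
  rw [List.length_range]
  have p56 : S ^ 5 ≤ S ^ 6 := Nat.pow_le_pow_right h.hS (by norm_num)
  have p46 : S ^ 4 ≤ S ^ 6 := Nat.pow_le_pow_right h.hS (by norm_num)
  have a1 : cc * M * (2 * i + 1) ≤ 800 * cc * S ^ 6 := by
    calc cc * M * (2 * i + 1) ≤ cc * M * (2 * S) := Nat.mul_le_mul_left _ (by omega)
      _ = 800 * cc * S ^ 5 := by rw [hM]; ring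
      _ ≤ 800 * cc * S ^ 6 := Nat.mul_le_mul_left _ p56
  have a2 : 2 * i * (400 * cc * S ^ 5) ≤ 800 * cc * S ^ 6 := by
    calc 2 * i * (400 * cc * S ^ 5) ≤ 2 * S * (400 * cc * S ^ 5) :=
          Nat.mul_le_mul_right _ (by omega)
      _ = 800 * cc * S ^ 6 := by ring
  have a3 : cd * M * (2 * i + 1) ≤ 800 * cd * S ^ 6 := by
    calc cd * M * (2 * i + 1) ≤ cd * M * (2 * S) := Nat.mul_le_mul_left _ (by omega)
      _ = 800 * cd * S ^ 5 := by rw [hM]; ring
      _ ≤ 800 * cd * S ^ 6 := Nat.mul_le_mul_left _ p56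
  have a4 : c1 * M ≤ 400 * c1 * S ^ 6 := by
    calc c1 * M = 400 * c1 * S ^ 4 := by rw [hM]; ring
      _ ≤ 400 * c1 * S ^ 6 := Nat.mul_le_mul_left _ p46
  have a5 : (800 * cc + 800 * cd + 800 * cc + 400 * c1) * S ^ 6 =
      800 * cc * S ^ 6 + 800 * cd * S ^ 6 + 800 * cc * S ^ 6 + 400 * c1 * S ^ 6 := by ring
  rw [a5]
  omega

/-! ### the end of the proof -/

theorem mem_P {n r : ℕ} {vv : ℕ → ℕ} {P : List (ℕ × Bool)}
    (hP : (P.map Prod.fst).reverse = (List.range' r (n - r)).map vv) {q : ℕ} (h1 : r ≤ q)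
    (h2 : q < n) : ∃ b, (vv q, b) ∈ P := by
  have h3 : vv q ∈ (P.map Prod.fst).reverse := by
    rw [hP]
    exact List.mem_map.2 ⟨q, by rw [List.mem_range'_1]; omega, rfl⟩
  rw [List.mem_reverse, List.mem_map] at h3
  obtain ⟨⟨x, y⟩, h4, h5⟩ := h3
  simp only at h5
  subst h5
  exact ⟨y, h4⟩

theorem of_mem_P {n r : ℕ} {vv : ℕ → ℕ} {P : List (ℕ × Bool)}
    (hP : (P.map Prod.fst).reverse = (List.range' r (n - r)).map vv) {m : ℕ} {t : Bool}
    (h : (m, t) ∈ P) : ∃ q, r ≤ q ∧ q < n ∧ vv q = m := by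
  have h3 : m ∈ (P.map Prod.fst).reverse := by
    rw [List.mem_reverse, List.mem_map]
    exact ⟨(m, t), h, rfl⟩
  rw [hP] at h3
  obtain ⟨q, hq, hm⟩ := List.mem_map.1 h3
  rw [List.mem_range'_1] at hq
  exact ⟨q, hq.1, by omega, hm⟩

theorem t_basel (F : List Rule) (hF : IsFrege F) (h1 : S_ren F) (h2 : S_repl F)
    (h3 : S_cintro F) (h4 : S_cdsub F) (h5 : S_ohintro F) (h6 : S_ss F) (h7 : S_wsim F) :
    S_basel F := by
  obtain ⟨cp, hp⟩ := proj F hF
  obtain ⟨cw, hw⟩ := wd F hF h3 h5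
  obtain ⟨co, ho⟩ := world F h1 h6 h7
  obtain ⟨ce, he⟩ := equ F hF h2 h4
  obtain ⟨cr, hr⟩ := h2
  obtain ⟨c1, q1⟩ := schemaL hF [imp (var 0) (var 1)]
    (imp (var 0) (iff (imp (var 2) (var 2)) (or (var 1) (var 3)))) (by
    intro v h; simp [eval, iff] at h ⊢; tauto)
  obtain ⟨c2, q2⟩ := schemaL hF [imp (var 0) (iff (var 2) (var 3)), imp (var 0) (neg (var 1))]
    (imp (var 0) (iff (var 2) (or (var 1) (var 3)))) (by
    intro v h; simp [eval, iff] at h ⊢; tauto)
  obtain ⟨c3, q3⟩ := schemaL hF [imp (var 0) (var 1), imp (var 1) (var 2),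
    imp (var 0) (iff (var 2) (var 3))] (imp (var 0) (var 3)) (by
    intro v h; simp [eval, iff] at h ⊢; tauto)
  obtain ⟨K, hK⟩ : ∃ K, K = cw + co + (cp + ce + 400 * c1 + 400 * c2) + 400 * cr + 400 * c3 :=
    ⟨_, rfl⟩
  refine ⟨K + 66, ?_⟩
  intro N b ℓ n r i A idx vv W₀ L P hE hN hnl l1 hl i1 hi hrn hL hB hW hP Γ
  obtain ⟨S, hS⟩ : ∃ S, S = psize L + A.size + n + 2 ^ b := ⟨_, rfl⟩
  rw [← hS]
  have hA1 := size_pos A
  have hb1 : 1 ≤ 2 ^ b := Nat.one_le_two_pow
  have hPl : P.length = n - r := by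
    have := congrArg List.length hP
    simpa using this
  have hctx : Ctx b ℓ n r i S P := ⟨by omega, by omega, by omega, hi, i1, l1, hl, hrn, hPl⟩
  have hS1 := hctx.hS
  obtain ⟨S', hS'⟩ : ∃ S', S' = A.vars.filter fun m => (m, true) ∈ P := ⟨_, rfl⟩
  rw [← hS'] at hB
  obtain ⟨M, hM⟩ : ∃ M, M = 400 * S ^ 4 := ⟨_, rfl⟩
  have hU : (UU N b n r i P).size ≤ M := by rw [hM]; exact UU_size hctx N
  have hM1 : 1 ≤ M := (size_pos _).trans hU
  obtain ⟨W, hworld⟩ := ho N b ℓ n r i S P hctx A idx S' W₀ L hL hB hW (by omega)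
  have g1 := hw N b ℓ n r i S P hctx Γ
  have g2 := hworld Γ
  obtain ⟨δ, hδ⟩ : ∃ δ, δ = dlay N b (gv N) (lblk ℓ b i W) (lbit ℓ b i W) := ⟨_, rfl⟩
  rw [← hδ] at g2
  have hequ : ∀ q (Γ : Set Fm), Can F Γ [imp (UU N b n r i P) (iff ((disjL 0
      ((List.range (2 * i)).map fun l => eqc 0 ℓ (fun e => var (l * ℓ + e)) q)).subst δ)
        (DD N b ℓ i q))] (ce * S ^ 6) := by
    intro q Γ
    rw [hδ]
    exact he N b ℓ n r i S P hctx W q Γ
  have hδs : ∀ x, (δ x).size ≤ 6 * S := by
    intro x; rw [hδ]; exact dec_size _ _ _ _ hctx.hS hctx.hb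
  have p14 : S ≤ S ^ 4 := Nat.le_self_pow (by norm_num) S
  have p34 : S ^ 3 ≤ S ^ 4 := Nat.pow_le_pow_right hctx.hS (by norm_num)
  have p24 : S ^ 2 ≤ S ^ 4 := Nat.pow_le_pow_right hctx.hS (by norm_num)
  have hDDs : ∀ q, (DD N b ℓ i q).size ≤ 26 * S ^ 3 := DD_size hctx N
  -- the two substitutions
  obtain ⟨σ0, hσ0⟩ : ∃ σ0 : ℕ → Fm, σ0 = fun m => if m ∈ S' then top 0 else
    disjL 0 ((List.range (2 * i)).map fun l => eqc 0 ℓ (fun e => var (l * ℓ + e)) (idx m)) :=
    ⟨_, rfl⟩
  obtain ⟨σ1, hσ1⟩ : ∃ σ1 : ℕ → Fm, σ1 = fun m => if idx m < r then DD N b ℓ i (idx m) else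
    or (var m) (DD N b ℓ i (idx m)) := ⟨_, rfl⟩
  have hAiS : AiS ℓ A idx i S' = A.subst σ0 := by rw [hσ0]; rfl
  have hTR : TR N b ℓ A idx r i = A.subst σ1 := by rw [hσ1]; rfl
  have hss : (A.subst σ0).subst δ = A.subst (fun m => (σ0 m).subst δ) := subst_subst _ _ _
  rw [hAiS, hss] at g2
  -- sizes
  have s0 : ∀ m, (σ0 m).size ≤ 12 * S ^ 2 := by
    intro m
    rw [hσ0]
    simp only
    have hl' := ℓ_le hctx
    have hi' : i + 1 ≤ S := by have := hctx.hi; have := hctx.hn; omega
    split_ifs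
    · simp only [top, size]
      nlinarith
    · have e1 : ∀ l < 2 * i, (eqc 0 ℓ (fun e => var (l * ℓ + e)) (idx m)).size ≤ 3 * S := by
        intro l _
        have := eqc_size 0 ℓ (fun e => var (l * ℓ + e)) (idx m) (K := 1) (by
          intro e _; simp [size])
        omega
      have := disjmap_size 0 (2 * i) (fun l => eqc 0 ℓ (fun e => var (l * ℓ + e)) (idx m)) e1
      have e2 : 2 * i * (3 * S) ≤ 2 * S * (3 * S) := Nat.mul_le_mul_right _ (by omega)
      have e3 : 2 * S * (3 * S) = 6 * S ^ 2 := by ring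
      have e4 : S ≤ S ^ 2 := Nat.le_self_pow (by norm_num) S
      omega
  have s1 : ∀ m, ((σ0 m).subst δ).size ≤ 72 * S ^ 3 := by
    intro m
    have e1 := size_subst_le (σ := δ) (M := 6 * S) (by omega) (A := σ0 m) fun x _ => hδs x
    have e2 : (σ0 m).size * (6 * S) ≤ 12 * S ^ 2 * (6 * S) := Nat.mul_le_mul_right _ (s0 m)
    have e3 : 12 * S ^ 2 * (6 * S) = 72 * S ^ 3 := by ring
    omega
  have s2 : ∀ m, (σ1 m).size ≤ 28 * S ^ 3 := by
    intro m
    rw [hσ1]
    simp only
    have e1 := hDDs (idx m)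
    have e2 : 1 ≤ S ^ 3 := Nat.one_le_pow _ _ hctx.hS
    split_ifs
    · omega
    · simp only [size]; omega
  have hAS : A.size ≤ S := by omega
  have s3 : (A.subst fun m => (σ0 m).subst δ).size ≤ M := by
    have e1 := size_subst_le (σ := fun m => (σ0 m).subst δ) (M := 72 * S ^ 3)
      (by have := Nat.one_le_pow 3 _ hctx.hS; omega) (A := A) fun x _ => s1 x
    have e2 : A.size * (72 * S ^ 3) ≤ S * (72 * S ^ 3) := Nat.mul_le_mul_right _ hAS
    have e3 : S * (72 * S ^ 3) = 72 * S ^ 4 := by ring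
    rw [hM]; omega
  have s4 : (A.subst σ1).size ≤ M := by
    have e1 := size_subst_le (σ := σ1) (M := 28 * S ^ 3)
      (by have := Nat.one_le_pow 3 _ hctx.hS; omega) (A := A) fun x _ => s2 x
    have e2 : A.size * (28 * S ^ 3) ≤ S * (28 * S ^ 3) := Nat.mul_le_mul_right _ hAS
    have e3 : S * (28 * S ^ 3) = 28 * S ^ 4 := by ring
    rw [hM]; omega
  -- the variables
  have hv : ∀ m ∈ A.vars.toList, Can F Γ [imp (UU N b n r i P) (iff ((σ0 m).subst δ) (σ1 m))]
      ((cp + ce + 400 * c1 + 400 * c2) * S ^ 6) := by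
    intro m hm
    rw [Finset.mem_toList] at hm
    obtain ⟨hq1, hq2⟩ := hE.h1 m hm
    have p46 : S ^ 4 ≤ S ^ 6 := Nat.pow_le_pow_right hctx.hS (by norm_num)
    have hc1 : c1 * M ≤ 400 * c1 * S ^ 6 := by
      calc c1 * M = 400 * c1 * S ^ 4 := by rw [hM]; ring
        _ ≤ 400 * c1 * S ^ 6 := Nat.mul_le_mul_left _ p46
    have hc2 : c2 * M ≤ 400 * c2 * S ^ 6 := by
      calc c2 * M = 400 * c2 * S ^ 4 := by rw [hM]; ring
        _ ≤ 400 * c2 * S ^ 6 := Nat.mul_le_mul_left _ p46
    have hsum : (cp + ce + 400 * c1 + 400 * c2) * S ^ 6 =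
        cp * S ^ 6 + ce * S ^ 6 + 400 * c1 * S ^ 6 + 400 * c2 * S ^ 6 := by ring
    have hvs : (var m).size ≤ M := by simpa [size] using hM1
    have hDM : (DD N b ℓ i (idx m)).size ≤ M := by
      have := hDDs (idx m)
      rw [hM]; omega
    by_cases hT : m ∈ S'
    · -- true
      have hT' : (m, true) ∈ P := by
        rw [hS', Finset.mem_filter] at hT
        exact hT.2
      obtain ⟨q, hqr, hqn, hqm⟩ := of_mem_P hP hT'
      have hidx : idx m = q := by rw [← hqm]; exact (hE.h2 q hqn).2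
      have e0 : (σ0 m).subst δ = imp (δ 0) (δ 0) := by
        rw [hσ0]; simp only [if_pos hT]; rfl
      have e1 : σ1 m = or (var m) (DD N b ℓ i (idx m)) := by
        rw [hσ1]; simp only; rw [if_neg (by omega)]
      rw [e0, e1]
      have k1 := hp N b ℓ n r i S P hctx (var m) (Or.inl (List.mem_map.2 ⟨_, hT', by simp [lit]⟩)) Γ
      have k2 := q1 [UU N b n r i P, var m, δ 0, DD N b ℓ i (idx m)] M hM1 (by
        intro X hX; simp only [List.mem_cons, List.not_mem_nil, or_false] at hX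
        rcases hX with rfl | rfl | rfl | rfl
        · exact hU
        · exact hvs
        · have := hδs 0; rw [hM]; omega
        · exact hDM) (Γ ∪ {B | B ∈ [imp (UU N b n r i P) (var m)]}) (by
        intro X hX; simp only [List.mem_singleton] at hX; subst hX
        right; simp [subst, asg])
      refine ((k1.cut k2).sub (by simp [subst, asg, iff])).mono subset_rfl ?_
      rw [hsum]; omega
    · have e0 : (σ0 m).subst δ = (disjL 0 ((List.range (2 * i)).map fun l =>
          eqc 0 ℓ (fun e => var (l * ℓ + e)) (idx m))).subst δ := by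
        rw [hσ0]; simp only [if_neg hT]
      have k1 := hequ (idx m) Γ
      rw [← e0] at k1
      by_cases hr' : idx m < r
      · have e1 : σ1 m = DD N b ℓ i (idx m) := by
          rw [hσ1]; simp only; rw [if_pos hr']
        rw [e1]
        refine k1.mono subset_rfl ?_
        rw [hsum]; omega
      · have e1 : σ1 m = or (var m) (DD N b ℓ i (idx m)) := by
          rw [hσ1]; simp only; rw [if_neg hr']
        rw [e1]
        obtain ⟨bb, hbb⟩ := mem_P hP (by omega : r ≤ idx m) hq1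
        rw [hq2] at hbb
        have hbf : bb = false := by
          cases bb
          · rfl
          · exfalso
            apply hT
            rw [hS', Finset.mem_filter]
            exact ⟨hm, hbb⟩
        subst hbf
        have k0 := hp N b ℓ n r i S P hctx (neg (var m))
          (Or.inl (List.mem_map.2 ⟨_, hbb, by simp [lit]⟩)) Γ
        have k2 := q2 [UU N b n r i P, var m, (σ0 m).subst δ, DD N b ℓ i (idx m)] M hM1 (by
          intro X hX; simp only [List.mem_cons, List.not_mem_nil, or_false] at hX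
          rcases hX with rfl | rfl | rfl | rfl
          · exact hU
          · exact hvs
          · have := s1 m; rw [hM]; omega
          · exact hDM) (Γ ∪ {B | B ∈ [imp (UU N b n r i P) (iff ((σ0 m).subst δ)
            (DD N b ℓ i (idx m)))] ++ [imp (UU N b n r i P) (neg (var m))]}) (by
          intro X hX; simp only [List.mem_cons, List.not_mem_nil, or_false] at hX
          rcases hX with rfl | rfl <;> right <;> simp [subst, asg, iff])
        refine (((k1.append k0).cut k2).sub (by simp [subst, asg, iff])).mono subset_rfl ?_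
        rw [hsum]; omega
  have hmany := Can.many (F := F) (Γ := Γ) (fun m => imp (UU N b n r i P)
    (iff ((σ0 m).subst δ) (σ1 m))) _ A.vars.toList hv
  have g3 := hr (UU N b n r i P) A (fun m => (σ0 m).subst δ) σ1 M hU s3 s4
    (Γ ∪ {B | B ∈ A.vars.toList.map fun m => imp (UU N b n r i P)
      (iff ((σ0 m).subst δ) (σ1 m))}) (by
      intro m hm
      right
      exact List.mem_map.2 ⟨m, Finset.mem_toList.2 hm, rfl⟩)
  have hWs : (Wd N b (gp N b i) (2 * i)).size ≤ M := by
    have := Wd_size N b (2 * i) (gp N b i) hctx.hS hctx.hb (by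
      have := hctx.hn; have := hctx.hi; omega)
    rw [hM]; omega
  have g4 := q3 [UU N b n r i P, Wd N b (gp N b i) (2 * i), A.subst fun m => (σ0 m).subst δ,
    A.subst σ1] M hM1 (by
      intro X hX; simp only [List.mem_cons, List.not_mem_nil, or_false] at hX
      rcases hX with rfl | rfl | rfl | rfl
      exacts [hU, hWs, s3, s4])
    (Γ ∪ {B | B ∈ [imp (UU N b n r i P) (Wd N b (gp N b i) (2 * i))] ++
      ([imp (Wd N b (gp N b i) (2 * i)) (A.subst fun m => (σ0 m).subst δ)] ++
      [imp (UU N b n r i P) (iff (A.subst fun m => (σ0 m).subst δ) (A.subst σ1))])}) (by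
      intro X hX
      simp only [List.mem_cons, List.not_mem_nil, or_false] at hX
      rcases hX with rfl | rfl | rfl <;> right <;> simp [subst, asg, iff])
  rw [hTR]
  refine (((g1.append (g2.append (hmany.cut g3))).cut g4).sub
    (by simp [subst, asg, UU])).mono subset_rfl ?_
  rw [Finset.length_toList]
  have hcard : A.vars.card ≤ S := (vars_card_le A).trans hAS
  have p9 : S ^ 9 ≤ S ^ 66 := Nat.pow_le_pow_right hctx.hS (by norm_num)
  have p7 : S ^ 7 ≤ S ^ 66 := Nat.pow_le_pow_right hctx.hS (by norm_num)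
  have p5 : S ^ 5 ≤ S ^ 66 := Nat.pow_le_pow_right hctx.hS (by norm_num)
  have p4 : S ^ 4 ≤ S ^ 66 := Nat.pow_le_pow_right hctx.hS (by norm_num)
  have a1 : cw * S ^ 9 ≤ cw * S ^ 66 := Nat.mul_le_mul_left _ p9
  have a2 : A.vars.card * ((cp + ce + 400 * c1 + 400 * c2) * S ^ 6) ≤
      (cp + ce + 400 * c1 + 400 * c2) * S ^ 66 := by
    calc A.vars.card * ((cp + ce + 400 * c1 + 400 * c2) * S ^ 6) ≤
        S * ((cp + ce + 400 * c1 + 400 * c2) * S ^ 6) := Nat.mul_le_mul_right _ hcard
      _ = (cp + ce + 400 * c1 + 400 * c2) * S ^ 7 := by ring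
      _ ≤ _ := Nat.mul_le_mul_left _ p7
  have a3 : cr * M * A.size ≤ 400 * cr * S ^ 66 := by
    calc cr * M * A.size ≤ cr * M * S := Nat.mul_le_mul_left _ hAS
      _ = 400 * cr * S ^ 5 := by rw [hM]; ring
      _ ≤ _ := Nat.mul_le_mul_left _ p5
  have a4 : c3 * M ≤ 400 * c3 * S ^ 66 := by
    calc c3 * M = 400 * c3 * S ^ 4 := by rw [hM]; ring
      _ ≤ _ := Nat.mul_le_mul_left _ p4
  have a5 : K * S ^ 66 = cw * S ^ 66 + co * S ^ 66 +
      (cp + ce + 400 * c1 + 400 * c2) * S ^ 66 + 400 * cr * S ^ 66 + 400 * c3 * S ^ 66 := by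
    rw [hK, add_mul, add_mul, add_mul, add_mul]
  have a6 : K * S ^ 66 ≤ (K + 66) * S ^ (K + 66) :=
    Nat.mul_le_mul (by omega) (Nat.pow_le_pow_right hctx.hS (by omega))
  refine le_trans ?_ a6
  rw [a5]
  omega

end Pool.Agent.H586P.T_basel
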