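import Pool.Agent.H586P.Defs3

/-!
# Coding and enumeration
-/

set_option autoImplicit false

namespace Pool.Agent.H586P.T_codeenum

open Pool.Agent.H586P Pool.Agent.H555R2.PF Pool.Agent.H555R2.PF.Fm

theorem t_code : S_code := by
  classical
  intro X N₀ m M hX hM
  set Y : Finset ℕ := X.filter (fun v => ¬ (N₀ ≤ v ∧ v < N₀ + m)) with hY
  have hcard : m + Y.card = X.card := by
    have h1 := Finset.card_filter_add_card_filter_not (s := X) (fun v => N₀ ≤ v ∧ v < N₀ + m)
    have h2 : X.filter (fun v => N₀ ≤ v ∧ v < N₀ + m) = Finset.Ico N₀ (N₀ + m) := by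
      ext v
      simp only [Finset.mem_filter, Finset.mem_Ico]
      constructor
      · exact fun h => h.2
      · intro h
        refine ⟨?_, h⟩
        have h3 := hX (v - N₀) (by omega)
        have h4 : N₀ + (v - N₀) = v := by omega
        rwa [h4] at h3
    rw [h2, Nat.card_Ico] at h1
    have h3 : Y.card = (X.filter (fun v => ¬ (N₀ ≤ v ∧ v < N₀ + m))).card := by
      rw [hY]
    have h4 : N₀ + m - N₀ = m := by omega
    rw [h4] at h1
    rw [h3]
    convert h1
  have hlt : ∀ v ∈ Y, (Y.filter (fun u => u < v)).card < Y.card := by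
    intro v hv
    apply Finset.card_lt_card
    refine ⟨Finset.filter_subset _ _, fun h => ?_⟩
    have := h hv
    simp at this
  have hmono : ∀ v ∈ Y, ∀ v' ∈ Y, v < v' →
      (Y.filter (fun u => u < v)).card < (Y.filter (fun u => u < v')).card := by
    intro v hv v' hv' hvv
    apply Finset.card_lt_card
    refine ⟨?_, fun h => ?_⟩
    · intro u hu
      simp only [Finset.mem_filter] at hu ⊢
      exact ⟨hu.1, lt_trans hu.2 hvv⟩
    · have h1 : v ∈ Y.filter (fun u => u < v') := by
        simp only [Finset.mem_filter]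
        exact ⟨hv, hvv⟩
      have := h h1
      simp at this
  refine ⟨fun v => if N₀ ≤ v ∧ v < N₀ + m then v - N₀ else
    m + (Y.filter (fun u => u < v)).card, ?_, ?_, ?_⟩
  · intro v hv v' hv' h
    have hv1 : v ∈ X := hv
    have hv1' : v' ∈ X := hv'
    by_cases c1 : N₀ ≤ v ∧ v < N₀ + m
    · by_cases c2 : N₀ ≤ v' ∧ v' < N₀ + m
      · simp only [if_pos c1, if_pos c2] at h
        omega
      · simp only [if_pos c1, if_neg c2] at h
        omega
    · by_cases c2 : N₀ ≤ v' ∧ v' < N₀ + m
      · simp only [if_neg c1, if_pos c2] at h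
        omega
      · simp only [if_neg c1, if_neg c2] at h
        have hy : v ∈ Y := by
          rw [hY, Finset.mem_filter]
          exact ⟨hv1, c1⟩
        have hy' : v' ∈ Y := by
          rw [hY, Finset.mem_filter]
          exact ⟨hv1', c2⟩
        rcases lt_trichotomy v v' with hl | hl | hl
        · have := hmono v hy v' hy' hl
          omega
        · exact hl
        · have := hmono v' hy' v hy hl
          omega
  · intro v hv
    by_cases c1 : N₀ ≤ v ∧ v < N₀ + m
    · simp only [if_pos c1]
      omega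
    · simp only [if_neg c1]
      have hy : v ∈ Y := by
        rw [hY, Finset.mem_filter]
        exact ⟨hv, c1⟩
      have := hlt v hy
      omega
  · intro j hj
    have c1 : N₀ ≤ N₀ + j ∧ N₀ + j < N₀ + m := by omega
    simp only [if_pos c1]
    omega

theorem t_enum : S_enum := by
  classical
  intro A
  let e : A.vars ≃ Fin A.vars.card := A.vars.equivFin
  refine ⟨fun m => if h : m ∈ A.vars then (e ⟨m, h⟩ : ℕ) else 0,
    fun q => if h : q < A.vars.card then ((e.symm ⟨q, h⟩ : A.vars) : ℕ) else 0, ⟨?_, ?_⟩⟩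
  · intro m hm
    have h1 : (e ⟨m, hm⟩ : ℕ) < A.vars.card := (e ⟨m, hm⟩).2
    simp only [dif_pos hm]
    refine ⟨h1, ?_⟩
    rw [dif_pos h1]
    simp
  · intro q hq
    simp only [dif_pos hq]
    have h1 : ((e.symm ⟨q, hq⟩ : A.vars) : ℕ) ∈ A.vars := (e.symm ⟨q, hq⟩).2
    refine ⟨h1, ?_⟩
    rw [dif_pos h1]
    simp

end Pool.Agent.H586P.T_codeenum
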