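import Pool.Agent.H586P.Defs3

set_option autoImplicit false

namespace Pool.Agent.H586P.T_dfin

open Pool.Agent.H586P Pool.Agent.H555R2.PF Pool.Agent.H555R2.PF.Fm

/-! ### disjunctions with an arbitrary last member -/

/-- disjunction with an arbitrary last member -/
def dj (Z : Fm) : List Fm → Fm
  | [] => Z
  | D :: l => or D (dj Z l)

theorem disjL_subst (z : ℕ) (σ : ℕ → Fm) (l : List Fm) :
    (disjL z l).subst σ = dj (neg (imp (σ z) (σ z))) (l.map (Fm.subst σ)) := by
  induction l with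
  | nil => rfl
  | cons D l ih => simp only [disjL, subst, List.map_cons, dj, ih]

theorem disjL_eq (z : ℕ) (l : List Fm) : disjL z l = dj (neg (imp (var z) (var z))) l := by
  induction l with
  | nil => rfl
  | cons D l ih => simp only [disjL, dj, ih]

theorem dj_subst (Z : Fm) (σ : ℕ → Fm) (l : List Fm) :
    (dj Z l).subst σ = dj (Z.subst σ) (l.map (Fm.subst σ)) := by
  induction l with
  | nil => rfl
  | cons D l ih => simp only [subst, List.map_cons, dj, ih]

theorem conjL_subst (z : ℕ) (σ : ℕ → Fm) (hσ : σ z = var z) (l : List Fm) :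
    (conjL z l).subst σ = conjL z (l.map (Fm.subst σ)) := by
  induction l with
  | nil => simp [conjL, subst, hσ]
  | cons D l ih => simp only [conjL, subst, List.map_cons, ih]

theorem dj_size (Z : Fm) (l : List Fm) : (dj Z l).size = psize l + l.length + Z.size := by
  induction l with
  | nil => simp [dj, psize]
  | cons D l ih => simp only [dj, size, psize_cons, List.length_cons, ih]; omega

theorem dj_vars {Z : Fm} {l : List Fm} {n : ℕ} (h : n ∈ (dj Z l).vars) :
    n ∈ Z.vars ∨ ∃ D ∈ l, n ∈ D.vars := by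
  induction l with
  | nil => left; simpa [dj] using h
  | cons D l ih =>
    simp only [dj, vars, Finset.mem_union] at h
    rcases h with h | h
    · right; exact ⟨D, by simp, h⟩
    · rcases ih h with h | ⟨E, hE, h⟩
      · left; exact h
      · right; exact ⟨E, by simp [hE], h⟩

theorem conjL_eval (z : ℕ) (v : ℕ → Prop) (l : List Fm) :
    (conjL z l).eval v ↔ ∀ D ∈ l, D.eval v := by
  induction l with
  | nil => simp [conjL, eval]
  | cons D l ih => simp only [conjL, eval, ih, List.mem_cons, forall_eq_or_imp]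

theorem disjL_eval (z : ℕ) (v : ℕ → Prop) (l : List Fm) :
    (disjL z l).eval v ↔ ∃ D ∈ l, D.eval v := by
  induction l with
  | nil => simp [disjL, eval]
  | cons D l ih => simp only [disjL, eval, ih, List.mem_cons, exists_eq_or_imp]

theorem psize_le {l : List Fm} {M : ℕ} (h : ∀ X ∈ l, X.size ≤ M) : psize l ≤ l.length * M := by
  induction l with
  | nil => simp [psize]
  | cons D l ih =>
    have h1 := ih fun X hX => h X (by simp [hX])
    have h2 := h D (by simp)
    rw [psize_cons, List.length_cons]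
    nlinarith

/-! ### closed proofs -/

variable {F : List Rule}

theorem FCmono {G : Fm} {m m' : ℕ} (h : FC F G m) (hm : m ≤ m') : FC F G m' :=
  FO.Can.mono h subset_rfl hm

theorem schemaC0 (hF : IsFrege F) (B₀ : Fm) (h : Entails [] B₀) :
    ∃ c : ℕ, ∀ (l : List Fm) (M : ℕ), 1 ≤ M → (∀ X ∈ l, X.size ≤ M) →
      FC F (B₀.subst (asg l)) (c * M) := by
  obtain ⟨c, hc⟩ := FO.schemaL hF [] B₀ h
  exact ⟨c, fun l M hM hl => hc l M hM hl ∅ (by simp)⟩

theorem schemaC1 (hF : IsFrege F) (A₁ B₀ : Fm) (h : Entails [A₁] B₀) :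
    ∃ c : ℕ, ∀ (l : List Fm) (M K₁ : ℕ), 1 ≤ M → (∀ X ∈ l, X.size ≤ M) →
      FC F (A₁.subst (asg l)) K₁ → FC F (B₀.subst (asg l)) (K₁ + c * M) := by
  obtain ⟨c, hc⟩ := FO.schemaL hF [A₁] B₀ h
  refine ⟨c, fun l M K₁ hM hl h1 => ?_⟩
  exact FO.Can.cut h1 (hc l M hM hl _ (by
    intro A hA
    simp only [List.mem_singleton] at hA
    subst hA
    right; simp))

theorem schemaC2 (hF : IsFrege F) (A₁ A₂ B₀ : Fm) (h : Entails [A₁, A₂] B₀) :
    ∃ c : ℕ, ∀ (l : List Fm) (M K₁ K₂ : ℕ), 1 ≤ M → (∀ X ∈ l, X.size ≤ M) →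
      FC F (A₁.subst (asg l)) K₁ → FC F (A₂.subst (asg l)) K₂ →
      FC F (B₀.subst (asg l)) (K₁ + K₂ + c * M) := by
  obtain ⟨c, hc⟩ := FO.schemaL hF [A₁, A₂] B₀ h
  refine ⟨c, fun l M K₁ K₂ hM hl h1 h2 => ?_⟩
  exact FO.Can.cut (FO.Can.append h1 h2) (hc l M hM hl _ (by
    intro A hA
    simp only [List.mem_cons, List.not_mem_nil, or_false] at hA
    rcases hA with rfl | rfl <;> right <;> simp))

theorem trC (hF : IsFrege F) : ∃ c : ℕ, ∀ (A B C : Fm) (M K₁ K₂ : ℕ), A.size ≤ M →
    B.size ≤ M → C.size ≤ M → FC F (imp A B) K₁ → FC F (imp B C) K₂ →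
    FC F (imp A C) (K₁ + K₂ + c * M) := by
  obtain ⟨c, hc⟩ := schemaC2 hF (imp (var 0) (var 1)) (imp (var 1) (var 2))
    (imp (var 0) (var 2)) (by intro v h; simp [eval] at h ⊢; tauto)
  refine ⟨c, fun A B C M K₁ K₂ hA hB hC h1 h2 => ?_⟩
  have := hc [A, B, C] M K₁ K₂ ((size_pos A).trans hA) (by
    intro X hX; simp at hX; rcases hX with rfl | rfl | rfl; exacts [hA, hB, hC])
    (by simpa [subst, asg] using h1) (by simpa [subst, asg] using h2)
  simpa [subst, asg] using this

theorem iffC (hF : IsFrege F) : ∃ c : ℕ, ∀ (A B : Fm) (M K₁ K₂ : ℕ), A.size ≤ M →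
    B.size ≤ M → FC F (imp A B) K₁ → FC F (imp B A) K₂ →
    FC F (iff A B) (K₁ + K₂ + c * M) := by
  obtain ⟨c, hc⟩ := schemaC2 hF (imp (var 0) (var 1)) (imp (var 1) (var 0))
    (iff (var 0) (var 1)) (by intro v h; simp [eval, iff] at h ⊢; tauto)
  refine ⟨c, fun A B M K₁ K₂ hA hB h1 h2 => ?_⟩
  have := hc [A, B] M K₁ K₂ ((size_pos A).trans hA) (by
    intro X hX; simp at hX; rcases hX with rfl | rfl; exacts [hA, hB])
    (by simpa [subst, asg] using h1) (by simpa [subst, asg] using h2)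
  simpa [subst, asg, iff] using this

theorem djElim (hF : IsFrege F) : ∃ c : ℕ, ∀ (Z G : Fm) (l : List Fm) (M K : ℕ), Z.size ≤ M →
    G.size ≤ M → (dj (neg (imp Z Z)) l).size ≤ M → (∀ X ∈ l, FC F (imp X G) K) →
    FC F (imp (dj (neg (imp Z Z)) l) G) (l.length * K + c * M * (l.length + 1)) := by
  obtain ⟨c₁, h₁⟩ := schemaC0 hF (imp (neg (imp (var 0) (var 0))) (var 1)) (by
    intro v _; simp [eval])
  obtain ⟨c₂, h₂⟩ := schemaC2 hF (imp (var 0) (var 2)) (imp (var 1) (var 2))
    (imp (or (var 0) (var 1)) (var 2)) (by intro v h; simp [eval] at h ⊢; tauto)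
  refine ⟨c₁ + c₂, fun Z G l M K hZ hG => ?_⟩
  have hM : 1 ≤ M := (size_pos Z).trans hZ
  induction l with
  | nil =>
    intro _ _
    have := h₁ [Z, G] M hM (by
      intro X hX; simp at hX; rcases hX with rfl | rfl; exacts [hZ, hG])
    refine FCmono (by simpa [subst, asg, dj] using this) ?_
    simp only [List.length_nil]
    nlinarith [Nat.zero_le (c₂ * M)]
  | cons D l ih =>
    intro hs hl
    have hs' : D.size ≤ M ∧ (dj (neg (imp Z Z)) l).size ≤ M := by
      simp only [dj, size] at hs; omega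
    have h3 := ih hs'.2 fun X hX => hl X (by simp [hX])
    have h4 := hl D (by simp)
    have := h₂ [D, dj (neg (imp Z Z)) l, G] M _ _ hM (by
      intro X hX; simp at hX; rcases hX with rfl | rfl | rfl
      exacts [hs'.1, hs'.2, hG]) (by simpa [subst, asg] using h4)
      (by simpa [subst, asg] using h3)
    refine FCmono (by simpa [subst, asg, dj] using this) ?_
    simp only [List.length_cons]
    nlinarith [Nat.zero_le (c₁ * M)]

theorem djMem (hF : IsFrege F) : ∃ c : ℕ, ∀ (Z : Fm) (l : List Fm) (M : ℕ),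
    (dj Z l).size ≤ M → ∀ X ∈ l, FC F (imp X (dj Z l)) (c * M * l.length) := by
  obtain ⟨c₁, h₁⟩ := schemaC0 hF (imp (var 0) (or (var 0) (var 1))) (by
    intro v _; simp [eval]; tauto)
  obtain ⟨c₂, h₂⟩ := schemaC1 hF (imp (var 0) (var 2))
    (imp (var 0) (or (var 1) (var 2))) (by intro v h; simp [eval] at h ⊢; tauto)
  refine ⟨c₁ + c₂, fun Z l M => ?_⟩
  induction l with
  | nil => intro _ X hX; simp at hX
  | cons D l ih =>
    intro hs X hX
    have hs' : D.size ≤ M ∧ (dj Z l).size ≤ M := by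
      simp only [dj, size] at hs; omega
    have hM : 1 ≤ M := (size_pos D).trans hs'.1
    rcases List.mem_cons.1 hX with rfl | hX
    · have := h₁ [X, dj Z l] M hM (by
        intro Y hY; simp at hY; rcases hY with rfl | rfl; exacts [hs'.1, hs'.2])
      refine FCmono (by simpa [subst, asg, dj] using this) ?_
      simp only [List.length_cons]
      calc c₁ * M ≤ (c₁ + c₂) * M := Nat.mul_le_mul_right _ (by omega)
        _ ≤ (c₁ + c₂) * M * (l.length + 1) := Nat.le_mul_of_pos_right _ (Nat.succ_pos _)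
    · have h3 := ih hs'.2 X hX
      have hXs : X.size ≤ M := by
        have h4 := size_le_psize hX
        have h5 := dj_size Z l
        omega
      have := h₂ [X, D, dj Z l] M _ hM (by
        intro Y hY; simp at hY; rcases hY with rfl | rfl | rfl
        exacts [hXs, hs'.1, hs'.2]) (by simpa [subst, asg] using h3)
      refine FCmono (by simpa [subst, asg, dj] using this) ?_
      simp only [List.length_cons]
      nlinarith [Nat.zero_le (c₁ * M)]


/-! ### the substitution -/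

/-- the values substituted for the digits -/
def val (z b n : ℕ) (vv : ℕ → ℕ) (l i : ℕ) : Fm :=
  if i < b then (if l * b + i < n then var (vv (l * b + i)) else top z)
  else cst z (l.testBit (i - b))

open Classical in
/-- the substitution -/
noncomputable def thet (z b n : ℕ) (vv : ℕ → ℕ) (t : ℕ → ℕ → ℕ) (v : ℕ) : Fm :=
  if h : ∃ p : ℕ × ℕ, t p.1 p.2 = v then val z b n vv h.choose.1 h.choose.2 else var v

theorem thet_t {z b n : ℕ} {vv : ℕ → ℕ} {t : ℕ → ℕ → ℕ}
    (ht : ∀ l i l' i', t l i = t l' i' → l = l' ∧ i = i') (l i : ℕ) :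
    thet z b n vv t (t l i) = val z b n vv l i := by
  have h : ∃ p : ℕ × ℕ, t p.1 p.2 = t l i := ⟨(l, i), rfl⟩
  unfold thet
  rw [dif_pos h]
  obtain ⟨h1, h2⟩ := ht _ _ _ _ h.choose_spec
  rw [h1, h2]

theorem thet_o {z b n : ℕ} {vv : ℕ → ℕ} {t : ℕ → ℕ → ℕ} {v : ℕ} (hv : ∀ l i, t l i ≠ v) :
    thet z b n vv t v = var v := by
  unfold thet
  rw [dif_neg]
  rintro ⟨p, hp⟩
  exact hv _ _ hp

/-- the comparison after the substitution -/
def EE (z β b n : ℕ) (vv : ℕ → ℕ) (l k : ℕ) : Fm := eqc z β (val z b n vv l) k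

theorem cst_eval (z : ℕ) (x : Bool) (v : ℕ → Prop) : (cst z x).eval v ↔ x = true := by
  cases x <;> simp [cst, top, eval]

theorem EE_eval {z β b n : ℕ} {vv : ℕ → ℕ} {l k : ℕ} {v : ℕ → Prop} :
    (EE z β b n vv l k).eval v ↔
      ∀ i < β, ((val z b n vv l i).eval v ↔ k.testBit i = true) := by
  unfold EE eqc
  rw [conjL_eval]
  simp only [List.mem_map, List.mem_range, forall_exists_index, and_imp,
    forall_apply_eq_imp_iff₂]
  refine forall_congr' fun i => forall_congr' fun hi => ?_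
  by_cases h : k.testBit i = true
  · simp [h]
  · simp [h, eval]

theorem testBit_blk {b j α : ℕ} (hα : α < 2 ^ b) (i : ℕ) :
    (j * 2 ^ b + α).testBit i = if i < b then α.testBit i else j.testBit (i - b) := by
  rw [Nat.mul_comm j, Nat.testBit_two_pow_mul_add j hα i]

theorem taut1 {z β b n w : ℕ} {vv : ℕ → ℕ} {l j α r : ℕ} (hbβ : b ≤ β)
    (hw : w * 2 ^ b ≤ 2 ^ β) (hl : l < w) (hj : j < w) (hα : α < 2 ^ b) (hr : r < b)
    (hαr : α.testBit r = true) (hn : j * b + r < n) (v : ℕ → Prop) :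
    (imp (EE z β b n vv l (j * 2 ^ b + α)) (var (vv (j * b + r)))).eval v := by
  simp only [eval]
  rw [EE_eval]
  intro h
  have hw' : w ≤ 2 ^ (β - b) := by
    have : 2 ^ β = 2 ^ (β - b) * 2 ^ b := by rw [← pow_add]; congr 1; omega
    rw [this] at hw
    exact Nat.le_of_mul_le_mul_right hw (by positivity)
  have hlj : l = j := by
    apply Nat.eq_of_testBit_eq
    intro i
    by_cases hi : i < β - b
    · have h1 := h (i + b) (by omega)
      rw [testBit_blk hα, if_neg (by omega), Nat.add_sub_cancel, val, if_neg (by omega),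
        cst_eval, Nat.add_sub_cancel] at h1
      exact Bool.eq_iff_iff.2 h1
    · have h2 : ∀ a < w, a.testBit i = false := fun a ha =>
        Nat.testBit_lt_two_pow (lt_of_lt_of_le ha (hw'.trans
          (Nat.pow_le_pow_right (by norm_num) (by omega))))
      rw [h2 l hl, h2 j hj]
  subst hlj
  have h1 := h r (by omega)
  rw [testBit_blk hα, if_pos hr, val, if_pos hr, if_pos hn] at h1
  simp only [eval] at h1
  exact h1.2 hαr

theorem exists_bits (p : ℕ → Prop) (b : ℕ) : ∃ α < 2 ^ b, ∀ i < b, (α.testBit i = true ↔ p i) := by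
  classical
  refine ⟨Nat.ofBits (fun i : Fin b => decide (p i)), Nat.ofBits_lt_two_pow _, fun i hi => ?_⟩
  rw [Nat.testBit_ofBits_lt _ _ hi]
  simp

theorem taut2 {z β b n : ℕ} {vv : ℕ → ℕ} {j r : ℕ} (hr : r < b) (hn : j * b + r < n)
    (v : ℕ → Prop) :
    (imp (var (vv (j * b + r))) (disjL z (((List.range (2 ^ b)).filter
      fun α => α.testBit r).map fun α => EE z β b n vv j (j * 2 ^ b + α)))).eval v := by
  simp only [eval]
  intro hv
  obtain ⟨α, hα, h1⟩ := exists_bits (fun i => (val z b n vv j i).eval v) b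
  rw [disjL_eval]
  refine ⟨EE z β b n vv j (j * 2 ^ b + α), ?_, ?_⟩
  · refine List.mem_map.2 ⟨α, ?_, rfl⟩
    simp only [List.mem_filter, List.mem_range]
    refine ⟨hα, (h1 r hr).2 ?_⟩
    simp only [val, if_pos hr, if_pos hn, eval]
    exact hv
  · rw [EE_eval]
    intro i hi
    rw [testBit_blk hα]
    by_cases hib : i < b
    · rw [if_pos hib]
      exact (h1 i hib).symm
    · rw [if_neg hib, val, if_neg hib, cst_eval]

theorem val_size (z b n : ℕ) (vv : ℕ → ℕ) (l i : ℕ) : (val z b n vv l i).size ≤ 4 := by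
  unfold val
  split_ifs
  · simp [size]
  · simp [top, size]
  · unfold cst; split_ifs <;> simp [top, size]

theorem EE_size (z β b n : ℕ) (vv : ℕ → ℕ) (l k : ℕ) :
    (EE z β b n vv l k).size ≤ 6 * β + 3 := by
  unfold EE eqc
  rw [conjL_size]
  have h : psize ((List.range β).map fun i => if k.testBit i = true then val z b n vv l i
      else neg (val z b n vv l i)) ≤ β * 5 := by
    refine (psize_le (M := 5) ?_).trans (by simp)
    intro X hX
    simp only [List.mem_map, List.mem_range] at hX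
    obtain ⟨i, _, rfl⟩ := hX
    have := val_size z b n vv l i
    split_ifs <;> simp [size] <;> omega
  simp only [List.length_map, List.length_range]
  omega

theorem val_vars {z b n : ℕ} {vv : ℕ → ℕ} {l i x : ℕ} (h : x ∈ (val z b n vv l i).vars) :
    x = z ∨ (i < b ∧ l * b + i < n ∧ x = vv (l * b + i)) := by
  unfold val at h
  split_ifs at h with h1 h2
  · right; exact ⟨h1, h2, by simpa [vars] using h⟩
  · left; simpa [top, vars] using h
  · left; unfold cst at h; split_ifs at h <;> simpa [top, vars] using h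

theorem EE_vars {z β b n : ℕ} {vv : ℕ → ℕ} {l k x : ℕ} (h : x ∈ (EE z β b n vv l k).vars) :
    x = z ∨ ∃ i < b, l * b + i < n ∧ x = vv (l * b + i) := by
  unfold EE eqc at h
  rcases conjL_vars h with h | ⟨D, hD, h⟩
  · exact Or.inl h
  · simp only [List.mem_map, List.mem_range] at hD
    obtain ⟨i, _, rfl⟩ := hD
    have h' : x ∈ (val z b n vv l i).vars := by
      split_ifs at h
      · exact h
      · simpa [vars] using h
    rcases val_vars h' with h | ⟨h1, h2, h3⟩
    · exact Or.inl h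
    · exact Or.inr ⟨i, h1, h2, h3⟩

theorem card_le {z b : ℕ} {vv : ℕ → ℕ} {l m : ℕ} {C : Fm}
    (h : ∀ x ∈ C.vars, x = z ∨ x = m ∨ ∃ i < b, x = vv (l * b + i)) :
    C.vars.card ≤ b + 2 := by
  classical
  have h1 : C.vars ⊆ insert z (insert m ((Finset.range b).image fun i => vv (l * b + i))) := by
    intro x hx
    rcases h x hx with h | h | ⟨i, hi, h⟩
    · simp [h]
    · simp [h]
    · simp only [Finset.mem_insert, Finset.mem_image, Finset.mem_range]
      exact Or.inr (Or.inr ⟨i, hi, h.symm⟩)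
  refine (Finset.card_le_card h1).trans ?_
  refine (Finset.card_insert_le _ _).trans ?_
  refine Nat.succ_le_succ ((Finset.card_insert_le _ _).trans ?_)
  refine Nat.succ_le_succ (Finset.card_image_le.trans ?_)
  simp

/-- one of the `w` numbers is `k` -/
def PP (z β b n : ℕ) (vv : ℕ → ℕ) (w k : ℕ) : Fm :=
  disjL z ((List.range w).map fun l => EE z β b n vv l k)

/-- the list of the numbers `α` with the given digit -/
def AL (b r : ℕ) : List ℕ := (List.range (2 ^ b)).filter fun α => α.testBit r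

theorem AL_length (b r : ℕ) : (AL b r).length ≤ 2 ^ b := by
  refine (List.length_filter_le _ _).trans ?_
  simp

theorem mem_AL {b r α : ℕ} : α ∈ AL b r ↔ α < 2 ^ b ∧ α.testBit r = true := by
  simp [AL]

/-- the formula replacing a variable -/
def DM (z β b n : ℕ) (vv : ℕ → ℕ) (w j r : ℕ) (Z : Fm) : Fm :=
  dj (neg (imp Z Z)) ((AL b r).map fun α => PP z β b n vv w (j * 2 ^ b + α))

theorem PP_subst {z β b n w k : ℕ} {vv : ℕ → ℕ} {t : ℕ → ℕ → ℕ}
    (ht : ∀ l i l' i', t l i = t l' i' → l = l' ∧ i = i') (hz : ∀ l i, t l i ≠ z) :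
    (posF z w β (fun l i => var (t l i)) k).subst (thet z b n vv t) =
      PP z β b n vv w k := by
  unfold posF PP
  rw [disjL_subst, thet_o hz, ← disjL_eq, List.map_map]
  congr 1
  refine List.map_congr_left fun l _ => ?_
  simp only [Function.comp]
  unfold eqc EE eqc
  rw [conjL_subst z _ (thet_o hz), List.map_map]
  congr 1
  refine List.map_congr_left fun i _ => ?_
  simp only [Function.comp]
  split_ifs
  · simp only [subst]; exact thet_t ht l i
  · simp only [subst]; rw [thet_t ht l i]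

theorem DM_eq {z β b n w N₀ j r : ℕ} {vv : ℕ → ℕ} {t : ℕ → ℕ → ℕ} {code : ℕ → ℕ}
    (ht : ∀ l i l' i', t l i = t l' i' → l = l' ∧ i = i') (hz : ∀ l i, t l i ≠ z)
    (hc : ∀ α < 2 ^ b, code (N₀ + (j * 2 ^ b + α)) = j * 2 ^ b + α) :
    ((dec z b (fun α => N₀ + (j * 2 ^ b + α)) r).subst (del z w β t code)).subst
      (thet z b n vv t) = DM z β b n vv w j r (PP z β b n vv w (code z)) := by
  unfold dec DM
  rw [disjL_subst, dj_subst, List.map_map, List.map_map]
  simp only [subst]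
  congr 1
  · unfold del
    rw [PP_subst ht hz]
  · refine List.map_congr_left fun α hα => ?_
    have hα' := mem_AL.1 hα
    simp only [Function.comp, subst, del]
    rw [hc α hα'.1, PP_subst ht hz]

theorem PP_size {z β b n w k T : ℕ} {vv : ℕ → ℕ} (hT : w + 2 ^ β ≤ T) :
    (PP z β b n vv w k).size ≤ 14 * T ^ 2 := by
  unfold PP
  rw [disjL_size]
  have h : psize ((List.range w).map fun l => EE z β b n vv l k) ≤ w * (6 * β + 3) := by
    refine (psize_le (M := 6 * β + 3) ?_).trans (by simp)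
    intro X hX
    simp only [List.mem_map, List.mem_range] at hX
    obtain ⟨l, _, rfl⟩ := hX
    exact EE_size z β b n vv l k
  simp only [List.length_map, List.length_range]
  have h1 : β < 2 ^ β := Nat.lt_two_pow_self
  have h2 : w ≤ T := by omega
  have h3 : 1 ≤ T := by omega
  have h4 : β ≤ T := by omega
  have h5 : w * (6 * β + 3) ≤ T * (6 * T + 3) := Nat.mul_le_mul h2 (by omega)
  nlinarith

theorem DM_size {z β b n w j r T : ℕ} {vv : ℕ → ℕ} {Z : Fm} (hbβ : b ≤ β)
    (hT : w + 2 ^ β ≤ T) (hZ : Z.size ≤ 14 * T ^ 2) :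
    (DM z β b n vv w j r Z).size ≤ 45 * T ^ 3 := by
  unfold DM
  rw [dj_size]
  have hl := AL_length b r
  have hb : 2 ^ b ≤ 2 ^ β := Nat.pow_le_pow_right (by norm_num) hbβ
  have hq : 1 ≤ 2 ^ β := Nat.one_le_two_pow
  have h : psize ((AL b r).map fun α => PP z β b n vv w (j * 2 ^ b + α)) ≤
      (AL b r).length * (14 * T ^ 2) := by
    refine (psize_le (M := 14 * T ^ 2) ?_).trans (by simp)
    intro X hX
    simp only [List.mem_map] at hX
    obtain ⟨l, _, rfl⟩ := hX
    exact PP_size hT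
  simp only [List.length_map, size]
  have h2 : (AL b r).length ≤ T := by omega
  have h3 : 1 ≤ T := by omega
  have h5 : (AL b r).length * (14 * T ^ 2) ≤ T * (14 * T ^ 2) := Nat.mul_le_mul_right _ h2
  have h6 : T * (14 * T ^ 2) = 14 * T ^ 3 := by ring
  have h7 : T ^ 2 ≤ T ^ 3 := Nat.pow_le_pow_right h3 (by norm_num)
  have h8 : T ≤ T ^ 3 := Nat.le_self_pow (by norm_num) T
  have h9 : 1 ≤ T ^ 3 := Nat.one_le_pow _ _ h3
  omega

theorem key (hF : IsFrege F) (h1 : S_tt F) : ∃ c : ℕ, ∀ (z w β b n : ℕ) (vv : ℕ → ℕ)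
    (j r : ℕ) (Z : Fm) (T : ℕ), b ≤ β → w * 2 ^ b ≤ 2 ^ β → j < w → r < b → j * b + r < n →
    w + 2 ^ β ≤ T → Z.size ≤ 14 * T ^ 2 →
    FC F (iff (DM z β b n vv w j r Z) (var (vv (j * b + r)))) (c * T ^ 11) := by
  obtain ⟨ct, h1⟩ := h1
  obtain ⟨ce, hce⟩ := djElim hF
  obtain ⟨cm, hcm⟩ := djMem hF
  obtain ⟨cr, hcr⟩ := trC hF
  obtain ⟨ci, hci⟩ := iffC hF
  refine ⟨2 * (ct * 2 ^ 18) + 45 * (6 * ce + 2 * cm + 2 * cr + ci), ?_⟩
  intro z w β b n vv j r Z T hbβ hw hj hr hn hT hZ
  set m := vv (j * b + r) with hm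
  have hb : 2 ^ b ≤ 2 ^ β := Nat.pow_le_pow_right (by norm_num) hbβ
  have hq : 1 ≤ 2 ^ β := Nat.one_le_two_pow
  have hβ : β < 2 ^ β := Nat.lt_two_pow_self
  have hT1 : 1 ≤ T := by omega
  have hlen := AL_length b r
  have hDM : (DM z β b n vv w j r Z).size ≤ 45 * T ^ 3 := DM_size hbβ hT hZ
  have hP : ∀ k, (PP z β b n vv w k).size ≤ 45 * T ^ 3 := fun k => (PP_size hT).trans (by
    have h7 : T ^ 2 ≤ T ^ 3 := Nat.pow_le_pow_right hT1 (by norm_num)
    omega)
  have hM1 : 1 ≤ 45 * T ^ 3 := by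
    have := Nat.one_le_pow 3 T hT1
    omega
  have hTT : 45 * T ^ 3 ≥ 45 * T := by
    have := Nat.le_self_pow (n := 3) (by norm_num) T
    omega
  have hE : ∀ l k, (EE z β b n vv l k).size ≤ 45 * T ^ 3 := fun l k =>
    (EE_size z β b n vv l k).trans (by omega)
  have hZ' : Z.size ≤ 45 * T ^ 3 := hZ.trans (by
    have h7 : T ^ 2 ≤ T ^ 3 := Nat.pow_le_pow_right hT1 (by norm_num)
    omega)
  have h2b : 2 ^ (b + 2) ≤ 4 * T := by rw [pow_add]; omega
  have cost : ∀ C : Fm, (∀ v, C.eval v) → C.size ≤ 16 * T ^ 2 → C.vars.card ≤ b + 2 →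
      FC F C (ct * 2 ^ 18 * T ^ 9) := by
    intro C hC hs hc
    refine FCmono (h1 C hC) ?_
    calc ct * C.size ^ 4 * 2 ^ C.vars.card ≤ ct * (16 * T ^ 2) ^ 4 * (4 * T) := by
          refine Nat.mul_le_mul (Nat.mul_le_mul_left _ (Nat.pow_le_pow_left hs 4)) ?_
          exact (Nat.pow_le_pow_right (by norm_num) hc).trans h2b
      _ = ct * 2 ^ 18 * T ^ 9 := by ring
  -- the comparisons imply the variable
  have a1 : ∀ l < w, ∀ α ∈ AL b r,
      FC F (imp (EE z β b n vv l (j * 2 ^ b + α)) (var m)) (ct * 2 ^ 18 * T ^ 9) := by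
    intro l hl α hα
    have hα' := mem_AL.1 hα
    refine cost _ (taut1 hbβ hw hl hj hα'.1 hr hα'.2 hn) ?_ ?_
    · have := EE_size z β b n vv l (j * 2 ^ b + α)
      simp only [size]
      nlinarith
    · refine card_le (z := z) (vv := vv) (l := l) (m := m) ?_
      intro x hx
      simp only [vars, Finset.mem_union, Finset.mem_singleton] at hx
      rcases hx with hx | hx
      · rcases EE_vars hx with h | ⟨i, h2, _, h3⟩
        · exact Or.inl h
        · exact Or.inr (Or.inr ⟨i, h2, h3⟩)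
      · exact Or.inr (Or.inl hx)
  have a2 : ∀ α ∈ AL b r, FC F (imp (PP z β b n vv w (j * 2 ^ b + α)) (var m))
      (w * (ct * 2 ^ 18 * T ^ 9) + ce * (45 * T ^ 3) * (w + 1)) := by
    intro α hα
    have h3 := hP (j * 2 ^ b + α)
    unfold PP at h3 ⊢
    rw [disjL_eq] at h3 ⊢
    refine FCmono (hce (var z) (var m) _ (45 * T ^ 3) (ct * 2 ^ 18 * T ^ 9) hM1 hM1 h3 ?_)
      (by simp)
    intro X hX
    simp only [List.mem_map, List.mem_range] at hX
    obtain ⟨l, hl, rfl⟩ := hX
    exact a1 l hl α hα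
  have a3 : FC F (imp (DM z β b n vv w j r Z) (var m))
      ((AL b r).length * (w * (ct * 2 ^ 18 * T ^ 9) + ce * (45 * T ^ 3) * (w + 1)) +
        ce * (45 * T ^ 3) * ((AL b r).length + 1)) := by
    have := hce Z (var m) ((AL b r).map fun α => PP z β b n vv w (j * 2 ^ b + α))
      (45 * T ^ 3) (w * (ct * 2 ^ 18 * T ^ 9) + ce * (45 * T ^ 3) * (w + 1)) hZ' hM1 hDM (by
        intro X hX
        simp only [List.mem_map] at hX
        obtain ⟨α, hα, rfl⟩ := hX
        exact a2 α hα)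
    rw [List.length_map] at this
    exact this
  -- the variable implies the disjunction
  have b3 : ∀ α ∈ AL b r, FC F (imp (EE z β b n vv j (j * 2 ^ b + α)) (DM z β b n vv w j r Z))
      (cm * (45 * T ^ 3) * w + cm * (45 * T ^ 3) * (AL b r).length + cr * (45 * T ^ 3)) := by
    intro α hα
    refine hcr _ (PP z β b n vv w (j * 2 ^ b + α)) _ _ _ _ (hE _ _) (hP _) hDM ?_ ?_
    · have h3 := hP (j * 2 ^ b + α)
      unfold PP at h3 ⊢
      rw [disjL_eq] at h3 ⊢
      have := hcm _ _ _ h3 (EE z β b n vv j (j * 2 ^ b + α)) (by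
        simp only [List.mem_map, List.mem_range]
        exact ⟨j, hj, rfl⟩)
      simpa using this
    · have := hcm _ _ _ hDM (PP z β b n vv w (j * 2 ^ b + α)) (by
        simp only [List.mem_map]
        exact ⟨α, hα, rfl⟩)
      rw [List.length_map] at this
      exact this
  have hL : (disjL z ((AL b r).map fun α => EE z β b n vv j (j * 2 ^ b + α))).size ≤
      T * (6 * T + 4) + 4 := by
    rw [disjL_size]
    have h : psize ((AL b r).map fun α => EE z β b n vv j (j * 2 ^ b + α)) ≤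
        (AL b r).length * (6 * β + 3) := by
      refine (psize_le (M := 6 * β + 3) ?_).trans (by simp)
      intro X hX
      simp only [List.mem_map] at hX
      obtain ⟨l, _, rfl⟩ := hX
      exact EE_size z β b n vv _ _
    simp only [List.length_map]
    have h5 : (AL b r).length * (6 * β + 3) ≤ T * (6 * T + 3) :=
      Nat.mul_le_mul (by omega) (by omega)
    have h6 : (AL b r).length ≤ T := by omega
    nlinarith
  have hL' : (disjL z ((AL b r).map fun α => EE z β b n vv j (j * 2 ^ b + α))).size ≤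
      45 * T ^ 3 := hL.trans (by
    have h7 : T ^ 2 ≤ T ^ 3 := Nat.pow_le_pow_right hT1 (by norm_num)
    nlinarith)
  have b4 : FC F (imp (disjL z ((AL b r).map fun α => EE z β b n vv j (j * 2 ^ b + α)))
      (DM z β b n vv w j r Z)) ((AL b r).length * (cm * (45 * T ^ 3) * w +
        cm * (45 * T ^ 3) * (AL b r).length + cr * (45 * T ^ 3)) +
        ce * (45 * T ^ 3) * ((AL b r).length + 1)) := by
    rw [disjL_eq] at hL' ⊢
    have := hce (var z) (DM z β b n vv w j r Z) _ (45 * T ^ 3) _ hM1 hDM hL' (by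
        intro X hX
        simp only [List.mem_map] at hX
        obtain ⟨α, hα, rfl⟩ := hX
        exact b3 α hα)
    rw [List.length_map] at this
    exact this
  have b5 : FC F (imp (var m) (disjL z ((AL b r).map fun α =>
      EE z β b n vv j (j * 2 ^ b + α)))) (ct * 2 ^ 18 * T ^ 9) := by
    refine cost _ (taut2 hr hn) ?_ ?_
    · simp only [size]
      nlinarith
    · refine card_le (z := z) (vv := vv) (l := j) (m := m) ?_
      intro x hx
      simp only [vars, Finset.mem_union, Finset.mem_singleton] at hx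
      rcases hx with hx | hx
      · exact Or.inr (Or.inl hx)
      · rcases disjL_vars hx with h | ⟨D, hD, h⟩
        · exact Or.inl h
        · simp only [List.mem_map] at hD
          obtain ⟨α, _, rfl⟩ := hD
          rcases EE_vars h with h | ⟨i, h2, _, h3⟩
          · exact Or.inl h
          · exact Or.inr (Or.inr ⟨i, h2, h3⟩)
  have b6 := hcr _ _ _ _ _ _ hM1 hL' hDM b5 b4
  refine FCmono (hci _ _ _ _ _ hDM hM1 a3 b6) ?_
  generalize (AL b r).length = q at *
  have hqT : q ≤ T := by omega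
  have hwT : w ≤ T := by omega
  have hT5 : T ^ 5 ≤ T ^ 11 := Nat.pow_le_pow_right hT1 (by norm_num)
  have hT2 : 1 ≤ T ^ 2 := Nat.one_le_pow _ _ hT1
  have hT3 : T ≤ T ^ 2 := Nat.le_self_pow (by norm_num) T
  have fin : ∀ K M : ℕ, q * (w * K + ce * M * (w + 1)) + ce * M * (q + 1) +
      (K + (q * (cm * M * w + cm * M * q + cr * M) + ce * M * (q + 1)) + cr * M) + ci * M ≤
      2 * K * T ^ 2 + (6 * ce + 2 * cm + 2 * cr + ci) * M * T ^ 2 := by
    intro K M
    have e1 : q * (w * K + ce * M * (w + 1)) ≤ T * (T * K + ce * M * (2 * T)) := by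
      gcongr; omega
    have e2 : ce * M * (q + 1) ≤ ce * M * (2 * T) := by gcongr; omega
    have e3 : q * (cm * M * w + cm * M * q + cr * M) ≤ T * (cm * M * T + cm * M * T + cr * M) := by
      gcongr
    have f1 := Nat.mul_le_mul_left (ce * M) hT3
    have f2 := Nat.mul_le_mul_left (cr * M) hT3
    have f3 := Nat.mul_le_mul_left K hT2
    have f4 := Nat.mul_le_mul_left (cr * M) hT2
    have f5 := Nat.mul_le_mul_left (ci * M) hT2
    nlinarith
  refine (fin _ _).trans ?_
  calc 2 * (ct * 2 ^ 18 * T ^ 9) * T ^ 2 +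
        (6 * ce + 2 * cm + 2 * cr + ci) * (45 * T ^ 3) * T ^ 2
      = 2 * (ct * 2 ^ 18) * T ^ 11 + 45 * (6 * ce + 2 * cm + 2 * cr + ci) * T ^ 5 := by ring
    _ ≤ 2 * (ct * 2 ^ 18) * T ^ 11 + 45 * (6 * ce + 2 * cm + 2 * cr + ci) * T ^ 11 := by gcongr
    _ = (2 * (ct * 2 ^ 18) + 45 * (6 * ce + 2 * cm + 2 * cr + ci)) * T ^ 11 := by ring

theorem mem_vars_subst {σ : ℕ → Fm} {x : ℕ} : ∀ {A : Fm}, x ∈ (A.subst σ).vars →
    ∃ m ∈ A.vars, x ∈ (σ m).vars := by
  intro A
  induction A with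
  | var n => intro h; exact ⟨n, by simp [vars], h⟩
  | neg A ih => intro h; simp only [subst, vars] at h; exact ih h
  | and A B iA iB =>
    intro h
    simp only [subst, vars, Finset.mem_union] at h ⊢
    rcases h with h | h
    · obtain ⟨m, hm, h⟩ := iA h; exact ⟨m, Or.inl hm, h⟩
    · obtain ⟨m, hm, h⟩ := iB h; exact ⟨m, Or.inr hm, h⟩
  | or A B iA iB =>
    intro h
    simp only [subst, vars, Finset.mem_union] at h ⊢
    rcases h with h | h
    · obtain ⟨m, hm, h⟩ := iA h; exact ⟨m, Or.inl hm, h⟩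
    · obtain ⟨m, hm, h⟩ := iB h; exact ⟨m, Or.inr hm, h⟩
  | imp A B iA iB =>
    intro h
    simp only [subst, vars, Finset.mem_union] at h ⊢
    rcases h with h | h
    · obtain ⟨m, hm, h⟩ := iA h; exact ⟨m, Or.inl hm, h⟩
    · obtain ⟨m, hm, h⟩ := iB h; exact ⟨m, Or.inr hm, h⟩

theorem PP_vars {z β b n w k x : ℕ} {vv : ℕ → ℕ} (h : x ∈ (PP z β b n vv w k).vars) :
    x = z ∨ ∃ q < n, x = vv q := by
  unfold PP at h
  rcases disjL_vars h with h | ⟨D, hD, h⟩
  · exact Or.inl h
  · simp only [List.mem_map] at hD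
    obtain ⟨l, _, rfl⟩ := hD
    rcases EE_vars h with h | ⟨i, _, h2, h3⟩
    · exact Or.inl h
    · exact Or.inr ⟨_, h2, h3⟩

theorem DM_vars {z β b n w j r x : ℕ} {vv : ℕ → ℕ} {Z : Fm}
    (h : x ∈ (DM z β b n vv w j r Z).vars) : x ∈ Z.vars ∨ x = z ∨ ∃ q < n, x = vv q := by
  unfold DM at h
  rcases dj_vars h with h | ⟨D, hD, h⟩
  · left; simpa [vars] using h
  · simp only [List.mem_map] at hD
    obtain ⟨l, _, rfl⟩ := hD
    exact Or.inr (PP_vars h)

theorem t_dfin (F : List Rule) (hF : IsFrege F) (h1 : S_tt F) (h2 : S_frepl F)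
    (h3 : S_fsub F) : S_dfin F := by
  obtain ⟨ck, hk⟩ := key hF h1
  obtain ⟨cf, hf⟩ := h2
  obtain ⟨cs, hs⟩ := h3
  obtain ⟨ci, hi⟩ := schemaC1 hF (iff (var 0) (var 1)) (imp (var 0) (var 1)) (by
    intro v h; simp [eval, iff] at h ⊢; tauto)
  refine ⟨45 + (ck + 90 * cf + 45 * ci) + 90 * cs, ?_⟩
  intro z w β b n N₀ t X code W hS A idx vv hE hb1 hbβ hn hw hzA htA hAW hcode Γ hΓ
  generalize hT : A.size + w + 2 ^ β = T
  have hq : 1 ≤ 2 ^ β := Nat.one_le_two_pow
  have hT1 : 1 ≤ T := by omega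
  have hAT : A.size ≤ T := by omega
  set D : ℕ → Fm := fun m => DM z β b n vv w (idx m / b) (idx m % b)
    (PP z β b n vv w (code z)) with hD
  have hidx : ∀ m ∈ A.vars, idx m / b < w ∧ idx m % b < b ∧ idx m / b * b + idx m % b = idx m := by
    intro m hm
    have h4 := (hE.h1 m hm).1
    refine ⟨?_, Nat.mod_lt _ (by omega), Nat.div_add_mod' _ _⟩
    exact Nat.div_lt_of_lt_mul (by rw [Nat.mul_comm]; omega)
  have hB : ((A.subst (fun m => dec z b (fun α => N₀ + (idx m / b * 2 ^ b + α))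
      (idx m % b))).subst (del z w β t code)).subst (thet z b n vv t) = A.subst D := by
    rw [subst_subst, subst_subst]
    refine subst_congr fun m hm => ?_
    rw [hD]
    obtain ⟨h5, h6, h7⟩ := hidx m hm
    have h8 := DM_eq (z := z) (β := β) (b := b) (n := n) (w := w) (N₀ := N₀) (j := idx m / b)
      (r := idx m % b) (vv := vv) (t := t) (code := code) hS.tinj hS.tz fun α hα =>
        hcode (idx m / b * 2 ^ b + α) ?_
    · rw [subst_subst] at h8
      exact h8
    calc idx m / b * 2 ^ b + α < idx m / b * 2 ^ b + 2 ^ b := by omega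
      _ = (idx m / b + 1) * 2 ^ b := by ring
      _ ≤ w * 2 ^ b := Nat.mul_le_mul_right _ h5
  have hDs : ∀ m, (D m).size ≤ 45 * T ^ 3 := fun m => DM_size hbβ (by omega) (PP_size (by omega))
  have hM1 : 1 ≤ 45 * T ^ 3 := by
    have := Nat.one_le_pow 3 T hT1
    omega
  have hADs : (A.subst D).size ≤ 45 * T ^ 4 := by
    refine (size_subst_le hM1 fun m _ => hDs m).trans ?_
    calc A.size * (45 * T ^ 3) ≤ T * (45 * T ^ 3) := Nat.mul_le_mul_right _ hAT
      _ = 45 * T ^ 4 := by ring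
  have hA4 : A.size ≤ 45 * T ^ 4 := by
    have := Nat.le_self_pow (n := 4) (by norm_num) T
    omega
  have hDv : ∀ x ∈ (A.subst D).vars, x ∈ W := by
    intro x hx
    obtain ⟨m, hm, h⟩ := mem_vars_subst hx
    rcases DM_vars h with h | h | ⟨q, hq, h⟩
    · rcases PP_vars h with h | ⟨q, hq, h⟩
      · rw [h]; exact hS.zW
      · rw [h]; exact hAW (hE.h2 q hq).1
    · rw [h]; exact hS.zW
    · rw [h]; exact hAW (hE.h2 q hq).1
  have hiff : ∀ m ∈ A.vars, FC F (iff (D m) (var m)) (ck * T ^ 11) := by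
    intro m hm
    obtain ⟨h5, h6, h7⟩ := hidx m hm
    have h8 := hk z w β b n vv (idx m / b) (idx m % b) (PP z β b n vv w (code z)) T hbβ hw h5 h6
      (by rw [h7]; exact (hE.h1 m hm).1) (by omega) (PP_size (by omega))
    rw [h7, (hE.h1 m hm).2] at h8
    exact h8
  have h9 := hf A D var (ck * T ^ 11) (45 * T ^ 4) hADs (by rw [subst_var]; exact hA4) hiff
  rw [subst_var] at h9
  have h10 : FC F (imp (A.subst D) A)
      (A.size * (ck * T ^ 11) + cf * (45 * T ^ 4) * (A.size + 1) + ci * (45 * T ^ 4)) := by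
    have := hi [A.subst D, A] (45 * T ^ 4) _ (by
      have := Nat.one_le_pow 4 T hT1
      omega) (by
      intro X hX; simp at hX; rcases hX with rfl | rfl; exacts [hADs, hA4])
      (by simpa [subst, asg, iff] using h9)
    simpa [subst, asg] using this
  have h11 := hs W (A.subst D) A _ hDv hAW h10 {A.subst D} rfl
  intro L hL hΓL
  have hstep : SubProof F W (A.subst D :: L) :=
    SubProof.sub hL ⟨_, hΓL _ hΓ, thet z b n vv t, hB.symm⟩ hDv
  obtain ⟨D', h12, h13, h14⟩ := h11 (A.subst D :: L) hstep (by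
    intro Y hY
    rw [Set.mem_singleton_iff] at hY
    rw [hY]; simp)
  refine ⟨D' ++ [A.subst D], by simpa using h12, ?_, ?_⟩
  · intro Y hY
    simpa using h13 Y hY
  · rw [psize_append, psize_cons]
    have h15 : psize ([] : List Fm) = 0 := rfl
    rw [h15]
    have g4 : T ^ 4 ≤ T ^ 30 := Nat.pow_le_pow_right hT1 (by norm_num)
    have g5 : T ^ 5 ≤ T ^ 30 := Nat.pow_le_pow_right hT1 (by norm_num)
    have g12 : T ^ 12 ≤ T ^ 30 := Nat.pow_le_pow_right hT1 (by norm_num)
    have e1 : A.size * (ck * T ^ 11) ≤ ck * T ^ 30 := by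
      calc A.size * (ck * T ^ 11) ≤ T * (ck * T ^ 11) := Nat.mul_le_mul_right _ hAT
        _ = ck * T ^ 12 := by ring
        _ ≤ ck * T ^ 30 := Nat.mul_le_mul_left _ g12
    have e2 : cf * (45 * T ^ 4) * (A.size + 1) ≤ 90 * cf * T ^ 30 := by
      calc cf * (45 * T ^ 4) * (A.size + 1) ≤ cf * (45 * T ^ 4) * (2 * T) :=
            Nat.mul_le_mul_left _ (by omega)
        _ = 90 * cf * T ^ 5 := by ring
        _ ≤ 90 * cf * T ^ 30 := Nat.mul_le_mul_left _ g5
    have e3 : ci * (45 * T ^ 4) ≤ 45 * ci * T ^ 30 := by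
      calc ci * (45 * T ^ 4) = 45 * ci * T ^ 4 := by ring
        _ ≤ 45 * ci * T ^ 30 := Nat.mul_le_mul_left _ g4
    have e4 : cs * ((A.subst D).size + A.size) ≤ 90 * cs * T ^ 30 := by
      calc cs * ((A.subst D).size + A.size) ≤ cs * (45 * T ^ 4 + 45 * T ^ 4) :=
            Nat.mul_le_mul_left _ (by omega)
        _ = 90 * cs * T ^ 4 := by ring
        _ ≤ 90 * cs * T ^ 30 := Nat.mul_le_mul_left _ g4
    have e5 : (A.subst D).size ≤ 45 * T ^ 30 := hADs.trans (Nat.mul_le_mul_left _ g4)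
    have e6 : (45 + (ck + 90 * cf + 45 * ci) + 90 * cs) * T ^ 30 =
      45 * T ^ 30 + (ck * T ^ 30 + 90 * cf * T ^ 30 + 45 * ci * T ^ 30) +
        90 * cs * T ^ 30 := by ring
    rw [e6]
    omega

end Pool.Agent.H586P.T_dfin
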