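import Pool.Agent.H586P.Defs3

set_option autoImplicit false

namespace Pool.Agent.H586P.T_dloop

open Pool.Agent.H586P Pool.Agent.H555R2.PF Pool.Agent.H555R2.PF.Fm

theorem vars_subst {σ : ℕ → Fm} {n : ℕ} : ∀ {A : Fm}, n ∈ (A.subst σ).vars →
    ∃ m ∈ A.vars, n ∈ (σ m).vars := by
  intro A
  induction A with
  | var m => intro h; exact ⟨m, by simp [vars], h⟩
  | neg A ih => intro h; exact ih h
  | and A B iA iB =>
    intro h
    simp only [subst, vars, Finset.mem_union] at h
    rcases h with h | h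
    · obtain ⟨m, hm, h⟩ := iA h
      exact ⟨m, by simp [vars, hm], h⟩
    · obtain ⟨m, hm, h⟩ := iB h
      exact ⟨m, by simp [vars, hm], h⟩
  | or A B iA iB =>
    intro h
    simp only [subst, vars, Finset.mem_union] at h
    rcases h with h | h
    · obtain ⟨m, hm, h⟩ := iA h
      exact ⟨m, by simp [vars, hm], h⟩
    · obtain ⟨m, hm, h⟩ := iB h
      exact ⟨m, by simp [vars, hm], h⟩
  | imp A B iA iB =>
    intro h
    simp only [subst, vars, Finset.mem_union] at h
    rcases h with h | h
    · obtain ⟨m, hm, h⟩ := iA h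
      exact ⟨m, by simp [vars, hm], h⟩
    · obtain ⟨m, hm, h⟩ := iB h
      exact ⟨m, by simp [vars, hm], h⟩

theorem psize_le {l : List Fm} {K : ℕ} (h : ∀ X ∈ l, X.size ≤ K) : psize l ≤ l.length * K := by
  induction l with
  | nil => simp [psize]
  | cons X l ih =>
    rw [psize_cons, List.length_cons]
    have h1 := h X (by simp)
    have h2 := ih fun Y hY => h Y (by simp [hY])
    nlinarith

theorem eqc_size (z β : ℕ) (t : ℕ → ℕ) (a : ℕ) :
    (eqc z β (fun i => var (t i)) a).size ≤ 3 * β + 3 := by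
  unfold eqc
  rw [conjL_size]
  have h : psize ((List.range β).map fun i =>
      if a.testBit i = true then var (t i) else neg (var (t i))) ≤ β * 2 := by
    have := psize_le (l := (List.range β).map fun i =>
      if a.testBit i = true then var (t i) else neg (var (t i))) (K := 2) (by
        intro X hX
        obtain ⟨i, _, rfl⟩ := List.mem_map.1 hX
        split_ifs <;> simp [size])
    simpa using this
  simp only [List.length_map, List.length_range]
  omega

theorem del_size (z w β : ℕ) (t : ℕ → ℕ → ℕ) (code : ℕ → ℕ) (v : ℕ) :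
    (del z w β t code v).size ≤ w * (3 * β + 4) + 4 := by
  unfold del posF
  rw [disjL_size]
  have h : psize ((List.range w).map fun l =>
      eqc z β ((fun l i => var (t l i)) l) (code v)) ≤ w * (3 * β + 3) := by
    have := psize_le (l := (List.range w).map fun l =>
      eqc z β ((fun l i => var (t l i)) l) (code v)) (K := 3 * β + 3) (by
        intro X hX
        obtain ⟨i, _, rfl⟩ := List.mem_map.1 hX
        exact eqc_size z β (t i) (code v))
    simpa using this
  simp only [List.length_map, List.length_range]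
  nlinarith

theorem del_vars (z w β : ℕ) (t : ℕ → ℕ → ℕ) (code : ℕ → ℕ) (v n : ℕ)
    (h : n ∈ (del z w β t code v).vars) : n = z ∨ ∃ l < w, ∃ i < β, n = t l i := by
  unfold del posF at h
  rcases disjL_vars h with h | ⟨X, hX, h⟩
  · exact Or.inl h
  · obtain ⟨l, hl, rfl⟩ := List.mem_map.1 hX
    rw [List.mem_range] at hl
    unfold eqc at h
    rcases conjL_vars h with h | ⟨Y, hY, h⟩
    · exact Or.inl h
    · obtain ⟨i, hi, rfl⟩ := List.mem_map.1 hY
      rw [List.mem_range] at hi
      right
      refine ⟨l, hl, i, hi, ?_⟩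
      split_ifs at h <;> simpa [vars] using h

theorem fin_arith (c M l : ℕ) (hM : 1 ≤ M) (hl : l ≤ M) : c * M ^ 30 * l ≤ c * M ^ 32 := by
  have h1 : M ^ 31 ≤ M ^ 32 := Nat.pow_le_pow_right hM (by norm_num)
  calc c * M ^ 30 * l ≤ c * M ^ 30 * M := Nat.mul_le_mul_left _ hl
    _ = c * M ^ 31 := by ring
    _ ≤ c * M ^ 32 := Nat.mul_le_mul_left _ h1

theorem rule_arith (c M B l S D : ℕ) (hM : 1 ≤ M) (hB : B ≤ M) (hS : S ≤ B * (11 * M ^ 2))
    (hD : D ≤ (c + 11) * M ^ 30 * l) : S + D ≤ (c + 11) * M ^ 30 * (l + 1) := by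
  have e7 : M ^ 3 ≤ M ^ 30 := Nat.pow_le_pow_right hM (by norm_num)
  have e5 : B * (11 * M ^ 2) ≤ M * (11 * M ^ 2) := Nat.mul_le_mul_right _ hB
  have e6 : M * (11 * M ^ 2) = 11 * M ^ 3 := by ring
  have e8 : (c + 11) * M ^ 30 * (l + 1) = (c + 11) * M ^ 30 * l + c * M ^ 30 + 11 * M ^ 30 := by
    ring
  rw [e8]
  have e9 : 0 ≤ c * M ^ 30 := Nat.zero_le _
  omega

theorem perm_arith (c M a l D D' : ℕ) (ha : a ≤ M) (hD' : D' ≤ c * a ^ 30)
    (hD : D ≤ (c + 11) * M ^ 30 * l) : D' + D ≤ (c + 11) * M ^ 30 * (l + 1) := by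
  have e7 : c * a ^ 30 ≤ c * M ^ 30 := Nat.mul_le_mul_left _ (Nat.pow_le_pow_left ha _)
  have e8 : (c + 11) * M ^ 30 * (l + 1) = (c + 11) * M ^ 30 * l + c * M ^ 30 + 11 * M ^ 30 := by
    ring
  rw [e8]
  omega

theorem del_size' (z w β : ℕ) (t : ℕ → ℕ → ℕ) (code : ℕ → ℕ) (v M : ℕ) (hM : 1 ≤ M)
    (hw : w ≤ M) (hb : β ≤ M) : (del z w β t code v).size ≤ 11 * M ^ 2 := by
  refine (del_size z w β t code v).trans ?_
  have e3 : w * (3 * β + 4) ≤ M * (3 * M + 4) := Nat.mul_le_mul hw (by omega)
  nlinarith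

theorem t_dloop (F : List Rule) (hF : IsFrege F) (h1 : S_dstep F) : S_dloop F := by
  obtain ⟨c₁, h1⟩ := h1
  refine ⟨c₁ + 11, ?_⟩
  intro z w β t X code W hS
  have key : ∀ M : ℕ, ∀ L : List Fm, PermProof F L → (∀ B ∈ L, B.vars ⊆ X) →
      psize L + w + 2 ^ β ≤ M → ∀ Γ : Set Fm,
      CanS F W Γ (L.map fun B => B.subst (del z w β t code)) ((c₁ + 11) * M ^ 30 * L.length) := by
    intro M L hL
    induction hL with
    | nil =>
      intro _ _ Γ L0 hL0 _
      exact ⟨[], hL0, by simp, by simp [psize]⟩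
    | @rule L B hL hstep ih =>
      intro hX hM Γ L0 hL0 hΓ
      rw [psize_cons] at hM
      obtain ⟨D, hD, hG, hs⟩ := ih (fun B hB => hX B (by simp [hB])) (by omega) Γ L0 hL0 hΓ
      have hB1 := size_pos B
      have hβ : β < 2 ^ β := Nat.lt_two_pow_self
      have hM1 : 1 ≤ M := by omega
      have hds : ∀ n, (del z w β t code n).size ≤ 11 * M ^ 2 := fun n =>
        del_size' z w β t code n M hM1 (by omega) (by omega)
      refine ⟨B.subst (del z w β t code) :: D, ?_, ?_, ?_⟩
      · refine SubProof.rule hD ?_ ?_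
        · obtain ⟨r, hr, σ, rfl, hp⟩ := hstep
          refine ⟨r, hr, fun n => (σ n).subst (del z w β t code), ?_, ?_⟩
          · rw [subst_subst]
          · intro p hpp
            rw [← subst_subst]
            exact hG _ (List.mem_map.2 ⟨_, hp p hpp, rfl⟩)
        · intro n hn
          obtain ⟨m, _, hn⟩ := vars_subst hn
          rcases del_vars z w β t code m n hn with rfl | ⟨l, hl, i, hi, rfl⟩
          · exact hS.zW
          · exact hS.tW l hl i hi
      · intro Y hY
        rw [List.map_cons, List.mem_cons] at hY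
        rcases hY with rfl | hY
        · simp
        · exact List.mem_cons_of_mem _ (hG Y hY)
      · rw [psize_cons, List.length_cons]
        have e4 : (B.subst (del z w β t code)).size ≤ B.size * (11 * M ^ 2) :=
          size_subst_le (by nlinarith [Nat.one_le_pow 2 M hM1]) fun n _ => hds n
        exact rule_arith c₁ M B.size L.length _ _ hM1 (by omega) e4 hs
    | @perm L B hL hstep ih =>
      intro hX hM Γ L0 hL0 hΓ
      rw [psize_cons] at hM
      obtain ⟨D, hD, hG, hs⟩ := ih (fun B hB => hX B (by simp [hB])) (by omega) Γ L0 hL0 hΓ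
      obtain ⟨A, hA, π, hπ, rfl⟩ := hstep
      obtain ⟨D', hD', hG', hs'⟩ := h1 z w β t X code W hS A π (hX A (by simp [hA])) hπ
        {A.subst (del z w β t code)} (by simp) (D ++ L0) hD (by
          intro Y hY
          rw [Set.mem_singleton_iff] at hY
          subst hY
          exact hG _ (List.mem_map.2 ⟨_, hA, rfl⟩))
      refine ⟨D' ++ D, by simpa using hD', ?_, ?_⟩
      · intro Y hY
        rw [List.map_cons, List.mem_cons] at hY
        rcases hY with rfl | hY
        · simpa using hG' _ (by simp)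
        · have := hG Y hY
          rw [List.append_assoc]
          exact List.mem_append_right _ this
      · rw [psize_append, List.length_cons]
        have e1 := size_le_psize hA
        exact perm_arith c₁ M (A.size + w + 2 ^ β) L.length _ _ (by omega) hs' hs
  intro L hL hX Γ L0 hL0 hΓ
  obtain ⟨D, hD, hG, hs⟩ := key _ L hL hX le_rfl Γ L0 hL0 hΓ
  refine ⟨D, hD, hG, hs.trans ?_⟩
  have e1 := length_le_psize L
  have e2 : 1 ≤ 2 ^ β := Nat.one_le_two_pow
  exact fin_arith _ _ _ (by omega) (by omega)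

end Pool.Agent.H586P.T_dloop
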