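import Pool.Agent.H586P.Defs3

/-! Task dperm of helper586's project (by helper747): moving positions by a permutation. -/

set_option autoImplicit false

namespace Pool.Agent.H586P.T_dperm

open Pool.Agent.H586P Pool.Agent.H555R2.PF Pool.Agent.H555R2.PF.Fm

theorem eval_conjL (v : ℕ → Prop) (z : ℕ) : ∀ l : List Fm,
    (conjL z l).eval v ↔ ∀ D ∈ l, D.eval v
  | [] => by simp [conjL, eval]
  | D :: l => by
    simp only [conjL, eval, eval_conjL v z l, List.mem_cons, forall_eq_or_imp]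

theorem eval_disjL (v : ℕ → Prop) (z : ℕ) : ∀ l : List Fm,
    (disjL z l).eval v ↔ ∃ D ∈ l, D.eval v
  | [] => by simp [disjL, eval]
  | D :: l => by
    simp only [disjL, eval, eval_disjL v z l, List.mem_cons, exists_eq_or_imp]

theorem eval_eqc (v : ℕ → Prop) (z β : ℕ) (τ : ℕ → Fm) (a : ℕ) :
    (eqc z β τ a).eval v ↔ ∀ i < β, ((τ i).eval v ↔ a.testBit i = true) := by
  unfold eqc
  rw [eval_conjL]
  simp only [List.mem_map, List.mem_range, forall_exists_index, and_imp]
  constructor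
  · intro h i hi
    have := h _ i hi rfl
    by_cases ha : a.testBit i = true
    · rw [if_pos ha] at this
      exact ⟨fun _ => ha, fun _ => this⟩
    · rw [if_neg ha] at this
      simp only [eval] at this
      exact ⟨fun h' => absurd h' this, fun h' => absurd h' ha⟩
  · rintro h D i hi rfl
    by_cases ha : a.testBit i = true
    · rw [if_pos ha]
      exact (h i hi).2 ha
    · rw [if_neg ha]
      simp only [eval]
      exact fun h' => ha ((h i hi).1 h')

open Classical in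
theorem exists_num (v : ℕ → Prop) (β : ℕ) : ∃ x < 2 ^ β, ∀ i < β, (x.testBit i = true ↔ v i) := by
  refine ⟨Nat.ofBits (fun i : Fin β => decide (v i)), Nat.ofBits_lt_two_pow _, fun i hi => ?_⟩
  rw [Nat.testBit_ofBits_lt _ _ hi]
  simp

theorem num_ext {β x y : ℕ} (hx : x < 2 ^ β) (hy : y < 2 ^ β)
    (h : ∀ i < β, (x.testBit i = true ↔ y.testBit i = true)) : x = y := by
  apply Nat.eq_of_testBit_eq
  intro i
  by_cases hi : i < β
  · exact Bool.eq_iff_iff.2 (h i hi)
  · have h1 : 2 ^ β ≤ 2 ^ i := Nat.pow_le_pow_right (by norm_num) (by omega)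
    rw [Nat.testBit_lt_two_pow (hx.trans_le h1), Nat.testBit_lt_two_pow (hy.trans_le h1)]

theorem eval_eqc_var {v : ℕ → Prop} {z β x y : ℕ} {t : ℕ → ℕ} (hx : x < 2 ^ β) (hy : y < 2 ^ β)
    (h : ∀ i < β, (x.testBit i = true ↔ v (t i))) :
    (eqc z β (fun i => var (t i)) y).eval v ↔ x = y := by
  rw [eval_eqc]
  constructor
  · intro h1
    refine num_ext hx hy fun i hi => ?_
    rw [h i hi]
    exact h1 i hi
  · rintro rfl i hi
    exact (h i hi).symm

theorem eval_rhoF {v : ℕ → Prop} {z β x : ℕ} {t : ℕ → ℕ} (ρ : ℕ → ℕ) (hx : x < 2 ^ β)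
    (h : ∀ i < β, (x.testBit i = true ↔ v (t i))) (i : ℕ) :
    (rhoF z β ρ t i).eval v ↔ (ρ x).testBit i = true := by
  unfold rhoF
  rw [eval_disjL]
  simp only [List.mem_map, List.mem_filter, List.mem_range]
  constructor
  · rintro ⟨D, ⟨y, ⟨hy, hyi⟩, rfl⟩, hD⟩
    rw [eval_eqc_var hx hy h] at hD
    rw [hD]; exact hyi
  · intro h1
    exact ⟨_, ⟨x, ⟨hx, h1⟩, rfl⟩, (eval_eqc_var hx hx h).2 rfl⟩

/-- the formula for one position -/
def Cl (z β a b' : ℕ) (t : ℕ → ℕ) (ρ : ℕ → ℕ) : Fm :=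
  iff (eqc z β (fun i => rhoF z β ρ t i) a) (eqc z β (fun i => var (t i)) b')

theorem Cl_valid {z β a b' : ℕ} {t : ℕ → ℕ} {ρ : ℕ → ℕ} (ha : a < 2 ^ β) (hb : b' < 2 ^ β)
    (hρ : ∀ x < 2 ^ β, ρ x < 2 ^ β) (hab : ∀ x < 2 ^ β, (ρ x = a ↔ x = b')) (v : ℕ → Prop) :
    (Cl z β a b' t ρ).eval v := by
  obtain ⟨x, hx, hxv⟩ := exists_num (fun i => v (t i)) β
  have h1 : (eqc z β (fun i => rhoF z β ρ t i) a).eval v ↔ ρ x = a := by
    rw [eval_eqc]
    constructor
    · intro h
      refine num_ext (hρ x hx) ha fun i hi => ?_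
      rw [← eval_rhoF (z := z) ρ hx hxv i]
      exact h i hi
    · intro h i _
      rw [eval_rhoF ρ hx hxv i, h]
  have h2 : (eqc z β (fun i => var (t i)) b').eval v ↔ x = b' := eval_eqc_var hx hb hxv
  unfold Cl
  simp only [iff, eval]
  rw [h1, h2]
  exact ⟨(hab x hx).1, (hab x hx).2⟩

theorem psize_le {l : List Fm} {M : ℕ} (h : ∀ D ∈ l, D.size ≤ M) : psize l ≤ l.length * M := by
  induction l with
  | nil => simp [psize]
  | cons D l ih =>
    rw [psize_cons, List.length_cons]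
    have h1 := h D (by simp)
    have h2 := ih fun D hD => h D (by simp [hD])
    nlinarith

theorem eqc_size {z β a s : ℕ} {τ : ℕ → Fm} (h : ∀ i < β, (τ i).size ≤ s) :
    (eqc z β τ a).size ≤ β * (s + 2) + 3 := by
  unfold eqc
  rw [conjL_size, List.length_map, List.length_range]
  have h1 := psize_le (l := (List.range β).map fun i => if a.testBit i = true then τ i
    else neg (τ i)) (M := s + 1) (by
      intro D hD
      rw [List.mem_map] at hD
      obtain ⟨i, hi, rfl⟩ := hD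
      rw [List.mem_range] at hi
      have := h i hi
      split_ifs
      · omega
      · simp only [size]; omega)
  rw [List.length_map, List.length_range] at h1
  nlinarith

theorem rhoF_size (z β : ℕ) (ρ t : ℕ → ℕ) (i : ℕ) :
    (rhoF z β ρ t i).size ≤ 2 ^ β * (3 * β + 4) + 4 := by
  unfold rhoF
  rw [disjL_size, List.length_map]
  have hlen : ((List.range (2 ^ β)).filter (fun x => (ρ x).testBit i)).length ≤ 2 ^ β := by
    refine (List.length_filter_le _ _).trans ?_
    rw [List.length_range]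
  have h1 := psize_le (l := ((List.range (2 ^ β)).filter (fun x => (ρ x).testBit i)).map
    fun x => eqc z β (fun e => var (t e)) x) (M := 3 * β + 3) (by
      intro D hD
      rw [List.mem_map] at hD
      obtain ⟨x, _, rfl⟩ := hD
      have := eqc_size (z := z) (β := β) (a := x) (s := 1) (τ := fun e => var (t e))
        (fun i _ => by simp [size])
      omega)
  rw [List.length_map] at h1
  have h2 : ((List.range (2 ^ β)).filter (fun x => (ρ x).testBit i)).length * (3 * β + 3)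
      ≤ 2 ^ β * (3 * β + 3) := Nat.mul_le_mul_right _ hlen
  nlinarith

theorem eqc_vars {z β a : ℕ} {τ : ℕ → Fm} {n : ℕ} (h : n ∈ (eqc z β τ a).vars) :
    n = z ∨ ∃ i < β, n ∈ (τ i).vars := by
  unfold eqc at h
  rcases conjL_vars h with h | ⟨D, hD, hn⟩
  · exact Or.inl h
  · rw [List.mem_map] at hD
    obtain ⟨i, hi, rfl⟩ := hD
    rw [List.mem_range] at hi
    refine Or.inr ⟨i, hi, ?_⟩
    split_ifs at hn
    · exact hn
    · simpa [vars] using hn

theorem eqcv_vars {z β a : ℕ} {t : ℕ → ℕ} {n : ℕ}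
    (h : n ∈ (eqc z β (fun i => var (t i)) a).vars) : n = z ∨ ∃ i < β, n = t i := by
  rcases eqc_vars h with h | ⟨i, hi, hn⟩
  · exact Or.inl h
  · exact Or.inr ⟨i, hi, by simpa [vars] using hn⟩

theorem rhoF_vars {z β i : ℕ} {ρ t : ℕ → ℕ} {n : ℕ} (h : n ∈ (rhoF z β ρ t i).vars) :
    n = z ∨ ∃ i < β, n = t i := by
  unfold rhoF at h
  rcases disjL_vars h with h | ⟨D, hD, hn⟩
  · exact Or.inl h
  · rw [List.mem_map] at hD
    obtain ⟨x, _, rfl⟩ := hD
    exact eqcv_vars hn

theorem Cl_vars (z β a b' : ℕ) (t : ℕ → ℕ) (ρ : ℕ → ℕ) :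
    (Cl z β a b' t ρ).vars.card ≤ β + 1 := by
  have h : (Cl z β a b' t ρ).vars ⊆ insert z ((Finset.range β).image t) := by
    intro n hn
    have key : n = z ∨ ∃ i < β, n = t i := by
      simp only [Cl, iff, vars, Finset.mem_union] at hn
      have h1 : ∀ {n}, n ∈ (eqc z β (fun i => rhoF z β ρ t i) a).vars →
          n = z ∨ ∃ i < β, n = t i := by
        intro n hn
        rcases eqc_vars hn with h | ⟨i, _, h⟩
        · exact Or.inl h
        · exact rhoF_vars h
      rcases hn with (hn | hn) | (hn | hn)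
      · exact h1 hn
      · exact eqcv_vars hn
      · exact eqcv_vars hn
      · exact h1 hn
    rw [Finset.mem_insert, Finset.mem_image]
    rcases key with h | ⟨i, hi, h⟩
    · exact Or.inl h
    · exact Or.inr ⟨i, Finset.mem_range.2 hi, h.symm⟩
  refine (Finset.card_le_card h).trans ((Finset.card_insert_le _ _).trans ?_)
  have := Finset.card_image_le (s := Finset.range β) (f := t)
  rw [Finset.card_range] at this
  omega

theorem e1_size (z β b' : ℕ) (t : ℕ → ℕ) :
    (eqc z β (fun i => var (t i)) b').size ≤ 6 * 2 ^ β := by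
  have h := eqc_size (z := z) (β := β) (a := b') (s := 1) (τ := fun e => var (t e))
    (fun i _ => by simp [size])
  have h1 : β < 2 ^ β := Nat.lt_two_pow_self
  omega

theorem e2_size (z β a : ℕ) (ρ t : ℕ → ℕ) :
    (eqc z β (fun i => rhoF z β ρ t i) a).size ≤ 16 * (2 ^ β) ^ 3 := by
  have h1 : β < 2 ^ β := Nat.lt_two_pow_self
  have h := eqc_size (z := z) (β := β) (a := a) (s := 11 * (2 ^ β) ^ 2)
    (τ := fun i => rhoF z β ρ t i) (fun i _ => by
      refine (rhoF_size z β ρ t i).trans ?_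
      generalize 2 ^ β = T at h1 ⊢
      nlinarith)
  refine h.trans ?_
  generalize 2 ^ β = T at h1 ⊢
  have hT : 1 ≤ T := by omega
  have h2 : β * (11 * T ^ 2 + 2) ≤ T * (11 * T ^ 2 + 2) := Nat.mul_le_mul_right _ (by omega)
  have h3 : T ≤ T ^ 3 := Nat.le_self_pow (by norm_num) T
  nlinarith

theorem Cl_size (z β a b' : ℕ) (t : ℕ → ℕ) (ρ : ℕ → ℕ) :
    (Cl z β a b' t ρ).size ≤ 47 * (2 ^ β) ^ 3 := by
  have h1 := e1_size z β b' t
  have h2 := e2_size z β a ρ t
  have hT : 1 ≤ 2 ^ β := Nat.one_le_two_pow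
  have e : (Cl z β a b' t ρ).size = 2 * ((eqc z β (fun i => rhoF z β ρ t i) a).size +
      (eqc z β (fun i => var (t i)) b').size) + 3 := by
    simp only [Cl, iff, size]; ring
  rw [e]
  generalize 2 ^ β = T at h1 h2 hT ⊢
  have h3 : T ≤ T ^ 3 := Nat.le_self_pow (by norm_num) T
  omega

theorem disjL_subst {z : ℕ} {σ : ℕ → Fm} (hz : σ z = var z) : ∀ l : List Fm,
    (disjL z l).subst σ = disjL z (l.map fun X => X.subst σ)
  | [] => by simp [disjL, subst, hz]
  | D :: l => by simp [disjL, subst, disjL_subst hz l]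

theorem disjL_map_size {z w : ℕ} {f : ℕ → Fm} {M : ℕ} (h : ∀ l < w, (f l).size ≤ M) :
    (disjL z ((List.range w).map f)).size ≤ w * (M + 1) + 4 := by
  rw [disjL_size, List.length_map, List.length_range]
  have h1 := psize_le (l := (List.range w).map f) (M := M) (by
    intro D hD
    rw [List.mem_map] at hD
    obtain ⟨l, hl, rfl⟩ := hD
    exact h l (List.mem_range.1 hl))
  rw [List.length_map, List.length_range] at h1
  nlinarith

theorem t_dperm (F : List Rule) (hF : IsFrege F) (h1 : S_tt F) (h2 : S_frepl F) : S_dperm F := by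
  obtain ⟨c₁, h₁⟩ := h1
  obtain ⟨c₂, h₂⟩ := h2
  refine ⟨12 * 47 ^ 4 * c₁ + 147 * c₂, ?_⟩
  intro z w β a b' t ρ _ _ ha hb hρ hab
  have hT : 1 ≤ 2 ^ β := Nat.one_le_two_pow
  set S : ℕ := w + 2 ^ β with hS
  have hS1 : 1 ≤ S := by omega
  have hTS : 2 ^ β ≤ S := by omega
  have hwS : w ≤ S := by omega
  set B : Fm := disjL z ((List.range w).map fun l => var (z + 1 + l)) with hB
  set σ : ℕ → Fm := fun n => if n = z then var z else
    eqc z β (fun i => rhoF z β ρ (t (n - (z + 1))) i) a with hσ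
  set τ : ℕ → Fm := fun n => if n = z then var z else
    eqc z β (fun i => var (t (n - (z + 1)) i)) b' with hτ
  have hσz : σ z = var z := by simp [hσ]
  have hτz : τ z = var z := by simp [hτ]
  have hσl : ∀ l, σ (z + 1 + l) = eqc z β (fun i => rhoF z β ρ (t l) i) a := by
    intro l
    simp only [hσ]
    rw [if_neg (by omega), Nat.add_sub_cancel_left]
  have hτl : ∀ l, τ (z + 1 + l) = eqc z β (fun i => var (t l i)) b' := by
    intro l
    simp only [hτ]
    rw [if_neg (by omega), Nat.add_sub_cancel_left]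
  have eσ : B.subst σ = posF z w β (fun l i => rhoF z β ρ (t l) i) a := by
    rw [hB, disjL_subst hσz, List.map_map]
    unfold posF
    congr 1
    refine List.map_congr_left fun l _ => ?_
    simp only [Function.comp_apply, subst]
    exact hσl l
  have eτ : B.subst τ = posF z w β (fun l i => var (t l i)) b' := by
    rw [hB, disjL_subst hτz, List.map_map]
    unfold posF
    congr 1
    refine List.map_congr_left fun l _ => ?_
    simp only [Function.comp_apply, subst]
    exact hτl l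
  have hS3 : (2 ^ β) ^ 3 ≤ S ^ 3 := Nat.pow_le_pow_left hTS 3
  have hwS3 : w * (2 ^ β) ^ 3 ≤ S ^ 4 := by
    calc w * (2 ^ β) ^ 3 ≤ S * S ^ 3 := Nat.mul_le_mul hwS hS3
      _ = S ^ 4 := by ring
  have hS4 : 1 ≤ S ^ 4 := Nat.one_le_pow _ _ hS1
  have hwS4 : w ≤ S ^ 4 := hwS.trans (Nat.le_self_pow (by norm_num) S)
  have sσ : (B.subst σ).size ≤ 21 * S ^ 4 := by
    rw [eσ]
    unfold posF
    refine (disjL_map_size (M := 16 * (2 ^ β) ^ 3) fun l _ => e2_size z β a ρ (t l)).trans ?_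
    nlinarith
  have sτ : (B.subst τ).size ≤ 21 * S ^ 4 := by
    rw [eτ]
    unfold posF
    refine (disjL_map_size (M := 16 * (2 ^ β) ^ 3) fun l _ => ?_).trans ?_
    · refine (e1_size z β b' (t l)).trans ?_
      have h3 : 2 ^ β ≤ (2 ^ β) ^ 3 := Nat.le_self_pow (by norm_num) _
      omega
    · nlinarith
  have sB : B.size ≤ 6 * S := by
    have : B.size ≤ w * (1 + 1) + 4 := by
      rw [hB]
      exact disjL_map_size fun l _ => by simp [size]
    omega
  have hvars : ∀ n ∈ B.vars, n = z ∨ ∃ l < w, n = z + 1 + l := by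
    intro n hn
    rw [hB] at hn
    rcases disjL_vars hn with h | ⟨D, hD, hn⟩
    · exact Or.inl h
    · rw [List.mem_map] at hD
      obtain ⟨l, hl, rfl⟩ := hD
      exact Or.inr ⟨l, List.mem_range.1 hl, by simpa [vars] using hn⟩
  have hS13 : 1 ≤ S ^ 13 := Nat.one_le_pow _ _ hS1
  have main := h₂ B σ τ (2 * 47 ^ 4 * c₁ * S ^ 13) (21 * S ^ 4) sσ sτ (by
    intro n hn
    rcases hvars n hn with rfl | ⟨l, hl, rfl⟩
    · rw [hσz, hτz]
      refine FO.Can.mono (h₁ (iff (var n) (var n)) fun v => by simp [iff, eval]) subset_rfl ?_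
      have e1 : (iff (var n) (var n)).size = 7 := by simp [iff, size]
      have e2 : (iff (var n) (var n)).vars.card = 1 := by simp [iff, vars]
      rw [e1, e2]
      calc c₁ * 7 ^ 4 * 2 ^ 1 ≤ (2 * 47 ^ 4 * c₁) * 1 := by nlinarith [Nat.zero_le c₁]
        _ ≤ (2 * 47 ^ 4 * c₁) * S ^ 13 := Nat.mul_le_mul_left _ hS13
    · rw [hσl, hτl]
      refine FO.Can.mono (h₁ (Cl z β a b' (t l) ρ) (Cl_valid ha hb hρ hab)) subset_rfl ?_
      have e1 := Cl_size z β a b' (t l) ρ
      have e2 := Cl_vars z β a b' (t l) ρ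
      calc c₁ * (Cl z β a b' (t l) ρ).size ^ 4 * 2 ^ (Cl z β a b' (t l) ρ).vars.card
          ≤ c₁ * (47 * (2 ^ β) ^ 3) ^ 4 * 2 ^ (β + 1) := by
            refine Nat.mul_le_mul (Nat.mul_le_mul_left _ (Nat.pow_le_pow_left e1 4)) ?_
            exact Nat.pow_le_pow_right (by norm_num) e2
        _ = 2 * 47 ^ 4 * c₁ * (2 ^ β) ^ 13 := by ring
        _ ≤ 2 * 47 ^ 4 * c₁ * S ^ 13 := Nat.mul_le_mul_left _ (Nat.pow_le_pow_left hTS 13))
  rw [eσ, eτ] at main
  refine FO.Can.mono main subset_rfl ?_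
  have hS14 : S ^ 14 ≤ S ^ 20 := Nat.pow_le_pow_right hS1 (by norm_num)
  have hS5 : S ^ 5 ≤ S ^ 20 := Nat.pow_le_pow_right hS1 (by norm_num)
  calc B.size * (2 * 47 ^ 4 * c₁ * S ^ 13) + c₂ * (21 * S ^ 4) * (B.size + 1)
      ≤ (6 * S) * (2 * 47 ^ 4 * c₁ * S ^ 13) + c₂ * (21 * S ^ 4) * (7 * S) := by
        refine Nat.add_le_add (Nat.mul_le_mul_right _ sB) (Nat.mul_le_mul_left _ ?_)
        omega
    _ = 12 * 47 ^ 4 * c₁ * S ^ 14 + 147 * c₂ * S ^ 5 := by ring
    _ ≤ 12 * 47 ^ 4 * c₁ * S ^ 20 + 147 * c₂ * S ^ 20 :=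
      Nat.add_le_add (Nat.mul_le_mul_left _ hS14) (Nat.mul_le_mul_left _ hS5)
    _ = (12 * 47 ^ 4 * c₁ + 147 * c₂) * S ^ 20 := by ring

end Pool.Agent.H586P.T_dperm
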