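import Pool.Agent.H586P.Defs3

set_option autoImplicit false

namespace Pool.Agent.H586P.T_efin

open Pool.Agent.H586P Pool.Agent.H555R2.PF Pool.Agent.H555R2.PF.Fm

theorem conjL_rename (z : ℕ) (f : ℕ → ℕ) (l : List Fm) :
    (conjL z l).rename f = conjL (f z) (l.map fun X => X.rename f) := by
  induction l with
  | nil => rfl
  | cons X l ih =>
    show and (X.rename f) ((conjL z l).rename f) = and (X.rename f) _
    rw [ih]

theorem zero_size (N : ℕ) (y : ℕ → ℕ) (Y : ℕ) : (conjL N (zeroL y Y)).size = 3 * Y + 3 := by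
  rw [conjL_size]
  have h : psize (zeroL y Y) = 2 * Y := by
    unfold zeroL psize
    rw [List.map_map]
    have : (Fm.size ∘ fun i => neg (var (y i))) = fun _ => 2 := by
      funext i; simp [size]
    rw [this]
    simp [mul_comm]
  rw [h]
  simp only [zeroL, List.length_map, List.length_range]
  omega

/-- the renaming -/
def rr (N : ℕ) (y : ℕ → ℕ) (Y x : ℕ) : ℕ :=
  if N + 3 ≤ x ∧ (x - (N + 3)) % 3 = 0 ∧ (x - (N + 3)) / 3 < Y then y ((x - (N + 3)) / 3) else x

theorem rr_yv (N : ℕ) (y : ℕ → ℕ) {Y j : ℕ} (hj : j < Y) : rr N y Y (yv N j) = y j := by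
  have h1 : (yv N j - (N + 3)) / 3 = j := by unfold yv; omega
  unfold rr
  rw [h1, if_pos]
  refine ⟨by unfold yv; omega, by unfold yv; omega, hj⟩

theorem rr_low (N : ℕ) (y : ℕ → ℕ) {Y x : ℕ} (hx : x ≤ N) : rr N y Y x = x := by
  unfold rr
  rw [if_neg]
  omega

theorem t_efin (F : List Rule) (hF : IsFrege F) (h1 : S_ren F) (h2 : S_repl F)
    (h3 : S_cintro F) : S_efin F := by
  obtain ⟨cr, hr⟩ := h1
  obtain ⟨cp, hp⟩ := h2
  obtain ⟨c1, q1⟩ := schemaL hF [] (imp (var 0) (iff (or (var 1) (neg (imp (var 2) (var 2))))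
    (var 1))) (by
    intro v _; simp [eval, iff])
  obtain ⟨c2, q2⟩ := schemaL hF [imp (and (imp (var 3) (var 3)) (and (imp (var 3) (var 3))
    (var 0))) (var 1), imp (var 0) (iff (var 1) (var 2))] (imp (var 0) (var 2)) (by
    intro v h; simp [eval, iff] at h ⊢; tauto)
  refine ⟨(12 * c1 + 12 * cp + 12 * c2 + 144 * cr) + 2, ?_⟩
  intro N b ℓ n A idx vv y hE hN hy hyi Γ hEE
  obtain ⟨Y, hY⟩ : ∃ Y, Y = Yr n b 0 := ⟨_, rfl⟩
  rw [← hY] at hy hyi ⊢
  obtain ⟨T, hT⟩ : ∃ T, T = A.size + Y + 1 := ⟨_, rfl⟩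
  rw [← hT]
  obtain ⟨M, hM⟩ : ∃ M, M = 12 * T := ⟨_, rfl⟩
  have hA1 := size_pos A
  have hM1 : 1 ≤ M := by omega
  obtain ⟨Z, hZ⟩ : ∃ Z, Z = conjL N (zeroL (yv N) Y) := ⟨_, rfl⟩
  have hZs : Z.size = 3 * Y + 3 := by rw [hZ]; exact zero_size _ _ _
  obtain ⟨σ, hσ⟩ : ∃ σ : ℕ → Fm, σ = fun m => or (var m) (neg (imp (var N) (var N))) := ⟨_, rfl⟩
  have hEE' : imp (and (imp (var N) (var N)) (and (imp (var N) (var N)) Z)) (A.subst σ) ∈ Γ := by
    have e1 : EE N b ℓ A idx n 0 0 =
        imp (and (imp (var N) (var N)) (and (imp (var N) (var N)) Z)) (A.subst σ) := by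
      unfold EE HE TR
      rw [hZ, hY, hσ]
      simp [Wd, oneL, DD, conjL, disjL]
    rw [← e1]; exact hEE
  have hAσ : (A.subst σ).size ≤ M := by
    refine (size_subst_le (M := 6) (by norm_num) fun m _ => ?_).trans ?_
    · rw [hσ]; simp [size]
    · omega
  have hAv : (A.subst var).size ≤ M := by rw [subst_var]; omega
  have hvs : ∀ x, (var x).size ≤ M := fun x => by simpa [size] using hM1
  have k1 : ∀ m ∈ A.vars.toList, Can F Γ [imp Z (iff (σ m) (var m))] (c1 * M) := by
    intro m _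
    exact (q1 [Z, var m, var N] M hM1 (by
      intro X hX; simp only [List.mem_cons, List.not_mem_nil, or_false] at hX
      rcases hX with rfl | rfl | rfl
      exacts [by omega, hvs _, hvs _]) Γ (by simp)).sub (by simp [subst, asg, iff, hσ])
  have k2 := Can.many (F := F) (Γ := Γ) (fun m => imp Z (iff (σ m) (var m))) (c1 * M)
    A.vars.toList k1
  have k3 := hp Z A σ var M (by omega) hAσ hAv (Γ ∪ {B | B ∈ A.vars.toList.map fun m =>
    imp Z (iff (σ m) (var m))}) (by
      intro m hm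
      right
      exact List.mem_map.2 ⟨m, Finset.mem_toList.2 hm, rfl⟩)
  rw [subst_var] at k3
  have k4 := q2 [Z, A.subst σ, A, var N] M hM1 (by
      intro X hX; simp only [List.mem_cons, List.not_mem_nil, or_false] at hX
      rcases hX with rfl | rfl | rfl | rfl
      exacts [by omega, hAσ, by omega, hvs _]) (Γ ∪ {B | B ∈ [imp Z (iff (A.subst σ) A)]}) (by
      intro X hX; simp only [List.mem_cons, List.not_mem_nil, or_false] at hX
      rcases hX with rfl | rfl
      · left; simpa [subst, asg] using hEE'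
      · right; simp [subst, asg, iff])
  have k5 : Can F Γ [imp Z A] (A.vars.toList.length * (c1 * M) + cp * M * A.size + c2 * M) :=
    ((k2.cut k3).cut k4).sub (by simp [subst, asg])
  have hZv : ∀ x ∈ Z.vars, x = N ∨ ∃ j < Y, x = yv N j := by
    intro x hx
    rw [hZ] at hx
    rcases conjL_vars hx with hx | ⟨D, hD, hx⟩
    · exact Or.inl hx
    · obtain ⟨j, hj, rfl⟩ := List.mem_map.1 hD
      right
      exact ⟨j, List.mem_range.1 hj, by simpa [vars] using hx⟩
  have hv : ∀ x ∈ (imp Z A).vars, x ≤ N ∨ ∃ j < Y, x = yv N j := by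
    intro x hx
    simp only [vars, Finset.mem_union] at hx
    rcases hx with hx | hx
    · rcases hZv x hx with hx | hx
      · exact Or.inl hx.le
      · exact Or.inr hx
    · exact Or.inl (hN x hx).le
  have k6 := hr (imp Z A) (rr N y Y) M (by simp only [size]; omega) (by
    intro x hx x' hx' h
    rcases hv x hx with h1 | ⟨j, hj, rfl⟩
    · rcases hv x' hx' with h2 | ⟨j', hj', rfl⟩
      · rwa [rr_low N y h1, rr_low N y h2] at h
      · rw [rr_low N y h1, rr_yv N y hj'] at h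
        have := hy j' hj'
        omega
    · rcases hv x' hx' with h2 | ⟨j', hj', rfl⟩
      · rw [rr_yv N y hj, rr_low N y h2] at h
        have := hy j hj
        omega
      · rw [rr_yv N y hj, rr_yv N y hj'] at h
        rw [hyi j hj j' hj' h]) (Γ ∪ {B | B ∈ [imp Z A]}) (by right; simp)
  have e2 : (imp Z A).rename (rr N y Y) = imp (conjL N (zeroL y Y)) A := by
    show imp (Z.rename (rr N y Y)) (A.rename (rr N y Y)) = _
    rw [rename_eq_self (A := A) fun x hx => rr_low N y (hN x hx).le, hZ, conjL_rename,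
      rr_low N y le_rfl]
    congr 2
    unfold zeroL
    rw [List.map_map]
    apply List.map_congr_left
    intro j hj
    rw [List.mem_range] at hj
    show neg (var (rr N y Y (yv N j))) = _
    rw [rr_yv N y hj]
  rw [e2] at k6
  refine (k5.cut k6).mono subset_rfl ?_
  rw [Finset.length_toList]
  have hT1 : 1 ≤ T := by omega
  have hcard : A.vars.card ≤ T := by have := vars_card_le A; omega
  have t12 : T ≤ T ^ 2 := Nat.le_self_pow (by norm_num) T
  have a1 : A.vars.card * (c1 * M) ≤ 12 * c1 * T ^ 2 := by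
    calc A.vars.card * (c1 * M) ≤ T * (c1 * M) := Nat.mul_le_mul_right _ hcard
      _ = 12 * c1 * T ^ 2 := by rw [hM]; ring
  have a2 : cp * M * A.size ≤ 12 * cp * T ^ 2 := by
    calc cp * M * A.size ≤ cp * M * T := Nat.mul_le_mul_left _ (by omega)
      _ = 12 * cp * T ^ 2 := by rw [hM]; ring
  have a3 : c2 * M ≤ 12 * c2 * T ^ 2 := by
    calc c2 * M = 12 * c2 * T := by rw [hM]; ring
      _ ≤ _ := Nat.mul_le_mul_left _ t12
  have a4 : cr * M * M = 144 * cr * T ^ 2 := by rw [hM]; ring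
  have a5 : (12 * c1 + 12 * cp + 12 * c2 + 144 * cr) * T ^ 2 ≤
      ((12 * c1 + 12 * cp + 12 * c2 + 144 * cr) + 2) *
        T ^ ((12 * c1 + 12 * cp + 12 * c2 + 144 * cr) + 2) :=
    Nat.mul_le_mul (by omega) (Nat.pow_le_pow_right hT1 (by omega))
  refine le_trans ?_ a5
  have a6 : (12 * c1 + 12 * cp + 12 * c2 + 144 * cr) * T ^ 2 = 12 * c1 * T ^ 2 +
      12 * cp * T ^ 2 + 12 * c2 * T ^ 2 + 144 * cr * T ^ 2 := by ring
  rw [a6]
  omega

end Pool.Agent.H586P.T_efin
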