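import Pool.Agent.H586P.Defs3

/-!
# Extended Frege proofs are closed under substitution
-/

set_option autoImplicit false

namespace Pool.Agent.H586P.T_efsub

open Pool.Agent.H586P Pool.Agent.H555R2.PF Pool.Agent.H555R2.PF.Fm

theorem mem_vars_subst {σ : ℕ → Fm} {x : ℕ} : ∀ {A : Fm}, x ∈ (A.subst σ).vars →
    ∃ n ∈ A.vars, x ∈ (σ n).vars := by
  intro A
  induction A with
  | var n => intro h; exact ⟨n, by simp [vars], h⟩
  | neg A ih => intro h; exact ih h
  | and A B iA iB =>
    intro h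
    simp only [subst, vars, Finset.mem_union] at h
    rcases h with h | h
    · obtain ⟨n, h1, h2⟩ := iA h
      exact ⟨n, by simp [vars, h1], h2⟩
    · obtain ⟨n, h1, h2⟩ := iB h
      exact ⟨n, by simp [vars, h1], h2⟩
  | or A B iA iB =>
    intro h
    simp only [subst, vars, Finset.mem_union] at h
    rcases h with h | h
    · obtain ⟨n, h1, h2⟩ := iA h
      exact ⟨n, by simp [vars, h1], h2⟩
    · obtain ⟨n, h1, h2⟩ := iB h
      exact ⟨n, by simp [vars, h1], h2⟩
  | imp A B iA iB =>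
    intro h
    simp only [subst, vars, Finset.mem_union] at h
    rcases h with h | h
    · obtain ⟨n, h1, h2⟩ := iA h
      exact ⟨n, by simp [vars, h1], h2⟩
    · obtain ⟨n, h1, h2⟩ := iB h
      exact ⟨n, by simp [vars, h1], h2⟩

/-- a substitution that sends the variables outside `V` to fresh variables -/
theorem efProof_subst {F : List Rule} {A : Fm} {τ : ℕ → Fm} {g : ℕ → ℕ}
    (hτ : ∀ n, n ∉ A.vars → τ n = var (g n))
    (hfresh : ∀ q n, q ∉ A.vars → n ≠ q → g q ∉ (τ n).vars) {k : ℕ} {L : List Fm}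
    (h : EFProof F A k L) : EFProof F (A.subst τ) k (L.map (Fm.subst τ)) := by
  have hmem : ∀ (q : ℕ) (C : Fm), q ∉ A.vars → q ∉ C.vars → g q ∉ (C.subst τ).vars := by
    intro q C hqA hq hq'
    obtain ⟨n, hn, hnq⟩ := mem_vars_subst hq'
    exact hfresh q n hqA (fun h => hq (h ▸ hn)) hnq
  induction h with
  | nil => exact EFProof.nil
  | @rule k L B hL hB ih =>
    obtain ⟨r, hr, σ, h1, h2⟩ := hB
    refine EFProof.rule ih ⟨r, hr, fun n => (σ n).subst τ, ?_, ?_⟩
    · rw [h1]
      exact subst_subst _ _ _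
    · intro p hp
      rw [← subst_subst]
      exact List.mem_map_of_mem (h2 p hp)
  | @ext k L q φ hL hφ hC hA ih =>
    have h1 : (iff (var q) φ).subst τ = iff (var (g q)) (φ.subst τ) := by
      show iff ((var q).subst τ) (φ.subst τ) = _
      show iff (τ q) (φ.subst τ) = _
      rw [hτ q hA]
    rw [List.map_cons, h1]
    refine EFProof.ext ih (hmem q φ hA hφ) ?_ (hmem q A hA hA)
    intro C hC'
    rw [List.mem_map] at hC'
    obtain ⟨C', hC1, rfl⟩ := hC'
    exact hmem q C' hA (hC C' hC1)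

theorem psize_map {τ : ℕ → Fm} {m : ℕ} (hm : 1 ≤ m) (h : ∀ n, (τ n).size ≤ m) (L : List Fm) :
    psize (L.map (Fm.subst τ)) ≤ m * psize L := by
  induction L with
  | nil => simp [psize]
  | cons C L ih =>
    rw [List.map_cons, psize_cons, psize_cons, Nat.mul_add]
    have h1 := size_subst_le hm (A := C) fun n _ => h n
    rw [Nat.mul_comm] at h1
    omega

theorem t_efsub (F : List Rule) : S_efsub F := by
  intro A k L hL σ m hm hσ
  obtain ⟨T, hT⟩ : ∃ T : ℕ, ∀ n ∈ A.vars, ∀ x ∈ (σ n).vars, x < T := by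
    refine ⟨(A.vars.biUnion fun n => (σ n).vars).sup id + 1, fun n hn x hx => ?_⟩
    have h1 : x ∈ A.vars.biUnion fun n => (σ n).vars := Finset.mem_biUnion.2 ⟨n, hn, hx⟩
    have h2 := Finset.le_sup (f := id) h1
    exact Nat.lt_succ_of_le h2
  obtain ⟨τ, hτ1, hτ2⟩ : ∃ τ : ℕ → Fm, (∀ n ∈ A.vars, τ n = σ n) ∧
      ∀ n, n ∉ A.vars → τ n = var (n + T) :=
    ⟨fun n => if n ∈ A.vars then σ n else var (n + T), fun n hn => if_pos hn,
      fun n hn => if_neg hn⟩
  have hsz : ∀ n, (τ n).size ≤ m := by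
    intro n
    by_cases hn : n ∈ A.vars
    · rw [hτ1 n hn]
      exact hσ n hn
    · rw [hτ2 n hn]
      exact hm
  have hAσ : A.subst τ = A.subst σ := subst_congr hτ1
  have h := efProof_subst (g := fun n => n + T) hτ2 (by
    intro q n hq hnq hmem
    by_cases hn : n ∈ A.vars
    · rw [hτ1 n hn] at hmem
      have := hT n hn _ hmem
      omega
    · rw [hτ2 n hn] at hmem
      simp only [vars, Finset.mem_singleton] at hmem
      omega) hL
  rw [List.map_cons, hAσ] at h
  refine ⟨L.map (Fm.subst τ), h, ?_⟩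
  have h1 := psize_map hm hsz (A :: L)
  rw [List.map_cons, hAσ] at h1
  exact h1

end Pool.Agent.H586P.T_efsub
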