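import Pool.Agent.H586P.Defs3

set_option autoImplicit false

namespace Pool.Agent.H586P.T_erec

open Pool.Agent.H586P Pool.Agent.H555R2.PF Pool.Agent.H555R2.PF.Fm

theorem psize_le (l : List Fm) (s : ℕ) (h : ∀ X ∈ l, X.size ≤ s) : psize l ≤ l.length * s := by
  induction l with
  | nil => simp [psize]
  | cons X l ih =>
    rw [psize_cons, List.length_cons]
    have h1 := h X (by simp)
    have h2 := ih fun Y hY => h Y (by simp [hY])
    nlinarith

theorem conjL_le (z : ℕ) (l : List Fm) (s : ℕ) (h : ∀ X ∈ l, X.size ≤ s) :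
    (conjL z l).size ≤ l.length * (s + 1) + 3 := by
  rw [conjL_size]
  have := psize_le l s h
  nlinarith

theorem disjL_le (z : ℕ) (l : List Fm) (s : ℕ) (h : ∀ X ∈ l, X.size ≤ s) :
    (disjL z l).size ≤ l.length * (s + 1) + 4 := by
  rw [disjL_size]
  have := psize_le l s h
  nlinarith

theorem OH_size (z b : ℕ) (g : ℕ → ℕ) : (OH z b g).size ≤ 15 * (2 ^ b * 2 ^ b) := by
  have hT : 1 ≤ 2 ^ b := Nat.one_le_two_pow
  have h1 := disjL_le z ((List.range (2 ^ b)).map fun α => var (g α)) 1 (by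
    intro X hX
    obtain ⟨a, _, rfl⟩ := List.mem_map.1 hX
    simp [size])
  have h2 := conjL_le z ((List.range (2 ^ b)).flatMap fun α =>
      ((List.range (2 ^ b)).filter fun β => β ≠ α).map
        fun β => neg (and (var (g α)) (var (g β)))) 4 (by
    intro X hX
    obtain ⟨a, _, hX⟩ := List.mem_flatMap.1 hX
    obtain ⟨β, _, rfl⟩ := List.mem_map.1 hX
    simp [size])
  have h3 : ((List.range (2 ^ b)).flatMap fun α =>
      ((List.range (2 ^ b)).filter fun β => β ≠ α).map
        fun β => neg (and (var (g α)) (var (g β)))).length ≤ 2 ^ b * 2 ^ b := by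
    rw [List.length_flatMap]
    have : ∀ l : List ℕ, (l.map fun α => (((List.range (2 ^ b)).filter fun β => β ≠ α).map
        fun β => neg (and (var (g α)) (var (g β)))).length).sum ≤ l.length * 2 ^ b := by
      intro l
      induction l with
      | nil => simp
      | cons a l ih =>
        rw [List.map_cons, List.sum_cons, List.length_cons]
        have h4 : (((List.range (2 ^ b)).filter fun β => β ≠ a).map
          fun β => neg (and (var (g a)) (var (g β)))).length ≤ 2 ^ b := by
          rw [List.length_map]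
          exact (List.length_filter_le _ _).trans (by simp)
        nlinarith
    simpa using this (List.range (2 ^ b))
  rw [List.length_map, List.length_range] at h1
  unfold OH
  simp only [size]
  have h5 : 2 ^ b ≤ 2 ^ b * 2 ^ b := Nat.le_mul_of_pos_right _ hT
  have h6 : 1 ≤ 2 ^ b * 2 ^ b := hT.trans h5
  nlinarith

theorem Wd_size (z b : ℕ) (g : ℕ → ℕ → ℕ) (m : ℕ) :
    (Wd z b g m).size ≤ m * (15 * (2 ^ b * 2 ^ b) + 1) + 3 := by
  have h := conjL_le z ((List.range m).map fun j => OH z b (g j)) (15 * (2 ^ b * 2 ^ b)) (by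
    intro X hX
    obtain ⟨a, _, rfl⟩ := List.mem_map.1 hX
    exact OH_size z b (g a))
  rw [List.length_map, List.length_range] at h
  exact h

theorem HE_size (N b n i r Q : ℕ) (hi : i ≤ n) (hQ : n + 2 ^ b + 1 ≤ Q) :
    (HE N b i (Yr n b r)).size ≤ 35 * Q ^ 3 := by
  have hT : 1 ≤ 2 ^ b := Nat.one_le_two_pow
  have h1 := Wd_size N b (gv N) i
  have h2 := conjL_le N (oneL (uv N) i) 1 (by
    intro X hX
    obtain ⟨a, _, rfl⟩ := List.mem_map.1 hX
    simp [size])
  have h3 := conjL_le N (zeroL (yv N) (Yr n b r)) 2 (by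
    intro X hX
    obtain ⟨a, _, rfl⟩ := List.mem_map.1 hX
    simp [size])
  have h4 : (oneL (uv N) i).length = i := by simp [oneL]
  have h5 : (zeroL (yv N) (Yr n b r)).length = Yr n b r := by simp [zeroL]
  rw [h4] at h2
  rw [h5] at h3
  have h6 : Yr n b r ≤ 2 * (n * 2 ^ b) := by
    unfold Yr
    have : (n - r) * 2 ^ b ≤ n * 2 ^ b := Nat.mul_le_mul_right _ (Nat.sub_le _ _)
    omega
  unfold HE
  simp only [size]
  set T := 2 ^ b with hTd
  have hnQ : n ≤ Q := by omega
  have hTQ : T ≤ Q := by omega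
  have h1Q : 1 ≤ Q := by omega
  have h7 : i * (15 * (T * T) + 1) ≤ n * (15 * (T * T) + 1) := Nat.mul_le_mul_right _ hi
  have h8 : n * (T * T) ≤ Q * (Q * Q) := Nat.mul_le_mul hnQ (Nat.mul_le_mul hTQ hTQ)
  have h9 : n ≤ n * (T * T) := Nat.le_mul_of_pos_right _ (Nat.mul_pos hT hT)
  have h10 : n * T ≤ n * (T * T) := Nat.mul_le_mul_left _ (Nat.le_mul_of_pos_right _ hT)
  have h11 : Q ^ 3 = Q * (Q * Q) := by ring
  have h12 : 1 ≤ Q * (Q * Q) := Nat.mul_pos h1Q (Nat.mul_pos h1Q h1Q)
  have h13 : n * (15 * (T * T) + 1) = 15 * (n * (T * T)) + n := by ring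
  rw [h11]
  omega

theorem dec_size (z b : ℕ) (h : ℕ → ℕ) (t : ℕ) : (dec z b h t).size ≤ 2 * 2 ^ b + 4 := by
  have h1 := disjL_le z (((List.range (2 ^ b)).filter (fun β => β.testBit t)).map
    (fun β => var (h β))) 1 (by
    intro X hX
    obtain ⟨a, _, rfl⟩ := List.mem_map.1 hX
    simp [size])
  have h2 : (((List.range (2 ^ b)).filter (fun β => β.testBit t)).map
    (fun β => var (h β))).length ≤ 2 ^ b := by
    rw [List.length_map]
    exact (List.length_filter_le _ _).trans (by simp)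
  unfold dec
  nlinarith

theorem eqc_size (z β : ℕ) (τ : ℕ → Fm) (a s : ℕ) (h : ∀ i, (τ i).size ≤ s) :
    (eqc z β τ a).size ≤ β * (s + 2) + 3 := by
  have h1 := conjL_le z ((List.range β).map fun i => if a.testBit i = true then τ i
    else neg (τ i)) (s + 1) (by
    intro X hX
    obtain ⟨i, _, rfl⟩ := List.mem_map.1 hX
    have := h i
    split_ifs
    · omega
    · simp only [size]; omega)
  rw [List.length_map, List.length_range] at h1
  exact h1

theorem DD_size (N b ℓ i q n Q : ℕ) (hi : i ≤ n) (hℓ : ℓ ≤ 2 ^ b) (hQ : n + 2 ^ b + 1 ≤ Q) :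
    (DD N b ℓ i q).size ≤ 28 * Q ^ 3 := by
  have hT : 1 ≤ 2 ^ b := Nat.one_le_two_pow
  have h1 := disjL_le N ((List.range (2 * i)).map fun l =>
    eqc N ℓ (fun e => dec N b (gv N (l / 2)) (l % 2 * ℓ + e)) q) (11 * (2 ^ b * 2 ^ b)) (by
    intro X hX
    obtain ⟨l, _, rfl⟩ := List.mem_map.1 hX
    have h2 := eqc_size N ℓ (fun e => dec N b (gv N (l / 2)) (l % 2 * ℓ + e)) q (2 * 2 ^ b + 4)
      (fun i => dec_size _ _ _ _)
    set T := 2 ^ b with hTd
    have h3 : ℓ * (2 * T + 4 + 2) ≤ T * (2 * T + 4 + 2) := Nat.mul_le_mul_right _ hℓ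
    have h5 : T ≤ T * T := Nat.le_mul_of_pos_right _ hT
    have h6 : 1 ≤ T * T := hT.trans h5
    nlinarith)
  rw [List.length_map, List.length_range] at h1
  unfold DD
  set T := 2 ^ b with hTd
  have hnQ : n ≤ Q := by omega
  have hTQ : T ≤ Q := by omega
  have h1Q : 1 ≤ Q := by omega
  have h7 : 2 * i * (11 * (T * T) + 1) ≤ 2 * n * (11 * (T * T) + 1) :=
    Nat.mul_le_mul_right _ (Nat.mul_le_mul_left _ hi)
  have h8 : n * (T * T) ≤ Q * (Q * Q) := Nat.mul_le_mul hnQ (Nat.mul_le_mul hTQ hTQ)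
  have h9 : n ≤ n * (T * T) := Nat.le_mul_of_pos_right _ (Nat.mul_pos hT hT)
  have h11 : Q ^ 3 = Q * (Q * Q) := by ring
  have h12 : 1 ≤ Q * (Q * Q) := Nat.mul_pos h1Q (Nat.mul_pos h1Q h1Q)
  have h13 : 2 * n * (11 * (T * T) + 1) = 22 * (n * (T * T)) + 2 * n := by ring
  rw [h11]
  omega

theorem TR_size (N b ℓ : ℕ) (A : Fm) (idx : ℕ → ℕ) (r i n Q : ℕ) (hi : i ≤ n) (hℓ : ℓ ≤ 2 ^ b)
    (hQ : n + 2 ^ b + A.size ≤ Q) : (TR N b ℓ A idx r i).size ≤ 30 * Q ^ 4 := by
  have hA := size_pos A
  have h1Q : 1 ≤ Q := by omega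
  have h1 : ∀ q, (DD N b ℓ i q).size ≤ 28 * Q ^ 3 := fun q =>
    DD_size N b ℓ i q n Q hi hℓ (by omega)
  have h3 : 1 ≤ Q ^ 3 := Nat.one_le_pow _ _ h1Q
  have h2 := size_subst_le (M := 30 * Q ^ 3) (by omega) (A := A)
    (σ := fun m => if idx m < r then DD N b ℓ i (idx m) else or (var m) (DD N b ℓ i (idx m)))
    (fun m _ => by
      show (if idx m < r then DD N b ℓ i (idx m) else or (var m) (DD N b ℓ i (idx m))).size
        ≤ 30 * Q ^ 3
      have := h1 (idx m)
      split_ifs
      · omega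
      · simp only [size]; omega)
  unfold TR
  refine h2.trans ?_
  calc A.size * (30 * Q ^ 3) ≤ Q * (30 * Q ^ 3) := Nat.mul_le_mul_right _ (by omega)
    _ = 30 * Q ^ 4 := by ring

theorem hyps {F : List Rule} {Γ : Set Fm} {G : List Fm} (h : ∀ B ∈ G, B ∈ Γ) : Can F Γ G 0 :=
  fun _ hL hΓ => ⟨[], hL, fun B hB => hΓ B (h B hB), by simp [psize]⟩

/-- the goals with `r' > n - s` -/
def goals (N b ℓ : ℕ) (A : Fm) (idx : ℕ → ℕ) (n s : ℕ) : List Fm :=
  (List.range s).flatMap fun t => (List.range (n - t + 1)).map fun i =>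
    EE N b ℓ A idx n (n - t) i

theorem mem_goals (N b ℓ : ℕ) (A : Fm) (idx : ℕ → ℕ) (n s r i : ℕ) (hr : r ≤ n)
    (hs : n - r < s) (hi : i ≤ r) : EE N b ℓ A idx n r i ∈ goals N b ℓ A idx n s := by
  unfold goals
  rw [List.mem_flatMap]
  refine ⟨n - r, List.mem_range.2 hs, List.mem_map.2 ⟨i, List.mem_range.2 (by omega), ?_⟩⟩
  congr 1
  omega

theorem t_erec (F : List Rule) (hF : IsFrege F) (h1 : S_dt F) (h2 : S_basel F)
    (h3 : S_base0 F) (h4 : S_move F) : S_erec F := by
  obtain ⟨c₁, h1⟩ := h1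
  obtain ⟨c₂, h2⟩ := h2
  obtain ⟨c₃, h3⟩ := h3
  obtain ⟨c₄, h4⟩ := h4
  obtain ⟨c₅, h5⟩ := schemaL hF [imp (and (var 0) (imp (var 1) (var 1))) (var 2)]
    (imp (var 0) (var 2)) (by
      intro v h; simp [eval] at h ⊢; tauto)
  set a : ℕ := c₂ + c₃ + c₄ * 2 ^ c₄ with ha
  set e : ℕ := c₂ + c₃ + c₄ + 4 with he
  refine ⟨8 * a + 640 * c₁ + 80 * c₅ + e + 5, ?_⟩
  intro N b ℓ n K A idx vv hE hAN hA hnℓ hℓ hℓb hK Γ
  set Q : ℕ := K + A.size + n + 2 ^ b with hQ
  have hApos := size_pos A
  have hT : 1 ≤ 2 ^ b := Nat.one_le_two_pow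
  have h1Q : 1 ≤ Q := by omega
  have hℓT : ℓ ≤ 2 ^ b := by
    have : b < 2 ^ b := Nat.lt_two_pow_self
    omega
  have hpow : ∀ x, x ≤ e → Q ^ x ≤ Q ^ e := fun x hx => Nat.pow_le_pow_right h1Q hx
  set K₁ : ℕ := a * Q ^ e with hK₁
  set M : ℕ := 80 * Q ^ 4 with hM
  -- leaf costs
  have hk2 : c₂ * Q ^ c₂ ≤ K₁ := by
    rw [hK₁, ha]
    exact Nat.mul_le_mul (by omega) (hpow _ (by omega))
  have hk3 : c₃ * Q ^ c₃ ≤ K₁ := by
    rw [hK₁, ha]
    exact Nat.mul_le_mul (by omega) (hpow _ (by omega))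
  have hk4 : c₄ * (2 * Q) ^ c₄ ≤ K₁ := by
    rw [hK₁, ha, mul_pow, ← mul_assoc]
    exact Nat.mul_le_mul (by omega) (hpow _ (by omega))
  have hMe : M ≤ 80 * Q ^ e := Nat.mul_le_mul_left _ (hpow _ (by omega))
  set X : ℕ := (8 * a + 640 * c₁ + 80 * c₅) * Q ^ (e + 3) with hX
  -- the step
  have step : ∀ (r i : ℕ), r ≤ n → i ≤ r → ∀ Γ' : Set Fm,
      (∀ r', r < r' → r' ≤ n → ∀ i', i' ≤ r' → EE N b ℓ A idx n r' i' ∈ Γ') →
      Can F Γ' [EE N b ℓ A idx n r i] X := by
    intro r i hr hi Γ' hΓ'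
    set H := HE N b i (Yr n b r) with hH
    set G := TR N b ℓ A idx r i with hG
    have hHs : H.size ≤ 35 * Q ^ 3 := HE_size N b n i r Q (by omega) (by omega)
    have hGs : G.size ≤ 30 * Q ^ 4 := TR_size N b ℓ A idx r i n Q (by omega) hℓT (by omega)
    have hQ34 : Q ^ 3 ≤ Q ^ 4 := Nat.pow_le_pow_right h1Q (by omega)
    have hQ14 : Q ≤ Q ^ 4 := Nat.le_self_pow (by omega) Q
    have hVlen : ((List.range' r (n - r)).map vv).length = n - r := by simp
    have hsz : (conjL N [H]).size + G.size + 4 * ((List.range' r (n - r)).map vv).length ≤ M := by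
      rw [conjL_size, hVlen]
      have : psize [H] = H.size := by simp [psize]
      rw [this, List.length_singleton]
      omega
    have hdt := h1 N G ((List.range' r (n - r)).map vv) 2 K₁ M [H] Γ' hsz (by
      intro P R hPR hPc
      by_cases hc2 : P.countP (fun x => x.2) = 2
      · -- move
        have hlen : P.length + R.length = n - r := by
          have := congrArg List.length hPR
          simpa using this
        have hP2 : 2 ≤ P.length := by
          rw [← hc2]
          exact List.countP_le_length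
        have hpre : (P.map Prod.fst).reverse = (List.range' r (r + P.length - r)).map vv := by
          have h6 : (P.map Prod.fst).reverse =
              ((List.range' r (n - r)).map vv).take P.length := by
            rw [← hPR]
            rw [List.take_append_of_le_length (by simp)]
            rw [List.take_of_length_le (by simp)]
          rw [h6, ← List.map_take]
          congr 1
          have h7 : n - r = P.length + R.length := hlen.symm
          rw [h7, ← List.range'_append_1, List.take_append_of_le_length (by simp),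
            List.take_of_length_le (by simp)]
          congr 1
          omega
        refine (h4 N b ℓ n r (r + P.length) i A idx vv P hE hAN hnℓ hℓb (by omega) (by omega)
          hpre hc2 Γ' (hΓ' _ (by omega) (by omega) _ (by omega))).mono subset_rfl ?_
        refine le_trans (Nat.mul_le_mul_left _ (Nat.pow_le_pow_left ?_ _)) hk4
        omega
      · have hR : R = [] := by
          rcases hPc with h | h
          · exact absurd h hc2
          · exact h.1
        rw [hR, List.append_nil] at hPR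
        rcases Nat.eq_zero_or_pos i with hi0 | hi0
        · have h6 := h3 N b ℓ n r A idx vv P hE hAN hA hr hPR Γ'
          rw [hH, hG, hi0]
          refine h6.mono subset_rfl ?_
          refine le_trans (Nat.mul_le_mul_left _ (Nat.pow_le_pow_left ?_ _)) hk3
          omega
        · obtain ⟨W₀, L, hL1, hL2, hL3, hL4⟩ := hK i hi0 (by omega)
            (A.vars.filter fun m => (m, true) ∈ P)
          refine (h2 N b ℓ n r i A idx vv W₀ L P hE hAN hnℓ hℓ hℓb hi0 (by omega) hr hL1 hL2 hL3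
            hPR Γ').mono subset_rfl ?_
          refine le_trans (Nat.mul_le_mul_left _ (Nat.pow_le_pow_left ?_ _)) hk2
          omega)
    have hfin := h5 [H, var N, G] M (by
        have : 1 ≤ Q ^ 4 := Nat.one_le_pow _ _ h1Q
        omega) (by
        intro Y hY
        simp only [List.mem_cons, List.not_mem_nil, or_false] at hY
        rcases hY with rfl | rfl | rfl
        · omega
        · have : 1 ≤ Q ^ 4 := Nat.one_le_pow _ _ h1Q
          simp only [size]
          omega
        · omega) (Γ' ∪ {B | B ∈ [imp (conjL N [H]) G]}) (by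
        intro B hB
        simp only [List.mem_singleton] at hB
        subst hB
        right
        simp [subst, asg, conjL])
    have hfin' := hdt.cut hfin
    have hgoal : (imp (var 0) (var 2)).subst (asg [H, var N, G]) = EE N b ℓ A idx n r i := by
      simp [subst, asg, EE, hH, hG]
    rw [hgoal] at hfin'
    refine hfin'.mono subset_rfl ?_
    rw [hVlen]
    have h8 : (n - r + 2) ^ (2 + 1) ≤ (2 * Q) ^ 3 := Nat.pow_le_pow_left (by omega) _
    have h9 : K₁ + c₁ * M ≤ (a + 80 * c₁) * Q ^ e := by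
      rw [hK₁]
      calc a * Q ^ e + c₁ * M ≤ a * Q ^ e + c₁ * (80 * Q ^ e) :=
            Nat.add_le_add_left (Nat.mul_le_mul_left _ hMe) _
        _ = (a + 80 * c₁) * Q ^ e := by ring
    have h10 : Q ^ e ≤ Q ^ (e + 3) := Nat.pow_le_pow_right h1Q (by omega)
    calc (K₁ + c₁ * M) * (n - r + 2) ^ (2 + 1) + c₅ * M
        ≤ ((a + 80 * c₁) * Q ^ e) * (2 * Q) ^ 3 + c₅ * (80 * Q ^ (e + 3)) :=
          Nat.add_le_add (Nat.mul_le_mul h9 h8)
            (Nat.mul_le_mul_left _ (hMe.trans (Nat.mul_le_mul_left _ h10)))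
      _ = X := by rw [hX]; ring
  -- all goals
  have all : ∀ s, s ≤ n + 1 → ∀ Γ' : Set Fm,
      Can F Γ' (goals N b ℓ A idx n s) (s * ((n + 1) * X)) := by
    intro s
    induction s with
    | zero =>
      intro _ Γ'
      simpa [goals] using (Can.nil : Can F Γ' [] 0)
    | succ s ih =>
      intro hs Γ'
      have h6 := ih (by omega) Γ'
      have h7 : Can F (Γ' ∪ {B | B ∈ goals N b ℓ A idx n s})
          ((List.range (n - s + 1)).map fun i => EE N b ℓ A idx n (n - s) i)
          ((List.range (n - s + 1)).length * X) := by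
        refine Can.many (fun i => EE N b ℓ A idx n (n - s) i) X (List.range (n - s + 1)) ?_
        intro i hi
        rw [List.mem_range] at hi
        refine step (n - s) i (by omega) (by omega) _ ?_
        intro r' hr' hr'n i' hi'
        right
        exact mem_goals N b ℓ A idx n s r' i' hr'n (by omega) hi'
      have h8 : Can F (Γ' ∪ {B | B ∈ goals N b ℓ A idx n s}) (goals N b ℓ A idx n s) 0 :=
        hyps (fun B hB => Or.inr hB)
      have h9 := h6.cut (h8.append h7)
      have h10 : goals N b ℓ A idx n (s + 1) = goals N b ℓ A idx n s ++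
          ((List.range (n - s + 1)).map fun i => EE N b ℓ A idx n (n - s) i) := by
        unfold goals
        rw [List.range_succ, List.flatMap_append]
        simp
      rw [h10]
      refine h9.mono subset_rfl ?_
      rw [List.length_range]
      have h11 : (n - s + 1) * X ≤ (n + 1) * X := Nat.mul_le_mul_right _ (by omega)
      nlinarith
  have hlast := (all (n + 1) le_rfl Γ).sub (G' := [EE N b ℓ A idx n 0 0]) (by
    intro B hB
    rw [List.mem_singleton] at hB
    rw [hB]
    exact mem_goals N b ℓ A idx n (n + 1) 0 0 (Nat.zero_le _) (by omega) le_rfl)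
  refine hlast.mono subset_rfl ?_
  have h6 : (n + 1) * ((n + 1) * X) ≤ Q * (Q * X) :=
    Nat.mul_le_mul (by omega) (Nat.mul_le_mul_right _ (by omega))
  refine h6.trans ?_
  have h7 : Q * (Q * X) = (8 * a + 640 * c₁ + 80 * c₅) * Q ^ (e + 5) := by
    rw [hX]; ring
  rw [h7]
  exact Nat.mul_le_mul (by omega) (Nat.pow_le_pow_right h1Q (by omega))

end Pool.Agent.H586P.T_erec
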