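import Pool.Agent.H586P.Defs3

set_option autoImplicit false

namespace Pool.Agent.H586P.T_eval3

open Pool.Agent.H586P Pool.Agent.H555R2.PF Pool.Agent.H555R2.PF.Fm

theorem t_deval (F : List Rule) (_hF : IsFrege F) (h1 : S_disjT F) (h2 : S_disjF F) :
    S_deval F := by
  obtain ⟨c₁, h₁⟩ := h1
  obtain ⟨c₂, h₂⟩ := h2
  refine ⟨2 * (c₁ + c₂), fun z b r α g H M hα hH hM Γ hu hy => ?_⟩
  set l : List Fm := ((List.range (2 ^ b)).filter (fun β => β.testBit r)).map
    (fun β => var (g β)) with hl
  have hlen : l.length ≤ 2 ^ b := by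
    rw [hl, List.length_map]
    exact (List.length_filter_le _ _).trans (by rw [List.length_range])
  have hps : psize l = l.length := by
    have e : l = (((List.range (2 ^ b)).filter (fun β => β.testBit r)).map
      (fun β => g β)).map var := by
      rw [hl, List.map_map]
      rfl
    have e2 := psize_var (((List.range (2 ^ b)).filter (fun β => β.testBit r)).map
      (fun β => g β))
    rw [← e] at e2
    rw [e2, hl, List.length_map, List.length_map]
  have hsz : (disjL z l).size ≤ M := by
    rw [disjL_size, hps]; omega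
  have h2r : 1 ≤ 2 ^ b := Nat.one_le_two_pow
  have hb : l.length + 1 ≤ 2 * 2 ^ b := by omega
  cases hb' : α.testBit r with
  | true =>
    have hX : var (g α) ∈ l := by
      rw [hl, List.mem_map]
      refine ⟨α, ?_, rfl⟩
      rw [List.mem_filter, List.mem_range]
      exact ⟨hα, hb'⟩
    refine (h₁ z H l M hH hsz (var (g α)) hX Γ hu).mono subset_rfl ?_
    calc c₁ * M * (l.length + 1) ≤ (c₁ + c₂) * M * (2 * 2 ^ b) :=
          Nat.mul_le_mul (Nat.mul_le_mul_right _ (by omega)) hb
      _ = 2 * (c₁ + c₂) * M * 2 ^ b := by ring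
  | false =>
    refine (h₂ z H l M hH hsz Γ ?_).mono subset_rfl ?_
    · intro X hX
      rw [hl, List.mem_map] at hX
      obtain ⟨β, hβ, rfl⟩ := hX
      rw [List.mem_filter, List.mem_range] at hβ
      have hne : β ≠ α := by
        rintro rfl
        rw [hb'] at hβ
        exact absurd hβ.2 (by simp)
      exact hy β hβ.1 hne
    · calc c₂ * M * (l.length + 1) ≤ (c₁ + c₂) * M * (2 * 2 ^ b) :=
            Nat.mul_le_mul (Nat.mul_le_mul_right _ (by omega)) hb
        _ = 2 * (c₁ + c₂) * M * 2 ^ b := by ring

/-- a true conjunction -/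
theorem conjT (F : List Rule) (hF : IsFrege F) : ∃ c : ℕ, ∀ (z : ℕ) (H : Fm) (l : List Fm)
    (M K : ℕ), H.size ≤ M → (conjL z l).size ≤ M → ∀ Γ : Set Fm,
    (∀ X ∈ l, Can F Γ [imp H X] K) →
    Can F Γ [imp H (iff (conjL z l) (top z))] ((K + c * M) * (l.length + 1)) := by
  obtain ⟨c₁, h₁⟩ := schemaL hF [] (imp (var 0) (imp (var 1) (var 1))) (by
    intro v h; simp [eval])
  obtain ⟨c₂, h₂⟩ := schemaL hF [imp (var 0) (var 1), imp (var 0) (var 2)]
    (imp (var 0) (and (var 1) (var 2))) (by
    intro v h; simp [eval] at h ⊢; tauto)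
  obtain ⟨c₃, h₃⟩ := schemaL hF [imp (var 0) (var 1)]
    (imp (var 0) (iff (var 1) (imp (var 2) (var 2)))) (by
    intro v h; simp [eval, iff] at h ⊢; tauto)
  have key : ∀ (z : ℕ) (H : Fm) (l : List Fm) (M K : ℕ), H.size ≤ M → (conjL z l).size ≤ M →
      ∀ Γ : Set Fm, (∀ X ∈ l, Can F Γ [imp H X] K) →
      Can F Γ [imp H (conjL z l)] ((K + (c₁ + c₂) * M) * (l.length + 1)) := by
    intro z H l M K hH
    have hM : 1 ≤ M := (size_pos H).trans hH
    induction l with
    | nil =>
      intro hs Γ _
      refine ((h₁ [H, var z] M hM ?_ Γ (by simp)).sub ?_).mono subset_rfl ?_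
      · intro Y hY; simp at hY; rcases hY with rfl | rfl
        exacts [hH, hM]
      · intro B hB
        simpa [subst, asg, conjL] using hB
      · simp only [List.length_nil]
        nlinarith [Nat.zero_le (c₂ * M), Nat.zero_le K]
    | cons D l ih =>
      intro hs Γ hΓ
      have hs' : D.size ≤ M ∧ (conjL z l).size ≤ M := by
        simp only [conjL, size] at hs; omega
      have h4 := ih hs'.2 Γ (fun X hX => hΓ X (by simp [hX]))
      have h0 := hΓ D (by simp)
      have h5 := h₂ [H, D, conjL z l] M hM (by
        intro Y hY; simp at hY; rcases hY with rfl | rfl | rfl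
        exacts [hH, hs'.1, hs'.2]) (Γ ∪ {B | B ∈ [imp H D] ++ [imp H (conjL z l)]}) (by
          intro A hA
          simp only [List.mem_cons, List.not_mem_nil, or_false] at hA
          rcases hA with rfl | rfl
          · right; simp [subst, asg]
          · right; simp [subst, asg])
      refine (((h0.append h4).cut h5).sub ?_).mono subset_rfl ?_
      · intro B hB
        simpa [subst, asg, conjL] using hB
      · simp only [List.length_cons]; nlinarith [Nat.zero_le (c₁ * M)]
  refine ⟨c₁ + c₂ + c₃, fun z H l M K hH hs Γ hΓ => ?_⟩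
  have hM : 1 ≤ M := (size_pos H).trans hH
  have h4 := key z H l M K hH hs Γ hΓ
  have h5 := h₃ [H, conjL z l, var z] M hM (by
    intro Y hY; simp at hY; rcases hY with rfl | rfl | rfl
    exacts [hH, hs, hM]) (Γ ∪ {B | B ∈ [imp H (conjL z l)]}) (by
      intro A hA
      simp only [List.mem_singleton] at hA
      subst hA
      right; simp [subst, asg])
  refine ((h4.cut h5).sub ?_).mono subset_rfl ?_
  · intro B hB
    simpa [subst, asg, iff, top] using hB
  · nlinarith [Nat.zero_le (c₃ * M * l.length), Nat.zero_le (c₁ * M), Nat.zero_le (c₂ * M)]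

/-- a false conjunction -/
theorem conjF (F : List Rule) (hF : IsFrege F) : ∃ c : ℕ, ∀ (z : ℕ) (H : Fm) (l : List Fm)
    (M K : ℕ), H.size ≤ M → (conjL z l).size ≤ M → ∀ Γ : Set Fm, ∀ X ∈ l,
    Can F Γ [imp H (neg X)] K →
    Can F Γ [imp H (iff (conjL z l) (neg (top z)))] (K + c * M * (l.length + 1)) := by
  obtain ⟨c₁, h₁⟩ := schemaL hF [imp (var 0) (neg (var 1))]
    (imp (var 0) (neg (and (var 1) (var 2)))) (by
    intro v h; simp [eval] at h ⊢; tauto)
  obtain ⟨c₂, h₂⟩ := schemaL hF [imp (var 0) (neg (var 2))]
    (imp (var 0) (neg (and (var 1) (var 2)))) (by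
    intro v h; simp [eval] at h ⊢; tauto)
  obtain ⟨c₃, h₃⟩ := schemaL hF [imp (var 0) (neg (var 1))]
    (imp (var 0) (iff (var 1) (neg (imp (var 2) (var 2))))) (by
    intro v h; simp [eval, iff] at h ⊢; tauto)
  have key : ∀ (z : ℕ) (H : Fm) (l : List Fm) (M K : ℕ), H.size ≤ M → (conjL z l).size ≤ M →
      ∀ Γ : Set Fm, ∀ X ∈ l, Can F Γ [imp H (neg X)] K →
      Can F Γ [imp H (neg (conjL z l))] (K + (c₁ + c₂) * M * l.length) := by
    intro z H l M K hH
    have hM : 1 ≤ M := (size_pos H).trans hH
    induction l with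
    | nil => intro _ Γ X hX; simp at hX
    | cons D l ih =>
      intro hs Γ X hX hΓ
      have hs' : D.size ≤ M ∧ (conjL z l).size ≤ M := by
        simp only [conjL, size] at hs; omega
      rcases List.mem_cons.1 hX with rfl | hX
      · have h5 := h₁ [H, X, conjL z l] M hM (by
          intro Y hY; simp at hY; rcases hY with rfl | rfl | rfl
          exacts [hH, hs'.1, hs'.2]) (Γ ∪ {B | B ∈ [imp H (neg X)]}) (by
            intro A hA
            simp only [List.mem_singleton] at hA
            subst hA
            right; simp [subst, asg])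
        refine ((hΓ.cut h5).sub ?_).mono subset_rfl ?_
        · intro B hB
          simpa [subst, asg, conjL] using hB
        · simp only [List.length_cons]
          nlinarith [Nat.zero_le (c₂ * M), Nat.zero_le (c₁ * M * l.length),
            Nat.zero_le (c₂ * M * l.length)]
      · have h4 := ih hs'.2 Γ X hX hΓ
        have h5 := h₂ [H, D, conjL z l] M hM (by
          intro Y hY; simp at hY; rcases hY with rfl | rfl | rfl
          exacts [hH, hs'.1, hs'.2]) (Γ ∪ {B | B ∈ [imp H (neg (conjL z l))]}) (by
            intro A hA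
            simp only [List.mem_singleton] at hA
            subst hA
            right; simp [subst, asg])
        refine ((h4.cut h5).sub ?_).mono subset_rfl ?_
        · intro B hB
          simpa [subst, asg, conjL] using hB
        · simp only [List.length_cons]; nlinarith [Nat.zero_le (c₁ * M)]
  refine ⟨c₁ + c₂ + c₃, fun z H l M K hH hs Γ X hX hΓ => ?_⟩
  have hM : 1 ≤ M := (size_pos H).trans hH
  have h4 := key z H l M K hH hs Γ X hX hΓ
  have h5 := h₃ [H, conjL z l, var z] M hM (by
    intro Y hY; simp at hY; rcases hY with rfl | rfl | rfl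
    exacts [hH, hs, hM]) (Γ ∪ {B | B ∈ [imp H (neg (conjL z l))]}) (by
      intro A hA
      simp only [List.mem_singleton] at hA
      subst hA
      right; simp [subst, asg])
  refine ((h4.cut h5).sub ?_).mono subset_rfl ?_
  · intro B hB
    simpa [subst, asg, iff, top] using hB
  · nlinarith [Nat.zero_le (c₃ * M * l.length), Nat.zero_le (c₁ * M), Nat.zero_le (c₂ * M)]

/-- if the numbers differ, some digit differs -/
theorem exists_digit {ℓ a q : ℕ} (ha : a < 2 ^ ℓ) (hq : q < 2 ^ ℓ) (hne : a ≠ q) :
    ∃ e < ℓ, a.testBit e ≠ q.testBit e := by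
  by_contra hcon
  push Not at hcon
  apply hne
  apply Nat.eq_of_testBit_eq
  intro i
  rcases lt_or_ge i ℓ with hi | hi
  · exact hcon i hi
  · rw [Nat.testBit_lt_two_pow (lt_of_lt_of_le ha (Nat.pow_le_pow_right (by norm_num) hi)),
      Nat.testBit_lt_two_pow (lt_of_lt_of_le hq (Nat.pow_le_pow_right (by norm_num) hi))]

theorem t_eqeval (F : List Rule) (hF : IsFrege F) : S_eqeval F := by
  obtain ⟨c₁, h₁⟩ := conjT F hF
  obtain ⟨c₂, h₂⟩ := conjF F hF
  -- true
  obtain ⟨d₁, g₁⟩ := schemaL hF [imp (var 0) (iff (var 1) (imp (var 2) (var 2)))]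
    (imp (var 0) (var 1)) (by
    intro v h; simp [eval, iff] at h ⊢; tauto)
  obtain ⟨d₂, g₂⟩ := schemaL hF [imp (var 0) (iff (var 1) (neg (imp (var 2) (var 2))))]
    (imp (var 0) (neg (var 1))) (by
    intro v h; simp [eval, iff] at h ⊢; tauto)
  obtain ⟨d₃, g₃⟩ := schemaL hF [imp (var 0) (iff (var 1) (imp (var 2) (var 2)))]
    (imp (var 0) (neg (neg (var 1)))) (by
    intro v h; simp [eval, iff] at h ⊢; tauto)
  refine ⟨c₁ + c₂ + (d₁ + d₂ + d₃), fun z ℓ a q τ H M ha hq hH hs Γ hΓ => ?_⟩
  have hM : 1 ≤ M := (size_pos H).trans hH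
  have hlen : ((List.range ℓ).map fun i => if q.testBit i = true then τ i else neg (τ i)).length
      = ℓ := by simp
  have hsz : (conjL z ((List.range ℓ).map fun i =>
      if q.testBit i = true then τ i else neg (τ i))).size ≤ M := by
    have : (eqc z ℓ τ q).size ≤ M := by omega
    exact this
  have hmem : ∀ e < ℓ, (τ e).size ≤ M := by
    intro e he
    have h3 : (if q.testBit e = true then τ e else neg (τ e)) ∈
        ((List.range ℓ).map fun i => if q.testBit i = true then τ i else neg (τ i)) :=
      List.mem_map.2 ⟨e, List.mem_range.2 he, rfl⟩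
    have h4 := size_le_psize h3
    rw [conjL_size] at hsz
    have h5 : (τ e).size ≤ (if q.testBit e = true then τ e else neg (τ e)).size := by
      split_ifs
      · exact le_rfl
      · simp [size]
    omega
  -- the four derivations
  have T1 : ∀ e < ℓ, a.testBit e = true → Can F Γ [imp H (τ e)] ((d₁ + d₂ + d₃) * M) := by
    intro e he hb
    have h3 := hΓ e he
    rw [hb] at h3
    refine ((g₁ [H, τ e, var z] M hM ?_ Γ ?_).sub ?_).mono subset_rfl ?_
    · intro Y hY; simp at hY; rcases hY with rfl | rfl | rfl
      exacts [hH, hmem e he, hM]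
    · intro A hA
      simp only [List.mem_singleton] at hA
      subst hA
      simpa [subst, asg, iff, cst, top] using h3
    · intro B hB
      simpa [subst, asg] using hB
    · exact Nat.mul_le_mul_right _ (by omega)
  have T2 : ∀ e < ℓ, a.testBit e = false → Can F Γ [imp H (neg (τ e))] ((d₁ + d₂ + d₃) * M) := by
    intro e he hb
    have h3 := hΓ e he
    rw [hb] at h3
    refine ((g₂ [H, τ e, var z] M hM ?_ Γ ?_).sub ?_).mono subset_rfl ?_
    · intro Y hY; simp at hY; rcases hY with rfl | rfl | rfl
      exacts [hH, hmem e he, hM]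
    · intro A hA
      simp only [List.mem_singleton] at hA
      subst hA
      simpa [subst, asg, iff, cst, top] using h3
    · intro B hB
      simpa [subst, asg] using hB
    · exact Nat.mul_le_mul_right _ (by omega)
  have T3 : ∀ e < ℓ, a.testBit e = true →
      Can F Γ [imp H (neg (neg (τ e)))] ((d₁ + d₂ + d₃) * M) := by
    intro e he hb
    have h3 := hΓ e he
    rw [hb] at h3
    refine ((g₃ [H, τ e, var z] M hM ?_ Γ ?_).sub ?_).mono subset_rfl ?_
    · intro Y hY; simp at hY; rcases hY with rfl | rfl | rfl
      exacts [hH, hmem e he, hM]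
    · intro A hA
      simp only [List.mem_singleton] at hA
      subst hA
      simpa [subst, asg, iff, cst, top] using h3
    · intro B hB
      simpa [subst, asg] using hB
    · exact Nat.mul_le_mul_right _ (by omega)
  by_cases haq : a = q
  · subst haq
    have h3 := h₁ z H _ M ((d₁ + d₂ + d₃) * M) hH hsz Γ (by
      intro X hX
      obtain ⟨e, he, rfl⟩ := List.mem_map.1 hX
      rw [List.mem_range] at he
      cases hb : a.testBit e with
      | true => simpa using T1 e he hb
      | false => simpa using T2 e he hb)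
    rw [hlen] at h3
    refine (h3.sub ?_).mono subset_rfl ?_
    · intro B hB
      simpa [cst, eqc] using hB
    · refine Nat.mul_le_mul_right _ ?_
      nlinarith [Nat.zero_le (c₂ * M)]
  · obtain ⟨e, he, hne⟩ := exists_digit ha hq haq
    have hX : (if q.testBit e = true then τ e else neg (τ e)) ∈
        ((List.range ℓ).map fun i => if q.testBit i = true then τ i else neg (τ i)) :=
      List.mem_map.2 ⟨e, List.mem_range.2 he, rfl⟩
    have h4 : Can F Γ [imp H (neg (if q.testBit e = true then τ e else neg (τ e)))]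
        ((d₁ + d₂ + d₃) * M) := by
      cases hb : a.testBit e with
      | true =>
        have hq' : q.testBit e = false := by
          cases hqb : q.testBit e with
          | true => rw [hb, hqb] at hne; exact absurd rfl hne
          | false => rfl
        simpa [hq'] using T3 e he hb
      | false =>
        have hq' : q.testBit e = true := by
          cases hqb : q.testBit e with
          | false => rw [hb, hqb] at hne; exact absurd rfl hne
          | true => rfl
        simpa [hq'] using T2 e he hb
    have h3 := h₂ z H _ M ((d₁ + d₂ + d₃) * M) hH hsz Γ _ hX h4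
    rw [hlen] at h3
    refine (h3.sub ?_).mono subset_rfl ?_
    · intro B hB
      simpa [cst, eqc, haq] using hB
    · calc (d₁ + d₂ + d₃) * M + c₂ * M * (ℓ + 1)
          ≤ (d₁ + d₂ + d₃) * M * (ℓ + 1) + (c₁ + c₂) * M * (ℓ + 1) := by
            refine Nat.add_le_add (Nat.le_mul_of_pos_right _ (Nat.succ_pos _)) ?_
            exact Nat.mul_le_mul_right _ (Nat.mul_le_mul_right _ (by omega))
        _ = (c₁ + c₂ + (d₁ + d₂ + d₃)) * M * (ℓ + 1) := by ring

theorem cd_sizes (z z' : ℕ) (δ : ℕ → Fm) (l : List Fm) :
    (conjL z (l.map fun X => X.subst δ)).size + 1 = (disjL z (l.map fun X => X.subst δ)).size ∧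
    ((disjL z' l).subst δ).size = ((conjL z' l).subst δ).size + 1 := by
  constructor
  · rw [conjL_size, disjL_size]
  · induction l with
    | nil => simp [disjL, conjL, subst, size]
    | cons D l ih => simp only [disjL, conjL, subst, size] at ih ⊢; omega

theorem t_cdsub (F : List Rule) (hF : IsFrege F) : S_cdsub F := by
  obtain ⟨c₁, h₁⟩ := schemaL hF [] (imp (var 0) (iff (imp (var 1) (var 1))
    (imp (var 2) (var 2)))) (by
    intro v h; simp [eval, iff])
  obtain ⟨c₂, h₂⟩ := schemaL hF [] (imp (var 0) (iff (neg (imp (var 1) (var 1)))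
    (neg (imp (var 2) (var 2))))) (by
    intro v h; simp [eval, iff])
  obtain ⟨c₃, h₃⟩ := schemaL hF [imp (var 0) (iff (var 2) (var 3))]
    (imp (var 0) (iff (and (var 1) (var 2)) (and (var 1) (var 3)))) (by
    intro v h; simp [eval, iff] at h ⊢; tauto)
  obtain ⟨c₄, h₄⟩ := schemaL hF [imp (var 0) (iff (var 2) (var 3))]
    (imp (var 0) (iff (or (var 1) (var 2)) (or (var 1) (var 3)))) (by
    intro v h; simp [eval, iff] at h ⊢; tauto)
  have key : ∀ (z z' : ℕ) (δ : ℕ → Fm) (l : List Fm) (H : Fm) (M : ℕ), 1 ≤ M →
      H.size ≤ M → ((conjL z' l).subst δ).size ≤ M → ((disjL z' l).subst δ).size ≤ M →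
      (conjL z (l.map fun X => X.subst δ)).size ≤ M →
      (disjL z (l.map fun X => X.subst δ)).size ≤ M →
      (δ z').size ≤ M → ∀ Γ : Set Fm,
      Can F Γ ([imp H (iff ((conjL z' l).subst δ) (conjL z (l.map fun X => X.subst δ)))] ++
        [imp H (iff ((disjL z' l).subst δ) (disjL z (l.map fun X => X.subst δ)))])
        ((c₁ + c₂ + c₃ + c₄) * M * (l.length + 1)) := by
    intro z z' δ l H M hM hH
    induction l with
    | nil =>
      intro _ _ _ _ hd Γ
      have r1 := h₁ [H, δ z', var z] M hM (by
        intro Y hY; simp at hY; rcases hY with rfl | rfl | rfl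
        exacts [hH, hd, hM]) Γ (by simp)
      have r2 := h₂ [H, δ z', var z] M hM (by
        intro Y hY; simp at hY; rcases hY with rfl | rfl | rfl
        exacts [hH, hd, hM]) Γ (by simp)
      refine ((r1.append r2).sub ?_).mono subset_rfl ?_
      · intro B hB
        simpa [subst, asg, iff, conjL, disjL] using hB
      · simp only [List.length_nil]
        nlinarith [Nat.zero_le (c₃ * M), Nat.zero_le (c₄ * M)]
    | cons D l ih =>
      intro s1 s2 s3 s4 hd Γ
      simp only [List.map_cons, conjL, disjL, subst, size] at s1 s2 s3 s4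
      have r := ih (by omega) (by omega) (by omega) (by omega) hd Γ
      have r1 := h₃ [H, D.subst δ, (conjL z' l).subst δ, conjL z (l.map fun X => X.subst δ)]
        M hM (by
          intro Y hY; simp only [List.mem_cons, List.not_mem_nil, or_false] at hY
          rcases hY with rfl | rfl | rfl | rfl
          exacts [hH, by omega, by omega, by omega])
        (Γ ∪ {Y | Y ∈ [imp H (iff ((conjL z' l).subst δ) (conjL z (l.map fun X => X.subst δ)))] ++
          [imp H (iff ((disjL z' l).subst δ) (disjL z (l.map fun X => X.subst δ)))]}) (by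
          intro Y hY; simp only [List.mem_singleton] at hY; subst hY
          right; simp [subst, asg, iff])
      have r2 := h₄ [H, D.subst δ, (disjL z' l).subst δ, disjL z (l.map fun X => X.subst δ)]
        M hM (by
          intro Y hY; simp only [List.mem_cons, List.not_mem_nil, or_false] at hY
          rcases hY with rfl | rfl | rfl | rfl
          exacts [hH, by omega, by omega, by omega])
        (Γ ∪ {Y | Y ∈ [imp H (iff ((conjL z' l).subst δ) (conjL z (l.map fun X => X.subst δ)))] ++
          [imp H (iff ((disjL z' l).subst δ) (disjL z (l.map fun X => X.subst δ)))]}) (by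
          intro Y hY; simp only [List.mem_singleton] at hY; subst hY
          right; simp [subst, asg, iff])
      refine ((r.cut (r1.append r2)).sub ?_).mono subset_rfl ?_
      · intro B hB
        simpa [subst, asg, iff, conjL, disjL] using hB
      · simp only [List.length_cons]
        nlinarith [Nat.zero_le (c₁ * M), Nat.zero_le (c₂ * M)]
  refine ⟨2 * (c₁ + c₂ + c₃ + c₄), fun z z' δ l H M hH hs Γ => ?_⟩
  have hM : 1 ≤ M := (size_pos H).trans hH
  obtain ⟨e1, e2⟩ := cd_sizes z z' δ l
  have h5 := key z z' δ l H (2 * M) (by omega) (by omega) (by omega) (by omega) (by omega)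
    (by omega) (by omega) Γ
  refine (h5.sub ?_).mono subset_rfl ?_
  · intro B hB
    simpa using hB
  · exact le_of_eq (by ring)

end Pool.Agent.H586P.T_eval3
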