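import Pool.Agent.H586P.Defs3

set_option autoImplicit false

namespace Pool.Agent.H586P.T_frepl

open Pool.Agent.H586P Pool.Agent.H555R2.PF Pool.Agent.H555R2.PF.Fm

theorem t_frepl (F : List Rule) (hF : IsFrege F) : S_frepl F := by
  obtain ⟨c₁, h₁⟩ := FO.schemaL hF [iff (var 0) (var 1)] (iff (neg (var 0)) (neg (var 1))) (by
    intro v h; simp [eval, iff] at h ⊢; tauto)
  obtain ⟨c₂, h₂⟩ := FO.schemaL hF [iff (var 0) (var 1), iff (var 2) (var 3)]
    (iff (and (var 0) (var 2)) (and (var 1) (var 3))) (by
    intro v h; simp [eval, iff] at h ⊢; tauto)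
  obtain ⟨c₃, h₃⟩ := FO.schemaL hF [iff (var 0) (var 1), iff (var 2) (var 3)]
    (iff (or (var 0) (var 2)) (or (var 1) (var 3))) (by
    intro v h; simp [eval, iff] at h ⊢; tauto)
  obtain ⟨c₄, h₄⟩ := FO.schemaL hF [iff (var 0) (var 1), iff (var 2) (var 3)]
    (iff (imp (var 0) (var 2)) (imp (var 1) (var 3))) (by
    intro v h; simp [eval, iff] at h ⊢; tauto)
  have key : ∀ (B : Fm) (σ τ : ℕ → Fm) (K M : ℕ), (B.subst σ).size ≤ M →
      (B.subst τ).size ≤ M → (∀ n ∈ B.vars, FC F (iff (σ n) (τ n)) K) →
      FC F (iff (B.subst σ) (B.subst τ)) (B.size * K + (c₁ + c₂ + c₃ + c₄) * M * B.size) := by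
    intro B σ τ K M
    induction B with
    | var n =>
      intro _ _ h
      refine FO.Can.mono (h n (by simp [vars])) subset_rfl ?_
      simp only [size]
      omega
    | neg A ih =>
      intro hs ht h
      simp only [subst, size] at hs ht
      have hM : 1 ≤ M := by omega
      have r := ih (by omega) (by omega) h
      have s := h₁ [A.subst σ, A.subst τ] M hM (by
        intro X hX; simp at hX; rcases hX with rfl | rfl
        exacts [by omega, by omega]) (∅ ∪ {Y | Y ∈ [iff (A.subst σ) (A.subst τ)]}) (by
        intro Y hY; simp only [List.mem_singleton] at hY; subst hY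
        right; simp [subst, asg, iff])
      refine FO.Can.mono (FO.Can.sub (FO.Can.cut r s) (by
        intro Y hY
        simpa [subst, asg, iff] using hY)) subset_rfl ?_
      simp only [size]
      nlinarith [Nat.zero_le (c₂ * M), Nat.zero_le (c₃ * M), Nat.zero_le (c₄ * M)]
    | and A B iA iB =>
      intro hs ht h
      simp only [subst, size] at hs ht
      have hM : 1 ≤ M := by omega
      have rA := iA (by omega) (by omega) (fun n hn => h n (by simp [vars, hn]))
      have rB := iB (by omega) (by omega) (fun n hn => h n (by simp [vars, hn]))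
      have s := h₂ [A.subst σ, A.subst τ, B.subst σ, B.subst τ] M hM (by
        intro X hX; simp at hX; rcases hX with rfl | rfl | rfl | rfl
        exacts [by omega, by omega, by omega, by omega])
        (∅ ∪ {Y | Y ∈ [iff (A.subst σ) (A.subst τ)] ++ [iff (B.subst σ) (B.subst τ)]}) (by
        intro Y hY; simp only [List.mem_cons, List.not_mem_nil, or_false] at hY
        rcases hY with rfl | rfl <;> right <;> simp [subst, asg, iff])
      refine FO.Can.mono (FO.Can.sub (FO.Can.cut (FO.Can.append rA rB) s) (by
        intro Y hY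
        simpa [subst, asg, iff] using hY)) subset_rfl ?_
      simp only [size]
      nlinarith [Nat.zero_le (c₁ * M), Nat.zero_le (c₃ * M), Nat.zero_le (c₄ * M)]
    | or A B iA iB =>
      intro hs ht h
      simp only [subst, size] at hs ht
      have hM : 1 ≤ M := by omega
      have rA := iA (by omega) (by omega) (fun n hn => h n (by simp [vars, hn]))
      have rB := iB (by omega) (by omega) (fun n hn => h n (by simp [vars, hn]))
      have s := h₃ [A.subst σ, A.subst τ, B.subst σ, B.subst τ] M hM (by
        intro X hX; simp at hX; rcases hX with rfl | rfl | rfl | rfl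
        exacts [by omega, by omega, by omega, by omega])
        (∅ ∪ {Y | Y ∈ [iff (A.subst σ) (A.subst τ)] ++ [iff (B.subst σ) (B.subst τ)]}) (by
        intro Y hY; simp only [List.mem_cons, List.not_mem_nil, or_false] at hY
        rcases hY with rfl | rfl <;> right <;> simp [subst, asg, iff])
      refine FO.Can.mono (FO.Can.sub (FO.Can.cut (FO.Can.append rA rB) s) (by
        intro Y hY
        simpa [subst, asg, iff] using hY)) subset_rfl ?_
      simp only [size]
      nlinarith [Nat.zero_le (c₁ * M), Nat.zero_le (c₂ * M), Nat.zero_le (c₄ * M)]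
    | imp A B iA iB =>
      intro hs ht h
      simp only [subst, size] at hs ht
      have hM : 1 ≤ M := by omega
      have rA := iA (by omega) (by omega) (fun n hn => h n (by simp [vars, hn]))
      have rB := iB (by omega) (by omega) (fun n hn => h n (by simp [vars, hn]))
      have s := h₄ [A.subst σ, A.subst τ, B.subst σ, B.subst τ] M hM (by
        intro X hX; simp at hX; rcases hX with rfl | rfl | rfl | rfl
        exacts [by omega, by omega, by omega, by omega])
        (∅ ∪ {Y | Y ∈ [iff (A.subst σ) (A.subst τ)] ++ [iff (B.subst σ) (B.subst τ)]}) (by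
        intro Y hY; simp only [List.mem_cons, List.not_mem_nil, or_false] at hY
        rcases hY with rfl | rfl <;> right <;> simp [subst, asg, iff])
      refine FO.Can.mono (FO.Can.sub (FO.Can.cut (FO.Can.append rA rB) s) (by
        intro Y hY
        simpa [subst, asg, iff] using hY)) subset_rfl ?_
      simp only [size]
      nlinarith [Nat.zero_le (c₁ * M), Nat.zero_le (c₂ * M), Nat.zero_le (c₃ * M)]
  refine ⟨c₁ + c₂ + c₃ + c₄, fun B σ τ K M hs ht h => ?_⟩
  refine FO.Can.mono (key B σ τ K M hs ht h) subset_rfl ?_
  have : (c₁ + c₂ + c₃ + c₄) * M * B.size ≤ (c₁ + c₂ + c₃ + c₄) * M * (B.size + 1) :=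
    Nat.mul_le_mul_left _ (Nat.le_succ _)
  omega

end Pool.Agent.H586P.T_frepl
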