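import Pool.Agent.H586P.Defs3

/-!
# Transfer of closed Frege proofs to substitution Frege with few variables
-/

set_option autoImplicit false

namespace Pool.Agent.H586P.T_fsub

open Pool.Agent.H586P Pool.Agent.H555R2.PF Pool.Agent.H555R2.PF.Fm

theorem vars_subst_subset {W : Finset ℕ} {σ : ℕ → Fm} (hσ : ∀ n, (σ n).vars ⊆ W) (A : Fm) :
    (A.subst σ).vars ⊆ W := by
  induction A with
  | var n => exact hσ n
  | neg A ih => exact ih
  | and A B iA iB => exact Finset.union_subset iA iB
  | or A B iA iB => exact Finset.union_subset iA iB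
  | imp A B iA iB => exact Finset.union_subset iA iB

theorem psize_map_rename (ρ : ℕ → ℕ) (D : List Fm) :
    psize (D.map (fun A => A.rename ρ)) = psize D := by
  induction D with
  | nil => rfl
  | cons B D ih => rw [List.map_cons, psize_cons, psize_cons, ih, size_rename]

/-- closed Frege proofs with renamed variables -/
theorem sub_of_fproof {F : List Rule} {W : Finset ℕ} {ρ : ℕ → ℕ} (hρ : ∀ n, ρ n ∈ W)
    {D : List Fm} (hD : FO.FProof F D) {L : List Fm} (hL : SubProof F W L) :
    SubProof F W (D.map (fun A => A.rename ρ) ++ L) := by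
  induction hD with
  | nil => exact hL
  | @rule D B hD hB ih =>
    obtain ⟨r, hr, τ, h1, h2⟩ := hB
    rw [List.map_cons, List.cons_append]
    refine SubProof.rule ih ⟨r, hr, fun n => (τ n).rename ρ, ?_, ?_⟩ ?_
    · rw [h1]
      unfold Fm.rename
      rw [Fm.subst_subst]
    · intro p hp
      refine List.mem_append_left _ (List.mem_map.2 ⟨_, h2 p hp, ?_⟩)
      unfold Fm.rename
      rw [Fm.subst_subst]
    · unfold Fm.rename
      exact vars_subst_subset (fun n => by
        simp only [Fm.vars, Finset.singleton_subset_iff]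
        exact hρ n) _

/-- instances of a derivation in substitution Frege -/
theorem derivation_sub {F : List Rule} {Γ₀ : List Fm} {Lf : List Fm}
    (hd : Derivation F Γ₀ Lf) {W : Finset ℕ} {σ : ℕ → Fm} {M : ℕ} (hM : 1 ≤ M)
    (hσ : ∀ n, (σ n).size ≤ M) (hW : ∀ n, (σ n).vars ⊆ W) {L : List Fm}
    (hL : SubProof F W L) (hΓ : ∀ A ∈ Γ₀, A.subst σ ∈ L) :
    ∃ D, SubProof F W (D ++ L) ∧ (∀ B ∈ Lf, B.subst σ ∈ D ++ L) ∧ psize D ≤ psize Lf * M := by
  induction hd with
  | nil => exact ⟨[], hL, by simp, by simp [psize]⟩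
  | @hyp Lf B hd hB ih =>
    obtain ⟨D, h1, h2, h3⟩ := ih
    refine ⟨D, h1, ?_, ?_⟩
    · intro C hC
      rcases List.mem_cons.1 hC with rfl | hC
      · exact List.mem_append_right _ (hΓ _ hB)
      · exact h2 C hC
    · rw [psize_cons]
      nlinarith [Nat.zero_le (B.size * M)]
  | @rule Lf B hd hB ih =>
    obtain ⟨r, hr, τ, h1, h2⟩ := hB
    obtain ⟨D, h3, h4, h5⟩ := ih
    refine ⟨B.subst σ :: D, ?_, ?_, ?_⟩
    · rw [List.cons_append]
      refine SubProof.rule h3 ⟨r, hr, fun n => (τ n).subst σ, by rw [h1, Fm.subst_subst], ?_⟩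
        (vars_subst_subset hW B)
      intro p hp
      rw [← Fm.subst_subst]
      exact h4 _ (h2 p hp)
    · intro C hC
      rw [List.cons_append]
      rcases List.mem_cons.1 hC with rfl | hC
      · simp
      · exact List.mem_cons_of_mem _ (h4 C hC)
    · rw [psize_cons, psize_cons]
      have := Fm.size_subst_le (σ := σ) hM (A := B) (fun n _ => hσ n)
      nlinarith

theorem t_fsub (F : List Rule) (hF : IsFrege F) : S_fsub F := by
  obtain ⟨Lf, hLf⟩ := hF.2 [imp (var 0) (var 1), var 0] (var 1) (by
    intro v h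
    simp [eval] at h ⊢
    tauto)
  refine ⟨psize (var 1 :: Lf), ?_⟩
  intro W X Y K hX hY hK Γ hΓ L hL hΓL
  obtain ⟨D, hD, hm, hs⟩ := hK [] FO.FProof.nil (by simp)
  rw [List.append_nil] at hD hm
  obtain ⟨w0, hw0⟩ := X.vars_nonempty
  have hw0W := hX hw0
  let ρ : ℕ → ℕ := fun n => if n ∈ W then n else w0
  have hρ : ∀ n, ρ n ∈ W := by
    intro n
    by_cases h : n ∈ W
    · simp only [ρ, h, if_true]
    · simp only [ρ, h, if_false]
      exact hw0W
  have h1 := sub_of_fproof hρ hD hL
  have himp : imp X Y ∈ D.map (fun A => A.rename ρ) := by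
    refine List.mem_map.2 ⟨imp X Y, hm _ (by simp), ?_⟩
    apply Fm.rename_eq_self
    intro n hn
    have : n ∈ W := by
      simp only [Fm.vars, Finset.mem_union] at hn
      rcases hn with hn | hn
      · exact hX hn
      · exact hY hn
    simp only [ρ, this, if_true]
  have hXs := X.size_pos
  obtain ⟨D2, h2, h3, h4⟩ := derivation_sub hLf (W := W)
    (σ := fun n => if n = 0 then X else if n = 1 then Y else var w0) (M := X.size + Y.size)
    (by omega) (by
      intro n
      split_ifs
      · omega
      · omega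
      · simp only [Fm.size]; omega) (by
      intro n
      split_ifs
      · exact hX
      · exact hY
      · simpa [Fm.vars] using hw0W) h1 (by
      intro A hA
      simp only [List.mem_cons, List.not_mem_nil, or_false] at hA
      rcases hA with rfl | rfl
      · exact List.mem_append_left _ (by simpa [Fm.subst] using himp)
      · exact List.mem_append_right _ (by simpa [Fm.subst] using hΓL X hΓ))
  refine ⟨D2 ++ D.map (fun A => A.rename ρ), by rw [List.append_assoc]; exact h2, ?_, ?_⟩
  · intro B hB
    rw [List.mem_singleton] at hB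
    subst hB
    rw [List.append_assoc]
    have := h3 (var 1) (by simp)
    simpa [Fm.subst] using this
  · rw [psize_append, psize_map_rename]
    omega

end Pool.Agent.H586P.T_fsub
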