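import Pool.Agent.H586P.Defs3

/-!
# Task `lin`: if Frege + permutation polynomially simulates extended Frege, then so does
substitution Frege with linearly many variables
-/

set_option autoImplicit false

namespace Pool.Agent.H586P.T_lin

open Pool.Agent.H586P Pool.Agent.H555R2.PF Pool.Agent.H555R2.PF.Fm

theorem subProof_cut {F : List Rule} {W : Finset ℕ} {L : List Fm} (h : SubProof F W L) {B : Fm}
    (hB : B ∈ L) : ∃ L', SubProof F W (B :: L') ∧ psize (B :: L') ≤ psize L := by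
  induction h with
  | nil => exact absurd hB (by simp)
  | rule hL hs hv ih =>
    rcases List.mem_cons.1 hB with rfl | hB
    · exact ⟨_, .rule hL hs hv, le_rfl⟩
    · obtain ⟨L', h1, h2⟩ := ih hB
      exact ⟨L', h1, h2.trans (by rw [psize_cons]; omega)⟩
  | sub hL hs hv ih =>
    rcases List.mem_cons.1 hB with rfl | hB
    · exact ⟨_, .sub hL hs hv, le_rfl⟩
    · obtain ⟨L', h1, h2⟩ := ih hB
      exact ⟨L', h1, h2.trans (by rw [psize_cons]; omega)⟩

theorem psize_le_of {l : List Fm} {m : ℕ} (h : ∀ X ∈ l, X.size ≤ m) :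
    psize l ≤ m * l.length := by
  induction l with
  | nil => simp [psize]
  | cons a l ih =>
    rw [psize_cons, List.length_cons]
    have h1 := h a (by simp)
    have h2 := ih (fun X hX => h X (by simp [hX]))
    nlinarith

theorem dec_size (z r : ℕ) (h : ℕ → ℕ) (t : ℕ) : (dec z r h t).size ≤ 2 * 2 ^ r + 4 := by
  unfold dec
  rw [disjL_size]
  have h1 : ((List.range (2 ^ r)).filter (fun β => β.testBit t)).length ≤ 2 ^ r := by
    calc _ ≤ (List.range (2 ^ r)).length := List.length_filter_le _ _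
      _ = 2 ^ r := List.length_range
  have h2 : psize (((List.range (2 ^ r)).filter (fun β => β.testBit t)).map
      (fun β => var (h β))) ≤ 1 * (((List.range (2 ^ r)).filter (fun β => β.testBit t)).map
      (fun β => var (h β))).length := by
    apply psize_le_of
    intro X hX
    obtain ⟨β, -, rfl⟩ := List.mem_map.1 hX
    exact le_rfl
  rw [List.length_map] at h2 ⊢
  omega

/-- the variables of a list -/
def lvars (L : List Fm) : Finset ℕ := L.toFinset.biUnion Fm.vars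

theorem lvars_card (L : List Fm) : (lvars L).card ≤ psize L := by
  classical
  induction L with
  | nil => simp [lvars, psize]
  | cons a L ih =>
    have h1 : lvars (a :: L) ⊆ a.vars ∪ lvars L := by
      intro x hx
      simp only [lvars, Finset.mem_biUnion, List.mem_toFinset, List.mem_cons,
        Finset.mem_union] at hx ⊢
      obtain ⟨B, rfl | hB, hx⟩ := hx
      · exact Or.inl hx
      · exact Or.inr ⟨B, hB, hx⟩
    have h2 := Finset.card_le_card h1
    have h3 := Finset.card_union_le a.vars (lvars L)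
    have h4 := vars_card_le a
    rw [psize_cons]
    omega

/-- arithmetic: the number of positions -/
theorem pow_bound (c b s M w : ℕ) (hc : 1 ≤ c) (hb : 1 ≤ b) (hs : s + 1 ≤ 2 ^ b)
    (hM : M ≤ c * (6 * s ^ 2) ^ c) (hw : w ≤ s + 1) :
    M + w * 2 ^ b < 2 ^ ((6 * c + 3) * b) := by
  have h0 : c ≤ 2 ^ c := Nat.lt_two_pow_self.le
  have h1 : 6 * s ^ 2 ≤ 2 ^ (3 + 2 * b) := by
    have : s ^ 2 ≤ (2 ^ b) ^ 2 := Nat.pow_le_pow_left (by omega) 2
    calc 6 * s ^ 2 ≤ 8 * (2 ^ b) ^ 2 := by nlinarith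
      _ = 2 ^ (3 + 2 * b) := by rw [pow_add, ← pow_mul, mul_comm b 2]; norm_num
  have h2 : M ≤ 2 ^ (c + (3 + 2 * b) * c) := by
    calc M ≤ c * (6 * s ^ 2) ^ c := hM
      _ ≤ 2 ^ c * (2 ^ (3 + 2 * b)) ^ c := Nat.mul_le_mul h0 (Nat.pow_le_pow_left h1 c)
      _ = 2 ^ (c + (3 + 2 * b) * c) := by rw [← pow_mul, ← pow_add]
  have h3 : w * 2 ^ b ≤ 2 ^ (2 * b) := by
    calc w * 2 ^ b ≤ 2 ^ b * 2 ^ b := Nat.mul_le_mul_right _ (by omega)
      _ = 2 ^ (2 * b) := by rw [← pow_add]; congr 1; ring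
  have h4 : c + (3 + 2 * b) * c ≤ 6 * c * b := by nlinarith [Nat.mul_le_mul hc hb]
  have h5 : 2 ^ (c + (3 + 2 * b) * c) ≤ 2 ^ (6 * c * b) := Nat.pow_le_pow_right (by norm_num) h4
  have h6 : 2 ^ (2 * b) ≤ 2 ^ (6 * c * b) := Nat.pow_le_pow_right (by norm_num) (by nlinarith)
  calc M + w * 2 ^ b ≤ 2 ^ (6 * c * b) + 2 ^ (6 * c * b) := by omega
    _ = 2 ^ (6 * c * b + 1) := by rw [pow_succ]; ring
    _ < 2 ^ ((6 * c + 3) * b) := Nat.pow_lt_pow_right (by norm_num) (by nlinarith)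

/-- arithmetic: sizes -/
theorem size_bound (c s M w b β : ℕ) (hs : 2 ≤ s) (hM : M ≤ c * (6 * s ^ 2) ^ c)
    (hw : w ≤ s + 1) (hb : 2 ^ b ≤ 2 * s) (hβ : 2 ^ β ≤ 2 * (M + w * 2 ^ b)) :
    s + M + w + 2 ^ β ≤ (3 * c * 6 ^ c + 12) * s ^ (2 * c + 2) := by
  have e1 : c * (6 * s ^ 2) ^ c = c * 6 ^ c * s ^ (2 * c) := by
    rw [mul_pow, ← pow_mul]; ring
  have h1 : M ≤ c * 6 ^ c * s ^ (2 * c + 2) := by
    calc M ≤ c * (6 * s ^ 2) ^ c := hM
      _ = c * 6 ^ c * s ^ (2 * c) := e1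
      _ ≤ c * 6 ^ c * s ^ (2 * c + 2) :=
        Nat.mul_le_mul_left _ (Nat.pow_le_pow_right (by omega) (by omega))
  have h2 : s ^ 2 ≤ s ^ (2 * c + 2) := Nat.pow_le_pow_right (by omega) (by omega)
  have h3 : w * 2 ^ b ≤ 4 * s ^ 2 := by
    calc w * 2 ^ b ≤ (2 * s) * (2 * s) := Nat.mul_le_mul (by omega) hb
      _ = 4 * s ^ 2 := by ring
  have h4 : s ≤ s ^ 2 := by nlinarith
  have h5 : (3 * c * 6 ^ c + 12) * s ^ (2 * c + 2)
      = 3 * (c * 6 ^ c * s ^ (2 * c + 2)) + 12 * s ^ (2 * c + 2) := by ring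
  rw [h5]
  nlinarith

/-- arithmetic: the final bounds -/
theorem card_final (c n lg b w β Wc C : ℕ) (hb : b = lg + 1) (hlg : 1 ≤ lg)
    (hwb : w * b ≤ n + b) (hβb : β ≤ (6 * c + 3) * b) (hWc : Wc ≤ n + 1 + w * β)
    (hC : 20 * c + 20 ≤ C) : Wc ≤ C * (n + lg) := by
  have e1 : w * β ≤ (6 * c + 3) * (n + b) := by
    calc w * β ≤ w * ((6 * c + 3) * b) := Nat.mul_le_mul_left _ hβb
      _ = (6 * c + 3) * (w * b) := by ring
      _ ≤ (6 * c + 3) * (n + b) := Nat.mul_le_mul_left _ hwb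
  have e2 : (6 * c + 3) * (n + b) ≤ (6 * c + 3) * (2 * (n + lg)) :=
    Nat.mul_le_mul_left _ (by omega)
  have e3 : (20 * c + 20) * (n + lg) ≤ C * (n + lg) := Nat.mul_le_mul_right _ hC
  have e4 : (20 * c + 20) * (n + lg) = (6 * c + 3) * (2 * (n + lg)) + (8 * c + 14) * (n + lg) := by
    ring
  have e5 : n + 1 ≤ (8 * c + 14) * (n + lg) := by
    calc n + 1 ≤ 1 * (n + lg) := by omega
      _ ≤ (8 * c + 14) * (n + lg) := Nat.mul_le_mul_right _ (by omega)
  omega

theorem size_final (c2 c3 K s e B p1 p2 x1 x2 p C : ℕ) (hs : 1 ≤ s) (hB : B = K * s ^ e)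
    (hx1 : x1 ≤ B) (hx2 : x2 ≤ B) (hB1 : 1 ≤ B) (h1 : p1 ≤ c2 * x1 ^ 32)
    (h2 : p2 ≤ c3 * x2 ^ 30) (hp : p ≤ p2 + p1) (hC1 : (c2 + c3) * K ^ 32 ≤ C)
    (hC2 : 32 * e ≤ C) : p ≤ C * s ^ C := by
  have e1 : p1 ≤ c2 * B ^ 32 := h1.trans (Nat.mul_le_mul_left _ (Nat.pow_le_pow_left hx1 32))
  have e2 : p2 ≤ c3 * B ^ 32 := by
    refine h2.trans (Nat.mul_le_mul_left _ ?_)
    calc x2 ^ 30 ≤ B ^ 30 := Nat.pow_le_pow_left hx2 30
      _ ≤ B ^ 32 := Nat.pow_le_pow_right hB1 (by norm_num)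
  have e4 : B ^ 32 = K ^ 32 * s ^ (32 * e) := by
    rw [hB, mul_pow, ← pow_mul, mul_comm e 32]
  have e5 : s ^ (32 * e) ≤ s ^ C := Nat.pow_le_pow_right hs hC2
  calc p ≤ c3 * B ^ 32 + c2 * B ^ 32 := hp.trans (Nat.add_le_add e2 e1)
    _ = ((c2 + c3) * K ^ 32) * s ^ (32 * e) := by rw [e4]; ring
    _ ≤ C * s ^ C := Nat.mul_le_mul hC1 e5

theorem t_lin (F : List Rule) (_hF : IsFrege F) (h1 : S_efsub F) (h2 : S_dloop F)
    (h3 : S_dfin F) (h4 : S_code) (h5 : S_enum) (h6 : S_val F) : S_lin F := by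
  classical
  rintro ⟨c, hc⟩
  obtain ⟨c2, hc2⟩ := h2
  obtain ⟨c3, hc3⟩ := h3
  set K : ℕ := 3 * c * 6 ^ c + 12 with hK
  refine ⟨20 * c + 20 + ((c2 + c3) * K ^ 32 + 32 * (2 * c + 2)), ?_⟩
  set C : ℕ := 20 * c + 20 + ((c2 + c3) * K ^ 32 + 32 * (2 * c + 2)) with hC
  intro A k L hL
  set s : ℕ := psize (A :: L) with hs
  set n : ℕ := A.vars.card with hn
  have hAs : A.size ≤ s := size_le_psize (by simp)
  have hval := h6 A k L hL
  have hA2 : 2 ≤ A.size := by
    cases hA : A with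
    | var m =>
      rw [hA] at hval
      exact absurd (hval (fun _ => False)) (by simp [Fm.eval])
    | neg B => have := size_pos B; simp only [Fm.size]; omega
    | and B D => have := size_pos B; simp only [Fm.size]; omega
    | or B D => have := size_pos B; simp only [Fm.size]; omega
    | imp B D => have := size_pos B; simp only [Fm.size]; omega
  have hs2 : 2 ≤ s := hA2.trans hAs
  have hns : n ≤ s := (vars_card_le A).trans hAs
  set b : ℕ := Nat.log 2 s + 1 with hb
  have hlog : 1 ≤ Nat.log 2 s := Nat.log_pos (by norm_num) hs2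
  have hb1 : 1 ≤ b := by omega
  have hsb : s < 2 ^ b := Nat.lt_pow_succ_log_self (by norm_num) s
  have h2b : 2 ^ b ≤ 2 * s := by
    have : 2 ^ Nat.log 2 s ≤ s := Nat.pow_log_le_self 2 (by omega)
    rw [hb, pow_succ]
    omega
  set w : ℕ := n / b + 1 with hw
  have hdm := Nat.div_add_mod n b
  have hml := Nat.mod_lt n (show 0 < b by omega)
  have hnwb : n ≤ w * b := by
    rw [hw, add_mul, one_mul, mul_comm (n / b) b]
    omega
  have hwb : w * b ≤ n + b := by
    rw [hw, add_mul, one_mul, mul_comm (n / b) b]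
    omega
  have hws : w ≤ s + 1 := by
    have := Nat.div_le_self n b
    omega
  -- fresh variables
  obtain ⟨z, hz⟩ : ∃ z, ∀ m ∈ A.vars, m < z :=
    ⟨A.vars.sup id + 1, fun m hm => Nat.lt_succ_of_le (Finset.le_sup (f := id) hm)⟩
  have hzA : z ∉ A.vars := fun h => lt_irrefl _ (hz z h)
  obtain ⟨idx, vv, henum⟩ := h5 A
  -- the substituted proof
  obtain ⟨L1, hL1, hL1s⟩ := h1 A k L hL
    (fun m => dec z b (fun α => (z + 1) + (idx m / b * 2 ^ b + α)) (idx m % b))
    (2 * 2 ^ b + 4) (by omega) (fun m _ => dec_size _ _ _ _)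
  set A2 : Fm := A.subst
    (fun m => dec z b (fun α => (z + 1) + (idx m / b * 2 ^ b + α)) (idx m % b)) with hA2'
  have hs2' : psize (A2 :: L1) ≤ 6 * s ^ 2 := by
    calc psize (A2 :: L1) ≤ (2 * 2 ^ b + 4) * s := hL1s
      _ ≤ (6 * s) * s := Nat.mul_le_mul_right _ (by omega)
      _ = 6 * s ^ 2 := by ring
  obtain ⟨L2, hL2, hL2s⟩ := hc A2 k L1 hL1
  set M : ℕ := psize (A2 :: L2) with hM
  have hMs : M ≤ c * (6 * s ^ 2) ^ c :=
    hL2s.trans (Nat.mul_le_mul_left _ (Nat.pow_le_pow_left hs2' c))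
  have hM1 : 1 ≤ M := by
    have := size_pos A2
    rw [hM, psize_cons]
    omega
  have hc1 : 1 ≤ c := by
    rcases Nat.eq_zero_or_pos c with h | h
    · rw [h] at hMs; simp at hMs; omega
    · exact h
  -- the variables
  set X : Finset ℕ := lvars (A2 :: L2) ∪ (Finset.range (w * 2 ^ b)).image (fun j => (z + 1) + j)
    with hX
  have hXc : X.card ≤ M + w * 2 ^ b := by
    refine (Finset.card_union_le _ _).trans (Nat.add_le_add (lvars_card _) ?_)
    exact Finset.card_image_le.trans (by rw [Finset.card_range])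
  have hXw : w * 2 ^ b ≤ X.card := by
    have h : ((Finset.range (w * 2 ^ b)).image (fun j => (z + 1) + j)).card = w * 2 ^ b := by
      rw [Finset.card_image_of_injective _ (fun a b h => by simpa using h), Finset.card_range]
    rw [← h]
    exact Finset.card_le_card Finset.subset_union_right
  set β : ℕ := Nat.log 2 X.card + 1 with hβ
  have hXβ : X.card < 2 ^ β := Nat.lt_pow_succ_log_self (by norm_num) _
  have hwpos : 1 ≤ w := Nat.succ_pos _
  have h2bpos : 1 ≤ 2 ^ b := Nat.one_le_two_pow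
  have hX1 : 1 ≤ X.card := by nlinarith
  have h2β : 2 ^ β ≤ 2 * X.card := by
    have : 2 ^ Nat.log 2 X.card ≤ X.card := Nat.pow_log_le_self 2 (by omega)
    rw [hβ, pow_succ]
    omega
  have hbβ : b ≤ β := by
    have : 2 ^ b < 2 ^ β := by nlinarith
    exact ((Nat.pow_lt_pow_iff_right (by norm_num)).1 this).le
  have hβb : β ≤ (6 * c + 3) * b := by
    have h := pow_bound c b s M w hc1 hb1 hsb hMs hws
    have h' : X.card < 2 ^ ((6 * c + 3) * b) := lt_of_le_of_lt hXc h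
    have h'' : Nat.log 2 X.card < (6 * c + 3) * b :=
      Nat.log_lt_of_lt_pow (by omega) h'
    omega
  obtain ⟨code, hcode1, hcode2, hcode3⟩ := h4 X (z + 1) (w * 2 ^ b) (2 ^ β)
    (fun j hj => Finset.mem_union_right _ (Finset.mem_image.2 ⟨j, Finset.mem_range.2 hj, rfl⟩))
    hXβ.le
  set t : ℕ → ℕ → ℕ := fun l i => z + 1 + Nat.pair l i with ht
  set W : Finset ℕ := A.vars ∪ ({z} ∪ (Finset.range w ×ˢ Finset.range β).image
    (fun p => t p.1 p.2)) with hW
  have hSpr : Spr z w β t X code W :=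
    { tz := fun l i => by simp only [ht]; omega
      tinj := fun l i l' i' h => by
        simp only [ht] at h
        have h' : Nat.pair l i = Nat.pair l' i' := by omega
        exact Nat.pair_eq_pair.1 h'
      cinj := hcode1
      clt := hcode2
      zW := by simp [hW]
      tW := fun l hl i hi => by
        refine Finset.mem_union_right _ (Finset.mem_union_right _ (Finset.mem_image.2
          ⟨(l, i), ?_, rfl⟩))
        simp [hl, hi] }
  have hWc : W.card ≤ n + 1 + w * β := by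
    refine (Finset.card_union_le _ _).trans ?_
    have e1 := Finset.card_union_le {z} ((Finset.range w ×ˢ Finset.range β).image
      (fun p => t p.1 p.2))
    have e2 : ((Finset.range w ×ˢ Finset.range β).image (fun p => t p.1 p.2)).card ≤ w * β :=
      Finset.card_image_le.trans (by simp)
    rw [Finset.card_singleton] at e1
    omega
  -- the proofs
  obtain ⟨D1, hD1, hD1m, hD1s⟩ := hc2 z w β t X code W hSpr (A2 :: L2) hL2
    (fun B hB x hx => Finset.mem_union_left _ (Finset.mem_biUnion.2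
      ⟨B, List.mem_toFinset.2 hB, hx⟩)) ∅ [] SubProof.nil (by simp)
  have hmem : A2.subst (del z w β t code) ∈ D1 ++ [] := hD1m _ (by simp)
  obtain ⟨D2, hD2, hD2m, hD2s⟩ := hc3 z w β b n (z + 1) t X code W hSpr A idx vv henum hb1 hbβ
    hnwb (hXw.trans hXβ.le) hzA
    (fun l i h => by have := hz _ h; simp only [ht] at this; omega)
    (Finset.subset_union_left) hcode3 {A2.subst (del z w β t code)} rfl (D1 ++ []) hD1
    (by intro B hB; rw [Set.mem_singleton_iff.1 hB]; exact hmem)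
  obtain ⟨L', hL', hL's⟩ := subProof_cut hD2 (hD2m A (by simp))
  refine ⟨W, L', ?_, hL', ?_⟩
  · exact card_final c n (Nat.log 2 s) b w β W.card C hb hlog hwb hβb hWc (Nat.le_add_right _ _)
  · have hsz := size_bound c s M w b β hs2 hMs hws h2b
      (h2β.trans (Nat.mul_le_mul_left _ hXc))
    have e3 : psize (D2 ++ (D1 ++ [])) = psize D2 + psize D1 := by
      rw [List.append_nil, psize_append]
    have g1 : M + w + 2 ^ β ≤ K * s ^ (2 * c + 2) := le_trans (by omega) hsz
    have g2 : A.size + w + 2 ^ β ≤ K * s ^ (2 * c + 2) := le_trans (by omega) hsz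
    have g3 : 1 ≤ K * s ^ (2 * c + 2) := le_trans (by omega) hsz
    exact size_final c2 c3 K s (2 * c + 2) (K * s ^ (2 * c + 2)) (psize D1) (psize D2)
      (M + w + 2 ^ β) (A.size + w + 2 ^ β) (psize (A :: L')) C (by omega) rfl g1 g2 g3 hD1s hD2s
      (by rw [← e3]; exact hL's)
      (le_trans (Nat.le_add_right _ _) (Nat.le_add_left _ _))
      (le_trans (Nat.le_add_left _ _) (Nat.le_add_left _ _))

end Pool.Agent.H586P.T_lin
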