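import Pool.Agent.H586P.Defs3

set_option autoImplicit false

namespace Pool.Agent.H586P.T_move

open Pool.Agent.H586P Pool.Agent.H555R2.PF Pool.Agent.H555R2.PF.Fm

variable {F : List Rule}

/-! ### cut combinators -/

theorem cut1 {Γ : Set Fm} {X Y : Fm} {k k' : ℕ} (h : Can F Γ [X] k)
    (h' : ∀ Γ' : Set Fm, Γ ⊆ Γ' → X ∈ Γ' → Can F Γ' [Y] k') : Can F Γ [Y] (k + k') :=
  h.cut (h' _ Set.subset_union_left (Or.inr (by simp)))

theorem cutL {Γ : Set Fm} {Xs Ys : List Fm} {k k' : ℕ} (h : Can F Γ Xs k)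
    (h' : ∀ Γ' : Set Fm, Γ ⊆ Γ' → (∀ X ∈ Xs, X ∈ Γ') → Can F Γ' Ys k') :
    Can F Γ Ys (k + k') :=
  h.cut (h' _ Set.subset_union_left (fun _ hX => Or.inr hX))

theorem cutM {ι : Type} {Γ : Set Fm} (f : ι → Fm) {k k' : ℕ} {Ys : List Fm} (l : List ι)
    (h : ∀ i ∈ l, Can F Γ [f i] k)
    (h' : ∀ Γ' : Set Fm, Γ ⊆ Γ' → (∀ i ∈ l, f i ∈ Γ') → Can F Γ' Ys k') :
    Can F Γ Ys (l.length * k + k') :=
  cutL (Can.many f k l h) (fun Γ' h1 h2 => h' Γ' h1 fun i hi => h2 _ (List.mem_map.2 ⟨i, hi, rfl⟩))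

/-! ### sizes -/

theorem conjL_le {z : ℕ} {l : List Fm} {s : ℕ} (h : ∀ D ∈ l, D.size ≤ s) :
    (conjL z l).size ≤ l.length * (s + 1) + 3 := by
  induction l with
  | nil => simp [conjL, size]
  | cons D l ih =>
    have h1 := h D (by simp)
    have h2 := ih fun E hE => h E (by simp [hE])
    simp only [conjL, size, List.length_cons]
    nlinarith

theorem disjL_le {z : ℕ} {l : List Fm} {s : ℕ} (h : ∀ D ∈ l, D.size ≤ s) :
    (disjL z l).size ≤ l.length * (s + 1) + 4 := by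
  induction l with
  | nil => simp [disjL, size]
  | cons D l ih =>
    have h1 := h D (by simp)
    have h2 := ih fun E hE => h E (by simp [hE])
    simp only [disjL, size, List.length_cons]
    nlinarith

theorem OH_le (z b : ℕ) (g : ℕ → ℕ) : (OH z b g).size ≤ 15 * (2 ^ b * 2 ^ b) := by
  have h1 : (disjL z ((List.range (2 ^ b)).map fun α => var (g α))).size ≤ 2 ^ b * 2 + 4 := by
    refine (disjL_le (s := 1) ?_).trans (by simp)
    intro D hD
    simp only [List.mem_map] at hD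
    obtain ⟨α, _, rfl⟩ := hD
    simp [size]
  have hlen : ((List.range (2 ^ b)).flatMap fun α =>
      ((List.range (2 ^ b)).filter fun β => β ≠ α).map
        fun β => neg (and (var (g α)) (var (g β)))).length ≤ 2 ^ b * 2 ^ b := by
    rw [List.length_flatMap]
    have : ∀ l : List ℕ, (l.map fun α => (((List.range (2 ^ b)).filter fun β => β ≠ α).map
        fun β => neg (and (var (g α)) (var (g β)))).length).sum ≤ l.length * 2 ^ b := by
      intro l
      induction l with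
      | nil => simp
      | cons a l ih =>
        simp only [List.map_cons, List.sum_cons, List.length_cons]
        have : (((List.range (2 ^ b)).filter fun β => β ≠ a).map
          fun β => neg (and (var (g a)) (var (g β)))).length ≤ 2 ^ b := by
          rw [List.length_map]
          exact (List.length_filter_le _ _).trans (by simp)
        rw [Nat.add_mul, one_mul]
        omega
    exact (this _).trans (by simp)
  have h2 : (conjL z ((List.range (2 ^ b)).flatMap fun α =>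
      ((List.range (2 ^ b)).filter fun β => β ≠ α).map
        fun β => neg (and (var (g α)) (var (g β))))).size ≤ (2 ^ b * 2 ^ b) * 5 + 3 := by
    refine (conjL_le (s := 4) ?_).trans (by omega)
    intro D hD
    simp only [List.mem_flatMap, List.mem_map] at hD
    obtain ⟨α, _, β, _, rfl⟩ := hD
    simp [size]
  have h3 : 1 ≤ 2 ^ b := Nat.one_le_two_pow
  have h4 : 2 ^ b ≤ 2 ^ b * 2 ^ b := Nat.le_mul_of_pos_left _ (by omega)
  simp only [OH, size]
  omega

theorem dec_le (z b t : ℕ) (h : ℕ → ℕ) : (dec z b h t).size ≤ 2 * 2 ^ b + 4 := by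
  unfold dec
  refine (disjL_le (s := 1) ?_).trans ?_
  · intro D hD
    simp only [List.mem_map] at hD
    obtain ⟨α, _, rfl⟩ := hD
    simp [size]
  · have : ((List.range (2 ^ b)).filter (fun β => β.testBit t)).length ≤ 2 ^ b :=
      (List.length_filter_le _ _).trans (by simp)
    rw [List.length_map]
    omega

theorem eqc_le (z ℓ q : ℕ) (τ : ℕ → Fm) (s : ℕ) (h : ∀ e, (τ e).size ≤ s) :
    (eqc z ℓ τ q).size ≤ ℓ * (s + 2) + 3 := by
  unfold eqc
  refine (conjL_le (s := s + 1) ?_).trans (by simp)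
  intro D hD
  simp only [List.mem_map] at hD
  obtain ⟨e, _, rfl⟩ := hD
  split_ifs
  · exact (h e).trans (by omega)
  · simp only [size]; have := h e; omega

/-! ### renaming -/

theorem conjL_rename (f : ℕ → ℕ) (z : ℕ) (l : List Fm) :
    (conjL z l).rename f = conjL (f z) (l.map fun X => X.rename f) := by
  induction l with
  | nil => rfl
  | cons D l ih =>
    simp only [conjL, List.map_cons, ← ih]
    rfl

theorem disjL_rename (f : ℕ → ℕ) (z : ℕ) (l : List Fm) :
    (disjL z l).rename f = disjL (f z) (l.map fun X => X.rename f) := by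
  induction l with
  | nil => rfl
  | cons D l ih =>
    simp only [disjL, List.map_cons, ← ih]
    rfl

theorem dec_rename (f : ℕ → ℕ) (z b t : ℕ) (h : ℕ → ℕ) :
    (dec z b h t).rename f = dec (f z) b (fun β => f (h β)) t := by
  unfold dec
  rw [disjL_rename, List.map_map]
  rfl

theorem eqc_rename (f : ℕ → ℕ) (z ℓ q : ℕ) (τ : ℕ → Fm) :
    (eqc z ℓ τ q).rename f = eqc (f z) ℓ (fun e => (τ e).rename f) q := by
  unfold eqc
  rw [conjL_rename, List.map_map]
  congr 1
  apply List.map_congr_left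
  intro e _
  simp only [Function.comp]
  split_ifs <;> rfl

theorem OH_rename (f : ℕ → ℕ) (z b : ℕ) (g : ℕ → ℕ) :
    (OH z b g).rename f = OH (f z) b (fun α => f (g α)) := by
  have h1 := disjL_rename f z ((List.range (2 ^ b)).map fun α => var (g α))
  have h2 := conjL_rename f z ((List.range (2 ^ b)).flatMap fun α =>
      ((List.range (2 ^ b)).filter fun β => β ≠ α).map
        fun β => neg (and (var (g α)) (var (g β))))
  unfold OH
  simp only [rename, subst] at h1 h2 ⊢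
  rw [h1, h2, List.map_map, List.map_flatMap]
  simp only [List.map_map]
  rfl

theorem vars_subst' {σ : ℕ → Fm} {n : ℕ} : ∀ {A : Fm}, n ∈ (A.subst σ).vars →
    ∃ m ∈ A.vars, n ∈ (σ m).vars := by
  intro A
  induction A with
  | var m => intro h; exact ⟨m, by simp [vars], h⟩
  | neg A ih => intro h; exact ih h
  | and A B iA iB =>
    intro h; simp only [subst, vars, Finset.mem_union] at h ⊢
    rcases h with h | h
    · obtain ⟨m, h1, h2⟩ := iA h; exact ⟨m, Or.inl h1, h2⟩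
    · obtain ⟨m, h1, h2⟩ := iB h; exact ⟨m, Or.inr h1, h2⟩
  | or A B iA iB =>
    intro h; simp only [subst, vars, Finset.mem_union] at h ⊢
    rcases h with h | h
    · obtain ⟨m, h1, h2⟩ := iA h; exact ⟨m, Or.inl h1, h2⟩
    · obtain ⟨m, h1, h2⟩ := iB h; exact ⟨m, Or.inr h1, h2⟩
  | imp A B iA iB =>
    intro h; simp only [subst, vars, Finset.mem_union] at h ⊢
    rcases h with h | h
    · obtain ⟨m, h1, h2⟩ := iA h; exact ⟨m, Or.inl h1, h2⟩
    · obtain ⟨m, h1, h2⟩ := iB h; exact ⟨m, Or.inr h1, h2⟩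

theorem dec_vars {z b t n : ℕ} {h : ℕ → ℕ} (hn : n ∈ (dec z b h t).vars) :
    n = z ∨ ∃ β < 2 ^ b, n = h β := by
  rcases disjL_vars hn with h1 | ⟨D, hD, h1⟩
  · exact Or.inl h1
  · simp only [List.mem_map, List.mem_filter, List.mem_range] at hD
    obtain ⟨β, ⟨hβ, _⟩, rfl⟩ := hD
    simp only [vars, Finset.mem_singleton] at h1
    exact Or.inr ⟨β, hβ, h1⟩

theorem eqc_vars {z ℓ q n : ℕ} {τ : ℕ → Fm} (hn : n ∈ (eqc z ℓ τ q).vars) :
    n = z ∨ ∃ e, n ∈ (τ e).vars := by
  rcases conjL_vars hn with h1 | ⟨D, hD, h1⟩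
  · exact Or.inl h1
  · simp only [List.mem_map, List.mem_range] at hD
    obtain ⟨e, _, rfl⟩ := hD
    refine Or.inr ⟨e, ?_⟩
    split_ifs at h1
    · exact h1
    · exact h1

theorem OH_vars {z b n : ℕ} {g : ℕ → ℕ} (hn : n ∈ (OH z b g).vars) :
    n = z ∨ ∃ β < 2 ^ b, n = g β := by
  simp only [OH, vars, Finset.mem_union] at hn
  rcases hn with hn | hn
  · rcases disjL_vars hn with h1 | ⟨D, hD, h1⟩
    · exact Or.inl h1
    · simp only [List.mem_map, List.mem_range] at hD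
      obtain ⟨β, hβ, rfl⟩ := hD
      simp only [vars, Finset.mem_singleton] at h1
      exact Or.inr ⟨β, hβ, h1⟩
  · rcases conjL_vars hn with h1 | ⟨D, hD, h1⟩
    · exact Or.inl h1
    · simp only [List.mem_flatMap, List.mem_map, List.mem_range, List.mem_filter] at hD
      obtain ⟨α, hα, β, ⟨hβ, _⟩, rfl⟩ := hD
      simp only [vars, Finset.mem_union, Finset.mem_singleton] at h1
      rcases h1 with h1 | h1
      · exact Or.inr ⟨α, hα, h1⟩
      · exact Or.inr ⟨β, hβ, h1⟩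

theorem DD_vars {N b ℓ i q n : ℕ} (hn : n ∈ (DD N b ℓ i q).vars) :
    n = N ∨ ∃ j < i, ∃ α < 2 ^ b, n = gv N j α := by
  rcases disjL_vars hn with h1 | ⟨D, hD, h1⟩
  · exact Or.inl h1
  · simp only [List.mem_map, List.mem_range] at hD
    obtain ⟨l, hl, rfl⟩ := hD
    rcases eqc_vars h1 with h1 | ⟨e, h1⟩
    · exact Or.inl h1
    · rcases dec_vars h1 with h1 | ⟨β, hβ, h1⟩
      · exact Or.inl h1
      · exact Or.inr ⟨l / 2, by omega, β, hβ, h1⟩

theorem EE_vars {N b ℓ n r i x : ℕ} {A : Fm} {idx : ℕ → ℕ}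
    (hx : x ∈ (EE N b ℓ A idx n r i).vars) :
    x = N ∨ (∃ j < i, ∃ α < 2 ^ b, x = gv N j α) ∨ (∃ j < i, x = uv N j) ∨
      (∃ j < Yr n b r, x = yv N j) ∨ (x ∈ A.vars ∧ r ≤ idx x) := by
  simp only [EE, HE, vars, Finset.mem_union] at hx
  rcases hx with (hx | hx | hx) | hx
  · rcases conjL_vars hx with h1 | ⟨D, hD, h1⟩
    · exact Or.inl h1
    · simp only [List.mem_map, List.mem_range] at hD
      obtain ⟨j, hj, rfl⟩ := hD
      rcases OH_vars h1 with h1 | ⟨β, hβ, h1⟩
      · exact Or.inl h1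
      · exact Or.inr (Or.inl ⟨j, hj, β, hβ, h1⟩)
  · rcases conjL_vars hx with h1 | ⟨D, hD, h1⟩
    · exact Or.inl h1
    · simp only [oneL, List.mem_map, List.mem_range] at hD
      obtain ⟨j, hj, rfl⟩ := hD
      simp only [vars, Finset.mem_singleton] at h1
      exact Or.inr (Or.inr (Or.inl ⟨j, hj, h1⟩))
  · rcases conjL_vars hx with h1 | ⟨D, hD, h1⟩
    · exact Or.inl h1
    · simp only [zeroL, List.mem_map, List.mem_range] at hD
      obtain ⟨j, hj, rfl⟩ := hD
      simp only [vars, Finset.mem_singleton] at h1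
      exact Or.inr (Or.inr (Or.inr (Or.inl ⟨j, hj, h1⟩)))
  · obtain ⟨m, hm, h1⟩ := vars_subst' hx
    split_ifs at h1 with h2
    · rcases DD_vars h1 with h1 | h1
      · exact Or.inl h1
      · exact Or.inr (Or.inl h1)
    · simp only [vars, Finset.mem_union, Finset.mem_singleton] at h1
      rcases h1 with h1 | h1
      · subst h1
        exact Or.inr (Or.inr (Or.inr (Or.inr ⟨hm, by omega⟩)))
      · rcases DD_vars h1 with h1 | h1
        · exact Or.inl h1
        · exact Or.inr (Or.inl h1)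

/-! ### the renaming -/

open Classical in
/-- the renaming -/
noncomputable def rf (N b i Y α₀ m₁ m₂ : ℕ) (x : ℕ) : ℕ :=
  if x = uv N i then m₂ else if x = gv N i α₀ then m₁ else
    if (∃ α < 2 ^ b, x = gv N i α) then yv N (Y + (Nat.unpair ((x - N - 1) / 3)).2) else x

theorem gv_inj {N j α j' α' : ℕ} : gv N j α = gv N j' α' ↔ j = j' ∧ α = α' := by
  unfold gv
  constructor
  · intro h
    exact Nat.pair_eq_pair.1 (by omega)
  · rintro ⟨rfl, rfl⟩; rfl

theorem gv_uv (N j α j' : ℕ) : gv N j α ≠ uv N j' := by unfold gv uv; omega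

theorem gv_yv (N j α j' : ℕ) : gv N j α ≠ yv N j' := by unfold gv yv; omega

theorem uv_yv (N j j' : ℕ) : uv N j ≠ yv N j' := by unfold uv yv; omega

theorem uv_inj {N j j' : ℕ} : uv N j = uv N j' ↔ j = j' := by unfold uv; omega

theorem yv_inj {N j j' : ℕ} : yv N j = yv N j' ↔ j = j' := by unfold yv; omega

theorem lt_gv (N j α : ℕ) : N < gv N j α := by unfold gv; omega

theorem lt_uv (N j : ℕ) : N < uv N j := by unfold uv; omega

theorem lt_yv (N j : ℕ) : N < yv N j := by unfold yv; omega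

variable {N b i Y α₀ m₁ m₂ : ℕ}

theorem rf_uv : rf N b i Y α₀ m₁ m₂ (uv N i) = m₂ := by simp [rf]

theorem rf_gv0 : rf N b i Y α₀ m₁ m₂ (gv N i α₀) = m₁ := by
  simp [rf, gv_uv]

theorem rf_gv {α : ℕ} (h : α < 2 ^ b) (h' : α ≠ α₀) :
    rf N b i Y α₀ m₁ m₂ (gv N i α) = yv N (Y + α) := by
  unfold rf
  rw [if_neg (gv_uv _ _ _ _), if_neg (fun e => h' (gv_inj.1 e).2), if_pos ⟨α, h, rfl⟩]
  have : (gv N i α - N - 1) / 3 = Nat.pair i α := by unfold gv; omega
  rw [this, Nat.unpair_pair]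

theorem rf_gv' {j α : ℕ} (h : j ≠ i) : rf N b i Y α₀ m₁ m₂ (gv N j α) = gv N j α := by
  unfold rf
  rw [if_neg (gv_uv _ _ _ _), if_neg (fun e => h (gv_inj.1 e).1), if_neg]
  rintro ⟨β, _, e⟩
  exact h (gv_inj.1 e).1

theorem rf_uv' {j : ℕ} (h : j ≠ i) : rf N b i Y α₀ m₁ m₂ (uv N j) = uv N j := by
  unfold rf
  rw [if_neg (fun e => h (uv_inj.1 e)), if_neg (fun e => gv_uv _ _ _ _ e.symm), if_neg]
  rintro ⟨β, _, e⟩
  exact gv_uv _ _ _ _ e.symm

theorem rf_yv {j : ℕ} : rf N b i Y α₀ m₁ m₂ (yv N j) = yv N j := by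
  unfold rf
  rw [if_neg (fun e => uv_yv _ _ _ e.symm), if_neg (fun e => gv_yv _ _ _ _ e.symm), if_neg]
  rintro ⟨β, _, e⟩
  exact gv_yv _ _ _ _ e.symm

theorem rf_small {x : ℕ} (h : x ≤ N) : rf N b i Y α₀ m₁ m₂ x = x := by
  unfold rf
  have h1 := lt_uv N i
  have h2 := lt_gv N i α₀
  rw [if_neg (by omega), if_neg (by omega), if_neg]
  rintro ⟨β, _, e⟩
  have := lt_gv N i β
  omega

open Classical in
/-- the inverse of the renaming -/
noncomputable def rg (N b i Y α₀ m₁ m₂ : ℕ) (y : ℕ) : ℕ :=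
  if y = m₂ then uv N i else if y = m₁ then gv N i α₀ else
    if (∃ α < 2 ^ b, y = yv N (Y + α)) then gv N i ((y - N - 3) / 3 - Y) else y

theorem rf_injOn {ℓ n r i : ℕ} {A : Fm} {idx : ℕ → ℕ} (hA : ∀ m ∈ A.vars, m < N)
    (h12 : m₁ ≠ m₂) (h1 : m₁ < N) (h2 : m₂ < N) (hi1 : idx m₁ < r) (hi2 : idx m₂ < r) :
    Set.InjOn (rf N b i (Yr n b r) α₀ m₁ m₂)
      ((EE N b ℓ A idx n r (i + 1)).vars : Set ℕ) := by
  have key : Set.LeftInvOn (rg N b i (Yr n b r) α₀ m₁ m₂) (rf N b i (Yr n b r) α₀ m₁ m₂)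
      ((EE N b ℓ A idx n r (i + 1)).vars : Set ℕ) := by
    intro x hx
    have small : ∀ x, x < N ∨ x = N → x ≠ m₁ → x ≠ m₂ →
        rg N b i (Yr n b r) α₀ m₁ m₂ x = x := by
      intro x hx e1 e2
      unfold rg
      rw [if_neg e2, if_neg e1, if_neg]
      rintro ⟨β, _, e⟩
      have := lt_yv N (Yr n b r + β)
      omega
    have big : ∀ x, N < x → (∀ β < 2 ^ b, x ≠ yv N (Yr n b r + β)) →
        rg N b i (Yr n b r) α₀ m₁ m₂ x = x := by
      intro x hx e1
      unfold rg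
      rw [if_neg (by omega), if_neg (by omega), if_neg]
      rintro ⟨β, h, e⟩
      exact e1 β h e
    rcases EE_vars hx with hx | ⟨j, hj, α, hα, hx⟩ | ⟨j, hj, hx⟩ | ⟨j, hj, hx⟩ | ⟨hx, hx'⟩
    · rw [hx, rf_small le_rfl]
      exact small _ (Or.inr rfl) (by omega) (by omega)
    · rw [hx]
      by_cases hji : j = i
      · subst hji
        by_cases ha : α = α₀
        · subst ha
          rw [rf_gv0]
          unfold rg
          rw [if_neg h12, if_pos rfl]
        · rw [rf_gv hα ha]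
          unfold rg
          have := lt_yv N (Yr n b r + α)
          rw [if_neg (by omega), if_neg (by omega), if_pos ⟨α, hα, rfl⟩]
          congr 1
          unfold yv
          omega
      · rw [rf_gv' hji]
        exact big _ (lt_gv _ _ _) (fun β _ => gv_yv _ _ _ _)
    · rw [hx]
      by_cases hji : j = i
      · subst hji
        rw [rf_uv]
        unfold rg
        rw [if_pos rfl]
      · rw [rf_uv' hji]
        exact big _ (lt_uv _ _) (fun β _ => uv_yv _ _ _)
    · rw [hx, rf_yv]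
      refine big _ (lt_yv _ _) (fun β _ e => ?_)
      have := yv_inj.1 e
      omega
    · have hxN := hA x hx
      rw [rf_small hxN.le]
      refine small _ (Or.inl hxN) ?_ ?_
      · rintro rfl; omega
      · rintro rfl; omega
  exact key.injOn

/-! ### the renamed formulas -/

theorem oneL_rename (f : ℕ → ℕ) (z : ℕ) (u : ℕ → ℕ) (m : ℕ) :
    (conjL z (oneL u m)).rename f = conjL (f z) (oneL (fun j => f (u j)) m) := by
  rw [conjL_rename]
  congr 1
  simp only [oneL, List.map_map]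
  rfl

theorem zeroL_rename (f : ℕ → ℕ) (z : ℕ) (u : ℕ → ℕ) (m : ℕ) :
    (conjL z (zeroL u m)).rename f = conjL (f z) (zeroL (fun j => f (u j)) m) := by
  rw [conjL_rename]
  congr 1
  simp only [zeroL, List.map_map]
  rfl

theorem Wd_rename (f : ℕ → ℕ) (z b : ℕ) (g : ℕ → ℕ → ℕ) (m : ℕ) :
    (Wd z b g m).rename f = Wd (f z) b (fun j α => f (g j α)) m := by
  unfold Wd
  rw [conjL_rename, List.map_map]
  congr 1
  apply List.map_congr_left
  intro j _
  exact OH_rename _ _ _ _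

theorem HE_rename (f : ℕ → ℕ) (N b i Y : ℕ) (hN : f N = N) :
    (HE N b i Y).rename f = and (Wd N b (fun j α => f (gv N j α)) i)
      (and (conjL N (oneL (fun j => f (uv N j)) i)) (conjL N (zeroL (fun j => f (yv N j)) Y))) := by
  have h1 := Wd_rename f N b (gv N) i
  have h2 := oneL_rename f N (uv N) i
  have h3 := zeroL_rename f N (yv N) Y
  rw [hN] at h1 h2 h3
  rw [← h1, ← h2, ← h3]
  rfl

/-- the renamed list of comparisons -/
def LD (N b ℓ : ℕ) (g : ℕ → ℕ → ℕ) (i q : ℕ) : List Fm :=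
  (List.range (2 * i)).map fun l =>
    eqc N ℓ (fun e => dec N b (g (l / 2)) (l % 2 * ℓ + e)) q

theorem DD_rename (f : ℕ → ℕ) (N b ℓ i q : ℕ) (hN : f N = N) :
    (DD N b ℓ i q).rename f = disjL N (LD N b ℓ (fun j α => f (gv N j α)) i q) := by
  unfold DD LD
  rw [disjL_rename, List.map_map, hN]
  congr 1
  apply List.map_congr_left
  intro l _
  simp only [Function.comp]
  rw [eqc_rename, hN]
  congr 1
  funext e
  rw [dec_rename, hN]

theorem LD_succ (N b ℓ i q : ℕ) (g : ℕ → ℕ → ℕ) :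
    LD N b ℓ g (i + 1) q = LD N b ℓ g i q ++
      [eqc N ℓ (fun e => dec N b (g i) e) q, eqc N ℓ (fun e => dec N b (g i) (ℓ + e)) q] := by
  unfold LD
  have e1 : 2 * (i + 1) = 2 * i + 1 + 1 := by ring
  rw [e1, List.range_succ, List.range_succ, List.map_append, List.map_append]
  simp only [List.map_cons, List.map_nil, List.append_assoc, List.cons_append, List.nil_append]
  congr 1
  have a1 : 2 * i / 2 = i := by omega
  have a2 : 2 * i % 2 = 0 := by omega
  have a3 : (2 * i + 1) / 2 = i := by omega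
  have a4 : (2 * i + 1) % 2 = 1 := by omega
  rw [a1, a2, a3, a4]
  simp only [zero_mul, zero_add, one_mul]

theorem LD_congr {N b ℓ i q : ℕ} {g g' : ℕ → ℕ → ℕ} (h : ∀ j < i, g j = g' j) :
    LD N b ℓ g i q = LD N b ℓ g' i q := by
  unfold LD
  apply List.map_congr_left
  intro l hl
  rw [h (l / 2) (by have := List.mem_range.1 hl; omega)]

/-! ### derived rules -/

theorem disj_append (hF : IsFrege F) : ∃ c : ℕ, ∀ (z : ℕ) (H E₁ E₂ : Fm) (M : ℕ), H.size ≤ M →
    ∀ L : List Fm, (disjL z (L ++ [E₁, E₂])).size ≤ M → ∀ Γ : Set Fm,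
    Can F Γ [imp H (iff (disjL z (L ++ [E₁, E₂])) (or (disjL z L) (or E₁ E₂)))]
      (c * M * (L.length + 1)) := by
  obtain ⟨c₁, h₁⟩ := schemaL hF [] (imp (var 0) (iff (or (var 1) (or (var 2)
    (neg (imp (var 3) (var 3))))) (or (neg (imp (var 3) (var 3))) (or (var 1) (var 2))))) (by
    intro v _; simp [eval, iff])
  obtain ⟨c₂, h₂⟩ := schemaL hF [imp (var 0) (iff (var 4) (or (var 5) (or (var 1) (var 2))))]
    (imp (var 0) (iff (or (var 3) (var 4)) (or (or (var 3) (var 5)) (or (var 1) (var 2))))) (by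
    intro v h; simp [eval, iff] at h ⊢; tauto)
  refine ⟨c₁ + c₂, fun z H E₁ E₂ M hH L => ?_⟩
  have hM : 1 ≤ M := (Fm.size_pos H).trans hH
  induction L with
  | nil =>
    intro hs Γ
    simp only [List.nil_append, disjL, size] at hs
    refine (h₁ [H, E₁, E₂, var z] M hM ?_ Γ (by simp)).mono subset_rfl ?_
    · intro X hX; simp at hX
      rcases hX with rfl | rfl | rfl | rfl
      exacts [hH, by omega, by omega, by simpa [size] using hM]
    · simp only [List.length_nil, zero_add, mul_one]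
      exact Nat.mul_le_mul_right _ (by omega)
  | cons D L ih =>
    intro hs Γ
    have hs0 : D.size ≤ M ∧ (disjL z (L ++ [E₁, E₂])).size ≤ M := by
      simp only [List.cons_append, disjL, size] at hs; omega
    have hs1 : E₁.size ≤ M ∧ E₂.size ≤ M ∧ (disjL z L).size ≤ M := by
      have h3 := hs0.2
      rw [disjL_size, psize_append, psize_cons, psize_cons] at h3
      rw [disjL_size]
      simp only [List.length_append, List.length_cons, List.length_nil] at h3
      omega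
    have h3 := ih hs0.2 Γ
    refine (cut1 h3 (fun Γ' _ h => h₂ [H, E₁, E₂, D, disjL z (L ++ [E₁, E₂]), disjL z L] M hM ?_
      Γ' ?_)).mono subset_rfl ?_
    · intro X hX; simp at hX
      rcases hX with rfl | rfl | rfl | rfl | rfl | rfl
      exacts [hH, hs1.1, hs1.2.1, hs0.1, hs0.2, hs1.2.2]
    · intro A hA
      simp only [List.mem_singleton] at hA
      subst hA
      exact h
    · simp only [List.length_cons]; nlinarith

theorem mem1 (hF : IsFrege F) : ∃ c : ℕ, ∀ (z : ℕ) (U : Fm) (Ds : List Fm) (M : ℕ),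
    U.size ≤ M → (conjL z Ds).size ≤ M → ∀ D ∈ Ds, ∀ Γ : Set Fm, imp U (conjL z Ds) ∈ Γ →
      Can F Γ [imp U D] (c * M * M) := by
  obtain ⟨c₁, h₁⟩ := conj_mem hF
  obtain ⟨c₂, h₂⟩ := schemaL hF [imp (var 0) (var 1), imp (var 1) (var 2)]
    (imp (var 0) (var 2)) (by
    intro v h; simp [eval] at h ⊢; tauto)
  refine ⟨c₁ + c₂, fun z U Ds M hU hs D hD Γ hΓ => ?_⟩
  have hM : 1 ≤ M := (Fm.size_pos U).trans hU
  have hl : Ds.length ≤ M := by rw [conjL_size] at hs; omega
  have hDs : D.size ≤ M := by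
    have := size_le_psize hD
    rw [conjL_size] at hs; omega
  refine (cut1 (h₁ z Ds M hM hs D hD Γ) (fun Γ' hΓ' h => h₂ [U, conjL z Ds, D] M hM ?_
    Γ' ?_)).mono subset_rfl ?_
  · intro X hX; simp at hX
    rcases hX with rfl | rfl | rfl
    exacts [hU, hs, hDs]
  · intro A hA
    simp only [List.mem_cons, List.not_mem_nil, or_false] at hA
    rcases hA with rfl | rfl
    exacts [hΓ' hΓ, h]
  · have e1 : c₁ * M * Ds.length ≤ c₁ * M * M := Nat.mul_le_mul_left _ hl
    have e2 : c₂ * M ≤ c₂ * M * M := Nat.le_mul_of_pos_right _ (by omega)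
    have e3 : (c₁ + c₂) * M * M = c₁ * M * M + c₂ * M * M := by ring
    omega

theorem proj (hF : IsFrege F) : ∃ c : ℕ, ∀ (U X Y : Fm) (M : ℕ),
    U.size ≤ M → (and X Y).size ≤ M → ∀ Γ : Set Fm, imp U (and X Y) ∈ Γ →
      Can F Γ [imp U X, imp U Y] (c * M) := by
  obtain ⟨c₁, h₁⟩ := schemaL hF [imp (var 0) (and (var 1) (var 2))] (imp (var 0) (var 1)) (by
    intro v h; simp [eval] at h ⊢; tauto)
  obtain ⟨c₂, h₂⟩ := schemaL hF [imp (var 0) (and (var 1) (var 2))] (imp (var 0) (var 2)) (by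
    intro v h; simp [eval] at h ⊢; tauto)
  refine ⟨c₁ + c₂, fun U X Y M hU hs Γ hΓ => ?_⟩
  have hM : 1 ≤ M := (Fm.size_pos U).trans hU
  simp only [size] at hs
  have hl : ∀ Z ∈ [U, X, Y], Z.size ≤ M := by
    intro Z hZ; simp at hZ
    rcases hZ with rfl | rfl | rfl
    exacts [hU, by omega, by omega]
  have a1 := h₁ [U, X, Y] M hM hl Γ (by
    intro A hA
    simp only [List.mem_singleton] at hA
    subst hA
    exact hΓ)
  have a2 := h₂ [U, X, Y] M hM hl Γ (by
    intro A hA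
    simp only [List.mem_singleton] at hA
    subst hA
    exact hΓ)
  exact (a1.append a2).mono subset_rfl (by rw [Nat.add_mul])

/-- the basic facts under the hypothesis -/
def BP (N b i Y : ℕ) (P : List (ℕ × Bool)) (D : Fm) : Prop :=
  D ∈ P.map lit ∨ (∃ j < i, D = OH N b (gv N j)) ∨ (∃ j < i, D = var (uv N j)) ∨
    ∃ j < Y, D = neg (var (yv N j))

theorem base (hF : IsFrege F) : ∃ c : ℕ, ∀ (N b i Y : ℕ) (P : List (ℕ × Bool)) (M : ℕ),
    (conjL N (P.map lit ++ [HE N b i Y])).size ≤ M → ∀ Γ : Set Fm, ∀ D, BP N b i Y P D →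
      Can F Γ [imp (conjL N (P.map lit ++ [HE N b i Y])) D] (c * M * M) := by
  obtain ⟨c₁, h₁⟩ := conj_mem hF
  obtain ⟨c₂, h₂⟩ := proj hF
  obtain ⟨c₃, h₃⟩ := mem1 hF
  refine ⟨c₁ + 2 * c₂ + c₃, fun N b i Y P M hM Γ D hD => ?_⟩
  set U := conjL N (P.map lit ++ [HE N b i Y]) with hU
  have hM1 : 1 ≤ M := (Fm.size_pos U).trans hM
  have hs : (P.map lit ++ [HE N b i Y]).length ≤ M ∧ (HE N b i Y).size ≤ M := by
    rw [hU, conjL_size, psize_append, psize_cons] at hM
    omega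
  have hc : ∀ X ∈ P.map lit ++ [HE N b i Y], Can F Γ [imp U X] (c₁ * M * M) := by
    intro X hX
    exact (h₁ N _ M hM1 hM X hX Γ).mono subset_rfl (Nat.mul_le_mul_left _ hs.1)
  have m0 : c₁ * M * M ≤ (c₁ + 2 * c₂ + c₃) * M * M := by
    rw [mul_assoc, mul_assoc]
    exact Nat.mul_le_mul_right _ (by omega)
  have e2 : c₂ * M ≤ c₂ * M * M := Nat.le_mul_of_pos_right _ (by omega)
  have e3 : (c₁ + 2 * c₂ + c₃) * M * M =
    c₁ * M * M + c₂ * M * M + c₂ * M * M + c₃ * M * M := by ring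
  rcases hD with hD | hD
  · exact (hc D (by simp only [List.mem_append]; exact Or.inl hD)).mono subset_rfl m0
  · have hsz : (Wd N b (gv N) i).size ≤ M ∧ (and (conjL N (oneL (uv N) i))
        (conjL N (zeroL (yv N) Y))).size ≤ M ∧ (conjL N (oneL (uv N) i)).size ≤ M ∧
        (conjL N (zeroL (yv N) Y)).size ≤ M := by
      have := hs.2
      simp only [HE, size] at this ⊢
      omega
    have s1 : Can F Γ [imp U (Wd N b (gv N) i), imp U (and (conjL N (oneL (uv N) i))
        (conjL N (zeroL (yv N) Y)))] (c₁ * M * M + c₂ * M) :=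
      cutL (hc (HE N b i Y) (by simp)) (fun Γ' _ h =>
        h₂ U _ _ M hM hs.2 Γ' (h _ (by simp [HE])))
    rcases hD with ⟨j, hj, rfl⟩ | hD
    · refine (cutL s1 (fun Γ' _ h => h₃ N U ((List.range i).map fun j => OH N b (gv N j)) M hM
        hsz.1 _ (List.mem_map.2 ⟨j, List.mem_range.2 hj, rfl⟩) Γ' (h _ (by simp [Wd])))).mono
        subset_rfl ?_
      omega
    · have s2 : Can F Γ [imp U (conjL N (oneL (uv N) i)), imp U (conjL N (zeroL (yv N) Y))]
          (c₁ * M * M + c₂ * M + c₂ * M) :=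
        cutL s1 (fun Γ' _ h => h₂ U _ _ M hM hsz.2.1 Γ' (h _ (by simp)))
      rcases hD with ⟨j, hj, rfl⟩ | ⟨j, hj, rfl⟩
      · refine (cutL s2 (fun Γ' _ h => h₃ N U (oneL (uv N) i) M hM
          hsz.2.2.1 _ (List.mem_map.2 ⟨j, List.mem_range.2 hj, rfl⟩) Γ' (h _ (by simp)))).mono
          subset_rfl ?_
        omega
      · refine (cutL s2 (fun Γ' _ h => h₃ N U (zeroL (yv N) Y) M hM
          hsz.2.2.2 _ (List.mem_map.2 ⟨j, List.mem_range.2 hj, rfl⟩) Γ' (h _ (by simp)))).mono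
          subset_rfl ?_
        omega

/-- one comparison -/
theorem cases (hF : IsFrege F) : ∃ c : ℕ, ∀ (z m : ℕ) (U X Y E₁ E₂ : Fm) (M : ℕ) (b₁ b₂ : Bool),
    U.size ≤ M → X.size ≤ M → Y.size ≤ M → E₁.size ≤ M → E₂.size ≤ M → ∀ Γ : Set Fm,
    imp U (iff X (or Y (or E₁ E₂))) ∈ Γ → imp U (iff E₁ (cst z b₁)) ∈ Γ →
    imp U (iff E₂ (cst z b₂)) ∈ Γ →
    (b₁ = false → b₂ = false → Can F Γ [imp U (iff X Y)] (c * M)) ∧
    (b₁ = false → b₂ = false → Can F Γ [imp U (iff (or (var m) X) (or (var m) Y))] (c * M)) ∧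
    (b₁ = false → b₂ = false → imp U (neg (var m)) ∈ Γ →
      Can F Γ [imp U (iff X (or (var m) Y))] (c * M)) ∧
    (b₁ = true ∨ b₂ = true → imp U (var m) ∈ Γ →
      Can F Γ [imp U (iff X (or (var m) Y))] (c * M)) := by
  obtain ⟨c₁, h₁⟩ := schemaL hF [imp (var 0) (iff (var 1) (or (var 2) (or (var 3) (var 4)))),
    imp (var 0) (iff (var 3) (neg (imp (var 5) (var 5)))),
    imp (var 0) (iff (var 4) (neg (imp (var 5) (var 5))))] (imp (var 0) (iff (var 1) (var 2))) (by
    intro v h; simp [eval, iff] at h ⊢; tauto)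
  obtain ⟨c₂, h₂⟩ := schemaL hF [imp (var 0) (iff (var 1) (or (var 2) (or (var 3) (var 4)))),
    imp (var 0) (iff (var 3) (neg (imp (var 5) (var 5)))),
    imp (var 0) (iff (var 4) (neg (imp (var 5) (var 5))))]
    (imp (var 0) (iff (or (var 6) (var 1)) (or (var 6) (var 2)))) (by
    intro v h; simp [eval, iff] at h ⊢; tauto)
  obtain ⟨c₃, h₃⟩ := schemaL hF [imp (var 0) (iff (var 1) (or (var 2) (or (var 3) (var 4)))),
    imp (var 0) (iff (var 3) (neg (imp (var 5) (var 5)))),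
    imp (var 0) (iff (var 4) (neg (imp (var 5) (var 5)))), imp (var 0) (neg (var 6))]
    (imp (var 0) (iff (var 1) (or (var 6) (var 2)))) (by
    intro v h; simp [eval, iff] at h ⊢; tauto)
  obtain ⟨c₄, h₄⟩ := schemaL hF [imp (var 0) (iff (var 1) (or (var 2) (or (var 3) (var 4)))),
    imp (var 0) (iff (var 3) (imp (var 5) (var 5))), imp (var 0) (var 6)]
    (imp (var 0) (iff (var 1) (or (var 6) (var 2)))) (by
    intro v h; simp [eval, iff] at h ⊢; tauto)
  obtain ⟨c₅, h₅⟩ := schemaL hF [imp (var 0) (iff (var 1) (or (var 2) (or (var 3) (var 4)))),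
    imp (var 0) (iff (var 4) (imp (var 5) (var 5))), imp (var 0) (var 6)]
    (imp (var 0) (iff (var 1) (or (var 6) (var 2)))) (by
    intro v h; simp [eval, iff] at h ⊢; tauto)
  refine ⟨c₁ + c₂ + c₃ + c₄ + c₅, fun z m U X Y E₁ E₂ M b₁ b₂ s0 s1 s2 s3 s4 Γ g1 g2 g3 => ?_⟩
  have hM : 1 ≤ M := (Fm.size_pos U).trans s0
  have hl : ∀ Z ∈ [U, X, Y, E₁, E₂, var z, var m], Z.size ≤ M := by
    intro Z hZ; simp at hZ
    rcases hZ with rfl | rfl | rfl | rfl | rfl | rfl | rfl
    exacts [s0, s1, s2, s3, s4, by simpa [size] using hM, by simpa [size] using hM]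
  refine ⟨?_, ?_, ?_, ?_⟩
  · rintro rfl rfl
    refine (h₁ [U, X, Y, E₁, E₂, var z, var m] M hM hl Γ ?_).mono subset_rfl
      (Nat.mul_le_mul_right _ (by omega))
    intro A hA
    simp only [List.mem_cons, List.not_mem_nil, or_false] at hA
    rcases hA with rfl | rfl | rfl
    exacts [g1, g2, g3]
  · rintro rfl rfl
    refine (h₂ [U, X, Y, E₁, E₂, var z, var m] M hM hl Γ ?_).mono subset_rfl
      (Nat.mul_le_mul_right _ (by omega))
    intro A hA
    simp only [List.mem_cons, List.not_mem_nil, or_false] at hA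
    rcases hA with rfl | rfl | rfl
    exacts [g1, g2, g3]
  · rintro rfl rfl g4
    refine (h₃ [U, X, Y, E₁, E₂, var z, var m] M hM hl Γ ?_).mono subset_rfl
      (Nat.mul_le_mul_right _ (by omega))
    intro A hA
    simp only [List.mem_cons, List.not_mem_nil, or_false] at hA
    rcases hA with rfl | rfl | rfl | rfl
    exacts [g1, g2, g3, g4]
  · rintro (rfl | rfl) g4
    · refine (h₄ [U, X, Y, E₁, E₂, var z, var m] M hM hl Γ ?_).mono subset_rfl
        (Nat.mul_le_mul_right _ (by omega))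
      intro A hA
      simp only [List.mem_cons, List.not_mem_nil, or_false] at hA
      rcases hA with rfl | rfl | rfl
      exacts [g1, g2, g4]
    · refine (h₅ [U, X, Y, E₁, E₂, var z, var m] M hM hl Γ ?_).mono subset_rfl
        (Nat.mul_le_mul_right _ (by omega))
      intro A hA
      simp only [List.mem_cons, List.not_mem_nil, or_false] at hA
      rcases hA with rfl | rfl | rfl
      exacts [g1, g3, g4]

theorem core (hF : IsFrege F) (h1 : S_ren F) (h2 : S_repl F) (h3 : S_cintro F)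
    (h4 : S_ohintro F) (h5 : S_deval F) (h6 : S_eqeval F) : ∃ c : ℕ,
    ∀ (N b ℓ n r r' i : ℕ) (A : Fm) (idx vv : ℕ → ℕ) (m₁ m₂ : ℕ) (U : Fm) (M : ℕ),
    Enum A n idx vv → (∀ m ∈ A.vars, m < N) → n ≤ 2 ^ ℓ → 2 * ℓ ≤ b → r < r' → r' ≤ n →
    m₁ ≠ m₂ → m₁ ∈ A.vars → m₂ ∈ A.vars → r ≤ idx m₁ → idx m₁ < r' → r ≤ idx m₂ →
    idx m₂ < r' → U.size ≤ M → (EE N b ℓ A idx n r' (i + 1)).size ≤ M →
    (∀ g : ℕ → ℕ, (OH N b g).size ≤ M) →
    (∀ (g : ℕ → ℕ → ℕ) (q : ℕ), (disjL N (LD N b ℓ g (i + 1) q)).size ≤ M) →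
    (∀ (τ : ℕ → Fm) (q : ℕ), (∀ e, (τ e).size ≤ 2 * 2 ^ b + 4) →
      (eqc N ℓ τ q).size + 10 ≤ M) →
    (TR N b ℓ A idx r i).size ≤ M → 2 * 2 ^ b + 10 ≤ M → A.size ≤ M → 2 * i + 1 ≤ M →
    ∀ Γ : Set Fm,
    EE N b ℓ A idx n r' (i + 1) ∈ Γ → imp U (var m₁) ∈ Γ → imp U (var m₂) ∈ Γ →
    (∀ m ∈ A.vars, r ≤ idx m → idx m < r' → m ≠ m₁ → m ≠ m₂ → imp U (neg (var m)) ∈ Γ) →
    (∀ j < i, imp U (OH N b (gv N j)) ∈ Γ) → (∀ j < i, imp U (var (uv N j)) ∈ Γ) →
    (∀ j < Yr n b r, imp U (neg (var (yv N j))) ∈ Γ) →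
    Can F Γ [imp U (TR N b ℓ A idx r i)] (c * M * M * M) := by
  obtain ⟨c₁, h₁⟩ := h1
  obtain ⟨c₂, h₂⟩ := h2
  obtain ⟨c₃, h₃⟩ := h3
  obtain ⟨c₄, h₄⟩ := h4
  obtain ⟨c₅, h₅⟩ := h5
  obtain ⟨c₆, h₆⟩ := h6
  obtain ⟨c₇, h₇⟩ := disj_append hF
  obtain ⟨c₈, h₈⟩ := cases hF
  obtain ⟨c₉, h₉⟩ := schemaL hF [imp (var 0) (var 1), imp (var 0) (var 2), imp (var 0) (var 3),
    imp (and (var 1) (and (var 2) (var 3))) (var 4), imp (var 0) (iff (var 4) (var 5))]
    (imp (var 0) (var 5)) (by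
    intro v h; simp [eval, iff] at h ⊢; tauto)
  refine ⟨c₁ + c₄ + 6 * c₃ + c₅ + (4 * c₆ + 2 * c₇ + c₈) + c₂ + c₉,
    fun N b ℓ n r r' i A idx vv m₁ m₂ U M hE hA hn hb hr hr' h12 hm1 hm2 hq1 hq1' hq2 hq2'
      hU hEE hOH hLD heq hTR hM10 hAM hi Γ g0 g1 g2 g3 g4 g5 g6 => ?_⟩
  have hM : 1 ≤ M := (Fm.size_pos U).trans hU
  set α₀ := 2 ^ ℓ * idx m₂ + idx m₁ with hα
  have hl1 : idx m₁ < 2 ^ ℓ := by omega
  have hl2 : idx m₂ < 2 ^ ℓ := by omega
  have hα0 : α₀ < 2 ^ b := by
    have e1 : 2 ^ ℓ * idx m₂ + idx m₁ < 2 ^ ℓ * 2 ^ ℓ := by nlinarith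
    have e2 : (2 : ℕ) ^ ℓ * 2 ^ ℓ = 2 ^ (2 * ℓ) := by rw [← pow_add]; congr 1; ring
    have e3 : (2 : ℕ) ^ (2 * ℓ) ≤ 2 ^ b := Nat.pow_le_pow_right (by norm_num) hb
    omega
  have hY : Yr n b r' + 2 ^ b ≤ Yr n b r := by
    unfold Yr
    have : n - r ≥ n - r' + 1 := by omega
    have := Nat.mul_le_mul_right (2 ^ b) this
    rw [Nat.add_mul, one_mul] at this
    omega
  set f := rf N b i (Yr n b r') α₀ m₁ m₂ with hf
  set g' : ℕ → ℕ := fun α => f (gv N i α) with hg'
  have hm1N := hA m₁ hm1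
  have hm2N := hA m₂ hm2
  have hfN : f N = N := rf_small le_rfl
  have hga : imp U (var (g' α₀)) ∈ Γ := by
    have : g' α₀ = m₁ := rf_gv0
    rw [this]; exact g1
  have hgb : ∀ β < 2 ^ b, β ≠ α₀ → imp U (neg (var (g' β))) ∈ Γ := by
    intro β hβ hne
    have : g' β = yv N (Yr n b r' + β) := rf_gv hβ hne
    rw [this]
    exact g6 _ (by omega)
  -- renaming
  have hinj := rf_injOn (b := b) (ℓ := ℓ) (n := n) (i := i) (α₀ := α₀) hA h12 hm1N hm2N
    hq1' hq2'
  have t1 : Can F Γ [(EE N b ℓ A idx n r' (i + 1)).rename f] (c₁ * M * M) :=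
    h₁ _ f M hEE hinj Γ g0
  have hren : (EE N b ℓ A idx n r' (i + 1)).rename f =
      imp (and (Wd N b (fun j α => f (gv N j α)) (i + 1))
        (and (conjL N (oneL (fun j => f (uv N j)) (i + 1)))
          (conjL N (zeroL (fun j => f (yv N j)) (Yr n b r')))))
        ((TR N b ℓ A idx r' (i + 1)).rename f) := by
    rw [← HE_rename f N b (i + 1) (Yr n b r') hfN]
    rfl
  have hsz : (imp (and (Wd N b (fun j α => f (gv N j α)) (i + 1))
        (and (conjL N (oneL (fun j => f (uv N j)) (i + 1)))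
          (conjL N (zeroL (fun j => f (yv N j)) (Yr n b r')))))
        ((TR N b ℓ A idx r' (i + 1)).rename f)).size ≤ M := by
    rw [← hren, size_rename]; exact hEE
  simp only [size] at hsz
  rw [hren] at t1
  -- the blocks
  have t2 : Can F Γ [imp U (OH N b g')] (c₄ * M * M) :=
    h₄ N b g' U M α₀ hU (hOH g') hα0 Γ hga hgb
  -- values of the bits
  have t3 : ∀ e ∈ List.range (2 * ℓ), Can F Γ [(fun e => imp U (iff (dec N b g' e)
      (cst N (α₀.testBit e)))) e] (c₅ * M * 2 ^ b) := by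
    intro e _
    exact h₅ N b e α₀ g' U M hα0 hU (by omega) Γ hga hgb
  have hpb : 2 ^ b ≤ M := by omega
  have hbb : b < 2 ^ b := Nat.lt_two_pow_self
  refine (cutL (t1.append t2) (fun Γ₁ hΓ₁ k₁ => cutM (fun e => imp U (iff (dec N b g' e)
      (cst N (α₀.testBit e)))) (List.range (2 * ℓ)) (fun e he => (t3 e he).mono hΓ₁ le_rfl)
      (fun Γ₂ hΓ₂ k₂ => ?_) (k' := (6 * c₃ + (4 * c₆ + 2 * c₇ + c₈) + c₂ + c₉) * M * M * M))).mono
      subset_rfl ?_
  swap
  · rw [List.length_range]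
    have e1 : 2 * ℓ * (c₅ * M * 2 ^ b) ≤ c₅ * M * M * M := by
      calc 2 * ℓ * (c₅ * M * 2 ^ b) ≤ M * (c₅ * M * M) :=
            Nat.mul_le_mul (by omega) (Nat.mul_le_mul_left _ hpb)
        _ = c₅ * M * M * M := by ring
    have e2 : c₁ * M * M ≤ c₁ * M * M * M := Nat.le_mul_of_pos_right _ (by omega)
    have e3 : c₄ * M * M ≤ c₄ * M * M * M := Nat.le_mul_of_pos_right _ (by omega)
    have e4 : (c₁ + c₄ + 6 * c₃ + c₅ + (4 * c₆ + 2 * c₇ + c₈) + c₂ + c₉) * M * M * M =
      c₁ * M * M * M + c₄ * M * M * M + c₅ * M * M * M +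
      (6 * c₃ + (4 * c₆ + 2 * c₇ + c₈) + c₂ + c₉) * M * M * M := by ring
    omega
  have hΓ : Γ ⊆ Γ₂ := hΓ₁.trans hΓ₂
  have k3 : imp U (OH N b g') ∈ Γ₂ := hΓ₂ (k₁ _ (by simp))
  have k4 := hΓ₂ (k₁ (imp (and (Wd N b (fun j α => f (gv N j α)) (i + 1))
        (and (conjL N (oneL (fun j => f (uv N j)) (i + 1)))
          (conjL N (zeroL (fun j => f (yv N j)) (Yr n b r')))))
        ((TR N b ℓ A idx r' (i + 1)).rename f)) (by simp))
  have k5 : ∀ e < 2 * ℓ, imp U (iff (dec N b g' e) (cst N (α₀.testBit e))) ∈ Γ₂ :=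
    fun e he => k₂ e (List.mem_range.2 he)
  -- the three conjunctions
  have c3M : ∀ l : ℕ, l ≤ M → c₃ * M * (l + 1) ≤ 2 * c₃ * M * M := by
    intro l hl
    calc c₃ * M * (l + 1) ≤ c₃ * M * (2 * M) := Nat.mul_le_mul_left _ (by omega)
      _ = 2 * c₃ * M * M := by ring
  have lenle : ∀ l : List Fm, l.length ≤ (conjL N l).size := by
    intro l; rw [conjL_size]; omega
  have u1 : Can F Γ₂ [imp U (Wd N b (fun j α => f (gv N j α)) (i + 1))] (2 * c₃ * M * M) := by
    have hs : (Wd N b (fun j α => f (gv N j α)) (i + 1)).size ≤ M := by omega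
    refine (h₃ N U _ M hU hs Γ₂ ?_).mono subset_rfl (c3M _ ((lenle _).trans hs))
    intro D hD
    simp only [List.mem_map, List.mem_range] at hD
    obtain ⟨j, hj, rfl⟩ := hD
    by_cases hji : j = i
    · subst hji; exact k3
    · have : (fun α => f (gv N j α)) = gv N j := by
        funext α; exact rf_gv' hji
      rw [this]
      exact hΓ (g4 j (by omega))
  have u2 : Can F Γ₂ [imp U (conjL N (oneL (fun j => f (uv N j)) (i + 1)))]
      (2 * c₃ * M * M) := by
    have hs : (conjL N (oneL (fun j => f (uv N j)) (i + 1))).size ≤ M := by omega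
    refine (h₃ N U _ M hU hs Γ₂ ?_).mono subset_rfl (c3M _ ((lenle _).trans hs))
    intro D hD
    simp only [oneL, List.mem_map, List.mem_range] at hD
    obtain ⟨j, hj, rfl⟩ := hD
    by_cases hji : j = i
    · subst hji
      have : f (uv N j) = m₂ := rf_uv
      rw [this]
      exact hΓ g2
    · have : f (uv N j) = uv N j := rf_uv' hji
      rw [this]
      exact hΓ (g5 j (by omega))
  have u3 : Can F Γ₂ [imp U (conjL N (zeroL (fun j => f (yv N j)) (Yr n b r')))]
      (2 * c₃ * M * M) := by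
    have hs : (conjL N (zeroL (fun j => f (yv N j)) (Yr n b r'))).size ≤ M := by omega
    refine (h₃ N U _ M hU hs Γ₂ ?_).mono subset_rfl (c3M _ ((lenle _).trans hs))
    intro D hD
    simp only [zeroL, List.mem_map, List.mem_range] at hD
    obtain ⟨j, hj, rfl⟩ := hD
    have : f (yv N j) = yv N j := rf_yv
    rw [this]
    exact hΓ (g6 j (by omega))
  -- the substitutions
  set σ' : ℕ → Fm := fun m => (if idx m < r' then DD N b ℓ (i + 1) (idx m) else
    or (var m) (DD N b ℓ (i + 1) (idx m))).rename f with hσ'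
  set σ : ℕ → Fm := fun m => if idx m < r then DD N b ℓ i (idx m) else
    or (var m) (DD N b ℓ i (idx m)) with hσ
  have hT' : (TR N b ℓ A idx r' (i + 1)).rename f = A.subst σ' := by
    unfold TR rename
    rw [subst_subst]
    rfl
  have hT : TR N b ℓ A idx r i = A.subst σ := rfl
  have v1 : ∀ m ∈ A.vars.toList, Can F Γ₂ [(fun m => imp U (iff (σ' m) (σ m))) m]
      ((4 * c₆ + 2 * c₇ + c₈) * M * M) := by
    intro m hm
    rw [Finset.mem_toList] at hm
    have hmn := hE.h1 m hm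
    have hml : idx m < 2 ^ ℓ := by omega
    have hmN := hA m hm
    set E₁ := eqc N ℓ (fun e => dec N b g' e) (idx m) with hE1
    set E₂ := eqc N ℓ (fun e => dec N b g' (ℓ + e)) (idx m) with hE2
    have sE1 : E₁.size + 10 ≤ M := heq _ _ (fun e => dec_le _ _ _ _)
    have sE2 : E₂.size + 10 ≤ M := heq _ _ (fun e => dec_le _ _ _ _)
    have hDD : (DD N b ℓ (i + 1) (idx m)).rename f = disjL N (LD N b ℓ (gv N) i (idx m) ++
        [E₁, E₂]) := by
      rw [DD_rename f N b ℓ (i + 1) (idx m) hfN, LD_succ]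
      congr 2
      apply LD_congr
      intro j hj
      funext α
      exact rf_gv' (by omega)
    have hD0 : DD N b ℓ i (idx m) = disjL N (LD N b ℓ (gv N) i (idx m)) := rfl
    have sD' : (disjL N (LD N b ℓ (gv N) i (idx m) ++ [E₁, E₂])).size ≤ M := by
      rw [← hDD, size_rename]
      exact hLD (gv N) (idx m)
    have sD : (DD N b ℓ i (idx m)).size ≤ M := by
      rw [hD0, disjL_size]
      rw [disjL_size, psize_append, List.length_append] at sD'
      omega
    have w1 : Can F Γ₂ [imp U (iff E₁ (cst N (decide (idx m₁ = idx m))))] (c₆ * M * (ℓ + 1)) := by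
      refine h₆ N ℓ (idx m₁) (idx m) _ U M hl1 hml hU sE1 Γ₂ ?_
      intro e he
      have := k5 e (by omega)
      rwa [hα, Nat.testBit_two_pow_mul_add _ hl1, if_pos he] at this
    have w2 : Can F Γ₂ [imp U (iff E₂ (cst N (decide (idx m₂ = idx m))))] (c₆ * M * (ℓ + 1)) := by
      refine h₆ N ℓ (idx m₂) (idx m) _ U M hl2 hml hU sE2 Γ₂ ?_
      intro e he
      have := k5 (ℓ + e) (by omega)
      rwa [hα, Nat.testBit_two_pow_mul_add _ hl1, if_neg (by omega), Nat.add_sub_cancel_left]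
        at this
    have w3 := h₇ N U E₁ E₂ M hU (LD N b ℓ (gv N) i (idx m)) sD' Γ₂
    refine (cutL (w1.append (w2.append w3)) (fun Γ₃ hΓ₃ k₃ => ?_) (k' := c₈ * M)).mono
      subset_rfl ?_
    swap
    · have a1 : (LD N b ℓ (gv N) i (idx m)).length = 2 * i := by simp [LD]
      rw [a1]
      have a2 : c₆ * M * (ℓ + 1) ≤ 2 * c₆ * M * M := by
        calc c₆ * M * (ℓ + 1) ≤ c₆ * M * (2 * M) := Nat.mul_le_mul_left _ (by omega)
          _ = 2 * c₆ * M * M := by ring
      have a3 : c₇ * M * (2 * i + 1) ≤ 2 * c₇ * M * M := by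
        calc c₇ * M * (2 * i + 1) ≤ c₇ * M * (2 * M) := Nat.mul_le_mul_left _ (by omega)
          _ = 2 * c₇ * M * M := by ring
      have a4 : c₈ * M ≤ c₈ * M * M := Nat.le_mul_of_pos_right _ (by omega)
      have a5 : (4 * c₆ + 2 * c₇ + c₈) * M * M = 2 * c₆ * M * M + 2 * c₆ * M * M +
        2 * c₇ * M * M + c₈ * M * M := by ring
      omega
    obtain ⟨q1, q2, q3, q4⟩ := h₈ N m U (disjL N (LD N b ℓ (gv N) i (idx m) ++ [E₁, E₂]))
      (DD N b ℓ i (idx m)) E₁ E₂ M (decide (idx m₁ = idx m)) (decide (idx m₂ = idx m)) hU sD'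
      sD (by omega) (by omega) Γ₃ (k₃ _ (by simp [hD0])) (k₃ _ (by simp)) (k₃ _ (by simp))
    have inj : ∀ m' ∈ A.vars, idx m' = idx m → m' = m := by
      intro m' hm' e
      rw [← (hE.h1 m' hm').2, ← hmn.2, e]
    show Can F Γ₃ [imp U (iff (σ' m) (σ m))] (c₈ * M)
    by_cases c1 : idx m < r
    · have e1 : σ' m = disjL N (LD N b ℓ (gv N) i (idx m) ++ [E₁, E₂]) := by
        simp only [hσ']
        rw [if_pos (by omega), hDD]
      have e2 : σ m = DD N b ℓ i (idx m) := by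
        simp only [hσ]
        rw [if_pos c1]
      rw [e1, e2]
      exact q1 (by simp; omega) (by simp; omega)
    · have e2 : σ m = or (var m) (DD N b ℓ i (idx m)) := by
        simp only [hσ]
        rw [if_neg c1]
      by_cases c2 : idx m < r'
      · have e1 : σ' m = disjL N (LD N b ℓ (gv N) i (idx m) ++ [E₁, E₂]) := by
          simp only [hσ']
          rw [if_pos c2, hDD]
        rw [e1, e2]
        by_cases c3 : m = m₁
        · refine q4 (Or.inl (by simp [c3])) ?_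
          rw [c3]; exact hΓ₃ (hΓ g1)
        · by_cases c4 : m = m₂
          · refine q4 (Or.inr (by simp [c4])) ?_
            rw [c4]; exact hΓ₃ (hΓ g2)
          · refine q3 ?_ ?_ (hΓ₃ (hΓ (g3 m hm (by omega) c2 c3 c4)))
            · rw [decide_eq_false_iff_not]
              exact fun e => c3 (inj m₁ hm1 e).symm
            · rw [decide_eq_false_iff_not]
              exact fun e => c4 (inj m₂ hm2 e).symm
      · have e1 : σ' m = or (var m) (disjL N (LD N b ℓ (gv N) i (idx m) ++ [E₁, E₂])) := by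
          simp only [hσ']
          rw [if_neg c2, ← hDD]
          have : f m = m := rf_small hmN.le
          simp only [rename, subst, this]
        rw [e1, e2]
        exact q2 (by simp; omega) (by simp; omega)
  have hcard : A.vars.toList.length ≤ M := by
    rw [Finset.length_toList]
    exact (vars_card_le A).trans hAM
  have sT' : (A.subst σ').size ≤ M := by rw [← hT']; omega
  have u4 : Can F Γ₂ [imp U (iff (A.subst σ') (A.subst σ))]
      (M * ((4 * c₆ + 2 * c₇ + c₈) * M * M) + c₂ * M * M) := by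
    refine (cutM (fun m => imp U (iff (σ' m) (σ m))) A.vars.toList v1 (fun Γ₃ hΓ₃ k₃ =>
      (h₂ U A σ' σ M hU sT' hTR Γ₃ (fun m hm => k₃ m (Finset.mem_toList.2 hm))).mono
        subset_rfl (Nat.mul_le_mul_left _ hAM))).mono subset_rfl ?_
    exact Nat.add_le_add_right (Nat.mul_le_mul_right _ hcard) _
  rw [hT'] at k4
  refine (cutL (u1.append (u2.append (u3.append u4))) (fun Γ₃ hΓ₃ k₃ => ?_)
    (k' := c₉ * M)).mono subset_rfl ?_
  · refine h₉ [U, Wd N b (fun j α => f (gv N j α)) (i + 1),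
      conjL N (oneL (fun j => f (uv N j)) (i + 1)),
      conjL N (zeroL (fun j => f (yv N j)) (Yr n b r')), A.subst σ', A.subst σ] M hM ?_ Γ₃ ?_
    · intro Z hZ; simp at hZ
      rcases hZ with rfl | rfl | rfl | rfl | rfl | rfl
      exacts [hU, by omega, by omega, by omega, sT', hTR]
    · intro X hX
      simp only [List.mem_cons, List.not_mem_nil, or_false] at hX
      rcases hX with rfl | rfl | rfl | rfl | rfl
      · exact k₃ _ (by simp [subst, asg])
      · exact k₃ _ (by simp [subst, asg])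
      · exact k₃ _ (by simp [subst, asg])
      · exact hΓ₃ k4
      · exact k₃ _ (by simp [subst, asg, iff])
  · have a1 : 2 * c₃ * M * M ≤ 2 * c₃ * M * M * M := Nat.le_mul_of_pos_right _ (by omega)
    have a2 : M * ((4 * c₆ + 2 * c₇ + c₈) * M * M) = (4 * c₆ + 2 * c₇ + c₈) * M * M * M := by
      ring
    have a3 : c₂ * M * M ≤ c₂ * M * M * M := Nat.le_mul_of_pos_right _ (by omega)
    have a4 : c₉ * M ≤ c₉ * M * M * M :=
      (Nat.le_mul_of_pos_right _ (by omega)).trans (Nat.le_mul_of_pos_right _ (by omega))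
    have a5 : (6 * c₃ + (4 * c₆ + 2 * c₇ + c₈) + c₂ + c₉) * M * M * M =
      2 * c₃ * M * M * M + 2 * c₃ * M * M * M + 2 * c₃ * M * M * M +
      (4 * c₆ + 2 * c₇ + c₈) * M * M * M + c₂ * M * M * M + c₉ * M * M * M := by ring
    omega

/-! ### the two true variables -/

theorem two_true (P : List (ℕ × Bool)) (hnd : (P.map Prod.fst).Nodup)
    (h2 : P.countP (fun x => x.2) = 2) : ∃ m₁ m₂, m₁ ≠ m₂ ∧ (m₁, true) ∈ P ∧ (m₂, true) ∈ P ∧
      ∀ m, (m, true) ∈ P → m = m₁ ∨ m = m₂ := by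
  rw [List.countP_eq_length_filter, List.length_eq_two] at h2
  obtain ⟨x, y, hxy⟩ := h2
  have hx : x ∈ P.filter (fun x => x.2) := by rw [hxy]; simp
  have hy : y ∈ P.filter (fun x => x.2) := by rw [hxy]; simp
  rw [List.mem_filter] at hx hy
  have hnd' : ((P.filter (fun x => x.2)).map Prod.fst).Nodup :=
    hnd.sublist ((List.filter_sublist (p := fun x : ℕ × Bool => x.2) (l := P)).map _)
  rw [hxy] at hnd'
  simp only [List.map_cons, List.map_nil, List.nodup_cons, List.mem_singleton] at hnd'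
  obtain ⟨x1, x2⟩ := x
  obtain ⟨y1, y2⟩ := y
  simp only at hx hy hnd'
  obtain ⟨hx, rfl⟩ := hx
  obtain ⟨hy, rfl⟩ := hy
  refine ⟨x1, y1, hnd'.1, hx, hy, ?_⟩
  intro m hm
  have : (m, true) ∈ P.filter (fun x => x.2) := by
    rw [List.mem_filter]; exact ⟨hm, rfl⟩
  rw [hxy] at this
  simp only [List.mem_cons, Prod.mk.injEq, and_true, List.not_mem_nil, or_false] at this
  exact this

theorem t_move (F : List Rule) (hF : IsFrege F) (h1 : S_ren F) (h2 : S_repl F) (h3 : S_cintro F)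
    (h4 : S_ohintro F) (h5 : S_deval F) (h6 : S_eqeval F) : S_move F := by
  obtain ⟨c₁, h₁⟩ := core hF h1 h2 h3 h4 h5 h6
  obtain ⟨c₂, h₂⟩ := base hF
  refine ⟨(c₁ + 4 * c₂) * 200 ^ 3 + 12, fun N b ℓ n r r' i A idx vv P hE hA hn hb hr hr' hP h2t
    Γ hΓ => ?_⟩
  set S := A.size + n + i + 2 ^ b with hS
  have hApos := Fm.size_pos A
  have hbpos : 1 ≤ 2 ^ b := Nat.one_le_two_pow
  have hbb : b < 2 ^ b := Nat.lt_two_pow_self
  have hPl : P.length = r' - r := by
    have := congrArg List.length hP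
    simpa using this
  -- sizes
  have hS1 : 1 ≤ S := by omega
  have p2 : S ≤ S * S := Nat.le_mul_of_pos_left _ hS1
  have p3 : S * S ≤ S * S * S := Nat.le_mul_of_pos_right _ hS1
  have p4 : S * S * S ≤ S * S * S * S := Nat.le_mul_of_pos_right _ hS1
  set M := 200 * (S * S * S * S) with hMdef
  have hBB : 2 ^ b * 2 ^ b ≤ S * S := Nat.mul_le_mul (by omega) (by omega)
  have hOH : ∀ g : ℕ → ℕ, (OH N b g).size ≤ 15 * (S * S) := fun g =>
    (OH_le N b g).trans (Nat.mul_le_mul_left _ hBB)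
  have hWd : ∀ k, k ≤ S → (Wd N b (gv N) k).size ≤ 19 * (S * S * S) := by
    intro k hk
    have : (Wd N b (gv N) k).size ≤ k * (15 * (S * S) + 1) + 3 := by
      unfold Wd
      refine (conjL_le (s := 15 * (S * S)) ?_).trans (by simp)
      intro D hD
      simp only [List.mem_map] at hD
      obtain ⟨j, _, rfl⟩ := hD
      exact hOH _
    have h' : k * (15 * (S * S) + 1) ≤ S * (15 * (S * S) + 1) := Nat.mul_le_mul_right _ hk
    have h'' : S * (15 * (S * S) + 1) = 15 * (S * S * S) + S := by ring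
    omega
  have hYr : ∀ k, Yr n b k ≤ 2 * (S * S) := by
    intro k
    unfold Yr
    have a1 : n * 2 ^ b ≤ S * S := Nat.mul_le_mul (by omega) (by omega)
    have a2 : (n - k) * 2 ^ b ≤ S * S := Nat.mul_le_mul (by omega) (by omega)
    omega
  have hHE : ∀ k t, k ≤ S → (HE N b k (Yr n b t)).size ≤ 40 * (S * S * S) := by
    intro k t hk
    have a1 : (conjL N (oneL (uv N) k)).size ≤ k * 2 + 3 := by
      refine (conjL_le (s := 1) ?_).trans (by simp [oneL])
      intro D hD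
      simp only [oneL, List.mem_map] at hD
      obtain ⟨j, _, rfl⟩ := hD
      simp [size]
    have a2 : (conjL N (zeroL (yv N) (Yr n b t))).size ≤ Yr n b t * 3 + 3 := by
      refine (conjL_le (s := 2) ?_).trans (by simp [zeroL])
      intro D hD
      simp only [zeroL, List.mem_map] at hD
      obtain ⟨j, _, rfl⟩ := hD
      simp [size]
    have a3 := hWd k hk
    have a4 := hYr t
    simp only [HE, size]
    omega
  have heq0 : ∀ (τ : ℕ → Fm) (q : ℕ), (∀ e, (τ e).size ≤ 2 * 2 ^ b + 4) →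
      (eqc N ℓ τ q).size ≤ 11 * (S * S) := by
    intro τ q hτ
    have a1 := eqc_le N ℓ q τ (6 * S - 2) (fun e => (hτ e).trans (by omega))
    have a2 : ℓ * (6 * S - 2 + 2) ≤ S * (6 * S) := Nat.mul_le_mul (by omega) (by omega)
    have a3 : S * (6 * S) = 6 * (S * S) := by ring
    omega
  have hLDl : ∀ (g : ℕ → ℕ → ℕ) (k q : ℕ), k ≤ S →
      (disjL N (LD N b ℓ g k q)).size ≤ 28 * (S * S * S) := by
    intro g k q hk
    have a1 : (disjL N (LD N b ℓ g k q)).size ≤ (2 * k) * (11 * (S * S) + 1) + 4 := by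
      refine (disjL_le (s := 11 * (S * S)) ?_).trans (by simp [LD])
      intro D hD
      simp only [LD, List.mem_map] at hD
      obtain ⟨l, _, rfl⟩ := hD
      exact heq0 _ _ (fun e => dec_le _ _ _ _)
    have a2 : (2 * k) * (11 * (S * S) + 1) ≤ (2 * S) * (11 * (S * S) + 1) :=
      Nat.mul_le_mul_right _ (by omega)
    have a3 : (2 * S) * (11 * (S * S) + 1) = 22 * (S * S * S) + 2 * S := by ring
    omega
  have hTRl : ∀ k t, k ≤ S → (TR N b ℓ A idx t k).size ≤ 30 * (S * S * S * S) := by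
    intro k t hk
    unfold TR
    refine (size_subst_le (M := 30 * (S * S * S)) (by omega) ?_).trans ?_
    · intro m _
      have a1 : (DD N b ℓ k (idx m)).size ≤ 28 * (S * S * S) := hLDl (gv N) k (idx m) hk
      split_ifs
      · omega
      · simp only [size]; omega
    · calc A.size * (30 * (S * S * S)) ≤ S * (30 * (S * S * S)) :=
          Nat.mul_le_mul_right _ (by omega)
        _ = 30 * (S * S * S * S) := by ring
  have hi1 : i + 1 ≤ S := by omega
  have hUl : (conjL N (P.map lit ++ [HE N b i (Yr n b r)])).size ≤ M := by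
    have a1 : (conjL N (P.map lit ++ [HE N b i (Yr n b r)])).size ≤
        (P.length + 1) * (40 * (S * S * S) + 1) + 3 := by
      refine (conjL_le (s := 40 * (S * S * S)) ?_).trans (by simp)
      intro D hD
      simp only [List.mem_append, List.mem_map, List.mem_singleton] at hD
      rcases hD with ⟨x, _, rfl⟩ | rfl
      · have : (lit x).size ≤ 2 := by unfold lit; split_ifs <;> simp [size]
        omega
      · exact hHE i r (by omega)
    have a2 : (P.length + 1) * (40 * (S * S * S) + 1) ≤ S * (40 * (S * S * S) + 1) :=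
      Nat.mul_le_mul_right _ (by omega)
    have a3 : S * (40 * (S * S * S) + 1) = 40 * (S * S * S * S) + S := by ring
    omega
  -- the two true variables
  have hmemP : ∀ m, m ∈ P.map Prod.fst ↔ ∃ q, r ≤ q ∧ q < r' ∧ m = vv q := by
    intro m
    rw [← List.mem_reverse, hP]
    simp only [List.mem_map, List.mem_range'_1]
    constructor
    · rintro ⟨q, ⟨a1, a2⟩, rfl⟩; exact ⟨q, a1, by omega, rfl⟩
    · rintro ⟨q, a1, a2, rfl⟩; exact ⟨q, ⟨a1, by omega⟩, rfl⟩
  have hnd : (P.map Prod.fst).Nodup := by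
    rw [← List.nodup_reverse, hP]
    refine List.Nodup.map_on ?_ List.nodup_range'
    intro x hx y hy e
    rw [List.mem_range'_1] at hx hy
    rw [← (hE.h2 x (by omega)).2, ← (hE.h2 y (by omega)).2, e]
  obtain ⟨m₁, m₂, h12, k1, k2, k3⟩ := two_true P hnd h2t
  have hin : ∀ m, (m, true) ∈ P → m ∈ A.vars ∧ r ≤ idx m ∧ idx m < r' := by
    intro m hm
    obtain ⟨q, a1, a2, rfl⟩ := (hmemP m).1 (List.mem_map.2 ⟨_, hm, rfl⟩)
    have a3 := hE.h2 q (by omega)
    rw [a3.2]
    exact ⟨a3.1, a1, a2⟩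
  obtain ⟨b1, b2, b3⟩ := hin m₁ k1
  obtain ⟨b4, b5, b6⟩ := hin m₂ k2
  set U := conjL N (P.map lit ++ [HE N b i (Yr n b r)]) with hU
  -- the basic facts
  have hbase : ∀ D, BP N b i (Yr n b r) P D → Can F Γ [imp U D] (c₂ * M * M) := fun D hD =>
    h₂ N b i (Yr n b r) P M hUl Γ D hD
  let BL : List Fm := P.map lit ++ ((List.range i).map (fun j => OH N b (gv N j)) ++
    ((List.range i).map (fun j => var (uv N j)) ++
      (List.range (Yr n b r)).map (fun j => neg (var (yv N j)))))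
  have hBL : ∀ D ∈ BL, BP N b i (Yr n b r) P D := by
    intro D hD
    simp only [BL, List.mem_append] at hD
    rcases hD with hD | hD | hD | hD
    · exact Or.inl hD
    · obtain ⟨j, hj, rfl⟩ := List.mem_map.1 hD
      exact Or.inr (Or.inl ⟨j, List.mem_range.1 hj, rfl⟩)
    · obtain ⟨j, hj, rfl⟩ := List.mem_map.1 hD
      exact Or.inr (Or.inr (Or.inl ⟨j, List.mem_range.1 hj, rfl⟩))
    · obtain ⟨j, hj, rfl⟩ := List.mem_map.1 hD
      exact Or.inr (Or.inr (Or.inr ⟨j, List.mem_range.1 hj, rfl⟩))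
  have hBLl : BL.length ≤ 4 * M := by
    have a1 := hYr r
    simp only [BL, List.length_append, List.length_map, List.length_range]
    omega
  refine (cutM (fun D => imp U D) BL (fun D hD => hbase D (hBL D hD)) (fun Γ' hΓ' k => ?_)
    (k' := c₁ * M * M * M)).mono subset_rfl ?_
  · refine h₁ N b ℓ n r r' i A idx vv m₁ m₂ U M hE hA hn hb hr hr' h12 b1 b4 b2 b3 b5 b6 hUl
      ?_ ?_ ?_ ?_ ?_ ?_ ?_ ?_ Γ' (hΓ' hΓ) ?_ ?_ ?_ ?_ ?_ ?_
    · have a1 := hHE (i + 1) r' hi1
      have a2 := hTRl (i + 1) r' hi1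
      simp only [EE, size]
      omega
    · intro g; have := hOH g; omega
    · intro g q; have := hLDl g (i + 1) q hi1; omega
    · intro τ q hτ; have := heq0 τ q hτ; omega
    · have := hTRl i r (by omega); omega
    · omega
    · omega
    · omega
    · refine k _ ?_
      simp only [BL, List.mem_append, List.mem_map]
      exact Or.inl ⟨_, k1, by simp [lit]⟩
    · refine k _ ?_
      simp only [BL, List.mem_append, List.mem_map]
      exact Or.inl ⟨_, k2, by simp [lit]⟩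
    · intro m hm a1 a2 a3 a4
      refine k _ ?_
      simp only [BL, List.mem_append, List.mem_map]
      left
      have : m ∈ P.map Prod.fst := (hmemP m).2 ⟨idx m, a1, a2, (hE.h1 m hm).2.symm⟩
      obtain ⟨⟨m', v⟩, hx, rfl⟩ := List.mem_map.1 this
      cases v with
      | true =>
        rcases k3 _ hx with h | h
        · exact absurd h a3
        · exact absurd h a4
      | false => exact ⟨_, hx, by simp [lit]⟩
    · intro j hj
      refine k _ ?_
      simp only [BL, List.mem_append, List.mem_map, List.mem_range]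
      exact Or.inr (Or.inl ⟨j, hj, rfl⟩)
    · intro j hj
      refine k _ ?_
      simp only [BL, List.mem_append, List.mem_map, List.mem_range]
      exact Or.inr (Or.inr (Or.inl ⟨j, hj, rfl⟩))
    · intro j hj
      refine k _ ?_
      simp only [BL, List.mem_append, List.mem_map, List.mem_range]
      exact Or.inr (Or.inr (Or.inr ⟨j, hj, rfl⟩))
  · have a1 : BL.length * (c₂ * M * M) ≤ 4 * M * (c₂ * M * M) := Nat.mul_le_mul_right _ hBLl
    have a2 : 4 * M * (c₂ * M * M) + c₁ * M * M * M = (c₁ + 4 * c₂) * 200 ^ 3 * S ^ 12 := by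
      rw [hMdef]; ring
    have a3 : S ^ 12 ≤ S ^ ((c₁ + 4 * c₂) * 200 ^ 3 + 12) :=
      Nat.pow_le_pow_right hS1 (by omega)
    calc BL.length * (c₂ * M * M) + c₁ * M * M * M
        ≤ (c₁ + 4 * c₂) * 200 ^ 3 * S ^ 12 := by rw [← a2]; omega
      _ ≤ ((c₁ + 4 * c₂) * 200 ^ 3 + 12) * S ^ ((c₁ + 4 * c₂) * 200 ^ 3 + 12) :=
          Nat.mul_le_mul (by omega) a3

end Pool.Agent.H586P.T_move
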