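import Pool.Agent.H586P.Defs3
import Pool.Agent.H586P.T_cintro
import Pool.Agent.H586P.T_disjT

/-! Task oh (helper196): one-hot lemmas. -/

set_option autoImplicit false

namespace Pool.Agent.H586P.T_oh

open Pool.Agent.H586P Pool.Agent.H555R2.PF Pool.Agent.H555R2.PF.Fm

/-- the disjuncts -/
def dl (b : ℕ) (g : ℕ → ℕ) : List Fm := (List.range (2 ^ b)).map fun α => var (g α)

/-- the conjuncts -/
def cl (b : ℕ) (g : ℕ → ℕ) : List Fm := (List.range (2 ^ b)).flatMap fun α =>
  ((List.range (2 ^ b)).filter fun β => β ≠ α).map fun β => neg (and (var (g α)) (var (g β)))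

theorem OH_eq (z b : ℕ) (g : ℕ → ℕ) :
    OH z b g = and (disjL z (dl b g)) (conjL z (cl b g)) := rfl

theorem mem_cl {b : ℕ} {g : ℕ → ℕ} {X : Fm} : X ∈ cl b g ↔
    ∃ α < 2 ^ b, ∃ β < 2 ^ b, β ≠ α ∧ X = neg (and (var (g α)) (var (g β))) := by
  unfold cl
  simp only [List.mem_flatMap, List.mem_range, List.mem_map, List.mem_filter, decide_eq_true_eq]
  constructor
  · rintro ⟨α, hα, β, ⟨hβ, hne⟩, rfl⟩
    exact ⟨α, hα, β, hβ, hne, rfl⟩
  · rintro ⟨α, hα, β, hβ, hne, rfl⟩
    exact ⟨α, hα, β, ⟨hβ, hne⟩, rfl⟩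

theorem dl_length (b : ℕ) (g : ℕ → ℕ) : (dl b g).length = 2 ^ b := by simp [dl]

/-- the sizes -/
theorem sizes {z b M : ℕ} {g : ℕ → ℕ} (h : (OH z b g).size ≤ M) :
    (disjL z (dl b g)).size ≤ M ∧ (conjL z (cl b g)).size ≤ M ∧ 2 ^ b + 1 ≤ M ∧
      (cl b g).length + 1 ≤ M := by
  rw [OH_eq] at h
  simp only [size] at h
  have h1 := disjL_size z (dl b g)
  have h2 := conjL_size z (cl b g)
  have h3 := dl_length b g
  refine ⟨?_, ?_, ?_, ?_⟩ <;> omega

theorem t_ohuse (F : List Rule) (hF : IsFrege F) : S_ohuse F := by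
  obtain ⟨c₁, h₁⟩ := conj_mem hF
  obtain ⟨c₂, h₂⟩ := schemaL hF [imp (var 0) (and (var 1) (var 2)),
    imp (var 2) (neg (and (var 3) (var 4))), imp (var 0) (var 3)] (imp (var 0) (neg (var 4))) (by
    intro v h; simp [eval] at h ⊢; tauto)
  refine ⟨c₁ + c₂, ?_⟩
  intro z b g H M α β hH hO hα hβ hne Γ g1 g2
  obtain ⟨s1, s2, s3, s4⟩ := sizes hO
  have hM : 1 ≤ M := (size_pos H).trans hH
  have k1 := h₁ z (cl b g) M hM s2 (neg (and (var (g α)) (var (g β))))
    (mem_cl.2 ⟨α, hα, β, hβ, hne, rfl⟩) Γ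
  have k2 := h₂ [H, disjL z (dl b g), conjL z (cl b g), var (g α), var (g β)] M hM (by
    intro Y hY; simp at hY
    rcases hY with rfl | rfl | rfl | rfl | rfl
    exacts [hH, s1, s2, hM, hM])
    (Γ ∪ {X | X ∈ [imp (conjL z (cl b g)) (neg (and (var (g α)) (var (g β))))]}) (by
    intro A hA
    simp only [List.mem_cons, List.not_mem_nil, or_false] at hA
    rcases hA with rfl | rfl | rfl
    · left; simpa [subst, asg, OH_eq] using g1
    · right; simp [subst, asg]
    · left; simpa [subst, asg] using g2)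
  refine ((k1.cut k2).sub ?_).mono subset_rfl ?_
  · intro B hB
    simpa [subst, asg] using hB
  · calc c₁ * M * (cl b g).length + c₂ * M ≤ c₁ * M * M + c₂ * M * M :=
          Nat.add_le_add (Nat.mul_le_mul_left _ (by omega)) (Nat.le_mul_of_pos_right _ hM)
      _ = (c₁ + c₂) * M * M := by ring

theorem t_ohcase (F : List Rule) (hF : IsFrege F) : S_ohcase F := by
  obtain ⟨c₁, h₁⟩ := schemaL hF [imp (and (var 0) (var 1)) (var 2)]
    (imp (var 0) (imp (var 1) (var 2))) (by
    intro v h; simp [eval] at h ⊢; tauto)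
  obtain ⟨c₂, h₂⟩ := disj_elim hF
  obtain ⟨c₃, h₃⟩ := schemaL hF [imp (var 0) (and (var 1) (var 2)),
    imp (var 0) (imp (var 1) (var 3))] (imp (var 0) (var 3)) (by
    intro v h; simp [eval] at h ⊢; tauto)
  refine ⟨c₁ + c₂ + c₃, ?_⟩
  intro z b g H G M hH hG hO Γ g1 g2
  obtain ⟨s1, s2, s3, s4⟩ := sizes hO
  have hM : 1 ≤ M := (size_pos H).trans hH
  have k1 := Can.many (F := F) (Γ := Γ) (fun α => imp H (imp (var (g α)) G)) (c₁ * M)
    (List.range (2 ^ b)) (by
    intro α hα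
    rw [List.mem_range] at hα
    refine (h₁ [H, var (g α), G] M hM (by
      intro Y hY; simp at hY
      rcases hY with rfl | rfl | rfl
      exacts [hH, hM, hG]) Γ (by
      intro A hA
      simp only [List.mem_singleton] at hA
      subst hA
      simpa [subst, asg] using g2 α hα)).sub ?_
    intro B hB
    simpa [subst, asg] using hB)
  rw [List.length_range] at k1
  have k2 := h₂ z H G (dl b g) M hM hH hG s1
    (Γ ∪ {X | X ∈ (List.range (2 ^ b)).map (fun α => imp H (imp (var (g α)) G))}) (by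
    intro l hl
    unfold dl at hl
    obtain ⟨α, hα, rfl⟩ := List.mem_map.1 hl
    right
    exact List.mem_map.2 ⟨α, hα, rfl⟩)
  rw [dl_length] at k2
  have k3 := h₃ [H, disjL z (dl b g), conjL z (cl b g), G] M hM (by
    intro Y hY; simp at hY
    rcases hY with rfl | rfl | rfl | rfl
    exacts [hH, s1, s2, hG])
    ((Γ ∪ {X | X ∈ (List.range (2 ^ b)).map (fun α => imp H (imp (var (g α)) G))}) ∪
      {X | X ∈ [imp H (imp (disjL z (dl b g)) G)]}) (by
    intro A hA
    simp only [List.mem_cons, List.not_mem_nil, or_false] at hA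
    rcases hA with rfl | rfl
    · left; left; simpa [subst, asg, OH_eq] using g1
    · right; simp [subst, asg])
  refine ((k1.cut (k2.cut k3)).sub ?_).mono subset_rfl ?_
  · intro B hB
    simpa [subst, asg] using hB
  · have e1 : 2 ^ b * (c₁ * M) ≤ c₁ * M * (2 ^ b + 1) := by
      calc 2 ^ b * (c₁ * M) = c₁ * M * 2 ^ b := by ring
        _ ≤ _ := Nat.mul_le_mul_left _ (by omega)
    have e2 : c₃ * M ≤ c₃ * M * (2 ^ b + 1) := Nat.le_mul_of_pos_right _ (Nat.succ_pos _)
    calc _ ≤ c₁ * M * (2 ^ b + 1) + (c₂ * M * (2 ^ b + 1) + c₃ * M * (2 ^ b + 1)) := by omega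
      _ = (c₁ + c₂ + c₃) * M * (2 ^ b + 1) := by ring

theorem t_ohintro (F : List Rule) (hF : IsFrege F) : S_ohintro F := by
  obtain ⟨c₁, h₁⟩ := T_disjT.t_disjT F hF
  obtain ⟨c₂, h₂⟩ := T_cintro.t_cintro F hF
  obtain ⟨c₃, h₃⟩ := schemaL hF [imp (var 0) (neg (var 1))]
    (imp (var 0) (neg (and (var 1) (var 2)))) (by
    intro v h; simp [eval] at h ⊢; tauto)
  obtain ⟨c₄, h₄⟩ := schemaL hF [imp (var 0) (neg (var 2))]
    (imp (var 0) (neg (and (var 1) (var 2)))) (by
    intro v h; simp [eval] at h ⊢; tauto)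
  obtain ⟨c₅, h₅⟩ := schemaL hF [imp (var 0) (iff (var 1) (imp (var 3) (var 3))),
    imp (var 0) (var 2)] (imp (var 0) (and (var 1) (var 2))) (by
    intro v h; simp [eval, iff] at h ⊢; tauto)
  refine ⟨c₁ + c₂ + c₃ + c₄ + c₅, ?_⟩
  intro z b g H M α hH hO hα Γ g1 g2
  obtain ⟨s1, s2, s3, s4⟩ := sizes hO
  have hM : 1 ≤ M := (size_pos H).trans hH
  have k1 := h₁ z H (dl b g) M hH s1 (var (g α))
    (List.mem_map.2 ⟨α, List.mem_range.2 hα, rfl⟩) Γ g1
  rw [dl_length] at k1
  have k2 := Can.many (F := F) (Γ := Γ) (fun D => imp H D) ((c₃ + c₄) * M) (cl b g) (by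
    intro D hD
    obtain ⟨α₁, hα₁, β₁, hβ₁, hne, rfl⟩ := mem_cl.1 hD
    by_cases h : α₁ = α
    · have hβ : β₁ ≠ α := by rw [← h]; exact hne
      refine ((h₄ [H, var (g α₁), var (g β₁)] M hM (by
        intro Y hY; simp at hY
        rcases hY with rfl | rfl | rfl
        exacts [hH, hM, hM]) Γ (by
        intro A hA
        simp only [List.mem_singleton] at hA
        subst hA
        simpa [subst, asg] using g2 β₁ hβ₁ hβ)).sub ?_).mono subset_rfl
        (Nat.mul_le_mul_right _ (by omega))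
      intro B hB
      simpa [subst, asg] using hB
    · refine ((h₃ [H, var (g α₁), var (g β₁)] M hM (by
        intro Y hY; simp at hY
        rcases hY with rfl | rfl | rfl
        exacts [hH, hM, hM]) Γ (by
        intro A hA
        simp only [List.mem_singleton] at hA
        subst hA
        simpa [subst, asg] using g2 α₁ hα₁ h)).sub ?_).mono subset_rfl
        (Nat.mul_le_mul_right _ (by omega))
      intro B hB
      simpa [subst, asg] using hB)
  have k3 := h₂ z H (cl b g) M hH s2 (Γ ∪ {X | X ∈ (cl b g).map (fun D => imp H D)}) (by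
    intro D hD
    right
    exact List.mem_map.2 ⟨D, hD, rfl⟩)
  have k4 := h₅ [H, disjL z (dl b g), conjL z (cl b g), var z] M hM (by
    intro Y hY; simp at hY
    rcases hY with rfl | rfl | rfl | rfl
    exacts [hH, s1, s2, hM])
    (Γ ∪ {X | X ∈ [imp H (iff (disjL z (dl b g)) (top z))] ++ [imp H (conjL z (cl b g))]}) (by
    intro A hA
    simp only [List.mem_cons, List.not_mem_nil, or_false] at hA
    rcases hA with rfl | rfl
    · right; simp [subst, asg, iff, top]
    · right; simp [subst, asg])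
  refine (((k1.append (k2.cut k3)).cut k4).sub ?_).mono subset_rfl ?_
  · intro B hB
    simpa [subst, asg, OH_eq] using hB
  · have e1 : c₁ * M * (2 ^ b + 1) ≤ c₁ * M * M := Nat.mul_le_mul_left _ s3
    have e2 : (cl b g).length * ((c₃ + c₄) * M) ≤ (c₃ + c₄) * M * M := by
      rw [mul_comm]
      exact Nat.mul_le_mul_left _ (by omega)
    have e3 : c₂ * M * ((cl b g).length + 1) ≤ c₂ * M * M := Nat.mul_le_mul_left _ s4
    have e4 : c₅ * M ≤ c₅ * M * M := Nat.le_mul_of_pos_right _ hM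
    calc _ ≤ c₁ * M * M + ((c₃ + c₄) * M * M + c₂ * M * M) + c₅ * M * M := by omega
      _ = (c₁ + c₂ + c₃ + c₄ + c₅) * M * M := by ring

end Pool.Agent.H586P.T_oh
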