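import Pool.Agent.H586P.Defs3

/-!
# simultaneous substitutions by single ones
-/

set_option autoImplicit false

namespace Pool.Agent.H586P.T_ss

open Pool.Agent.H586P Pool.Agent.H555R2.PF Pool.Agent.H555R2.PF.Fm

theorem chain {F : List Rule} {W' : Finset ℕ} (φ : Finset ℕ → Fm) (X : Finset ℕ) (m : ℕ)
    (L' : List Fm) (hL' : Sub1Proof F W' L') (h0 : φ ∅ ∈ L')
    (hstep : ∀ S ⊆ X, ∀ p ∈ X, p ∉ S → ∃ (p' : ℕ) (ψ : Fm),
      φ (insert p S) = (φ S).subst (Function.update var p' ψ))
    (hv : ∀ S ⊆ X, (φ S).vars ⊆ W') (hs : ∀ S ⊆ X, (φ S).size ≤ m) :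
    ∃ L'' : List Fm, Sub1Proof F W' L'' ∧ (∀ B ∈ L', B ∈ L'') ∧ φ X ∈ L'' ∧
      psize L'' ≤ psize L' + X.card * m := by
  suffices h : ∀ S ⊆ X, ∃ L'' : List Fm, Sub1Proof F W' L'' ∧ (∀ B ∈ L', B ∈ L'') ∧ φ S ∈ L'' ∧
      psize L'' ≤ psize L' + S.card * m from h X (Finset.Subset.refl _)
  intro S
  induction S using Finset.induction_on with
  | empty => intro _; exact ⟨L', hL', fun B hB => hB, h0, by simp⟩
  | insert p S hp ih =>
    intro hS
    have hS' : S ⊆ X := fun x hx => hS (Finset.mem_insert_of_mem hx)
    obtain ⟨L₁, h1, h2, h3, h4⟩ := ih hS'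
    obtain ⟨p', ψ, he⟩ := hstep S hS' p (hS (Finset.mem_insert_self _ _)) hp
    refine ⟨φ (insert p S) :: L₁, Sub1Proof.sub h1 ⟨φ S, h3, p', ψ, he⟩ (hv _ hS),
      fun B hB => List.mem_cons_of_mem _ (h2 B hB), List.mem_cons_self, ?_⟩
    rw [psize_cons, Finset.card_insert_of_notMem hp, Nat.add_mul, Nat.one_mul]
    have := hs _ hS
    omega

theorem vars_subst (σ : ℕ → Fm) : ∀ A : Fm, (A.subst σ).vars = A.vars.biUnion fun n => (σ n).vars
  | .var n => by simp [subst, vars]
  | .neg A => by simpa [subst, vars] using vars_subst σ A
  | .and A B => by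
      simp only [subst, vars, vars_subst σ A, vars_subst σ B]
      ext x; simp only [Finset.mem_union, Finset.mem_biUnion]
      constructor
      · rintro (⟨n, hn, h⟩ | ⟨n, hn, h⟩)
        · exact ⟨n, Or.inl hn, h⟩
        · exact ⟨n, Or.inr hn, h⟩
      · rintro ⟨n, hn | hn, h⟩
        · exact Or.inl ⟨n, hn, h⟩
        · exact Or.inr ⟨n, hn, h⟩
  | .or A B => by
      simp only [subst, vars, vars_subst σ A, vars_subst σ B]
      ext x; simp only [Finset.mem_union, Finset.mem_biUnion]
      constructor
      · rintro (⟨n, hn, h⟩ | ⟨n, hn, h⟩)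
        · exact ⟨n, Or.inl hn, h⟩
        · exact ⟨n, Or.inr hn, h⟩
      · rintro ⟨n, hn | hn, h⟩
        · exact Or.inl ⟨n, hn, h⟩
        · exact Or.inr ⟨n, hn, h⟩
  | .imp A B => by
      simp only [subst, vars, vars_subst σ A, vars_subst σ B]
      ext x; simp only [Finset.mem_union, Finset.mem_biUnion]
      constructor
      · rintro (⟨n, hn, h⟩ | ⟨n, hn, h⟩)
        · exact ⟨n, Or.inl hn, h⟩
        · exact ⟨n, Or.inr hn, h⟩
      · rintro ⟨n, hn | hn, h⟩
        · exact Or.inl ⟨n, hn, h⟩
        · exact Or.inr ⟨n, hn, h⟩

theorem size_mono {σ τ : ℕ → Fm} : ∀ {A : Fm}, (∀ n ∈ A.vars, (σ n).size ≤ (τ n).size) →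
    (A.subst σ).size ≤ (A.subst τ).size
  | .var n, h => h n (by simp [vars])
  | .neg A, h => by
      have := size_mono (A := A) (fun n hn => h n (by simpa [vars] using hn))
      simp only [subst, size]; omega
  | .and A B, h => by
      have h1 := size_mono (A := A) (fun n hn => h n (by simp [vars, hn]))
      have h2 := size_mono (A := B) (fun n hn => h n (by simp [vars, hn]))
      simp only [subst, size]; omega
  | .or A B, h => by
      have h1 := size_mono (A := A) (fun n hn => h n (by simp [vars, hn]))
      have h2 := size_mono (A := B) (fun n hn => h n (by simp [vars, hn]))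
      simp only [subst, size]; omega
  | .imp A B, h => by
      have h1 := size_mono (A := A) (fun n hn => h n (by simp [vars, hn]))
      have h2 := size_mono (A := B) (fun n hn => h n (by simp [vars, hn]))
      simp only [subst, size]; omega

theorem vars_sub {F : List Rule} {W : Finset ℕ} {L : List Fm} (h : SubProof F W L) :
    ∀ A ∈ L, A.vars ⊆ W := by
  induction h with
  | nil => intro A hA; simp at hA
  | rule _ _ hv ih =>
    intro A hA
    rcases List.mem_cons.1 hA with rfl | hA
    · exact hv
    · exact ih A hA
  | sub _ _ hv ih =>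
    intro A hA
    rcases List.mem_cons.1 hA with rfl | hA
    · exact hv
    · exact ih A hA

theorem size_var (n : ℕ) : (var n).size = 1 := rfl

theorem t_ss (F : List Rule) : S_ss F := by
  intro W f L hf hd hL
  induction hL with
  | nil => exact ⟨[], Sub1Proof.nil, by simp, by simp [psize]⟩
  | @rule L B hL hstep hv ih =>
    obtain ⟨L', h1, h2, h3⟩ := ih
    refine ⟨B :: L', Sub1Proof.rule h1 (hstep.mono h2) (hv.trans Finset.subset_union_left), ?_, ?_⟩
    · intro A hA
      rcases List.mem_cons.1 hA with rfl | hA
      · exact List.mem_cons_self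
      · exact List.mem_cons_of_mem _ (h2 A hA)
    · rw [psize_cons, psize_cons]
      have hb := size_pos B
      generalize B.size = b at *
      generalize psize L = s at *
      nlinarith [Nat.zero_le (s * b), Nat.zero_le (s ^ 2 * b), Nat.zero_le (s * b ^ 2),
        Nat.pow_le_pow_left hb 3, Nat.le_self_pow (n := 3) (by norm_num) b]
  | @sub L B hL hstep hv ih =>
    obtain ⟨L', h1, h2, h3⟩ := ih
    obtain ⟨A, hA, σ, rfl⟩ := hstep
    have hAW : A.vars ⊆ W := vars_sub hL A hA
    have hfW : ∀ x ∈ W, f x ∉ W := by
      intro x hx hfx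
      exact (Finset.disjoint_left.1 hd) (Finset.mem_image_of_mem f hx) hfx
    have hσ : ∀ n ∈ A.vars, (σ n).vars ⊆ W := by
      intro n hn x hx
      apply hv
      rw [vars_subst]
      exact Finset.mem_biUnion.2 ⟨n, hn, hx⟩
    have hfn : ∀ n ∈ A.vars, ∀ x, x ∈ W → f n ≠ x := by
      intro n hn x hx he
      exact hfW n (hAW hn) (he ▸ hx)
    -- phase 1
    obtain ⟨L₁, a1, a2, a3, a4⟩ := chain (F := F) (W' := W ∪ W.image f)
      (fun S => A.subst (fun n => if n ∈ S then var (f n) else var n)) A.vars
      (A.subst σ).size L' h1
      (by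
        have : A.subst (fun n => if n ∈ (∅ : Finset ℕ) then var (f n) else var n) = A := by
          conv_rhs => rw [← subst_var A]
          exact subst_congr (fun n _ => by simp)
        simpa only [this] using h2 A hA)
      (by
        intro S hS p hp hpS
        refine ⟨p, var (f p), ?_⟩
        show A.subst _ = (A.subst _).subst _
        rw [subst_subst]
        refine subst_congr fun n hn => ?_
        by_cases hnS : n ∈ S
        · have : f n ≠ p := hfn n hn p (hAW hp)
          simp [hnS, subst, Function.update_of_ne this]
        · by_cases hnp : n = p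
          · subst hnp; simp [hnS, subst]
          · simp [hnS, hnp, subst])
      (by
        intro S hS x hx
        rw [vars_subst] at hx
        obtain ⟨n, hn, hx⟩ := Finset.mem_biUnion.1 hx
        by_cases hnS : n ∈ S
        · simp only [hnS, if_true, vars, Finset.mem_singleton] at hx
          subst hx
          exact Finset.mem_union_right _ (Finset.mem_image_of_mem f (hAW hn))
        · simp only [hnS, if_false, vars, Finset.mem_singleton] at hx
          subst hx
          exact Finset.mem_union_left _ (hAW hn))
      (by
        intro S hS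
        refine size_mono fun n hn => ?_
        have := size_pos (σ n)
        by_cases hnS : n ∈ S
        · simpa [hnS, size] using this
        · simpa [hnS, size] using this)
    -- phase 2
    obtain ⟨L₂, b1, b2, b3, b4⟩ := chain (F := F) (W' := W ∪ W.image f)
      (fun S => A.subst (fun n => if n ∈ S then σ n else var (f n))) A.vars
      (A.subst σ).size L₁ a1
      (by
        have : A.subst (fun n => if n ∈ (∅ : Finset ℕ) then σ n else var (f n)) =
            A.subst (fun n => if n ∈ A.vars then var (f n) else var n) :=
          subst_congr (fun n hn => by simp [hn])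
        simpa only [this] using a3)
      (by
        intro S hS p hp hpS
        refine ⟨f p, σ p, ?_⟩
        show A.subst _ = (A.subst _).subst _
        rw [subst_subst]
        refine subst_congr fun n hn => ?_
        by_cases hnS : n ∈ S
        · have h : (σ n).subst (Function.update var (f p) (σ p)) = σ n := by
            conv_rhs => rw [← subst_var (σ n)]
            refine subst_congr fun x hx => ?_
            have : x ≠ f p := fun he => hfn p hp x (hσ n hn hx) he.symm
            simp [Function.update_of_ne this]
          simp [hnS, h]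
        · by_cases hnp : n = p
          · subst hnp; simp [hnS, subst]
          · have : f n ≠ f p := fun he => hnp (hf (hAW hn) (hAW hp) he)
            simp [hnS, hnp, subst, Function.update_of_ne this])
      (by
        intro S hS x hx
        rw [vars_subst] at hx
        obtain ⟨n, hn, hx⟩ := Finset.mem_biUnion.1 hx
        by_cases hnS : n ∈ S
        · simp only [hnS, if_true] at hx
          exact Finset.mem_union_left _ (hσ n hn hx)
        · simp only [hnS, if_false, vars, Finset.mem_singleton] at hx
          subst hx
          exact Finset.mem_union_right _ (Finset.mem_image_of_mem f (hAW hn)))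
      (by
        intro S hS
        refine size_mono fun n hn => ?_
        have := size_pos (σ n)
        by_cases hnS : n ∈ S
        · simp [hnS]
        · simpa [hnS, size] using this)
    have hfin : A.subst (fun n => if n ∈ A.vars then σ n else var (f n)) = A.subst σ :=
      subst_congr (fun n hn => by simp [hn])
    refine ⟨L₂, b1, ?_, ?_⟩
    · intro C hC
      rcases List.mem_cons.1 hC with rfl | hC
      · simpa only [hfin] using b3
      · exact b2 C (a2 C (h2 C hC))
    · rw [psize_cons]
      have hc : A.vars.card ≤ psize L := (vars_card_le A).trans (size_le_psize hA)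
      have hb := size_pos (A.subst σ)
      generalize (A.subst σ).size = b at *
      generalize A.vars.card = a at *
      generalize psize L = s at *
      have hab : a * b ≤ s * b := Nat.mul_le_mul_right _ hc
      have hs1 : s * b ≤ s * b ^ 2 := by nlinarith [Nat.zero_le (s * b)]
      have e1 : psize L₂ ≤ 4 * s ^ 3 + 2 * (s * b) := by omega
      have e2 : 4 * s ^ 3 + 2 * (s * b) ≤ 4 * (b + s) ^ 3 := by
        have h1 := Nat.zero_le (s ^ 2 * b)
        have h2 := Nat.zero_le (b ^ 3)
        have h3 := Nat.zero_le (s * b ^ 2)
        nlinarith [h1, h2, h3, hs1]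
      exact e1.trans e2

end Pool.Agent.H586P.T_ss
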