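import Pool.Agent.H586P.Defs

/-!
# The token lemma
-/

set_option autoImplicit false

namespace Pool.Agent.H586P.T_tok

open Pool.Agent.H586P Pool.Agent.H555R2.PF Pool.Agent.H555R2.PF.Fm

theorem extL_length (q : ℕ → ℕ) (φ : ℕ → Fm) (k : ℕ) : (extL q φ k).length = k := by
  induction k with
  | zero => rfl
  | succ k ih => simp [extL, ih]

theorem psize_vars (l : List ℕ) (f : ℕ → ℕ) : psize (l.map fun i => var (f i)) = l.length := by
  induction l with
  | nil => rfl
  | cons a l ih => rw [List.map_cons, psize_cons, ih, List.length_cons]; simp only [size]; omega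

theorem psize_nvars (l : List ℕ) (f : ℕ → ℕ) :
    psize (l.map fun i => neg (var (f i))) = 2 * l.length := by
  induction l with
  | nil => rfl
  | cons a l ih => rw [List.map_cons, psize_cons, ih, List.length_cons]; simp only [size]; omega

theorem dec_size (z r : ℕ) (h : ℕ → ℕ) (t : ℕ) : (dec z r h t).size ≤ 2 * 2 ^ r + 4 := by
  unfold dec
  rw [disjL_size, psize_vars, List.length_map]
  have := List.length_filter_le (fun β => β.testBit t) (List.range (2 ^ r))
  rw [List.length_range] at this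
  omega

theorem cutp_sub (b k j : ℕ) : cutp b k (j + 1) - cutp b k j ≤ b := by
  unfold cutp
  have : (j + 1) * b = j * b + b := by ring
  rw [this]
  omega

open Classical in
/-- the substitution -/
noncomputable def sg (A : Fm) (z b k : ℕ) (q : ℕ → ℕ) (h : ℕ → ℕ → ℕ) (σ₀ : ℕ → Fm) (n : ℕ) : Fm :=
  if n = z then var z
  else if hn : ∃ i, i < k ∧ n = q i then
    dec z (cutp b k (hn.choose / b + 1) - cutp b k (hn.choose / b)) (h (hn.choose / b))
      (hn.choose % b)
  else if n ∈ A.vars then σ₀ n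
  else top z

theorem t_tok (F : List Rule) (hF : IsFrege F) (h1 : S_dline F) (h2 : S_iter F) (h3 : S_ht F)
    (h4 : S_htsize) (h5 : S_kle) : S_tok F := by
  obtain ⟨c₁, hc₁⟩ := h1
  obtain ⟨c₂, hc₂⟩ := h2
  obtain ⟨c₃, hc₃⟩ := h3
  obtain ⟨c₄, hc₄⟩ := conj_mem hF
  obtain ⟨c₅, hc₅⟩ := schemaL hF [imp (var 0) (var 2)] (imp (and (var 0) (var 1)) (var 2)) (by
    intro v h; simp [eval] at h ⊢; tauto)
  obtain ⟨c₆, hc₆⟩ := schemaL hF [imp (var 1) (var 2)] (imp (and (var 0) (var 1)) (var 2)) (by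
    intro v h; simp [eval] at h ⊢; tauto)
  obtain ⟨c₇, hc₇⟩ := schemaL hF [imp (and (var 0) (var 1)) (var 2),
    imp (var 2) (imp (imp (var 3) (var 3)) (var 4))] (imp (var 0) (imp (var 1) (var 4))) (by
    intro v h; simp [eval] at h ⊢; tauto)
  refine ⟨4 * c₁ + 20000 * c₂ + 20000 * c₃ + 200 * c₄ + 100 * c₅ + 100 * c₆ + 100 * c₇, ?_⟩
  intro A k L hL w b N₀ z u y σ₀ hw hb hkwb hN hz hu huinj hy hyinj hσ₀ Γ
  obtain ⟨q, φ, hgood, hmem, hps, Hd⟩ := hc₁ A k L hL
  set s := psize (A :: L) with hs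
  set Q := s * w * 2 ^ b with hQ
  have hks : k ≤ s := h5 F A k (A :: L) hL
  have hs1 : 1 ≤ s := by
    rw [hs, psize_cons]
    have := size_pos A
    omega
  have hAs : A.size ≤ s := by
    rw [hs, psize_cons]
    omega
  have hqN : ∀ i < k, q i < N₀ ∧ q i ≠ z := by
    intro i hi
    exact hN _ (hmem i hi) (q i) (by simp [Fm.iff, vars])
  have hAN : ∀ n ∈ A.vars, n < N₀ ∧ n ≠ z := hN A (by simp)
  -- the one-hot variables
  obtain ⟨N₂, hN₂, hyN₂⟩ : ∃ N₂, N₀ ≤ N₂ ∧ ∀ i < w * 2 ^ b, y i < N₂ := by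
    refine ⟨N₀ + ∑ i ∈ Finset.range (w * 2 ^ b), y i + 1, by omega, ?_⟩
    intro i hi
    have := Finset.single_le_sum (f := y) (fun j _ => Nat.zero_le (y j)) (Finset.mem_range.2 hi)
    omega
  set h : ℕ → ℕ → ℕ := fun j β => N₂ + Nat.pair j β with hh
  set σ := sg A z b k q h σ₀ with hσ
  have hqinj : ∀ i < k, ∀ j < k, q i = q j → i = j := by
    intro i hi j hj hij
    rcases lt_trichotomy i j with hlt | heq | hlt
    · exact absurd hij.symm (hgood.2.2 j hj i hlt)
    · exact heq
    · exact absurd hij (hgood.2.2 i hi j hlt)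
  have hσz : σ z = var z := by
    rw [hσ]
    unfold sg
    rw [if_pos rfl]
  have hσq : ∀ i < k, σ (q i) =
      dec z (cutp b k (i / b + 1) - cutp b k (i / b)) (h (i / b)) (i % b) := by
    intro i hi
    rw [hσ]
    unfold sg
    have hex : ∃ i', i' < k ∧ q i = q i' := ⟨i, hi, rfl⟩
    rw [if_neg (hqN i hi).2, dif_pos hex]
    have : hex.choose = i :=
      (hqinj i hi _ hex.choose_spec.1 hex.choose_spec.2).symm
    rw [this]
  have hσA : ∀ n, n ≠ z → (∀ i < k, n ≠ q i) → n ∈ A.vars → σ n = σ₀ n := by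
    intro n hn1 hn2 hn3
    rw [hσ]
    unfold sg
    rw [if_neg hn1, dif_neg (by rintro ⟨i, hi, rfl⟩; exact hn2 i hi rfl), if_pos hn3]
  have hσo : ∀ n, n ≠ z → (∀ i < k, n ≠ q i) → n ∉ A.vars → σ n = top z := by
    intro n hn1 hn2 hn3
    rw [hσ]
    unfold sg
    rw [if_neg hn1, dif_neg (by rintro ⟨i, hi, rfl⟩; exact hn2 i hi rfl), if_neg hn3]
  have h2b : 2 ≤ 2 ^ b := by
    calc 2 = 2 ^ 1 := by norm_num
      _ ≤ 2 ^ b := Nat.pow_le_pow_right (by norm_num) hb
  set m := 2 * 2 ^ b + 4 with hm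
  have hσm : ∀ n, (σ n).size ≤ m := by
    intro n
    by_cases hn1 : n = z
    · rw [hn1, hσz]; simp only [size]; omega
    · by_cases hn2 : ∀ i < k, n ≠ q i
      · by_cases hn3 : n ∈ A.vars
        · rw [hσA n hn1 hn2 hn3]
          have := (hσ₀ n hn3).1
          omega
        · rw [hσo n hn1 hn2 hn3]
          simp only [top, size]; omega
      · push Not at hn2
        obtain ⟨i, hi, rfl⟩ := hn2
        rw [hσq i hi]
        refine (dec_size _ _ _ _).trans ?_
        have := Nat.pow_le_pow_right (n := 2) (by norm_num) (cutp_sub b k (i / b))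
        omega
  have hextsize : (imp (conjL z (extL q φ k)) A).size ≤ 7 * s := by
    simp only [size]
    rw [conjL_size, extL_length]
    omega
  set M := 100 * Q with hM
  have hw2 : w * 2 ^ b ≤ Q := by
    rw [hQ, mul_assoc]
    exact Nat.le_mul_of_pos_left _ hs1
  have hs2 : s * 2 ^ b ≤ Q := by
    rw [hQ]
    exact Nat.mul_le_mul_right _ (Nat.le_mul_of_pos_right _ hw)
  have hb2 : 2 ^ b ≤ Q := le_trans (Nat.le_mul_of_pos_left _ hs1) hs2
  have hsQ : s ≤ Q := le_trans (Nat.le_mul_of_pos_right _ (by omega)) hs2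
  have hwQ : w ≤ Q := le_trans (Nat.le_mul_of_pos_right _ (by omega)) hw2
  have hQ1 : 1 ≤ Q := le_trans hs1 hsQ
  have hM1 : (imp (conjL z (extL q φ k)) A).size * m + (w + 1) * (9 * 2 ^ b) + 2 * 2 ^ b + 20 ≤
      M := by
    have e1 : (imp (conjL z (extL q φ k)) A).size * m ≤ 7 * s * (4 * 2 ^ b) :=
      Nat.mul_le_mul hextsize (by rw [hm]; omega)
    have e2 : 7 * s * (4 * 2 ^ b) = 28 * (s * 2 ^ b) := by ring
    have e3 : (w + 1) * (9 * 2 ^ b) = 9 * (w * 2 ^ b) + 9 * 2 ^ b := by ring
    rw [e3]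
    rw [e2] at e1
    omega
  have hIT : IT z A k q φ w b σ h u y m M := by
    have hvz : ∀ v, v = z → (∀ j < w, u j ≠ v) ∧ (∀ j β, h j β ≠ v) ∧
        ∀ i < w * 2 ^ b, y i ≠ v := by
      rintro v rfl
      refine ⟨fun j hj => (hu j hj).2, fun j β => ?_, fun i hi => ?_⟩
      · simp only [hh]; omega
      · have := hy i hi; omega
    refine
      { good := hgood
        zq := fun i hi => (hqN i hi).2
        b1 := hb
        kwb := hkwb
        hdec := hσq
        σz := hσz
        oth := ?_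
        hinj := ?_
        yinj := hyinj
        uinj := huinj
        hu := ?_
        yu := ?_
        hy := ?_
        zu := fun j hj => ((hu j hj).2).symm
        zh := fun j β => ((hvz z rfl).2.1 j β).symm
        zy := fun i hi => ((hvz z rfl).2.2 i hi).symm
        m4 := by omega
        σm := hσm
        M1 := hM1 }
    · intro n _ hnq
      by_cases hn1 : n = z
      · rw [hn1, hσz]
        simp only [vars, Finset.mem_singleton]
        exact hvz z rfl
      · by_cases hn3 : n ∈ A.vars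
        · rw [hσA n hn1 hnq hn3]
          have hv := (hσ₀ n hn3).2
          refine ⟨fun j hj hmem' => (hv _ hmem').2 j hj rfl, fun j β hmem' => ?_,
            fun i hi hmem' => ?_⟩
          · have := (hv _ hmem').1
            simp only [hh] at this
            omega
          · have := (hv _ hmem').1
            have := hy i hi
            omega
        · rw [hσo n hn1 hnq hn3]
          simp only [top, vars, Finset.union_self, Finset.mem_singleton]
          exact hvz z rfl
    · intro j β j' β' he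
      simp only [hh] at he
      have : Nat.pair j β = Nat.pair j' β' := by omega
      exact Nat.pair_eq_pair.1 this
    · intro j hj j' β
      have := (hu j hj).1
      simp only [hh]
      omega
    · intro j hj i hi
      have := (hu j hj).1
      have := hy i hi
      omega
    · intro j β i hi
      have := hyN₂ i hi
      simp only [hh]
      omega
  -- the line and the elimination of the blocks
  have hA' : A.subst σ = A.subst σ₀ := by
    apply subst_congr
    intro n hn
    exact hσA n (hAN n hn).2 (fun i hi h0 => hgood.1 i hi (h0 ▸ hn)) hn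
  have step1 : Can F Γ [(imp (conjL z (extL q φ k)) A).subst σ] (c₁ * s ^ 3 * m) :=
    Hd z σ m (by omega) hσz hσm Γ
  have step2 : Can F Γ [imp (HT z u y b k w 0) (imp (imp (var z) (var z)) (A.subst σ₀))]
      (c₁ * s ^ 3 * m + c₂ * M * M * 4 ^ b * (w + 1)) := by
    refine step1.cut ?_
    have := hc₂ z A k q φ w b σ h u y m M hIT
      (Γ ∪ {B | B ∈ [(imp (conjL z (extL q φ k)) A).subst σ]}) (Or.inr (by simp))
    have he : (imp (conjL z (extL q φ 0)) A).subst σ =
        imp (imp (var z) (var z)) (A.subst σ₀) := by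
      simp only [extL, conjL, subst, hσz, hA']
    rwa [he] at this
  -- the hypotheses
  set O := conjL z (oneL u w) with hO
  set Z := conjL z (zeroL y (w * 2 ^ b)) with hZ
  have hOs : O.size ≤ M := by
    rw [hO, conjL_size]
    unfold oneL
    rw [psize_vars, List.length_map, List.length_range]
    omega
  have hZs : Z.size ≤ M := by
    rw [hZ, conjL_size]
    unfold zeroL
    rw [psize_nvars, List.length_map, List.length_range]
    omega
  have hUs : (and O Z).size ≤ M := by
    simp only [size]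
    rw [hO, hZ, conjL_size, conjL_size]
    unfold oneL zeroL
    rw [psize_vars, psize_nvars, List.length_map, List.length_map, List.length_range,
      List.length_range]
    omega
  have hHs : (HT z u y b k w 0).size ≤ M := by
    refine (h4 z u y b k w 0).trans ?_
    have : w * (9 * 2 ^ b) = 9 * (w * 2 ^ b) := by ring
    omega
  have hAs' : (A.subst σ₀).size ≤ M := by
    refine (size_subst_le (by norm_num) (fun n hn => (hσ₀ n hn).1)).trans ?_
    omega
  have hM1' : 1 ≤ M := by omega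
  have hones : Can F Γ ((List.range w).map fun i => imp (and O Z) (var (u i)))
      ((List.range w).length * (c₄ * M * w + c₅ * M)) := by
    apply Can.many
    intro i hi
    rw [List.mem_range] at hi
    have g1 := hc₄ z (oneL u w) M hM1' hOs (var (u i))
      (List.mem_map.2 ⟨i, List.mem_range.2 hi, rfl⟩) Γ
    have hlen : (oneL u w).length = w := by simp [oneL]
    rw [hlen] at g1
    refine g1.cut ?_
    exact hc₅ [O, Z, var (u i)] M hM1' (by
      intro X hX
      simp only [List.mem_cons, List.not_mem_nil, or_false] at hX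
      rcases hX with rfl | rfl | rfl
      · exact hOs
      · exact hZs
      · simpa [size] using hM1') (Γ ∪ {B | B ∈ [imp (conjL z (oneL u w)) (var (u i))]}) (by
      intro B hB
      simp only [List.mem_singleton] at hB
      subst hB
      right
      simp [subst, asg, hO])
  have hzeros : Can F Γ ((List.range (w * 2 ^ b)).map fun i => imp (and O Z) (neg (var (y i))))
      ((List.range (w * 2 ^ b)).length * (c₄ * M * (w * 2 ^ b) + c₆ * M)) := by
    apply Can.many
    intro i hi
    rw [List.mem_range] at hi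
    have g1 := hc₄ z (zeroL y (w * 2 ^ b)) M hM1' hZs (neg (var (y i)))
      (List.mem_map.2 ⟨i, List.mem_range.2 hi, rfl⟩) Γ
    have hlen : (zeroL y (w * 2 ^ b)).length = w * 2 ^ b := by simp [zeroL]
    rw [hlen] at g1
    refine g1.cut ?_
    exact hc₆ [O, Z, neg (var (y i))] M hM1' (by
      intro X hX
      simp only [List.mem_cons, List.not_mem_nil, or_false] at hX
      rcases hX with rfl | rfl | rfl
      · exact hOs
      · exact hZs
      · simp only [size]; omega)
      (Γ ∪ {B | B ∈ [imp (conjL z (zeroL y (w * 2 ^ b))) (neg (var (y i)))]}) (by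
      intro B hB
      simp only [List.mem_singleton] at hB
      subst hB
      right
      simp [subst, asg, hZ])
  have step3 := (hones.append hzeros).cut (hc₃ z u y b k (and O Z) M w 0 hUs hHs
    (Γ ∪ {B | B ∈ ((List.range w).map fun i => imp (and O Z) (var (u i))) ++
      ((List.range (w * 2 ^ b)).map fun i => imp (and O Z) (neg (var (y i))))})
    (by
      intro i _ hi
      right
      exact List.mem_append_left _ (List.mem_map.2 ⟨i, List.mem_range.2 (by omega), rfl⟩))
    (by
      intro i hi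
      right
      exact List.mem_append_right _ (List.mem_map.2 ⟨i, List.mem_range.2 (by
        rwa [zero_add] at hi), rfl⟩)))
  have step4 := (step2.append step3).cut (hc₇ [O, Z, HT z u y b k w 0, var z, A.subst σ₀] M hM1'
    (by
      intro X hX
      simp only [List.mem_cons, List.not_mem_nil, or_false] at hX
      rcases hX with rfl | rfl | rfl | rfl | rfl
      · exact hOs
      · exact hZs
      · exact hHs
      · simpa [size] using hM1'
      · exact hAs')
    (Γ ∪ {B | B ∈ [imp (HT z u y b k w 0) (imp (imp (var z) (var z)) (A.subst σ₀))] ++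
      [imp (and O Z) (HT z u y b k w 0)]}) (by
      intro B hB
      simp only [List.mem_cons, List.not_mem_nil, or_false] at hB
      rcases hB with rfl | rfl
      · right; simp [subst, asg]
      · right; simp [subst, asg]))
  have hres : (imp (var 0) (imp (var 1) (var 4))).subst
      (asg [O, Z, HT z u y b k w 0, var z, A.subst σ₀]) = imp O (imp Z (A.subst σ₀)) := by
    simp [subst, asg]
  rw [hres] at step4
  refine step4.mono subset_rfl ?_
  -- the costs
  rw [List.length_range, List.length_range]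
  have p1 : ∀ i j : ℕ, i ≤ j → Q ^ i ≤ Q ^ j := fun i j hij => Nat.pow_le_pow_right hQ1 hij
  have q1 : c₁ * s ^ 3 * m ≤ 4 * c₁ * Q ^ 6 := by
    calc c₁ * s ^ 3 * m ≤ c₁ * Q ^ 3 * (4 * Q) :=
          Nat.mul_le_mul (Nat.mul_le_mul_left _ (Nat.pow_le_pow_left hsQ 3)) (by omega)
      _ = 4 * c₁ * Q ^ 4 := by ring
      _ ≤ 4 * c₁ * Q ^ 6 := Nat.mul_le_mul_left _ (p1 4 6 (by norm_num))
  have q2 : c₂ * M * M * 4 ^ b * (w + 1) ≤ 20000 * c₂ * Q ^ 6 := by
    have e1 : 4 ^ b ≤ Q ^ 2 := by
      calc 4 ^ b = (2 ^ b) ^ 2 := by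
            rw [← pow_mul, mul_comm b 2, pow_mul]; norm_num
        _ ≤ Q ^ 2 := Nat.pow_le_pow_left hb2 2
    calc c₂ * M * M * 4 ^ b * (w + 1) ≤ c₂ * M * M * Q ^ 2 * (2 * Q) :=
          Nat.mul_le_mul (Nat.mul_le_mul_left _ e1) (by omega)
      _ = 20000 * c₂ * Q ^ 5 := by rw [hM]; ring
      _ ≤ 20000 * c₂ * Q ^ 6 := Nat.mul_le_mul_left _ (p1 5 6 (by norm_num))
  have q3 : c₃ * M * M * (w + 1) ≤ 20000 * c₃ * Q ^ 6 := by
    calc c₃ * M * M * (w + 1) ≤ c₃ * M * M * (2 * Q) := Nat.mul_le_mul_left _ (by omega)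
      _ = 20000 * c₃ * Q ^ 3 := by rw [hM]; ring
      _ ≤ 20000 * c₃ * Q ^ 6 := Nat.mul_le_mul_left _ (p1 3 6 (by norm_num))
  have q4 : w * (c₄ * M * w + c₅ * M) ≤ 100 * c₄ * Q ^ 6 + 100 * c₅ * Q ^ 6 := by
    calc w * (c₄ * M * w + c₅ * M) ≤ Q * (c₄ * M * Q + c₅ * M) :=
          Nat.mul_le_mul hwQ (Nat.add_le_add_right (Nat.mul_le_mul_left _ hwQ) _)
      _ = 100 * c₄ * Q ^ 3 + 100 * c₅ * Q ^ 2 := by rw [hM]; ring
      _ ≤ 100 * c₄ * Q ^ 6 + 100 * c₅ * Q ^ 6 :=
          Nat.add_le_add (Nat.mul_le_mul_left _ (p1 3 6 (by norm_num)))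
            (Nat.mul_le_mul_left _ (p1 2 6 (by norm_num)))
  have q5 : w * 2 ^ b * (c₄ * M * (w * 2 ^ b) + c₆ * M) ≤
      100 * c₄ * Q ^ 6 + 100 * c₆ * Q ^ 6 := by
    calc w * 2 ^ b * (c₄ * M * (w * 2 ^ b) + c₆ * M) ≤ Q * (c₄ * M * Q + c₆ * M) :=
          Nat.mul_le_mul hw2 (Nat.add_le_add_right (Nat.mul_le_mul_left _ hw2) _)
      _ = 100 * c₄ * Q ^ 3 + 100 * c₆ * Q ^ 2 := by rw [hM]; ring
      _ ≤ 100 * c₄ * Q ^ 6 + 100 * c₆ * Q ^ 6 :=
          Nat.add_le_add (Nat.mul_le_mul_left _ (p1 3 6 (by norm_num)))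
            (Nat.mul_le_mul_left _ (p1 2 6 (by norm_num)))
  have q6 : c₇ * M ≤ 100 * c₇ * Q ^ 6 := by
    calc c₇ * M = 100 * c₇ * Q ^ 1 := by rw [hM]; ring
      _ ≤ 100 * c₇ * Q ^ 6 := Nat.mul_le_mul_left _ (p1 1 6 (by norm_num))
  have etot : (4 * c₁ + 20000 * c₂ + 20000 * c₃ + 200 * c₄ + 100 * c₅ + 100 * c₆ + 100 * c₇) *
      Q ^ 6 = 4 * c₁ * Q ^ 6 + 20000 * c₂ * Q ^ 6 + 20000 * c₃ * Q ^ 6 +
      (100 * c₄ * Q ^ 6 + 100 * c₅ * Q ^ 6) + (100 * c₄ * Q ^ 6 + 100 * c₆ * Q ^ 6) +
      100 * c₇ * Q ^ 6 := by ring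
  rw [etot]
  linarith

end Pool.Agent.H586P.T_tok
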