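import Pool.Agent.H586P.Defs3

set_option autoImplicit false

namespace Pool.Agent.H586P.T_tt

open Pool.Agent.H586P Pool.Agent.H555R2.PF Pool.Agent.H555R2.PF.Fm

theorem ev_iff (v : ℕ → Bool) (C : Fm) : ev v C = true ↔ C.eval (fun n => v n = true) := by
  induction C with
  | var n => rfl
  | neg A ih => simp only [ev, eval, ← ih, Bool.not_eq_true', Bool.not_eq_true]
  | and A B iA iB => simp only [ev, eval, ← iA, ← iB, Bool.and_eq_true]
  | or A B iA iB => simp only [ev, eval, ← iA, ← iB, Bool.or_eq_true]
  | imp A B iA iB =>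
    simp only [ev, eval, ← iA, ← iB, Bool.or_eq_true, Bool.not_eq_true']
    cases ev v A <;> simp

theorem lit_size (x : ℕ × Bool) : (lit x).size ≤ 2 := by
  unfold lit
  split_ifs <;> simp [size]

theorem psize_lit (P : List (ℕ × Bool)) : psize (P.map lit) ≤ 2 * P.length := by
  induction P with
  | nil => simp [psize]
  | cons x P ih =>
    rw [List.map_cons, psize_cons, List.length_cons]
    have := lit_size x
    omega

theorem leaf (F : List Rule) (hF : IsFrege F) : ∃ c : ℕ, ∀ (C : Fm) (P : List (ℕ × Bool)) (M : ℕ),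
    (∀ v, C.eval v) → (P.map Prod.fst).Nodup → (∀ n ∈ C.vars, n ∈ P.map Prod.fst) →
    (conjL 0 (P.map lit)).size ≤ M → C.size ≤ M → ∀ Γ : Set Fm,
    FO.Can F Γ [imp (conjL 0 (P.map lit)) C] (c * M ^ 3) := by
  classical
  obtain ⟨c₁, h₁⟩ := FO.conj_mem hF
  obtain ⟨c₂, h₂⟩ := FO.t_ev F hF
  refine ⟨c₁ + c₂, fun C P M hA hP hV hUM hCs Γ => ?_⟩
  set U := conjL 0 (P.map lit) with hU
  have hM : 1 ≤ M := (size_pos U).trans hUM
  let v : ℕ → Bool := fun n => decide ((n, true) ∈ P)
  have hlen : (P.map lit).length ≤ M := by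
    have := conjL_size 0 (P.map lit)
    rw [← hU] at this
    omega
  have hlit : ∀ n ∈ C.vars, sg (v n) (var n) ∈ P.map lit := by
    intro n hn
    obtain ⟨⟨n', b⟩, hb, hnn⟩ := List.mem_map.1 (hV n hn)
    simp only at hnn
    subst hnn
    refine List.mem_map.2 ⟨(n', b), hb, ?_⟩
    cases b with
    | true =>
      have : v n' = true := decide_eq_true hb
      rw [this]
      simp [lit, sg]
    | false =>
      have h3 : (n', true) ∉ P := by
        intro h4
        have := List.inj_on_of_nodup_map hP hb h4 rfl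
        simp at this
      have : v n' = false := decide_eq_false h3
      rw [this]
      simp [lit, sg]
  have step1 : FO.Can F Γ (C.vars.toList.map (fun n => imp U (sg (v n) (var n))))
      (C.vars.toList.length * (c₁ * M * M)) := by
    refine FO.Can.many _ _ _ fun n hn => ?_
    refine (h₁ 0 _ M hM hUM _ (hlit n (Finset.mem_toList.1 hn)) Γ).mono subset_rfl ?_
    exact Nat.mul_le_mul_left _ hlen
  have step2 := h₂ v U M hUM C hCs
    (Γ ∪ {B | B ∈ C.vars.toList.map (fun n => imp U (sg (v n) (var n)))}) (by
      intro n hn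
      right
      exact List.mem_map.2 ⟨n, Finset.mem_toList.2 hn, rfl⟩)
  have hval : ev v C = true := by
    rw [ev_iff]
    exact hA _
  refine ((step1.cut step2).sub ?_).mono subset_rfl ?_
  · intro B hB
    rw [hval]
    simpa [sg] using hB
  · rw [Finset.length_toList]
    have h5 : C.vars.card ≤ M := (vars_card_le C).trans hCs
    have h6 : C.vars.card * (c₁ * M * M) ≤ c₁ * M ^ 3 := by
      calc C.vars.card * (c₁ * M * M) ≤ M * (c₁ * M * M) := Nat.mul_le_mul_right _ h5
        _ = c₁ * M ^ 3 := by ring
    have h7 : c₂ * M * C.size ≤ c₂ * M ^ 3 := by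
      calc c₂ * M * C.size ≤ c₂ * M * (M * M) :=
            Nat.mul_le_mul_left _ (hCs.trans (Nat.le_mul_of_pos_right _ (by omega)))
        _ = c₂ * M ^ 3 := by ring
    calc _ ≤ c₁ * M ^ 3 + c₂ * M ^ 3 := Nat.add_le_add h6 h7
      _ = _ := by ring

theorem t_tt (F : List Rule) (hF : IsFrege F) : S_tt F := by
  obtain ⟨c, hc⟩ := FO.schemaL hF [imp (and (var 0) (var 1)) (var 2),
    imp (and (neg (var 0)) (var 1)) (var 2)] (imp (var 1) (var 2)) (by
      intro v h; simp [eval] at h ⊢; tauto)
  obtain ⟨d, hd⟩ := FO.schemaL hF [imp (imp (var 0) (var 0)) (var 1)] (var 1) (by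
      intro v h; simp [eval] at h ⊢; tauto)
  obtain ⟨e, he⟩ := leaf F hF
  refine ⟨216 * e + 6 * c + 6 * d, fun C hC => ?_⟩
  set V := C.vars.toList with hV
  have hVl : V.length = C.vars.card := Finset.length_toList _
  have hVs : V.length ≤ C.size := by rw [hVl]; exact vars_card_le C
  have hs1 : 1 ≤ C.size := size_pos C
  set M := 6 * C.size with hM
  have hM1 : 1 ≤ M := by omega
  have hCM : C.size ≤ M := by omega
  have key : ∀ (R : List ℕ) (P : List (ℕ × Bool)), (P.map Prod.fst).reverse ++ R = V →
      ∃ m, FO.Can F ∅ [imp (conjL 0 (P.map lit)) C] m ∧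
        m + c * M ≤ (e * M ^ 3 + c * M) * 2 ^ R.length := by
    intro R
    induction R with
    | nil =>
      intro P hP
      rw [List.append_nil] at hP
      have hlenP : P.length ≤ V.length := by
        have := congrArg List.length hP
        simp at this
        omega
      refine ⟨e * M ^ 3, he C P M hC ?_ ?_ ?_ hCM ∅, by simp⟩
      · rw [← List.nodup_reverse, hP]
        exact Finset.nodup_toList _
      · intro n hn
        rw [← List.mem_reverse, hP, hV]
        exact Finset.mem_toList.2 hn
      · rw [conjL_size, List.length_map]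
        have := psize_lit P
        omega
    | cons r R1 ih =>
      intro P hP
      obtain ⟨m1, i1, b1⟩ := ih ((r, true) :: P) (by rw [← hP]; simp)
      obtain ⟨m2, i2, b2⟩ := ih ((r, false) :: P) (by rw [← hP]; simp)
      have hlen : P.length ≤ V.length := by
        have := congrArg List.length hP
        simp at this
        omega
      have hs : (conjL 0 (P.map lit)).size ≤ M := by
        rw [conjL_size, List.length_map]
        have := psize_lit P
        omega
      have e1 : ((r, true) :: P).map lit = var r :: P.map lit := by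
        simp [lit]
      have e2 : ((r, false) :: P).map lit = neg (var r) :: P.map lit := by
        simp [lit]
      rw [e1] at i1
      rw [e2] at i2
      have h5 := hc [var r, conjL 0 (P.map lit), C] M hM1 (by
        intro X hX; simp at hX; rcases hX with rfl | rfl | rfl
        · simpa [size] using hM1
        · exact hs
        · exact hCM) (∅ ∪ {B | B ∈ [imp (conjL 0 (var r :: P.map lit)) C] ++
            [imp (conjL 0 (neg (var r) :: P.map lit)) C]}) (by
          intro A hA
          simp only [List.mem_cons, List.not_mem_nil, or_false] at hA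
          rcases hA with rfl | rfl
          · right; simp [subst, asg, conjL]
          · right; simp [subst, asg, conjL])
      refine ⟨_, ((i1.append i2).cut h5).sub (by simp [subst, asg]), ?_⟩
      have h2 : (e * M ^ 3 + c * M) * 2 ^ (R1.length + 1) =
          (e * M ^ 3 + c * M) * 2 ^ R1.length * 2 := by
        rw [pow_succ 2 R1.length, ← mul_assoc]
      rw [List.length_cons, h2]
      generalize (e * M ^ 3 + c * M) * 2 ^ R1.length = Y at b1 b2 ⊢
      generalize c * M = Z at b1 b2 ⊢
      omega
  obtain ⟨m, hm, hmb⟩ := key V [] (by simp)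
  have h6 := hd [var 0, C] M hM1 (by
    intro X hX; simp at hX; rcases hX with rfl | rfl
    · simpa [size] using hM1
    · exact hCM) (∅ ∪ {B | B ∈ [imp (conjL 0 (([] : List (ℕ × Bool)).map lit)) C]}) (by
      intro A hA
      simp only [List.mem_cons, List.not_mem_nil, or_false] at hA
      rcases hA with rfl
      right; simp [subst, asg, conjL])
  refine ((hm.cut h6).sub (by simp [subst, asg])).mono subset_rfl ?_
  have h2 : 1 ≤ 2 ^ V.length := Nat.one_le_two_pow
  have g1 : e * M ^ 3 ≤ 216 * e * C.size ^ 4 := by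
    rw [hM, mul_pow]
    have : C.size ^ 3 ≤ C.size ^ 4 := Nat.pow_le_pow_right hs1 (by norm_num)
    calc e * (6 ^ 3 * C.size ^ 3) ≤ e * (6 ^ 3 * C.size ^ 4) :=
          Nat.mul_le_mul_left _ (Nat.mul_le_mul_left _ this)
      _ = 216 * e * C.size ^ 4 := by ring
  have g0 : C.size ≤ C.size ^ 4 := Nat.le_self_pow (by norm_num) _
  have g2 : c * M ≤ 6 * c * C.size ^ 4 := by
    rw [hM]
    calc c * (6 * C.size) = 6 * c * C.size := by ring
      _ ≤ _ := Nat.mul_le_mul_left _ g0
  have g3 : d * M ≤ 6 * d * C.size ^ 4 * 2 ^ V.length := by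
    rw [hM]
    calc d * (6 * C.size) = 6 * d * C.size * 1 := by ring
      _ ≤ _ := Nat.mul_le_mul (Nat.mul_le_mul_left _ g0) h2
  rw [← hVl]
  calc m + d * M ≤ (e * M ^ 3 + c * M) * 2 ^ V.length + 6 * d * C.size ^ 4 * 2 ^ V.length := by
        omega
    _ ≤ (216 * e * C.size ^ 4 + 6 * c * C.size ^ 4) * 2 ^ V.length +
        6 * d * C.size ^ 4 * 2 ^ V.length := by
        refine Nat.add_le_add_right (Nat.mul_le_mul_right _ ?_) _
        omega
    _ = _ := by ring

end Pool.Agent.H586P.T_tt
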