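import Pool.Agent.H586P.Defs3

set_option autoImplicit false

namespace Pool.Agent.H586P.T_wsim

open Pool.Agent.H586P Pool.Agent.H555R2.PF Pool.Agent.H555R2.PF.Fm

/-! ### sizes and variables -/

theorem psize_le {l : List Fm} {K : ℕ} (h : ∀ X ∈ l, X.size ≤ K) : psize l ≤ l.length * K := by
  induction l with
  | nil => simp [psize]
  | cons X l ih =>
    rw [psize_cons, List.length_cons]
    have h1 := h X (by simp)
    have h2 := ih fun Y hY => h Y (by simp [hY])
    nlinarith

theorem len_flatMap_le {α : Type} (f : α → List Fm) (K : ℕ) (l : List α)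
    (h : ∀ a ∈ l, (f a).length ≤ K) : (l.flatMap f).length ≤ l.length * K := by
  induction l with
  | nil => simp
  | cons a l ih =>
    rw [List.flatMap_cons, List.length_append, List.length_cons]
    have h1 := h a (by simp)
    have h2 := ih fun b hb => h b (by simp [hb])
    nlinarith

theorem OH_size (z b : ℕ) (g : ℕ → ℕ) {S : ℕ} (hS : 1 ≤ S) (hb : 2 ^ b ≤ S) :
    (OH z b g).size ≤ 15 * S ^ 2 := by
  unfold OH
  simp only [size, conjL_size, disjL_size, List.length_map, List.length_range]
  have h1 : psize ((List.range (2 ^ b)).map fun α => var (g α)) ≤ 2 ^ b * 1 := by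
    have := psize_le (l := (List.range (2 ^ b)).map fun α => var (g α)) (K := 1) (by
      intro X hX
      obtain ⟨i, _, rfl⟩ := List.mem_map.1 hX
      simp [size])
    simpa using this
  have h2 := psize_le (l := (List.range (2 ^ b)).flatMap fun α =>
      ((List.range (2 ^ b)).filter fun β => β ≠ α).map
        fun β => neg (and (var (g α)) (var (g β)))) (K := 4) (by
      intro X hX
      obtain ⟨a, _, hX⟩ := List.mem_flatMap.1 hX
      obtain ⟨i, _, rfl⟩ := List.mem_map.1 hX
      simp [size])
  have h3 := len_flatMap_le (fun α => ((List.range (2 ^ b)).filter fun β => β ≠ α).map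
        fun β => neg (and (var (g α)) (var (g β)))) (2 ^ b) (List.range (2 ^ b)) (by
      intro a _
      rw [List.length_map]
      refine (List.length_filter_le _ _).trans ?_
      rw [List.length_range])
  rw [List.length_range] at h3
  have h4 : 2 ^ b * 2 ^ b ≤ S ^ 2 := by rw [pow_two S]; exact Nat.mul_le_mul hb hb
  have h5 : S ≤ S ^ 2 := Nat.le_self_pow (by norm_num) S
  omega

theorem Wd_size (z b m : ℕ) (g : ℕ → ℕ → ℕ) {S : ℕ} (hS : 1 ≤ S) (hb : 2 ^ b ≤ S)
    (hm : m ≤ 2 * S) : (Wd z b g m).size ≤ 35 * S ^ 3 := by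
  unfold Wd
  simp only [conjL_size, List.length_map, List.length_range]
  have h1 : psize ((List.range m).map fun j => OH z b (g j)) ≤ m * (15 * S ^ 2) := by
    have := psize_le (l := (List.range m).map fun j => OH z b (g j)) (K := 15 * S ^ 2) (by
      intro X hX
      obtain ⟨i, _, rfl⟩ := List.mem_map.1 hX
      exact OH_size z b (g i) hS hb)
    simpa using this
  have h2 : m * (15 * S ^ 2) ≤ 2 * S * (15 * S ^ 2) := Nat.mul_le_mul_right _ hm
  have h3 : 2 * S * (15 * S ^ 2) = 30 * S ^ 3 := by ring
  have h4 : S ≤ S ^ 3 := Nat.le_self_pow (by norm_num) S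
  omega

theorem dec_size (z b : ℕ) (h : ℕ → ℕ) (t : ℕ) {S : ℕ} (hS : 1 ≤ S) (hb : 2 ^ b ≤ S) :
    (dec z b h t).size ≤ 6 * S := by
  unfold dec
  rw [disjL_size]
  have h1 := psize_le (l := ((List.range (2 ^ b)).filter (fun β => β.testBit t)).map
    (fun β => var (h β))) (K := 1) (by
      intro X hX
      obtain ⟨i, _, rfl⟩ := List.mem_map.1 hX
      simp [size])
  have h2 : ((List.range (2 ^ b)).filter (fun β => β.testBit t)).length ≤ 2 ^ b := by
    refine (List.length_filter_le _ _).trans ?_
    rw [List.length_range]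
  simp only [List.length_map] at h1 ⊢
  omega

theorem sub1_vars {F : List Rule} {W : Finset ℕ} {L : List Fm} (h : Sub1Proof F W L) :
    ∀ B ∈ L, B.vars ⊆ W := by
  induction h with
  | nil => simp
  | rule _ _ hv ih =>
    intro B hB
    rcases List.mem_cons.1 hB with rfl | hB
    exacts [hv, ih B hB]
  | sub _ _ hv ih =>
    intro B hB
    rcases List.mem_cons.1 hB with rfl | hB
    exacts [hv, ih B hB]

theorem t_wsim (F : List Rule) (hF : IsFrege F) (h1 : S_wstep F) : S_wsim F := by
  obtain ⟨cw, hw⟩ := h1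
  obtain ⟨c, hc⟩ := uniform (fun (r : Rule) c => r ∈ F → ∀ (E : Fm) (σ : ℕ → Fm)
    (M : ℕ), 1 ≤ M → E.size ≤ M → (∀ n ∈ r.rv, (σ n).size ≤ M) → ∀ Γ : Set Fm,
      (∀ p ∈ r.prem, imp E (p.subst σ) ∈ Γ) → Can F Γ [imp E (r.concl.subst σ)] (c * M))
    (by
      intro r c c' hcc h hr E σ M h1 h2 h3 Γ h4
      exact (h hr E σ M h1 h2 h3 Γ h4).mono subset_rfl (Nat.mul_le_mul_right _ hcc)) F (by
      intro r hr
      obtain ⟨c, hc⟩ := rule_ded hF r hr
      exact ⟨c, fun _ => hc⟩)
  refine ⟨41 * c + cw, ?_⟩
  intro z b m g W blk bit hlay L hL Γ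
  obtain ⟨δ, hδ⟩ : ∃ δ, δ = dlay z b g blk bit := ⟨_, rfl⟩
  rw [← hδ]
  have hb1 : 1 ≤ 2 ^ b := Nat.one_le_two_pow
  have key : ∀ L : List Fm, Sub1Proof F W L → ∀ S : ℕ, psize L + m + 2 ^ b ≤ S →
      Can F Γ (L.map fun B => imp (Wd z b g m) (B.subst δ))
        (L.length * ((41 * c + cw) * S ^ 20)) := by
    intro L hL
    induction hL with
    | nil =>
      intro S _
      simpa using (Can.nil : Can F Γ [] 0)
    | @rule L B hL hB hv ih =>
      intro S hS
      rw [psize_cons] at hS
      have hS1 : 1 ≤ S := by omega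
      have ihS := ih S (by omega)
      obtain ⟨r, hr, σ, hB1, hB2⟩ := hB
      have hδs : ∀ x, (δ x).size ≤ 6 * S := by
        intro x; rw [hδ]; exact dec_size _ _ _ _ hS1 (by omega)
      have s13 : S ≤ S ^ 3 := Nat.le_self_pow (by norm_num) S
      have s23 : S ^ 2 ≤ S ^ 3 := Nat.pow_le_pow_right hS1 (by norm_num)
      have hsz : ∀ Y : Fm, Y.size ≤ S → (Y.subst δ).size ≤ 41 * S ^ 3 := by
        intro Y hY
        have e1 := size_subst_le (σ := δ) (M := 6 * S) (by omega) (A := Y) fun x _ => hδs x
        have e2 : Y.size * (6 * S) ≤ S * (6 * S) := Nat.mul_le_mul_right _ hY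
        have e3 : S * (6 * S) = 6 * S ^ 2 := by ring
        omega
      have hWs : (Wd z b g m).size ≤ 41 * S ^ 3 := by
        have := Wd_size z b m g hS1 (by omega) (by omega)
        omega
      have h6 := hc r hr hr (Wd z b g m) (fun n => (σ n).subst δ) (41 * S ^ 3) (by omega) hWs (by
        intro n hn
        simp only [Rule.rv, Finset.mem_union, Finset.mem_biUnion, List.mem_toFinset] at hn
        apply hsz
        rcases hn with hn | ⟨p, hp, hn⟩
        · refine (size_le_subst hn).trans ?_
          rw [← hB1]; omega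
        · refine (size_le_subst hn).trans ?_
          have := size_le_psize (hB2 p hp)
          omega) (Γ ∪ {B | B ∈ L.map fun B => imp (Wd z b g m) (B.subst δ)}) (by
        intro p hp
        right
        refine List.mem_map.2 ⟨_, hB2 p hp, ?_⟩
        rw [subst_subst])
      have e0 : r.concl.subst (fun n => (σ n).subst δ) = B.subst δ := by
        rw [hB1, subst_subst]
      rw [e0] at h6
      have h7 : Can F Γ ([imp (Wd z b g m) (B.subst δ)] ++
          L.map fun B => imp (Wd z b g m) (B.subst δ)) (L.length * ((41 * c + cw) * S ^ 20) +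
            c * (41 * S ^ 3)) := by
        intro L' hL' hΓL'
        obtain ⟨D, g1, g2, g3⟩ := ihS L' hL' hΓL'
        obtain ⟨D', g1', g2', g3'⟩ := h6 (D ++ L') g1 (by
          rintro C (hC | hC)
          · exact List.mem_append_right _ (hΓL' C hC)
          · exact g2 C hC)
        refine ⟨D' ++ D, by rwa [List.append_assoc], ?_, ?_⟩
        · intro C hC
          rw [List.append_assoc]
          rcases List.mem_append.1 hC with hC | hC
          · exact g2' _ hC
          · exact List.mem_append_right _ (g2 C hC)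
        · rw [psize_append]; omega
      refine (h7.sub (by simp)).mono subset_rfl ?_
      rw [List.length_cons, Nat.add_one_mul L.length]
      have p3 : S ^ 3 ≤ S ^ 20 := Nat.pow_le_pow_right hS1 (by norm_num)
      have e4 : c * (41 * S ^ 3) ≤ 41 * c * S ^ 20 := by
        calc c * (41 * S ^ 3) = 41 * c * S ^ 3 := by ring
          _ ≤ _ := Nat.mul_le_mul_left _ p3
      have e5 : (41 * c + cw) * S ^ 20 = 41 * c * S ^ 20 + cw * S ^ 20 := by rw [add_mul]
      omega
    | @sub L B hL hB hv ih =>
      intro S hS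
      rw [psize_cons] at hS
      have hS1 : 1 ≤ S := by omega
      have ihS := ih S (by omega)
      obtain ⟨A, hA, p, ψ, hB1⟩ := hB
      have hAs := size_le_psize hA
      have hAv := sub1_vars hL A hA
      rw [hB1] at hv
      have h6 := hw z b m g W blk bit hlay A p ψ hAv hv (Γ ∪ {B | B ∈ L.map fun B =>
        imp (Wd z b g m) (B.subst δ)}) (by
          right
          rw [← hδ]
          exact List.mem_map.2 ⟨A, hA, rfl⟩)
      rw [← hB1, ← hδ] at h6
      have h7 : Can F Γ ([imp (Wd z b g m) (B.subst δ)] ++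
          L.map fun B => imp (Wd z b g m) (B.subst δ)) (L.length * ((41 * c + cw) * S ^ 20) +
            cw * (A.size + B.size + m + 2 ^ b) ^ 20) := by
        intro L' hL' hΓL'
        obtain ⟨D, g1, g2, g3⟩ := ihS L' hL' hΓL'
        obtain ⟨D', g1', g2', g3'⟩ := h6 (D ++ L') g1 (by
          rintro C (hC | hC)
          · exact List.mem_append_right _ (hΓL' C hC)
          · exact g2 C hC)
        refine ⟨D' ++ D, by rwa [List.append_assoc], ?_, ?_⟩
        · intro C hC
          rw [List.append_assoc]
          rcases List.mem_append.1 hC with hC | hC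
          · exact g2' _ hC
          · exact List.mem_append_right _ (g2 C hC)
        · rw [psize_append]; omega
      refine (h7.sub (by simp)).mono subset_rfl ?_
      rw [List.length_cons, Nat.add_one_mul L.length]
      have e4 : cw * (A.size + B.size + m + 2 ^ b) ^ 20 ≤ cw * S ^ 20 :=
        Nat.mul_le_mul_left _ (Nat.pow_le_pow_left (by omega) 20)
      have e5 : (41 * c + cw) * S ^ 20 = 41 * c * S ^ 20 + cw * S ^ 20 := by rw [add_mul]
      omega
  have h2 := key L hL (psize L + m + 2 ^ b) le_rfl
  refine h2.mono subset_rfl ?_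
  obtain ⟨S, hS⟩ : ∃ S, S = psize L + m + 2 ^ b := ⟨_, rfl⟩
  rw [← hS]
  have e1 : L.length ≤ S := by have := length_le_psize L; omega
  have e2 : 1 ≤ S := by omega
  calc L.length * ((41 * c + cw) * S ^ 20) ≤ S * ((41 * c + cw) * S ^ 20) :=
        Nat.mul_le_mul_right _ e1
    _ = (41 * c + cw) * S ^ 21 := by ring
    _ ≤ (41 * c + cw) * S ^ 22 :=
        Nat.mul_le_mul_left _ (Nat.pow_le_pow_right e2 (by norm_num))

end Pool.Agent.H586P.T_wsim
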