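import Pool.Agent.H586P.Defs3

set_option autoImplicit false

namespace Pool.Agent.H586P.T_wstep

open Pool.Agent.H586P Pool.Agent.H555R2.PF Pool.Agent.H555R2.PF.Fm

/-! ### sizes and variables -/

theorem psize_le {l : List Fm} {K : ℕ} (h : ∀ X ∈ l, X.size ≤ K) : psize l ≤ l.length * K := by
  induction l with
  | nil => simp [psize]
  | cons X l ih =>
    rw [psize_cons, List.length_cons]
    have h1 := h X (by simp)
    have h2 := ih fun Y hY => h Y (by simp [hY])
    nlinarith

theorem len_flatMap_le {α : Type} (f : α → List Fm) (K : ℕ) (l : List α)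
    (h : ∀ a ∈ l, (f a).length ≤ K) : (l.flatMap f).length ≤ l.length * K := by
  induction l with
  | nil => simp
  | cons a l ih =>
    rw [List.flatMap_cons, List.length_append, List.length_cons]
    have h1 := h a (by simp)
    have h2 := ih fun b hb => h b (by simp [hb])
    nlinarith

theorem OH_size (z b : ℕ) (g : ℕ → ℕ) {S : ℕ} (hS : 1 ≤ S) (hb : 2 ^ b ≤ S) :
    (OH z b g).size ≤ 15 * S ^ 2 := by
  unfold OH
  simp only [size, conjL_size, disjL_size, List.length_map, List.length_range]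
  have h1 : psize ((List.range (2 ^ b)).map fun α => var (g α)) ≤ 2 ^ b * 1 := by
    have := psize_le (l := (List.range (2 ^ b)).map fun α => var (g α)) (K := 1) (by
      intro X hX
      obtain ⟨i, _, rfl⟩ := List.mem_map.1 hX
      simp [size])
    simpa using this
  have h2 := psize_le (l := (List.range (2 ^ b)).flatMap fun α =>
      ((List.range (2 ^ b)).filter fun β => β ≠ α).map
        fun β => neg (and (var (g α)) (var (g β)))) (K := 4) (by
      intro X hX
      obtain ⟨a, _, hX⟩ := List.mem_flatMap.1 hX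
      obtain ⟨i, _, rfl⟩ := List.mem_map.1 hX
      simp [size])
  have h3 := len_flatMap_le (fun α => ((List.range (2 ^ b)).filter fun β => β ≠ α).map
        fun β => neg (and (var (g α)) (var (g β)))) (2 ^ b) (List.range (2 ^ b)) (by
      intro a _
      rw [List.length_map]
      refine (List.length_filter_le _ _).trans ?_
      rw [List.length_range])
  rw [List.length_range] at h3
  have h4 : 2 ^ b * 2 ^ b ≤ S ^ 2 := by rw [pow_two S]; exact Nat.mul_le_mul hb hb
  have h5 : S ≤ S ^ 2 := Nat.le_self_pow (by norm_num) S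
  omega

theorem Wd_size (z b m : ℕ) (g : ℕ → ℕ → ℕ) {S : ℕ} (hS : 1 ≤ S) (hb : 2 ^ b ≤ S)
    (hm : m ≤ 2 * S) : (Wd z b g m).size ≤ 35 * S ^ 3 := by
  unfold Wd
  simp only [conjL_size, List.length_map, List.length_range]
  have h1 : psize ((List.range m).map fun j => OH z b (g j)) ≤ m * (15 * S ^ 2) := by
    have := psize_le (l := (List.range m).map fun j => OH z b (g j)) (K := 15 * S ^ 2) (by
      intro X hX
      obtain ⟨i, _, rfl⟩ := List.mem_map.1 hX
      exact OH_size z b (g i) hS hb)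
    simpa using this
  have h2 : m * (15 * S ^ 2) ≤ 2 * S * (15 * S ^ 2) := Nat.mul_le_mul_right _ hm
  have h3 : 2 * S * (15 * S ^ 2) = 30 * S ^ 3 := by ring
  have h4 : S ≤ S ^ 3 := Nat.le_self_pow (by norm_num) S
  omega

theorem dec_size (z b : ℕ) (h : ℕ → ℕ) (t : ℕ) {S : ℕ} (hS : 1 ≤ S) (hb : 2 ^ b ≤ S) :
    (dec z b h t).size ≤ 6 * S := by
  unfold dec
  rw [disjL_size]
  have h1 := psize_le (l := ((List.range (2 ^ b)).filter (fun β => β.testBit t)).map
    (fun β => var (h β))) (K := 1) (by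
      intro X hX
      obtain ⟨i, _, rfl⟩ := List.mem_map.1 hX
      simp [size])
  have h2 : ((List.range (2 ^ b)).filter (fun β => β.testBit t)).length ≤ 2 ^ b := by
    refine (List.length_filter_le _ _).trans ?_
    rw [List.length_range]
  simp only [List.length_map] at h1 ⊢
  omega

theorem conjL_rename (z : ℕ) (f : ℕ → ℕ) (l : List Fm) :
    (conjL z l).rename f = conjL (f z) (l.map fun X => X.rename f) := by
  induction l with
  | nil => rfl
  | cons X l ih =>
    show and (X.rename f) ((conjL z l).rename f) = and (X.rename f) _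
    rw [ih]

theorem disjL_rename (z : ℕ) (f : ℕ → ℕ) (l : List Fm) :
    (disjL z l).rename f = disjL (f z) (l.map fun X => X.rename f) := by
  induction l with
  | nil => rfl
  | cons X l ih =>
    show or (X.rename f) ((disjL z l).rename f) = or (X.rename f) _
    rw [ih]

theorem OH_rename (z b : ℕ) (g : ℕ → ℕ) (f : ℕ → ℕ) :
    (OH z b g).rename f = OH (f z) b (fun α => f (g α)) := by
  unfold OH
  show and (Fm.rename f (disjL _ _)) (Fm.rename f (conjL _ _)) = _
  rw [conjL_rename, disjL_rename, List.map_map, List.map_flatMap]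
  congr 2
  apply List.flatMap_congr
  intro α _
  rw [List.map_map]
  rfl

theorem Wd_rename (z b m : ℕ) (g : ℕ → ℕ → ℕ) (f : ℕ → ℕ) :
    (Wd z b g m).rename f = Wd (f z) b (fun j α => f (g j α)) m := by
  unfold Wd
  rw [conjL_rename, List.map_map]
  congr 1
  apply List.map_congr_left
  intro j _
  exact OH_rename z b (g j) f

theorem dec_rename (z b : ℕ) (h : ℕ → ℕ) (t : ℕ) (f : ℕ → ℕ) :
    (dec z b h t).rename f = dec (f z) b (fun α => f (h α)) t := by
  unfold dec
  rw [disjL_rename, List.map_map]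
  rfl

/-! ### composition -/

variable {F : List Rule} {Γ : Set Fm}

theorem app1 {X Y : Fm} {k k' : ℕ} (h : Can F Γ [X] k)
    (h' : ∀ Γ' : Set Fm, Γ ⊆ Γ' → X ∈ Γ' → Can F Γ' [Y] k') : Can F Γ [Y] (k + k') :=
  h.cut (h' _ (fun _ hx => Or.inl hx) (by right; simp))

theorem appM {ι : Type} {Y : Fm} {k k' : ℕ} (f : ι → Fm) (l : List ι)
    (h : ∀ i ∈ l, Can F Γ [f i] k)
    (h' : ∀ Γ' : Set Fm, Γ ⊆ Γ' → (∀ i ∈ l, f i ∈ Γ') → Can F Γ' [Y] k') :
    Can F Γ [Y] (l.length * k + k') :=
  (Can.many f k l h).cut (h' _ (fun _ hx => Or.inl hx)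
    (fun i hi => by right; exact List.mem_map.2 ⟨i, hi, rfl⟩))

theorem setbit {b α r : ℕ} (t : Bool) (hα : α < 2 ^ b) (hr : r < b) :
    ∃ α1 < 2 ^ b, ∀ k, α1.testBit k = if k = r then t else α.testBit k := by
  by_cases h : α.testBit r = t
  · refine ⟨α, hα, fun k => ?_⟩
    split_ifs with hk
    · rw [hk, h]
    · rfl
  · refine ⟨α ^^^ 2 ^ r, Nat.xor_lt_two_pow hα (Nat.pow_lt_pow_right (by norm_num) hr), ?_⟩
    intro k
    rw [Nat.testBit_xor, Nat.testBit_two_pow]
    by_cases hk : k = r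
    · subst hk
      rw [if_pos rfl]
      revert h
      cases α.testBit k <;> cases t <;> simp
    · rw [if_neg hk]
      have : decide (r = k) = false := by simpa using fun h => hk h.symm
      rw [this, Bool.xor_false]

/-! ### the heart of the proof -/

theorem core (F : List Rule) (hF : IsFrege F) (h1 : S_ren F) (h2 : S_repl F) (h3 : S_cintro F)
    (h6 : S_ohintro F) (h7 : S_deval F) :
    ∃ c : ℕ, ∀ (z b m : ℕ) (g : ℕ → ℕ → ℕ) (W : Finset ℕ) (blk bit : ℕ → ℕ),
    Lay z b m g W blk bit → ∀ (A : Fm) (p : ℕ) (X E : Fm) (S : ℕ), A.vars ⊆ W → p ∈ W →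
    2 ^ b ≤ S → m ≤ S → A.size ≤ S → X.size ≤ 60 * S ^ 3 → E.size ≤ 60 * S ^ 3 →
    (A.subst fun x => if x = p then X else dlay z b g blk bit x).size ≤ 60 * S ^ 3 →
    ∀ (α α1 : ℕ) (t : Bool), α < 2 ^ b → α1 < 2 ^ b →
    (∀ k, α1.testBit k = if k = bit p then t else α.testBit k) → ∀ Γ : Set Fm,
    imp (Wd z b g m) (A.subst (dlay z b g blk bit)) ∈ Γ →
    imp E (var (g (blk p) α)) ∈ Γ →
    (∀ β < 2 ^ b, β ≠ α → imp E (neg (var (g (blk p) β))) ∈ Γ) →
    (∀ j' < m, imp E (OH z b (g j')) ∈ Γ) → imp E (sg t X) ∈ Γ →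
    Can F Γ [imp E (A.subst fun x => if x = p then X else dlay z b g blk bit x)]
      (c * S ^ 7) := by
  obtain ⟨cr, hr⟩ := h1
  obtain ⟨cp, hp⟩ := h2
  obtain ⟨cc, hc⟩ := h3
  obtain ⟨ci, hi⟩ := h6
  obtain ⟨cd, hd⟩ := h7
  obtain ⟨c1, q1⟩ := schemaL hF [] (imp (var 0) (iff (var 1) (var 1))) (by
    intro v _; simp [eval, iff])
  obtain ⟨c2, q2⟩ := schemaL hF [imp (var 0) (iff (var 1) (var 3)),
    imp (var 0) (iff (var 2) (var 3))] (imp (var 0) (iff (var 1) (var 2))) (by
    intro v h; simp [eval, iff] at h ⊢; tauto)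
  -- `iff (var 1) (cst 3 t)` and `sg t (var 2)`
  obtain ⟨c3, q3⟩ := schemaL hF [imp (var 0) (iff (var 1) (imp (var 3) (var 3))),
    imp (var 0) (var 2)] (imp (var 0) (iff (var 1) (var 2))) (by
    intro v h; simp [eval, iff] at h ⊢; tauto)
  obtain ⟨c4, q4⟩ := schemaL hF [imp (var 0) (iff (var 1) (neg (imp (var 3) (var 3)))),
    imp (var 0) (neg (var 2))] (imp (var 0) (iff (var 1) (var 2))) (by
    intro v h; simp [eval, iff] at h ⊢; tauto)
  obtain ⟨c5, q5⟩ := schemaL hF [imp (var 1) (var 2), imp (var 0) (var 1),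
    imp (var 0) (iff (var 2) (var 3))] (imp (var 0) (var 3)) (by
    intro v h; simp [eval, iff] at h ⊢; tauto)
  obtain ⟨K, hK⟩ : ∃ K, K = 2 * (60 * cd) + 60 * c1 + 60 * c2 + 60 * c3 + 60 * c4 := ⟨_, rfl⟩
  refine ⟨3600 * cr + (3600 * ci + 120 * cc) + (K + 60 * cp) + 60 * c5, ?_⟩
  intro z b m g W blk bit hlay A p X E S hA hpW hbS hmS hAS hX hE hG α α1 t hα hα1 hbit Γ
    hprem hvar hneg hoh hsg
  obtain ⟨M, hM⟩ : ∃ M, M = 60 * S ^ 3 := ⟨_, rfl⟩
  have hb1 : 1 ≤ 2 ^ b := Nat.one_le_two_pow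
  have hS : 1 ≤ S := hb1.trans hbS
  obtain ⟨δ, hδ⟩ : ∃ δ, δ = dlay z b g blk bit := ⟨_, rfl⟩
  obtain ⟨σ, hσ⟩ : ∃ σ : ℕ → Fm, σ = fun x => if x = p then X else dlay z b g blk bit x :=
    ⟨_, rfl⟩
  rw [← hδ] at hprem
  rw [← hσ] at hG ⊢
  rw [← hM] at hX hE hG
  have hM1 : 1 ≤ M := (size_pos E).trans hE
  have s13 : S ≤ S ^ 3 := Nat.le_self_pow (by norm_num) S
  have s23 : S ^ 2 ≤ S ^ 3 := Nat.pow_le_pow_right hS (by norm_num)
  have hδs : ∀ x, (δ x).size ≤ 6 * S := by
    intro x; rw [hδ]; exact dec_size _ _ _ _ hS hbS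
  -- the renaming
  obtain ⟨f, hf⟩ : ∃ f : ℕ → ℕ, f = fun x => Equiv.swap (g (blk p) α) (g (blk p) α1) x :=
    ⟨_, rfl⟩
  have hfinj : Function.Injective f := by rw [hf]; exact (Equiv.swap _ _).injective
  have hfz : f z = z := by
    rw [hf]
    exact Equiv.swap_apply_of_ne_of_ne (fun h => hlay.gz _ _ h.symm) (fun h => hlay.gz _ _ h.symm)
  have hfo : ∀ j, j ≠ blk p → ∀ β, f (g j β) = g j β := by
    intro j hj β
    rw [hf]
    exact Equiv.swap_apply_of_ne_of_ne (fun h => hj (hlay.ginj _ _ _ _ h).1)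
      (fun h => hj (hlay.ginj _ _ _ _ h).1)
  have hfj : ∀ β, f (g (blk p) β) = g (blk p) (Equiv.swap α α1 β) := by
    intro β
    rw [hf]
    have hinj : Function.Injective (g (blk p)) := fun a a' h => (hlay.ginj _ _ _ _ h).2
    exact (hinj.map_swap α α1 β).symm
  have hsw : ∀ β < 2 ^ b, β ≠ α1 → Equiv.swap α α1 β < 2 ^ b ∧ Equiv.swap α α1 β ≠ α := by
    intro β hβ hne
    constructor
    · rw [Equiv.swap_apply_def]
      split_ifs <;> assumption
    · intro h
      apply hne
      have := congrArg (Equiv.swap α α1) h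
      rwa [Equiv.swap_apply_self, Equiv.swap_apply_left] at this
  -- sizes
  have hWs : (Wd z b g m).size ≤ 35 * S ^ 3 := Wd_size z b m g hS hbS (by omega)
  have hWs' : (Wd z b (fun j β => f (g j β)) m).size ≤ 35 * S ^ 3 :=
    Wd_size z b m _ hS hbS (by omega)
  have hAδ : (A.subst δ).size ≤ 6 * S ^ 2 := by
    have e1 := size_subst_le (σ := δ) (M := 6 * S) (by omega) (A := A) fun x _ => hδs x
    have e2 : A.size * (6 * S) ≤ S * (6 * S) := Nat.mul_le_mul_right _ hAS
    have e3 : S * (6 * S) = 6 * S ^ 2 := by ring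
    omega
  have hps : (imp (Wd z b g m) (A.subst δ)).size ≤ M := by
    simp only [size]; rw [hM]; omega
  -- the renamed premise
  have hren := hr (imp (Wd z b g m) (A.subst δ)) f M hps (hfinj.injOn) Γ hprem
  have hrenE : (imp (Wd z b g m) (A.subst δ)).rename f =
      imp (Wd z b (fun j β => f (g j β)) m) ((A.subst δ).rename f) := by
    show imp ((Wd z b g m).rename f) ((A.subst δ).rename f) = _
    rw [Wd_rename, hfz]
  rw [hrenE] at hren
  have hAr : (A.subst δ).rename f = A.subst fun x => (δ x).rename f := subst_subst _ _ _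
  have hδr : ∀ x, (δ x).rename f = dec z b (fun β => f (g (blk x) β)) (bit x) := by
    intro x
    rw [hδ]; unfold dlay
    rw [dec_rename, hfz]
  have hArs : (A.subst fun x => (δ x).rename f).size ≤ M := by
    rw [← hAr, size_rename, hM]; omega
  rw [hAr] at hren
  have hM3 : M * M = 3600 * S ^ 6 := by rw [hM]; ring
  have s67 : S ^ 6 ≤ S ^ 7 := Nat.pow_le_pow_right hS (by norm_num)
  have s57 : S ^ 5 ≤ S ^ 7 := Nat.pow_le_pow_right hS (by norm_num)
  have s47 : S ^ 4 ≤ S ^ 7 := Nat.pow_le_pow_right hS (by norm_num)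
  have s37 : S ^ 3 ≤ S ^ 7 := Nat.pow_le_pow_right hS (by norm_num)
  -- facts on the token after the renaming
  have t1 : ∀ Γ' : Set Fm, Γ ⊆ Γ' → imp E (var (f (g (blk p) α1))) ∈ Γ' := by
    intro Γ' hΓ'
    rw [hfj, Equiv.swap_apply_right]
    exact hΓ' hvar
  have t2 : ∀ Γ' : Set Fm, Γ ⊆ Γ' → ∀ β < 2 ^ b, β ≠ α1 →
      imp E (neg (var (f (g (blk p) β)))) ∈ Γ' := by
    intro Γ' hΓ' β hβ hne
    rw [hfj]
    exact hΓ' (hneg _ (hsw β hβ hne).1 (hsw β hβ hne).2)
  -- the world after the renaming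
  have hworld : ∀ Γ' : Set Fm, Γ ⊆ Γ' → Can F Γ' [imp E (Wd z b (fun j β => f (g j β)) m)]
      ((3600 * ci + 120 * cc) * S ^ 7) := by
    intro Γ' hΓ'
    have hone : ∀ j ∈ List.range m, Can F Γ' [imp E (OH z b fun β => f (g j β))]
        (3600 * ci * S ^ 6) := by
      intro j hj
      rw [List.mem_range] at hj
      by_cases hjp : j = blk p
      · subst hjp
        refine (hi z b (fun β => f (g (blk p) β)) E M α1 hE (by
          have := OH_size z b (fun β => f (g (blk p) β)) hS hbS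
          rw [hM]; omega) hα1 Γ' (t1 Γ' hΓ') (t2 Γ' hΓ')).mono subset_rfl ?_
        rw [mul_assoc, hM3]
        apply le_of_eq; ring
      · have e1 : (fun β => f (g j β)) = g j := by
          funext β; exact hfo j hjp β
        rw [e1]
        exact (Can.hyp (hΓ' (hoh j hj))).mono subset_rfl (Nat.zero_le _)
    refine (appM (fun j => imp E (OH z b fun β => f (g j β))) (List.range m) hone
      (Y := imp E (Wd z b (fun j β => f (g j β)) m)) (k' := cc * M * (m + 1)) ?_).mono
        subset_rfl ?_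
    · intro Γ'' _ hmem
      have := hc z E ((List.range m).map fun j => OH z b fun β => f (g j β)) M hE (by
        have e0 : (conjL z ((List.range m).map fun j => OH z b fun β => f (g j β))).size ≤
          35 * S ^ 3 := hWs'
        rw [hM]; omega) Γ'' (by
        intro D hD
        obtain ⟨j, hj, rfl⟩ := List.mem_map.1 hD
        exact hmem j hj)
      simpa [Wd] using this
    · rw [List.length_range]
      have e1 : m * (3600 * ci * S ^ 6) ≤ S * (3600 * ci * S ^ 6) := Nat.mul_le_mul_right _ hmS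
      have e2 : S * (3600 * ci * S ^ 6) = 3600 * ci * S ^ 7 := by ring
      have e3 : cc * M * (m + 1) ≤ cc * M * (2 * S) := Nat.mul_le_mul_left _ (by omega)
      have e4 : cc * M * (2 * S) = 120 * cc * S ^ 4 := by rw [hM]; ring
      have e5 : 120 * cc * S ^ 4 ≤ 120 * cc * S ^ 7 := Nat.mul_le_mul_left _ s47
      rw [add_mul]
      omega
  -- the variables
  have hX0 : ∀ r', (cst z r').size ≤ M := by
    intro r'
    have : (cst z r').size ≤ 4 := by
      unfold cst top; split_ifs <;> simp [size]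
    have e2 : 1 ≤ S ^ 3 := Nat.one_le_pow _ _ hS
    omega
  have hdM : ∀ x, (δ x).size ≤ M := by
    intro x
    have := hδs x
    rw [hM]; omega
  have hdM' : ∀ x, ((δ x).rename f).size ≤ M := by
    intro x
    rw [size_rename]; exact hdM x
  have hbM : 2 * 2 ^ b + 10 ≤ M := by rw [hM]; omega
  have hvars : ∀ x ∈ A.vars.toList, ∀ Γ' : Set Fm, Γ ⊆ Γ' →
      Can F Γ' [imp E (iff ((δ x).rename f) (σ x))] (K * S ^ 4) := by
    intro x hx Γ' hΓ'
    rw [Finset.mem_toList] at hx
    have hxW := hA hx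
    have hKe : K * S ^ 4 = 2 * (60 * cd * S ^ 4) + 60 * c1 * S ^ 4 + 60 * c2 * S ^ 4 +
        60 * c3 * S ^ 4 + 60 * c4 * S ^ 4 := by rw [hK]; ring
    have s34 : S ^ 3 ≤ S ^ 4 := Nat.pow_le_pow_right hS (by norm_num)
    have k1 : c1 * M ≤ 60 * c1 * S ^ 4 := by
      calc c1 * M = 60 * c1 * S ^ 3 := by rw [hM]; ring
        _ ≤ _ := Nat.mul_le_mul_left _ s34
    have k2 : c2 * M ≤ 60 * c2 * S ^ 4 := by
      calc c2 * M = 60 * c2 * S ^ 3 := by rw [hM]; ring
        _ ≤ _ := Nat.mul_le_mul_left _ s34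
    have k3 : c3 * M ≤ 60 * c3 * S ^ 4 := by
      calc c3 * M = 60 * c3 * S ^ 3 := by rw [hM]; ring
        _ ≤ _ := Nat.mul_le_mul_left _ s34
    have k4 : c4 * M ≤ 60 * c4 * S ^ 4 := by
      calc c4 * M = 60 * c4 * S ^ 3 := by rw [hM]; ring
        _ ≤ _ := Nat.mul_le_mul_left _ s34
    have kd : cd * M * 2 ^ b ≤ 60 * cd * S ^ 4 := by
      calc cd * M * 2 ^ b ≤ cd * M * S := Nat.mul_le_mul_left _ hbS
        _ = 60 * cd * S ^ 4 := by rw [hM]; ring
    by_cases hxp : x = p
    · subst hxp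
      have e0 : σ x = X := by rw [hσ]; simp
      rw [e0, hδr]
      have d1 := hd z b (bit x) α1 (fun β => f (g (blk x) β)) E M hα1 hE hbM Γ' (t1 Γ' hΓ')
        (t2 Γ' hΓ')
      rw [hbit, if_pos rfl] at d1
      refine (app1 d1 (Y := imp E (iff (dec z b (fun β => f (g (blk x) β)) (bit x)) X))
        (k' := c3 * M + c4 * M) ?_).mono subset_rfl ?_
      · intro Γ'' hΓ'' hm
        have hXs : (dec z b (fun β => f (g (blk x) β)) (bit x)).size ≤ M := by
          rw [← hδr]; exact hdM' x
        cases t with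
        | true =>
          refine ((q3 [E, dec z b (fun β => f (g (blk x) β)) (bit x), X, var z] M hM1 (by
            intro Y hY; simp only [List.mem_cons, List.not_mem_nil, or_false] at hY
            rcases hY with rfl | rfl | rfl | rfl
            exacts [hE, hXs, hX, by simpa [size] using hM1]) Γ'' (by
            intro Y hY; simp only [List.mem_cons, List.not_mem_nil, or_false] at hY
            rcases hY with rfl | rfl
            · simpa [subst, asg, iff, cst, top] using hm
            · simpa [subst, asg, sg] using hΓ'' (hΓ' hsg))).sub (by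
              simp [subst, asg, iff])).mono subset_rfl (by omega)
        | false =>
          refine ((q4 [E, dec z b (fun β => f (g (blk x) β)) (bit x), X, var z] M hM1 (by
            intro Y hY; simp only [List.mem_cons, List.not_mem_nil, or_false] at hY
            rcases hY with rfl | rfl | rfl | rfl
            exacts [hE, hXs, hX, by simpa [size] using hM1]) Γ'' (by
            intro Y hY; simp only [List.mem_cons, List.not_mem_nil, or_false] at hY
            rcases hY with rfl | rfl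
            · simpa [subst, asg, iff, cst, top] using hm
            · simpa [subst, asg, sg] using hΓ'' (hΓ' hsg))).sub (by
              simp [subst, asg, iff])).mono subset_rfl (by omega)
      · rw [hKe]; omega
    · have e0 : σ x = δ x := by rw [hσ, hδ]; simp [hxp]
      rw [e0]
      by_cases hbx : blk x = blk p
      · -- same block
        have hbne : bit x ≠ bit p := fun h => hxp (hlay.inj x hxW p hpW hbx h)
        have d1 := hd z b (bit x) α1 (fun β => f (g (blk p) β)) E M hα1 hE hbM Γ' (t1 Γ' hΓ')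
          (t2 Γ' hΓ')
        rw [hbit, if_neg hbne] at d1
        have d2 := hd z b (bit x) α (g (blk p)) E M hα hE hbM Γ' (hΓ' hvar)
          (fun β hβ hne => hΓ' (hneg β hβ hne))
        have e1 : dec z b (fun β => f (g (blk p) β)) (bit x) = (δ x).rename f := by
          rw [hδr, hbx]
        have e2 : dec z b (g (blk p)) (bit x) = δ x := by
          rw [hδ]; unfold dlay; rw [hbx]
        rw [e1] at d1
        rw [e2] at d2
        have q := q2 [E, (δ x).rename f, δ x, cst z (α.testBit (bit x))] M hM1 (by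
          intro Y hY; simp only [List.mem_cons, List.not_mem_nil, or_false] at hY
          rcases hY with rfl | rfl | rfl | rfl
          exacts [hE, hdM' x, hdM x, hX0 _]) (Γ' ∪ {B | B ∈ [imp E (iff ((δ x).rename f)
            (cst z (α.testBit (bit x))))] ++ [imp E (iff (δ x) (cst z (α.testBit (bit x))))]}) (by
          intro Y hY; simp only [List.mem_cons, List.not_mem_nil, or_false] at hY
          rcases hY with rfl | rfl <;> right <;> simp [subst, asg, iff])
        refine (((d1.append d2).cut q).sub (by simp [subst, asg, iff])).mono subset_rfl ?_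
        rw [hKe]; omega
      · -- another block
        have e1 : (δ x).rename f = δ x := by
          rw [hδr]
          have e2 : (fun β => f (g (blk x) β)) = g (blk x) := by
            funext β; exact hfo _ hbx β
          rw [e2, hδ]; rfl
        rw [e1]
        refine ((q1 [E, δ x] M hM1 (by
          intro Y hY; simp only [List.mem_cons, List.not_mem_nil, or_false] at hY
          rcases hY with rfl | rfl
          exacts [hE, hdM x]) Γ' (by simp)).sub (by simp [subst, asg, iff])).mono subset_rfl ?_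
        rw [hKe]; omega
  have hequ : ∀ Γ' : Set Fm, Γ ⊆ Γ' → Can F Γ' [imp E (iff (A.subst fun x => (δ x).rename f)
      (A.subst σ))] ((K + 60 * cp) * S ^ 7) := by
    intro Γ' hΓ'
    refine (appM (fun x => imp E (iff ((δ x).rename f) (σ x))) A.vars.toList
      (fun x hx => hvars x hx Γ' hΓ') (Y := imp E (iff (A.subst fun x => (δ x).rename f)
      (A.subst σ))) (k' := cp * M * A.size) ?_).mono subset_rfl ?_
    · intro Γ'' _ hmem
      exact hp E A (fun x => (δ x).rename f) σ M hE hArs hG Γ'' fun x hx =>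
        hmem x (Finset.mem_toList.2 hx)
    · rw [Finset.length_toList]
      have e0 : A.vars.card ≤ S := (vars_card_le A).trans hAS
      have e1 : A.vars.card * (K * S ^ 4) ≤ S * (K * S ^ 4) := Nat.mul_le_mul_right _ e0
      have e2 : S * (K * S ^ 4) = K * S ^ 5 := by ring
      have e3 : K * S ^ 5 ≤ K * S ^ 7 := Nat.mul_le_mul_left _ s57
      have e4 : cp * M * A.size ≤ cp * M * S := Nat.mul_le_mul_left _ hAS
      have e5 : cp * M * S = 60 * cp * S ^ 4 := by rw [hM]; ring
      have e6 : 60 * cp * S ^ 4 ≤ 60 * cp * S ^ 7 := Nat.mul_le_mul_left _ s47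
      rw [add_mul]
      omega
  have g1 := hworld Γ subset_rfl
  have g2 := hequ Γ subset_rfl
  have q := q5 [E, Wd z b (fun j β => f (g j β)) m, A.subst fun x => (δ x).rename f,
    A.subst σ] M hM1 (by
      intro Y hY; simp only [List.mem_cons, List.not_mem_nil, or_false] at hY
      rcases hY with rfl | rfl | rfl | rfl
      exacts [hE, by rw [hM]; omega, hArs, hG])
    (Γ ∪ {B | B ∈ [imp (Wd z b (fun j β => f (g j β)) m) (A.subst fun x => (δ x).rename f)] ++
      ([imp E (Wd z b (fun j β => f (g j β)) m)] ++ [imp E (iff (A.subst fun x =>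
        (δ x).rename f) (A.subst σ))])}) (by
      intro Y hY; simp only [List.mem_cons, List.not_mem_nil, or_false] at hY
      rcases hY with rfl | rfl | rfl <;> right <;> simp [subst, asg, iff])
  refine (((hren.append (g1.append g2)).cut q).sub (by simp [subst, asg])).mono subset_rfl ?_
  have e1 : cr * M * M = 3600 * cr * S ^ 6 := by rw [mul_assoc, hM3]; ring
  have e2 : 3600 * cr * S ^ 6 ≤ 3600 * cr * S ^ 7 := Nat.mul_le_mul_left _ s67
  have e3 : c5 * M = 60 * c5 * S ^ 3 := by rw [hM]; ring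
  have e4 : 60 * c5 * S ^ 3 ≤ 60 * c5 * S ^ 7 := Nat.mul_le_mul_left _ s37
  have e5 : (3600 * cr + (3600 * ci + 120 * cc) + (K + 60 * cp) + 60 * c5) * S ^ 7 =
      3600 * cr * S ^ 7 + (3600 * ci + 120 * cc) * S ^ 7 + (K + 60 * cp) * S ^ 7 +
      60 * c5 * S ^ 7 := by
    rw [add_mul, add_mul, add_mul]
  rw [e5]
  omega

theorem leaf (F : List Rule) (hF : IsFrege F) (h1 : S_ren F) (h2 : S_repl F) (h3 : S_cintro F)
    (h4 : S_ohuse F) (h6 : S_ohintro F) (h7 : S_deval F) :
    ∃ c : ℕ, ∀ (z b m : ℕ) (g : ℕ → ℕ → ℕ) (W : Finset ℕ) (blk bit : ℕ → ℕ),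
    Lay z b m g W blk bit → ∀ (A : Fm) (p : ℕ) (X : Fm) (S : ℕ), A.vars ⊆ W → p ∈ W →
    2 ^ b ≤ S → m ≤ S → A.size ≤ S → X.size ≤ 6 * S ^ 2 →
    (A.subst fun x => if x = p then X else dlay z b g blk bit x).size ≤ 6 * S ^ 2 →
    ∀ (α : ℕ) (t : Bool), α < 2 ^ b → ∀ Γ : Set Fm,
    imp (Wd z b g m) (A.subst (dlay z b g blk bit)) ∈ Γ →
    Can F Γ [imp (and (and (Wd z b g m) (var (g (blk p) α))) (sg t X))
      (A.subst fun x => if x = p then X else dlay z b g blk bit x)] (c * S ^ 7) := by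
  obtain ⟨cc, hc⟩ := core F hF h1 h2 h3 h6 h7
  obtain ⟨cm, hm⟩ := conj_mem hF
  obtain ⟨cu, hu⟩ := h4
  obtain ⟨c1, q1⟩ := schemaL hF [] (imp (and (and (var 0) (var 1)) (var 2)) (var 1)) (by
    intro v _; simp [eval]; tauto)
  obtain ⟨c2, q2⟩ := schemaL hF [] (imp (and (and (var 0) (var 1)) (var 2)) (var 2)) (by
    intro v _; simp [eval])
  obtain ⟨c3, q3⟩ := schemaL hF [imp (var 0) (var 3)]
    (imp (and (and (var 0) (var 1)) (var 2)) (var 3)) (by
    intro v h; simp [eval] at h ⊢; tauto)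
  refine ⟨(60 * cm + 60 * c3) + 60 * c1 + 60 * c2 + 3600 * cu + cc, ?_⟩
  intro z b m g W blk bit hlay A p X S hA hpW hbS hmS hAS hX hG α t hα Γ hprem
  obtain ⟨M, hM⟩ : ∃ M, M = 60 * S ^ 3 := ⟨_, rfl⟩
  have hb1 : 1 ≤ 2 ^ b := Nat.one_le_two_pow
  have hS : 1 ≤ S := hb1.trans hbS
  have s13 : S ≤ S ^ 3 := Nat.le_self_pow (by norm_num) S
  have s23 : S ^ 2 ≤ S ^ 3 := Nat.pow_le_pow_right hS (by norm_num)
  have s34 : S ^ 3 ≤ S ^ 4 := Nat.pow_le_pow_right hS (by norm_num)
  have s37 : S ^ 3 ≤ S ^ 7 := Nat.pow_le_pow_right hS (by norm_num)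
  have s57 : S ^ 5 ≤ S ^ 7 := Nat.pow_le_pow_right hS (by norm_num)
  have hWs : (Wd z b g m).size ≤ 35 * S ^ 3 := Wd_size z b m g hS hbS (by omega)
  have hsgX : (sg t X).size ≤ X.size + 1 := sg_size t X
  obtain ⟨E, hE⟩ : ∃ E, E = and (and (Wd z b g m) (var (g (blk p) α))) (sg t X) := ⟨_, rfl⟩
  have hEs : E.size ≤ M := by
    rw [hE]; simp only [size]; rw [hM]; omega
  rw [← hE]
  obtain ⟨G, hGd⟩ : ∃ G, G = A.subst fun x => if x = p then X else dlay z b g blk bit x :=
    ⟨_, rfl⟩
  rw [← hGd]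
  have hM1 : 1 ≤ M := (size_pos E).trans hEs
  have hvs : ∀ x, (var x).size ≤ M := fun x => by simpa [size] using hM1
  have hOHs : ∀ j, (OH z b (g j)).size ≤ M := by
    intro j
    have := OH_size z b (g j) hS hbS
    rw [hM]; omega
  have hWM : (Wd z b g m).size ≤ M := by rw [hM]; omega
  have hsM : (sg t X).size ≤ M := by rw [hM]; omega
  -- the facts
  have f3 : ∀ j ∈ List.range m, Can F Γ [imp E (OH z b (g j))] (cm * M * m + c3 * M) := by
    intro j hj
    have k1 := hm z ((List.range m).map fun j => OH z b (g j)) M hM1 hWM (OH z b (g j))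
      (List.mem_map.2 ⟨j, hj, rfl⟩) Γ
    rw [List.length_map, List.length_range] at k1
    have k2 := q3 [Wd z b g m, var (g (blk p) α), sg t X, OH z b (g j)] M hM1 (by
      intro Y hY; simp only [List.mem_cons, List.not_mem_nil, or_false] at hY
      rcases hY with rfl | rfl | rfl | rfl
      exacts [hWM, hvs _, hsM, hOHs j]) (Γ ∪ {B | B ∈ [imp (conjL z ((List.range m).map fun j =>
        OH z b (g j))) (OH z b (g j))]}) (by
      intro Y hY; simp only [List.mem_singleton] at hY; subst hY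
      right; simp [subst, asg, Wd])
    exact (k1.cut k2).sub (by simp [subst, asg, hE])
  have f1 : ∀ Γ' : Set Fm, Can F Γ' [imp E (var (g (blk p) α))] (c1 * M) := by
    intro Γ'
    exact (q1 [Wd z b g m, var (g (blk p) α), sg t X] M hM1 (by
      intro Y hY; simp only [List.mem_cons, List.not_mem_nil, or_false] at hY
      rcases hY with rfl | rfl | rfl
      exacts [hWM, hvs _, hsM]) Γ' (by simp)).sub (by simp [subst, asg, hE])
  have f2 : ∀ Γ' : Set Fm, Can F Γ' [imp E (sg t X)] (c2 * M) := by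
    intro Γ'
    exact (q2 [Wd z b g m, var (g (blk p) α), sg t X] M hM1 (by
      intro Y hY; simp only [List.mem_cons, List.not_mem_nil, or_false] at hY
      rcases hY with rfl | rfl | rfl
      exacts [hWM, hvs _, hsM]) Γ' (by simp)).sub (by simp [subst, asg, hE])
  obtain ⟨α1, hα1, hbit⟩ := setbit (r := bit p) t hα (hlay.blt p hpW).2
  have hjm := (hlay.blt p hpW).1
  have hM3 : M * M = 3600 * S ^ 6 := by rw [hM]; ring
  have hfin : Can F Γ [imp E G] ((List.range m).length * (cm * M * m + c3 * M) + (c1 * M +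
      (c2 * M + (((List.range (2 ^ b)).filter fun β => β ≠ α).length * (cu * M * M) +
        cc * S ^ 7)))) := by
    refine appM (fun j => imp E (OH z b (g j))) (List.range m) f3 ?_
    intro Γ1 hΓ1 hoh
    refine app1 (f1 Γ1) ?_
    intro Γ2 hΓ2 hvar
    refine app1 (f2 Γ2) ?_
    intro Γ3 hΓ3 hsg
    refine appM (fun β => imp E (neg (var (g (blk p) β))))
      ((List.range (2 ^ b)).filter fun β => β ≠ α) ?_ ?_
    · intro β hβ
      rw [List.mem_filter, List.mem_range] at hβ
      exact hu z b (g (blk p)) E M α β hEs (hOHs _) hα hβ.1 (by simpa using hβ.2) Γ3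
        (hΓ3 (hΓ2 (hoh _ (List.mem_range.2 hjm)))) (hΓ3 hvar)
    · intro Γ4 hΓ4 hneg
      rw [hGd]
      exact hc z b m g W blk bit hlay A p X E S hA hpW hbS hmS hAS (by omega)
        (by rw [← hM]; exact hEs) (by omega) α α1 t hα hα1 hbit Γ4
        (hΓ4 (hΓ3 (hΓ2 (hΓ1 hprem)))) (hΓ4 (hΓ3 hvar))
        (fun β hβ hne => hneg β (by rw [List.mem_filter, List.mem_range]; simp [hβ, hne]))
        (fun j hj => hΓ4 (hΓ3 (hΓ2 (hoh j (List.mem_range.2 hj))))) (hΓ4 hsg)
  refine hfin.mono subset_rfl ?_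
  rw [List.length_range]
  have hfl : ((List.range (2 ^ b)).filter fun β => β ≠ α).length ≤ S := by
    refine (List.length_filter_le _ _).trans ?_
    rw [List.length_range]; exact hbS
  have a1 : m * (cm * M * m + c3 * M) ≤ (60 * cm + 60 * c3) * S ^ 7 := by
    have e1 : cm * M * m ≤ 60 * cm * S ^ 4 := by
      calc cm * M * m ≤ cm * M * S := Nat.mul_le_mul_left _ hmS
        _ = 60 * cm * S ^ 4 := by rw [hM]; ring
    have e2 : c3 * M ≤ 60 * c3 * S ^ 4 := by
      calc c3 * M = 60 * c3 * S ^ 3 := by rw [hM]; ring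
        _ ≤ _ := Nat.mul_le_mul_left _ s34
    calc m * (cm * M * m + c3 * M) ≤ S * (60 * cm * S ^ 4 + 60 * c3 * S ^ 4) :=
          Nat.mul_le_mul hmS (Nat.add_le_add e1 e2)
      _ = (60 * cm + 60 * c3) * S ^ 5 := by ring
      _ ≤ _ := Nat.mul_le_mul_left _ s57
  have a2 : c1 * M ≤ 60 * c1 * S ^ 7 := by
    calc c1 * M = 60 * c1 * S ^ 3 := by rw [hM]; ring
      _ ≤ _ := Nat.mul_le_mul_left _ s37
  have a3 : c2 * M ≤ 60 * c2 * S ^ 7 := by
    calc c2 * M = 60 * c2 * S ^ 3 := by rw [hM]; ring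
      _ ≤ _ := Nat.mul_le_mul_left _ s37
  have a4 : ((List.range (2 ^ b)).filter fun β => β ≠ α).length * (cu * M * M) ≤
      3600 * cu * S ^ 7 := by
    calc ((List.range (2 ^ b)).filter fun β => β ≠ α).length * (cu * M * M) ≤
        S * (cu * M * M) := Nat.mul_le_mul_right _ hfl
      _ = S * (cu * (3600 * S ^ 6)) := by rw [mul_assoc cu, hM3]
      _ = 3600 * cu * S ^ 7 := by ring
  have a5 : ((60 * cm + 60 * c3) + 60 * c1 + 60 * c2 + 3600 * cu + cc) * S ^ 7 =
      (60 * cm + 60 * c3) * S ^ 7 + 60 * c1 * S ^ 7 + 60 * c2 * S ^ 7 + 3600 * cu * S ^ 7 +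
      cc * S ^ 7 := by rw [add_mul, add_mul, add_mul, add_mul]
  rw [a5]
  omega

theorem t_wstep (F : List Rule) (hF : IsFrege F) (h1 : S_ren F) (h2 : S_repl F)
    (h3 : S_cintro F) (h4 : S_ohuse F) (h5 : S_ohcase F) (h6 : S_ohintro F) (h7 : S_deval F) :
    S_wstep F := by
  obtain ⟨cl, hl⟩ := leaf F hF h1 h2 h3 h4 h6 h7
  obtain ⟨cm, hm⟩ := conj_mem hF
  obtain ⟨ch, hh⟩ := h5
  obtain ⟨c1, q1⟩ := schemaL hF [imp (and (var 0) (var 1)) (var 2),
    imp (and (var 0) (neg (var 1))) (var 2)] (imp (var 0) (var 2)) (by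
    intro v h; simp [eval] at h ⊢; tauto)
  refine ⟨60 * cm + (2 * cl + 60 * c1) + 120 * ch, ?_⟩
  intro z b m g W blk bit hlay A p ψ hA hAp Γ hprem
  obtain ⟨S, hS⟩ : ∃ S, S = A.size + (A.subst (Function.update var p ψ)).size + m + 2 ^ b :=
    ⟨_, rfl⟩
  rw [← hS]
  by_cases hp : p ∈ A.vars
  · have hb1 : 1 ≤ 2 ^ b := Nat.one_le_two_pow
    have hS1 : 1 ≤ S := by omega
    obtain ⟨δ, hδ⟩ : ∃ δ, δ = dlay z b g blk bit := ⟨_, rfl⟩
    have hpW := hA hp
    obtain ⟨X, hX⟩ : ∃ X, X = ψ.subst δ := ⟨_, rfl⟩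
    have hδs : ∀ x, (δ x).size ≤ 6 * S := by
      intro x; rw [hδ]; exact dec_size _ _ _ _ hS1 (by omega)
    have hψ : ψ.size ≤ S := by
      have := size_le_subst (σ := Function.update var p ψ) hp
      rw [Function.update_self] at this
      omega
    have hXs : X.size ≤ 6 * S ^ 2 := by
      have e1 := size_subst_le (σ := δ) (M := 6 * S) (by omega) (A := ψ) fun x _ => hδs x
      have e2 : ψ.size * (6 * S) ≤ S * (6 * S) := Nat.mul_le_mul_right _ hψ
      have e3 : S * (6 * S) = 6 * S ^ 2 := by ring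
      rw [hX]; omega
    have hGe : (A.subst (Function.update var p ψ)).subst δ =
        A.subst fun x => if x = p then X else δ x := by
      rw [subst_subst]
      congr 1
      funext x
      by_cases hx : x = p
      · subst hx; simp [hX]
      · simp [hx, subst]
    have hGs : (A.subst fun x => if x = p then X else δ x).size ≤ 6 * S ^ 2 := by
      rw [← hGe]
      have e1 := size_subst_le (σ := δ) (M := 6 * S) (by omega)
        (A := A.subst (Function.update var p ψ)) fun x _ => hδs x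
      have e2 : (A.subst (Function.update var p ψ)).size * (6 * S) ≤ S * (6 * S) :=
        Nat.mul_le_mul_right _ (by omega)
      have e3 : S * (6 * S) = 6 * S ^ 2 := by ring
      omega
    obtain ⟨G, hG⟩ : ∃ G, G = A.subst fun x => if x = p then X else δ x := ⟨_, rfl⟩
    rw [← hδ, hGe, ← hG]
    rw [← hG] at hGs
    obtain ⟨M, hM⟩ : ∃ M, M = 60 * S ^ 3 := ⟨_, rfl⟩
    have s13 : S ≤ S ^ 3 := Nat.le_self_pow (by norm_num) S
    have s23 : S ^ 2 ≤ S ^ 3 := Nat.pow_le_pow_right hS1 (by norm_num)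
    have s1 : 1 ≤ S ^ 3 := Nat.one_le_pow _ _ hS1
    have hWs : (Wd z b g m).size ≤ 35 * S ^ 3 := Wd_size z b m g hS1 (by omega) (by omega)
    have hWM : (Wd z b g m).size ≤ M := by rw [hM]; omega
    have hM1 : 1 ≤ M := (size_pos _).trans hWM
    have hOHs : (OH z b (g (blk p))).size ≤ M := by
      have := OH_size z b (g (blk p)) hS1 (by omega)
      rw [hM]; omega
    have hjm := (hlay.blt p hpW).1
    have k1 := hm z ((List.range m).map fun j => OH z b (g j)) M hM1 hWM (OH z b (g (blk p)))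
      (List.mem_map.2 ⟨blk p, List.mem_range.2 hjm, rfl⟩) Γ
    rw [List.length_map, List.length_range] at k1
    have k1' : Can F Γ [imp (Wd z b g m) (OH z b (g (blk p)))] (cm * M * m) := k1
    have hleaf : ∀ Γ' : Set Fm, Γ ⊆ Γ' → ∀ α ∈ List.range (2 ^ b),
        Can F Γ' [imp (and (Wd z b g m) (var (g (blk p) α))) G] ((2 * cl + 60 * c1) * S ^ 7) := by
      intro Γ' hΓ' α hα
      rw [List.mem_range] at hα
      have l1 := hl z b m g W blk bit hlay A p X S hA hpW (by omega) (by omega) (by omega) hXs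
        (by rw [← hδ, ← hG]; exact hGs) α true hα Γ' (hΓ' hprem)
      have l2 := hl z b m g W blk bit hlay A p X S hA hpW (by omega) (by omega) (by omega) hXs
        (by rw [← hδ, ← hG]; exact hGs) α false hα Γ' (hΓ' hprem)
      rw [← hδ, ← hG] at l1 l2
      have q := q1 [and (Wd z b g m) (var (g (blk p) α)), X, G] M hM1 (by
        intro Y hY; simp only [List.mem_cons, List.not_mem_nil, or_false] at hY
        rcases hY with rfl | rfl | rfl
        · simp only [size]; rw [hM]; omega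
        · rw [hM]; omega
        · rw [hM]; omega) (Γ' ∪ {B | B ∈ [imp (and (and (Wd z b g m) (var (g (blk p) α)))
          (sg true X)) G] ++ [imp (and (and (Wd z b g m) (var (g (blk p) α)))
          (sg false X)) G]}) (by
        intro Y hY; simp only [List.mem_cons, List.not_mem_nil, or_false] at hY
        rcases hY with rfl | rfl <;> right <;> simp [subst, asg, sg])
      refine (((l1.append l2).cut q).sub (by simp [subst, asg])).mono subset_rfl ?_
      have e1 : c1 * M ≤ 60 * c1 * S ^ 7 := by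
        calc c1 * M = 60 * c1 * S ^ 3 := by rw [hM]; ring
          _ ≤ _ := Nat.mul_le_mul_left _ (Nat.pow_le_pow_right hS1 (by norm_num))
      have e2 : (2 * cl + 60 * c1) * S ^ 7 = 2 * (cl * S ^ 7) + 60 * c1 * S ^ 7 := by ring
      rw [e2]; omega
    have hfin : Can F Γ [imp (Wd z b g m) G] (cm * M * m + ((List.range (2 ^ b)).length *
        ((2 * cl + 60 * c1) * S ^ 7) + ch * M * (2 ^ b + 1))) := by
      refine app1 k1' ?_
      intro Γ1 hΓ1 hoh
      refine appM (fun α => imp (and (Wd z b g m) (var (g (blk p) α))) G) (List.range (2 ^ b))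
        (hleaf Γ1 hΓ1) ?_
      intro Γ2 hΓ2 hall
      exact hh z b (g (blk p)) (Wd z b g m) G M hWM (by rw [hM]; omega) hOHs Γ2 (hΓ2 hoh)
        fun α hα => hall α (List.mem_range.2 hα)
    refine hfin.mono subset_rfl ?_
    rw [List.length_range]
    have p1 : S ^ 4 ≤ S ^ 20 := Nat.pow_le_pow_right hS1 (by norm_num)
    have p2 : S ^ 8 ≤ S ^ 20 := Nat.pow_le_pow_right hS1 (by norm_num)
    have a1 : cm * M * m ≤ 60 * cm * S ^ 20 := by
      calc cm * M * m ≤ cm * M * S := Nat.mul_le_mul_left _ (by omega)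
        _ = 60 * cm * S ^ 4 := by rw [hM]; ring
        _ ≤ _ := Nat.mul_le_mul_left _ p1
    have a2 : 2 ^ b * ((2 * cl + 60 * c1) * S ^ 7) ≤ (2 * cl + 60 * c1) * S ^ 20 := by
      calc 2 ^ b * ((2 * cl + 60 * c1) * S ^ 7) ≤ S * ((2 * cl + 60 * c1) * S ^ 7) :=
            Nat.mul_le_mul_right _ (by omega)
        _ = (2 * cl + 60 * c1) * S ^ 8 := by ring
        _ ≤ _ := Nat.mul_le_mul_left _ p2
    have a3 : ch * M * (2 ^ b + 1) ≤ 120 * ch * S ^ 20 := by
      calc ch * M * (2 ^ b + 1) ≤ ch * M * (2 * S) := Nat.mul_le_mul_left _ (by omega)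
        _ = 120 * ch * S ^ 4 := by rw [hM]; ring
        _ ≤ _ := Nat.mul_le_mul_left _ p1
    have a4 : (60 * cm + (2 * cl + 60 * c1) + 120 * ch) * S ^ 20 =
        60 * cm * S ^ 20 + (2 * cl + 60 * c1) * S ^ 20 + 120 * ch * S ^ 20 := by
      rw [add_mul, add_mul]
    rw [a4]
    omega
  · have e : A.subst (Function.update var p ψ) = A := by
      have : A.subst (Function.update var p ψ) = A.subst var := by
        apply subst_congr
        intro n hn
        rw [Function.update_of_ne]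
        rintro rfl
        exact hp hn
      rw [this, subst_var]
    rw [e]
    exact (Can.hyp hprem).mono subset_rfl (Nat.zero_le _)

end Pool.Agent.H586P.T_wstep
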